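import Pool.Agent.BlMat.Basic

set_option autoImplicit false

/-!
# Block C1: the Cauchy transform of a compactly supported `C¹` function

We prove `Stmt_Cauchy` and `Stmt_CauchyBound`.
-/

namespace Pool.Agent.BlMat

open Complex Metric Set Filter Topology MeasureTheory
open scoped ComplexConjugate ContDiff Convolution

namespace C1

/-- The Cauchy kernel `1 / w` is integrable on balls centred at `0`. -/
theorem integrableOn_inv_ball (r : ℝ) : IntegrableOn (fun w : ℂ => ‖w‖⁻¹) (ball (0 : ℂ) r) := by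
  have h := (integrableOn_fun_norm_addHaar (volume : Measure ℂ) (f := fun y : ℝ => y⁻¹)
    (r := r)).mpr
  refine h ?_
  have h1 : IntegrableOn (fun _ : ℝ => (1 : ℝ)) (Ioo 0 r) := by
    rw [integrableOn_const_iff]
    right
    simp
  refine h1.congr_fun ?_ measurableSet_Ioo
  intro y hy
  simp only [Complex.finrank_real_complex, Nat.add_one_sub_one, pow_one, smul_eq_mul]
  rw [mul_inv_cancel₀ hy.1.ne']

theorem locallyIntegrable_inv : LocallyIntegrable (fun w : ℂ => w⁻¹) := by
  intro z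
  refine ⟨ball 0 (‖z‖ + 1), isOpen_ball.mem_nhds (by simp), ?_⟩
  have h := integrableOn_inv_ball (‖z‖ + 1)
  refine Integrable.mono h (by fun_prop) ?_
  filter_upwards with w
  simp

/-- The Cauchy transform as a convolution. -/
theorem cauchyT_eq (v : ℂ → ℂ) :
    cauchyT v = fun z => (Real.pi : ℂ)⁻¹ *
      ((fun w : ℂ => w⁻¹) ⋆[ContinuousLinearMap.mul ℝ ℂ, volume] v) z := by
  funext z
  rw [cauchyT, convolution_def]
  congr 1
  refine integral_congr_ae (Eventually.of_forall fun w => ?_)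
  simp only [ContinuousLinearMap.mul_apply']
  rw [div_eq_mul_inv, mul_comm]

theorem contDiff_cauchyT {v : ℂ → ℂ} (hv : ContDiff ℝ 1 v) (hs : HasCompactSupport v) :
    ContDiff ℝ 1 (cauchyT v) := by
  rw [cauchyT_eq]
  have h := hs.contDiff_convolution_right (n := 1) (ContinuousLinearMap.mul ℝ ℂ)
    locallyIntegrable_inv (by exact_mod_cast hv)
  exact contDiff_const.mul (by exact_mod_cast h)

theorem fderiv_cauchyT {v : ℂ → ℂ} (hv : ContDiff ℝ 1 v) (hs : HasCompactSupport v) (z h : ℂ) :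
    fderiv ℝ (cauchyT v) z h = cauchyT (fun w => fderiv ℝ v w h) z := by
  have h1 := hs.hasFDerivAt_convolution_right (ContinuousLinearMap.mul ℝ ℂ)
    locallyIntegrable_inv hv z
  have h2 := (h1.const_mul ((Real.pi : ℂ)⁻¹)).fderiv
  rw [cauchyT_eq v, h2, cauchyT_eq]
  simp only [_root_.smul_apply, smul_eq_mul]
  rw [convolution_precompR_apply _ locallyIntegrable_inv (hs.fderiv ℝ)
    (hv.continuous_fderiv one_ne_zero)]

/-- Pointwise bound of the integrand. -/
theorem norm_integrand_le {v : ℂ → ℂ} {R B : ℝ} (h0 : ∀ z, R < ‖z‖ → v z = 0)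
    (hB : ∀ z, ‖v z‖ ≤ B) (z w : ℂ) :
    ‖v (z - w) / w‖ ≤ B * ((ball (0 : ℂ) 1).indicator (fun w => ‖w‖⁻¹) w +
      (closedBall z R).indicator (fun _ => (1 : ℝ)) w) := by
  have hB0 : 0 ≤ B := (norm_nonneg _).trans (hB 0)
  rw [norm_div, div_eq_mul_inv]
  by_cases hw : w ∈ ball (0 : ℂ) 1
  · rw [indicator_of_mem hw]
    have h1 : 0 ≤ (closedBall z R).indicator (fun _ => (1 : ℝ)) w :=
      indicator_nonneg (fun _ _ => zero_le_one) _
    calc ‖v (z - w)‖ * ‖w‖⁻¹ ≤ B * ‖w‖⁻¹ := by gcongr; exact hB _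
      _ ≤ _ := by
        gcongr
        linarith
  · rw [indicator_of_notMem hw, zero_add]
    by_cases hz : w ∈ closedBall z R
    · rw [indicator_of_mem hz]
      have h1 : 1 ≤ ‖w‖ := by simpa using hw
      have h2 : ‖w‖⁻¹ ≤ 1 := inv_le_one_of_one_le₀ h1
      calc ‖v (z - w)‖ * ‖w‖⁻¹ ≤ B * 1 := by
            gcongr
            exact hB _
        _ = _ := rfl
    · rw [indicator_of_notMem hz]
      have : v (z - w) = 0 := by
        apply h0
        rw [mem_closedBall, not_le, dist_comm, dist_eq_norm] at hz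
        exact hz
      simp [this]

theorem integrable_bound (z : ℂ) (R : ℝ) :
    Integrable (fun w : ℂ => (ball (0 : ℂ) 1).indicator (fun w => ‖w‖⁻¹) w +
      (closedBall z R).indicator (fun _ => (1 : ℝ)) w) := by
  refine Integrable.add ?_ ?_
  · exact (integrableOn_inv_ball 1).integrable_indicator measurableSet_ball
  · refine (integrableOn_const ?_).integrable_indicator measurableSet_closedBall
    exact measure_closedBall_lt_top.ne

theorem integrable_integrand {v : ℂ → ℂ} {R B : ℝ} (hv : Continuous v)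
    (h0 : ∀ z, R < ‖z‖ → v z = 0) (hB : ∀ z, ‖v z‖ ≤ B) (z : ℂ) :
    Integrable (fun w => v (z - w) / w) := by
  refine Integrable.mono' ((integrable_bound z R).const_mul B) ?_
    (Eventually.of_forall (norm_integrand_le h0 hB z))
  exact ((by fun_prop : Measurable fun w : ℂ => v (z - w)).div measurable_id).aestronglyMeasurable

theorem cauchyT_bound (R : ℝ) : ∃ C : ℝ, ∀ (v : ℂ → ℂ) (B : ℝ), Continuous v →
    (∀ z, R < ‖z‖ → v z = 0) → (∀ z, ‖v z‖ ≤ B) → ∀ z, ‖cauchyT v z‖ ≤ C * B := by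
  refine ⟨Real.pi⁻¹ * ((∫ w in ball (0 : ℂ) 1, ‖w‖⁻¹) +
    volume.real (closedBall (0 : ℂ) R)), ?_⟩
  intro v B _ h0 hB z
  have h1 : ‖∫ w, v (z - w) / w‖ ≤ ∫ w, B * ((ball (0 : ℂ) 1).indicator (fun w => ‖w‖⁻¹) w +
      (closedBall z R).indicator (fun _ => (1 : ℝ)) w) :=
    norm_integral_le_of_norm_le ((integrable_bound z R).const_mul B)
      (Eventually.of_forall (norm_integrand_le h0 hB z))
  have h2 : ∫ w, B * ((ball (0 : ℂ) 1).indicator (fun w => ‖w‖⁻¹) w +
      (closedBall z R).indicator (fun _ => (1 : ℝ)) w) =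
      B * ((∫ w in ball (0 : ℂ) 1, ‖w‖⁻¹) + volume.real (closedBall (0 : ℂ) R)) := by
    rw [integral_const_mul, integral_add, integral_indicator measurableSet_ball,
      integral_indicator measurableSet_closedBall, setIntegral_const, smul_eq_mul, mul_one]
    · congr 2
      rw [measureReal_def, measureReal_def, Measure.addHaar_closedBall_center]
    · exact (integrableOn_inv_ball 1).integrable_indicator measurableSet_ball
    · refine (integrableOn_const ?_).integrable_indicator measurableSet_closedBall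
      exact measure_closedBall_lt_top.ne
  rw [cauchyT, norm_mul, norm_inv, Complex.norm_real, Real.norm_of_nonneg Real.pi_pos.le]
  calc Real.pi⁻¹ * ‖∫ w, v (z - w) / w‖ ≤ Real.pi⁻¹ *
        (B * ((∫ w in ball (0 : ℂ) 1, ‖w‖⁻¹) + volume.real (closedBall (0 : ℂ) R))) := by
        gcongr
        exact h1.trans h2.le
    _ = _ := by ring

/-- A compactly supported continuous function: radius of the support and bound. -/
theorem exists_radius {v : ℂ → ℂ} (hv : Continuous v) (hs : HasCompactSupport v) :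
    ∃ R B : ℝ, 0 < R ∧ (∀ z, R < ‖z‖ → v z = 0) ∧ (∀ z, ‖v z‖ ≤ B) := by
  obtain ⟨B, hB⟩ := hv.bounded_above_of_compact_support hs
  obtain ⟨R, hR⟩ := hs.isCompact.isBounded.subset_closedBall (0 : ℂ)
  refine ⟨max R 1, B, by positivity, fun z hz => ?_, hB⟩
  by_contra h
  have h1 := hR (subset_tsupport _ (Function.mem_support.mpr h))
  rw [mem_closedBall_zero_iff] at h1
  exact absurd (le_max_left R 1) (by linarith [hz])

theorem mul_cauchyT {v : ℂ → ℂ} (hv : Continuous v) (hs : HasCompactSupport v) (z : ℂ) :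
    z * cauchyT v z = cauchyT (fun w => w * v w) z + (Real.pi : ℂ)⁻¹ * ∫ w, v w := by
  have hv2 : Continuous (fun w => w * v w) := continuous_id.mul hv
  have hs2 : HasCompactSupport (fun w => w * v w) := hs.mul_left
  obtain ⟨R, B, -, h0, hB⟩ := exists_radius hv2 hs2
  have hi := integrable_integrand hv2 h0 hB z
  have hvi : Integrable (fun w => v (z - w)) :=
    (hv.integrable_of_hasCompactSupport hs).comp_sub_left z
  rw [cauchyT, cauchyT, ← integral_sub_left_eq_self v volume z, ← mul_add,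
    ← integral_add hi hvi, mul_left_comm, ← integral_const_mul]
  congr 1
  refine integral_congr_ae ?_
  have h0 : ∀ᵐ w : ℂ, w ≠ 0 := by
    rw [ae_iff]
    simp
  filter_upwards [h0] with w hw
  field_simp
  ring

theorem decay1 {v : ℂ → ℂ} (hv : Continuous v) (hs : HasCompactSupport v) :
    ∃ C : ℝ, ∀ z : ℂ, (1 + ‖z‖) * ‖cauchyT v z‖ ≤ C := by
  obtain ⟨R, B, -, h0, hB⟩ := exists_radius hv hs
  have hv2 : Continuous (fun w => w * v w) := continuous_id.mul hv
  have hs2 : HasCompactSupport (fun w => w * v w) := hs.mul_left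
  obtain ⟨R', B', -, h0', hB'⟩ := exists_radius hv2 hs2
  obtain ⟨C, hC⟩ := cauchyT_bound R
  obtain ⟨C', hC'⟩ := cauchyT_bound R'
  refine ⟨C * B + (C' * B' + ‖(Real.pi : ℂ)⁻¹ * ∫ w, v w‖), fun z => ?_⟩
  have h1 := hC v B hv h0 hB z
  have h2 := hC' _ B' hv2 h0' hB' z
  have h3 : ‖z‖ * ‖cauchyT v z‖ ≤ C' * B' + ‖(Real.pi : ℂ)⁻¹ * ∫ w, v w‖ := by
    rw [← norm_mul, mul_cauchyT hv hs]
    exact (norm_add_le _ _).trans (by gcongr)
  linarith

theorem decay2 {v : ℂ → ℂ} (hv : Continuous v) (hs : HasCompactSupport v)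
    (h : ∫ w, v w = 0) : ∃ C : ℝ, ∀ z : ℂ, (1 + ‖z‖) ^ 2 * ‖cauchyT v z‖ ≤ C := by
  have hv2 : Continuous (fun w => w * v w) := continuous_id.mul hv
  have hs2 : HasCompactSupport (fun w => w * v w) := hs.mul_left
  obtain ⟨C, hC⟩ := decay1 hv hs
  obtain ⟨C', hC'⟩ := decay1 hv2 hs2
  refine ⟨C + C', fun z => ?_⟩
  have h1 := hC z
  have h2 := hC' z
  have h3 : ‖z‖ * ‖cauchyT v z‖ = ‖cauchyT (fun w => w * v w) z‖ := by
    rw [← norm_mul, mul_cauchyT hv hs, h, mul_zero, add_zero]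
  calc (1 + ‖z‖) ^ 2 * ‖cauchyT v z‖
      = (1 + ‖z‖) * ‖cauchyT v z‖ + (1 + ‖z‖) * (‖z‖ * ‖cauchyT v z‖) := by ring
    _ ≤ C + C' := by rw [h3]; linarith

theorem integral_fderiv_eq_zero {v : ℂ → ℂ} (hv : ContDiff ℝ 1 v) (hs : HasCompactSupport v)
    (h : ℂ) : ∫ w, fderiv ℝ v w h = 0 := by
  have h1 : Continuous (fun w => fderiv ℝ v w h) :=
    (hv.continuous_fderiv one_ne_zero).clm_apply continuous_const
  have h2 : HasCompactSupport (fun w => fderiv ℝ v w h) := hs.fderiv_apply ℝ h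
  have h3 := integral_mul_fderiv_eq_neg_fderiv_mul_of_integrable (μ := (volume : Measure ℂ))
    (f := fun _ : ℂ => (1 : ℂ)) (g := v) (v := h) (by simp)
    (by simpa using h1.integrable_of_hasCompactSupport h2)
    (by simpa using hv.continuous.integrable_of_hasCompactSupport hs)
    (fun x _ => by fun_prop) (fun x _ => hv.differentiable one_ne_zero x)
  simpa using h3

/-- The point of the unit circle of angle `θ`. -/
noncomputable def U (θ : ℝ) : ℂ := Real.cos θ + Real.sin θ * I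

theorem continuous_U : Continuous U := by
  unfold U
  fun_prop

theorem hasDerivAt_U (θ : ℝ) : HasDerivAt U (I * U θ) θ := by
  have h1 : HasDerivAt (fun θ : ℝ => ((Real.cos θ : ℝ) : ℂ)) ((-Real.sin θ : ℝ) : ℂ) θ :=
    (Real.hasDerivAt_cos θ).ofReal_comp
  have h2 : HasDerivAt (fun θ : ℝ => ((Real.sin θ : ℝ) : ℂ)) ((Real.cos θ : ℝ) : ℂ) θ :=
    (Real.hasDerivAt_sin θ).ofReal_comp
  have h3 := h1.add (h2.mul_const I)
  have h4 : ((-Real.sin θ : ℝ) : ℂ) + ((Real.cos θ : ℝ) : ℂ) * I = I * U θ := by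
    unfold U
    rw [ofReal_neg]
    linear_combination (-(Real.sin θ : ℂ)) * I_sq
  rw [h4] at h3
  exact h3

theorem norm_U (θ : ℝ) : ‖U θ‖ = 1 := by
  have : U θ = exp (θ * I) := by
    rw [U, exp_mul_I, ofReal_cos, ofReal_sin]
  rw [this, norm_exp_ofReal_mul_I]

theorem U_mul_conj (θ : ℝ) : U θ * conj (U θ) = 1 := by
  rw [mul_conj, normSq_eq_norm_sq, norm_U]
  simp

theorem U_pi : U Real.pi = U (-Real.pi) := by
  simp [U]

/-- Functions on the strip vanishing for large radius are integrable. -/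
theorem integrableOn_strip {f : ℝ × ℝ → ℂ} (hf : Continuous f) {M : ℝ}
    (h0 : ∀ p : ℝ × ℝ, M < p.1 → f p = 0) :
    IntegrableOn f (Ioi (0 : ℝ) ×ˢ Ioo (-Real.pi) Real.pi) := by
  have h1 : IntegrableOn f (Icc 0 M ×ˢ Icc (-Real.pi) Real.pi) :=
    hf.continuousOn.integrableOn_compact (isCompact_Icc.prod isCompact_Icc)
  have h2 : IntegrableOn f (Ioi M ×ˢ Ioo (-Real.pi) Real.pi) := by
    have : IntegrableOn (fun _ : ℝ × ℝ => (0 : ℂ)) (Ioi M ×ˢ Ioo (-Real.pi) Real.pi) :=
      integrable_zero _ _ _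
    refine this.congr_fun ?_ (measurableSet_Ioi.prod measurableSet_Ioo)
    intro p hp
    exact (h0 p hp.1).symm
  refine (h1.union h2).mono_set ?_
  rintro ⟨r, t⟩ ⟨hr, ht⟩
  by_cases h : r ≤ M
  · exact Or.inl ⟨⟨le_of_lt hr, h⟩, Ioo_subset_Icc_self ht⟩
  · exact Or.inr ⟨not_le.mp h, ht⟩

theorem integral_radial {v : ℂ → ℂ} (hv : ContDiff ℝ 1 v) {R : ℝ} (h0 : ∀ z, R < ‖z‖ → v z = 0)
    (z : ℂ) (θ : ℝ)
    (hi : IntegrableOn (fun r : ℝ => fderiv ℝ v (z - r * U θ) (U θ)) (Ioi 0)) :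
    ∫ r in Ioi (0 : ℝ), fderiv ℝ v (z - r * U θ) (U θ) = v z := by
  have hd : ∀ r : ℝ, HasDerivAt (fun r : ℝ => v (z - r * U θ))
      (-fderiv ℝ v (z - r * U θ) (U θ)) r := by
    intro r
    have h1 : HasDerivAt (fun r : ℝ => z - r * U θ) (-U θ) r := by
      have := ((hasDerivAt_id r).ofReal_comp.mul_const (U θ)).const_sub z
      simpa using this
    have h2 := ((hv.differentiable one_ne_zero) (z - r * U θ)).hasFDerivAt.comp_hasDerivAt r h1
    simpa [Function.comp_def] using h2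
  have ht : Tendsto (fun r : ℝ => v (z - r * U θ)) atTop (𝓝 0) := by
    refine tendsto_const_nhds.congr' ?_
    filter_upwards [eventually_gt_atTop (‖z‖ + R), eventually_ge_atTop 0] with r hr hr0
    symm
    apply h0
    have h1 : ‖(r : ℂ) * U θ‖ = r := by
      rw [norm_mul, norm_U, mul_one, Complex.norm_real, Real.norm_of_nonneg hr0]
    have h2 := norm_sub_norm_le ((r : ℂ) * U θ) z
    rw [h1, norm_sub_rev] at h2
    linarith
  have h := integral_Ioi_of_hasDerivAt_of_tendsto (a := (0 : ℝ))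
    (hd 0).continuousAt.continuousWithinAt (fun r _ => hd r) hi.neg ht
  rw [integral_neg] at h
  simp only [ofReal_zero, zero_mul, sub_zero, zero_sub, neg_inj] at h
  exact h

theorem integral_angular {v : ℂ → ℂ} (hv : ContDiff ℝ 1 v) (z : ℂ) {r : ℝ} (hr : 0 < r) :
    ∫ θ in Ioo (-Real.pi) Real.pi, fderiv ℝ v (z - r * U θ) (I * U θ) = 0 := by
  have hd : ∀ θ : ℝ, HasDerivAt (fun θ : ℝ => v (z - r * U θ))
      (-(r * fderiv ℝ v (z - r * U θ) (I * U θ))) θ := by
    intro θ
    have h1 : HasDerivAt (fun θ : ℝ => z - r * U θ) (-(r • (I * U θ))) θ := by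
      have := ((hasDerivAt_U θ).const_mul (r : ℂ)).const_sub z
      simpa using this
    have h2 := ((hv.differentiable one_ne_zero) (z - r * U θ)).hasFDerivAt.comp_hasDerivAt θ h1
    rw [map_neg, map_smul] at h2
    simpa [Function.comp_def] using h2
  have hc : Continuous (fun θ : ℝ => fderiv ℝ v (z - r * U θ) (I * U θ)) := by
    have h1 := hv.continuous_fderiv one_ne_zero
    have h2 := continuous_U
    exact (h1.comp (by fun_prop)).clm_apply (by fun_prop)
  have h3 := intervalIntegral.integral_eq_sub_of_hasDerivAt (a := -Real.pi) (b := Real.pi)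
    (fun θ _ => hd θ) ((continuous_const.mul hc).neg.intervalIntegrable _ _)
  rw [U_pi, sub_self, intervalIntegral.integral_neg, intervalIntegral.integral_const_mul,
    neg_eq_zero, mul_eq_zero, intervalIntegral.integral_of_le (by linarith [Real.pi_pos]),
    integral_Ioc_eq_integral_Ioo] at h3
  rcases h3 with h3 | h3
  · exact absurd h3 (by exact_mod_cast hr.ne')
  · exact h3

theorem cauchyT_dzb {v : ℂ → ℂ} (hv : ContDiff ℝ 1 v) (hs : HasCompactSupport v) (z : ℂ) :
    cauchyT (dzb v) z = v z := by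
  obtain ⟨R, -, -, h0, -⟩ := exists_radius hv.continuous hs
  have hcf := hv.continuous_fderiv one_ne_zero
  have hU := continuous_U
  -- derivatives vanish far away
  have hd0 : ∀ w, R < ‖w‖ → fderiv ℝ v w = 0 := by
    intro w hw
    have : v =ᶠ[𝓝 w] fun _ => 0 := by
      filter_upwards [(isOpen_lt continuous_const continuous_norm).mem_nhds hw] with y hy
      exact h0 y hy
    rw [this.fderiv_eq]
    simp
  let A : ℝ × ℝ → ℂ := fun p => fderiv ℝ v (z - p.1 * U p.2) (U p.2)
  let B : ℝ × ℝ → ℂ := fun p => fderiv ℝ v (z - p.1 * U p.2) (I * U p.2)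
  have hfar : ∀ p : ℝ × ℝ, max 0 (‖z‖ + R) < p.1 → fderiv ℝ v (z - p.1 * U p.2) = 0 := by
    intro p hp
    apply hd0
    have hp0 : 0 < p.1 := (le_max_left _ _).trans_lt hp
    have hp1 : ‖z‖ + R < p.1 := (le_max_right _ _).trans_lt hp
    have h1 : ‖(p.1 : ℂ) * U p.2‖ = p.1 := by
      rw [norm_mul, norm_U, mul_one, Complex.norm_real, Real.norm_of_nonneg hp0.le]
    have h2 := norm_sub_norm_le ((p.1 : ℂ) * U p.2) z
    rw [h1, norm_sub_rev] at h2
    linarith
  have hAc : Continuous A := (hcf.comp (by fun_prop)).clm_apply (by fun_prop)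
  have hBc : Continuous B := (hcf.comp (by fun_prop)).clm_apply (by fun_prop)
  have hAi : IntegrableOn A (Ioi (0 : ℝ) ×ˢ Ioo (-Real.pi) Real.pi) :=
    integrableOn_strip hAc (M := max 0 (‖z‖ + R)) (fun p hp => by simp [A, hfar p hp])
  have hBi : IntegrableOn B (Ioi (0 : ℝ) ×ˢ Ioo (-Real.pi) Real.pi) :=
    integrableOn_strip hBc (M := max 0 (‖z‖ + R)) (fun p hp => by simp [B, hfar p hp])
  have hA : ∫ p in Ioi (0 : ℝ) ×ˢ Ioo (-Real.pi) Real.pi, A p = 2 * Real.pi * v z := by
    rw [Measure.volume_eq_prod, ← Measure.prod_restrict, integral_prod_symm]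
    · have : ∀ θ : ℝ, ∫ r in Ioi (0 : ℝ), A (r, θ) = v z := by
        intro θ
        refine integral_radial hv h0 z θ ?_
        have hc : Continuous (fun r : ℝ => A (r, θ)) := hAc.comp (by fun_prop)
        have h1 : IntegrableOn (fun r : ℝ => A (r, θ)) (Icc 0 (max 0 (‖z‖ + R))) :=
          hc.continuousOn.integrableOn_compact isCompact_Icc
        have h2 : IntegrableOn (fun r : ℝ => A (r, θ)) (Ioi (max 0 (‖z‖ + R))) := by
          have : IntegrableOn (fun _ : ℝ => (0 : ℂ)) (Ioi (max 0 (‖z‖ + R))) :=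
            integrable_zero _ _ _
          refine this.congr_fun ?_ measurableSet_Ioi
          intro r hr
          simp [A, hfar (r, θ) hr]
        refine (h1.union h2).mono_set ?_
        intro r hr
        by_cases h : r ≤ max 0 (‖z‖ + R)
        · exact Or.inl ⟨le_of_lt hr, h⟩
        · exact Or.inr (not_le.mp h)
      simp_rw [this]
      rw [setIntegral_const, Real.volume_real_Ioo_of_le (by linarith [Real.pi_pos]),
        Complex.real_smul]
      push_cast
      ring
    · rw [Measure.prod_restrict, ← Measure.volume_eq_prod]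
      exact hAi
  have hB : ∫ p in Ioi (0 : ℝ) ×ˢ Ioo (-Real.pi) Real.pi, B p = 0 := by
    rw [Measure.volume_eq_prod, setIntegral_prod _ (by rwa [← Measure.volume_eq_prod])]
    have : ∀ r ∈ Ioi (0 : ℝ), ∫ θ in Ioo (-Real.pi) Real.pi, B (r, θ) = 0 := by
      intro r hr
      exact integral_angular hv z hr
    rw [setIntegral_congr_fun measurableSet_Ioi this]
    simp
  have hkey : ∫ w, dzb v (z - w) / w = Real.pi * v z := by
    rw [← Complex.integral_comp_polarCoord_symm, polarCoord_target]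
    have h1 : ∀ p ∈ Ioi (0 : ℝ) ×ˢ Ioo (-Real.pi) Real.pi,
        p.1 • (dzb v (z - Complex.polarCoord.symm p) / Complex.polarCoord.symm p) =
          (1 / 2 : ℂ) * A p + (I / 2) * B p := by
      intro p hp
      have hp0 : (p.1 : ℂ) ≠ 0 := by
        have : (0 : ℝ) < p.1 := hp.1
        exact_mod_cast this.ne'
      have h2 : Complex.polarCoord.symm p = p.1 * U p.2 := by
        rw [Complex.polarCoord_symm_apply]
        rfl
      have hU0 : U p.2 ≠ 0 := by
        rw [← norm_pos_iff, norm_U]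
        exact one_pos
      rw [h2]
      simp only [A, B]
      rw [fderiv_apply, fderiv_apply, map_mul, conj_I, Complex.real_smul]
      have h3 : (U p.2)⁻¹ = conj (U p.2) := inv_eq_of_mul_eq_one_right (U_mul_conj p.2)
      generalize dzb v (z - p.1 * U p.2) = a
      generalize dz v (z - p.1 * U p.2) = b
      rw [div_eq_mul_inv, mul_inv, h3]
      generalize conj (U p.2) = u'
      generalize U p.2 = u
      have h4 : (p.1 : ℂ) * (a * ((p.1 : ℂ)⁻¹ * u')) = a * u' := by
        field_simp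
      rw [h4]
      linear_combination (-(b * u) / 2 + a * u' / 2) * I_sq
    rw [setIntegral_congr_fun (measurableSet_Ioi.prod measurableSet_Ioo) h1, integral_add
      (hAi.const_mul _) (hBi.const_mul _), integral_const_mul, integral_const_mul, hA, hB]
    ring
  rw [cauchyT, hkey, ← mul_assoc, inv_mul_cancel₀ (by exact_mod_cast Real.pi_ne_zero), one_mul]

theorem dzb_cauchyT {v : ℂ → ℂ} (hv : ContDiff ℝ 1 v) (hs : HasCompactSupport v) (z : ℂ) :
    dzb (cauchyT v) z = v z := by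
  rw [← cauchyT_dzb hv hs z, dzb, fderiv_cauchyT hv hs, fderiv_cauchyT hv hs]
  have hc : ∀ h : ℂ, Continuous (fun w => fderiv ℝ v w h) := fun h =>
    (hv.continuous_fderiv one_ne_zero).clm_apply continuous_const
  have hi : ∀ h : ℂ, Integrable (fun w => fderiv ℝ v (z - w) h / w) := by
    intro h
    obtain ⟨R, B, -, h0, hB⟩ := exists_radius (hc h) (hs.fderiv_apply ℝ h)
    exact integrable_integrand (hc h) h0 hB z
  simp only [cauchyT]
  have h1 : ∫ w, dzb v (z - w) / w = ((∫ w, fderiv ℝ v (z - w) 1 / w) +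
      I * ∫ w, fderiv ℝ v (z - w) I / w) / 2 := by
    rw [← integral_const_mul, ← integral_add (hi 1) ((hi I).const_mul I), ← integral_div]
    refine integral_congr_ae (Eventually.of_forall fun w => ?_)
    simp only [dzb]
    ring
  rw [h1]
  ring

theorem exists_decay_fderiv {v : ℂ → ℂ} (hv : ContDiff ℝ 1 v) (hs : HasCompactSupport v) :
    ∃ C : ℝ, ∀ z h : ℂ, ‖fderiv ℝ (cauchyT v) z h‖ ≤ C * ‖h‖ / (1 + ‖z‖) ^ 2 := by
  have hc : ∀ h : ℂ, Continuous (fun w => fderiv ℝ v w h) := fun h =>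
    (hv.continuous_fderiv one_ne_zero).clm_apply continuous_const
  obtain ⟨C, hC⟩ := decay2 (hc 1) (hs.fderiv_apply ℝ 1) (integral_fderiv_eq_zero hv hs 1)
  obtain ⟨C', hC'⟩ := decay2 (hc I) (hs.fderiv_apply ℝ I) (integral_fderiv_eq_zero hv hs I)
  refine ⟨C + C', fun z h => ?_⟩
  have h1 := hC z
  have h2 := hC' z
  rw [← fderiv_cauchyT hv hs] at h1 h2
  have h3 : fderiv ℝ (cauchyT v) z h = h.re • fderiv ℝ (cauchyT v) z 1 +
      h.im • fderiv ℝ (cauchyT v) z I := by
    rw [← map_smul, ← map_smul, ← map_add]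
    congr 1
    simp
  have h4 : ‖fderiv ℝ (cauchyT v) z h‖ ≤ ‖h‖ * ‖fderiv ℝ (cauchyT v) z 1‖ +
      ‖h‖ * ‖fderiv ℝ (cauchyT v) z I‖ := by
    rw [h3]
    refine (norm_add_le _ _).trans ?_
    rw [norm_smul, norm_smul, Real.norm_eq_abs, Real.norm_eq_abs]
    gcongr
    · exact abs_re_le_norm h
    · exact abs_im_le_norm h
  rw [le_div_iff₀ (by positivity)]
  calc ‖fderiv ℝ (cauchyT v) z h‖ * (1 + ‖z‖) ^ 2
      ≤ (‖h‖ * ‖fderiv ℝ (cauchyT v) z 1‖ + ‖h‖ * ‖fderiv ℝ (cauchyT v) z I‖) *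
        (1 + ‖z‖) ^ 2 := by gcongr
    _ = ‖h‖ * ((1 + ‖z‖) ^ 2 * ‖fderiv ℝ (cauchyT v) z 1‖ +
        (1 + ‖z‖) ^ 2 * ‖fderiv ℝ (cauchyT v) z I‖) := by ring
    _ ≤ ‖h‖ * (C + C') := by gcongr
    _ = (C + C') * ‖h‖ := mul_comm _ _

end C1

/-- The Cauchy transform is bounded on functions with fixed support. -/
theorem cauchyBound : Stmt_CauchyBound := C1.cauchyT_bound

/-- The Cauchy transform of a compactly supported `C¹` function. -/
theorem cauchy : Stmt_Cauchy := by
  intro v hv hs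
  refine ⟨C1.contDiff_cauchyT hv hs, C1.fderiv_cauchyT hv hs, C1.dzb_cauchyT hv hs, ?_,
    C1.exists_decay_fderiv hv hs⟩
  obtain ⟨C, hC⟩ := C1.decay1 hv.continuous hs
  refine ⟨C, fun z => ?_⟩
  rw [le_div_iff₀ (by positivity), mul_comm]
  exact hC z

end Pool.Agent.BlMat
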