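import Pool.Agent.BlMat.DynDefs
import Pool.Agent.Squeeze.OneDim

set_option autoImplicit false

/-! Block BA: the base case, `z ^ (m + 1)` is the only mating of itself with itself. -/

namespace Pool.Agent.BlMat.BA

open Complex Metric Set Filter Topology Polynomial
open scoped ComplexConjugate ContDiff

theorem bl_zero {m : ℕ} (z : ℂ) : bl (0 : Fin m → ℂ) z = z ^ (m + 1) := by
  simp [bl, pow_succ, mul_comm]

theorem pow_mem {n : ℕ} (hn : n ≠ 0) {z : ℂ} (hz : z ∈ ball (0 : ℂ) 1) : z ^ n ∈ ball (0 : ℂ) 1 := by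
  rw [mem_ball_zero_iff] at hz ⊢
  rw [norm_pow]
  exact pow_lt_one₀ (norm_nonneg z) hz hn

/-- Rigidity of the solutions of `v z ^ n = v (z ^ n)`. -/
theorem rigid {n : ℕ} (hn : 2 ≤ n) {v : ℂ → ℂ} (hd : DifferentiableOn ℂ v (ball 0 1))
    (h0 : v 0 ≠ 0) (he : ∀ z ∈ ball (0 : ℂ) 1, v z ^ n = v (z ^ n)) :
    ∀ z ∈ ball (0 : ℂ) 1, v z = v 0 := by
  have h0m : (0 : ℂ) ∈ ball (0 : ℂ) 1 := mem_ball_self one_pos
  have hv0 : ‖v 0‖ = 1 := by
    have h1 : v 0 ^ n = v 0 := by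
      have := he 0 h0m
      rwa [zero_pow (by omega)] at this
    have h2 : v 0 ^ (n - 1) = 1 := by
      have h3 : v 0 ^ (n - 1) * v 0 = 1 * v 0 := by
        rw [← pow_succ, Nat.sub_add_cancel (by omega), h1, one_mul]
      exact mul_right_cancel₀ h0 h3
    have h3 : ‖v 0‖ ^ (n - 1) = 1 := by rw [← norm_pow, h2, norm_one]
    exact (pow_eq_one_iff_of_nonneg (norm_nonneg _) (by omega)).1 h3
  have hnorm : ∀ z ∈ ball (0 : ℂ) 1, ‖v z‖ = 1 := by
    intro z hz
    have hit : ∀ k : ℕ, v z ^ (n ^ k) = v (z ^ (n ^ k)) := by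
      intro k
      induction k with
      | zero => simp
      | succ k ih =>
        rw [pow_succ n k, pow_mul, ih, he _ (pow_mem (by positivity) hz), ← pow_mul]
    have hnk : Tendsto (fun k : ℕ => n ^ k) atTop atTop :=
      tendsto_pow_atTop_atTop_of_one_lt (by omega)
    have hz1 : ‖z‖ < 1 := by simpa using hz
    have hzk : Tendsto (fun k : ℕ => z ^ (n ^ k)) atTop (𝓝 0) :=
      (tendsto_pow_atTop_nhds_zero_of_norm_lt_one hz1).comp hnk
    have hcont : ContinuousAt v 0 :=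
      (hd.continuousOn).continuousAt (isOpen_ball.mem_nhds h0m)
    have hlim : Tendsto (fun k : ℕ => ‖v z‖ ^ (n ^ k)) atTop (𝓝 1) := by
      have h1 : Tendsto (fun k : ℕ => ‖v (z ^ (n ^ k))‖) atTop (𝓝 ‖v 0‖) :=
        (hcont.tendsto.comp hzk).norm
      rw [hv0] at h1
      refine h1.congr fun k => ?_
      rw [← hit, norm_pow]
    rcases lt_trichotomy ‖v z‖ 1 with h | h | h
    · exfalso
      have h1 : Tendsto (fun k : ℕ => ‖v z‖ ^ (n ^ k)) atTop (𝓝 0) :=
        (tendsto_pow_atTop_nhds_zero_of_lt_one (norm_nonneg _) h).comp hnk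
      exact zero_ne_one (tendsto_nhds_unique h1 hlim)
    · exact h
    · exfalso
      have h1 : Tendsto (fun k : ℕ => ‖v z‖ ^ (n ^ k)) atTop atTop :=
        (tendsto_pow_atTop_atTop_of_one_lt h).comp hnk
      exact not_tendsto_nhds_of_tendsto_atTop h1 _ hlim
  have hmax : IsMaxOn (norm ∘ v) (ball (0 : ℂ) 1) 0 := by
    intro z hz
    change ‖v z‖ ≤ ‖v 0‖
    rw [hnorm z hz, hv0]
  intro z hz
  exact Complex.eqOn_of_isPreconnected_of_isMaxOn_norm (convex_ball (0 : ℂ) 1).isPreconnected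
    isOpen_ball hd h0m hmax hz

theorem nhds_pow {n : ℕ} (hn : n ≠ 0) : Tendsto (fun z : ℂ => z ^ n) (𝓝[≠] 0) (𝓝[≠] 0) := by
  refine tendsto_nhdsWithin_iff.2 ⟨?_, ?_⟩
  · have h : Tendsto (fun z : ℂ => z ^ n) (𝓝 0) (𝓝 (0 ^ n)) := (continuous_pow n).tendsto 0
    rw [zero_pow hn] at h
    exact h.mono_left nhdsWithin_le_nhds
  · filter_upwards [self_mem_nhdsWithin] with z hz
    exact pow_ne_zero n hz

theorem ball_punct : ∀ᶠ z in 𝓝[≠] (0 : ℂ), z ∈ ball (0 : ℂ) 1 ∧ z ≠ 0 := by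
  filter_upwards [self_mem_nhdsWithin,
    nhdsWithin_le_nhds (isOpen_ball.mem_nhds (mem_ball_self one_pos : (0 : ℂ) ∈ ball (0 : ℂ) 1))]
    with z hz hz'
  exact ⟨hz', hz⟩

/-- The outer Riemann map. -/
theorem outer {n : ℕ} (hn : 2 ≤ n) {φ : ℂ → ℂ} (hφ : IsUnif φ)
    (he : ∀ z ∈ ball (0 : ℂ) 1, z ≠ 0 → φ z ^ n = φ (z ^ n)) :
    ∀ z ∈ ball (0 : ℂ) 1, z ≠ 0 → φ z = 1 / z := by
  set v : ℂ → ℂ := Function.update (fun z => z * φ z) 0 1 with hv
  have hv0 : v 0 = 1 := by simp [hv]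
  have hvz : ∀ z, z ≠ 0 → v z = z * φ z := by
    intro z hz
    simp [hv, Function.update_of_ne hz]
  have hd1 : DifferentiableOn ℂ v (ball 0 1 \ {0}) := by
    have h1 : DifferentiableOn ℂ (fun z => z * φ z) (ball 0 1 \ {0}) :=
      differentiableOn_id.mul hφ.diff
    refine h1.congr fun z hz => hvz z hz.2
  have hc : ContinuousAt v 0 := by
    rw [hv, continuousAt_update_same]
    have h1 : Tendsto (fun z : ℂ => 1 + z * (φ z - 1 / z)) (𝓝[≠] 0) (𝓝 (1 + 0 * 0)) :=
      tendsto_const_nhds.add ((tendsto_id.mono_left nhdsWithin_le_nhds).mul hφ.norm)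
    simp only [mul_zero, add_zero] at h1
    refine h1.congr' ?_
    filter_upwards [self_mem_nhdsWithin] with z hz
    have hz' : z ≠ 0 := hz
    field_simp
    ring
  have hd : DifferentiableOn ℂ v (ball 0 1) :=
    (Complex.differentiableOn_compl_singleton_and_continuousAt_iff
      (isOpen_ball.mem_nhds (mem_ball_self one_pos))).1 ⟨hd1, hc⟩
  have hev : ∀ z ∈ ball (0 : ℂ) 1, v z ^ n = v (z ^ n) := by
    intro z hz
    by_cases h0 : z = 0
    · subst h0
      rw [zero_pow (by omega), hv0, one_pow]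
    · rw [hvz z h0, hvz _ (pow_ne_zero n h0), mul_pow, he z hz h0]
  intro z hz h0
  have h1 := rigid hn hd (by rw [hv0]; exact one_ne_zero) hev z hz
  rw [hv0, hvz z h0] at h1
  field_simp
  linear_combination h1

/-- The inner equation forces the polynomial to be `A (w - c) ^ n + c`. -/
theorem inner_form {n : ℕ} (hn : 2 ≤ n) {χ : ℂ → ℂ} (hd : DifferentiableOn ℂ χ (ball 0 1))
    (hi : InjOn χ (ball 0 1)) {P : ℂ[X]} (hP : P.natDegree = n)
    (he : ∀ z ∈ ball (0 : ℂ) 1, P.eval (χ z) = χ (z ^ n)) :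
    ∃ A : ℂ, ∀ w : ℂ, P.eval w = A * (w - χ 0) ^ n + χ 0 := by
  have h0m : (0 : ℂ) ∈ ball (0 : ℂ) 1 := mem_ball_self one_pos
  set c := χ 0 with hc
  have hdeg : (P - C c).natDegree = n := by rw [natDegree_sub_C, hP]
  have hne : P - C c ≠ 0 := by
    intro h
    rw [h, natDegree_zero] at hdeg
    omega
  obtain ⟨q, hq, hqd⟩ := exists_eq_pow_rootMultiplicity_mul_and_not_dvd (P - C c) hne c
  set j := (P - C c).rootMultiplicity c with hj
  have hqc : q.eval c ≠ 0 := by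
    intro h
    exact hqd (dvd_iff_isRoot.2 h)
  have hq0 : q ≠ 0 := by
    rintro rfl
    simp at hqc
  have hdeg2 : j + q.natDegree = n := by
    have h1 : (P - C c).natDegree = ((X - C c) ^ j * q).natDegree := by rw [← hq]
    rw [hdeg, natDegree_mul (pow_ne_zero _ (X_sub_C_ne_zero c)) hq0, natDegree_pow,
      natDegree_X_sub_C, mul_one] at h1
    exact h1.symm
  set v : ℂ → ℂ := dslope χ 0 with hv
  have hvd : DifferentiableOn ℂ v (ball 0 1) :=
    (Complex.differentiableOn_dslope (isOpen_ball.mem_nhds h0m)).2 hd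
  have hv0 : v 0 ≠ 0 := by
    rw [hv, dslope_same]
    exact Pool.Agent.Squeeze.deriv_ne_zero_of_injOn isOpen_ball hd hi h0m
  have hvc : ContinuousAt v 0 := hvd.continuousOn.continuousAt (isOpen_ball.mem_nhds h0m)
  have hχc : ContinuousAt χ 0 := hd.continuousOn.continuousAt (isOpen_ball.mem_nhds h0m)
  have hχv : ∀ z, χ z - c = z * v z := by
    intro z
    have h := sub_smul_dslope χ 0 z
    rw [sub_zero, smul_eq_mul] at h
    exact h.symm
  have heq : ∀ w : ℂ, P.eval w - c = (w - c) ^ j * q.eval w := by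
    intro w
    have h := congrArg (fun R : ℂ[X] => R.eval w) hq
    simpa using h
  have hjn : j = n := by
    by_contra hjn
    have hlt : j < n := by omega
    have hL : Tendsto (fun z => v z ^ j * q.eval (χ z)) (𝓝[≠] 0) (𝓝 (v 0 ^ j * q.eval c)) := by
      have h1 : Tendsto (fun z => q.eval (χ z)) (𝓝 0) (𝓝 (q.eval c)) :=
        (q.continuous.tendsto c).comp hχc.tendsto
      exact ((hvc.tendsto.pow j).mul h1).mono_left nhdsWithin_le_nhds
    have hR : Tendsto (fun z : ℂ => z ^ (n - j) * v (z ^ n)) (𝓝[≠] 0) (𝓝 (0 * v 0)) := by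
      refine Tendsto.mul ((nhds_pow (by omega)).mono_right nhdsWithin_le_nhds) ?_
      exact hvc.tendsto.comp ((nhds_pow (by omega)).mono_right nhdsWithin_le_nhds)
    have heqv : (fun z => v z ^ j * q.eval (χ z)) =ᶠ[𝓝[≠] 0]
        (fun z : ℂ => z ^ (n - j) * v (z ^ n)) := by
      filter_upwards [ball_punct] with z hz
      have h1 : (χ z - c) ^ j * q.eval (χ z) = χ (z ^ n) - c := by
        rw [← heq, he z hz.1]
      rw [hχv, hχv, mul_pow] at h1
      have h2 : z ^ n = z ^ j * z ^ (n - j) := by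
        rw [← pow_add]
        congr 1
        omega
      have h3 : z ^ j * (v z ^ j * q.eval (χ z)) = z ^ j * (z ^ (n - j) * v (z ^ n)) := by
        calc z ^ j * (v z ^ j * q.eval (χ z)) = z ^ j * v z ^ j * q.eval (χ z) := by ring
          _ = z ^ n * v (z ^ n) := h1
          _ = z ^ j * z ^ (n - j) * v (z ^ n) := by rw [← h2]
          _ = z ^ j * (z ^ (n - j) * v (z ^ n)) := by ring
      exact mul_left_cancel₀ (pow_ne_zero j hz.2) h3
    have h1 := tendsto_nhds_unique (hL.congr' heqv) hR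
    rw [zero_mul] at h1
    exact mul_ne_zero (pow_ne_zero j hv0) hqc h1
  have hq1 : q.natDegree = 0 := by omega
  have hqC := eq_C_of_natDegree_eq_zero hq1
  refine ⟨q.coeff 0, fun w => ?_⟩
  have h1 := heq w
  rw [hqC, eval_C, hjn] at h1
  linear_combination h1

/-- The outer equation normalises `A` and `c`. -/
theorem outer_form {n : ℕ} (hn : 2 ≤ n) {φ : ℂ → ℂ} (hφ : IsUnif φ) {A c : ℂ}
    (he : ∀ z ∈ ball (0 : ℂ) 1, z ≠ 0 → A * (φ z - c) ^ n + c = φ (z ^ n)) :
    A = 1 ∧ c = 0 := by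
  set ε : ℂ → ℂ := fun z => φ z - 1 / z with hε
  have hε0 : Tendsto ε (𝓝[≠] 0) (𝓝 0) := hφ.norm
  have hid : Tendsto (fun z : ℂ => z) (𝓝[≠] 0) (𝓝 0) := tendsto_id.mono_left nhdsWithin_le_nhds
  have hεn : Tendsto (fun z : ℂ => ε (z ^ n)) (𝓝[≠] 0) (𝓝 0) := hε0.comp (nhds_pow (by omega))
  have hzn : Tendsto (fun z : ℂ => z ^ n) (𝓝[≠] 0) (𝓝 0) :=
    (nhds_pow (by omega)).mono_right nhdsWithin_le_nhds
  have hzn1 : Tendsto (fun z : ℂ => z ^ (n - 1)) (𝓝[≠] 0) (𝓝 0) :=
    (nhds_pow (by omega)).mono_right nhdsWithin_le_nhds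
  set x : ℂ → ℂ := fun z => 1 + z * (ε z - c) with hx
  have hx1 : Tendsto x (𝓝[≠] 0) (𝓝 1) := by
    have h := (tendsto_const_nhds (x := (1 : ℂ))).add (hid.mul (hε0.sub_const c))
    simpa using h
  have hxe : ∀ z : ℂ, z ≠ 0 → x z = z * (φ z - c) := by
    intro z hz
    simp only [hx, hε]
    field_simp
    ring
  have hφe : ∀ z : ℂ, z ≠ 0 → z ^ n * φ (z ^ n) = 1 + z ^ n * ε (z ^ n) := by
    intro z hz
    have hz' : z ^ n ≠ 0 := pow_ne_zero n hz
    simp only [hε]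
    field_simp
    ring
  have hmain : ∀ᶠ z in 𝓝[≠] (0 : ℂ), A * x z ^ n + c * z ^ n = 1 + z ^ n * ε (z ^ n) := by
    filter_upwards [ball_punct] with z hz
    rw [← hφe z hz.2, ← he z hz.1 hz.2, hxe z hz.2, mul_pow]
    ring
  have hA : A = 1 := by
    have hL : Tendsto (fun z : ℂ => A * x z ^ n + c * z ^ n) (𝓝[≠] 0) (𝓝 A) := by
      have h := ((hx1.pow n).const_mul A).add (hzn.const_mul c)
      simpa using h
    have hR : Tendsto (fun z : ℂ => 1 + z ^ n * ε (z ^ n)) (𝓝[≠] 0) (𝓝 1) := by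
      have h := (tendsto_const_nhds (x := (1 : ℂ))).add (hzn.mul hεn)
      simpa using h
    exact tendsto_nhds_unique (hL.congr' hmain) hR
  refine ⟨hA, ?_⟩
  subst hA
  have h2 : ∀ᶠ z in 𝓝[≠] (0 : ℂ),
      (∑ i ∈ Finset.range n, x z ^ i) * (ε z - c) = z ^ (n - 1) * (ε (z ^ n) - c) := by
    filter_upwards [hmain, ball_punct] with z hz hz0
    have hg := geom_sum_mul (x z) n
    have hx' : x z - 1 = z * (ε z - c) := by simp only [hx]; ring
    have hzz : z ^ n = z * z ^ (n - 1) := by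
      rw [← pow_succ', Nat.sub_add_cancel (by omega)]
    have h3 : z * ((∑ i ∈ Finset.range n, x z ^ i) * (ε z - c)) =
        z * (z ^ (n - 1) * (ε (z ^ n) - c)) := by
      calc z * ((∑ i ∈ Finset.range n, x z ^ i) * (ε z - c))
          = (∑ i ∈ Finset.range n, x z ^ i) * (x z - 1) := by rw [hx']; ring
        _ = x z ^ n - 1 := hg
        _ = z ^ n * (ε (z ^ n) - c) := by linear_combination hz
        _ = z * z ^ (n - 1) * (ε (z ^ n) - c) := by rw [← hzz]
        _ = z * (z ^ (n - 1) * (ε (z ^ n) - c)) := by ring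
    exact mul_left_cancel₀ hz0.2 h3
  have hL : Tendsto (fun z : ℂ => (∑ i ∈ Finset.range n, x z ^ i) * (ε z - c)) (𝓝[≠] 0)
      (𝓝 ((n : ℂ) * (0 - c))) := by
    refine Tendsto.mul ?_ (hε0.sub_const c)
    have h := tendsto_finsetSum (Finset.range n) (fun i _ => hx1.pow i)
    simpa using h
  have hR : Tendsto (fun z : ℂ => z ^ (n - 1) * (ε (z ^ n) - c)) (𝓝[≠] 0) (𝓝 (0 * (0 - c))) :=
    hzn1.mul (hεn.sub_const c)
  have h3 := tendsto_nhds_unique (hL.congr' h2) hR
  rw [zero_mul, zero_sub, mul_neg, neg_eq_zero] at h3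
  have hn0 : (n : ℂ) ≠ 0 := by
    exact_mod_cast (by omega : n ≠ 0)
  exact (mul_eq_zero.1 h3).resolve_left hn0

/-- The sphere map `w ↦ w ^ n`. -/
noncomputable def pw (n : ℕ) (x : OnePoint ℂ) : OnePoint ℂ := OnePoint.map (fun z : ℂ => z ^ n) x

theorem pw_coe (n : ℕ) (z : ℂ) : pw n (z : OnePoint ℂ) = ((z ^ n : ℂ) : OnePoint ℂ) := rfl

theorem pw_infty (n : ℕ) : pw n OnePoint.infty = OnePoint.infty := rfl

theorem hat_zero (φ : ℂ → ℂ) : hat φ 0 = OnePoint.infty := by simp [hat]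

theorem hat_ne (φ : ℂ → ℂ) {z : ℂ} (hz : z ≠ 0) : hat φ z = (φ z : OnePoint ℂ) := by
  simp [hat, hz]

theorem closedBall_sub : (closedBall (0 : ℂ) 1 : Set ℂ) ⊆ closure (ball (0 : ℂ) 1) := by
  rw [closure_ball (0 : ℂ) one_ne_zero]

theorem closedBall_punct_sub :
    (closedBall (0 : ℂ) 1 \ {0} : Set ℂ) ⊆ closure (ball (0 : ℂ) 1 \ {0}) := by
  intro z hz
  have h1 : z ∈ ({0}ᶜ : Set ℂ) ∩ closure (ball (0 : ℂ) 1) := ⟨hz.2, closedBall_sub hz.1⟩
  have h2 := (isOpen_compl_singleton (x := (0 : ℂ))).inter_closure h1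
  rwa [inter_comm, ← sdiff_eq] at h2

theorem roots_ev {q : ℂ[X]} (hq : q ≠ 0) (z : ℂ) : ∀ᶠ w in 𝓝[≠] z, q.eval w ≠ 0 := by
  have hfin : ({w : ℂ | q.IsRoot w} \ {z}).Finite := (finite_setOfPred_isRoot hq).subset sdiff_subset
  have h1 : ({w : ℂ | q.IsRoot w} \ {z})ᶜ ∈ 𝓝 z := by
    refine hfin.isClosed.isOpen_compl.mem_nhds ?_
    simp
  filter_upwards [nhdsWithin_le_nhds h1, self_mem_nhdsWithin] with w hw hwz h0
  exact hw ⟨h0, hwz⟩

/-- A rational map without poles in the plane is a polynomial. -/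
theorem poly_of_finite {n : ℕ} (hn : 1 ≤ n) {f : OnePoint ℂ → OnePoint ℂ} (hf : IsRat n f)
    (hfin : ∀ w : ℂ, f (w : OnePoint ℂ) ≠ OnePoint.infty) :
    ∃ P : ℂ[X], P.natDegree = n ∧ ∀ w : ℂ, f (w : OnePoint ℂ) = ((P.eval w : ℂ) : OnePoint ℂ) := by
  obtain ⟨hfc, p, q, hpq, hdeg, hev⟩ := hf
  have hq0 : q ≠ 0 := by
    rintro rfl
    rw [isCoprime_zero_right] at hpq
    have h1 := natDegree_eq_zero_of_isUnit hpq
    rw [h1, natDegree_zero] at hdeg
    simp at hdeg
    omega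
  have hroot : ∀ z : ℂ, q.eval z ≠ 0 := by
    intro z hz
    have hpz : p.eval z ≠ 0 := by
      intro hpz
      obtain ⟨a, b, hab⟩ := hpq
      have h := congrArg (fun R : ℂ[X] => R.eval z) hab
      simp [hpz, hz] at h
    obtain ⟨w0, hw0⟩ := OnePoint.ne_infty_iff_exists.1 (hfin z)
    have h1 : Tendsto (fun w : ℂ => f (w : OnePoint ℂ)) (𝓝[≠] z) (𝓝 (f (z : OnePoint ℂ))) :=
      ((hfc.comp OnePoint.continuous_coe).tendsto z).mono_left nhdsWithin_le_nhds
    rw [← hw0] at h1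
    have h2 : Tendsto (fun w : ℂ => ((p.eval w / q.eval w : ℂ) : OnePoint ℂ)) (𝓝[≠] z)
        (𝓝 (w0 : OnePoint ℂ)) := by
      refine h1.congr' ?_
      filter_upwards [roots_ev hq0 z] with w hw
      exact hev w hw
    have h3 : Tendsto (fun w : ℂ => p.eval w / q.eval w) (𝓝[≠] z) (𝓝 w0) :=
      (OnePoint.isOpenEmbedding_coe.isInducing.tendsto_nhds_iff).2 h2
    have h4 : Tendsto (fun w : ℂ => q.eval w) (𝓝[≠] z) (𝓝 (q.eval z)) :=
      (q.continuous.tendsto z).mono_left nhdsWithin_le_nhds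
    have h5 : Tendsto (fun w : ℂ => p.eval w) (𝓝[≠] z) (𝓝 (p.eval z)) :=
      (p.continuous.tendsto z).mono_left nhdsWithin_le_nhds
    have h6 : Tendsto (fun w : ℂ => p.eval w) (𝓝[≠] z) (𝓝 (w0 * q.eval z)) := by
      refine (h3.mul h4).congr' ?_
      filter_upwards [roots_ev hq0 z] with w hw
      field_simp
    have h7 := tendsto_nhds_unique h5 h6
    rw [hz, mul_zero] at h7
    exact hpz h7
  have hq1 : q.natDegree = 0 := by
    by_contra h
    have hd : q.degree ≠ 0 := by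
      intro hd
      exact h (natDegree_eq_of_degree_eq_some hd)
    obtain ⟨z, hz⟩ := IsAlgClosed.exists_root q hd
    exact hroot z hz
  have hqC := eq_C_of_natDegree_eq_zero hq1
  have hc0 : q.coeff 0 ≠ 0 := by
    intro h
    rw [h, C_0] at hqC
    exact hq0 hqC
  refine ⟨C (q.coeff 0)⁻¹ * p, ?_, fun w => ?_⟩
  · rw [natDegree_C_mul (inv_ne_zero hc0)]
    rw [hq1] at hdeg
    omega
  · rw [hev w (hroot w)]
    congr 1
    rw [eval_mul, eval_C]
    have h1 : q.eval w = q.coeff 0 := by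
      conv_lhs => rw [hqC]
      rw [eval_C]
    rw [h1]
    field_simp

/-- Uniqueness. -/
theorem unique {m : ℕ} (hm : 1 ≤ m) {f : OnePoint ℂ → OnePoint ℂ} {φ χ : ℂ → ℂ}
    (hf : IsRat (m + 1) f) (hM : MateData (m := m) 0 0 f φ χ) :
    f = pw (m + 1) ∧ (∀ z ∈ closedBall (0 : ℂ) 1 \ {0}, φ z = 1 / z) ∧
      ∀ z ∈ closedBall (0 : ℂ) 1, χ z = z := by
  have hn : 2 ≤ m + 1 := by omega
  have h0m : (0 : ℂ) ∈ ball (0 : ℂ) 1 := mem_ball_self one_pos
  have hfinf : f OnePoint.infty = OnePoint.infty := by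
    have h := hM.semiφ 0 h0m
    rwa [bl_zero, zero_pow (by omega), hat_zero] at h
  have hφe : ∀ z ∈ ball (0 : ℂ) 1, z ≠ 0 →
      f (φ z : OnePoint ℂ) = (φ (z ^ (m + 1)) : OnePoint ℂ) := by
    intro z hz h0
    have h := hM.semiφ z hz
    rwa [bl_zero, hat_ne φ h0, hat_ne φ (pow_ne_zero _ h0)] at h
  have hχe : ∀ z ∈ ball (0 : ℂ) 1, f (χ z : OnePoint ℂ) = (χ (z ^ (m + 1)) : OnePoint ℂ) := by
    intro z hz
    have h := hM.semiχ z hz
    rwa [bl_zero] at h
  have hχcl : EqOn (fun z => f (χ z : OnePoint ℂ)) (fun z => (χ (z ^ (m + 1)) : OnePoint ℂ))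
      (closedBall 0 1) := by
    refine Set.EqOn.of_subset_closure (s := ball (0 : ℂ) 1) (fun z hz => hχe z hz) ?_ ?_
      ball_subset_closedBall closedBall_sub
    · exact (hf.1.comp OnePoint.continuous_coe).comp_continuousOn hM.χcont
    · refine OnePoint.continuous_coe.comp_continuousOn (hM.χcont.comp
        (continuous_pow (m + 1)).continuousOn ?_)
      intro z hz
      rw [mem_closedBall_zero_iff] at hz ⊢
      rw [norm_pow]
      exact pow_le_one₀ (norm_nonneg z) hz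
  have hfin : ∀ w : ℂ, f (w : OnePoint ℂ) ≠ OnePoint.infty := by
    intro w
    have hw : w ∈ φ '' (ball 0 1 \ {0}) ∪ χ '' closedBall 0 1 := by
      rw [hM.cover]
      trivial
    rcases hw with ⟨z, hz, rfl⟩ | ⟨z, hz, rfl⟩
    · rw [hφe z hz.1 hz.2]
      exact OnePoint.coe_ne_infty _
    · have h : f (χ z : OnePoint ℂ) = (χ (z ^ (m + 1)) : OnePoint ℂ) := hχcl hz
      rw [h]
      exact OnePoint.coe_ne_infty _
  obtain ⟨P, hPd, hP⟩ := poly_of_finite (by omega) hf hfin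
  have hPχ : ∀ z ∈ ball (0 : ℂ) 1, P.eval (χ z) = χ (z ^ (m + 1)) := by
    intro z hz
    have h := hχe z hz
    rw [hP] at h
    exact OnePoint.coe_injective h
  have hPφ : ∀ z ∈ ball (0 : ℂ) 1, z ≠ 0 → P.eval (φ z) = φ (z ^ (m + 1)) := by
    intro z hz h0
    have h := hφe z hz h0
    rw [hP] at h
    exact OnePoint.coe_injective h
  have hχinj : InjOn χ (ball 0 1) := hM.χinj.mono ball_subset_closedBall
  obtain ⟨A, hA⟩ := inner_form hn hM.χdiff hχinj hPd hPχ
  obtain ⟨hA1, hc⟩ := outer_form (A := A) (c := χ 0) hn hM.unif (fun z hz h0 => by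
    rw [← hA, hPφ z hz h0])
  have hPw : ∀ w : ℂ, P.eval w = w ^ (m + 1) := by
    intro w
    rw [hA, hA1, hc]
    ring
  have hφ1 : ∀ z ∈ ball (0 : ℂ) 1, z ≠ 0 → φ z = 1 / z :=
    outer hn hM.unif fun z hz h0 => by rw [← hPφ z hz h0, hPw]
  have hφcl : EqOn φ (fun z => 1 / z) (closedBall 0 1 \ {0}) := by
    refine Set.EqOn.of_subset_closure (s := ball (0 : ℂ) 1 \ {0}) (fun z hz => hφ1 z hz.1 hz.2)
      hM.φcont ?_ (sdiff_subset_sdiff_left ball_subset_closedBall) closedBall_punct_sub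
    exact continuousOn_const.div continuousOn_id fun z hz => hz.2
  -- the inner Riemann map
  set v : ℂ → ℂ := dslope χ 0 with hv
  have hvd : DifferentiableOn ℂ v (ball 0 1) :=
    (Complex.differentiableOn_dslope (isOpen_ball.mem_nhds h0m)).2 hM.χdiff
  have hv0 : v 0 ≠ 0 := by
    rw [hv, dslope_same]
    exact Pool.Agent.Squeeze.deriv_ne_zero_of_injOn isOpen_ball hM.χdiff hχinj h0m
  have hvc : ContinuousAt v 0 := hvd.continuousOn.continuousAt (isOpen_ball.mem_nhds h0m)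
  have hχv : ∀ z, χ z = z * v z := by
    intro z
    have h := sub_smul_dslope χ 0 z
    rw [sub_zero, smul_eq_mul, hc, sub_zero] at h
    exact h.symm
  have hev' : ∀ z ∈ ball (0 : ℂ) 1, z ≠ 0 → v z ^ (m + 1) = v (z ^ (m + 1)) := by
    intro z hz h0
    have h := hPχ z hz
    rw [hPw, hχv z, hχv (z ^ (m + 1)), mul_pow] at h
    exact mul_left_cancel₀ (pow_ne_zero _ h0) h
  have hev : ∀ z ∈ ball (0 : ℂ) 1, v z ^ (m + 1) = v (z ^ (m + 1)) := by
    intro z hz
    by_cases h0 : z = 0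
    · subst h0
      have hL : Tendsto (fun z => v z ^ (m + 1)) (𝓝[≠] 0) (𝓝 (v 0 ^ (m + 1))) :=
        (hvc.tendsto.pow (m + 1)).mono_left nhdsWithin_le_nhds
      have hR : Tendsto (fun z : ℂ => v (z ^ (m + 1))) (𝓝[≠] 0) (𝓝 (v 0)) :=
        hvc.tendsto.comp ((nhds_pow (by omega)).mono_right nhdsWithin_le_nhds)
      have heq : (fun z => v z ^ (m + 1)) =ᶠ[𝓝[≠] 0] (fun z : ℂ => v (z ^ (m + 1))) := by
        filter_upwards [ball_punct] with z hz
        exact hev' z hz.1 hz.2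
      have h := tendsto_nhds_unique (hL.congr' heq) hR
      rw [zero_pow (by omega)]
      exact h
    · exact hev' z hz h0
  have hrig := rigid hn hvd hv0 hev
  have hχlin : EqOn χ (fun z => v 0 * z) (closedBall 0 1) := by
    refine Set.EqOn.of_subset_closure (s := ball (0 : ℂ) 1) (fun z hz => ?_) hM.χcont ?_
      ball_subset_closedBall closedBall_sub
    · rw [hχv z, hrig z hz, mul_comm]
    · exact (continuous_const.mul continuous_id).continuousOn
  have h1m : (1 : ℂ) ∈ closedBall (0 : ℂ) 1 := by simp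
  have hv1 : v 0 = 1 := by
    have h1 : χ 1 = v 0 * 1 := hχlin h1m
    have h2 : φ 1 = 1 / 1 := hφcl ⟨h1m, by simp⟩
    rw [← hM.one, h2] at h1
    simpa using h1.symm
  refine ⟨?_, fun z hz => hφcl hz, fun z hz => ?_⟩
  · funext x
    induction x using OnePoint.rec with
    | infty => rw [hfinf, pw_infty]
    | coe w => rw [hP, hPw, pw_coe]
  · have h := hχlin hz
    simp only [hv1, one_mul] at h
    exact h

theorem continuous_pw (m : ℕ) : Continuous (pw (m + 1)) := by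
  refine OnePoint.continuous_map (continuous_pow _) ?_
  rw [coclosedCompact_eq_cocompact]
  refine tendsto_cocompact_of_tendsto_dist_comp_atTop (0 : ℂ) ?_
  have h1 : Tendsto (fun z : ℂ => ‖z‖ ^ (m + 1)) (cocompact ℂ) atTop :=
    (tendsto_pow_atTop (by omega)).comp (tendsto_norm_cocompact_atTop (E := ℂ))
  refine h1.congr fun z => ?_
  rw [dist_zero_right, norm_pow]

/-- Existence. -/
theorem exist (m : ℕ) : IsRat (m + 1) (pw (m + 1)) ∧
    MateData (m := m) 0 0 (pw (m + 1)) (fun z => 1 / z) (fun z => z) := by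
  have hinv : ∀ z : ℂ, ‖1 / z‖ = 1 / ‖z‖ := fun z => by simp
  refine ⟨⟨continuous_pw m, X ^ (m + 1), 1, isCoprime_one_right, ?_, ?_⟩, ?_⟩
  · rw [natDegree_X_pow, natDegree_one]
    omega
  · intro z _
    rw [pw_coe]
    simp
  refine ⟨⟨?_, ?_, ?_⟩, ?_, ?_, differentiableOn_id, continuousOn_id, injOn_id _, ?_, ?_, ?_,
    ?_, ?_, ?_, ?_⟩
  · exact (differentiableOn_const 1).div differentiableOn_id fun z hz => hz.2
  · intro z _ w _ h
    simpa using h
  · simp
  · exact continuousOn_const.div continuousOn_id fun z hz => hz.2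
  · intro z _ w _ h
    simpa using h
  · ext w
    constructor
    · rintro ⟨z, hz, rfl⟩
      refine ⟨1 / z, ?_, rfl⟩
      rw [mem_sphere_zero_iff_norm] at hz ⊢
      rw [hinv, hz, div_one]
    · rintro ⟨z, hz, rfl⟩
      refine ⟨1 / z, ?_, by simp⟩
      rw [mem_sphere_zero_iff_norm] at hz ⊢
      rw [hinv, hz, div_one]
  · rw [Set.disjoint_left]
    rintro w ⟨z, ⟨hz, hz0⟩, rfl⟩ ⟨z', hz', h⟩
    rw [mem_ball_zero_iff] at hz
    rw [mem_closedBall_zero_iff] at hz'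
    have hpos : 0 < ‖z‖ := norm_pos_iff.2 hz0
    simp only at h
    rw [h, hinv, div_le_one hpos] at hz'
    linarith
  · rw [eq_univ_iff_forall]
    intro w
    by_cases hw : ‖w‖ ≤ 1
    · right
      exact ⟨w, by simpa using hw, rfl⟩
    · left
      push Not at hw
      have hw0 : w ≠ 0 := by
        rintro rfl
        rw [norm_zero] at hw
        linarith
      refine ⟨1 / w, ⟨?_, ?_⟩, by simp⟩
      · rw [mem_ball_zero_iff, hinv, div_lt_one (by linarith)]
        exact hw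
      · simpa using hw0
  · simp
  · intro z _
    rw [bl_zero]
    by_cases h0 : z = 0
    · subst h0
      rw [zero_pow (by omega), hat_zero, pw_infty]
    · rw [hat_ne _ h0, hat_ne _ (pow_ne_zero _ h0), pw_coe]
      simp
  · intro z _
    rw [bl_zero, pw_coe]
  · refine ⟨Homeomorph.refl ℂ, 1, ?_, ?_⟩
    · intro x y z h
      simpa using h
    · ext w
      simp only [Homeomorph.refl_apply, mem_image]
      constructor
      · rintro ⟨z, hz, rfl⟩
        refine ⟨1 / z, ?_, by simp⟩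
        rw [mem_sphere_zero_iff_norm] at hz ⊢
        rw [hinv, hz, div_one]
      · rintro ⟨z, hz, rfl⟩
        refine ⟨1 / z, ?_, rfl⟩
        rw [mem_sphere_zero_iff_norm] at hz ⊢
        rw [hinv, hz, div_one]

end Pool.Agent.BlMat.BA

namespace Pool.Agent.BlMat

open Set Metric

/-- The base case. -/
theorem base (_h : Stmt_Bl) : Stmt_Base := by
  intro m hm
  refine ⟨⟨_, _, _, BA.exist m⟩, ?_⟩
  intro f f' φ χ φ' χ' hf hf' hM hM'
  obtain ⟨h1, h2, h3⟩ := BA.unique hm hf hM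
  obtain ⟨h1', h2', h3'⟩ := BA.unique hm hf' hM'
  exact ⟨h1.trans h1'.symm, fun z hz => (h2 z hz).trans (h2' z hz).symm,
    fun z hz => (h3 z hz).trans (h3' z hz).symm⟩

end Pool.Agent.BlMat
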