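import Pool.Agent.BlMat.Defs

set_option autoImplicit false

/-! Basic calculus of the Wirtinger derivatives `dz`, `dzb`. -/

namespace Pool.Agent.BlMat

open Complex Metric Set Filter Topology MeasureTheory
open scoped ComplexConjugate ContDiff

theorem clm_apply (L : ℂ →L[ℝ] ℂ) (h : ℂ) :
    L h = (L 1 - I * L I) / 2 * h + (L 1 + I * L I) / 2 * conj h := by
  have h1 : L h = h.re * L 1 + h.im * L I := by
    conv_lhs => rw [← re_add_im h]
    have : ((h.re : ℂ) + (h.im : ℂ) * I) = h.re • (1 : ℂ) + h.im • I := by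
      simp
    rw [this, map_add, map_smul, map_smul]
    simp
  rw [h1]
  conv_rhs => rw [← re_add_im h]
  simp only [map_add, map_mul, conj_ofReal, conj_I]
  linear_combination (h.im * L I) * I_sq

theorem fderiv_apply (F : ℂ → ℂ) (z h : ℂ) :
    fderiv ℝ F z h = dz F z * h + dzb F z * conj h := by
  rw [clm_apply (fderiv ℝ F z) h]
  rfl

theorem dz_dzb_of_hasFDerivAt {F : ℂ → ℂ} {L : ℂ →L[ℝ] ℂ} {z a b : ℂ}
    (hF : HasFDerivAt F L z) (hL : ∀ h, L h = a * h + b * conj h) :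
    dz F z = a ∧ dzb F z = b := by
  rw [dz, dzb, hF.fderiv, hL 1, hL I]
  simp only [map_one, conj_I, mul_one]
  constructor
  · linear_combination (-(a - b) / 2) * I_sq
  · linear_combination ((a - b) / 2) * I_sq

theorem dzb_eq_zero_of_differentiableAt {F : ℂ → ℂ} {z : ℂ} (h : DifferentiableAt ℂ F z) :
    dzb F z = 0 ∧ dz F z = deriv F z := by
  have h1 := (h.hasDerivAt.hasFDerivAt.restrictScalars ℝ)
  have := dz_dzb_of_hasFDerivAt (a := deriv F z) (b := 0) h1 (by intro h; simp [mul_comm])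
  exact ⟨this.2, this.1⟩

theorem differentiableAt_of_dzb {F : ℂ → ℂ} {z : ℂ} (h : DifferentiableAt ℝ F z)
    (h0 : dzb F z = 0) : DifferentiableAt ℂ F z ∧ deriv F z = dz F z := by
  have h1 : HasDerivAt F (dz F z) z := by
    have h2 := h.hasFDerivAt
    rw [hasDerivAt_iff_hasFDerivAt]
    refine hasFDerivAt_of_restrictScalars ℝ h2 ?_
    ext1 x
    simp [fderiv_apply, h0, mul_comm]
  exact ⟨h1.differentiableAt, h1.deriv⟩

/-- Chain rule. -/
theorem dz_comp {F G : ℂ → ℂ} {z : ℂ} (hF : DifferentiableAt ℝ F (G z))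
    (hG : DifferentiableAt ℝ G z) :
    dz (F ∘ G) z = dz F (G z) * dz G z + dzb F (G z) * conj (dzb G z) ∧
    dzb (F ∘ G) z = dz F (G z) * dzb G z + dzb F (G z) * conj (dz G z) := by
  refine dz_dzb_of_hasFDerivAt (hF.hasFDerivAt.comp z hG.hasFDerivAt) ?_
  intro h
  rw [ContinuousLinearMap.comp_apply, fderiv_apply G, fderiv_apply F]
  simp only [map_add, map_mul, conj_conj]
  ring

theorem dz_add {F G : ℂ → ℂ} {z : ℂ} (hF : DifferentiableAt ℝ F z)
    (hG : DifferentiableAt ℝ G z) :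
    dz (fun w => F w + G w) z = dz F z + dz G z ∧
    dzb (fun w => F w + G w) z = dzb F z + dzb G z := by
  refine dz_dzb_of_hasFDerivAt (hF.hasFDerivAt.add hG.hasFDerivAt) ?_
  intro h
  rw [_root_.add_apply, fderiv_apply G, fderiv_apply F]
  ring

theorem dz_sub {F G : ℂ → ℂ} {z : ℂ} (hF : DifferentiableAt ℝ F z)
    (hG : DifferentiableAt ℝ G z) :
    dz (fun w => F w - G w) z = dz F z - dz G z ∧
    dzb (fun w => F w - G w) z = dzb F z - dzb G z := by
  refine dz_dzb_of_hasFDerivAt (hF.hasFDerivAt.sub hG.hasFDerivAt) ?_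
  intro h
  rw [_root_.sub_apply, fderiv_apply G, fderiv_apply F]
  ring

theorem dz_mul {F G : ℂ → ℂ} {z : ℂ} (hF : DifferentiableAt ℝ F z)
    (hG : DifferentiableAt ℝ G z) :
    dz (fun w => F w * G w) z = F z * dz G z + dz F z * G z ∧
    dzb (fun w => F w * G w) z = F z * dzb G z + dzb F z * G z := by
  refine dz_dzb_of_hasFDerivAt (hF.hasFDerivAt.mul hG.hasFDerivAt) ?_
  intro h
  simp only [_root_.add_apply, _root_.smul_apply, fderiv_apply G,
    fderiv_apply F, smul_eq_mul]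
  ring

theorem dz_const (c z : ℂ) : dz (fun _ => c) z = 0 ∧ dzb (fun _ => c) z = 0 := by
  simp [dz, dzb]

theorem dz_id (z : ℂ) : dz (fun w => w) z = 1 ∧ dzb (fun w => w) z = 0 := by
  refine dz_dzb_of_hasFDerivAt (hasFDerivAt_id z) ?_
  intro h
  simp

theorem dz_congr {F G : ℂ → ℂ} {z : ℂ} (h : F =ᶠ[𝓝 z] G) :
    dz F z = dz G z ∧ dzb F z = dzb G z := by
  simp [dz, dzb, h.fderiv_eq]

theorem norm_dz_le (F : ℂ → ℂ) (z : ℂ) :
    ‖dz F z‖ ≤ ‖fderiv ℝ F z‖ ∧ ‖dzb F z‖ ≤ ‖fderiv ℝ F z‖ := by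
  have h1 : ‖fderiv ℝ F z 1‖ ≤ ‖fderiv ℝ F z‖ := by
    simpa using (fderiv ℝ F z).le_opNorm 1
  have h2 : ‖fderiv ℝ F z I‖ ≤ ‖fderiv ℝ F z‖ := by
    simpa using (fderiv ℝ F z).le_opNorm I
  constructor
  · rw [dz, norm_div]
    have := norm_sub_le (fderiv ℝ F z 1) (I * fderiv ℝ F z I)
    rw [norm_mul, norm_I, one_mul] at this
    simp only [RCLike.norm_ofNat]
    linarith
  · rw [dzb, norm_div]
    have := norm_add_le (fderiv ℝ F z 1) (I * fderiv ℝ F z I)
    rw [norm_mul, norm_I, one_mul] at this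
    simp only [RCLike.norm_ofNat]
    linarith

theorem norm_fderiv_le (F : ℂ → ℂ) (z : ℂ) :
    ‖fderiv ℝ F z‖ ≤ ‖dz F z‖ + ‖dzb F z‖ := by
  refine ContinuousLinearMap.opNorm_le_bound _ (by positivity) ?_
  intro h
  rw [fderiv_apply]
  calc ‖dz F z * h + dzb F z * conj h‖ ≤ ‖dz F z * h‖ + ‖dzb F z * conj h‖ := norm_add_le _ _
    _ = (‖dz F z‖ + ‖dzb F z‖) * ‖h‖ := by
        rw [norm_mul, norm_mul, RCLike.norm_conj]; ring

theorem det_fderiv (F : ℂ → ℂ) (z : ℂ) :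
    (fderiv ℝ F z).det = ‖dz F z‖ ^ 2 - ‖dzb F z‖ ^ 2 := by
  have h1 : (fderiv ℝ F z).det = (fderiv ℝ F z 1).re * (fderiv ℝ F z I).im
      - (fderiv ℝ F z I).re * (fderiv ℝ F z 1).im := by
    rw [ContinuousLinearMap.det, ← LinearMap.det_toMatrix Complex.basisOneI, Matrix.det_fin_two]
    simp [LinearMap.toMatrix_apply]
  rw [h1, dz, dzb, ← Complex.normSq_eq_norm_sq, ← Complex.normSq_eq_norm_sq]
  simp only [normSq_apply, div_re, div_im, sub_re, sub_im, add_re, add_im, mul_re, mul_im, I_re,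
    I_im, re_ofNat, im_ofNat]
  norm_num
  ring

theorem continuous_dz {F : ℂ → ℂ} (hF : ContDiff ℝ 1 F) : Continuous (dz F) := by
  have h := hF.continuous_fderiv (by norm_num)
  unfold dz
  fun_prop

theorem continuous_dzb {F : ℂ → ℂ} (hF : ContDiff ℝ 1 F) : Continuous (dzb F) := by
  have h := hF.continuous_fderiv (by norm_num)
  unfold dzb
  fun_prop

theorem SmoothQC.differentiable {k : ℝ} {F : ℂ ≃ₜ ℂ} (hF : SmoothQC k F) :
    Differentiable ℝ (F : ℂ → ℂ) := hF.smooth.differentiable (by norm_num)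

theorem SmoothQC.det_pos {k : ℝ} {F : ℂ ≃ₜ ℂ} (hk : k < 1) (hF : SmoothQC k F) (z : ℂ) :
    0 < (fderiv ℝ F z).det := by
  rw [det_fderiv]
  have h1 := norm_pos_iff.mpr (hF.ne z)
  have h2 := hF.dil z
  have h3 := norm_nonneg (dzb F z)
  have h4 : ‖dzb F z‖ < ‖dz F z‖ := by nlinarith
  nlinarith

end Pool.Agent.BlMat
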