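import Pool.Agent.BlMat.Basic

set_option autoImplicit false

/-!
# The Beurling transform is an isometry of `L²` (on test functions)
-/

namespace Pool.Agent.BlMat.C2

open Complex Metric Set Filter Topology MeasureTheory
open scoped ComplexConjugate ContDiff

theorem integrable_prod {a b : ℂ → ℝ} (ha : Continuous a) (hb : Continuous b) {A B : ℝ}
    (hA : ∀ z, |a z| ≤ A / (1 + ‖z‖)) (hB : ∀ z, |b z| ≤ B / (1 + ‖z‖) ^ 2) :
    Integrable (fun z => a z * b z) := by
  have h3 : Integrable (fun z : ℂ => A * B * (1 + ‖z‖) ^ (-(3 : ℝ))) := by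
    refine (integrable_one_add_norm (E := ℂ) (μ := volume) (r := 3) ?_).const_mul _
    rw [Complex.finrank_real_complex]
    norm_num
  refine h3.mono' (ha.mul hb).aestronglyMeasurable (Eventually.of_forall fun z => ?_)
  have hz : 0 < 1 + ‖z‖ := by positivity
  rw [norm_mul, Real.norm_eq_abs, Real.norm_eq_abs]
  calc |a z| * |b z| ≤ (A / (1 + ‖z‖)) * (B / (1 + ‖z‖) ^ 2) :=
        mul_le_mul (hA z) (hB z) (abs_nonneg _) ((abs_nonneg _).trans (hA z))
    _ = A * B * (1 + ‖z‖) ^ (-(3 : ℝ)) := by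
        rw [Real.rpow_neg hz.le]
        have : (1 + ‖z‖) ^ (3 : ℝ) = (1 + ‖z‖) ^ 3 := by
          exact_mod_cast Real.rpow_natCast (1 + ‖z‖) 3
        rw [this]
        field_simp

theorem sq_le {C : ℝ} {z : ℂ} {x : ℝ} (hC : 0 ≤ C) (h : |x| ≤ C / (1 + ‖z‖) ^ 2) :
    |x| ≤ C / (1 + ‖z‖) := by
  refine h.trans ?_
  have hz : 1 ≤ 1 + ‖z‖ := by linarith [norm_nonneg z]
  gcongr
  nlinarith

theorem norm_sub_formula (F : ℂ → ℂ) (z : ℂ) :
    ‖dz F z‖ ^ 2 - ‖dzb F z‖ ^ 2 = (fderiv ℝ F z 1).re * (fderiv ℝ F z I).im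
      - (fderiv ℝ F z I).re * (fderiv ℝ F z 1).im := by
  rw [dz, dzb, ← Complex.normSq_eq_norm_sq, ← Complex.normSq_eq_norm_sq]
  simp only [normSq_apply, div_re, div_im, sub_re, sub_im, add_re, add_im, mul_re, mul_im, I_re,
    I_im, re_ofNat, im_ofNat]
  norm_num
  ring

theorem fderiv_re {F : ℂ → ℂ} {z h : ℂ} (hF : DifferentiableAt ℝ F z) :
    fderiv ℝ (fun w => (F w).re) z h = (fderiv ℝ F z h).re := by
  have h1 : HasFDerivAt (fun w => (F w).re) (reCLM.comp (fderiv ℝ F z)) z :=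
    reCLM.hasFDerivAt.comp z hF.hasFDerivAt
  rw [h1.fderiv]
  rfl

theorem fderiv_im {F : ℂ → ℂ} {z h : ℂ} (hF : DifferentiableAt ℝ F z) :
    fderiv ℝ (fun w => (F w).im) z h = (fderiv ℝ F z h).im := by
  have h1 : HasFDerivAt (fun w => (F w).im) (imCLM.comp (fderiv ℝ F z)) z :=
    imCLM.hasFDerivAt.comp z hF.hasFDerivAt
  rw [h1.fderiv]
  rfl

theorem two_le : ((1 : WithTop ℕ∞) + 1) ≤ (∞ : WithTop ℕ∞) := by
  have h : ((1 : WithTop ℕ∞) + 1) = ((2 : ℕ∞) : WithTop ℕ∞) := by norm_num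
  rw [h]
  exact_mod_cast (le_top : (2 : ℕ∞) ≤ ⊤)

theorem symm2 {v : ℂ → ℂ} (hv : ContDiff ℝ ∞ v) (w a b : ℂ) :
    fderiv ℝ (fun u => fderiv ℝ v u a) w b = fderiv ℝ (fun u => fderiv ℝ v u b) w a := by
  have hd : DifferentiableAt ℝ (fderiv ℝ v) w :=
    ((hv.fderiv_right (m := 1) two_le).differentiable (by norm_num)) w
  have h1 : ∀ c d : ℂ, fderiv ℝ (fun u => fderiv ℝ v u c) w d = fderiv ℝ (fderiv ℝ v) w d c := by
    intro c d
    rw [fderiv_clm_apply hd (differentiableAt_const c)]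
    simp
  rw [h1, h1]
  have hs : IsSymmSndFDerivAt ℝ v w :=
    (hv.contDiffAt (x := w)).isSymmSndFDerivAt (by
      simp only [minSmoothness_of_isRCLikeNormedField]
      refine le_trans (le_of_eq ?_) two_le
      norm_num)
  exact hs b a

end Pool.Agent.BlMat.C2

namespace Pool.Agent.BlMat

open Complex Metric Set Filter Topology MeasureTheory C2
open scoped ComplexConjugate ContDiff

theorem isometry (h : Stmt_Cauchy) : Stmt_Isometry := by
  intro v hv hvc
  have hv1 : ContDiff ℝ 1 v := hv.of_le (by exact_mod_cast le_top)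
  -- directional derivatives of v
  have hdv : ∀ a : ℂ, ContDiff ℝ 1 (fun w => fderiv ℝ v w a) := fun a =>
    (hv.fderiv_right (m := 1) two_le).clm_apply contDiff_const
  have hdvc : ∀ a : ℂ, HasCompactSupport (fun w => fderiv ℝ v w a) := fun a =>
    hvc.fderiv_apply (𝕜 := ℝ) a
  obtain ⟨f1, f2, f3, ⟨C0, f4⟩, C1, f5⟩ := h v hv1 hvc
  set f := cauchyT v with hf
  set fd : ℂ → ℂ → ℂ := fun a => cauchyT (fun w => fderiv ℝ v w a) with hfd
  have hfda : ∀ a, ContDiff ℝ 1 (fd a) := fun a => (h _ (hdv a) (hdvc a)).1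
  have hfd2 : ∀ a z b, fderiv ℝ (fd a) z b =
      cauchyT (fun w => fderiv ℝ (fun u => fderiv ℝ v u a) w b) z := fun a z b =>
    (h _ (hdv a) (hdvc a)).2.1 z b
  have hsymm : ∀ z, fderiv ℝ (fd I) z 1 = fderiv ℝ (fd 1) z I := by
    intro z
    rw [hfd2, hfd2]
    congr 1
    funext w
    exact symm2 hv w I 1
  have hC0 : 0 ≤ C0 := by
    have := f4 0
    simp at this
    exact (norm_nonneg _).trans this
  have hC1 : 0 ≤ C1 := by
    have := f5 0 1
    simp at this
    exact (norm_nonneg _).trans this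
  have bfd : ∀ a : ℂ, ‖a‖ = 1 → ∀ z, ‖fd a z‖ ≤ C1 / (1 + ‖z‖) ^ 2 := by
    intro a ha z
    have := f5 z a
    rw [ha, mul_one, f2] at this
    exact this
  have hd2 : ∀ a : ℂ, ‖a‖ = 1 → ∃ C, 0 ≤ C ∧ ∀ z b, ‖b‖ = 1 →
      ‖fderiv ℝ (fd a) z b‖ ≤ C / (1 + ‖z‖) ^ 2 := by
    intro a ha
    obtain ⟨C, hC⟩ := (h _ (hdv a) (hdvc a)).2.2.2.2
    refine ⟨C, ?_, fun z b hb => ?_⟩
    · have := hC 0 1
      simp at this
      exact (norm_nonneg _).trans this
    · have := hC z b
      rwa [hb, mul_one] at this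
  have hI : ‖(I : ℂ)‖ = 1 := by simp
  have h1 : ‖(1 : ℂ)‖ = 1 := by simp
  have hfdiff : Differentiable ℝ f := f1.differentiable (by norm_num)
  have hcont : Continuous f := f1.continuous
  have hcre : Continuous (fun z => (f z).re) := continuous_re.comp hcont
  have fdc : ∀ a, Continuous (fd a) := fun a => (hfda a).continuous
  have fdd : ∀ a, Differentiable ℝ (fd a) := fun a => (hfda a).differentiable (by norm_num)
  have b0 : ∀ z, |(f z).re| ≤ C0 / (1 + ‖z‖) := fun z => (abs_re_le_norm _).trans (f4 z)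
  have bre : ∀ a : ℂ, ‖a‖ = 1 → ∀ z, |(fd a z).re| ≤ C1 / (1 + ‖z‖) := fun a ha z =>
    sq_le hC1 ((abs_re_le_norm _).trans (bfd a ha z))
  have bim : ∀ a : ℂ, ‖a‖ = 1 → ∀ z, |(fd a z).im| ≤ C1 / (1 + ‖z‖) ^ 2 := fun a ha z =>
    (abs_im_le_norm _).trans (bfd a ha z)
  -- integration by parts
  have key : ∀ a b : ℂ, ‖a‖ = 1 → ‖b‖ = 1 →
      ∫ z, (f z).re * (fderiv ℝ (fd a) z b).im = -∫ z, (fd b z).re * (fd a z).im := by
    intro a b ha hb
    obtain ⟨C2, hC2, hC2'⟩ := hd2 a ha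
    have e1 : ∀ z, fderiv ℝ (fun w => (f w).re) z b = (fd b z).re := fun z => by
      rw [fderiv_re (hfdiff z), f2]
    have e2 : ∀ z, fderiv ℝ (fun w => (fd a w).im) z b = (fderiv ℝ (fd a) z b).im := fun z =>
      fderiv_im (fdd a z)
    have hcf : Continuous (fun z => fderiv ℝ (fd a) z b) :=
      ((hfda a).continuous_fderiv (by norm_num)).clm_apply continuous_const
    have := integral_mul_fderiv_eq_neg_fderiv_mul_of_integrable (𝕜 := ℝ) (μ := volume)
      (f := fun w => (f w).re) (g := fun w => (fd a w).im) (v := b) ?_ ?_ ?_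
      (fun z _ => (reCLM.differentiable.comp hfdiff) z)
      (fun z _ => (imCLM.differentiable.comp (fdd a)) z)
    · simpa only [e1, e2] using this
    · simp only [e1]
      exact integrable_prod (continuous_re.comp (fdc b)) (continuous_im.comp (fdc a))
        (bre b hb) (bim a ha)
    · simp only [e2]
      exact integrable_prod hcre (continuous_im.comp hcf) b0
        (fun z => (abs_im_le_norm _).trans (hC2' z b hb))
    · exact integrable_prod hcre (continuous_im.comp (fdc a)) b0 (bim a ha)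
  have k1 := key I 1 hI h1
  have k2 := key 1 I h1 hI
  simp only [hsymm] at k1
  have hint1 : Integrable (fun z => (fd 1 z).re * (fd I z).im) :=
    integrable_prod (continuous_re.comp (fdc 1)) (continuous_im.comp (fdc I)) (bre 1 h1) (bim I hI)
  have hint2 : Integrable (fun z => (fd I z).re * (fd 1 z).im) :=
    integrable_prod (continuous_re.comp (fdc I)) (continuous_im.comp (fdc 1)) (bre I hI) (bim 1 h1)
  have hzero : ∫ z, ((fd 1 z).re * (fd I z).im - (fd I z).re * (fd 1 z).im) = 0 := by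
    rw [integral_sub hint1 hint2]
    linarith
  have hpt : ∀ z, ‖dz f z‖ ^ 2 =
      ((fd 1 z).re * (fd I z).im - (fd I z).re * (fd 1 z).im) + ‖v z‖ ^ 2 := by
    intro z
    have := norm_sub_formula f z
    rw [f3 z, f2 z 1, f2 z I] at this
    linarith
  have hvi : Integrable (fun z => ‖v z‖ ^ 2) := by
    refine Continuous.integrable_of_hasCompactSupport (hv.continuous.norm.pow 2) ?_
    have := hvc.norm
    refine HasCompactSupport.comp_left (g := fun x : ℝ => x ^ 2) this (by norm_num)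
  refine ⟨?_, ?_⟩
  · simp only [hpt]
    exact (hint1.sub hint2).add hvi
  · simp only [hpt]
    have e := integral_add (hint1.sub hint2) hvi
    simp only [Pi.sub_apply] at e
    rw [e, hzero, zero_add]

end Pool.Agent.BlMat
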