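import Pool.Agent.BlMat.C3d

set_option autoImplicit false

/-! Block C3: solution of the inhomogeneous Beltrami equation. -/

namespace Pool.Agent.BlMat

open Complex Metric Set Filter Topology MeasureTheory
open scoped ComplexConjugate ENNReal NNReal

namespace C3

theorem integrableOn_inv (R : ℝ) : IntegrableOn (fun w : ℂ => w⁻¹) (closedBall 0 R) := by
  have h1 : Integrable (fun w : ℂ => indicator (Iic R) (fun y : ℝ => y⁻¹) ‖w‖) volume := by
    rw [integrable_fun_norm_addHaar]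
    have h2 : IntegrableOn (indicator (Iic R) (fun _ : ℝ => (1 : ℝ))) (Ioi 0) := by
      refine (integrable_indicator_iff measurableSet_Iic).mpr ?_
      refine integrableOn_const ?_
      rw [Measure.restrict_apply measurableSet_Iic]
      have : Iic R ∩ Ioi 0 ⊆ Icc 0 R := fun x hx => ⟨le_of_lt hx.2, hx.1⟩
      exact ne_top_of_le_ne_top (measure_Icc_lt_top (a := (0 : ℝ)) (b := R)).ne
        (measure_mono this)
    refine h2.congr_fun ?_ measurableSet_Ioi
    intro y hy
    have hy' : (0 : ℝ) < y := hy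
    by_cases hR : y ∈ Iic R
    · simp [indicator_of_mem hR, Complex.finrank_real_complex, hy'.ne']
    · simp [indicator_of_notMem hR]
  have h3 : IntegrableOn (fun w : ℂ => indicator (Iic R) (fun y : ℝ => y⁻¹) ‖w‖)
      (closedBall 0 R) := h1.integrableOn
  refine Integrable.mono' h3 ?_ ?_
  · exact measurable_inv.aestronglyMeasurable
  · refine (ae_restrict_iff' measurableSet_closedBall).mpr (Eventually.of_forall fun w hw => ?_)
    rw [mem_closedBall_zero_iff] at hw
    have : ‖w‖ ∈ Iic R := hw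
    rw [indicator_of_mem this, norm_inv]

theorem locallyIntegrable_inv : LocallyIntegrable (fun w : ℂ => w⁻¹) volume := by
  rw [locallyIntegrable_iff]
  intro K hK
  obtain ⟨R, hR⟩ := hK.isBounded.subset_closedBall 0
  exact (integrableOn_inv R).mono_set hR

theorem integrable_kernel {v : ℂ → ℂ} (hv : Continuous v) (hs : HasCompactSupport v) (z : ℂ) :
    Integrable (fun w => v (z - w) / w) := by
  have h := hs.convolutionExists_right (ContinuousLinearMap.mul ℝ ℂ) locallyIntegrable_inv hv z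
  refine Integrable.congr h (Eventually.of_forall fun w => ?_)
  show w⁻¹ * v (z - w) = v (z - w) / w
  rw [div_eq_mul_inv, mul_comm]

theorem cauchyT_add {u v : ℂ → ℂ} (hu : Continuous u) (hus : HasCompactSupport u)
    (hv : Continuous v) (hvs : HasCompactSupport v) :
    cauchyT (fun z => u z + v z) = fun z => cauchyT u z + cauchyT v z := by
  ext z
  simp only [cauchyT]
  rw [← mul_add, ← integral_add (integrable_kernel hu hus z) (integrable_kernel hv hvs z)]
  simp only [add_div]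

theorem cauchyT_sub {u v : ℂ → ℂ} (hu : Continuous u) (hus : HasCompactSupport u)
    (hv : Continuous v) (hvs : HasCompactSupport v) :
    cauchyT (fun z => u z - v z) = fun z => cauchyT u z - cauchyT v z := by
  ext z
  simp only [cauchyT]
  rw [← mul_sub, ← integral_sub (integrable_kernel hu hus z) (integrable_kernel hv hvs z)]
  simp only [sub_div]

theorem BB_add (h1 : Stmt_Cauchy) {u v : ℂ → ℂ} (hu : Sm u) (hv : Sm v) (z : ℂ) :
    BB (fun z => u z + v z) z = BB u z + BB v z := by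
  simp only [BB]
  rw [cauchyT_add hu.cont hu.supp hv.cont hv.supp]
  exact (dz_add ((h1 u hu.c1 hu.supp).1.differentiable (by simp) z)
    ((h1 v hv.c1 hv.supp).1.differentiable (by simp) z)).1

theorem compactSupport_of {R : ℝ} {v : ℂ → ℂ} (h : ∀ z, R < ‖z‖ → v z = 0) :
    HasCompactSupport v :=
  HasCompactSupport.intro (isCompact_closedBall (0 : ℂ) R) fun z hz => h z (by
    rw [mem_closedBall_zero_iff, not_le] at hz; exact hz)

theorem tendsto_cauchyT (h2 : Stmt_CauchyBound) {R : ℝ} {fs : ℕ → ℂ → ℂ} {f : ℂ → ℂ}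
    (hfs : ∀ n, Continuous (fs n)) (hf : Continuous f) (hs : ∀ n z, R < ‖z‖ → fs n z = 0)
    (hs' : ∀ z, R < ‖z‖ → f z = 0) (hu : TendstoUniformly fs f atTop) (z : ℂ) :
    Tendsto (fun n => cauchyT (fs n) z) atTop (𝓝 (cauchyT f z)) := by
  obtain ⟨C, hC⟩ := h2 R
  rw [Metric.tendsto_nhds]
  intro ε hε
  have hC0 : 0 < |C| + 1 := by positivity
  filter_upwards [Metric.tendstoUniformly_iff.mp hu (ε / (|C| + 1)) (by positivity)] with n hn
  have h3 := congrFun (cauchyT_sub (hfs n) (compactSupport_of (hs n)) hf (compactSupport_of hs')) z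
  rw [dist_eq_norm, ← h3]
  have hB : ∀ y, ‖fs n y - f y‖ ≤ ε / (|C| + 1) := fun y => by
    have := (hn y).le
    rwa [dist_comm, dist_eq_norm] at this
  have h4 := hC (fun z => fs n z - f z) (ε / (|C| + 1)) ((hfs n).sub hf)
    (fun z hz => by rw [hs n z hz, hs' z hz, sub_zero]) hB z
  refine h4.trans_lt ?_
  rw [mul_div_assoc', div_lt_iff₀ hC0]
  nlinarith [le_abs_self C]

/-- The Neumann series. -/
noncomputable def uu (μ g : ℂ → ℂ) : ℕ → ℂ → ℂ
  | 0 => g
  | j + 1 => MM μ (uu μ g j)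

/-- Partial sums. -/
noncomputable def VV (μ g : ℂ → ℂ) (n : ℕ) (z : ℂ) : ℂ := ∑ j ∈ Finset.range n, uu μ g j z

variable {μ g : ℂ → ℂ}

theorem VV_succ (n : ℕ) : VV μ g (n + 1) = fun z => VV μ g n z + uu μ g n z := by
  ext z
  exact Finset.sum_range_succ _ _

theorem sm_uu (h1 : Stmt_Cauchy) (hμ : Sm μ) (hg : Sm g) : ∀ j, Sm (uu μ g j)
  | 0 => hg
  | j + 1 => hμ.MM h1 (sm_uu h1 hμ hg j)

theorem sm_VV (h1 : Stmt_Cauchy) (hμ : Sm μ) (hg : Sm g) : ∀ j, Sm (VV μ g j)
  | 0 => by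
    have : VV μ g 0 = fun _ => 0 := by ext z; simp [VV]
    rw [this]; exact Sm.zero
  | j + 1 => by
    rw [VV_succ]
    exact (sm_VV h1 hμ hg j).add (sm_uu h1 hμ hg j)

theorem VV_eq (h1 : Stmt_Cauchy) (hμ : Sm μ) (hg : Sm g) : ∀ (n : ℕ) (z : ℂ),
    VV μ g (n + 1) z = μ z * BB (VV μ g n) z + g z
  | 0, z => by
    have h0 : VV μ g 0 = fun _ => 0 := by ext z; simp [VV]
    have h2 : cauchyT (fun _ => 0) = fun _ => 0 := by ext z; simp [cauchyT]
    rw [h0, BB, h2, (dz_const 0 z).1]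
    simp [VV, uu]
  | n + 1, z => by
    rw [VV_succ (n + 1)]
    simp only
    rw [VV_eq h1 hμ hg n z, VV_succ n, BB_add h1 (sm_VV h1 hμ hg n) (sm_uu h1 hμ hg n)]
    simp only [uu, MM]
    ring

theorem DD_VV (h1 : Stmt_Cauchy) (hμ : Sm μ) (hg : Sm g) (h : ℂ) : ∀ (n : ℕ),
    DD h (VV μ g n) = fun z => ∑ j ∈ Finset.range n, DD h (uu μ g j) z
  | 0 => by
    have h0 : VV μ g 0 = fun _ => 0 := by ext z; simp [VV]
    ext z
    rw [h0]
    simp [DD]
  | n + 1 => by
    rw [VV_succ n, DD_add (sm_VV h1 hμ hg n) (sm_uu h1 hμ hg n), DD_VV h1 hμ hg h n]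
    ext z
    rw [Finset.sum_range_succ]

theorem tsum_ee_ne_top (h1 : Stmt_Cauchy) (h3 : Stmt_Isometry) (hμ : Sm μ) (hg : Sm g)
    {k : ℝ≥0} (hk : k < 1) (hμk : ∀ z, ‖μ z‖₊ ≤ k) (m : ℕ) :
    ∑' j, ee m (uu μ g j) ≠ ∞ := by
  induction m using Nat.strong_induction_on with
  | _ m ih =>
    obtain ⟨C, hC⟩ := ee_MM h1 h3 m μ k hμ hμk
    refine tsum_aux hk (fun j => ee_ne_top m (sm_uu h1 hμ hg j))
      (b := fun j => C * cc m (uu μ g j)) ?_ fun j => hC _ (sm_uu h1 hμ hg j)
    rw [ENNReal.tsum_mul_left]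
    refine ENNReal.mul_ne_top ENNReal.coe_ne_top ?_
    simp only [cc]
    rw [Summable.tsum_finsetSum fun i _ => ENNReal.summable]
    exact ENNReal.sum_ne_top.mpr fun i hi => ih i (Finset.mem_range.mp hi)

end C3

open C3 in
theorem neumann (h1 : Stmt_Cauchy) (h2 : Stmt_CauchyBound) (h3 : Stmt_Isometry) :
    Stmt_Neumann := by
  intro μ g k hk hμ hμs hg hgs hμk
  have hk0 : 0 ≤ k := (norm_nonneg _).trans (hμk 0)
  lift k to ℝ≥0 using hk0
  have hk' : k < 1 := by exact_mod_cast hk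
  have hμk' : ∀ z, ‖μ z‖₊ ≤ k := fun z => by exact_mod_cast hμk z
  have Sμ : Sm μ := ⟨hμ, hμs⟩
  have Sg : Sm g := ⟨hg, hgs⟩
  have Su := sm_uu h1 Sμ Sg
  have SV := sm_VV h1 Sμ Sg
  -- supports
  obtain ⟨R, hR⟩ : ∃ R : ℝ, (∀ z, R < ‖z‖ → μ z = 0) ∧ ∀ z, R < ‖z‖ → g z = 0 := by
    obtain ⟨R1, hR1⟩ := hμs.isCompact.isBounded.subset_closedBall (0 : ℂ)
    obtain ⟨R2, hR2⟩ := hgs.isCompact.isBounded.subset_closedBall (0 : ℂ)
    refine ⟨max R1 R2, fun z hz => ?_, fun z hz => ?_⟩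
    · by_contra h
      have := mem_closedBall_zero_iff.mp (hR1 (subset_tsupport _ h))
      exact absurd (this.trans (le_max_left R1 R2)) (not_le.mpr hz)
    · by_contra h
      have := mem_closedBall_zero_iff.mp (hR2 (subset_tsupport _ h))
      exact absurd (this.trans (le_max_right R1 R2)) (not_le.mpr hz)
  have hu0 : ∀ j z, R < ‖z‖ → uu μ g j z = 0 := by
    intro j z hz
    cases j with
    | zero => exact hR.2 z hz
    | succ j => rw [uu, MM, hR.1 z hz, zero_mul]
  -- sup bounds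
  set V : ℝ≥0∞ := (volume (closedBall (0 : ℂ) R)) ^ (1 / 2 : ℝ) with hV
  have hVt : V ≠ ∞ := ENNReal.rpow_ne_top_of_nonneg (by norm_num) measure_closedBall_lt_top.ne
  set s0 : ℕ → ℝ := fun j => (V * ee 2 (uu μ g j)).toReal with hs0
  set s1 : ℕ → ℝ := fun j => (V * ee 3 (uu μ g j)).toReal with hs1
  have sum0 : Summable s0 := ENNReal.summable_toReal (by
    rw [ENNReal.tsum_mul_left]
    exact ENNReal.mul_ne_top hVt (tsum_ee_ne_top h1 h3 Sμ Sg hk' hμk' 2))
  have sum1 : Summable s1 := ENNReal.summable_toReal (by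
    rw [ENNReal.tsum_mul_left]
    exact ENNReal.mul_ne_top hVt (tsum_ee_ne_top h1 h3 Sμ Sg hk' hμk' 3))
  have toR : ∀ {x : ℂ} {y : ℝ≥0∞}, y ≠ ∞ → ‖x‖ₑ ≤ y → ‖x‖ ≤ y.toReal := by
    intro x y hy hxy
    have := ENNReal.toReal_mono hy hxy
    rwa [toReal_enorm] at this
  have bd0 : ∀ j z, ‖uu μ g j z‖ ≤ s0 j := fun j z =>
    toR (ENNReal.mul_ne_top hVt (ee_ne_top 2 (Su j))) (sup_bound (Su j) (hu0 j) z)
  have bd1 : ∀ j z, ‖DD 1 (uu μ g j) z‖ + ‖DD I (uu μ g j) z‖ ≤ s1 j := by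
    intro j z
    have e1 := toR (ENNReal.mul_ne_top hVt (ee_ne_top 2 ((Su j).DD 1)))
      (sup_bound ((Su j).DD 1) (fun z hz => DD_eq_zero (hu0 j) 1 z hz) z)
    have e2 := toR (ENNReal.mul_ne_top hVt (ee_ne_top 2 ((Su j).DD I)))
      (sup_bound ((Su j).DD I) (fun z hz => DD_eq_zero (hu0 j) I z hz) z)
    refine (add_le_add e1 e2).trans (le_of_eq ?_)
    rw [← ENNReal.toReal_add (ENNReal.mul_ne_top hVt (ee_ne_top 2 ((Su j).DD 1)))
      (ENNReal.mul_ne_top hVt (ee_ne_top 2 ((Su j).DD I))), ← mul_add]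
    rfl
  have nf : ∀ (L : ℂ →L[ℝ] ℂ), ‖L‖ ≤ ‖L 1‖ + ‖L I‖ := by
    intro L
    refine ContinuousLinearMap.opNorm_le_bound _ (by positivity) fun x => ?_
    rw [clm_eq L]
    simp only [_root_.add_apply, ContinuousLinearMap.smulRight_apply, reCLM_apply,
      imCLM_apply, one_re, one_smul, one_im, zero_smul, add_zero, I_re, I_im, zero_add]
    calc ‖x.re • L 1 + x.im • L I‖ ≤ |x.re| * ‖L 1‖ + |x.im| * ‖L I‖ := by
          refine (norm_add_le _ _).trans (le_of_eq ?_)
          rw [norm_smul, norm_smul, Real.norm_eq_abs, Real.norm_eq_abs]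
      _ ≤ ‖x‖ * ‖L 1‖ + ‖x‖ * ‖L I‖ := by
          gcongr
          · exact abs_re_le_norm x
          · exact abs_im_le_norm x
      _ = _ := by ring
  have bdf : ∀ j z, ‖fderiv ℝ (uu μ g j) z‖ ≤ s1 j := fun j z => (nf _).trans (bd1 j z)
  -- the solution
  set v : ℂ → ℂ := fun z => ∑' j, uu μ g j z with hv
  have cv : ContDiff ℝ 1 v := by
    have := contDiff_tsum (𝕜 := ℝ) (f := fun j z => uu μ g j z) (N := 1)
      (v := fun k j => if k = 0 then s0 j else s1 j) (fun j => (Su j).c1) ?_ ?_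
    · exact this
    · intro k _
      by_cases h : k = 0
      · simpa [h] using sum0
      · simpa [h] using sum1
    · intro k j x hkN
      have hk1 : k ≤ 1 := by exact_mod_cast hkN
      interval_cases k
      · simpa using bd0 j x
      · simpa [norm_iteratedFDeriv_one] using bdf j x
  have hv0 : ∀ z, R < ‖z‖ → v z = 0 := by
    intro z hz
    simp only [hv, hu0 _ z hz, tsum_zero]
  refine ⟨v, cv, compactSupport_of hv0, fun z => ?_⟩
  -- derivative of the solution
  have hDv : ∀ h : ℂ, DD h v = fun z => ∑' j, DD h (uu μ g j) z := by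
    intro h
    ext z
    have e1 := fderiv_tsum_apply (𝕜 := ℝ) (f := fun j z => uu μ g j z) (x₀ := (0 : ℂ)) sum1
      (fun j => (Su j).diff) bdf (Summable.of_norm_bounded sum0 fun j => bd0 j 0) z
    simp only [DD]
    rw [e1]
    have e2 : Summable fun j => fderiv ℝ (uu μ g j) z :=
      Summable.of_norm_bounded sum1 fun j => bdf j z
    exact (ContinuousLinearMap.apply ℝ ℂ h).map_tsum e2
  have hDu : ∀ h : ℂ, TendstoUniformly (fun n => DD h (VV μ g n)) (DD h v) atTop := by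
    intro h
    have e1 : ∀ j z, ‖DD h (uu μ g j) z‖ ≤ s1 j * ‖h‖ := fun j z =>
      ((fderiv ℝ (uu μ g j) z).le_opNorm h).trans
        (mul_le_mul_of_nonneg_right (bdf j z) (norm_nonneg _))
    have e2 := tendstoUniformly_tsum_nat (sum1.mul_right ‖h‖) e1
    rw [hDv]
    have e3 : (fun n => DD h (VV μ g n)) = fun n z => ∑ j ∈ Finset.range n, DD h (uu μ g j) z := by
      ext1 n
      exact DD_VV h1 Sμ Sg h n
    rw [e3]
    exact e2
  have hlim : ∀ h : ℂ, Tendsto (fun n => cauchyT (DD h (VV μ g n)) z) atTop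
      (𝓝 (cauchyT (DD h v) z)) := by
    intro h
    have hV0 : ∀ n z, R < ‖z‖ → VV μ g n z = 0 := fun n z hz => by
      simp only [VV]
      exact Finset.sum_eq_zero fun j _ => hu0 j z hz
    have cDv : Continuous (DD h v) := by
      have := cv.continuous_fderiv (by simp)
      exact this.clm_apply continuous_const
    exact tendsto_cauchyT h2 (fun n => ((SV n).DD h).cont) cDv
      (fun n z hz => DD_eq_zero (hV0 n) h z hz) (fun z hz => DD_eq_zero hv0 h z hz) (hDu h) z
  have hB : Tendsto (fun n => BB (VV μ g n) z) atTop (𝓝 (BB v z)) := by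
    rw [BB_eq h1 cv (compactSupport_of hv0)]
    have e1 : (fun n => BB (VV μ g n) z) = fun n =>
        (cauchyT (DD 1 (VV μ g n)) z - I * cauchyT (DD I (VV μ g n)) z) / 2 := by
      ext n
      rw [BB_eq h1 (SV n).c1 (SV n).supp]
    rw [e1]
    exact ((hlim 1).sub ((hlim I).const_mul I)).div_const 2
  have hVl : Tendsto (fun n => VV μ g (n + 1) z) atTop (𝓝 (v z)) := by
    have : Summable fun j => uu μ g j z := Summable.of_norm_bounded sum0 fun j => bd0 j z
    exact (tendsto_add_atTop_iff_nat 1).mpr this.hasSum.tendsto_sum_nat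
  have hR' : Tendsto (fun n => VV μ g (n + 1) z) atTop (𝓝 (μ z * BB v z + g z)) := by
    have : (fun n => VV μ g (n + 1) z) = fun n => μ z * BB (VV μ g n) z + g z := by
      ext n; exact VV_eq h1 Sμ Sg n z
    rw [this]
    exact (hB.const_mul (μ z)).add_const (g z)
  exact tendsto_nhds_unique hVl hR'

end Pool.Agent.BlMat
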