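import Pool.Agent.BlMat.Basic

set_option autoImplicit false

/-! Block C3: Neumann series with derivatives for the Beltrami equation. -/

namespace Pool.Agent.BlMat

open Complex Metric Set Filter Topology MeasureTheory
open scoped ComplexConjugate ContDiff ENNReal NNReal

namespace C3

/-- Smooth functions with compact support. -/
structure Sm (w : ℂ → ℂ) : Prop where
  smooth : ContDiff ℝ ∞ w
  supp : HasCompactSupport w

/-- The derivative in the direction `h`. -/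
noncomputable def DD (h : ℂ) (w : ℂ → ℂ) (z : ℂ) : ℂ := fderiv ℝ w z h

theorem Sm.c1 {w : ℂ → ℂ} (hw : Sm w) : ContDiff ℝ 1 w := hw.smooth.of_le (by exact_mod_cast le_top)

theorem Sm.diff {w : ℂ → ℂ} (hw : Sm w) : Differentiable ℝ w := hw.smooth.differentiable (by simp)

theorem Sm.cont {w : ℂ → ℂ} (hw : Sm w) : Continuous w := hw.smooth.continuous

theorem contDiff_DD {w : ℂ → ℂ} (hw : ContDiff ℝ ∞ w) (h : ℂ) : ContDiff ℝ ∞ (DD h w) :=
  (hw.fderiv_right (m := ∞) (by simp)).clm_apply contDiff_const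

theorem Sm.DD {w : ℂ → ℂ} (hw : Sm w) (h : ℂ) : Sm (DD h w) :=
  ⟨contDiff_DD hw.smooth h, hw.supp.fderiv_apply (𝕜 := ℝ) h⟩

theorem Sm.add {u v : ℂ → ℂ} (hu : Sm u) (hv : Sm v) : Sm (fun z => u z + v z) :=
  ⟨hu.smooth.add hv.smooth, hu.supp.add hv.supp⟩

theorem Sm.zero : Sm (fun _ => 0) := ⟨contDiff_const, HasCompactSupport.zero⟩

theorem Sm.mul {a b : ℂ → ℂ} (ha : Sm a) (hb : ContDiff ℝ ∞ b) : Sm (fun z => a z * b z) :=
  ⟨ha.smooth.mul hb, ha.supp.mul_right⟩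

theorem DD_add {u v : ℂ → ℂ} (hu : Sm u) (hv : Sm v) (h : ℂ) :
    DD h (fun z => u z + v z) = fun z => DD h u z + DD h v z := by
  ext z
  simp only [DD]
  rw [fderiv_fun_add (hu.diff z) (hv.diff z)]
  rfl

theorem DD_mul {a b : ℂ → ℂ} (ha : Differentiable ℝ a) (hb : Differentiable ℝ b) (h : ℂ) :
    DD h (fun z => a z * b z) = fun z => a z * DD h b z + DD h a z * b z := by
  ext z
  simp only [DD]
  rw [fderiv_fun_mul (ha z) (hb z)]
  simp [mul_comm (b z)]

theorem DD_comm {w : ℂ → ℂ} (hw : ContDiff ℝ ∞ w) (h h' : ℂ) : DD h (DD h' w) = DD h' (DD h w) := by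
  have key : ∀ h h' z : ℂ, DD h (DD h' w) z = fderiv ℝ (fderiv ℝ w) z h h' := by
    intro h h' z
    have h1 : DifferentiableAt ℝ (fderiv ℝ w) z :=
      (hw.fderiv_right (m := ∞) (by simp)).differentiable (by simp) z
    show fderiv ℝ (fun y => fderiv ℝ w y h') z h = _
    have h2 : HasFDerivAt (fun y => fderiv ℝ w y h')
        (((ContinuousLinearMap.apply ℝ ℂ h').comp (fderiv ℝ (fderiv ℝ w) z))) z :=
      (ContinuousLinearMap.apply ℝ ℂ h').hasFDerivAt.comp z h1.hasFDerivAt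
    rw [h2.fderiv]
    rfl
  ext z
  rw [key, key]
  have h1 : ContDiffAt ℝ ∞ w z := hw.contDiffAt
  exact (h1.isSymmSndFDerivAt
    (minSmoothness_of_isRCLikeNormedField.trans_le ENat.LEInfty.out)) h h'

/-- The Beurling transform. -/
noncomputable def BB (w : ℂ → ℂ) (z : ℂ) : ℂ := dz (cauchyT w) z

theorem clm_eq (L : ℂ →L[ℝ] ℂ) : L = reCLM.smulRight (L 1) + imCLM.smulRight (L I) := by
  ext1 h
  have : h = h.re • (1 : ℂ) + h.im • I := by
    conv_lhs => rw [← re_add_im h]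
    simp
  conv_lhs => rw [this, map_add, map_smul, map_smul]
  simp

theorem contDiff_cauchyT (h1 : Stmt_Cauchy) : ∀ (n : ℕ) (w : ℂ → ℂ), Sm w →
    ContDiff ℝ n (cauchyT w)
  | 0, w, hw => by
    have := (h1 w hw.c1 hw.supp).1
    exact this.of_le (by simp)
  | n + 1, w, hw => by
    obtain ⟨h2, h3, -⟩ := h1 w hw.c1 hw.supp
    have h4 : ContDiff ℝ ((n : ℕ∞ω) + 1) (cauchyT w) := by
      rw [contDiff_succ_iff_fderiv]
      refine ⟨h2.differentiable (by simp), by simp, ?_⟩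
      have h5 : fderiv ℝ (cauchyT w) = fun z => reCLM.smulRight (cauchyT (DD 1 w) z) +
          imCLM.smulRight (cauchyT (DD I w) z) := by
        ext1 z
        rw [clm_eq (fderiv ℝ (cauchyT w) z), h3, h3]
        rfl
      rw [h5]
      have h6 := contDiff_cauchyT h1 n _ (hw.DD 1)
      have h7 := contDiff_cauchyT h1 n _ (hw.DD I)
      exact (contDiff_const.smulRight h6).add (contDiff_const.smulRight h7)
    exact_mod_cast h4

theorem smooth_cauchyT (h1 : Stmt_Cauchy) {w : ℂ → ℂ} (hw : Sm w) :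
    ContDiff ℝ ∞ (cauchyT w) :=
  contDiff_infty.mpr fun n => contDiff_cauchyT h1 n w hw

theorem BB_eq (h1 : Stmt_Cauchy) {w : ℂ → ℂ} (hw : ContDiff ℝ 1 w) (hs : HasCompactSupport w) :
    BB w = fun z => (cauchyT (DD 1 w) z - I * cauchyT (DD I w) z) / 2 := by
  ext z
  obtain ⟨h2, h3, -⟩ := h1 w hw hs
  rw [BB, dz, h3, h3]
  rfl

theorem contDiff_BB (h1 : Stmt_Cauchy) {w : ℂ → ℂ} (hw : Sm w) : ContDiff ℝ ∞ (BB w) := by
  rw [BB_eq h1 hw.c1 hw.supp]
  have h6 := smooth_cauchyT h1 (hw.DD 1)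
  have h7 := smooth_cauchyT h1 (hw.DD I)
  exact (h6.sub (contDiff_const.mul h7)).div_const 2

theorem DD_cauchyT (h1 : Stmt_Cauchy) {w : ℂ → ℂ} (hw : Sm w) (h : ℂ) :
    DD h (cauchyT w) = cauchyT (DD h w) := by
  ext z
  exact (h1 w hw.c1 hw.supp).2.1 z h

theorem DD_BB (h1 : Stmt_Cauchy) {w : ℂ → ℂ} (hw : Sm w) (h : ℂ) :
    DD h (BB w) = BB (DD h w) := by
  rw [BB_eq h1 hw.c1 hw.supp, BB_eq h1 (hw.DD h).c1 (hw.DD h).supp]
  have h6 := (smooth_cauchyT h1 (hw.DD 1)).differentiable (by simp)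
  have h7 := (smooth_cauchyT h1 (hw.DD I)).differentiable (by simp)
  ext z
  have h8 : HasFDerivAt (fun z => (cauchyT (DD 1 w) z - I * cauchyT (DD I w) z) / 2)
      ((2 : ℂ)⁻¹ • (fderiv ℝ (cauchyT (DD 1 w)) z - I • fderiv ℝ (cauchyT (DD I w)) z)) z := by
    have := ((h6 z).hasFDerivAt.sub ((h7 z).hasFDerivAt.const_mul I)).const_mul ((2 : ℂ)⁻¹)
    refine this.congr_of_eventuallyEq (Eventually.of_forall fun y => ?_)
    simp only [Pi.sub_apply]
    ring
  have h9 : DD h (fun z => (cauchyT (DD 1 w) z - I * cauchyT (DD I w) z) / 2) z =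
      (DD h (cauchyT (DD 1 w)) z - I * DD h (cauchyT (DD I w)) z) / 2 := by
    simp only [DD] at h8 ⊢
    rw [h8.fderiv]
    simp only [_root_.smul_apply, _root_.sub_apply, smul_eq_mul]
    ring
  rw [h9, DD_cauchyT h1 (hw.DD 1), DD_cauchyT h1 (hw.DD I), DD_comm hw.smooth h 1,
    DD_comm hw.smooth h I]

/-- The operator `w ↦ a B w`. -/
noncomputable def MM (a w : ℂ → ℂ) (z : ℂ) : ℂ := a z * BB w z

theorem Sm.MM (h1 : Stmt_Cauchy) {a w : ℂ → ℂ} (ha : Sm a) (hw : Sm w) : Sm (MM a w) :=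
  ha.mul (contDiff_BB h1 hw)

theorem DD_MM (h1 : Stmt_Cauchy) {a w : ℂ → ℂ} (ha : Sm a) (hw : Sm w) (h : ℂ) :
    DD h (MM a w) = fun z => MM a (DD h w) z + MM (DD h a) w z := by
  have := DD_mul ha.diff ((contDiff_BB h1 hw).differentiable (by simp)) h
  rw [DD_BB h1 hw] at this
  exact this

end C3

end Pool.Agent.BlMat
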