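import Pool.Agent.BlMat.C3a

set_option autoImplicit false

/-! Block C3: norms. -/

namespace Pool.Agent.BlMat

open Complex Metric Set Filter Topology MeasureTheory
open scoped ComplexConjugate ENNReal NNReal

namespace C3

/-! ### Norms -/

/-- Sum of the `L²` norms of the partial derivatives of order exactly `m`. -/
noncomputable def ee : ℕ → (ℂ → ℂ) → ℝ≥0∞
  | 0, w => eLpNorm w 2 volume
  | m + 1, w => ee m (DD 1 w) + ee m (DD I w)

theorem Sm.memLp {w : ℂ → ℂ} (hw : Sm w) : MemLp w 2 volume :=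
  hw.cont.memLp_of_hasCompactSupport hw.supp

theorem ee_ne_top : ∀ (m : ℕ) {w : ℂ → ℂ}, Sm w → ee m w ≠ ∞
  | 0, _, hw => hw.memLp.eLpNorm_ne_top
  | m + 1, _, hw => ENNReal.add_ne_top.mpr ⟨ee_ne_top m (hw.DD 1), ee_ne_top m (hw.DD I)⟩

theorem ee_add : ∀ (m : ℕ) {u v : ℂ → ℂ}, Sm u → Sm v →
    ee m (fun z => u z + v z) ≤ ee m u + ee m v
  | 0, u, v, hu, hv => eLpNorm_add_le hu.memLp.1 hv.memLp.1 (by norm_num)
  | m + 1, u, v, hu, hv => by
    simp only [ee]
    rw [DD_add hu hv, DD_add hu hv]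
    calc _ ≤ (ee m (DD 1 u) + ee m (DD 1 v)) + (ee m (DD I u) + ee m (DD I v)) :=
          add_le_add (ee_add m (hu.DD 1) (hv.DD 1)) (ee_add m (hu.DD I) (hv.DD I))
      _ = _ := by ring

/-- Sum of the norms of the partial derivatives of order `< m`. -/
noncomputable def cc (m : ℕ) (w : ℂ → ℂ) : ℝ≥0∞ := ∑ i ∈ Finset.range m, ee i w

theorem cc_ne_top (m : ℕ) {w : ℂ → ℂ} (hw : Sm w) : cc m w ≠ ∞ :=
  ENNReal.sum_ne_top.mpr fun i _ => ee_ne_top i hw

theorem cc_DD_le (m : ℕ) (w : ℂ → ℂ) : cc m (DD 1 w) + cc m (DD I w) ≤ cc (m + 1) w := by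
  rw [cc, cc, cc, ← Finset.sum_add_distrib, Finset.sum_range_succ']
  exact le_self_add

theorem ee_le_cc (m : ℕ) (w : ℂ → ℂ) : ee m w ≤ cc (m + 1) w := by
  rw [cc, Finset.sum_range_succ]
  exact le_add_self

theorem cc_le_succ (m : ℕ) (w : ℂ → ℂ) : cc m w ≤ cc (m + 1) w := by
  rw [cc, cc, Finset.sum_range_succ]
  exact le_self_add

theorem eLpNorm_eq {w : ℂ → ℂ} (hw : Continuous w) :
    eLpNorm w 2 volume = (∫⁻ z, ENNReal.ofReal (‖w z‖ ^ 2)) ^ (1 / 2 : ℝ) := by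
  have _ := hw
  rw [eLpNorm_eq_lintegral_rpow_enorm_toReal (by norm_num) (by norm_num)]
  simp only [ENNReal.toReal_ofNat]
  congr 1
  refine lintegral_congr fun z => ?_
  rw [← ofReal_norm, ENNReal.ofReal_rpow_of_nonneg (norm_nonneg _) (by norm_num)]
  norm_num

theorem eLpNorm_BB (h1 : Stmt_Cauchy) (h3 : Stmt_Isometry) {w : ℂ → ℂ} (hw : Sm w) :
    eLpNorm (BB w) 2 volume = eLpNorm w 2 volume := by
  obtain ⟨h4, h5⟩ := h3 w hw.smooth hw.supp
  rw [eLpNorm_eq (contDiff_BB h1 hw).continuous, eLpNorm_eq hw.cont]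
  congr 1
  have h6 : Integrable (fun z => ‖w z‖ ^ 2) := by
    have h7 : Continuous (fun z => ‖w z‖ ^ 2) := hw.cont.norm.pow 2
    exact h7.integrable_of_hasCompactSupport
      (hw.supp.comp_left (g := fun z => ‖z‖ ^ 2) (by simp))
  rw [← ofReal_integral_eq_lintegral_ofReal h6 (Eventually.of_forall fun z => by positivity),
    ← h5]
  exact (ofReal_integral_eq_lintegral_ofReal h4
    (Eventually.of_forall fun z => by positivity)).symm

end C3

end Pool.Agent.BlMat
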