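import Pool.Agent.BlMat.C3b

set_option autoImplicit false

/-! Block C3: the estimates. -/

namespace Pool.Agent.BlMat

open Complex Metric Set Filter Topology MeasureTheory
open scoped ComplexConjugate ENNReal NNReal

namespace C3

theorem calc_aux (A C A1 A2 C1 C2 : ℝ≥0∞) (p q r s t u S : ℝ≥0∞) (h1 : r + s ≤ S) (h2 : t ≤ S)
    (h3 : u ≤ S) :
    ((A * p + C * r) + (A1 * t + C1 * u)) + ((A * q + C * s) + (A2 * t + C2 * u)) ≤
      A * (p + q) + (C + A1 + A2 + C1 + C2) * S := by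
  have e : ((A * p + C * r) + (A1 * t + C1 * u)) + ((A * q + C * s) + (A2 * t + C2 * u)) =
      A * (p + q) + (C * (r + s) + A1 * t + A2 * t + C1 * u + C2 * u) := by ring
  rw [e]
  have f : (C + A1 + A2 + C1 + C2) * S = C * S + A1 * S + A2 * S + C1 * S + C2 * S := by ring
  rw [f]
  gcongr

theorem ee_MM (h1 : Stmt_Cauchy) (h3 : Stmt_Isometry) : ∀ (m : ℕ) (a : ℂ → ℂ) (A : ℝ≥0), Sm a →
    (∀ z, ‖a z‖₊ ≤ A) → ∃ C : ℝ≥0, ∀ w, Sm w → ee m (MM a w) ≤ A * ee m w + C * cc m w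
  | 0, a, A, ha, hA => by
    refine ⟨0, fun w hw => ?_⟩
    simp only [ee, ENNReal.coe_zero, zero_mul, add_zero]
    rw [← eLpNorm_BB h1 h3 hw]
    have := eLpNorm_le_nnreal_smul_eLpNorm_of_ae_le_mul (μ := volume) (f := MM a w) (g := BB w)
      (c := A) (Eventually.of_forall fun z => ?_) 2
    · simpa [ENNReal.smul_def] using this
    · rw [MM, nnnorm_mul]
      exact mul_le_mul_left (hA z) _
  | m + 1, a, A, ha, hA => by
    have bd : ∀ h : ℂ, ∃ B : ℝ≥0, ∀ z, ‖DD h a z‖₊ ≤ B := by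
      intro h
      obtain ⟨B, hB⟩ := (ha.DD h).cont.bounded_above_of_compact_support (ha.DD h).supp
      exact ⟨B.toNNReal, fun z => by
        rw [← NNReal.coe_le_coe, coe_nnnorm]
        exact (hB z).trans (Real.le_coe_toNNReal B)⟩
    obtain ⟨A1, hA1⟩ := bd 1
    obtain ⟨A2, hA2⟩ := bd I
    obtain ⟨C, hC⟩ := ee_MM h1 h3 m a A ha hA
    obtain ⟨C1, hC1⟩ := ee_MM h1 h3 m _ A1 (ha.DD 1) hA1
    obtain ⟨C2, hC2⟩ := ee_MM h1 h3 m _ A2 (ha.DD I) hA2
    refine ⟨C + A1 + A2 + C1 + C2, fun w hw => ?_⟩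
    simp only [ee]
    rw [DD_MM h1 ha hw, DD_MM h1 ha hw]
    have e1 := ee_add m (ha.MM h1 (hw.DD 1)) ((ha.DD 1).MM h1 hw)
    have e2 := ee_add m (ha.MM h1 (hw.DD I)) ((ha.DD I).MM h1 hw)
    have f1 := hC _ (hw.DD 1)
    have f2 := hC _ (hw.DD I)
    have g1 := hC1 _ hw
    have g2 := hC2 _ hw
    have k1 := cc_DD_le m w
    have k2 := ee_le_cc m w
    have k3 := cc_le_succ m w
    have e12 := add_le_add (e1.trans (add_le_add f1 g1)) (e2.trans (add_le_add f2 g2))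
    refine e12.trans ?_
    simp only [ENNReal.coe_add]
    exact calc_aux _ _ _ _ _ _ _ _ _ _ _ _ _ k1 k2 k3

end C3

end Pool.Agent.BlMat
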