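import Pool.Agent.BlMat.C3c

set_option autoImplicit false

/-! Block C3: summation, sup bounds, linearity of the Cauchy transform. -/

namespace Pool.Agent.BlMat

open Complex Metric Set Filter Topology MeasureTheory
open scoped ComplexConjugate ENNReal NNReal

namespace C3

theorem tsum_aux {a b : ℕ → ℝ≥0∞} {k : ℝ≥0} (hk : k < 1) (ha : ∀ j, a j ≠ ∞)
    (hb : ∑' j, b j ≠ ∞) (h : ∀ j, a (j + 1) ≤ k * a j + b j) : ∑' j, a j ≠ ∞ := by
  have hk' : (k : ℝ≥0∞) < 1 := by exact_mod_cast hk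
  have key : ∀ n, ∑ j ∈ Finset.range n, a j ≤ (a 0 + ∑' j, b j) / (1 - k) := by
    intro n
    have hS : ∑ j ∈ Finset.range n, a j ≠ ∞ := ENNReal.sum_ne_top.mpr fun j _ => ha j
    have h1 : ∑ j ∈ Finset.range n, a j ≤
        (a 0 + ∑' j, b j) + (∑ j ∈ Finset.range n, a j) * k := by
      calc ∑ j ∈ Finset.range n, a j ≤ ∑ j ∈ Finset.range (n + 1), a j := by
            rw [Finset.sum_range_succ]; exact le_self_add
        _ = ∑ j ∈ Finset.range n, a (j + 1) + a 0 := Finset.sum_range_succ' _ _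
        _ ≤ ∑ j ∈ Finset.range n, (k * a j + b j) + a 0 := by
            gcongr with j _; exact h j
        _ = (k * ∑ j ∈ Finset.range n, a j + ∑ j ∈ Finset.range n, b j) + a 0 := by
            rw [Finset.sum_add_distrib, Finset.mul_sum]
        _ ≤ (k * ∑ j ∈ Finset.range n, a j + ∑' j, b j) + a 0 := by
            gcongr; exact ENNReal.sum_le_tsum _
        _ = _ := by ring
    rw [ENNReal.le_div_iff_mul_le (Or.inl (tsub_pos_of_lt hk').ne')
      (Or.inl (ENNReal.sub_ne_top ENNReal.one_ne_top)), ENNReal.mul_sub (fun _ _ => hS), mul_one]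
    exact tsub_le_iff_right.mpr h1
  refine ne_top_of_le_ne_top ?_ (ENNReal.tsum_le_of_sum_range_le key)
  exact ENNReal.div_ne_top (ENNReal.add_ne_top.mpr ⟨ha 0, hb⟩) (tsub_pos_of_lt hk').ne'

theorem enorm_le_horizontal {f : ℂ → ℂ} (hf : Sm f) (z : ℂ) :
    ‖f z‖ₑ ≤ ∫⁻ t : ℝ, ‖DD 1 f ((t : ℂ) + z.im * I)‖ₑ := by
  have hemb : IsClosedEmbedding (fun t : ℝ => (t : ℂ) + z.im * I) :=
    (Homeomorph.addRight ((z.im : ℂ) * I)).isClosedEmbedding.comp
      Complex.isometry_ofReal.isClosedEmbedding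
  have h1 : ContDiff ℝ 1 (f ∘ fun t : ℝ => (t : ℂ) + z.im * I) :=
    hf.c1.comp (ofRealCLM.contDiff.add contDiff_const)
  have h2 := HasCompactSupport.enorm_le_lintegral_Ici_deriv h1 (hf.supp.comp_isClosedEmbedding hemb)
    z.re
  have h3 : (f ∘ fun t : ℝ => (t : ℂ) + z.im * I) z.re = f z := by
    simp [re_add_im]
  rw [h3] at h2
  refine h2.trans ((setLIntegral_le_lintegral _ _).trans (lintegral_mono fun t => ?_))
  have h4 : HasDerivAt (fun t : ℝ => (t : ℂ) + z.im * I) 1 t :=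
    (ofRealCLM.hasDerivAt (x := t)).add_const _
  have h5 : HasDerivAt (f ∘ fun t : ℝ => (t : ℂ) + z.im * I)
      (fderiv ℝ f ((t : ℂ) + z.im * I) 1) t :=
    (hf.diff _).hasFDerivAt.comp_hasDerivAt t h4
  rw [h5.deriv]
  exact le_rfl

theorem enorm_le_vertical {f : ℂ → ℂ} (hf : Sm f) (z : ℂ) :
    ‖f z‖ₑ ≤ ∫⁻ t : ℝ, ‖DD I f ((z.re : ℂ) + t * I)‖ₑ := by
  have hemb : IsClosedEmbedding (fun t : ℝ => (z.re : ℂ) + t * I) :=
    (Homeomorph.addLeft (z.re : ℂ)).isClosedEmbedding.comp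
      ((Homeomorph.mulRight₀ I I_ne_zero).isClosedEmbedding.comp
      Complex.isometry_ofReal.isClosedEmbedding)
  have h1 : ContDiff ℝ 1 (f ∘ fun t : ℝ => (z.re : ℂ) + t * I) :=
    hf.c1.comp (contDiff_const.add (ofRealCLM.contDiff.mul contDiff_const))
  have h2 := HasCompactSupport.enorm_le_lintegral_Ici_deriv h1 (hf.supp.comp_isClosedEmbedding hemb)
    z.im
  have h3 : (f ∘ fun t : ℝ => (z.re : ℂ) + t * I) z.im = f z := by
    simp [re_add_im]
  rw [h3] at h2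
  refine h2.trans ((setLIntegral_le_lintegral _ _).trans (lintegral_mono fun t => ?_))
  have h4 : HasDerivAt (fun t : ℝ => (z.re : ℂ) + t * I) I t := by
    have := ((ofRealCLM.hasDerivAt (x := t)).mul_const I).const_add (z.re : ℂ)
    simpa using this
  have h5 : HasDerivAt (f ∘ fun t : ℝ => (z.re : ℂ) + t * I)
      (fderiv ℝ f ((z.re : ℂ) + t * I) I) t :=
    (hf.diff _).hasFDerivAt.comp_hasDerivAt t h4
  rw [h5.deriv]
  exact le_rfl

theorem enorm_le_lintegral {f : ℂ → ℂ} (hf : Sm f) (z : ℂ) :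
    ‖f z‖ₑ ≤ ∫⁻ w : ℂ, ‖DD I (DD 1 f) w‖ₑ := by
  refine (enorm_le_horizontal hf z).trans ?_
  have h1 : ∀ t : ℝ, ‖DD 1 f ((t : ℂ) + z.im * I)‖ₑ ≤
      ∫⁻ s : ℝ, ‖DD I (DD 1 f) ((t : ℂ) + s * I)‖ₑ := by
    intro t
    have := enorm_le_vertical (hf.DD 1) ((t : ℂ) + z.im * I)
    simpa using this
  refine (lintegral_mono h1).trans ?_
  have hc : Continuous (fun w => ‖DD I (DD 1 f) w‖ₑ) := ((hf.DD 1).DD I).cont.enorm
  have h2 := Complex.volume_preserving_equiv_real_prod.symm.lintegral_comp hc.measurable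
  rw [← h2, Measure.volume_eq_prod, lintegral_prod]
  · refine lintegral_mono fun t => lintegral_mono fun s => le_of_eq ?_
    simp only [Complex.measurableEquivRealProd_symm_apply]
    congr 2
    apply Complex.ext <;> simp
  · exact (hc.measurable.comp Complex.measurableEquivRealProd.symm.measurable).aemeasurable

theorem DD_eq_zero {w : ℂ → ℂ} {R : ℝ} (hw : ∀ z, R < ‖z‖ → w z = 0) (h z : ℂ) (hz : R < ‖z‖) :
    DD h w z = 0 := by
  have h1 : w =ᶠ[𝓝 z] fun _ => 0 := by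
    have : ∀ᶠ y in 𝓝 z, R < ‖y‖ := continuous_norm.continuousAt.eventually (lt_mem_nhds hz)
    filter_upwards [this] with y hy using hw y hy
  simp only [DD]
  rw [h1.fderiv_eq]
  simp

theorem sup_bound {w : ℂ → ℂ} (hw : Sm w) {R : ℝ} (h0 : ∀ z, R < ‖z‖ → w z = 0) (z : ℂ) :
    ‖w z‖ₑ ≤ (volume (closedBall (0 : ℂ) R)) ^ (1 / 2 : ℝ) * ee 2 w := by
  refine (enorm_le_lintegral hw z).trans ?_
  have h2 : ee 0 (DD I (DD 1 w)) ≤ ee 2 w := by
    show ee 0 (DD I (DD 1 w)) ≤ (ee 0 (DD 1 (DD 1 w)) + ee 0 (DD I (DD 1 w))) + _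
    exact le_add_self.trans le_self_add
  refine le_trans ?_ (mul_le_mul_right h2 _)
  have h3 : ∫⁻ w_1 : ℂ, ‖DD I (DD 1 w) w_1‖ₑ =
      ∫⁻ w_1 in closedBall (0 : ℂ) R, ‖DD I (DD 1 w) w_1‖ₑ := by
    rw [setLIntegral_eq_of_support_subset]
    intro y hy
    by_contra hy'
    rw [mem_closedBall_zero_iff, not_le] at hy'
    apply hy
    show ‖DD I (DD 1 w) y‖ₑ = 0
    rw [DD_eq_zero (fun z hz => DD_eq_zero h0 1 z hz) I y hy', enorm_zero]
  rw [h3]
  have hc : Continuous (DD I (DD 1 w)) := ((hw.DD 1).DD I).cont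
  have h4 := eLpNorm_le_eLpNorm_mul_rpow_measure_univ (μ := volume.restrict (closedBall (0 : ℂ) R))
    (p := 1) (q := 2) (by norm_num) (f := DD I (DD 1 w)) hc.aestronglyMeasurable
  rw [eLpNorm_one_eq_lintegral_enorm] at h4
  refine h4.trans ?_
  rw [mul_comm, Measure.restrict_apply_univ]
  have h5 : (1 / (1 : ℝ≥0∞).toReal - 1 / (2 : ℝ≥0∞).toReal) = (1 / 2 : ℝ) := by norm_num
  rw [h5]
  gcongr
  exact eLpNorm_mono_measure _ Measure.restrict_le_self

end C3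

end Pool.Agent.BlMat
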