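import Pool.Agent.BlMat.Basic

set_option autoImplicit false

/-! The smooth measurable Riemann mapping theorem, from the Cauchy transform and the
solution of the inhomogeneous Beltrami equation. -/

namespace Pool.Agent.BlMat

open Complex Metric Set Filter Topology MeasureTheory
open scoped ComplexConjugate ContDiff

namespace C4

/-- A `C¹` map with invertible derivatives which is `C¹`-asymptotic to the identity is a
homeomorphism. -/
theorem homeo_of_asymptotic {F : ℂ → ℂ} (hF : ContDiff ℝ 1 F)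
    (hdet : ∀ z, (fderiv ℝ F z).det ≠ 0)
    {B : ℝ} (hB : ∀ z, ‖F z - z‖ ≤ B)
    {C : ℝ} (hC : ∀ z : ℂ, ‖fderiv ℝ (fun w => F w - w) z‖ ≤ C / (1 + ‖z‖) ^ 2) :
    ∃ G : ℂ ≃ₜ ℂ, (G : ℂ → ℂ) = F := by
  have hcont : Continuous F := hF.continuous
  have hB0 : 0 ≤ B := (norm_nonneg _).trans (hB 0)
  have hstrict : ∀ z, HasStrictFDerivAt F
      (((fderiv ℝ F z).toContinuousLinearEquivOfDetNeZero (hdet z) : ℂ ≃L[ℝ] ℂ) : ℂ →L[ℝ] ℂ) z := by
    intro z
    rw [ContinuousLinearMap.coe_toContinuousLinearEquivOfDetNeZero]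
    exact hF.contDiffAt.hasStrictFDerivAt (by norm_num)
  have hopen : IsOpenMap F := isOpenMap_of_hasStrictFDerivAt_equiv hstrict
  -- local injectivity
  have hinj : ∀ z, ∃ U ∈ 𝓝 z, InjOn F U := by
    intro z
    refine ⟨((hstrict z).toOpenPartialHomeomorph F).source,
      ((hstrict z).toOpenPartialHomeomorph F).open_source.mem_nhds
        (hstrict z).mem_toOpenPartialHomeomorph_source, ?_⟩
    have := ((hstrict z).toOpenPartialHomeomorph F).injOn
    rwa [(hstrict z).toOpenPartialHomeomorph_coe] at this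
  -- properness
  have hproper : IsProperMap F := by
    rw [isProperMap_iff_tendsto_cocompact]
    refine ⟨hcont, ?_⟩
    rw [← Metric.cobounded_eq_cocompact, ← tendsto_norm_atTop_iff_cobounded]
    refine tendsto_atTop_mono (f := fun z : ℂ => ‖z‖ - B) ?_
      (tendsto_atTop_add_const_right _ _ tendsto_norm_cobounded_atTop)
    intro z
    have h1 := hB z
    have h2 : ‖z‖ ≤ ‖F z‖ + ‖F z - z‖ := by
      have := norm_sub_le (F z) (F z - z)
      simpa using this
    linarith
  -- surjectivity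
  have hsurj : Function.Surjective F := by
    have h1 : IsClopen (range F) := ⟨hproper.isClosedMap.isClosed_range, hopen.isOpen_range⟩
    have h2 : range F = univ := h1.eq_univ (range_nonempty F)
    exact range_eq_univ.mp h2
  -- two preimages are at bounded distance
  have hdist : ∀ z z', F z = F z' → ‖z - z'‖ ≤ 2 * B := by
    intro z z' h
    have h1 := norm_sub_le (F z' - z') (F z - z)
    have h2 : F z' - z' - (F z - z) = z - z' := by rw [h]; ring
    rw [h2] at h1
    have := hB z
    have := hB z'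
    linarith
  -- the set of points with a twin
  have hclopen : IsClopen {z : ℂ | ∃ z', z' ≠ z ∧ F z' = F z} := by
    constructor
    · rw [← isSeqClosed_iff_isClosed]
      intro zs z hzs hz
      choose zs' hne heq using hzs
      -- the twins are bounded
      have hbdd : Bornology.IsBounded (range zs') := by
        obtain ⟨r, hr⟩ := (Metric.isBounded_range_of_tendsto zs hz).subset_closedBall 0
        refine (Metric.isBounded_closedBall (x := (0 : ℂ)) (r := r + 2 * B)).subset ?_
        rintro _ ⟨n, rfl⟩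
        have h1 : zs n ∈ closedBall (0 : ℂ) r := hr ⟨n, rfl⟩
        rw [mem_closedBall_zero_iff] at h1 ⊢
        have h2 := hdist _ _ (heq n)
        have h3 : ‖zs' n‖ ≤ ‖zs' n - zs n‖ + ‖zs n‖ := by
          have := norm_add_le (zs' n - zs n) (zs n)
          simpa using this
        linarith
      obtain ⟨z', -, s, hs, hz'⟩ := tendsto_subseq_of_bounded hbdd (fun n => mem_range_self n)
      have hz2 : Tendsto (fun n => zs (s n)) atTop (𝓝 z) := hz.comp hs.tendsto_atTop
      have hFz : F z' = F z := by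
        have h1 : Tendsto (fun n => F (zs' (s n))) atTop (𝓝 (F z')) :=
          (hcont.tendsto z').comp hz'
        have h2 : Tendsto (fun n => F (zs (s n))) atTop (𝓝 (F z)) :=
          (hcont.tendsto z).comp hz2
        refine tendsto_nhds_unique h1 ?_
        simpa [heq] using h2
      refine ⟨z', ?_, hFz⟩
      rintro rfl
      obtain ⟨U, hU, hinjU⟩ := hinj z'
      have h1 : ∀ᶠ n in atTop, zs' (s n) ∈ U := hz' hU
      have h2 : ∀ᶠ n in atTop, zs (s n) ∈ U := hz2 hU
      obtain ⟨n, hn1, hn2⟩ := (h1.and h2).exists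
      exact hne (s n) (hinjU hn1 hn2 (heq (s n)))
    · rw [isOpen_iff_mem_nhds]
      rintro z ⟨z', hne, heq⟩
      obtain ⟨U', U, hU'o, hUo, hz'U, hzU, hdisj⟩ := t2_separation hne
      have h1 : F '' U' ∈ 𝓝 (F z) := by
        rw [← heq]
        exact (hopen U' hU'o).mem_nhds (mem_image_of_mem F hz'U)
      have h2 : F ⁻¹' (F '' U') ∈ 𝓝 z := hcont.continuousAt h1
      filter_upwards [h2, hUo.mem_nhds hzU] with x hx hxU
      obtain ⟨y, hy, hyx⟩ := hx
      refine ⟨y, ?_, hyx⟩
      rintro rfl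
      exact disjoint_left.mp hdisj hy hxU
  -- far away points have no twin
  have hfar : ∃ z : ℂ, z ∉ {z : ℂ | ∃ z', z' ≠ z ∧ F z' = F z} := by
    have hC0 : 0 ≤ C := by
      have := (norm_nonneg _).trans (hC 0)
      simpa using this
    refine ⟨((2 * B + 2 * C + 1 : ℝ) : ℂ), ?_⟩
    rintro ⟨z', hne, heq⟩
    set z : ℂ := ((2 * B + 2 * C + 1 : ℝ) : ℂ) with hz
    have hznorm : ‖z‖ = 2 * B + 2 * C + 1 := by
      rw [hz, Complex.norm_real, Real.norm_of_nonneg (by positivity)]
    have hd := hdist z z' heq.symm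
    -- on the closed ball of radius `2 * B` about `z` the derivative is at most `1/2`
    have hbound : ∀ x ∈ closedBall z (2 * B), ‖fderiv ℝ (fun w => F w - w) x‖ ≤ 1 / 2 := by
      intro x hx
      refine (hC x).trans ?_
      have h1 : ‖z‖ ≤ ‖x - z‖ + ‖x‖ := by
        have := norm_sub_le x (x - z)
        simp only [sub_sub_cancel] at this
        linarith
      rw [mem_closedBall, dist_eq_norm] at hx
      have h2 : 2 * C + 1 ≤ ‖x‖ := by linarith
      rw [div_le_iff₀ (by positivity)]
      nlinarith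
    have hmv := (convex_closedBall z (2 * B)).norm_image_sub_le_of_norm_fderiv_le (𝕜 := ℝ)
      (f := fun w => F w - w) (C := 1 / 2) (x := z) (y := z')
      (fun x _ => ((hF.differentiable (by norm_num)) x).sub differentiableAt_id) hbound
      (mem_closedBall_self (by positivity)) (by
        rw [mem_closedBall, dist_eq_norm, ← norm_neg]; simpa using hd)
    have h2 : F z' - z' - (F z - z) = -(z' - z) := by rw [heq]; ring
    simp only [h2, norm_neg] at hmv
    have h3 : 0 < ‖z' - z‖ := norm_pos_iff.mpr (sub_ne_zero.mpr hne)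
    linarith
  have hinjective : Function.Injective F := by
    have h1 : {z : ℂ | ∃ z', z' ≠ z ∧ F z' = F z} = ∅ := by
      rcases isClopen_iff.mp hclopen with h | h
      · exact h
      · obtain ⟨z, hz⟩ := hfar
        exact absurd (h ▸ mem_univ z) hz
    intro z' z h
    by_contra hne
    have : z ∈ {z : ℂ | ∃ z', z' ≠ z ∧ F z' = F z} := ⟨z', hne, h⟩
    rw [h1] at this
    exact this
  exact ⟨(Equiv.ofBijective F ⟨hinjective, hsurj⟩).toHomeomorphOfContinuousOpen hcont hopen, rfl⟩

/-- `C¹` functions of compact support: the Wirtinger derivatives of a smooth function are smooth. -/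
theorem contDiff_dz {F : ℂ → ℂ} (hF : ContDiff ℝ ∞ F) :
    ContDiff ℝ ∞ (dz F) ∧ ContDiff ℝ ∞ (dzb F) := by
  have h : ContDiff ℝ ∞ (fderiv ℝ F) := hF.fderiv_right (by simp)
  constructor
  · unfold dz
    exact ((h.clm_apply contDiff_const).sub (contDiff_const.mul (h.clm_apply contDiff_const))).div_const _
  · unfold dzb
    exact ((h.clm_apply contDiff_const).add (contDiff_const.mul (h.clm_apply contDiff_const))).div_const _

theorem hasCompactSupport_dz {F : ℂ → ℂ} (hF : HasCompactSupport F) :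
    HasCompactSupport (dz F) := by
  have h := hF.fderiv (𝕜 := ℝ)
  refine h.mono' ?_
  intro z hz
  refine subset_tsupport _ ?_
  intro h0
  apply hz
  simp [dz, h0]

/-- The 1-form `e^σ (dz + μ dz̄)`. -/
noncomputable def omega (σ μ : ℂ → ℂ) (z : ℂ) : ℂ →L[ℝ] ℂ :=
  cexp (σ z) • (ContinuousLinearMap.id ℝ ℂ + μ z • (conjCLE : ℂ →L[ℝ] ℂ))

theorem omega_apply (σ μ : ℂ → ℂ) (z h : ℂ) :
    omega σ μ z h = cexp (σ z) * (h + μ z * conj h) := by
  simp [omega]
  ring

theorem contDiff_omega {σ μ : ℂ → ℂ} (hσ : ContDiff ℝ 1 σ) (hμ : ContDiff ℝ 1 μ) :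
    ContDiff ℝ 1 (omega σ μ) := by
  unfold omega
  exact (hσ.cexp).smul (contDiff_const.add (hμ.smul contDiff_const))

theorem fderiv_omega {σ μ : ℂ → ℂ} (hσ : ContDiff ℝ 1 σ) (hμ : ContDiff ℝ 1 μ) (z x y : ℂ) :
    fderiv ℝ (omega σ μ) z x y = cexp (σ z) * (fderiv ℝ σ z x * (y + μ z * conj y)
      + fderiv ℝ μ z x * conj y) := by
  have h1 : HasFDerivAt (fun w => omega σ μ w y)
      ((ContinuousLinearMap.apply ℝ ℂ y).comp (fderiv ℝ (omega σ μ) z)) z :=
    (ContinuousLinearMap.apply ℝ ℂ y).hasFDerivAt.comp z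
      (((contDiff_omega hσ hμ).differentiable (by norm_num)) z).hasFDerivAt
  have hσ' := ((hσ.differentiable (by norm_num)) z).hasFDerivAt
  have hμ' := ((hμ.differentiable (by norm_num)) z).hasFDerivAt
  have h2 : HasFDerivAt (fun w => cexp (σ w) * (y + μ w * conj y))
      (cexp (σ z) • ((conj y) • fderiv ℝ μ z) + (y + μ z * conj y) • (cexp (σ z) • fderiv ℝ σ z))
      z := by
    have := hσ'.cexp.mul ((hμ'.mul_const (conj y)).const_add y)
    exact this
  have h3 : (fun w => omega σ μ w y) = fun w => cexp (σ w) * (y + μ w * conj y) := by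
    funext w
    exact omega_apply σ μ w y
  rw [h3] at h1
  have h4 := congrArg (fun L : ℂ →L[ℝ] ℂ => L x) (h1.unique h2)
  simp only [ContinuousLinearMap.comp_apply, ContinuousLinearMap.apply_apply,
    _root_.add_apply, _root_.smul_apply, smul_eq_mul] at h4
  rw [h4]
  ring

end C4

open C4 in
/-- The smooth measurable Riemann mapping theorem. -/
theorem mrt (h1 : Stmt_Cauchy) (h2 : Stmt_Neumann) : Stmt_MRT := by
  intro μ k hk hμ hμc hμk
  have hμ1 : ContDiff ℝ 1 μ := hμ.of_le (by exact_mod_cast le_top)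
  obtain ⟨v, hv, hvc, hveq⟩ := h2 μ (dz μ) k hk hμ hμc (contDiff_dz hμ).1
    (hasCompactSupport_dz hμc) hμk
  obtain ⟨hσ, -, hσb, ⟨C1, hC1⟩, ⟨C2, hC2⟩⟩ := h1 v hv hvc
  set σ := cauchyT v with hσdef
  -- a primitive of the 1-form
  obtain ⟨F, hF⟩ : ∃ F : ℂ → ℂ, ∀ z, HasFDerivAt F (omega σ μ z) z := by
    have hsymm : ∀ z ∈ (univ : Set ℂ), ∀ x y,
        fderiv ℝ (omega σ μ) z x y = fderiv ℝ (omega σ μ) z y x := by
      intro z _ x y
      rw [fderiv_omega hσ hμ1, fderiv_omega hσ hμ1, fderiv_apply σ, fderiv_apply σ,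
        fderiv_apply μ, fderiv_apply μ, hσb z, hveq z]
      ring
    have hdiff : DifferentiableOn ℝ (omega σ μ) univ :=
      ((contDiff_omega hσ hμ1).differentiable (by norm_num)).differentiableOn
    obtain ⟨F, hF⟩ := convex_univ.exists_forall_hasFDerivAt_of_fderiv_symmetric (𝕜 := ℝ)
      isOpen_univ hdiff hsymm
    exact ⟨F, fun z => hF z (mem_univ z)⟩
  have hdzF : ∀ z, dz F z = cexp (σ z) ∧ dzb F z = cexp (σ z) * μ z := by
    intro z
    refine dz_dzb_of_hasFDerivAt (hF z) ?_
    intro h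
    rw [omega_apply]
    ring
  have hFd : Differentiable ℝ F := fun z => (hF z).differentiableAt
  have hF1 : ContDiff ℝ 1 F := by
    rw [contDiff_one_iff_fderiv]
    refine ⟨hFd, ?_⟩
    have : fderiv ℝ F = omega σ μ := by
      funext z
      exact (hF z).fderiv
    rw [this]
    exact (contDiff_omega hσ hμ1).continuous
  -- the correction term
  set u : ℂ → ℂ := fun z => cexp (σ z) * μ z with hu
  have hu1 : ContDiff ℝ 1 u := hσ.cexp.mul hμ1
  have huc : HasCompactSupport u := hμc.mul_left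
  obtain ⟨hτ, -, hτb, ⟨C3, hC3⟩, ⟨C4, hC4⟩⟩ := h1 u hu1 huc
  set τ := cauchyT u with hτdef
  have hτd : Differentiable ℝ τ := hτ.differentiable (by norm_num)
  -- `E = F - τ` is entire
  set E : ℂ → ℂ := fun z => F z - τ z with hE
  have hEd : ∀ z, DifferentiableAt ℂ E z ∧ deriv E z = cexp (σ z) - dz τ z := by
    intro z
    have h3 := dz_sub (hFd z) (hτd z)
    have h4 := differentiableAt_of_dzb (F := E) ((hFd z).sub (hτd z)) (by
      rw [hE, h3.2, (hdzF z).2, hτb z]; simp [hu])
    refine ⟨h4.1, ?_⟩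
    rw [h4.2, hE, h3.1, (hdzF z).1]
  have hE1 : Differentiable ℂ E := fun z => (hEd z).1
  -- behaviour at infinity
  have hinv : ∀ C : ℝ, Tendsto (fun z : ℂ => C / (1 + ‖z‖)) (cocompact ℂ) (𝓝 0) := by
    intro C
    refine tendsto_const_nhds.div_atTop ?_
    exact tendsto_atTop_add_const_left _ _ (tendsto_norm_cocompact_atTop)
  have hσ0 : Tendsto σ (cocompact ℂ) (𝓝 0) := squeeze_zero_norm hC1 (hinv C1)
  have hτ0 : Tendsto τ (cocompact ℂ) (𝓝 0) := squeeze_zero_norm hC3 (hinv C3)
  have hfτ : ∀ z : ℂ, ‖fderiv ℝ τ z‖ ≤ C4 / (1 + ‖z‖) ^ 2 := by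
    intro z
    have hC40 : 0 ≤ C4 := by
      have := (norm_nonneg _).trans (hC4 0 1)
      simpa using this
    refine ContinuousLinearMap.opNorm_le_bound _ (by positivity) ?_
    intro h
    refine (hC4 z h).trans (le_of_eq ?_)
    ring
  have hC40 : 0 ≤ C4 := by
    have := (norm_nonneg _).trans (hC4 0 1)
    simpa using this
  have hdzτ0 : Tendsto (dz τ) (cocompact ℂ) (𝓝 0) := by
    refine squeeze_zero_norm (fun z => ?_) (hinv C4)
    refine ((norm_dz_le τ z).1.trans (hfτ z)).trans ?_
    have h5 : 1 ≤ 1 + ‖z‖ := by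
      have := norm_nonneg z
      linarith
    apply div_le_div_of_nonneg_left hC40 (by positivity)
    nlinarith
  have hdE : ∀ z, deriv E z = 1 := by
    have hdiff : Differentiable ℂ (deriv E) := by
      have : ContDiff ℂ ∞ E := hE1.contDiff
      exact (this.iterate_deriv 1).differentiable (by simp)
    intro z
    refine hdiff.apply_eq_of_tendsto_cocompact z ?_
    have h6 : Tendsto (fun z => cexp (σ z) - dz τ z) (cocompact ℂ) (𝓝 (cexp 0 - 0)) :=
      ((continuous_exp.tendsto 0).comp hσ0).sub hdzτ0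
    rw [exp_zero, sub_zero] at h6
    refine h6.congr ?_
    intro z
    rw [(hEd z).2]
  obtain ⟨c, hc⟩ : ∃ c : ℂ, ∀ z, E z = z + c := by
    refine ⟨E 0, fun z => ?_⟩
    have hd : Differentiable ℂ (fun w => E w - w) := fun x => (hE1 x).sub differentiableAt_id
    have h7 : ∀ x : ℂ, deriv (fun w => E w - w) x = 0 := by
      intro x
      have := ((hE1 x).hasDerivAt.sub (hasDerivAt_id x)).deriv
      rw [hdE x, sub_self] at this
      exact this
    have h8 : E z - z = E 0 - 0 := is_const_of_deriv_eq_zero hd h7 z 0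
    linear_combination h8
  -- the normalised solution
  have hGF : (fun z => F z - c) = fun z => z + τ z := by
    funext z
    have := hc z
    rw [hE] at this
    linear_combination this
  set G : ℂ → ℂ := fun z => F z - c with hG
  have hG1 : ContDiff ℝ 1 G := hF1.sub contDiff_const
  have hdzG : ∀ z, dz G z = cexp (σ z) ∧ dzb G z = cexp (σ z) * μ z := by
    intro z
    have h9 := dz_sub (hFd z) (differentiableAt_const (x := z) c)
    rw [(dz_const c z).1, (dz_const c z).2, (hdzF z).1, (hdzF z).2, sub_zero, sub_zero] at h9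
    exact h9
  have hGτ : ∀ z, G z - z = τ z := by
    intro z
    have : G z = z + τ z := congrFun hGF z
    rw [this]
    ring
  have hGτ' : (fun w => G w - w) = τ := funext hGτ
  obtain ⟨H, hH⟩ := homeo_of_asymptotic (B := C3) (C := C4) hG1 (by
      intro z
      rw [det_fderiv, (hdzG z).1, (hdzG z).2, norm_mul]
      have h10 : 0 < ‖cexp (σ z)‖ := norm_pos_iff.mpr (exp_ne_zero _)
      have h11 : ‖μ z‖ < 1 := (hμk z).trans_lt hk
      have h12 := norm_nonneg (μ z)
      have h13 : ‖cexp (σ z)‖ ^ 2 - (‖cexp (σ z)‖ * ‖μ z‖) ^ 2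
        = ‖cexp (σ z)‖ ^ 2 * (1 - ‖μ z‖ ^ 2) := by ring
      rw [h13]
      have : 0 < 1 - ‖μ z‖ ^ 2 := by nlinarith
      positivity)
    (by
      intro z
      rw [hGτ z]
      refine (hC3 z).trans ?_
      have hC30 : 0 ≤ C3 := by
        have := (norm_nonneg _).trans (hC3 0)
        simpa using this
      apply div_le_self hC30
      have := norm_nonneg z
      linarith)
    (by
      intro z
      rw [hGτ']
      exact hfτ z)
  refine ⟨H, ?_, ?_, ?_, ?_⟩
  · rw [hH]; exact hG1
  · intro z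
    rw [hH, (hdzG z).1]
    exact exp_ne_zero _
  · intro z
    rw [hH, (hdzG z).1, (hdzG z).2]
    ring
  · rw [hH, hGτ']
    exact hτ0

end Pool.Agent.BlMat
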