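import Pool.Agent.BlMat.TopDefs

set_option autoImplicit false

/-! Block T1: topology of the sphere and of its space of self-maps; an abstract quotient lemma. -/

namespace Pool.Agent.BlMat

open Set Filter Topology

namespace T1

theorem metrizable_sphere : TopologicalSpace.MetrizableSpace (OnePoint ℂ) :=
  (onePointEquivSphereOfFinrankEq (ι := Fin 3) (V := ℂ)
    (by rw [Complex.finrank_real_complex]; simp)).isEmbedding.metrizableSpace

/-- Fill a sequence given along a subsequence with its limit. -/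
theorem fill {X : Type*} [TopologicalSpace X] {s : ℕ → ℕ} (hs : StrictMono s) {x : X}
    {xs : ℕ → X} (h : Tendsto xs atTop (𝓝 x)) :
    ∃ ys : ℕ → X, Tendsto ys atTop (𝓝 x) ∧ ∀ k, ys (s k) = xs k := by
  refine ⟨Function.extend s xs (fun _ => x), ?_, fun k => hs.injective.extend_apply _ _ _⟩
  intro U hU
  obtain ⟨K, hK⟩ := mem_atTop_sets.1 (h hU)
  refine mem_atTop_sets.2 ⟨s K, fun n hn => ?_⟩
  by_cases hex : ∃ k, s k = n
  · obtain ⟨k, rfl⟩ := hex
    rw [mem_preimage, hs.injective.extend_apply]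
    exact hK k (hs.le_iff_le.1 hn)
  · rw [mem_preimage, Function.extend_apply' _ _ _ hex]
    exact mem_of_mem_nhds hU

theorem sub_conv {X Y : Type*} [TopologicalSpace X] [TopologicalSpace Y] {fs : ℕ → X → Y}
    {f : X → Y}
    (h : ∀ (x : X) (xs : ℕ → X), Tendsto xs atTop (𝓝 x) →
      Tendsto (fun k => fs k (xs k)) atTop (𝓝 (f x)))
    {s : ℕ → ℕ} (hs : StrictMono s) (x : X) (xs : ℕ → X) (hx : Tendsto xs atTop (𝓝 x)) :
    Tendsto (fun k => fs (s k) (xs k)) atTop (𝓝 (f x)) := by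
  obtain ⟨ys, hy, hys⟩ := fill hs hx
  have := (h x ys hy).comp hs.tendsto_atTop
  refine this.congr fun k => ?_
  simp only [Function.comp_apply, hys]

theorem cont_of_conv {X Y : Type*} [TopologicalSpace X] [FirstCountableTopology X]
    [MetricSpace Y] {fs : ℕ → X → Y} {f : X → Y}
    (h : ∀ (x : X) (xs : ℕ → X), Tendsto xs atTop (𝓝 x) →
      Tendsto (fun k => fs k (xs k)) atTop (𝓝 (f x))) : Continuous f := by
  rw [continuous_iff_continuousAt]
  intro x
  rw [ContinuousAt, tendsto_nhds_iff_seq_tendsto]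
  intro xs hxs
  have h1 : ∀ k : ℕ, ∀ᶠ n in atTop, dist (fs n (xs k)) (f (xs k)) < 1 / ((k : ℝ) + 1) := by
    intro k
    have := h (xs k) (fun _ => xs k) tendsto_const_nhds
    exact (Metric.tendsto_nhds.1 this) _ (by positivity)
  obtain ⟨s, hs, hs'⟩ := extraction_forall_of_eventually' (fun k => eventually_atTop.1 (h1 k))
  have h2 := sub_conv h hs x xs hxs
  have h3 : Tendsto (fun k => dist (fs (s k) (xs k)) (f (xs k))) atTop (𝓝 0) := by
    refine squeeze_zero (fun _ => dist_nonneg) (fun k => (hs' k).le) ?_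
    exact tendsto_one_div_add_atTop_nhds_zero_nat
  exact (tendsto_iff_of_dist h3).1 h2

theorem tendsto_iff {X : Type*} [TopologicalSpace X] [CompactSpace X] [T2Space X]
    [FirstCountableTopology X] [TopologicalSpace.MetrizableSpace X]
    (fs : ℕ → C(X, X)) (f : C(X, X)) :
    Tendsto fs atTop (𝓝 f) ↔ ∀ (x : X) (xs : ℕ → X),
      Tendsto xs atTop (𝓝 x) → Tendsto (fun k => fs k (xs k)) atTop (𝓝 (f x)) := by
  constructor
  · intro h x xs hx
    have h1 : Continuous fun p : C(X, X) × X => p.1 p.2 := ContinuousEval.continuous_eval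
    exact (h1.tendsto (f, x)).comp (h.prodMk_nhds hx)
  · intro h
    rw [ContinuousMap.tendsto_nhds_compactOpen]
    intro K hK U hU hfU
    by_contra hcon
    rw [not_eventually] at hcon
    obtain ⟨s, hs, hs'⟩ := extraction_of_frequently_atTop hcon
    have h2 : ∀ k, ∃ x ∈ K, fs (s k) x ∉ U := by
      intro k
      by_contra hh
      push Not at hh
      exact hs' k fun x hx => hh x hx
    choose xs hxK hxU using h2
    obtain ⟨x, hx, t, ht, hxt⟩ := hK.tendsto_subseq hxK
    have h3 := sub_conv (fs := fun k => ⇑(fs k)) h (hs.comp ht) x (xs ∘ t) hxt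
    have h4 : ∀ᶠ k in atTop, fs ((s ∘ t) k) ((xs ∘ t) k) ∈ U :=
      h3.eventually (hU.mem_nhds (hfU hx))
    obtain ⟨k, hk⟩ := h4.exists
    exact hxU (t k) hk

theorem exists_map {X Y : Type} [TopologicalSpace X] [TopologicalSpace Y]
    [CompactSpace Y] (rX : Setoid X) (rY : Setoid Y) (S : Set (X × Y)) (hS : IsClosed S)
    (h1 : ∀ x, ∃ y, (x, y) ∈ S)
    (h3 : ∀ x y x' y', (x, y) ∈ S → (x', y') ∈ S → rX x x' → rY y y') :
    ∃ f : Quotient rX → Quotient rY, Continuous f ∧
      ∀ x y, (x, y) ∈ S → f (Quotient.mk rX x) = Quotient.mk rY y := by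
  choose g hg using h1
  let f : Quotient rX → Quotient rY := Quotient.lift (fun x => Quotient.mk rY (g x))
    fun x x' hx => Quotient.sound (h3 x (g x) x' (g x') (hg x) (hg x') hx)
  have hf : ∀ x y, (x, y) ∈ S → f (Quotient.mk rX x) = Quotient.mk rY y := by
    intro x y hxy
    exact Quotient.sound (h3 x (g x) x y (hg x) hxy (rX.refl x))
  refine ⟨f, ?_, hf⟩
  refine continuous_coinduced_dom.2 ?_
  rw [continuous_iff_isClosed]
  intro C hC
  have e : (f ∘ Quotient.mk rX) ⁻¹' C = Prod.fst '' (S ∩ Prod.snd ⁻¹' (Quotient.mk rY ⁻¹' C)) := by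
    ext x
    constructor
    · intro hx
      refine ⟨(x, g x), ⟨hg x, ?_⟩, rfl⟩
      have : f (Quotient.mk rX x) ∈ C := hx
      rwa [hf x (g x) (hg x)] at this
    · rintro ⟨⟨x', y⟩, ⟨hxy, hy⟩, rfl⟩
      show f (Quotient.mk rX x') ∈ C
      rw [hf x' y hxy]
      exact hy
  change IsClosed ((f ∘ Quotient.mk rX) ⁻¹' C)
  rw [e]
  refine isClosedMap_fst_of_compactSpace _ (hS.inter ?_)
  exact (hC.preimage continuous_quot_mk).preimage continuous_snd

end T1

theorem sphereTop : Stmt_SphereTop := by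
  have := T1.metrizable_sphere
  exact ⟨T1.metrizable_sphere, inferInstance, fun fs f => T1.tendsto_iff fs f⟩

theorem contConv : Stmt_ContConv := by
  have := T1.metrizable_sphere
  intro fs f h
  refine ⟨?_, fun s hs x xs hx => T1.sub_conv h hs x xs hx⟩
  let _ := TopologicalSpace.metrizableSpaceMetric (OnePoint ℂ)
  exact T1.cont_of_conv h

theorem quotRel : Stmt_QuotRel := by
  intro X Y _ _ _ _ rX rY S hS h1 h2 h3
  obtain ⟨f, hf, hf'⟩ := T1.exists_map rX rY S hS h1 fun x y x' y' h h' => (h3 x y x' y' h h').1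
  obtain ⟨g, hg, hg'⟩ := T1.exists_map rY rX (Prod.swap ⁻¹' S) (hS.preimage continuous_swap)
    (fun y => h2 y) fun y x y' x' h h' => (h3 x y x' y' h h').2
  refine ⟨⟨⟨f, g, ?_, ?_⟩, hf, hg⟩, hf'⟩
  · intro q
    obtain ⟨x, rfl⟩ := Quotient.exists_rep q
    obtain ⟨y, hy⟩ := h1 x
    show g (f (Quotient.mk rX x)) = Quotient.mk rX x
    rw [hf' x y hy]
    exact hg' y x hy
  · intro q
    obtain ⟨y, rfl⟩ := Quotient.exists_rep q
    obtain ⟨x, hx⟩ := h2 y
    show f (g (Quotient.mk rY y)) = Quotient.mk rY y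
    rw [hg' y x hx]
    exact hf' x y hx

end Pool.Agent.BlMat
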