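import Pool.Agent.BlMat.GlueDefs
import Pool.Agent.BlMat.T1

set_option autoImplicit false

/-! Block CC: compactness of the class of rational maps with a marked basin of `∞` modelled on a
Blaschke product; closures of slices. -/

namespace Pool.Agent.BlMat

open Complex Metric Set Filter Topology MeasureTheory Polynomial
open scoped ComplexConjugate ContDiff

namespace CC

variable {m : ℕ} {a : Fin m → ℂ}

theorem den_eval (φ : ℂ → ℂ) (w : ℂ) : (den a φ).eval w =
    open Classical in ∏ j ∈ Finset.univ.filter (fun j => a j ≠ 0), (w - φ (a j)) := by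
  classical
  unfold den
  rw [eval_prod]
  simp

theorem den_eval_ne (φ : ℂ → ℂ) (w : ℂ) (h : ∀ j, a j ≠ 0 → w ≠ φ (a j)) :
    (den a φ).eval w ≠ 0 := by
  classical
  rw [den_eval, Finset.prod_ne_zero_iff]
  intro j hj
  rw [Finset.mem_filter] at hj
  exact sub_ne_zero.2 (h j hj.2)

theorem den_natDegree (φ : ℂ → ℂ) : (den a φ).natDegree ≤ m := by
  classical
  unfold den
  refine (natDegree_prod_le _ _).trans ?_
  simp only [natDegree_X_sub_C, Finset.sum_const, smul_eq_mul, mul_one]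
  exact (Finset.card_filter_le _ _).trans (by simp)

theorem hat_ne {φ : ℂ → ℂ} {z : ℂ} (hz : z ≠ 0) : hat φ z = (φ z : OnePoint ℂ) := by
  unfold hat
  rw [if_neg hz]

theorem hat_zero {φ : ℂ → ℂ} : hat φ 0 = OnePoint.infty := by
  unfold hat
  rw [if_pos rfl]

/-- a point outside the basin is finite -/
theorem coe_of_not_mem {φ : ℂ → ℂ} {x : OnePoint ℂ} (hx : x ∉ hat φ '' ball 0 1) :
    ∃ w : ℂ, x = w := by
  induction x using OnePoint.rec with
  | infty => exact absurd ⟨0, by simp, hat_zero⟩ hx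
  | coe w => exact ⟨w, rfl⟩

theorem den_ne_of_not_mem (ha : a ∈ Par m) {φ : ℂ → ℂ} {w : ℂ}
    (hw : (w : OnePoint ℂ) ∉ hat φ '' ball 0 1) : (den a φ).eval w ≠ 0 := by
  apply den_eval_ne
  rintro j hj rfl
  exact hw ⟨a j, by simpa using ha j, hat_ne hj⟩

/-- a rational map which is finite at `x` has a nonvanishing denominator at `x` -/
theorem denom_ne {n : ℕ} (hn : 1 ≤ n) {f : OnePoint ℂ → OnePoint ℂ} (hf : Continuous f)
    {p q : ℂ[X]} (hpq : IsCoprime p q) (hdeg : max p.natDegree q.natDegree = n)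
    (hfe : ∀ z : ℂ, q.eval z ≠ 0 → f (z : OnePoint ℂ) = ((p.eval z / q.eval z : ℂ) : OnePoint ℂ))
    {x : ℂ} (hx : f (x : OnePoint ℂ) ≠ OnePoint.infty) : q.eval x ≠ 0 := by
  intro hqx
  apply hx
  have hq0 : q ≠ 0 := by
    rintro rfl
    rw [isCoprime_zero_right] at hpq
    have h1 := natDegree_eq_zero_of_isUnit hpq
    rw [h1, natDegree_zero] at hdeg
    simp at hdeg
    omega
  have hpx : p.eval x ≠ 0 := by
    intro hpx
    obtain ⟨u, v, huv⟩ := hpq
    have := congrArg (Polynomial.eval x) huv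
    rw [eval_add, eval_mul, eval_mul, hpx, hqx, mul_zero, mul_zero, add_zero, eval_one] at this
    exact zero_ne_one this
  have hne : ∀ᶠ w in 𝓝[≠] x, q.eval w ≠ 0 := by
    have h1 : (q.rootSet ℂ).Finite := q.rootSet_finite ℂ
    have h2 : ∀ᶠ w in 𝓝[≠] x, w ∉ q.rootSet ℂ \ {x} := by
      have h3 : (q.rootSet ℂ \ {x})ᶜ ∈ 𝓝 x :=
        (h1.subset sdiff_subset).isClosed.isOpen_compl.mem_nhds (by simp)
      exact nhdsWithin_le_nhds h3
    filter_upwards [h2, self_mem_nhdsWithin] with w hw hwx hqw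
    apply hw
    refine ⟨?_, hwx⟩
    rw [mem_rootSet]
    exact ⟨hq0, by simpa using hqw⟩
  have hinf : Tendsto (fun w => p.eval w / q.eval w) (𝓝[≠] x) (Bornology.cobounded ℂ) := by
    rw [← tendsto_norm_atTop_iff_cobounded]
    have h1 : Tendsto (fun w => ‖p.eval w‖) (𝓝[≠] x) (𝓝 ‖p.eval x‖) :=
      ((p.continuous.tendsto x).norm).mono_left nhdsWithin_le_nhds
    have h2 : Tendsto (fun w => (q.eval w)⁻¹) (𝓝[≠] x) (Bornology.cobounded ℂ) := by
      refine Filter.tendsto_inv₀_nhdsNE_zero.comp ?_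
      refine tendsto_nhdsWithin_iff.2 ⟨?_, hne⟩
      have := (q.continuous.tendsto x).mono_left (nhdsWithin_le_nhds (s := {x}ᶜ))
      rwa [hqx] at this
    have h3 := tendsto_norm_atTop_iff_cobounded.2 h2
    have h4 := h1.pos_mul_atTop (norm_pos_iff.2 hpx) h3
    refine h4.congr fun w => ?_
    rw [norm_div, norm_inv, div_eq_mul_inv]
  have h5 : Tendsto (fun w : ℂ => f (w : OnePoint ℂ)) (𝓝[≠] x) (𝓝 OnePoint.infty) := by
    have h6 : Tendsto (OnePoint.some : ℂ → OnePoint ℂ) (Bornology.cobounded ℂ)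
        (𝓝 OnePoint.infty) := by
      rw [Metric.cobounded_eq_cocompact, ← Filter.coclosedCompact_eq_cocompact]
      exact OnePoint.tendsto_coe_infty
    refine (h6.comp hinf).congr' ?_
    filter_upwards [hne] with w hw
    exact (hfe w hw).symm
  have h7 : Tendsto (fun w : ℂ => f (w : OnePoint ℂ)) (𝓝[≠] x) (𝓝 (f (x : OnePoint ℂ))) :=
    ((hf.comp OnePoint.continuous_coe).tendsto x).mono_left nhdsWithin_le_nhds
  exact tendsto_nhds_unique h7 h5

/-- the numerator of an element of the class -/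
theorem exists_num (hRat : Stmt_Rat) (hm : 1 ≤ m) (ha : a ∈ Par m) (f : RatMap (m + 1))
    (φ : ℂ → ℂ) (hf : Cls a f.fn φ) :
    ∃ p : ℂ[X], p.natDegree = m + 1 ∧
      ∀ z : ℂ, (den a φ).eval z ≠ 0 →
        f.fn (z : OnePoint ℂ) = ((p.eval z / (den a φ).eval z : ℂ) : OnePoint ℂ) := by
  obtain ⟨hcont, P, Q, hPQ, hdeg, hfe⟩ := f.2
  have hcont' : Continuous f.fn := hcont
  obtain ⟨p, hp, -, hpe⟩ := hRat m hm a ha f.fn φ hcont' hf (by
    intro x hx
    have h1 : f.fn (x : OnePoint ℂ) ∉ hat φ '' ball 0 1 := fun h => hx (hf.back _ h)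
    have h2 : f.fn (x : OnePoint ℂ) ≠ OnePoint.infty := by
      intro h
      apply h1
      rw [h]
      exact ⟨0, by simp, hat_zero⟩
    have hQx : Q.eval x ≠ 0 := denom_ne (by omega) hcont' hPQ hdeg hfe h2
    have hQn : ∀ᶠ w in 𝓝 x, Q.eval w ≠ 0 := (Q.continuous.tendsto x).eventually_ne hQx
    refine ⟨fun w => P.eval w / Q.eval w, ?_, ?_⟩
    · exact P.differentiable.differentiableAt.div Q.differentiable.differentiableAt hQx
    · filter_upwards [hQn] with w hw
      exact ⟨P.differentiable.differentiableAt.div Q.differentiable.differentiableAt hw,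
        hfe w hw⟩)
  exact ⟨p, hp, hpe⟩

theorem exists_lift {xs : ℕ → OnePoint ℂ} {w : ℂ} (h : Tendsto xs atTop (𝓝 (w : OnePoint ℂ))) :
    ∃ ws : ℕ → ℂ, Tendsto ws atTop (𝓝 w) ∧ ∀ᶠ k in atTop, xs k = ws k := by
  classical
  have h1 : ∀ᶠ k in atTop, xs k ∈ range (OnePoint.some : ℂ → OnePoint ℂ) :=
    h (OnePoint.isOpenEmbedding_coe.isOpen_range.mem_nhds ⟨w, rfl⟩)
  let ws : ℕ → ℂ := fun k => if hk : ∃ v : ℂ, (v : OnePoint ℂ) = xs k then hk.choose else w
  have h2 : ∀ᶠ k in atTop, xs k = ws k := by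
    filter_upwards [h1] with k hk
    have hk' : ∃ v : ℂ, (v : OnePoint ℂ) = xs k := hk
    simp only [ws, dif_pos hk']
    exact hk'.choose_spec.symm
  refine ⟨ws, ?_, h2⟩
  rw [OnePoint.isOpenEmbedding_coe.tendsto_nhds_iff]
  exact h.congr' h2

theorem coe_tendsto {ws : ℕ → ℂ} {w : ℂ} : Tendsto ws atTop (𝓝 w) ↔
    Tendsto (fun k => (ws k : OnePoint ℂ)) atTop (𝓝 (w : OnePoint ℂ)) :=
  OnePoint.isOpenEmbedding_coe.tendsto_nhds_iff

/-- points converging to a point of the limit basin -/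
theorem exists_param (hUV : Stmt_UnifConv) {φs : ℕ → ℂ → ℂ} {φ : ℂ → ℂ}
    (hφs : ∀ k, IsUnif (φs k)) (hφ : IsUnif φ) (hconv : UConv φs φ) {z : ℂ} (hz : ‖z‖ < 1)
    {xs : ℕ → OnePoint ℂ} (hx : Tendsto xs atTop (𝓝 (hat φ z))) :
    ∃ zs : ℕ → ℂ, (∀ k, ‖zs k‖ < 1) ∧ Tendsto zs atTop (𝓝 z) ∧
      ∀ᶠ k in atTop, xs k = hat (φs k) (zs k) := by
  classical
  obtain ⟨-, h2, h3⟩ := hUV φs φ hφs hφ hconv
  have h4 := h3 (hat φ z) xs ⟨z, by simpa using hz, rfl⟩ hx
  let zs : ℕ → ℂ := fun k => if hk : ∃ v ∈ ball (0 : ℂ) 1, hat (φs k) v = xs k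
    then hk.choose else 0
  have h5 : ∀ k, ‖zs k‖ < 1 := by
    intro k
    by_cases hk : ∃ v ∈ ball (0 : ℂ) 1, hat (φs k) v = xs k
    · simp only [zs, dif_pos hk]
      simpa using hk.choose_spec.1
    · simp only [zs, dif_neg hk]
      simp
  have h6 : ∀ᶠ k in atTop, xs k = hat (φs k) (zs k) := by
    filter_upwards [h4] with k hk
    have hk' : ∃ v ∈ ball (0 : ℂ) 1, hat (φs k) v = xs k := hk
    simp only [zs, dif_pos hk']
    exact hk'.choose_spec.2.symm
  exact ⟨zs, h5, h2 z zs hz h5 (hx.congr' h6), h6⟩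

theorem bl_continuousAt (hB : BlFacts a) {z : ℂ} (hz : ‖z‖ < 1) : ContinuousAt (bl a) z := by
  obtain ⟨R, hR, hd⟩ := hB.diff
  refine (hd.differentiableAt (isOpen_ball.mem_nhds ?_)).continuousAt
  rw [mem_ball_zero_iff]
  linarith

/-- convergence inside the limit basin -/
theorem conv_inside (hUV : Stmt_UnifConv) (hB : BlFacts a) {gs : ℕ → OnePoint ℂ → OnePoint ℂ}
    {φs : ℕ → ℂ → ℂ} {φ : ℂ → ℂ} (hg : ∀ k, Cls a (gs k) (φs k)) (hφ : IsUnif φ)
    (hconv : UConv φs φ) {z : ℂ} (hz : ‖z‖ < 1)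
    {xs : ℕ → OnePoint ℂ} (hx : Tendsto xs atTop (𝓝 (hat φ z))) :
    Tendsto (fun k => gs k (xs k)) atTop (𝓝 (hat φ (bl a z))) := by
  obtain ⟨zs, h1, h2, h3⟩ := exists_param hUV (fun k => (hg k).unif) hφ hconv hz hx
  obtain ⟨h4, -, -⟩ := hUV φs φ (fun k => (hg k).unif) hφ hconv
  have h5 := h4 (bl a z) (fun k => bl a (zs k)) (hB.ball z hz)
    ((bl_continuousAt hB hz).tendsto.comp h2)
  refine h5.congr' ?_
  filter_upwards [h3] with k hk
  rw [hk, (hg k).semi (zs k) (by simpa using h1 k)]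

theorem bl_ne_zero (ha : a ∈ Par m) {z : ℂ} (hz : ‖z‖ < 1) (h0 : z ≠ 0)
    (hz' : ∀ j, z ≠ a j) : bl a z ≠ 0 := by
  unfold bl
  refine mul_ne_zero h0 (Finset.prod_ne_zero_iff.2 fun j _ => ?_)
  have h1 : ∀ c : ℂ, ‖c‖ ≤ 1 → 1 - conj (a j) * c ≠ 0 := by
    intro c hc h
    have h2 : conj (a j) * c = 1 := (sub_eq_zero.1 h).symm
    have h3 : ‖conj (a j) * c‖ = 1 := by rw [h2, norm_one]
    rw [norm_mul, RCLike.norm_conj] at h3
    have h4 := ha j
    nlinarith [norm_nonneg (a j), norm_nonneg c]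
  have h2 : (1 : ℂ) - a j ≠ 0 := by
    intro h
    have h3 : a j = 1 := (sub_eq_zero.1 h).symm
    have := ha j
    rw [h3, norm_one] at this
    exact lt_irrefl _ this
  have h3 := h1 z hz.le
  have h4 := h1 1 (by simp)
  rw [mul_one] at h4
  exact mul_ne_zero (div_ne_zero (sub_ne_zero.2 (hz' j)) h3) (div_ne_zero h4 h2)

theorem uconv_pt {φs : ℕ → ℂ → ℂ} {φ : ℂ → ℂ} (hconv : UConv φs φ) {z : ℂ} (hz : ‖z‖ < 1)
    (h0 : z ≠ 0) : Tendsto (fun k => φs k z) atTop (𝓝 (φ z)) := by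
  rw [Metric.tendsto_nhds]
  intro ε hε
  filter_upwards [hconv ‖z‖ hz (ε / 2) (by positivity)] with k hk
  rw [dist_eq_norm]
  have := hk z h0 le_rfl
  linarith

theorem den_tendsto (ha : a ∈ Par m) {φs : ℕ → ℂ → ℂ} {φ : ℂ → ℂ} (hconv : UConv φs φ)
    {ws : ℕ → ℂ} {w : ℂ} (hw : Tendsto ws atTop (𝓝 w)) :
    Tendsto (fun k => (den a (φs k)).eval (ws k)) atTop (𝓝 ((den a φ).eval w)) := by
  classical
  simp only [den_eval]
  refine tendsto_finsetProd _ fun j hj => ?_
  rw [Finset.mem_filter] at hj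
  exact hw.sub (uconv_pt hconv (ha j) hj.2)

/-- convergence of the numerators -/
theorem num_tendsto (hUV : Stmt_UnifConv) (hB : BlFacts a) (ha : a ∈ Par m)
    {gs : ℕ → OnePoint ℂ → OnePoint ℂ} {φs : ℕ → ℂ → ℂ} {φ : ℂ → ℂ}
    (hg : ∀ k, Cls a (gs k) (φs k)) (hφ : IsUnif φ) (hconv : UConv φs φ)
    (ps : ℕ → ℂ[X]) (hdeg : ∀ k, (ps k).natDegree = m + 1)
    (hps : ∀ (k : ℕ) (z : ℂ), (den a (φs k)).eval z ≠ 0 →
        gs k (z : OnePoint ℂ) = (((ps k).eval z / (den a (φs k)).eval z : ℂ) : OnePoint ℂ)) :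
    ∃ p : ℂ[X], ∀ (ws : ℕ → ℂ) (w : ℂ), Tendsto ws atTop (𝓝 w) →
      Tendsto (fun k => (ps k).eval (ws k)) atTop (𝓝 (p.eval w)) := by
  classical
  have hinf : (ball (0 : ℂ) 1 \ ({0} ∪ range a)).Infinite := by
    refine (infinite_of_mem_nhds (0 : ℂ) (ball_mem_nhds 0 one_pos)).sdiff ?_
    exact (finite_singleton _).union (finite_range a)
  obtain ⟨t, ht, hcard⟩ := hinf.exists_subset_card_eq (m + 2)
  have ht1 : ∀ z ∈ t, ‖z‖ < 1 := fun z hz => by simpa using (ht hz).1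
  have ht0 : ∀ z ∈ t, z ≠ 0 := by
    intro z hz h
    exact (ht hz).2 (Or.inl h)
  have hta : ∀ z ∈ t, ∀ j, z ≠ a j := by
    intro z hz j h
    exact (ht hz).2 (Or.inr ⟨j, h.symm⟩)
  have hinj : InjOn φ (t : Set ℂ) := by
    intro z hz z' hz' h
    exact hφ.inj ⟨by simpa using ht1 z hz, by simpa using ht0 z hz⟩
      ⟨by simpa using ht1 z' hz', by simpa using ht0 z' hz'⟩ h
  -- values at the nodes
  have hval : ∀ z ∈ t, Tendsto (fun k => (ps k).eval (φ z)) atTop
      (𝓝 (φ (bl a z) * (den a φ).eval (φ z))) := by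
    intro z hz
    have hd : Tendsto (fun k => (den a (φs k)).eval (φ z)) atTop (𝓝 ((den a φ).eval (φ z))) :=
      den_tendsto ha hconv tendsto_const_nhds
    have hdne : (den a φ).eval (φ z) ≠ 0 := by
      apply den_eval_ne
      intro j hj h
      refine hta z hz j (hφ.inj ⟨by simpa using ht1 z hz, by simpa using ht0 z hz⟩
        ⟨by simpa using ha j, by simpa using hj⟩ h)
    have hbl : bl a z ≠ 0 := bl_ne_zero ha (ht1 z hz) (ht0 z hz) (hta z hz)
    have h1 := conv_inside hUV hB hg hφ hconv (ht1 z hz) (xs := fun _ => hat φ z)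
      tendsto_const_nhds
    rw [hat_ne hbl, hat_ne (ht0 z hz)] at h1
    have hev : ∀ᶠ k in atTop, (den a (φs k)).eval (φ z) ≠ 0 := hd.eventually_ne hdne
    have h2 : Tendsto (fun k => (ps k).eval (φ z) / (den a (φs k)).eval (φ z)) atTop
        (𝓝 (φ (bl a z))) := by
      rw [coe_tendsto]
      refine h1.congr' ?_
      filter_upwards [hev] with k hk
      exact hps k _ hk
    refine (h2.mul hd).congr' ?_
    filter_upwards [hev] with k hk
    exact div_mul_cancel₀ _ hk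
  refine ⟨Lagrange.interpolate t φ fun z => φ (bl a z) * (den a φ).eval (φ z), ?_⟩
  intro ws w hw
  have h1 : ∀ k, ps k = Lagrange.interpolate t φ fun z => (ps k).eval (φ z) := by
    intro k
    apply Lagrange.eq_interpolate hinj
    rw [hcard]
    refine lt_of_le_of_lt degree_le_natDegree ?_
    rw [hdeg k]
    exact_mod_cast Nat.lt_succ_self _
  have h2 : ∀ k, (ps k).eval (ws k) =
      ∑ z ∈ t, (ps k).eval (φ z) * (Lagrange.basis t φ z).eval (ws k) := by
    intro k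
    conv_lhs => rw [h1 k]
    rw [Lagrange.interpolate_apply, eval_finsetSum]
    simp only [eval_mul, eval_C]
  simp only [h2]
  rw [Lagrange.interpolate_apply, eval_finsetSum]
  simp only [eval_mul, eval_C]
  refine tendsto_finsetSum _ fun z hz => (hval z hz).mul ?_
  exact ((Lagrange.basis t φ z).continuous.tendsto w).comp hw

/-- compactness, main step: the sequence of uniformisations already converges -/
theorem conv_main (hRat : Stmt_Rat) (hUV : Stmt_UnifConv) (hm : 1 ≤ m)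
    (hB : BlFacts a) (ha : a ∈ Par m) (fs : ℕ → RatMap (m + 1)) {φs : ℕ → ℂ → ℂ} {φ : ℂ → ℂ}
    (hg : ∀ k, Cls a (fs k).fn (φs k)) (hφ : IsUnif φ) (hconv : UConv φs φ) :
    ∃ f : RatMap (m + 1), Cls a f.fn φ ∧ Tendsto fs atTop (𝓝 f) := by
  choose ps hdeg hps using fun k => exists_num hRat hm ha (fs k) (φs k) (hg k)
  obtain ⟨p, hp⟩ := num_tendsto hUV hB ha hg hφ hconv ps hdeg hps
  -- convergence where the denominator does not vanish
  have hout : ∀ (w : ℂ) (xs : ℕ → OnePoint ℂ), (den a φ).eval w ≠ 0 →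
      Tendsto xs atTop (𝓝 (w : OnePoint ℂ)) →
      Tendsto (fun k => (fs k).fn (xs k)) atTop
        (𝓝 ((p.eval w / (den a φ).eval w : ℂ) : OnePoint ℂ)) := by
    intro w xs hw hx
    obtain ⟨ws, hws, hxw⟩ := exists_lift hx
    have hd := den_tendsto ha hconv hws
    have h1 : Tendsto (fun k => (ps k).eval (ws k) / (den a (φs k)).eval (ws k)) atTop
        (𝓝 (p.eval w / (den a φ).eval w)) := (hp ws w hws).div hd hw
    rw [coe_tendsto] at h1
    refine h1.congr' ?_
    filter_upwards [hxw, hd.eventually_ne hw] with k hk hk'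
    rw [hk]
    exact (hps k _ hk').symm
  have hlim : ∀ x : OnePoint ℂ, ∃ y : OnePoint ℂ, ∀ xs : ℕ → OnePoint ℂ,
      Tendsto xs atTop (𝓝 x) → Tendsto (fun k => (fs k).fn (xs k)) atTop (𝓝 y) := by
    intro x
    by_cases hx : x ∈ hat φ '' ball 0 1
    · obtain ⟨z, hz, rfl⟩ := hx
      exact ⟨_, fun xs hxs => conv_inside hUV hB hg hφ hconv (by simpa using hz) hxs⟩
    · obtain ⟨w, rfl⟩ := coe_of_not_mem hx
      exact ⟨_, fun xs hxs => hout w xs (den_ne_of_not_mem ha hx) hxs⟩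
  choose g hgl using hlim
  have hgc : Continuous g := (contConv (fun k => (fs k).fn) g fun x xs hx => hgl x xs hx).1
  have hgin : ∀ z : ℂ, ‖z‖ < 1 → g (hat φ z) = hat φ (bl a z) := by
    intro z hz
    exact tendsto_nhds_unique (hgl (hat φ z) (fun _ => hat φ z) tendsto_const_nhds)
      (conv_inside hUV hB hg hφ hconv hz tendsto_const_nhds)
  have hgout : ∀ w : ℂ, (den a φ).eval w ≠ 0 →
      g (w : OnePoint ℂ) = ((p.eval w / (den a φ).eval w : ℂ) : OnePoint ℂ) := by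
    intro w hw
    exact tendsto_nhds_unique (hgl w (fun _ => w) tendsto_const_nhds)
      (hout w _ hw tendsto_const_nhds)
  have hcls : Cls a g φ := by
    refine ⟨hφ, fun z hz => hgin z (by simpa using hz), ?_⟩
    rintro x ⟨y, hy, hyx⟩
    have hy1 : ‖y‖ < 1 := by simpa using hy
    have h1 : Tendsto (fun k => (fs k).fn x) atTop (𝓝 (hat φ y)) := by
      rw [hyx]
      exact hgl x (fun _ => x) tendsto_const_nhds
    obtain ⟨-, h2, h3⟩ := hUV φs φ (fun k => (hg k).unif) hφ hconv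
    have h4 := h3 (hat φ y) (fun k => (fs k).fn x) ⟨y, hy, rfl⟩ h1
    classical
    have h5 : ∀ᶠ k in atTop, ∃ v ∈ ball (0 : ℂ) 1, hat (φs k) v = x := by
      filter_upwards [h4] with k hk
      exact (hg k).back x hk
    let zs : ℕ → ℂ := fun k => if hk : ∃ v ∈ ball (0 : ℂ) 1, hat (φs k) v = x
      then hk.choose else 0
    have h6 : ∀ k, ‖zs k‖ < 1 := by
      intro k
      by_cases hk : ∃ v ∈ ball (0 : ℂ) 1, hat (φs k) v = x
      · simp only [zs, dif_pos hk]
        simpa using hk.choose_spec.1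
      · simp only [zs, dif_neg hk]
        simp
    have h7 : ∀ᶠ k in atTop, hat (φs k) (zs k) = x := by
      filter_upwards [h5] with k hk
      simp only [zs, dif_pos hk]
      exact hk.choose_spec.2
    have h8 : Tendsto (fun k => bl a (zs k)) atTop (𝓝 y) := by
      refine h2 y _ hy1 (fun k => hB.ball _ (h6 k)) ?_
      refine h1.congr' ?_
      filter_upwards [h7] with k hk
      rw [← (hg k).semi (zs k) (by simpa using h6 k), hk]
    obtain ⟨ρ', hρ', hpr⟩ := hB.proper ((1 + ‖y‖) / 2) (by linarith)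
    have h9 : ∀ᶠ k in atTop, ‖zs k‖ ≤ ρ' := by
      have h10 : ∀ᶠ k in atTop, ‖bl a (zs k)‖ < (1 + ‖y‖) / 2 :=
        h8.norm.eventually_lt_const (by linarith)
      filter_upwards [h10] with k hk
      exact hpr _ (h6 k) hk.le
    obtain ⟨N, hN⟩ := eventually_atTop.1 (h7.and h9)
    have hcomp : IsCompact (closedBall (0 : ℂ) ρ') := isCompact_closedBall _ _
    obtain ⟨z, hz, t, ht, htz⟩ := hcomp.tendsto_subseq (x := fun k => zs (k + N))
      (fun k => by simpa using (hN (k + N) (by omega)).2)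
    have hz1 : ‖z‖ < 1 := lt_of_le_of_lt (by simpa using hz) hρ'
    -- convergence of the uniformisations along the subsequence
    have hs : StrictMono fun k => t k + N := fun i j hij => Nat.add_lt_add_right (ht hij) N
    have hconv' : UConv (fun k => φs (t k + N)) φ := by
      intro ρ hρ ε hε
      exact hs.tendsto_atTop.eventually (hconv ρ hρ ε hε)
    obtain ⟨h11, -, -⟩ := hUV (fun k => φs (t k + N)) φ (fun k => (hg _).unif) hφ hconv'
    have h12 := h11 z (fun k => zs (t k + N)) hz1 htz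
    have h13 : ∀ k, hat (φs (t k + N)) (zs (t k + N)) = x := fun k => (hN (t k + N) (by omega)).1
    simp only [h13] at h12
    refine ⟨z, by simpa using hz1, tendsto_nhds_unique h12 tendsto_const_nhds⟩
  obtain ⟨P, hP, hcop, hPe⟩ := hRat m hm a ha g φ hgc hcls (by
    intro x hx
    have hdx := den_ne_of_not_mem ha hx
    have hdn : ∀ᶠ w in 𝓝 x, (den a φ).eval w ≠ 0 :=
      ((den a φ).continuous.tendsto x).eventually_ne hdx
    refine ⟨fun w => p.eval w / (den a φ).eval w, ?_, ?_⟩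
    · exact p.differentiable.differentiableAt.div (den a φ).differentiable.differentiableAt hdx
    · filter_upwards [hdn] with w hw
      exact ⟨p.differentiable.differentiableAt.div
        (den a φ).differentiable.differentiableAt hw, hgout w hw⟩)
  have hrat : IsRat (m + 1) g := by
    refine ⟨hgc, P, den a φ, hcop, ?_, hPe⟩
    rw [hP]
    exact max_eq_left ((den_natDegree φ).trans (Nat.le_succ m))
  refine ⟨⟨⟨g, hgc⟩, hrat⟩, hcls, ?_⟩
  rw [tendsto_subtype_rng]
  refine (sphereTop.2.2 _ _).2 ?_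
  intro x xs hx
  exact hgl x xs hx

end CC

theorem clsCompact (hBl : Stmt_Bl) (hRat : Stmt_Rat) (hUC : Stmt_UnifCompact)
    (hUV : Stmt_UnifConv) : Stmt_ClsCompact := by
  intro m hm a ha fs φs hg
  obtain ⟨φ, s, hφ, hs, hconv⟩ := hUC φs fun k => (hg k).unif
  obtain ⟨f, hf, hlim⟩ := CC.conv_main hRat hUV hm (hBl m hm a ha) ha (fun k => fs (s k))
    (fun k => hg (s k)) hφ hconv
  exact ⟨f, φ, s, hs, hf, hconv, hlim⟩

theorem sliceCl (hBl : Stmt_Bl) (hRat : Stmt_Rat) (hCls : Stmt_Cls) (hUC : Stmt_UnifCompact)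
    (hUV : Stmt_UnifConv) : Stmt_SliceCl := by
  intro m hm a ha
  have : TopologicalSpace.MetrizableSpace C(OnePoint ℂ, OnePoint ℂ) := sphereTop.2.1
  have hcc := clsCompact hBl hRat hUC hUV m hm a ha
  have key : ∀ f ∈ SliceCl (m := m) a, ∃ φ : ℂ → ℂ, Cls a f.fn φ := by
    intro f hf
    obtain ⟨fs, hfs, hlim⟩ := mem_closure_iff_seq_limit.1 hf
    have h1 : ∀ k, ∃ φ : ℂ → ℂ, Cls a (fs k).fn φ := by
      intro k
      obtain ⟨b, hb, hrat, φ, χ, hmd⟩ := hfs k
      exact ⟨φ, ((hCls m hm a ha).1 b hb (fs k).fn φ χ hrat.1 hmd).1⟩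
    choose φs hφs using h1
    obtain ⟨f', φ, s, hs, hf', -, hlim'⟩ := hcc fs φs hφs
    have h2 : f = f' := tendsto_nhds_unique (hlim.comp hs.tendsto_atTop) hlim'
    rw [h2]
    exact ⟨φ, hf'⟩
  refine ⟨?_, key⟩
  have hmet : TopologicalSpace.MetrizableSpace (RatMap (m + 1)) :=
    Topology.IsEmbedding.subtypeVal.metrizableSpace
  apply IsSeqCompact.isCompact
  intro fs hfs
  choose φs hφs using fun k => key (fs k) (hfs k)
  obtain ⟨f, φ, s, hs, hf, -, hlim⟩ := hcc fs φs hφs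
  exact ⟨f, isClosed_closure.mem_of_tendsto hlim (Eventually.of_forall fun k => hfs (s k)), s, hs,
    hlim⟩

end Pool.Agent.BlMat
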