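import Mathlib

set_option autoImplicit false

/-! Topology of the sphere and of its space of self-maps, and an abstract quotient lemma:
frozen statements. -/

namespace Pool.Agent.BlMat

open Set Filter Topology

/-- The Riemann sphere and its space of continuous self-maps are metrizable, and convergence in
the latter is continuous convergence. -/
def Stmt_SphereTop : Prop :=
  TopologicalSpace.MetrizableSpace (OnePoint ℂ) ∧
  TopologicalSpace.MetrizableSpace C(OnePoint ℂ, OnePoint ℂ) ∧
  ∀ (fs : ℕ → C(OnePoint ℂ, OnePoint ℂ)) (f : C(OnePoint ℂ, OnePoint ℂ)),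
    Tendsto fs atTop (𝓝 f) ↔ ∀ (x : OnePoint ℂ) (xs : ℕ → OnePoint ℂ),
      Tendsto xs atTop (𝓝 x) → Tendsto (fun k => fs k (xs k)) atTop (𝓝 (f x))

/-- Pointwise form: a sequence of functions converging continuously to `f` has `f` continuous. -/
def Stmt_ContConv : Prop :=
  ∀ (fs : ℕ → OnePoint ℂ → OnePoint ℂ) (f : OnePoint ℂ → OnePoint ℂ),
    (∀ (x : OnePoint ℂ) (xs : ℕ → OnePoint ℂ),
      Tendsto xs atTop (𝓝 x) → Tendsto (fun k => fs k (xs k)) atTop (𝓝 (f x))) →
    Continuous f ∧ ∀ s : ℕ → ℕ, StrictMono s → ∀ (x : OnePoint ℂ) (xs : ℕ → OnePoint ℂ),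
      Tendsto xs atTop (𝓝 x) → Tendsto (fun k => fs (s k) (xs k)) atTop (𝓝 (f x))

/-- A closed relation between compact spaces with full projections, compatible with two
equivalence relations, induces a homeomorphism of the quotients. -/
def Stmt_QuotRel : Prop :=
  ∀ (X Y : Type) [TopologicalSpace X] [TopologicalSpace Y] [CompactSpace X] [CompactSpace Y]
    (rX : Setoid X) (rY : Setoid Y) (S : Set (X × Y)), IsClosed S →
    (∀ x, ∃ y, (x, y) ∈ S) → (∀ y, ∃ x, (x, y) ∈ S) →
    (∀ x y x' y', (x, y) ∈ S → (x', y') ∈ S → (rX x x' ↔ rY y y')) →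
    ∃ Φ : Quotient rX ≃ₜ Quotient rY, ∀ x y, (x, y) ∈ S →
      Φ (Quotient.mk rX x) = Quotient.mk rY y

end Pool.Agent.BlMat
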