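import Pool.Agent.BlMat.Defs
import Pool.Agent.BlMat.TopDefs

set_option autoImplicit false

/-!
# Boundaries of spaces of matings with Blaschke products: dynamics, definitions

Definitions for the final theorem and the frozen statements of the second wave.
-/

namespace Pool.Agent.BlMat

open Complex Metric Set Filter Topology MeasureTheory Polynomial
open scoped ComplexConjugate ContDiff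

/-- Marked quasiconformal conjugacy: a quasiconformal (= weakly quasisymmetric) homeomorphism of
the plane conjugating `f` to `g` which, seen in the Riemann maps of the basins of `∞`, extends
by the identity to the unit circle. -/
def QCConj {m : ℕ} (a : Fin m → ℂ) (f g : OnePoint ℂ → OnePoint ℂ) : Prop :=
  ∃ (φ γ : ℂ → ℂ) (H : ℂ ≃ₜ ℂ) (η : ℂ ≃ₜ ℂ) (M : ℝ), Cls a f φ ∧ Cls a g γ ∧ WQS M H ∧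
    (∀ x, ext H (f x) = g (ext H x)) ∧ (∀ z, ‖η z‖ < 1 ↔ ‖z‖ < 1) ∧
    (∀ z, ‖z‖ = 1 → η z = z) ∧ ∀ z ∈ ball (0 : ℂ) 1, ext H (hat φ z) = hat γ (η z)

/-- The identification of boundary points of the slice. -/
def BdRel {m : ℕ} (a : Fin m → ℂ) (x y : SliceCl a) : Prop :=
  x = y ∨ (x.1 ∉ Slice a ∧ y.1 ∉ Slice a ∧ QCConj a x.1.fn y.1.fn)

/-! ### Model conjugacies -/

/-- A quasiconformal model conjugacy `ψ` from `bl a` to `bl a'` near the unit circle, with its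
smooth approximations `ψs j`, which are conformal near the circle. `g` is the smooth map
`ψ⁻¹ ∘ bl a' ∘ ψ`, equal to `bl a` near the circle. -/
structure Model {m : ℕ} (a a' : Fin m → ℂ) (k r : ℝ) (g : ℂ → ℂ) (ψ : ℂ ≃ₜ ℂ)
    (ψs : ℕ → ℂ ≃ₜ ℂ) : Prop where
  k_nonneg : 0 ≤ k
  k_lt : k < 1
  r_pos : 0 < r
  r_lt : r < 1
  norm_lt : ∀ z, ‖ψ z‖ < 1 ↔ ‖z‖ < 1
  norm_eq : ∀ z, ‖ψ z‖ = 1 ↔ ‖z‖ = 1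
  norm_lt' : ∀ j z, ‖ψs j z‖ < 1 ↔ ‖z‖ < 1
  norm_eq' : ∀ j z, ‖ψs j z‖ = 1 ↔ ‖z‖ = 1
  one : ψ 1 = 1
  near_zero : ∀ z, ‖z‖ ≤ r → ψ z = z
  near_zero' : ∀ j z, ‖z‖ ≤ r → ψs j z = z
  smooth : ∀ j, ContDiffOn ℝ ∞ (ψs j) (ball 0 1)
  ne : ∀ j, ∀ z ∈ ball (0 : ℂ) 1, dz (ψs j) z ≠ 0
  dil : ∀ j, ∀ z ∈ ball (0 : ℂ) 1, ‖dzb (ψs j) z‖ ≤ k * ‖dz (ψs j) z‖
  hol : ∀ j, ∃ ρ : ℝ, ρ < 1 ∧ ∀ z : ℂ, ρ < ‖z‖ → ‖z‖ < 1 → dzb (ψs j) z = 0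
  stab : ∀ ρ : ℝ, ρ < 1 → ∀ᶠ j in atTop, ∀ z : ℂ, ‖z‖ ≤ ρ → ψs j z = ψ z
  g_cont : ContinuousOn g (ball 0 1)
  g_maps : MapsTo g (ball 0 1) (ball 0 1)
  g_zero : g 0 = 0
  g_eq : ∃ ρ : ℝ, ρ < 1 ∧ ∀ z : ℂ, ρ < ‖z‖ → ‖z‖ < 1 → g z = bl a z
  conj_j : ∀ j, ∀ z ∈ ball (0 : ℂ) 1, ψs j (g z) = bl a' (ψs (j + 1) z)

/-- Locally uniform limits of smooth quasiconformal maps, with their inverses. -/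
def QCLim (h : ℂ ≃ₜ ℂ) : Prop :=
  ∃ (k : ℝ) (Hs : ℕ → ℂ ≃ₜ ℂ), k < 1 ∧ (∀ j, SmoothQC k (Hs j)) ∧
    TendstoLocallyUniformly (fun j => (Hs j : ℂ → ℂ)) h atTop ∧
    TendstoLocallyUniformly (fun j => ((Hs j).symm : ℂ → ℂ)) h.symm atTop

/-- The denominator attached to a marked Riemann map. -/
noncomputable def den {m : ℕ} (a : Fin m → ℂ) (φ : ℂ → ℂ) : ℂ[X] :=
  open Classical in ∏ j ∈ Finset.univ.filter (fun j => a j ≠ 0), (X - C (φ (a j)))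

/-! ### Frozen statements, second wave -/

/-- Elementary facts on `bl a`. -/
structure BlFacts {m : ℕ} (a : Fin m → ℂ) : Prop where
  diff : ∃ R : ℝ, 1 < R ∧ DifferentiableOn ℂ (bl a) (ball 0 R)
  zero : bl a 0 = 0
  one : bl a 1 = 1
  ball : ∀ z : ℂ, ‖z‖ < 1 → ‖bl a z‖ < 1
  sphere : ∀ z : ℂ, ‖z‖ = 1 → ‖bl a z‖ = 1
  schwarz : ∀ z : ℂ, z ≠ 0 → ‖z‖ < 1 → ‖bl a z‖ < ‖z‖
  proper : ∀ ρ : ℝ, ρ < 1 → ∃ ρ' : ℝ, ρ' < 1 ∧ ∀ z : ℂ, ‖z‖ < 1 → ‖bl a z‖ ≤ ρ → ‖z‖ ≤ ρ'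
  surj : SurjOn (bl a) (Metric.ball 0 1) (Metric.ball 0 1)
  iter : ∀ z : ℂ, ‖z‖ < 1 → Tendsto (fun k => (bl a)^[k] z) atTop (𝓝 0)
  expand : ∃ (ρ c C : ℝ), ρ < 1 ∧ 1 < c ∧ ∀ z : ℂ, ρ ≤ ‖z‖ → ‖z‖ ≤ 1 →
    c ≤ ‖deriv (bl a) z‖ ∧ c * (1 - ‖z‖) ≤ 1 - ‖bl a z‖ ∧
    1 - ‖bl a z‖ ≤ ‖deriv (bl a) z‖ * (1 - ‖z‖) * (1 + C * (1 - ‖z‖)) ∧
    ∀ z' : ℂ, ‖z'‖ ≤ 1 →
      ‖bl a z' - bl a z - deriv (bl a) z * (z' - z)‖ ≤ C * ‖z' - z‖ ^ 2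

/-- Elementary facts on Blaschke products. -/
def Stmt_Bl : Prop := ∀ m : ℕ, 1 ≤ m → ∀ a ∈ Par m, BlFacts (m := m) a

/-- Existence of model conjugacies between nearby Blaschke products. -/
def Stmt_Model : Prop :=
  ∀ m : ℕ, 1 ≤ m → ∀ a ∈ Par m, ∀ᶠ a' in 𝓝 (a : Fin m → ℂ),
    (∃ k r g ψ ψs, Model a a' k r g ψ ψs) ∧ (∃ k r g ψ ψs, Model a' a k r g ψ ψs)

/-- A map of the class which is holomorphic near the complement of the basin is rational. -/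
def Stmt_Rat : Prop :=
  ∀ m : ℕ, 1 ≤ m → ∀ a ∈ Par m, ∀ (f : OnePoint ℂ → OnePoint ℂ) (φ : ℂ → ℂ), Continuous f →
    Cls (m := m) a f φ →
    (∀ x : ℂ, (x : OnePoint ℂ) ∉ hat φ '' ball 0 1 →
      ∃ F : ℂ → ℂ, DifferentiableAt ℂ F x ∧ ∀ᶠ w in 𝓝 x, DifferentiableAt ℂ F w ∧
        f (w : OnePoint ℂ) = (F w : OnePoint ℂ)) →
    ∃ p : ℂ[X], p.natDegree = m + 1 ∧ IsCoprime p (den a φ) ∧
      ∀ z : ℂ, (den a φ).eval z ≠ 0 →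
        f (z : OnePoint ℂ) = ((p.eval z / (den a φ).eval z : ℂ) : OnePoint ℂ)

/-- A mating belongs to the class, and marked Riemann maps are unique. -/
def Stmt_Cls : Prop :=
  ∀ m : ℕ, 1 ≤ m → ∀ a ∈ Par m,
    (∀ b ∈ Par m, ∀ (f : OnePoint ℂ → OnePoint ℂ) (φ χ : ℂ → ℂ), Continuous f →
      MateData (m := m) a b f φ χ → Cls a f φ ∧
      (∀ x : ℂ, (x : OnePoint ℂ) ∉ hat φ '' ball 0 1 ↔ x ∈ χ '' closedBall 0 1) ∧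
      (∀ z : ℂ, ‖z‖ ≤ 1 → f (χ z : OnePoint ℂ) = (χ (bl b z) : OnePoint ℂ)) ∧
      (∀ z : ℂ, ‖z‖ ≤ 1 → f (hat φ z) = hat φ (bl a z)) ∧
      interior (χ '' closedBall 0 1) = χ '' ball 0 1) ∧
    (∀ (f : OnePoint ℂ → OnePoint ℂ) (φ φ' : ℂ → ℂ), Cls (m := m) a f φ → Cls a f φ' →
      EqOn φ φ' (ball 0 1 \ {0}))

/-- Compactness of the class. -/
def Stmt_ClsCompact : Prop :=
  ∀ m : ℕ, 1 ≤ m → ∀ a ∈ Par m, ∀ (fs : ℕ → RatMap (m + 1)) (φs : ℕ → ℂ → ℂ),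
    (∀ k, Cls a (fs k).fn (φs k)) →
    ∃ (f : RatMap (m + 1)) (φ : ℂ → ℂ) (s : ℕ → ℕ), StrictMono s ∧ Cls a f.fn φ ∧
      UConv (fun k => φs (s k)) φ ∧ Tendsto (fun k => fs (s k)) atTop (𝓝 f)

/-- Surgery, step A: solving the Beltrami equation of the `j`-th stage. -/
def Stmt_SurgA : Prop :=
  ∀ (k r : ℝ), 0 ≤ k → k < 1 → 0 < r → r < 1 → ∃ R : ℝ, 0 < R ∧
    ∀ m : ℕ, 1 ≤ m → ∀ a ∈ Par m, ∀ a' ∈ Par m, ∀ b ∈ Par m, ∀ b' ∈ Par m,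
    ∀ (g g₂ : ℂ → ℂ) (ψ ψ₂ : ℂ ≃ₜ ℂ) (ψs ψs₂ : ℕ → ℂ ≃ₜ ℂ),
    Model a a' k r g ψ ψs → Model b b' k r g₂ ψ₂ ψs₂ →
    ∀ (f : OnePoint ℂ → OnePoint ℂ) (φ χ : ℂ → ℂ), IsRat (m + 1) f → MateData a b f φ χ →
    ∀ j : ℕ, ∃ H : ℂ ≃ₜ ℂ, SmoothQC k H ∧ Tendsto (fun w => H w - w) (cocompact ℂ) (𝓝 0) ∧
      DifferentiableOn ℂ H {w : ℂ | R < ‖w‖} ∧
      DifferentiableOn ℂ (fun z => H (φ ((ψs j).symm z))) (ball 0 1 \ {0}) ∧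
      DifferentiableOn ℂ (fun z => H (χ ((ψs₂ j).symm z))) (ball 0 1) ∧
      ∃ U : Set ℂ, IsOpen U ∧ φ '' sphere 0 1 ⊆ U ∧ DifferentiableOn ℂ H U

/-- Surgery, step B: passage to the limit. -/
def Stmt_SurgB : Prop :=
  ∀ (k r : ℝ), 0 ≤ k → k < 1 → 0 < r → r < 1 → ∃ M R : ℝ, 0 < R ∧
    ∀ m : ℕ, 1 ≤ m → ∀ a ∈ Par m, ∀ a' ∈ Par m, ∀ b ∈ Par m, ∀ b' ∈ Par m,
    ∀ (g g₂ : ℂ → ℂ) (ψ ψ₂ : ℂ ≃ₜ ℂ) (ψs ψs₂ : ℕ → ℂ ≃ₜ ℂ),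
    Model a a' k r g ψ ψs → Model b b' k r g₂ ψ₂ ψs₂ →
    ∀ (f : OnePoint ℂ → OnePoint ℂ) (φ χ : ℂ → ℂ), IsRat (m + 1) f → MateData a b f φ χ →
    ∃ (h : ℂ ≃ₜ ℂ) (Hs : ℕ → ℂ ≃ₜ ℂ) (s : ℕ → ℕ), NormQS M R h ∧ StrictMono s ∧
      (∀ j, SmoothQC k (Hs j) ∧ NormQS M R (Hs j) ∧
        DifferentiableOn ℂ (fun z => Hs j (φ ((ψs j).symm z))) (ball 0 1 \ {0}) ∧
        DifferentiableOn ℂ (fun z => Hs j (χ ((ψs₂ j).symm z))) (ball 0 1) ∧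
        ∃ U : Set ℂ, IsOpen U ∧ φ '' sphere 0 1 ⊆ U ∧ DifferentiableOn ℂ (Hs j) U) ∧
      TendstoLocallyUniformly (fun i => (Hs (s i) : ℂ → ℂ)) h atTop ∧
      TendstoLocallyUniformly (fun i => ((Hs (s i)).symm : ℂ → ℂ)) h.symm atTop ∧
      TendstoLocallyUniformly (fun i => (Hs (s i + 1) : ℂ → ℂ)) h atTop ∧
      TendstoLocallyUniformly (fun i => ((Hs (s i + 1)).symm : ℂ → ℂ)) h.symm atTop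

/-- Surgery. -/
def Stmt_Surgery : Prop :=
  ∀ (k r : ℝ), 0 ≤ k → k < 1 → 0 < r → r < 1 → ∃ M R : ℝ, 0 < R ∧
    ∀ m : ℕ, 1 ≤ m → ∀ a ∈ Par m, ∀ a' ∈ Par m, ∀ b ∈ Par m, ∀ b' ∈ Par m,
    ∀ (g g₂ : ℂ → ℂ) (ψ ψ₂ : ℂ ≃ₜ ℂ) (ψs ψs₂ : ℕ → ℂ ≃ₜ ℂ),
    Model a a' k r g ψ ψs → Model b b' k r g₂ ψ₂ ψs₂ →
    ∀ (f : OnePoint ℂ → OnePoint ℂ) (φ χ : ℂ → ℂ), IsRat (m + 1) f → MateData a b f φ χ →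
    ∃ (h : ℂ ≃ₜ ℂ) (f' : OnePoint ℂ → OnePoint ℂ) (φ' χ' : ℂ → ℂ), NormQS M R h ∧ QCLim h ∧
      IsRat (m + 1) f' ∧ MateData a' b' f' φ' χ' ∧
      (∀ z : ℂ, z ≠ 0 → ‖z‖ ≤ 1 → h (φ z) = φ' (ψ z)) ∧
      (∀ z : ℂ, ‖z‖ ≤ 1 → h (χ z) = χ' (ψ₂ z))

/-- The base case: `z^(m+1)` is the only mating of `z^(m+1)` with itself. -/
def Stmt_Base : Prop :=
  ∀ m : ℕ, 1 ≤ m →
    (∃ (f : OnePoint ℂ → OnePoint ℂ) (φ χ : ℂ → ℂ), IsRat (m + 1) f ∧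
      MateData (m := m) 0 0 f φ χ) ∧
    ∀ (f f' : OnePoint ℂ → OnePoint ℂ) (φ χ φ' χ' : ℂ → ℂ), IsRat (m + 1) f →
      IsRat (m + 1) f' → MateData (m := m) 0 0 f φ χ → MateData (m := m) 0 0 f' φ' χ' →
      f = f' ∧ EqOn φ φ' (closedBall 0 1 \ {0}) ∧ EqOn χ χ' (closedBall 0 1)

/-- Existence and uniqueness of matings. -/
def Stmt_MateEU : Prop :=
  ∀ m : ℕ, 1 ≤ m → ∀ a ∈ Par m, ∀ b ∈ Par m,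
    (∃ (f : OnePoint ℂ → OnePoint ℂ) (φ χ : ℂ → ℂ), IsRat (m + 1) f ∧
      MateData (m := m) a b f φ χ) ∧
    ∀ (f f' : OnePoint ℂ → OnePoint ℂ) (φ χ φ' χ' : ℂ → ℂ), IsRat (m + 1) f →
      IsRat (m + 1) f' → MateData (m := m) a b f φ χ → MateData (m := m) a b f' φ' χ' →
      f = f' ∧ EqOn φ φ' (closedBall 0 1 \ {0}) ∧ EqOn χ χ' (closedBall 0 1)

/-- Limits of pairs of matings related by surgery. -/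
def Stmt_Limit : Prop :=
  ∀ m : ℕ, 1 ≤ m → ∀ a ∈ Par m, ∀ a' ∈ Par m,
    ∀ (k r : ℝ) (g : ℂ → ℂ) (ψ : ℂ ≃ₜ ℂ) (ψs : ℕ → ℂ ≃ₜ ℂ), Model a a' k r g ψ ψs →
    ∀ (fs fs' : ℕ → RatMap (m + 1)) (bs : ℕ → Fin m → ℂ) (f f' : RatMap (m + 1)),
    (∀ i, bs i ∈ Par m) → (∀ i, Mate a (bs i) (fs i).fn) → (∀ i, Mate a' (bs i) (fs' i).fn) →
    Tendsto fs atTop (𝓝 f) → Tendsto fs' atTop (𝓝 f') →
    ∃ (φ φ' : ℂ → ℂ) (h : ℂ ≃ₜ ℂ) (M R : ℝ), Cls a f.fn φ ∧ Cls a' f'.fn φ' ∧ NormQS M R h ∧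
      (∀ z ∈ ball (0 : ℂ) 1, z ≠ 0 → h (φ z) = φ' (ψ z)) ∧
      (∀ x : ℂ, (x : OnePoint ℂ) ∉ hat φ '' ball 0 1 → f'.fn (h x) = ext h (f.fn x)) ∧
      (∀ b ∈ Par m, Mate a b f.fn ↔ Mate a' b f'.fn)

/-- Gluing a quasiconformal conjugacy with the conformal conjugacy of the basins of `∞`. -/
def Stmt_Glue : Prop :=
  ∀ m : ℕ, 1 ≤ m → ∀ a ∈ Par m, ∀ (f g : OnePoint ℂ → OnePoint ℂ) (φ γ : ℂ → ℂ),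
    Continuous f → Continuous g → Cls (m := m) a f φ → Cls a g γ →
    ∀ (H : ℂ ≃ₜ ℂ) (η : ℂ ≃ₜ ℂ) (M : ℝ), WQS M H → (∀ x, ext H (f x) = g (ext H x)) →
    (∀ z, ‖η z‖ < 1 ↔ ‖z‖ < 1) → (∀ z, ‖z‖ = 1 → η z = z) →
    (∀ z ∈ ball (0 : ℂ) 1, ext H (hat φ z) = hat γ (η z)) →
    ∃ (H' : ℂ ≃ₜ ℂ) (M' : ℝ), WQS M' H' ∧ (∀ z ∈ ball (0 : ℂ) 1, z ≠ 0 → H' (φ z) = γ z) ∧
      ∀ x : ℂ, (x : OnePoint ℂ) ∉ hat φ '' ball 0 1 → H' x = H x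

end Pool.Agent.BlMat
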