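import Pool.Agent.BlMat.F3
import Pool.Agent.BlMat.DynDefs
import Pool.Agent.Squeeze.Inverse

set_option autoImplicit false

/-! A mating belongs to the class, and marked Riemann maps are unique. -/

namespace Pool.Agent.BlMat

open Complex Metric Set Filter Topology MeasureTheory
open scoped ComplexConjugate ContDiff

namespace CL

theorem coe_mem_hat {φ : ℂ → ℂ} {x : ℂ} :
    (x : OnePoint ℂ) ∈ hat φ '' ball 0 1 ↔ x ∈ φ '' (ball 0 1 \ {0}) := by
  constructor
  · rintro ⟨z, hz, hzx⟩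
    have h0 : z ≠ 0 := by
      rintro rfl
      rw [F3.hat_zero] at hzx
      exact OnePoint.infty_ne_coe _ hzx
    rw [F3.hat_ne φ h0] at hzx
    exact ⟨z, ⟨hz, h0⟩, OnePoint.coe_injective hzx⟩
  · rintro ⟨z, hz, rfl⟩
    exact ⟨z, hz.1, F3.hat_ne φ hz.2⟩

/-- An injective holomorphic map is open. -/
theorem nhds_le_map {f : ℂ → ℂ} {U : Set ℂ} (hU : IsOpen U) (hd : DifferentiableOn ℂ f U)
    (hi : InjOn f U) {z : ℂ} (hz : z ∈ U) : 𝓝 (f z) ≤ map f (𝓝 z) := by
  have ha : AnalyticAt ℂ f z := hd.analyticAt (hU.mem_nhds hz)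
  rcases ha.eventually_constant_or_nhds_le_map_nhds with h | h
  · exfalso
    have h2 : ∀ᶠ w in 𝓝 z, w = z := by
      filter_upwards [h, hU.mem_nhds hz] with w hw hwU
      exact hi hwU hz hw
    have h3 : ∀ᶠ w in 𝓝[≠] z, w = z := h2.filter_mono nhdsWithin_le_nhds
    have h4 : ∀ᶠ w in 𝓝[≠] z, w ≠ z := eventually_mem_nhdsWithin
    obtain ⟨w, hw, hw'⟩ := (h3.and h4).exists
    exact hw' hw
  · exact h

theorem isOpen_image {f : ℂ → ℂ} {U : Set ℂ} (hU : IsOpen U) (hd : DifferentiableOn ℂ f U)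
    (hi : InjOn f U) : IsOpen (f '' U) := by
  rw [isOpen_iff_mem_nhds]
  rintro _ ⟨z, hz, rfl⟩
  exact nhds_le_map hU hd hi hz (image_mem_map (hU.mem_nhds hz))

theorem continuousAt_hat_zero {φ : ℂ → ℂ} (h : IsUnif φ) : ContinuousAt (hat φ) 0 := by
  rw [ContinuousAt, F3.hat_zero, ← nhdsNE_sup_pure, tendsto_sup]
  refine ⟨?_, by rw [tendsto_pure_left]; intro s hs; rw [F3.hat_zero]; exact mem_of_mem_nhds hs⟩
  have h1 : Tendsto φ (𝓝[≠] 0) (cocompact ℂ) := by
    rw [← Metric.cobounded_eq_cocompact, ← tendsto_norm_atTop_iff_cobounded]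
    have h2 : Tendsto (fun z : ℂ => ‖z‖⁻¹ - 8) (𝓝[≠] 0) atTop := by
      refine tendsto_atTop_add_const_right _ _ ?_
      exact (tendsto_norm_cobounded_atTop.comp tendsto_inv₀_nhdsNE_zero).congr
        fun z => by rw [Function.comp_apply, norm_inv]
    refine tendsto_atTop_mono' _ ?_ h2
    filter_upwards [eventually_mem_nhdsWithin,
      nhdsWithin_le_nhds (isOpen_ball.mem_nhds (mem_ball_self one_pos) : ball (0 : ℂ) 1 ∈ 𝓝 0)]
      with z hz hz1
    rw [mem_ball_zero_iff] at hz1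
    have := F3.norm_ge h hz hz1
    rw [one_div] at this
    linarith
  have h3 : Tendsto (fun z => (φ z : OnePoint ℂ)) (𝓝[≠] 0) (𝓝 OnePoint.infty) := by
    refine OnePoint.tendsto_coe_infty.comp ?_
    rwa [coclosedCompact_eq_cocompact]
  refine h3.congr' ?_
  filter_upwards [eventually_mem_nhdsWithin] with z hz
  exact (F3.hat_ne φ hz).symm

theorem continuousOn_hat {φ : ℂ → ℂ} (h : IsUnif φ) {S : Set ℂ}
    (hc : ContinuousOn φ (S \ {0})) : ContinuousOn (hat φ) S := by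
  intro z hz
  by_cases h0 : z = 0
  · rw [h0]
    exact (continuousAt_hat_zero h).continuousWithinAt
  have h1 : ContinuousWithinAt φ S z := by
    refine (hc z ⟨hz, h0⟩).mono_of_mem_nhdsWithin ?_
    rw [sdiff_eq]
    exact inter_mem_nhdsWithin _ (isOpen_compl_singleton.mem_nhds h0)
  have h2 : ContinuousWithinAt (fun z => (φ z : OnePoint ℂ)) S z :=
    OnePoint.continuous_coe.continuousAt.comp_continuousWithinAt h1
  refine h2.congr_of_eventuallyEq ?_ (F3.hat_ne φ h0)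
  filter_upwards [nhdsWithin_le_nhds (isOpen_compl_singleton.mem_nhds h0)] with w hw
  exact F3.hat_ne φ hw

theorem bl_closed {m : ℕ} {a : Fin m → ℂ} (h : BlFacts a) {z : ℂ} (hz : ‖z‖ ≤ 1) :
    ‖bl a z‖ ≤ 1 := by
  rcases hz.lt_or_eq with h1 | h1
  · exact (h.ball z h1).le
  · exact (h.sphere z h1).le

theorem bl_cont {m : ℕ} {a : Fin m → ℂ} (h : BlFacts a) : ContinuousOn (bl a) (closedBall 0 1) := by
  obtain ⟨R, hR, hd⟩ := h.diff
  exact hd.continuousOn.mono (closedBall_subset_ball hR)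

section Mate

variable {m : ℕ} {a b : Fin m → ℂ} {f : OnePoint ℂ → OnePoint ℂ} {φ χ : ℂ → ℂ}

theorem notMem_iff (D : MateData a b f φ χ) (x : ℂ) :
    (x : OnePoint ℂ) ∉ hat φ '' ball 0 1 ↔ x ∈ χ '' closedBall 0 1 := by
  rw [coe_mem_hat]
  constructor
  · intro h
    have : x ∈ φ '' (ball 0 1 \ {0}) ∪ χ '' closedBall 0 1 := by rw [D.cover]; trivial
    exact this.resolve_left h
  · intro h h'
    exact disjoint_left.1 D.disj h' h

theorem semiχ' (hb : BlFacts b) (hf : Continuous f) (D : MateData a b f φ χ) {z : ℂ}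
    (hz : ‖z‖ ≤ 1) : f (χ z : OnePoint ℂ) = (χ (bl b z) : OnePoint ℂ) := by
  have hz' : z ∈ closedBall (0 : ℂ) 1 := by rwa [mem_closedBall_zero_iff]
  have h1 : ContinuousOn (fun z => f (χ z : OnePoint ℂ)) (closedBall 0 1) :=
    (hf.comp OnePoint.continuous_coe).comp_continuousOn D.χcont
  have h2 : ContinuousOn (fun z => (χ (bl b z) : OnePoint ℂ)) (closedBall 0 1) :=
    OnePoint.continuous_coe.comp_continuousOn (D.χcont.comp (bl_cont hb) fun z hz => by
      rw [mem_closedBall_zero_iff] at hz ⊢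
      exact bl_closed hb hz)
  have h3 : EqOn (fun z => f (χ z : OnePoint ℂ)) (fun z => (χ (bl b z) : OnePoint ℂ))
      (ball 0 1) := D.semiχ
  exact h3.of_subset_closure h1 h2 ball_subset_closedBall
    (by rw [closure_ball _ one_ne_zero]) hz'

theorem semiφ' (ha : BlFacts a) (hf : Continuous f) (D : MateData a b f φ χ) {z : ℂ}
    (hz : ‖z‖ ≤ 1) : f (hat φ z) = hat φ (bl a z) := by
  have hz' : z ∈ closedBall (0 : ℂ) 1 := by rwa [mem_closedBall_zero_iff]
  have hc := continuousOn_hat D.unif D.φcont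
  have h1 : ContinuousOn (fun z => f (hat φ z)) (closedBall 0 1) := hf.comp_continuousOn hc
  have h2 : ContinuousOn (fun z => hat φ (bl a z)) (closedBall 0 1) :=
    hc.comp (bl_cont ha) fun z hz => by
      rw [mem_closedBall_zero_iff] at hz ⊢
      exact bl_closed ha hz
  have h3 : EqOn (fun z => f (hat φ z)) (fun z => hat φ (bl a z)) (ball 0 1) := D.semiφ
  exact h3.of_subset_closure h1 h2 ball_subset_closedBall
    (by rw [closure_ball _ one_ne_zero]) hz'

theorem mate_cls (hb : BlFacts b) (hf : Continuous f) (D : MateData a b f φ χ) : Cls a f φ := by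
  refine ⟨D.unif, D.semiφ, fun x hx => ?_⟩
  cases x with
  | infty => exact ⟨0, mem_ball_self one_pos, F3.hat_zero φ⟩
  | coe x =>
    by_contra hcon
    obtain ⟨z, hz, rfl⟩ := (notMem_iff D x).1 hcon
    rw [mem_closedBall_zero_iff] at hz
    rw [semiχ' hb hf D hz] at hx
    refine (notMem_iff D _).2 ⟨bl b z, ?_, rfl⟩ hx
    rw [mem_closedBall_zero_iff]
    exact bl_closed hb hz

theorem interior_eq (D : MateData a b f φ χ) :
    interior (χ '' closedBall 0 1) = χ '' ball 0 1 := by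
  apply Subset.antisymm
  · intro x hx
    obtain ⟨z, hz, rfl⟩ := interior_subset hx
    rw [mem_closedBall_zero_iff] at hz
    rcases hz.lt_or_eq with h1 | h1
    · exact ⟨z, by rwa [mem_ball_zero_iff], rfl⟩
    exfalso
    have h2 : χ z ∈ φ '' sphere 0 1 := by
      rw [D.bdry]
      exact ⟨z, by rwa [mem_sphere_zero_iff_norm], rfl⟩
    obtain ⟨w, hw, hwz⟩ := h2
    rw [mem_sphere_zero_iff_norm] at hw
    have hw0 : w ≠ 0 := by
      rintro rfl
      simp at hw
    have hwc : w ∈ closure (ball (0 : ℂ) 1 \ {0}) := by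
      have h5 : w ∈ closure (ball (0 : ℂ) 1) := by
        rw [closure_ball _ one_ne_zero, mem_closedBall_zero_iff, hw]
      rw [mem_closure_iff_nhds] at h5 ⊢
      intro t ht
      obtain ⟨y, hy1, hy2⟩ := h5 (t ∩ {0}ᶜ)
        (inter_mem ht (isOpen_compl_singleton.mem_nhds hw0))
      exact ⟨y, hy1.1, hy2, hy1.2⟩
    have h6 : ContinuousWithinAt φ (ball 0 1 \ {0}) w :=
      (D.φcont w ⟨by rw [mem_closedBall_zero_iff, hw], hw0⟩).mono
        (sdiff_subset_sdiff_left ball_subset_closedBall)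
    have h7 : φ w ∈ closure (φ '' (ball 0 1 \ {0})) := h6.mem_closure_image hwc
    rw [mem_closure_iff_nhds] at h7
    obtain ⟨y, hy1, hy2⟩ := h7 (interior (χ '' closedBall 0 1))
      (by rw [hwz]; exact isOpen_interior.mem_nhds hx)
    exact disjoint_left.1 D.disj hy2 (interior_subset hy1)
  · exact interior_maximal (image_mono ball_subset_closedBall)
      (isOpen_image isOpen_ball D.χdiff (D.χinj.mono ball_subset_closedBall))

end Mate

section Unique

variable {m : ℕ} {a : Fin m → ℂ} {f : OnePoint ℂ → OnePoint ℂ} {φ φ' : ℂ → ℂ}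

theorem iterate_semi (ha : BlFacts a) (h : Cls a f φ) (k : ℕ) : ∀ z ∈ ball (0 : ℂ) 1,
    f^[k] (hat φ z) = hat φ ((bl a)^[k] z) ∧ (bl a)^[k] z ∈ ball (0 : ℂ) 1 := by
  induction k with
  | zero => intro z hz; exact ⟨rfl, hz⟩
  | succ k ih =>
    intro z hz
    obtain ⟨h1, h2⟩ := ih z hz
    rw [Function.iterate_succ_apply', Function.iterate_succ_apply', h1, h.semi _ h2]
    refine ⟨rfl, ?_⟩
    rw [mem_ball_zero_iff] at h2 ⊢
    exact ha.ball _ h2

theorem iterate_back (h : Cls a f φ) (k : ℕ) : ∀ x, f^[k] x ∈ hat φ '' ball 0 1 →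
    x ∈ hat φ '' ball 0 1 := by
  induction k with
  | zero => intro x hx; exact hx
  | succ k ih =>
    intro x hx
    rw [Function.iterate_succ_apply] at hx
    exact h.back x (ih _ hx)

/-- A normalised univalent map covers the image of a small disc under any other. -/
theorem mem_of_small (h : IsUnif φ) (h' : IsUnif φ') {y : ℂ} (hy : ‖y‖ < 1 / 20) :
    hat φ y ∈ hat φ' '' ball 0 1 := by
  by_cases h0 : y = 0
  · rw [h0, F3.hat_zero]
    exact ⟨0, mem_ball_self one_pos, F3.hat_zero φ'⟩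
  · have h1 := F3.norm_ge h h0 (by linarith)
    have h2 : 20 < 1 / ‖y‖ := by
      rw [lt_div_iff₀ (norm_pos_iff.2 h0)]
      linarith
    obtain ⟨z, hz0, hz1, hz⟩ := F3.cover_infty h' (ε := 1 / 2) (by norm_num) (by norm_num)
      (w := φ y) (by norm_num; linarith)
    rw [F3.hat_ne φ h0, coe_mem_hat]
    exact ⟨z, ⟨by rw [mem_ball_zero_iff]; linarith, hz0⟩, hz⟩

theorem basin_subset (ha : BlFacts a) (h : Cls a f φ) (h' : Cls a f φ') {z : ℂ}
    (hz : z ∈ ball (0 : ℂ) 1) : hat φ z ∈ hat φ' '' ball 0 1 := by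
  have h1 := ha.iter z (by rwa [mem_ball_zero_iff] at hz)
  rw [Metric.tendsto_nhds] at h1
  obtain ⟨k, hk⟩ := (h1 (1 / 20) (by norm_num)).exists
  rw [dist_zero_right] at hk
  refine iterate_back h' k _ ?_
  rw [(iterate_semi ha h k z hz).1]
  exact mem_of_small h.unif h'.unif hk

/-- Distortion near `∞`. -/
theorem near (h : IsUnif φ) (h' : IsUnif φ') {z z' : ℂ} (hz : z ∈ ball (0 : ℂ) 1 \ {0})
    (hz' : z' ∈ ball (0 : ℂ) 1 \ {0}) (he : φ' z' = φ z) : ‖z' - z‖ ≤ 272 * ‖z‖ ^ 2 := by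
  obtain ⟨hz1, hz0⟩ := hz
  obtain ⟨hz1', hz0'⟩ := hz'
  rw [mem_ball_zero_iff] at hz1 hz1'
  rw [mem_singleton_iff] at hz0 hz0'
  have h1 := F1.om_bound h hz1
  have h2 := F1.om_bound h' hz1'
  rw [F1.om_ne _ hz0] at h1
  rw [F1.om_ne _ hz0', he] at h2
  have hp := norm_pos_iff.2 hz0
  have hp' := norm_pos_iff.2 hz0'
  have h3 : ‖z' - z‖ ≤ (8 * ‖z‖ + 8 * ‖z'‖) * (‖z‖ * ‖z'‖) := by
    have e1 : z' - z = ((φ z - 1 / z') - (φ z - 1 / z)) * (z * z') := by
      field_simp
      ring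
    rw [e1, norm_mul, norm_mul]
    refine mul_le_mul_of_nonneg_right ?_ (by positivity)
    exact (norm_sub_le _ _).trans (by linarith)
  have h4 : ‖z' - z‖ ≤ 16 * ‖z‖ * ‖z'‖ := by
    have : (8 * ‖z‖ + 8 * ‖z'‖) * (‖z‖ * ‖z'‖) ≤ 16 * (‖z‖ * ‖z'‖) :=
      mul_le_mul_of_nonneg_right (by linarith) (by positivity)
    linarith
  have h5 : ‖z'‖ ≤ 17 * ‖z‖ := by
    have h6 : ‖z'‖ ≤ ‖z‖ + ‖z' - z‖ := by
      have := norm_add_le z (z' - z)
      rwa [add_sub_cancel] at this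
    have h7 : 16 * ‖z‖ * ‖z'‖ ≤ 16 * ‖z‖ * 1 :=
      mul_le_mul_of_nonneg_left hz1'.le (by positivity)
    linarith
  have h8 : 16 * ‖z‖ * ‖z'‖ ≤ 16 * ‖z‖ * (17 * ‖z‖) :=
    mul_le_mul_of_nonneg_left h5 (by positivity)
  calc ‖z' - z‖ ≤ 16 * ‖z‖ * (17 * ‖z‖) := h4.trans h8
    _ = 272 * ‖z‖ ^ 2 := by ring

theorem unique (ha : BlFacts a) (h : Cls a f φ) (h' : Cls a f φ') :
    EqOn φ φ' (ball 0 1 \ {0}) := by
  have hU : IsOpen (ball (0 : ℂ) 1 \ {0}) := isOpen_ball.sdiff isClosed_singleton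
  obtain ⟨g, hg1, hg2⟩ := Squeeze.exists_inverse hU h'.unif.diff h'.unif.inj
  have hcov : ∀ z ∈ ball (0 : ℂ) 1 \ {0}, ∃ z' ∈ ball (0 : ℂ) 1 \ {0}, φ' z' = φ z := by
    intro z hz
    have := basin_subset ha h h' hz.1
    rw [F3.hat_ne φ hz.2, coe_mem_hat] at this
    exact this
  classical
  set u : ℂ → ℂ := fun z => if z = 0 then 0 else g (φ z) with hu
  have hu0 : u 0 = 0 := if_pos rfl
  have hu1 : ∀ z ∈ ball (0 : ℂ) 1 \ {0}, u z ∈ ball (0 : ℂ) 1 \ {0} ∧ φ' (u z) = φ z := by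
    intro z hz
    obtain ⟨z', hz', he⟩ := hcov z hz
    have : u z = z' := by
      have h0 : z ≠ 0 := hz.2
      have h2 : u z = g (φ z) := if_neg h0
      rw [h2, ← he, hg1 z' hz']
    rw [this]
    exact ⟨hz', he⟩
  have hmaps : MapsTo u (ball 0 1) (closedBall (u 0) 1) := by
    intro z hz
    rw [hu0]
    by_cases h0 : z = 0
    · rw [h0, hu0]
      exact mem_closedBall_self zero_le_one
    · exact ball_subset_closedBall (hu1 z ⟨hz, h0⟩).1.1
  have hd0 : HasDerivAt u 1 0 := by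
    rw [hasDerivAt_iff_isLittleO, hu0]
    have h1 : (fun z : ℂ => u z - 0 - (z - 0) • (1 : ℂ)) =O[𝓝 0] fun z : ℂ => ‖z‖ ^ 2 := by
      refine Asymptotics.IsBigO.of_bound 272 ?_
      filter_upwards [isOpen_ball.mem_nhds (mem_ball_self one_pos : (0 : ℂ) ∈ ball 0 1)]
        with z hz
      by_cases h0 : z = 0
      · rw [h0, hu0]
        simp
      · obtain ⟨hz1, hz2⟩ := hu1 z ⟨hz, h0⟩
        have := near h.unif h'.unif ⟨hz, h0⟩ hz1 hz2
        simpa using this
    refine h1.trans_isLittleO ?_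
    have h2 : (fun z : ℂ => ‖z‖ ^ 2) =o[𝓝 0] fun z : ℂ => ‖z‖ := by
      refine (Asymptotics.isLittleO_pow_id one_lt_two).comp_tendsto ?_
      have := (continuous_norm (E := ℂ)).tendsto 0
      rwa [norm_zero] at this
    rw [← Asymptotics.isLittleO_norm_right]
    simpa using h2
  have hdiff : DifferentiableOn ℂ u (ball 0 1) := by
    intro z hz
    by_cases h0 : z = 0
    · rw [h0]
      exact hd0.differentiableAt.differentiableWithinAt
    · obtain ⟨z', hz', he⟩ := hcov z ⟨hz, h0⟩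
      have h1 : DifferentiableAt ℂ (fun z => g (φ z)) z := by
        refine DifferentiableAt.comp z (g := g) (f := φ) ?_
          (h.unif.diff.differentiableAt (hU.mem_nhds ⟨hz, h0⟩))
        rw [← he]
        exact hg2 z' hz'
      refine (h1.congr_of_eventuallyEq ?_).differentiableWithinAt
      filter_upwards [isOpen_compl_singleton.mem_nhds h0] with w hw
      exact if_neg hw
  have hs : dslope u 0 0 = 1 := by
    rw [dslope_same, hd0.deriv]
  have key := affine_of_mapsTo_ball_of_norm_dslope_eq_div hdiff hmaps (mem_ball_self one_pos)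
    (by rw [hs]; simp)
  intro z hz
  have h1 := key hz.1
  simp only [hs, hu0, sub_zero, smul_eq_mul, mul_one, zero_add] at h1
  rw [← (hu1 z hz).2, h1]

end Unique

end CL

/-- A mating belongs to the class, and marked Riemann maps are unique. -/
theorem cls (h : Stmt_Bl) : Stmt_Cls := by
  intro m hm a ha
  refine ⟨fun b hb f φ χ hf D => ⟨CL.mate_cls (h m hm b hb) hf D, CL.notMem_iff D,
    fun z hz => CL.semiχ' (h m hm b hb) hf D hz, fun z hz => CL.semiφ' (h m hm a ha) hf D hz,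
    CL.interior_eq D⟩, fun f φ φ' h1 h2 => CL.unique (h m hm a ha) h1 h2⟩

end Pool.Agent.BlMat
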