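import Pool.Agent.BlMat.Local2

set_option autoImplicit false

/-! From nearby parameters to all parameters. -/

namespace Pool.Agent.BlMat

open Complex Metric Set Filter Topology

variable {m : ℕ}

theorem HomeoStmt.refl (a : Fin m → ℂ) : HomeoStmt a a := by
  refine ⟨Homeomorph.refl _, Homeomorph.refl _, Homeomorph.refl _, ?_, ?_, ?_⟩
  · intro b _ x; rfl
  · intro x; rfl
  · intro y; rfl

theorem HomeoStmt.trans {a b c : Fin m → ℂ} (h1 : HomeoStmt a b) (h2 : HomeoStmt b c) :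
    HomeoStmt a c := by
  obtain ⟨F, Φ, Ψ, f1, f2, f3⟩ := h1
  obtain ⟨F', Φ', Ψ', g1, g2, g3⟩ := h2
  refine ⟨F.trans F', Φ.trans Φ', Ψ.trans Ψ', ?_, ?_, ?_⟩
  · intro d hd x
    rw [f1 d hd x, g1 d hd (F x)]; rfl
  · intro x
    show Ψ' (Ψ _) = slToCl c (F' (F x))
    rw [f2, g2]
  · intro y
    show Ψ' (Ψ _) = bdToCl c (Φ' (Φ y))
    rw [f3, g3]

theorem zero_mem_Par (m : ℕ) : (0 : Fin m → ℂ) ∈ Par m := by
  intro j; simp

theorem convex_Par (m : ℕ) : Convex ℝ (Par m) := by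
  intro x hx y hy s t hs ht hst j
  have hx' := hx j
  have hy' := hy j
  have h1 : ‖(s • x + t • y) j‖ ≤ s * ‖x j‖ + t * ‖y j‖ := by
    refine (norm_add_le _ _).trans ?_
    simp only [Pi.smul_apply, norm_smul, Real.norm_eq_abs, abs_of_nonneg hs, abs_of_nonneg ht]
    exact le_refl _
  have h2 : s * ‖x j‖ + t * ‖y j‖ < 1 := by
    rcases hs.eq_or_lt with h | h
    · have ht1 : t = 1 := by linarith
      rw [← h, ht1]; linarith
    · nlinarith
  exact lt_of_le_of_lt h1 h2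

theorem homeoStmt_all (hM : Stmt_Model)
    (hloc : ∀ a ∈ Par m, ∀ a' ∈ Par m, (∃ k r g ψ ψs, Model a a' k r g ψ ψs) →
      HomeoStmt (m := m) a a') (hm : 1 ≤ m) :
    ∀ a ∈ Par m, HomeoStmt (0 : Fin m → ℂ) a := by
  have hc : PreconnectedSpace (Par m) :=
    Subtype.preconnectedSpace (convex_Par m).isPreconnected
  let U : Set (Par m) := {a | HomeoStmt (0 : Fin m → ℂ) a.1}
  have hopen : IsOpen (Par m) := by
    have : Par m = ⋂ j, {a : Fin m → ℂ | ‖a j‖ < 1} := by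
      ext a; simp [Par]
    rw [this]
    exact isOpen_iInter_of_finite (fun j => isOpen_lt (by fun_prop) continuous_const)
  have ev : ∀ a : Par m, ∀ᶠ a' in 𝓝 a, HomeoStmt a.1 a'.1 ∧ HomeoStmt a'.1 a.1 := by
    intro a
    have h1 := hM m hm a.1 a.2
    have h2 : ∀ᶠ a' : Par m in 𝓝 a, (∃ k r g ψ ψs, Model a.1 a'.1 k r g ψ ψs) ∧
        (∃ k r g ψ ψs, Model a'.1 a.1 k r g ψ ψs) :=
      (continuous_subtype_val.tendsto a).eventually h1
    filter_upwards [h2] with a' h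
    exact ⟨hloc a.1 a.2 a'.1 a'.2 h.1, hloc a'.1 a'.2 a.1 a.2 h.2⟩
  have hU : IsClopen U := by
    constructor
    · rw [← isOpen_compl_iff, isOpen_iff_mem_nhds]
      intro a ha
      filter_upwards [ev a] with a' h
      intro h'
      exact ha (h'.trans h.2)
    · rw [isOpen_iff_mem_nhds]
      intro a ha
      filter_upwards [ev a] with a' h
      exact HomeoStmt.trans ha h.1
  have hU1 : U = univ := hU.eq_univ ⟨⟨0, zero_mem_Par m⟩, HomeoStmt.refl _⟩
  intro a ha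
  have : (⟨a, ha⟩ : Par m) ∈ U := by rw [hU1]; trivial
  exact this

end Pool.Agent.BlMat
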