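import Mathlib

set_option autoImplicit false

/-!
# Boundaries of spaces of matings with Blaschke products: the definitions of the final statement

Degree `n = m + 1`.  Blaschke products fixing `0` are marked by a fixed point on the circle, which
is rotated to `1`.  Rational maps are considered up to Moebius conjugacy: a map with a marked
Riemann map `φ` of the basin carrying the dynamics of `bl a` has a unique conjugate for which this
basin contains `∞` and `φ z = 1/z + o(1)`; this conjugate represents it.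
-/

namespace Pool.Agent.BlMat

open Complex Metric Set Filter Topology Polynomial
open scoped ComplexConjugate

/-! ### Blaschke products and rational maps -/

/-- The Blaschke product of degree `m + 1` with zeros `0, a 0, …, a (m-1)` and value `1` at `1`. -/
noncomputable def bl {m : ℕ} (a : Fin m → ℂ) (z : ℂ) : ℂ :=
  z * ∏ j, ((z - a j) / (1 - conj (a j) * z) * ((1 - conj (a j)) / (1 - a j)))

/-- Admissible parameters. -/
def Par (m : ℕ) : Set (Fin m → ℂ) := {a | ∀ j, ‖a j‖ < 1}

/-- The parameter of `z ^ (m + 1)`. -/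
def pz (m : ℕ) : Fin m → ℂ := 0

/-- `f` is a rational map of degree `n` of the Riemann sphere. -/
def IsRat (n : ℕ) (f : OnePoint ℂ → OnePoint ℂ) : Prop :=
  Continuous f ∧ ∃ p q : ℂ[X], IsCoprime p q ∧ max p.natDegree q.natDegree = n ∧
    ∀ z : ℂ, q.eval z ≠ 0 → f (z : OnePoint ℂ) = ((p.eval z / q.eval z : ℂ) : OnePoint ℂ)

/-- The space of rational maps of degree `n`, with the topology of uniform convergence. -/
abbrev RatMap (n : ℕ) : Type := {f : C(OnePoint ℂ, OnePoint ℂ) // IsRat n f}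

/-- The underlying map of an element of `RatMap n`. -/
noncomputable def RatMap.fn {n : ℕ} (f : RatMap n) : OnePoint ℂ → OnePoint ℂ := f.1

/-! ### Marked Riemann maps and matings -/

/-- `φ` is injective and holomorphic on the punctured unit disk and `φ z = 1/z + o(1)` at `0`:
a normalised Riemann map of a simply connected neighbourhood of `∞`. -/
structure IsUnif (φ : ℂ → ℂ) : Prop where
  diff : DifferentiableOn ℂ φ (ball 0 1 \ {0})
  inj : InjOn φ (ball 0 1 \ {0})
  norm : Tendsto (fun z => φ z - 1 / z) (𝓝[≠] 0) (𝓝 0)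

/-- `φ` completed by `φ 0 = ∞`, with values in the Riemann sphere. -/
noncomputable def hat (φ : ℂ → ℂ) (z : ℂ) : OnePoint ℂ :=
  open Classical in if z = 0 then OnePoint.infty else (φ z : OnePoint ℂ)

/-- Weak quasisymmetry with constant `M`. The weakly quasisymmetric homeomorphisms of the plane
are the quasiconformal ones (up to orientation). -/
def WQS (M : ℝ) (H : ℂ → ℂ) : Prop :=
  ∀ x y z : ℂ, ‖x - y‖ ≤ ‖x - z‖ → ‖H x - H y‖ ≤ M * ‖H x - H z‖

/-- `f` is conjugate to `bl a` on the fully invariant basin `hat φ '' ball 0 1` of `∞`, and `φ` is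
the normalised marked Riemann map of this basin. -/
structure Cls {m : ℕ} (a : Fin m → ℂ) (f : OnePoint ℂ → OnePoint ℂ) (φ : ℂ → ℂ) : Prop where
  unif : IsUnif φ
  semi : ∀ z ∈ ball (0 : ℂ) 1, f (hat φ z) = hat φ (bl a z)
  back : ∀ x, f x ∈ hat φ '' ball 0 1 → x ∈ hat φ '' ball 0 1

/-- `f` is a mating of `bl a` (outside, Riemann map `φ`, marked by `φ 1`) and `bl b`
(inside, Riemann map `χ`), with a quasicircle as common boundary. -/
structure MateData {m : ℕ} (a b : Fin m → ℂ) (f : OnePoint ℂ → OnePoint ℂ) (φ χ : ℂ → ℂ) :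
    Prop where
  unif : IsUnif φ
  φcont : ContinuousOn φ (closedBall 0 1 \ {0})
  φinj : InjOn φ (closedBall 0 1 \ {0})
  χdiff : DifferentiableOn ℂ χ (ball 0 1)
  χcont : ContinuousOn χ (closedBall 0 1)
  χinj : InjOn χ (closedBall 0 1)
  bdry : φ '' sphere 0 1 = χ '' sphere 0 1
  disj : Disjoint (φ '' (ball 0 1 \ {0})) (χ '' closedBall 0 1)
  cover : φ '' (ball 0 1 \ {0}) ∪ χ '' closedBall 0 1 = univ
  one : φ 1 = χ 1
  semiφ : ∀ z ∈ ball (0 : ℂ) 1, f (hat φ z) = hat φ (bl a z)
  semiχ : ∀ z ∈ ball (0 : ℂ) 1, f (χ z : OnePoint ℂ) = (χ (bl b z) : OnePoint ℂ)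
  qcircle : ∃ (H : ℂ ≃ₜ ℂ) (M : ℝ), WQS M H ∧ H '' sphere 0 1 = φ '' sphere 0 1

/-- `f` is the mating of `bl a` and `bl b`. -/
def Mate {m : ℕ} (a b : Fin m → ℂ) (f : OnePoint ℂ → OnePoint ℂ) : Prop :=
  IsRat (m + 1) f ∧ ∃ φ χ : ℂ → ℂ, MateData a b f φ χ

/-! ### The slice `B(bl a)`, its closure and its boundary -/

/-- The slice `B(bl a)`. -/
def Slice {m : ℕ} (a : Fin m → ℂ) : Set (RatMap (m + 1)) :=
  {f | ∃ b ∈ Par m, Mate a b f.fn}

/-- Its closure in the space of rational maps of degree `m + 1`. -/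
def SliceCl {m : ℕ} (a : Fin m → ℂ) : Set (RatMap (m + 1)) := closure (Slice a)

/-- The boundary of the slice `B(bl a)` in the space of rational maps of degree `m + 1`. -/
abbrev Bdry {m : ℕ} (a : Fin m → ℂ) : Type :=
  {f : RatMap (m + 1) // f ∈ SliceCl a ∧ f ∉ Slice a}

/-- The inclusion of the boundary in the closure. -/
def bdIn {m : ℕ} (a : Fin m → ℂ) (x : Bdry a) : SliceCl a := ⟨x.1, x.2.1⟩

/-- The inclusion of the slice in its closure. -/
def slIn {m : ℕ} (a : Fin m → ℂ) (x : Slice a) : SliceCl a := ⟨x.1, subset_closure x.2⟩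

/-! ### Quasiconformal conjugacy and the quotients -/

/-- The extension of a homeomorphism of the plane to the sphere. -/
noncomputable def ext (H : ℂ ≃ₜ ℂ) (x : OnePoint ℂ) : OnePoint ℂ := H.onePointCongr x

/-- Marked quasiconformal conjugacy: a quasiconformal (= weakly quasisymmetric) homeomorphism `H`
of the plane conjugating `f` to `g`. In the Riemann maps of the basins of `∞` it is a
homeomorphism `η` of the closed unit disk; `H` preserves the orientation of the ideal circle
(`η` lifts to an increasing homeomorphism `u` of the line) and the marked point `1`. -/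
def QCC {m : ℕ} (a : Fin m → ℂ) (f g : OnePoint ℂ → OnePoint ℂ) : Prop :=
  ∃ (φ γ : ℂ → ℂ) (H η : ℂ ≃ₜ ℂ) (u : ℝ → ℝ) (M : ℝ), Cls a f φ ∧ Cls a g γ ∧ WQS M H ∧
    (∀ x, ext H (f x) = g (ext H x)) ∧ (∀ z, ‖η z‖ < 1 ↔ ‖z‖ < 1) ∧
    (∀ z ∈ ball (0 : ℂ) 1, ext H (hat φ z) = hat γ (η z)) ∧
    Continuous u ∧ StrictMono u ∧ (∀ t : ℝ, η (exp (t * I)) = exp (u t * I)) ∧ η 1 = 1

/-- Marked quasiconformal conjugacy of boundary points. -/
def BQ {m : ℕ} (a : Fin m → ℂ) (x y : Bdry a) : Prop := QCC a x.1.fn y.1.fn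

/-- The identification on the closure of the slice: points of the slice are identified only with
themselves, boundary points by `BQ`. -/
def ClRel {m : ℕ} (a : Fin m → ℂ) (x y : SliceCl a) : Prop :=
  x = y ∨ ∃ x' y' : Bdry a, bdIn a x' = x ∧ bdIn a y' = y ∧ BQ a x' y'

/-- The space `B(bl a)`. -/
def SpB {m : ℕ} (a : Fin m → ℂ) : Type := Slice a

instance topB {m : ℕ} (a : Fin m → ℂ) : TopologicalSpace (SpB a) :=
  inferInstanceAs (TopologicalSpace (Slice a))

/-- The space `∂(bl a)`: the boundary of the slice modulo `BQ`, with the quotient topology. -/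
def SpD {m : ℕ} (a : Fin m → ℂ) : Type := Quot (BQ a)

instance topD {m : ℕ} (a : Fin m → ℂ) : TopologicalSpace (SpD a) :=
  inferInstanceAs (TopologicalSpace (Quot (BQ a)))

/-- The space `B(bl a) ⊔ ∂(bl a)`: the closure of the slice modulo `ClRel`, with the quotient
topology. -/
def SpC {m : ℕ} (a : Fin m → ℂ) : Type := Quot (ClRel a)

instance topC {m : ℕ} (a : Fin m → ℂ) : TopologicalSpace (SpC a) :=
  inferInstanceAs (TopologicalSpace (Quot (ClRel a)))

/-- The element `x` of `B(bl a)` is the mating of `bl a` and `bl b`. -/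
def IsMate {m : ℕ} (a b : Fin m → ℂ) (x : SpB a) : Prop := Mate a b (Subtype.val x).fn

/-- The inclusion of `B(bl a)` in `B(bl a) ⊔ ∂(bl a)`. -/
def inB {m : ℕ} (a : Fin m → ℂ) (x : SpB a) : SpC a := Quot.mk (ClRel a) (slIn a x)

theorem inD_aux {m : ℕ} (a : Fin m → ℂ) (x y : Bdry a) (h : BQ a x y) :
    Quot.mk (ClRel a) (bdIn a x) = Quot.mk (ClRel a) (bdIn a y) :=
  Quot.sound (Or.inr ⟨x, y, rfl, rfl, h⟩)

/-- The inclusion of `∂(bl a)` in `B(bl a) ⊔ ∂(bl a)`. -/
def inD {m : ℕ} (a : Fin m → ℂ) : SpD a → SpC a :=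
  Quot.lift (fun x => Quot.mk (ClRel a) (bdIn a x)) (inD_aux a)

end Pool.Agent.BlMat
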