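import Pool.Agent.BlMat.Basic

set_option autoImplicit false

/-! Inverses and compositions of smooth quasiconformal maps. -/

namespace Pool.Agent.BlMat

open Complex Metric Set Filter Topology MeasureTheory
open scoped ComplexConjugate ContDiff

namespace D0

theorem smooth_symm {k : ℝ} {F : ℂ ≃ₜ ℂ} (hk : k < 1) (hF : SmoothQC k F) :
    ContDiff ℝ 1 (F.symm : ℂ → ℂ) := by
  have hdet : ∀ z, (fderiv ℝ F z).det ≠ 0 := fun z => (hF.det_pos hk z).ne'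
  refine Homeomorph.contDiff_symm F
    (f₀' := fun z => (fderiv ℝ F z).toContinuousLinearEquivOfDetNeZero (hdet z)) ?_ hF.smooth
  intro z
  rw [ContinuousLinearMap.coe_toContinuousLinearEquivOfDetNeZero]
  exact (hF.differentiable z).hasFDerivAt

theorem qc_symm {k : ℝ} {F : ℂ ≃ₜ ℂ} (hk : k < 1) (hF : SmoothQC k F) : SmoothQC k F.symm := by
  have hsm := smooth_symm hk hF
  have key : ∀ z, dz F.symm (F z) * dz F z + dzb F.symm (F z) * conj (dzb F z) = 1 ∧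
      dz F.symm (F z) * dzb F z + dzb F.symm (F z) * conj (dz F z) = 0 := by
    intro z
    have h := dz_comp (F := F.symm) (G := F) (z := z)
      ((hsm.differentiable (by norm_num)) _) (hF.differentiable z)
    have hid : (F.symm : ℂ → ℂ) ∘ F = fun w => w := by
      ext w; simp
    rw [hid] at h
    rw [← h.1, ← h.2]
    exact dz_id z
  have hne : ∀ z, dz F.symm (F z) ≠ 0 := by
    intro z h0
    obtain ⟨h1, h2⟩ := key z
    rw [h0, zero_mul, zero_add] at h1 h2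
    have h3 : conj (dz F z) ≠ 0 := by
      rw [Ne, map_eq_zero]; exact hF.ne z
    have h4 : dzb F.symm (F z) = 0 := (mul_eq_zero.mp h2).resolve_right h3
    rw [h4, zero_mul] at h1
    exact zero_ne_one h1
  refine ⟨hsm, ?_, ?_⟩
  · intro w
    have := hne (F.symm w)
    rwa [F.apply_symm_apply] at this
  · intro w
    obtain ⟨_, h2⟩ := key (F.symm w)
    rw [F.apply_symm_apply] at h2
    have h3 : dzb F.symm w * conj (dz F (F.symm w)) = -(dz F.symm w * dzb F (F.symm w)) := by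
      linear_combination h2
    have h4 := congrArg norm h3
    rw [norm_mul, norm_neg, norm_mul, RCLike.norm_conj] at h4
    have h5 := norm_pos_iff.mpr (hF.ne (F.symm w))
    have h6 := hF.dil (F.symm w)
    have h7 : ‖dzb F.symm w‖ * ‖dz F (F.symm w)‖ ≤
        (k * ‖dz F.symm w‖) * ‖dz F (F.symm w)‖ := by
      rw [h4]
      calc ‖dz F.symm w‖ * ‖dzb F (F.symm w)‖
          ≤ ‖dz F.symm w‖ * (k * ‖dz F (F.symm w)‖) := by gcongr
        _ = _ := by ring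
    exact le_of_mul_le_mul_right h7 h5

theorem norm_identity (a b c d : ℂ) :
    ‖c * b + d * conj a‖ ^ 2 =
      ‖c * a + d * conj b‖ ^ 2 - (‖a‖ ^ 2 - ‖b‖ ^ 2) * (‖c‖ ^ 2 - ‖d‖ ^ 2) := by
  simp only [← Complex.normSq_eq_norm_sq, normSq_apply, add_re, add_im, mul_re, mul_im,
    conj_re, conj_im]
  ring

theorem dil_comp {k : ℝ} (hk0 : 0 ≤ k) (hk1 : k < 1) {a b c d : ℂ} (hb : ‖b‖ ≤ k * ‖a‖)
    (hd : ‖d‖ ≤ k * ‖c‖) :
    ‖c * b + d * conj a‖ ≤ 2 * k / (1 + k ^ 2) * ‖c * a + d * conj b‖ := by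
  have hpos : 0 < 1 + k ^ 2 := by positivity
  have h1 : ‖c * a + d * conj b‖ ≤ (1 + k ^ 2) * (‖a‖ * ‖c‖) := by
    calc ‖c * a + d * conj b‖ ≤ ‖c * a‖ + ‖d * conj b‖ := norm_add_le _ _
      _ = ‖c‖ * ‖a‖ + ‖d‖ * ‖b‖ := by rw [norm_mul, norm_mul, RCLike.norm_conj]
      _ ≤ ‖c‖ * ‖a‖ + (k * ‖c‖) * (k * ‖a‖) := by gcongr
      _ = _ := by ring
  have ha2 : (1 - k ^ 2) * ‖a‖ ^ 2 ≤ ‖a‖ ^ 2 - ‖b‖ ^ 2 := by
    have : ‖b‖ ^ 2 ≤ (k * ‖a‖) ^ 2 := pow_le_pow_left₀ (norm_nonneg _) hb 2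
    nlinarith
  have hc2 : (1 - k ^ 2) * ‖c‖ ^ 2 ≤ ‖c‖ ^ 2 - ‖d‖ ^ 2 := by
    have : ‖d‖ ^ 2 ≤ (k * ‖c‖) ^ 2 := pow_le_pow_left₀ (norm_nonneg _) hd 2
    nlinarith
  have hk2 : 0 ≤ 1 - k ^ 2 := by nlinarith
  have h2 : ((1 - k ^ 2) * ‖a‖ ^ 2) * ((1 - k ^ 2) * ‖c‖ ^ 2) ≤
      (‖a‖ ^ 2 - ‖b‖ ^ 2) * (‖c‖ ^ 2 - ‖d‖ ^ 2) := by
    apply mul_le_mul ha2 hc2 (by positivity)
    exact le_trans (by positivity) ha2
  have h3 : ‖c * a + d * conj b‖ ^ 2 ≤ ((1 + k ^ 2) * (‖a‖ * ‖c‖)) ^ 2 :=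
    pow_le_pow_left₀ (norm_nonneg _) h1 2
  have hid := norm_identity a b c d
  apply le_of_sq_le_sq _ (by positivity)
  rw [hid, mul_pow, div_pow]
  have h4 : (1 - k ^ 2) ^ 2 / (1 + k ^ 2) ^ 2 * ‖c * a + d * conj b‖ ^ 2 ≤
      (‖a‖ ^ 2 - ‖b‖ ^ 2) * (‖c‖ ^ 2 - ‖d‖ ^ 2) := by
    calc (1 - k ^ 2) ^ 2 / (1 + k ^ 2) ^ 2 * ‖c * a + d * conj b‖ ^ 2
        ≤ (1 - k ^ 2) ^ 2 / (1 + k ^ 2) ^ 2 * ((1 + k ^ 2) * (‖a‖ * ‖c‖)) ^ 2 := by gcongr
      _ = ((1 - k ^ 2) * ‖a‖ ^ 2) * ((1 - k ^ 2) * ‖c‖ ^ 2) := by field_simp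
      _ ≤ _ := h2
  have h5 : (2 * k) ^ 2 / (1 + k ^ 2) ^ 2 = 1 - (1 - k ^ 2) ^ 2 / (1 + k ^ 2) ^ 2 := by
    field_simp
    ring
  rw [h5]
  linarith

end D0

theorem qcGroup : Stmt_QCGroup := by
  refine ⟨fun k F hk hF => D0.qc_symm hk hF, fun k hk => ?_⟩
  set k₀ : ℝ := max k 0 with hk₀
  have h0 : 0 ≤ k₀ := le_max_right _ _
  have h1 : k₀ < 1 := max_lt hk one_pos
  refine ⟨2 * k₀ / (1 + k₀ ^ 2), ?_, ?_⟩
  · rw [div_lt_one (by positivity)]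
    nlinarith [sq_pos_of_pos (show 0 < 1 - k₀ by linarith)]
  · intro F G hF hG
    have hFd : ∀ z, ‖dzb F z‖ ≤ k₀ * ‖dz F z‖ := fun z =>
      (hF.dil z).trans (mul_le_mul_of_nonneg_right (le_max_left _ _) (norm_nonneg _))
    have hGd : ∀ z, ‖dzb G z‖ ≤ k₀ * ‖dz G z‖ := fun z =>
      (hG.dil z).trans (mul_le_mul_of_nonneg_right (le_max_left _ _) (norm_nonneg _))
    have hcomp : ∀ z, dz (F.trans G) z = dz G (F z) * dz F z + dzb G (F z) * conj (dzb F z) ∧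
        dzb (F.trans G) z = dz G (F z) * dzb F z + dzb G (F z) * conj (dz F z) := by
      intro z
      exact dz_comp (F := G) (G := F) (z := z) (hG.differentiable _) (hF.differentiable z)
    refine ⟨?_, ?_, ?_⟩
    · exact hG.smooth.comp hF.smooth
    · intro z hz
      rw [(hcomp z).1] at hz
      have h3 : ‖dz G (F z) * dz F z‖ = ‖dzb G (F z) * conj (dzb F z)‖ := by
        rw [eq_neg_of_add_eq_zero_left hz, norm_neg]
      rw [norm_mul, norm_mul, RCLike.norm_conj] at h3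
      have p1 := norm_pos_iff.mpr (hF.ne z)
      have p2 := norm_pos_iff.mpr (hG.ne (F z))
      have h4 : ‖dzb G (F z)‖ * ‖dzb F z‖ ≤ (k₀ * ‖dz G (F z)‖) * (k₀ * ‖dz F z‖) := by
        gcongr
        · exact hGd _
        · exact hFd _
      have p3 : 0 < ‖dz G (F z)‖ * ‖dz F z‖ := mul_pos p2 p1
      have h5 : k₀ * k₀ < 1 := by nlinarith
      nlinarith
    · intro z
      rw [(hcomp z).1, (hcomp z).2]
      exact D0.dil_comp h0 h1 (hFd z) (hGd (F z))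

end Pool.Agent.BlMat
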