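import Pool.Agent.BlMat.Basic

set_option autoImplicit false

/-!
Block D1: length-area.  Smooth quasiconformal maps of the plane are uniformly weakly
quasisymmetric.
-/

namespace Pool.Agent.BlMat.D1

open Complex Metric Set Filter Topology MeasureTheory
open scoped ComplexConjugate ContDiff ENNReal

/-- The potential `log ((|w-w0|^2+l^2)/(|w-w0|^2+L^2))`. -/
noncomputable def pot (w0 : ℂ) (l L : ℝ) (w : ℂ) : ℝ :=
  Real.log (‖w - w0‖ ^ 2 + l ^ 2) - Real.log (‖w - w0‖ ^ 2 + L ^ 2)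

/-- Length of the gradient of `pot`. -/
noncomputable def grd (l L r : ℝ) : ℝ :=
  2 * r * (L ^ 2 - l ^ 2) / ((r ^ 2 + l ^ 2) * (r ^ 2 + L ^ 2))

theorem contDiff_pot (w0 : ℂ) {l L : ℝ} (hl : 0 < l) (hL : 0 < L) :
    ContDiff ℝ 1 (pot w0 l L) := by
  unfold pot
  have h : ContDiff ℝ 1 (fun w : ℂ => ‖w - w0‖ ^ 2) :=
    (contDiff_id.sub contDiff_const).norm_sq ℝ
  refine ContDiff.sub (ContDiff.log (h.add contDiff_const) ?_)
    (ContDiff.log (h.add contDiff_const) ?_)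
  · intro x; positivity
  · intro x; positivity

theorem norm_fderiv_pot (w0 : ℂ) {l L : ℝ} (hl : 0 < l) (hL : l ≤ L) (w : ℂ) :
    ‖fderiv ℝ (pot w0 l L) w‖ ≤ grd l L ‖w - w0‖ := by
  have hL0 : 0 < L := lt_of_lt_of_le hl hL
  have h : HasFDerivAt (fun w : ℂ => ‖w - w0‖ ^ 2) (2 • (innerSL ℝ (w - w0))) w := by
    have h1 := (hasStrictFDerivAt_norm_sq (w - w0)).hasFDerivAt
    have h2 : HasFDerivAt (fun w : ℂ => w - w0) (ContinuousLinearMap.id ℝ ℂ) w :=
      (hasFDerivAt_id w).sub_const w0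
    have h3 := h1.comp w h2
    rw [ContinuousLinearMap.comp_id] at h3
    exact h3
  have h1 : 0 < ‖w - w0‖ ^ 2 + l ^ 2 := by positivity
  have h2 : 0 < ‖w - w0‖ ^ 2 + L ^ 2 := by positivity
  have h3 : HasFDerivAt (pot w0 l L)
      ((‖w - w0‖ ^ 2 + l ^ 2)⁻¹ • (2 • (innerSL ℝ (w - w0))) -
        (‖w - w0‖ ^ 2 + L ^ 2)⁻¹ • (2 • (innerSL ℝ (w - w0)))) w :=
    ((h.add_const (l ^ 2)).log h1.ne').sub ((h.add_const (L ^ 2)).log h2.ne')
  rw [h3.fderiv, ← sub_smul, norm_smul]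
  have h4 : ‖(2 • (innerSL ℝ (w - w0)) : ℂ →L[ℝ] ℝ)‖ ≤ 2 * ‖w - w0‖ := by
    refine (norm_nsmul_le).trans ?_
    rw [innerSL_apply_norm]
    norm_num
  have h5 : 0 ≤ (‖w - w0‖ ^ 2 + l ^ 2)⁻¹ - (‖w - w0‖ ^ 2 + L ^ 2)⁻¹ := by
    rw [sub_nonneg]
    apply inv_anti₀ h1
    nlinarith
  rw [Real.norm_of_nonneg h5]
  refine (mul_le_mul_of_nonneg_left h4 h5).trans (le_of_eq ?_)
  unfold grd
  field_simp
  ring

theorem grd_nonneg {l L r : ℝ} (hl : 0 < l) (hL : l ≤ L) (hr : 0 ≤ r) : 0 ≤ grd l L r := by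
  unfold grd
  have : 0 ≤ L ^ 2 - l ^ 2 := by nlinarith
  positivity

theorem mul_grd_le {l L r : ℝ} (hl : 0 < l) (hL : l ≤ L) : r * grd l L r ≤ 2 := by
  unfold grd
  have hL0 : 0 < L := lt_of_lt_of_le hl hL
  have h1 : 0 < r ^ 2 + l ^ 2 := by positivity
  have h2 : 0 < r ^ 2 + L ^ 2 := by positivity
  rw [← mul_div_assoc, div_le_iff₀ (by positivity)]
  have h3 : 0 ≤ L ^ 2 - l ^ 2 := by nlinarith
  nlinarith [sq_nonneg r, mul_nonneg (sq_nonneg r) (sq_nonneg l), sq_nonneg (r ^ 2),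
    mul_nonneg (sq_nonneg l) (sq_nonneg L)]

theorem hasDerivAt_pot {l L : ℝ} (hl : 0 < l) (hL : l ≤ L) (r : ℝ) :
    HasDerivAt (fun r : ℝ => Real.log (r ^ 2 + l ^ 2) - Real.log (r ^ 2 + L ^ 2))
      (grd l L r) r := by
  have hL0 : 0 < L := lt_of_lt_of_le hl hL
  have h1 : 0 < r ^ 2 + l ^ 2 := by positivity
  have h2 : 0 < r ^ 2 + L ^ 2 := by positivity
  have h0 : HasDerivAt (fun r : ℝ => r ^ 2) (2 * r) r := by
    simpa using hasDerivAt_pow 2 r
  have h3 := ((h0.add_const (l ^ 2)).log h1.ne').sub ((h0.add_const (L ^ 2)).log h2.ne')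
  refine h3.congr_deriv ?_
  unfold grd
  field_simp
  ring

theorem tendsto_pot {l L : ℝ} (hl : 0 < l) (hL : l ≤ L) :
    Tendsto (fun r : ℝ => Real.log (r ^ 2 + l ^ 2) - Real.log (r ^ 2 + L ^ 2)) atTop (𝓝 0) := by
  have hL0 : 0 < L := lt_of_lt_of_le hl hL
  have h1 : Tendsto (fun r : ℝ => (r ^ 2 + l ^ 2) / (r ^ 2 + L ^ 2)) atTop (𝓝 1) := by
    have h2 : Tendsto (fun r : ℝ => (L ^ 2 - l ^ 2) / (r ^ 2 + L ^ 2)) atTop (𝓝 0) := by
      refine Tendsto.div_atTop tendsto_const_nhds ?_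
      exact tendsto_atTop_add_const_right _ _ (tendsto_pow_atTop two_ne_zero)
    have h3 : Tendsto (fun r : ℝ => 1 - (L ^ 2 - l ^ 2) / (r ^ 2 + L ^ 2)) atTop (𝓝 (1 - 0)) :=
      tendsto_const_nhds.sub h2
    rw [sub_zero] at h3
    refine h3.congr ?_
    intro r
    have : 0 < r ^ 2 + L ^ 2 := by positivity
    field_simp
    ring
  have h4 := (Real.continuousAt_log (one_ne_zero)).tendsto.comp h1
  rw [Real.log_one] at h4
  refine h4.congr ?_
  intro r
  have h5 : 0 < r ^ 2 + l ^ 2 := by positivity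
  have h6 : 0 < r ^ 2 + L ^ 2 := by positivity
  simp only [Function.comp_apply]
  rw [Real.log_div h5.ne' h6.ne']

theorem lintegral_Ioi_grd {l L : ℝ} (hl : 0 < l) (hL : l ≤ L) :
    ∫⁻ r in Ioi (0 : ℝ), ENNReal.ofReal (grd l L r) = ENNReal.ofReal (2 * Real.log (L / l)) := by
  have hL0 : 0 < L := lt_of_lt_of_le hl hL
  have hc := (hasDerivAt_pot hl hL 0).continuousAt.continuousWithinAt (s := Ici 0)
  have hint : IntegrableOn (grd l L) (Ioi 0) :=
    integrableOn_Ioi_deriv_of_nonneg hc (fun r _ => hasDerivAt_pot hl hL r)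
      (fun r hr => grd_nonneg hl hL (le_of_lt hr)) (tendsto_pot hl hL)
  have hval := integral_Ioi_of_hasDerivAt_of_nonneg hc (fun r _ => hasDerivAt_pot hl hL r)
      (fun r hr => grd_nonneg hl hL (le_of_lt hr)) (tendsto_pot hl hL)
  rw [← ofReal_integral_eq_lintegral_ofReal hint, hval]
  · congr 1
    rw [Real.log_div hL0.ne' hl.ne']
    simp [Real.log_pow]
    ring
  · rw [Filter.EventuallyLE, ae_restrict_iff' measurableSet_Ioi]
    exact Eventually.of_forall (fun r hr => grd_nonneg hl hL (le_of_lt hr))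

theorem lintegral_grd_sq (w0 : ℂ) {l L : ℝ} (hl : 0 < l) (hL : l ≤ L) :
    ∫⁻ w : ℂ, ENNReal.ofReal (grd l L ‖w - w0‖ ^ 2) ≤
      ENNReal.ofReal (8 * Real.pi * Real.log (L / l)) := by
  rw [lintegral_sub_right_eq_self (fun w : ℂ => ENNReal.ofReal (grd l L ‖w‖ ^ 2)) w0,
    ← Complex.lintegral_comp_polarCoord_symm]
  rw [polarCoord_target]
  have h1 : ∫⁻ p in Ioi (0 : ℝ) ×ˢ Ioo (-Real.pi) Real.pi,
      ENNReal.ofReal p.1 • ENNReal.ofReal (grd l L ‖Complex.polarCoord.symm p‖ ^ 2) ≤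
      ∫⁻ p in Ioi (0 : ℝ) ×ˢ Ioo (-Real.pi) Real.pi, ENNReal.ofReal (2 * grd l L p.1) := by
    refine setLIntegral_mono' (measurableSet_Ioi.prod measurableSet_Ioo) ?_
    rintro p ⟨hp, -⟩
    have hp' : 0 < p.1 := hp
    rw [Complex.norm_polarCoord_symm, abs_of_pos hp', smul_eq_mul,
      ← ENNReal.ofReal_mul hp'.le]
    apply ENNReal.ofReal_le_ofReal
    have h2 := mul_grd_le (r := p.1) hl hL
    have h3 := grd_nonneg hl hL hp'.le
    nlinarith
  refine h1.trans (le_of_eq ?_)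
  have hm : Measurable (fun r : ℝ => ENNReal.ofReal (2 * grd l L r)) := by
    unfold grd
    fun_prop
  have h2 : (volume : Measure (ℝ × ℝ)).restrict (Ioi (0 : ℝ) ×ˢ Ioo (-Real.pi) Real.pi) =
      (volume.restrict (Ioi (0 : ℝ))).prod (volume.restrict (Ioo (-Real.pi) Real.pi)) := by
    rw [Measure.volume_eq_prod, Measure.prod_restrict]
  have hm2 : Measurable (fun p : ℝ × ℝ => ENNReal.ofReal (2 * grd l L p.1)) :=
    hm.comp measurable_fst
  rw [h2, lintegral_prod _ hm2.aemeasurable]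
  simp only [lintegral_const, Measure.restrict_apply_univ, Real.volume_Ioo]
  rw [lintegral_mul_const _ hm]
  have h3 : ∀ r : ℝ, ENNReal.ofReal (2 * grd l L r) = ENNReal.ofReal 2 * ENNReal.ofReal (grd l L r) :=
    fun r => ENNReal.ofReal_mul (by norm_num)
  simp only [h3]
  have hm' : Measurable (fun r : ℝ => ENNReal.ofReal (grd l L r)) := by
    unfold grd
    fun_prop
  rw [lintegral_const_mul _ hm', lintegral_Ioi_grd hl hL]
  have hlog : 0 ≤ Real.log (L / l) := Real.log_nonneg (by rw [le_div_iff₀ hl]; linarith)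
  rw [← ENNReal.ofReal_mul (by norm_num), ← ENNReal.ofReal_mul (by positivity)]
  congr 1
  ring


/-! ### Oscillation on circles -/

/-- Length of `u` over the circle. -/
noncomputable def vlen (u : ℂ → ℝ) (c : ℂ) (t : ℝ) : ℝ :=
  ∫ θ in (-Real.pi)..Real.pi, t * ‖fderiv ℝ u (c + t * Complex.exp (θ * I))‖

theorem osc {u : ℂ → ℝ} (hu : ContDiff ℝ 1 u) (c : ℂ) {t : ℝ} (ht : 0 ≤ t) {p q : ℂ}
    (hp : ‖p - c‖ = t) (hq : ‖q - c‖ = t) : u q - u p ≤ vlen u c t := by
  have hpar : ∀ a : ℂ, ‖a - c‖ = t → c + t * Complex.exp ((a - c).arg * I) = a := by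
    intro a ha
    rw [← ha, Complex.norm_mul_exp_arg_mul_I]
    ring
  set γ : ℝ → ℂ := fun θ => c + t * Complex.exp (θ * I) with hγ
  have hγd : ∀ θ : ℝ, HasDerivAt γ (t * (Complex.exp (θ * I) * I)) θ := by
    intro θ
    have h1 : HasDerivAt (fun θ : ℝ => (θ : ℂ) * I) (1 * I) θ :=
      (Complex.ofRealCLM.hasDerivAt (x := θ)).mul_const I
    rw [one_mul] at h1
    exact (h1.cexp.const_mul (t : ℂ)).const_add c
  have hud : ∀ θ : ℝ, HasDerivAt (fun θ => u (γ θ))
      (fderiv ℝ u (γ θ) (t * (Complex.exp (θ * I) * I))) θ := by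
    intro θ
    exact ((hu.differentiable (by norm_num) (γ θ)).hasFDerivAt.comp_hasDerivAt θ (hγd θ))
  have hγc : Continuous γ := by rw [hγ]; fun_prop
  have hfc : Continuous (fun θ : ℝ => fderiv ℝ u (γ θ)) :=
    (hu.continuous_fderiv (by norm_num)).comp hγc
  have hdc : Continuous (fun θ : ℝ => fderiv ℝ u (γ θ) (t * (Complex.exp (θ * I) * I))) := by
    fun_prop
  have hbc : Continuous (fun θ : ℝ => t * ‖fderiv ℝ u (γ θ)‖) := by fun_prop
  have hFTC := intervalIntegral.integral_eq_sub_of_hasDerivAt (a := (p - c).arg)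
    (b := (q - c).arg) (fun θ _ => hud θ) (hdc.intervalIntegrable _ _)
  have e1 : γ (p - c).arg = p := hpar p hp
  have e2 : γ (q - c).arg = q := hpar q hq
  simp only [e1, e2] at hFTC
  rw [← hFTC]
  have hb : ∀ θ : ℝ, ‖fderiv ℝ u (γ θ) (t * (Complex.exp (θ * I) * I))‖ ≤
      t * ‖fderiv ℝ u (γ θ)‖ := by
    intro θ
    refine ((fderiv ℝ u (γ θ)).le_opNorm _).trans (le_of_eq ?_)
    rw [norm_mul, norm_mul, Complex.norm_exp_ofReal_mul_I, Complex.norm_real,
      Real.norm_of_nonneg ht]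
    simp
    ring
  have hsub : Set.uIoc (p - c).arg (q - c).arg ⊆ Set.uIoc (-Real.pi) Real.pi := by
    rw [Set.uIoc_of_le (by linarith [Real.pi_pos] : -Real.pi ≤ Real.pi)]
    intro θ hθ
    rw [Set.mem_uIoc] at hθ
    have a1 := Complex.arg_mem_Ioc (p - c)
    have a2 := Complex.arg_mem_Ioc (q - c)
    rcases hθ with hθ | hθ
    · exact ⟨a1.1.trans hθ.1, hθ.2.trans a2.2⟩
    · exact ⟨a2.1.trans hθ.1, hθ.2.trans a1.2⟩
  calc ∫ θ in (p - c).arg..(q - c).arg, fderiv ℝ u (γ θ) (t * (Complex.exp (θ * I) * I))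
      ≤ |∫ θ in (p - c).arg..(q - c).arg, ‖fderiv ℝ u (γ θ) (t * (Complex.exp (θ * I) * I))‖| :=
        (le_abs_self _).trans ((Real.norm_eq_abs _).symm.le.trans
          intervalIntegral.norm_integral_le_abs_integral_norm)
    _ ≤ |∫ θ in (-Real.pi)..Real.pi, ‖fderiv ℝ u (γ θ) (t * (Complex.exp (θ * I) * I))‖| := by
        apply intervalIntegral.abs_integral_mono_interval hsub
        · exact Eventually.of_forall (fun θ => norm_nonneg _)
        · exact hdc.norm.intervalIntegrable _ _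
    _ = ∫ θ in (-Real.pi)..Real.pi, ‖fderiv ℝ u (γ θ) (t * (Complex.exp (θ * I) * I))‖ := by
        apply abs_of_nonneg
        apply intervalIntegral.integral_nonneg (by linarith [Real.pi_pos])
        intro θ _
        exact norm_nonneg _
    _ ≤ ∫ θ in (-Real.pi)..Real.pi, t * ‖fderiv ℝ u (γ θ)‖ := by
        apply intervalIntegral.integral_mono_on (by linarith [Real.pi_pos])
          (hdc.norm.intervalIntegrable _ _) (hbc.intervalIntegrable _ _)
        intro θ _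
        exact hb θ
    _ = vlen u c t := rfl

/-- Cauchy-Schwarz on the circle. -/
theorem vlen_sq {u : ℂ → ℝ} (hu : ContDiff ℝ 1 u) (c : ℂ) (t : ℝ) :
    vlen u c t ^ 2 ≤ 2 * Real.pi * t *
      ∫ θ in (-Real.pi)..Real.pi, t * ‖fderiv ℝ u (c + t * Complex.exp (θ * I))‖ ^ 2 := by
  have hπ := Real.pi_pos
  have hγc : Continuous (fun θ : ℝ => c + t * Complex.exp (θ * I)) := by fun_prop
  have hfc : Continuous (fun θ : ℝ => ‖fderiv ℝ u (c + t * Complex.exp (θ * I))‖) :=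
    ((hu.continuous_fderiv (by norm_num)).comp hγc).norm
  set f : ℝ → ℝ := fun θ => ‖fderiv ℝ u (c + t * Complex.exp (θ * I))‖ with hf
  set A := ∫ θ in (-Real.pi)..Real.pi, f θ with hA
  set B := ∫ θ in (-Real.pi)..Real.pi, f θ ^ 2 with hB
  have h1 : A ^ 2 ≤ 2 * Real.pi * B := by
    have h2 : 0 ≤ ∫ θ in (-Real.pi)..Real.pi, (f θ - A / (2 * Real.pi)) ^ 2 := by
      apply intervalIntegral.integral_nonneg (by linarith)
      intro θ _
      positivity
    have h3 : ∫ θ in (-Real.pi)..Real.pi, (f θ - A / (2 * Real.pi)) ^ 2 =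
        B - 2 * (A / (2 * Real.pi)) * A + (A / (2 * Real.pi)) ^ 2 * (2 * Real.pi) := by
      have h4 : ∀ θ, (f θ - A / (2 * Real.pi)) ^ 2 =
          f θ ^ 2 - 2 * (A / (2 * Real.pi)) * f θ + (A / (2 * Real.pi)) ^ 2 := by
        intro θ; ring
      simp only [h4]
      rw [intervalIntegral.integral_add, intervalIntegral.integral_sub,
        intervalIntegral.integral_const_mul, intervalIntegral.integral_const]
      · rw [← hA, ← hB]
        simp only [smul_eq_mul]
        ring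
      · exact (hfc.pow 2).intervalIntegrable _ _
      · exact (hfc.const_mul _).intervalIntegrable _ _
      · exact ((hfc.pow 2).sub (hfc.const_mul _)).intervalIntegrable _ _
      · exact continuous_const.intervalIntegrable _ _
    rw [h3] at h2
    have h5 : B - 2 * (A / (2 * Real.pi)) * A + (A / (2 * Real.pi)) ^ 2 * (2 * Real.pi) =
        B - A ^ 2 / (2 * Real.pi) := by
      field_simp
      ring
    rw [h5, sub_nonneg, div_le_iff₀ (by positivity)] at h2
    linarith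
  have h6 : vlen u c t = t * A := by
    unfold vlen
    rw [hA, ← intervalIntegral.integral_const_mul]
  have h7 : ∫ θ in (-Real.pi)..Real.pi, t * ‖fderiv ℝ u (c + t * Complex.exp (θ * I))‖ ^ 2 =
      t * B := by
    rw [hB, ← intervalIntegral.integral_const_mul]
  rw [h6, h7]
  have h8 : 0 ≤ t ^ 2 := sq_nonneg t
  nlinarith [mul_le_mul_of_nonneg_left h1 h8]

/-- Energy of `u`. -/
noncomputable def energy (u : ℂ → ℝ) : ℝ≥0∞ :=
  ∫⁻ p : ℂ, ENNReal.ofReal (‖fderiv ℝ u p‖ ^ 2)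

theorem energy_annulus {u : ℂ → ℝ} (hu : ContDiff ℝ 1 u) (c : ℂ) {a b : ℝ} (ha : 0 ≤ a) :
    ∫⁻ t in Ioo a b, ENNReal.ofReal
      (∫ θ in (-Real.pi)..Real.pi, t * ‖fderiv ℝ u (c + t * Complex.exp (θ * I))‖ ^ 2) ≤
      energy u := by
  have hfd : Continuous (fun p : ℂ => fderiv ℝ u p) := hu.continuous_fderiv (by norm_num)
  have h1 : energy u = ∫⁻ p in Ioi (0 : ℝ) ×ˢ Ioo (-Real.pi) Real.pi,
      ENNReal.ofReal p.1 • ENNReal.ofReal (‖fderiv ℝ u (c + Complex.polarCoord.symm p)‖ ^ 2) := by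
    unfold energy
    rw [← lintegral_add_left_eq_self (fun p : ℂ => ENNReal.ofReal (‖fderiv ℝ u p‖ ^ 2)) c,
      ← Complex.lintegral_comp_polarCoord_symm, polarCoord_target]
  rw [h1]
  have hcont : Continuous (fun p : ℝ × ℝ =>
      p.1 * ‖fderiv ℝ u (c + p.1 * Complex.exp (p.2 * I))‖ ^ 2) := by
    have : Continuous (fun p : ℝ × ℝ => fderiv ℝ u (c + p.1 * Complex.exp (p.2 * I))) :=
      hfd.comp (by fun_prop)
    fun_prop
  have h2 : ∫⁻ p in Ioo a b ×ˢ Ioo (-Real.pi) Real.pi,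
      ENNReal.ofReal (p.1 * ‖fderiv ℝ u (c + p.1 * Complex.exp (p.2 * I))‖ ^ 2) ≤
      ∫⁻ p in Ioi (0 : ℝ) ×ˢ Ioo (-Real.pi) Real.pi,
      ENNReal.ofReal p.1 • ENNReal.ofReal (‖fderiv ℝ u (c + Complex.polarCoord.symm p)‖ ^ 2) := by
    refine (lintegral_mono_set (t := Ioi (0 : ℝ) ×ˢ Ioo (-Real.pi) Real.pi) ?_).trans ?_
    · rintro p ⟨h, h'⟩
      exact ⟨ha.trans_lt h.1, h'⟩
    · refine setLIntegral_mono' (measurableSet_Ioi.prod measurableSet_Ioo) ?_
      rintro p ⟨hp, -⟩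
      have hp' : 0 < p.1 := hp
      rw [smul_eq_mul, ← ENNReal.ofReal_mul hp'.le, Complex.polarCoord_symm_apply]
      apply le_of_eq
      congr 5
      rw [Complex.exp_mul_I]
      simp
  refine le_trans (le_of_eq ?_) h2
  have h3 : (volume : Measure (ℝ × ℝ)).restrict (Ioo a b ×ˢ Ioo (-Real.pi) Real.pi) =
      (volume.restrict (Ioo a b)).prod (volume.restrict (Ioo (-Real.pi) Real.pi)) := by
    rw [Measure.volume_eq_prod, Measure.prod_restrict]
  rw [h3, lintegral_prod _ (by fun_prop)]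
  refine setLIntegral_congr_fun measurableSet_Ioo ?_
  intro t ht
  have ht0 : 0 ≤ t := ha.trans ht.1.le
  have hc2 : Continuous (fun θ : ℝ => t * ‖fderiv ℝ u (c + t * Complex.exp (θ * I))‖ ^ 2) :=
    hcont.comp (by fun_prop : Continuous (fun θ : ℝ => (t, θ)))
  simp only
  rw [← ofReal_integral_eq_lintegral_ofReal]
  · rw [intervalIntegral.integral_of_le (by linarith [Real.pi_pos]),
      integral_Ioc_eq_integral_Ioo]
  · exact (hc2.integrableOn_Icc (a := -Real.pi) (b := Real.pi)).mono_set Ioo_subset_Icc_self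
  · exact Eventually.of_forall (fun θ => by positivity)

/-- Change of variables. -/
theorem energy_comp_le {k : ℝ} (hk0 : 0 ≤ k) (hk : k < 1) {F : ℂ ≃ₜ ℂ} (hF : SmoothQC k F)
    {U : ℂ → ℝ} (hU : ContDiff ℝ 1 U) :
    energy (U ∘ F) ≤ ENNReal.ofReal ((1 + k) / (1 - k)) * energy U := by
  have hFd := hF.differentiable
  have hcv := lintegral_image_eq_lintegral_abs_det_fderiv_mul (μ := volume) MeasurableSet.univ
    (fun x _ => (hFd x).hasFDerivAt.hasFDerivWithinAt) (F.injective.injOn (s := univ))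
    (fun p => ENNReal.ofReal (‖fderiv ℝ U p‖ ^ 2))
  rw [image_univ, F.surjective.range_eq, setLIntegral_univ, setLIntegral_univ] at hcv
  have hm : Measurable (fun p : ℂ => ENNReal.ofReal |(fderiv ℝ F p).det| *
      ENNReal.ofReal (‖fderiv ℝ U (F p)‖ ^ 2)) := by
    have h1 : Continuous (fun p : ℂ => fderiv ℝ F p) := hF.smooth.continuous_fderiv (by norm_num)
    have h2 : Continuous (fun p : ℂ => fderiv ℝ U (F p)) :=
      (hU.continuous_fderiv (by norm_num)).comp F.continuous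
    have h3 : Continuous (fun p : ℂ => (fderiv ℝ F p).det) :=
      ContinuousLinearMap.continuous_det.comp h1
    have h4 : Measurable (fun p : ℂ => ENNReal.ofReal |(fderiv ℝ F p).det|) :=
      ENNReal.measurable_ofReal.comp h3.abs.measurable
    have h5 : Measurable (fun p : ℂ => ENNReal.ofReal (‖fderiv ℝ U (F p)‖ ^ 2)) :=
      ENNReal.measurable_ofReal.comp (h2.norm.pow 2).measurable
    exact h4.mul h5
  unfold energy
  rw [hcv, ← lintegral_const_mul _ hm]
  apply lintegral_mono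
  intro p
  simp only
  have hdet := hF.det_pos hk p
  rw [abs_of_pos hdet, ← ENNReal.ofReal_mul hdet.le, ← ENNReal.ofReal_mul (by
    apply div_nonneg <;> linarith)]
  apply ENNReal.ofReal_le_ofReal
  have h1 : ‖fderiv ℝ (U ∘ F) p‖ ≤ ‖fderiv ℝ U (F p)‖ * ‖fderiv ℝ F p‖ := by
    rw [fderiv_comp p (hU.differentiable (by norm_num) _) (hFd p)]
    exact ContinuousLinearMap.opNorm_comp_le _ _
  have h2 : ‖fderiv ℝ F p‖ ^ 2 ≤ (1 + k) / (1 - k) * (fderiv ℝ F p).det := by
    rw [det_fderiv]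
    have h3 := norm_fderiv_le (F : ℂ → ℂ) p
    have h4 := hF.dil p
    have h5 : 0 < 1 - k := by linarith
    rw [div_mul_eq_mul_div, le_div_iff₀ h5]
    set a := ‖dz F p‖
    set b := ‖dzb F p‖
    have ha : 0 ≤ a := norm_nonneg _
    have hb : 0 ≤ b := norm_nonneg _
    have h6 : ‖fderiv ℝ F p‖ ^ 2 ≤ (a + b) ^ 2 := by
      apply pow_le_pow_left₀ (norm_nonneg _) h3
    have h7 : (a + b) * (1 - k) ≤ (1 + k) * (a - b) := by nlinarith
    calc ‖fderiv ℝ F p‖ ^ 2 * (1 - k) ≤ (a + b) ^ 2 * (1 - k) :=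
          mul_le_mul_of_nonneg_right h6 h5.le
      _ = (a + b) * ((a + b) * (1 - k)) := by ring
      _ ≤ (a + b) * ((1 + k) * (a - b)) := by
          apply mul_le_mul_of_nonneg_left h7 (by linarith)
      _ = (1 + k) * (a ^ 2 - b ^ 2) := by ring
  calc ‖fderiv ℝ (U ∘ F) p‖ ^ 2 ≤ (‖fderiv ℝ U (F p)‖ * ‖fderiv ℝ F p‖) ^ 2 :=
        pow_le_pow_left₀ (norm_nonneg _) h1 2
    _ = ‖fderiv ℝ U (F p)‖ ^ 2 * ‖fderiv ℝ F p‖ ^ 2 := by ring
    _ ≤ ‖fderiv ℝ U (F p)‖ ^ 2 * ((1 + k) / (1 - k) * (fderiv ℝ F p).det) :=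
        mul_le_mul_of_nonneg_left h2 (sq_nonneg _)
    _ = (1 + k) / (1 - k) * ((fderiv ℝ F p).det * ‖fderiv ℝ U (F p)‖ ^ 2) := by ring

theorem energy_pot (w0 : ℂ) {l L : ℝ} (hl : 0 < l) (hL : l ≤ L) :
    energy (pot w0 l L) ≤ ENNReal.ofReal (8 * Real.pi * Real.log (L / l)) := by
  refine le_trans ?_ (lintegral_grd_sq w0 hl hL)
  apply lintegral_mono
  intro p
  apply ENNReal.ofReal_le_ofReal
  exact pow_le_pow_left₀ (norm_nonneg _) (norm_fderiv_pot w0 hl hL p) 2

/-- Two circles of the same radius meet. -/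
theorem circles_meet {x y : ℂ} {t : ℝ} (hxy : x ≠ y) (ht : ‖x - y‖ ≤ 2 * t) :
    ∃ w : ℂ, ‖w - x‖ = t ∧ ‖w - y‖ = t := by
  have hd : 0 < ‖x - y‖ := norm_pos_iff.mpr (sub_ne_zero.mpr hxy)
  have ht0 : 0 < t := by linarith
  set τ : ℝ := Real.sqrt (t ^ 2 / ‖x - y‖ ^ 2 - 1 / 4) with hτ
  have hnn : 0 ≤ t ^ 2 / ‖x - y‖ ^ 2 - 1 / 4 := by
    rw [sub_nonneg, div_le_div_iff₀ (by norm_num) (by positivity)]
    nlinarith
  have hτ2 : τ ^ 2 = t ^ 2 / ‖x - y‖ ^ 2 - 1 / 4 := Real.sq_sqrt hnn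
  have key : ∀ s : ℝ, s ^ 2 = 1 / 4 → ‖(x - y) * ((s : ℂ) + τ * I)‖ = t := by
    intro s hs
    have h1 : ‖(s : ℂ) + τ * I‖ ^ 2 = s ^ 2 + τ ^ 2 := by
      rw [← Complex.normSq_eq_norm_sq, Complex.normSq_add_mul_I]
    have h2 : ‖(x - y) * ((s : ℂ) + τ * I)‖ ^ 2 = t ^ 2 := by
      rw [norm_mul, mul_pow, h1, hs, hτ2]
      field_simp
      ring
    exact (pow_left_inj₀ (norm_nonneg _) ht0.le two_ne_zero).mp h2
  refine ⟨(x + y) / 2 + (x - y) * (τ * I), ?_, ?_⟩
  · have h := key (-1 / 2) (by norm_num)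
    rw [← h]
    congr 1
    push_cast
    ring
  · have h := key (1 / 2) (by norm_num)
    rw [← h]
    congr 1
    push_cast
    ring

/-- A circle about `x` of radius less than `|z - x|` meets `{|F - F x| ≤ |F z - F x|}`. -/
theorem meet_inner (F : ℂ ≃ₜ ℂ) {x z : ℂ} {t : ℝ} (ht : 0 ≤ t) (htz : t ≤ ‖z - x‖) :
    ∃ p : ℂ, ‖p - x‖ = t ∧ ‖F p - F x‖ ≤ ‖F z - F x‖ := by
  set g : ℝ → ℝ := fun s => ‖F.symm (F x + s * (F z - F x)) - x‖ with hg
  have hgc : Continuous g := by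
    rw [hg]
    have := F.symm.continuous
    fun_prop
  have h0 : g 0 = 0 := by simp [hg]
  have h1 : g 1 = ‖z - x‖ := by simp [hg]
  have hmem : t ∈ Icc (g 0) (g 1) := by rw [h0, h1]; exact ⟨ht, htz⟩
  obtain ⟨s, hs, hst⟩ := intermediate_value_Icc (zero_le_one) hgc.continuousOn hmem
  refine ⟨F.symm (F x + s * (F z - F x)), hst, ?_⟩
  rw [F.apply_symm_apply, add_sub_cancel_left, norm_mul, Complex.norm_real,
    Real.norm_of_nonneg hs.1]
  exact mul_le_of_le_one_left (norm_nonneg _) hs.2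

/-- A circle about `y` meets `{|F - F x| ≥ |F y - F x|}`. -/
theorem meet_outer (F : ℂ ≃ₜ ℂ) {x y : ℂ} (hxy : x ≠ y) {t : ℝ} (ht : 0 ≤ t) :
    ∃ p : ℂ, ‖p - y‖ = t ∧ ‖F y - F x‖ ≤ ‖F p - F x‖ := by
  have hne : F y - F x ≠ 0 := sub_ne_zero.mpr (fun h => hxy (F.injective h.symm))
  set γ : ℝ → ℂ := fun s => F.symm (F x + s * (F y - F x)) with hγ
  have hγc : Continuous γ := by
    rw [hγ]
    have := F.symm.continuous
    fun_prop
  have h1 : γ 1 = y := by simp [hγ]
  have htend : Tendsto (fun s : ℝ => ‖γ s - y‖) atTop atTop := by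
    have h2 : Tendsto (fun s : ℝ => F x + s * (F y - F x)) atTop (cocompact ℂ) := by
      rw [← Metric.cobounded_eq_cocompact, ← tendsto_norm_atTop_iff_cobounded]
      have h3 : Tendsto (fun s : ℝ => s * ‖F y - F x‖ - ‖F x‖) atTop atTop :=
        tendsto_atTop_add_const_right _ _
          (tendsto_id.atTop_mul_const (norm_pos_iff.mpr hne))
      refine tendsto_atTop_mono' _ ?_ h3
      filter_upwards [eventually_ge_atTop 0] with s hs
      have h4 : ‖(s : ℂ) * (F y - F x)‖ = s * ‖F y - F x‖ := by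
        rw [norm_mul, Complex.norm_real, Real.norm_of_nonneg hs]
      have h5 := norm_sub_le (F x + (s : ℂ) * (F y - F x)) (F x)
      rw [add_sub_cancel_left, h4] at h5
      linarith
    have h3 : Tendsto γ atTop (cocompact ℂ) :=
      (F.symm.isClosedEmbedding.tendsto_cocompact).comp h2
    rw [← Metric.cobounded_eq_cocompact] at h3
    have h4 := (tendsto_norm_cobounded_atTop (E := ℂ)).comp h3
    have h5 : Tendsto (fun s => ‖γ s‖ - ‖y‖) atTop atTop :=
      tendsto_atTop_add_const_right _ _ h4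
    exact tendsto_atTop_mono (fun s => norm_sub_norm_le _ _) h5
  obtain ⟨S, hS1, hS⟩ := ((eventually_ge_atTop (1 : ℝ)).and
    (htend.eventually_ge_atTop t)).exists
  have hmem : t ∈ Icc (‖γ 1 - y‖) (‖γ S - y‖) := by
    rw [h1]
    simp only [sub_self, norm_zero]
    exact ⟨ht, hS⟩
  obtain ⟨s, hs, hst⟩ := intermediate_value_Icc (f := fun s => ‖γ s - y‖) hS1
    ((hγc.sub continuous_const).norm.continuousOn) hmem
  refine ⟨γ s, hst, ?_⟩
  rw [hγ]
  simp only [F.apply_symm_apply, add_sub_cancel_left]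
  rw [norm_mul, Complex.norm_real, Real.norm_of_nonneg (by linarith [hs.1])]
  exact le_mul_of_one_le_left (norm_nonneg _) hs.1

theorem pot_inner {w0 w : ℂ} {l L : ℝ} (hl : 0 < l) (hL : l ≤ L) (hw : ‖w - w0‖ ≤ l) :
    pot w0 l L w ≤ Real.log 2 - 2 * Real.log (L / l) := by
  have hL0 : 0 < L := lt_of_lt_of_le hl hL
  have hn := norm_nonneg (w - w0)
  unfold pot
  have h1 : Real.log (‖w - w0‖ ^ 2 + l ^ 2) ≤ Real.log 2 + 2 * Real.log l := by
    have : Real.log 2 + 2 * Real.log l = Real.log (2 * l ^ 2) := by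
      rw [Real.log_mul (by norm_num) (by positivity), Real.log_pow]
      norm_num
    rw [this]
    apply Real.log_le_log (by positivity)
    nlinarith
  have h2 : 2 * Real.log L ≤ Real.log (‖w - w0‖ ^ 2 + L ^ 2) := by
    have : 2 * Real.log L = Real.log (L ^ 2) := by
      rw [Real.log_pow]
      norm_num
    rw [this]
    apply Real.log_le_log (by positivity)
    nlinarith
  rw [Real.log_div hL0.ne' hl.ne']
  linarith

theorem pot_outer {w0 w : ℂ} {l L : ℝ} (hl : 0 < l) (hL : l ≤ L) (hw : L ≤ ‖w - w0‖) :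
    - Real.log 2 ≤ pot w0 l L w := by
  have hL0 : 0 < L := lt_of_lt_of_le hl hL
  have hn := norm_nonneg (w - w0)
  unfold pot
  have h1 : Real.log (‖w - w0‖ ^ 2 + L ^ 2) ≤ Real.log 2 + Real.log (‖w - w0‖ ^ 2 + l ^ 2) := by
    rw [← Real.log_mul (by norm_num) (by positivity)]
    apply Real.log_le_log (by positivity)
    nlinarith
  linarith

/-- The main estimate. -/
theorem main_est {k : ℝ} (hk0 : 0 ≤ k) (hk : k < 1) {F : ℂ ≃ₜ ℂ} (hF : SmoothQC k F)
    {x y z : ℂ} (hxyz : ‖x - y‖ ≤ ‖x - z‖) (hlL : ‖F x - F z‖ < ‖F x - F y‖)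
    (hl : 0 < ‖F x - F z‖) (hlog : Real.log 2 ≤ Real.log (‖F x - F y‖ / ‖F x - F z‖)) :
    (2 * Real.log (‖F x - F y‖ / ‖F x - F z‖) - 2 * Real.log 2) ^ 2 ≤
      128 * Real.pi ^ 2 * ((1 + k) / (1 - k)) * Real.log (‖F x - F y‖ / ‖F x - F z‖) := by
  have hπ := Real.pi_pos
  set l := ‖F x - F z‖ with hl'
  set L := ‖F x - F y‖ with hL'
  set Λ := Real.log (L / l) with hΛ
  have hL0 : 0 < L := hl.trans hlL
  have hlog2 : 0 < Real.log 2 := Real.log_pos (by norm_num)
  have hxy : x ≠ y := by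
    rintro rfl
    simp at hL'
    linarith
  set r := ‖x - z‖ with hr
  have hr0 : 0 < r := lt_of_lt_of_le (norm_pos_iff.mpr (sub_ne_zero.mpr hxy)) hxyz
  set u : ℂ → ℝ := pot (F x) l L ∘ F with hu'
  have hu : ContDiff ℝ 1 u := (contDiff_pot (F x) hl hL0).comp hF.smooth
  set D := 2 * Λ - 2 * Real.log 2 with hD
  have hD0 : 0 ≤ D := by linarith
  set W : ℂ → ℝ → ℝ := fun c t =>
    ∫ θ in (-Real.pi)..Real.pi, t * ‖fderiv ℝ u (c + t * Complex.exp (θ * I))‖ ^ 2 with hW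
  have hpt : ∀ t ∈ Ioo (r / 2) r, D ^ 2 ≤ 4 * Real.pi * r * (W x t + W y t) := by
    intro t ht
    have ht0 : 0 < t := by linarith [ht.1]
    obtain ⟨w, hwx, hwy⟩ := circles_meet (t := t) hxy (by linarith [ht.1])
    obtain ⟨p, hpx, hp⟩ := meet_inner F (x := x) (z := z) ht0.le (by
      rw [norm_sub_rev z x]; exact ht.2.le)
    obtain ⟨q, hqy, hq⟩ := meet_outer F (x := x) (y := y) hxy ht0.le
    rw [norm_sub_rev (F z)] at hp
    rw [norm_sub_rev (F y)] at hq
    have h1 := osc hu x ht0.le hpx hwx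
    have h2 := osc hu y ht0.le hwy hqy
    have h3 : u p ≤ Real.log 2 - 2 * Λ := pot_inner hl hlL.le hp
    have h4 : - Real.log 2 ≤ u q := pot_outer hl hlL.le hq
    have h5 : D ≤ vlen u x t + vlen u y t := by linarith
    have h6 := vlen_sq hu x t
    have h7 := vlen_sq hu y t
    have hWnn : ∀ c, 0 ≤ W c t := by
      intro c
      apply intervalIntegral.integral_nonneg (by linarith)
      intro θ _
      positivity
    have h8 : D ^ 2 ≤ (vlen u x t + vlen u y t) ^ 2 := pow_le_pow_left₀ hD0 h5 2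
    have h9 : (vlen u x t + vlen u y t) ^ 2 ≤ 2 * vlen u x t ^ 2 + 2 * vlen u y t ^ 2 := by
      nlinarith [sq_nonneg (vlen u x t - vlen u y t)]
    have h10 : 2 * Real.pi * t * (W x t + W y t) ≤ 2 * Real.pi * r * (W x t + W y t) := by
      apply mul_le_mul_of_nonneg_right _ (add_nonneg (hWnn x) (hWnn y))
      apply mul_le_mul_of_nonneg_left ht.2.le (by positivity)
    change vlen u x t ^ 2 ≤ 2 * Real.pi * t * W x t at h6
    change vlen u y t ^ 2 ≤ 2 * Real.pi * t * W y t at h7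
    nlinarith
  set K := (1 + k) / (1 - k) with hK
  have hK0 : 0 ≤ K := by apply div_nonneg <;> linarith
  have hE : energy u ≤ ENNReal.ofReal (K * (8 * Real.pi * Λ)) := by
    refine (energy_comp_le hk0 hk hF (contDiff_pot (F x) hl hL0)).trans ?_
    rw [ENNReal.ofReal_mul hK0]
    gcongr
    exact energy_pot (F x) hl hlL.le
  have hWm : ∀ c, Measurable (fun t => ENNReal.ofReal (W c t)) := by
    intro c
    have hcont : Continuous (fun p : ℝ × ℝ =>
        p.1 * ‖fderiv ℝ u (c + p.1 * Complex.exp (p.2 * I))‖ ^ 2) := by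
      have : Continuous (fun p : ℝ × ℝ => fderiv ℝ u (c + p.1 * Complex.exp (p.2 * I))) :=
        (hu.continuous_fderiv (by norm_num)).comp (by fun_prop)
      fun_prop
    have : Continuous (fun t => W c t) :=
      intervalIntegral.continuous_parametric_intervalIntegral_of_continuous' hcont _ _
    exact ENNReal.measurable_ofReal.comp this.measurable
  have hΛ0 : 0 ≤ Λ := hlog2.le.trans hlog
  have hint : ∫⁻ t in Ioo (r / 2) r, ENNReal.ofReal (D ^ 2) ≤
      ENNReal.ofReal (4 * Real.pi * r) * (ENNReal.ofReal (K * (8 * Real.pi * Λ)) +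
        ENNReal.ofReal (K * (8 * Real.pi * Λ))) := by
    calc ∫⁻ t in Ioo (r / 2) r, ENNReal.ofReal (D ^ 2)
        ≤ ∫⁻ t in Ioo (r / 2) r, ENNReal.ofReal (4 * Real.pi * r) *
            (ENNReal.ofReal (W x t) + ENNReal.ofReal (W y t)) := by
          refine setLIntegral_mono' measurableSet_Ioo ?_
          intro t ht
          have hWnn : ∀ c, 0 ≤ W c t := by
            intro c
            have ht0 : 0 < t := by linarith [ht.1]
            apply intervalIntegral.integral_nonneg (by linarith)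
            intro θ _
            positivity
          rw [← ENNReal.ofReal_add (hWnn x) (hWnn y), ← ENNReal.ofReal_mul (by positivity)]
          exact ENNReal.ofReal_le_ofReal (hpt t ht)
      _ = ENNReal.ofReal (4 * Real.pi * r) * ((∫⁻ t in Ioo (r / 2) r, ENNReal.ofReal (W x t)) +
            (∫⁻ t in Ioo (r / 2) r, ENNReal.ofReal (W y t))) := by
          have hm : Measurable (fun t => ENNReal.ofReal (W x t) + ENNReal.ofReal (W y t)) :=
            (hWm x).add (hWm y)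
          rw [lintegral_const_mul _ hm, lintegral_add_left (hWm x)]
      _ ≤ _ := by
          gcongr
          · exact (energy_annulus hu x (by linarith)).trans hE
          · exact (energy_annulus hu y (by linarith)).trans hE
  rw [setLIntegral_const, Real.volume_Ioo, ← ENNReal.ofReal_mul (sq_nonneg D),
    ← ENNReal.ofReal_add (by positivity) (by positivity),
    ← ENNReal.ofReal_mul (by positivity), ENNReal.ofReal_le_ofReal_iff (by positivity)] at hint
  have h11 : D ^ 2 * (r - r / 2) = (D ^ 2) * (r / 2) := by ring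
  rw [h11] at hint
  have h12 : 4 * Real.pi * r * (K * (8 * Real.pi * Λ) + K * (8 * Real.pi * Λ)) =
      (128 * Real.pi ^ 2 * K * Λ) * (r / 2) := by ring
  rw [h12] at hint
  exact le_of_mul_le_mul_right hint (by positivity)

end Pool.Agent.BlMat.D1

namespace Pool.Agent.BlMat

open D1

theorem lengthArea (_h : Stmt_QCGroup) : Stmt_LengthArea := by
  intro k hk
  refine ⟨Real.exp (128 * Real.pi ^ 2 * ((1 + |k|) / (1 - |k|)) + 2), ?_⟩
  intro F hF x y z hxyz
  have hk0 : 0 ≤ k := by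
    by_contra hneg
    push Not at hneg
    have h1 := hF.dil 0
    have h2 := norm_pos_iff.mpr (hF.ne 0)
    have h3 := norm_nonneg (dzb F 0)
    nlinarith
  rw [abs_of_nonneg hk0]
  have hK0 : 0 ≤ (1 + k) / (1 - k) := by apply div_nonneg <;> linarith
  have hM1 : 1 ≤ Real.exp (128 * Real.pi ^ 2 * ((1 + k) / (1 - k)) + 2) :=
    Real.one_le_exp (by positivity)
  rcases le_or_gt ‖F x - F y‖ ‖F x - F z‖ with hle | hlt
  · exact hle.trans (le_mul_of_one_le_left (norm_nonneg _) hM1)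
  · have hl : 0 < ‖F x - F z‖ := by
      rcases eq_or_ne x z with rfl | hxz
      · exfalso
        simp only [sub_self, norm_zero] at hxyz hlt
        have : x = y := by
          rw [← sub_eq_zero]
          exact norm_le_zero_iff.mp hxyz
        subst this
        simp at hlt
      · exact norm_pos_iff.mpr (sub_ne_zero.mpr (fun h => hxz (F.injective h)))
    rw [← div_le_iff₀ hl]
    have hL0 : 0 < ‖F x - F y‖ := hl.trans hlt
    have hq : 0 < ‖F x - F y‖ / ‖F x - F z‖ := by positivity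
    rw [← Real.log_le_iff_le_exp hq]
    set Λ := Real.log (‖F x - F y‖ / ‖F x - F z‖) with hΛ
    have hlog2 : Real.log 2 < 1 := by
      have := Real.log_two_lt_d9
      linarith
    by_cases h2 : 2 ≤ Λ
    · have hlog : Real.log 2 ≤ Λ := by linarith
      have hmain := main_est hk0 hk hF hxyz hlt hl hlog
      rw [← hΛ] at hmain
      have h3 : Λ ≤ 2 * Λ - 2 * Real.log 2 := by linarith
      have h4 : Λ ^ 2 ≤ (2 * Λ - 2 * Real.log 2) ^ 2 := pow_le_pow_left₀ (by linarith) h3 2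
      have h5 : Λ * Λ ≤ (128 * Real.pi ^ 2 * ((1 + k) / (1 - k))) * Λ := by nlinarith
      have h6 := le_of_mul_le_mul_right h5 (by linarith)
      linarith
    · push Not at h2
      have : 0 ≤ 128 * Real.pi ^ 2 * ((1 + k) / (1 - k)) := by positivity
      linarith

end Pool.Agent.BlMat
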