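import Pool.Agent.BlMat.DynDefs

set_option autoImplicit false

/-! Frozen statements: displacement, stability of the inner basin, equivalence relation. -/

namespace Pool.Agent.BlMat

open Complex Metric Set Filter Topology MeasureTheory
open scoped ComplexConjugate ContDiff

/-- A homeomorphism of the disk commuting with `bl a` and equal to the identity on the circle
moves points by a bounded hyperbolic distance. -/
def Stmt_Disp : Prop :=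
  ∀ m : ℕ, 1 ≤ m → ∀ a ∈ Par m, ∀ η : ℂ ≃ₜ ℂ, (∀ z, ‖η z‖ < 1 ↔ ‖z‖ < 1) →
    (∀ z, ‖z‖ = 1 → η z = z) → (∀ z : ℂ, ‖z‖ < 1 → η (bl (m := m) a z) = bl a (η z)) →
    ∃ Λ : ℝ, ∀ z : ℂ, ‖z‖ < 1 → ‖η z - z‖ ≤ Λ * (1 - ‖z‖) ∧ ‖η z - z‖ ≤ Λ * (1 - ‖η z‖)

/-- Stability of the inner basin. -/
def Stmt_Stab : Prop :=
  ∀ m : ℕ, 1 ≤ m → ∀ a ∈ Par m, ∀ b ∈ Par m, ∀ (fs : ℕ → RatMap (m + 1)) (f : RatMap (m + 1))
    (bs : ℕ → Fin m → ℂ) (φs χs : ℕ → ℂ → ℂ) (φ χ : ℂ → ℂ), (∀ i, bs i ∈ Par m) →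
    (∀ i, MateData a (bs i) (fs i).fn (φs i) (χs i)) → MateData a b f.fn φ χ →
    Tendsto fs atTop (𝓝 f) →
    ∀ ρ : ℝ, ρ < 1 → ∀ᶠ i in atTop, χ '' closedBall 0 ρ ⊆ χs i '' ball 0 1

/-- The identification of boundary points is an equivalence relation. -/
def Stmt_BdEquiv : Prop :=
  ∀ m : ℕ, 1 ≤ m → ∀ a ∈ Par m, Equivalence (BdRel (m := m) a)

/-- The inclusion of the slice closure in the class. -/
def Stmt_SliceCl : Prop :=
  ∀ m : ℕ, 1 ≤ m → ∀ a ∈ Par m, IsCompact (SliceCl (m := m) a) ∧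
    ∀ f ∈ SliceCl (m := m) a, ∃ φ : ℂ → ℂ, Cls a f.fn φ

end Pool.Agent.BlMat
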