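import Pool.Agent.BlMat.DynDefs
import Pool.Agent.BlMat.GlueDefs

set_option autoImplicit false

/-!
# Bounded displacement

A homeomorphism of the disk commuting with `bl a` and equal to the identity on the circle moves
points by a bounded hyperbolic distance.
-/

namespace Pool.Agent.BlMat

open Complex Metric Set Filter Topology MeasureTheory
open scoped ComplexConjugate ContDiff

namespace DI

/-- Uniform continuity near the circle. -/
theorem near_circle (η : ℂ → ℂ) (hη : Continuous η) (h1 : ∀ z, ‖z‖ = 1 → η z = z) (ε : ℝ)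
    (hε : 0 < ε) : ∃ ρ : ℝ, 0 < ρ ∧ ρ < 1 ∧ ∀ z : ℂ, ρ ≤ ‖z‖ → ‖z‖ ≤ 1 → ‖η z - z‖ ≤ ε := by
  by_contra hcon
  push Not at hcon
  have hk : ∀ k : ℕ, ∃ z : ℂ, 1 - 1 / ((k : ℝ) + 2) ≤ ‖z‖ ∧ ‖z‖ ≤ 1 ∧ ε < ‖η z - z‖ := by
    intro k
    have hk0 : (0 : ℝ) ≤ k := Nat.cast_nonneg k
    have h2 : 1 / ((k : ℝ) + 2) < 1 := by
      rw [div_lt_one (by linarith)]; linarith
    have h3 : 0 < 1 / ((k : ℝ) + 2) := by positivity
    obtain ⟨z, hz⟩ := hcon (1 - 1 / ((k : ℝ) + 2)) (by linarith) (by linarith)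
    exact ⟨z, hz⟩
  choose zs hzs using hk
  have hcpt : IsCompact (closedBall (0 : ℂ) 1) := isCompact_closedBall 0 1
  obtain ⟨z, hz, s, hs, hlim⟩ := hcpt.tendsto_subseq (x := zs)
    (fun k => by rw [mem_closedBall_zero_iff]; exact (hzs k).2.1)
  have hnorm : Tendsto (fun k => ‖zs (s k)‖) atTop (𝓝 ‖z‖) := hlim.norm
  have hge : 1 ≤ ‖z‖ := by
    have hl : Tendsto (fun k : ℕ => 1 - 1 / ((k : ℝ) + 2)) atTop (𝓝 (1 - 0)) := by
      refine Tendsto.sub tendsto_const_nhds ?_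
      have := tendsto_one_div_add_atTop_nhds_zero_nat (𝕜 := ℝ)
      have h5 : Tendsto (fun k : ℕ => 1 / (((k + 1 : ℕ) : ℝ) + 1)) atTop (𝓝 0) :=
        this.comp (tendsto_add_atTop_nat 1)
      refine h5.congr ?_
      intro k
      push_cast
      ring
    have hl2 : Tendsto (fun k : ℕ => 1 - 1 / ((s k : ℝ) + 2)) atTop (𝓝 (1 - 0)) :=
      hl.comp hs.tendsto_atTop
    rw [sub_zero] at hl2
    exact le_of_tendsto_of_tendsto' hl2 hnorm (fun k => (hzs (s k)).1)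
  have hle : ‖z‖ ≤ 1 := by rwa [mem_closedBall_zero_iff] at hz
  have hz1 : ‖z‖ = 1 := le_antisymm hle hge
  have hd : Tendsto (fun k => ‖η (zs (s k)) - zs (s k)‖) atTop (𝓝 ‖η z - z‖) :=
    (((hη.tendsto z).comp hlim).sub hlim).norm
  have h0 : ‖η z - z‖ = 0 := by rw [h1 z hz1]; simp
  rw [h0] at hd
  have := ge_of_tendsto' hd (fun k => (hzs (s k)).2.2.le)
  linarith

theorem exp_le (x : ℝ) (h0 : 0 ≤ x) (h : x ≤ 1 / 2) : Real.exp (-(2 * x)) ≤ 1 - x := by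
  have h1 : 2 * x + 1 ≤ Real.exp (2 * x) := Real.add_one_le_exp _
  have h2 : Real.exp (-(2 * x)) = (Real.exp (2 * x))⁻¹ := Real.exp_neg _
  rw [h2]
  have h3 : 0 < Real.exp (2 * x) := Real.exp_pos _
  rw [inv_le_comm₀ h3 (by linarith)]
  refine le_trans ?_ h1
  rw [inv_le_iff_one_le_mul₀ (by linarith)]
  nlinarith

/-- The first half. -/
theorem half {A : ℂ → ℂ} (hball : ∀ z : ℂ, ‖z‖ < 1 → ‖A z‖ < 1)
    (hiter : ∀ z : ℂ, ‖z‖ < 1 → Tendsto (fun k => A^[k] z) atTop (𝓝 0))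
    (hexp : ∃ (ρ c C : ℝ), ρ < 1 ∧ 1 < c ∧ ∀ z : ℂ, ρ ≤ ‖z‖ → ‖z‖ ≤ 1 →
      c ≤ ‖deriv A z‖ ∧ c * (1 - ‖z‖) ≤ 1 - ‖A z‖ ∧
      1 - ‖A z‖ ≤ ‖deriv A z‖ * (1 - ‖z‖) * (1 + C * (1 - ‖z‖)) ∧
      ∀ z' : ℂ, ‖z'‖ ≤ 1 →
        ‖A z' - A z - deriv A z * (z' - z)‖ ≤ C * ‖z' - z‖ ^ 2)
    (η : ℂ → ℂ) (hη : Continuous η) (hlt : ∀ z, ‖z‖ < 1 → ‖η z‖ < 1)
    (h1 : ∀ z, ‖z‖ = 1 → η z = z) (hA : ∀ z : ℂ, ‖z‖ < 1 → η (A z) = A (η z)) :
    ∃ Λ : ℝ, ∀ z : ℂ, ‖z‖ < 1 → ‖η z - z‖ ≤ Λ * (1 - ‖z‖) := by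
  obtain ⟨ρ, c, C₀, hρ, hc, hE⟩ := hexp
  -- enlarge the constant
  obtain ⟨C, hC1, hC0⟩ : ∃ C : ℝ, 1 ≤ C ∧ C₀ ≤ C := ⟨max 1 C₀, le_max_left _ _, le_max_right _ _⟩
  set ε : ℝ := min (1 / 2) ((c - 1) / 2) / C with hεdef
  have hCpos : 0 < C := by linarith
  have hεpos : 0 < ε := by
    rw [hεdef]
    refine div_pos (lt_min (by norm_num) (by linarith)) hCpos
  have hCε : C * ε = min (1 / 2) ((c - 1) / 2) := by
    rw [hεdef]; field_simp
  obtain ⟨ρ', hρ'0, hρ'1, hρ'⟩ := near_circle η hη h1 ε hεpos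
  set ρ₁ : ℝ := max ρ ρ' with hρ₁
  have hρ₁0 : 0 < ρ₁ := lt_of_lt_of_le hρ'0 (le_max_right _ _)
  have hρ₁1 : ρ₁ < 1 := max_lt hρ hρ'1
  set c' : ℝ := (c + 1) / 2 with hc'
  have hc'1 : 1 < c' := by rw [hc']; linarith
  have hc'c : c' ≤ c := by rw [hc']; linarith
  set β : ℝ := 2 * C / (c' - 1) with hβ
  have hβpos : 0 < β := div_pos (by linarith) (by linarith)
  have hβmul : β * (c' - 1) = 2 * C := by
    rw [hβ]; field_simp [show c' - 1 ≠ 0 by linarith]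
  set Λ : ℝ := 2 / (1 - ρ₁) * Real.exp (3 * β) with hΛ
  have hΛpos : 0 < Λ := by
    rw [hΛ]
    have : 0 < 1 - ρ₁ := by linarith
    positivity
  -- the deep points
  have hdeep : ∀ z : ℂ, ‖z‖ < 1 → ‖z‖ ≤ ρ₁ →
      ‖η z - z‖ ≤ Λ * Real.exp (-(β * ((1 - ‖z‖) + ‖η z - z‖))) * (1 - ‖z‖) := by
    intro z hz hzρ
    have hd2 : ‖η z - z‖ ≤ 2 := by
      have := norm_sub_le (η z) z
      have := hlt z hz
      linarith
    have hz0 := norm_nonneg z
    have hd0 := norm_nonneg (η z - z)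
    have h4 : Real.exp (-(3 * β)) ≤ Real.exp (-(β * ((1 - ‖z‖) + ‖η z - z‖))) := by
      apply Real.exp_le_exp.mpr
      have : (1 - ‖z‖) + ‖η z - z‖ ≤ 3 := by linarith
      nlinarith
    have h5 : 1 - ρ₁ ≤ 1 - ‖z‖ := by linarith
    have h6 : 0 < 1 - ρ₁ := by linarith
    calc ‖η z - z‖ ≤ 2 := hd2
      _ = Λ * Real.exp (-(3 * β)) * (1 - ρ₁) := by
          rw [hΛ, Real.exp_neg]
          have := (Real.exp_pos (3 * β)).ne'
          field_simp
      _ ≤ Λ * Real.exp (-(β * ((1 - ‖z‖) + ‖η z - z‖))) * (1 - ‖z‖) := by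
          gcongr
  -- the step
  have hstep : ∀ z : ℂ, ‖z‖ < 1 → ρ₁ < ‖z‖ →
      ‖η (A z) - A z‖ ≤ Λ * Real.exp (-(β * ((1 - ‖A z‖) + ‖η (A z) - A z‖))) * (1 - ‖A z‖) →
      ‖η z - z‖ ≤ Λ * Real.exp (-(β * ((1 - ‖z‖) + ‖η z - z‖))) * (1 - ‖z‖) := by
    intro z hz hzρ hind
    have hρz : ρ ≤ ‖z‖ := (le_max_left _ _).trans hzρ.le
    have hρ'z : ρ' ≤ ‖z‖ := (le_max_right _ _).trans hzρ.le
    obtain ⟨e1, e2, e3, e4⟩ := hE z hρz hz.le
    have hδε := hρ' z hρ'z hz.le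
    have hηz := hlt z hz
    have e4' := e4 (η z) hηz.le
    rw [hA z hz] at hind
    set t : ℝ := 1 - ‖z‖ with ht
    set t₁ : ℝ := 1 - ‖A z‖ with ht₁
    set δ : ℝ := ‖η z - z‖ with hδ
    set δ₁ : ℝ := ‖A (η z) - A z‖ with hδ₁
    set D : ℝ := ‖deriv A z‖ with hD
    have ht0 : 0 < t := by rw [ht]; linarith
    have hδ0 : 0 ≤ δ := norm_nonneg _
    have hδ₁0 : 0 ≤ δ₁ := norm_nonneg _
    have hD1 : 1 ≤ D := by linarith
    have hD0 : 0 < D := by linarith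
    have hCδ : C * δ ≤ min (1 / 2) ((c - 1) / 2) := by
      rw [← hCε]
      exact mul_le_mul_of_nonneg_left hδε hCpos.le
    have hCδ1 : C * δ ≤ 1 / 2 := hCδ.trans (min_le_left _ _)
    have hCδ2 : C * δ ≤ (c - 1) / 2 := hCδ.trans (min_le_right _ _)
    -- lower bound
    have hlow : D * δ - C * δ ^ 2 ≤ δ₁ := by
      have h7 : ‖deriv A z * (η z - z)‖ = D * δ := norm_mul _ _
      have h8 : ‖deriv A z * (η z - z)‖ ≤ ‖A (η z) - A z‖
          + ‖A (η z) - A z - deriv A z * (η z - z)‖ := by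
        have h9 := norm_sub_le (A (η z) - A z) (A (η z) - A z - deriv A z * (η z - z))
        have h10 : (A (η z) - A z) - (A (η z) - A z - deriv A z * (η z - z))
            = deriv A z * (η z - z) := by ring
        rwa [h10] at h9
      have h11 : C₀ * δ ^ 2 ≤ C * δ ^ 2 := by
        exact mul_le_mul_of_nonneg_right hC0 (by positivity)
      rw [h7] at h8
      linarith
    have hlow1 : D * (δ * (1 - C * δ)) ≤ δ₁ := by
      refine le_trans ?_ hlow
      have : 0 ≤ C * δ ^ 2 * (D - 1) := by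
        apply mul_nonneg (by positivity) (by linarith)
      nlinarith
    have hlow2 : c' * δ ≤ δ₁ := by
      refine le_trans ?_ hlow
      have h12 : c * δ ≤ D * δ := mul_le_mul_of_nonneg_right e1 hδ0
      have h13 : C * δ ^ 2 ≤ (c - 1) / 2 * δ := by
        have : C * δ ^ 2 = (C * δ) * δ := by ring
        rw [this]
        exact mul_le_mul_of_nonneg_right hCδ2 hδ0
      rw [hc']
      nlinarith
    have ht₁t : c' * t ≤ t₁ := by
      refine le_trans ?_ e2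
      exact mul_le_mul_of_nonneg_right hc'c ht0.le
    have ht₁up : t₁ ≤ D * (t * Real.exp (C * t)) := by
      have h14 : 1 + C₀ * t ≤ Real.exp (C * t) := by
        have h15 := Real.add_one_le_exp (C * t)
        have h16 : C₀ * t ≤ C * t := mul_le_mul_of_nonneg_right hC0 ht0.le
        linarith
      calc t₁ ≤ D * t * (1 + C₀ * t) := e3
        _ ≤ D * t * Real.exp (C * t) := by
            apply mul_le_mul_of_nonneg_left h14 (by positivity)
        _ = D * (t * Real.exp (C * t)) := by ring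
    have h17 : Real.exp (-(β * (t₁ + δ₁))) ≤ Real.exp (-(β * (c' * (t + δ)))) := by
      apply Real.exp_le_exp.mpr
      have : c' * (t + δ) ≤ t₁ + δ₁ := by linarith
      nlinarith
    have ht₁0 : 0 ≤ t₁ := by
      have := hball z hz
      rw [ht₁]; linarith
    have h18 : D * (δ * Real.exp (-(2 * (C * δ)))) ≤
        D * (Λ * Real.exp (-(β * (c' * (t + δ)))) * (t * Real.exp (C * t))) := by
      calc D * (δ * Real.exp (-(2 * (C * δ)))) ≤ D * (δ * (1 - C * δ)) := by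
            have := exp_le (C * δ) (by positivity) hCδ1
            gcongr
        _ ≤ δ₁ := hlow1
        _ ≤ Λ * Real.exp (-(β * (t₁ + δ₁))) * t₁ := hind
        _ ≤ Λ * Real.exp (-(β * (c' * (t + δ)))) * (D * (t * Real.exp (C * t))) := by
            gcongr
        _ = D * (Λ * Real.exp (-(β * (c' * (t + δ)))) * (t * Real.exp (C * t))) := by ring
    have h19 : δ * Real.exp (-(2 * (C * δ))) ≤
        Λ * Real.exp (-(β * (c' * (t + δ)))) * (t * Real.exp (C * t)) :=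
      le_of_mul_le_mul_left h18 hD0
    have h20 : δ ≤ Λ * (Real.exp (-(β * (c' * (t + δ)))) * Real.exp (C * t)
        * Real.exp (2 * (C * δ))) * t := by
      have h21 : Real.exp (-(2 * (C * δ))) * Real.exp (2 * (C * δ)) = 1 := by
        rw [← Real.exp_add]; simp
      calc δ = δ * (Real.exp (-(2 * (C * δ))) * Real.exp (2 * (C * δ))) := by rw [h21, mul_one]
        _ = (δ * Real.exp (-(2 * (C * δ)))) * Real.exp (2 * (C * δ)) := by ring
        _ ≤ (Λ * Real.exp (-(β * (c' * (t + δ)))) * (t * Real.exp (C * t)))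
              * Real.exp (2 * (C * δ)) :=
            mul_le_mul_of_nonneg_right h19 (Real.exp_pos _).le
        _ = _ := by ring
    refine h20.trans ?_
    rw [← Real.exp_add, ← Real.exp_add]
    have h22 : -(β * (c' * (t + δ))) + C * t + 2 * (C * δ) ≤ -(β * (t + δ)) := by
      have h23 : β * (c' * (t + δ)) = β * (t + δ) + (β * (c' - 1)) * (t + δ) := by ring
      rw [h23, hβmul]
      have : 0 ≤ C * t := by positivity
      linarith
    have h24 := Real.exp_le_exp.mpr h22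
    gcongr
  -- the induction
  have hmain : ∀ N : ℕ, ∀ z : ℂ, ‖z‖ < 1 → ‖A^[N] z‖ ≤ ρ₁ →
      ‖η z - z‖ ≤ Λ * Real.exp (-(β * ((1 - ‖z‖) + ‖η z - z‖))) * (1 - ‖z‖) := by
    intro N
    induction N with
    | zero =>
      intro z hz hN
      exact hdeep z hz hN
    | succ N ih =>
      intro z hz hN
      rcases le_or_gt ‖z‖ ρ₁ with h | h
      · exact hdeep z hz h
      · refine hstep z hz h ?_
        refine ih (A z) (hball z hz) ?_
        rwa [Function.iterate_succ_apply] at hN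
  refine ⟨Λ, fun z hz => ?_⟩
  have hN : ∃ N, ‖A^[N] z‖ ≤ ρ₁ := by
    have h25 := (hiter z hz).norm
    rw [norm_zero] at h25
    have h26 := h25.eventually (eventually_le_nhds hρ₁0)
    exact h26.exists
  obtain ⟨N, hN⟩ := hN
  refine (hmain N z hz hN).trans ?_
  have h27 : Real.exp (-(β * ((1 - ‖z‖) + ‖η z - z‖))) ≤ 1 := by
    apply Real.exp_le_one_iff.mpr
    have : 0 ≤ (1 - ‖z‖) + ‖η z - z‖ := by
      have := norm_nonneg (η z - z)
      linarith
    have : 0 ≤ β * ((1 - ‖z‖) + ‖η z - z‖) := by positivity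
    linarith
  have h28 : 0 ≤ 1 - ‖z‖ := by linarith
  calc Λ * Real.exp (-(β * ((1 - ‖z‖) + ‖η z - z‖))) * (1 - ‖z‖) ≤ Λ * 1 * (1 - ‖z‖) := by
        gcongr
    _ = Λ * (1 - ‖z‖) := by ring

end DI

/-- Bounded displacement. -/
theorem disp (h : Stmt_Bl) : Stmt_Disp := by
  intro m hm a ha η hlt h1 hA
  have hF := h m hm a ha
  obtain ⟨Λ₁, hΛ₁⟩ := DI.half hF.ball hF.iter hF.expand (η : ℂ → ℂ) η.continuous
    (fun z hz => (hlt z).mpr hz) h1 hA
  have hlt' : ∀ z : ℂ, ‖z‖ < 1 → ‖η.symm z‖ < 1 := by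
    intro z hz
    have := hlt (η.symm z)
    rw [η.apply_symm_apply] at this
    exact this.mp hz
  obtain ⟨Λ₂, hΛ₂⟩ := DI.half hF.ball hF.iter hF.expand (η.symm : ℂ → ℂ) η.symm.continuous hlt'
    (fun z hz => by
      have h2 := h1 z hz
      conv_lhs => rw [← h2]
      exact η.symm_apply_apply z)
    (fun z hz => by
      have h2 := hA (η.symm z) (hlt' z hz)
      rw [η.apply_symm_apply] at h2
      rw [← h2, η.symm_apply_apply])
  refine ⟨max Λ₁ Λ₂, fun z hz => ⟨?_, ?_⟩⟩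
  · refine (hΛ₁ z hz).trans ?_
    have : 0 ≤ 1 - ‖z‖ := by linarith
    exact mul_le_mul_of_nonneg_right (le_max_left _ _) this
  · have h3 := hΛ₂ (η z) ((hlt z).mpr hz)
    rw [η.symm_apply_apply, norm_sub_rev] at h3
    refine h3.trans ?_
    have : 0 ≤ 1 - ‖η z‖ := by
      have := (hlt z).mpr hz
      linarith
    exact mul_le_mul_of_nonneg_right (le_max_right _ _) this

end Pool.Agent.BlMat
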