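import Pool.Agent.BlMat.CoreDefs

set_option autoImplicit false

/-!
# Boundaries of spaces of matings with Blaschke products: planar analysis, definitions

All analytic notions used by the project, and the frozen statements `Stmt_*` of its
first wave of modules.  A module proves `theorem xxx : Stmt_Xxx` and may assume other
statements as hypotheses (see the header of each offer).
-/

namespace Pool.Agent.BlMat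

open Complex Metric Set Filter Topology MeasureTheory
open scoped ComplexConjugate ContDiff

/-! ### Wirtinger derivatives, Cauchy transform -/

/-- The Wirtinger derivative `∂F`. -/
noncomputable def dz (F : ℂ → ℂ) (z : ℂ) : ℂ := (fderiv ℝ F z 1 - I * fderiv ℝ F z I) / 2

/-- The Wirtinger derivative `∂̄F`. -/
noncomputable def dzb (F : ℂ → ℂ) (z : ℂ) : ℂ := (fderiv ℝ F z 1 + I * fderiv ℝ F z I) / 2

/-- The Cauchy transform `(1/π) ∫ v(z-w)/w dA(w)`. -/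
noncomputable def cauchyT (v : ℂ → ℂ) (z : ℂ) : ℂ :=
  (Real.pi : ℂ)⁻¹ * ∫ w : ℂ, v (z - w) / w

/-! ### Quasiconformal maps: smooth and metric versions -/

/-- `F` is a `C¹` diffeomorphism of the plane with Beltrami coefficient bounded by `k`. -/
structure SmoothQC (k : ℝ) (F : ℂ ≃ₜ ℂ) : Prop where
  smooth : ContDiff ℝ 1 F
  ne : ∀ z, dz F z ≠ 0
  dil : ∀ z, ‖dzb F z‖ ≤ k * ‖dz F z‖

/-- Normalised quasisymmetric homeomorphisms of the plane, conformal outside a disc. -/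
structure NormQS (M R : ℝ) (H : ℂ ≃ₜ ℂ) : Prop where
  wqs : WQS M H
  wqs' : WQS M H.symm
  diff : DifferentiableOn ℂ H {w : ℂ | R < ‖w‖}
  norm : Tendsto (fun w => H w - w) (cocompact ℂ) (𝓝 0)

/-! ### Normalised univalent maps -/

/-- Locally uniform convergence of normalised univalent maps. -/
def UConv (φs : ℕ → ℂ → ℂ) (φ : ℂ → ℂ) : Prop :=
  ∀ ρ : ℝ, ρ < 1 → ∀ ε : ℝ, 0 < ε → ∀ᶠ k in atTop, ∀ z : ℂ, z ≠ 0 → ‖z‖ ≤ ρ →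
    ‖φs k z - φ z‖ ≤ ε

/-! ### Frozen statements, first wave -/

/-- The Cauchy transform of a compactly supported `C¹` function. -/
def Stmt_Cauchy : Prop :=
  ∀ v : ℂ → ℂ, ContDiff ℝ 1 v → HasCompactSupport v →
    ContDiff ℝ 1 (cauchyT v) ∧
    (∀ z h : ℂ, fderiv ℝ (cauchyT v) z h = cauchyT (fun w => fderiv ℝ v w h) z) ∧
    (∀ z : ℂ, dzb (cauchyT v) z = v z) ∧
    (∃ C : ℝ, ∀ z : ℂ, ‖cauchyT v z‖ ≤ C / (1 + ‖z‖)) ∧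
    (∃ C : ℝ, ∀ z h : ℂ, ‖fderiv ℝ (cauchyT v) z h‖ ≤ C * ‖h‖ / (1 + ‖z‖) ^ 2)

/-- Uniform bound of the Cauchy transform on functions with fixed support. -/
def Stmt_CauchyBound : Prop :=
  ∀ R : ℝ, ∃ C : ℝ, ∀ (v : ℂ → ℂ) (B : ℝ), Continuous v → (∀ z, R < ‖z‖ → v z = 0) →
    (∀ z, ‖v z‖ ≤ B) → ∀ z, ‖cauchyT v z‖ ≤ C * B

/-- The Beurling transform is an isometry of `L²`, on test functions. -/
def Stmt_Isometry : Prop :=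
  ∀ v : ℂ → ℂ, ContDiff ℝ ∞ v → HasCompactSupport v →
    Integrable (fun z => ‖dz (cauchyT v) z‖ ^ 2) ∧
    ∫ z, ‖dz (cauchyT v) z‖ ^ 2 = ∫ z, ‖v z‖ ^ 2

/-- Solution of the inhomogeneous Beltrami equation, smooth data. -/
def Stmt_Neumann : Prop :=
  ∀ (μ g : ℂ → ℂ) (k : ℝ), k < 1 → ContDiff ℝ ∞ μ → HasCompactSupport μ →
    ContDiff ℝ ∞ g → HasCompactSupport g → (∀ z, ‖μ z‖ ≤ k) →
    ∃ v : ℂ → ℂ, ContDiff ℝ 1 v ∧ HasCompactSupport v ∧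
      ∀ z, v z = μ z * dz (cauchyT v) z + g z

/-- The smooth measurable Riemann mapping theorem (compactly supported coefficient). -/
def Stmt_MRT : Prop :=
  ∀ (μ : ℂ → ℂ) (k : ℝ), k < 1 → ContDiff ℝ ∞ μ → HasCompactSupport μ → (∀ z, ‖μ z‖ ≤ k) →
    ∃ F : ℂ ≃ₜ ℂ, ContDiff ℝ 1 F ∧ (∀ z, dz F z ≠ 0) ∧ (∀ z, dzb F z = μ z * dz F z) ∧
      Tendsto (fun z => F z - z) (cocompact ℂ) (𝓝 0)

/-- Inverses and compositions of smooth quasiconformal maps. -/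
def Stmt_QCGroup : Prop :=
  (∀ (k : ℝ) (F : ℂ ≃ₜ ℂ), k < 1 → SmoothQC k F → SmoothQC k F.symm) ∧
  (∀ k : ℝ, k < 1 → ∃ k' : ℝ, k' < 1 ∧ ∀ F G : ℂ ≃ₜ ℂ, SmoothQC k F → SmoothQC k G →
    SmoothQC k' (F.trans G))

/-- Length-area: smooth quasiconformal maps are uniformly weakly quasisymmetric. -/
def Stmt_LengthArea : Prop :=
  ∀ k : ℝ, k < 1 → ∃ M : ℝ, ∀ F : ℂ ≃ₜ ℂ, SmoothQC k F → WQS M F

/-- Weakly quasisymmetric homeomorphisms of the plane are quasisymmetric. -/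
def Stmt_QS : Prop :=
  (∀ M ε : ℝ, 0 < ε → ∃ δ : ℝ, 0 < δ ∧ ∀ H : ℂ ≃ₜ ℂ, WQS M H →
    ∀ x y z : ℂ, ‖x - y‖ ≤ δ * ‖x - z‖ → ‖H x - H y‖ ≤ ε * ‖H x - H z‖) ∧
  (∀ M t : ℝ, ∃ C : ℝ, ∀ H : ℂ ≃ₜ ℂ, WQS M H →
    ∀ x y z : ℂ, ‖x - y‖ ≤ t * ‖x - z‖ → ‖H x - H y‖ ≤ C * ‖H x - H z‖)

/-- Inverses and compositions of weakly quasisymmetric homeomorphisms. -/
def Stmt_QSGroup : Prop :=
  (∀ M : ℝ, ∃ M' : ℝ, ∀ H : ℂ ≃ₜ ℂ, WQS M H → WQS M' H.symm) ∧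
  (∀ M : ℝ, ∃ M' : ℝ, ∀ H G : ℂ ≃ₜ ℂ, WQS M H → WQS M G → WQS M' (H.trans G))

/-- Quasicircles have zero area. -/
def Stmt_QCircleNull : Prop :=
  ∀ (M : ℝ) (H : ℂ ≃ₜ ℂ), WQS M H → volume (H '' sphere (0 : ℂ) 1) = 0

/-- A priori bounds for normalised univalent maps (weak area theorem). -/
def Stmt_UnifBound : Prop :=
  (∀ ρ : ℝ, ρ < 1 → ∃ C : ℝ, 0 < C ∧ ∀ φ : ℂ → ℂ, IsUnif φ →
    ∀ z : ℂ, z ≠ 0 → ‖z‖ ≤ ρ → ‖φ z - 1 / z‖ ≤ C * ‖z‖) ∧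
  (∀ φ : ℂ → ℂ, IsUnif φ → ∀ ρ : ℝ, 0 < ρ → ρ < 1 → ∀ w : ℂ,
    (∀ z : ℂ, ‖z‖ = ρ → ‖φ z‖ < ‖w‖) → ∃ z : ℂ, z ≠ 0 ∧ ‖z‖ < ρ ∧ φ z = w)

/-- Compactness of the class of normalised univalent maps. -/
def Stmt_UnifCompact : Prop :=
  ∀ φs : ℕ → ℂ → ℂ, (∀ k, IsUnif (φs k)) →
    ∃ (φ : ℂ → ℂ) (s : ℕ → ℕ), IsUnif φ ∧ StrictMono s ∧ UConv (fun k => φs (s k)) φ

/-- Convergence of normalised univalent maps and of their inverses, on the sphere. -/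
def Stmt_UnifConv : Prop :=
  ∀ (φs : ℕ → ℂ → ℂ) (φ : ℂ → ℂ), (∀ k, IsUnif (φs k)) → IsUnif φ → UConv φs φ →
    (∀ (z : ℂ) (zs : ℕ → ℂ), ‖z‖ < 1 → Tendsto zs atTop (𝓝 z) →
      Tendsto (fun k => hat (φs k) (zs k)) atTop (𝓝 (hat φ z))) ∧
    (∀ (z : ℂ) (zs : ℕ → ℂ), ‖z‖ < 1 → (∀ k, ‖zs k‖ < 1) →
      Tendsto (fun k => hat (φs k) (zs k)) atTop (𝓝 (hat φ z)) → Tendsto zs atTop (𝓝 z)) ∧
    (∀ (x : OnePoint ℂ) (xs : ℕ → OnePoint ℂ), x ∈ hat φ '' ball 0 1 →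
      Tendsto xs atTop (𝓝 x) → ∀ᶠ k in atTop, xs k ∈ hat (φs k) '' ball 0 1)

/-- Koebe distortion (non-sharp). -/
def Stmt_Koebe : Prop :=
  ∃ C : ℝ, 1 ≤ C ∧ ∀ (F : ℂ → ℂ) (c : ℂ) (r : ℝ), 0 < r → DifferentiableOn ℂ F (ball c r) →
    InjOn F (ball c r) →
    ball (F c) (‖deriv F c‖ * r / C) ⊆ F '' ball c r ∧
    ∀ z : ℂ, ‖z - c‖ ≤ r / 2 → ‖deriv F c‖ * ‖z - c‖ / C ≤ ‖F z - F c‖ ∧
      ‖F z - F c‖ ≤ C * ‖deriv F c‖ * ‖z - c‖ ∧ ‖deriv F z‖ ≤ C * ‖deriv F c‖ ∧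
      ‖deriv F c‖ ≤ C * ‖deriv F z‖

/-- Compactness of normalised quasisymmetric maps. -/
def Stmt_QSCompact : Prop :=
  ∀ M R : ℝ, 0 < R → 
    (∃ R' : ℝ, R ≤ R' ∧ ∀ H : ℂ ≃ₜ ℂ, NormQS M R H →
      ∀ w : ℂ, 2 * R ≤ ‖w‖ → ‖H w - w‖ ≤ R' * R / ‖w‖) ∧
    ∀ H : ℕ → ℂ ≃ₜ ℂ, (∀ k, NormQS M R (H k)) →
    ∃ (G : ℂ ≃ₜ ℂ) (s : ℕ → ℕ), StrictMono s ∧ NormQS M R G ∧
      TendstoLocallyUniformly (fun k => (H (s k) : ℂ → ℂ)) G atTop ∧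
      TendstoLocallyUniformly (fun k => ((H (s k)).symm : ℂ → ℂ)) G.symm atTop

/-- Null sets are removable for limits of smooth quasiconformal maps. -/
def Stmt_Removable : Prop :=
  ∀ (k : ℝ), k < 1 → ∀ (T : ℂ ≃ₜ ℂ) (Ts : ℕ → ℂ ≃ₜ ℂ) (J : Set ℂ),
    (∀ j, SmoothQC k (Ts j)) → TendstoLocallyUniformly (fun j => (Ts j : ℂ → ℂ)) T atTop →
    IsClosed J → volume J = 0 → DifferentiableOn ℂ T Jᶜ →
    Tendsto (fun z => T z - z) (cocompact ℂ) (𝓝 0) → ∀ z, T z = z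

end Pool.Agent.BlMat
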