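import Pool.Agent.BlMat.Defs

set_option autoImplicit false

/-!
# Weakly quasisymmetric homeomorphisms of the plane are quasisymmetric
-/

namespace Pool.Agent.BlMat

open Complex Metric Set Filter Topology MeasureTheory

namespace E1

/-- separated points in a disc -/
theorem packing (N : ℕ) (P : ℕ → ℂ) (c : ℂ) (R s : ℝ) (hs : 0 < s) (hR : 0 ≤ R)
    (hin : ∀ i < N, ‖P i - c‖ ≤ R) (hsep : ∀ i < N, ∀ j < N, i < j → s ≤ ‖P j - P i‖) :
    (N : ℝ) * (s / 2) ^ 2 ≤ (R + s / 2) ^ 2 := by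
  have hdis : Set.PairwiseDisjoint (↑(Finset.range N)) fun i => ball (P i) (s / 2) := by
    intro i hi j hj hij
    rw [Finset.coe_range, Set.mem_Iio] at hi hj
    have key : ∀ i < N, ∀ j < N, i < j → Disjoint (ball (P i) (s / 2)) (ball (P j) (s / 2)) := by
      intro i hi j hj hij
      refine ball_disjoint_ball ?_
      have h := hsep i hi j hj hij
      rw [dist_comm, dist_eq_norm]
      linarith
    rcases lt_or_gt_of_ne hij with h | h
    · exact key i hi j hj h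
    · exact (key j hj i hi h).symm
  have hsub : (⋃ i ∈ Finset.range N, ball (P i) (s / 2)) ⊆ ball c (R + s / 2) := by
    refine Set.iUnion₂_subset fun i hi => ball_subset_ball' ?_
    have := hin i (Finset.mem_range.1 hi)
    rw [dist_eq_norm]
    linarith
  have h1 := measure_mono (μ := volume) hsub
  rw [measure_biUnion_finset hdis fun i _ => measurableSet_ball] at h1
  simp only [Complex.volume_ball, Finset.sum_const, Finset.card_range, nsmul_eq_mul] at h1
  rw [← mul_assoc, ENNReal.mul_le_mul_iff_left (by simpa using NNReal.pi_ne_zero) (by simp)] at h1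
  rw [← ENNReal.ofReal_pow (by positivity), ← ENNReal.ofReal_pow (by positivity),
    ← ENNReal.ofReal_natCast, ← ENNReal.ofReal_mul (by positivity)] at h1
  exact (ENNReal.ofReal_le_ofReal_iff (by positivity)).1 h1

variable {M : ℝ} {H : ℂ ≃ₜ ℂ}

theorem one_le (h : WQS M H) : 1 ≤ M := by
  have h1 := h 0 1 1 le_rfl
  have h2 : 0 < ‖H 0 - H 1‖ := by
    rw [norm_pos_iff, sub_ne_zero]
    exact fun h' => zero_ne_one (H.injective h')
  by_contra hc
  push Not at hc
  nlinarith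

/-- the quantitative first part -/
theorem small (h : WQS M H) (N : ℕ) {x y z : ℂ} (hxy : ‖x - y‖ ≤ (1 / 3) ^ N * ‖x - z‖) :
    ((N : ℝ) + 1) * ‖H x - H y‖ ^ 2 ≤ (3 * M ^ 3 * ‖H x - H z‖) ^ 2 := by
  have hM := one_le h
  by_cases hxyne : H x = H y
  · rw [hxyne, sub_self, norm_zero]
    have : ((N : ℝ) + 1) * 0 ^ 2 = 0 := by ring
    rw [this]
    positivity
  have hpos : 0 < ‖H x - H y‖ := norm_pos_iff.2 (sub_ne_zero.2 hxyne)
  let p : ℕ → ℂ := fun j => x + ((1 / 3 : ℝ) ^ j : ℝ) • (z - x)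
  have hpx : ∀ j, ‖p j - x‖ = (1 / 3) ^ j * ‖x - z‖ := by
    intro j
    have : p j - x = ((1 / 3 : ℝ) ^ j : ℝ) • (z - x) := by
      show x + _ - x = _
      ring
    rw [this, norm_smul, norm_sub_rev z x, Real.norm_of_nonneg (by positivity)]
  have hpp : ∀ i j, i < j → ‖p j - x‖ ≤ ‖p j - p i‖ := by
    intro i j hij
    have : p j - p i = (((1 / 3 : ℝ) ^ j - (1 / 3 : ℝ) ^ i : ℝ)) • (z - x) := by
      show x + _ - (x + _) = _
      rw [sub_smul]
      ring
    rw [this, norm_smul, norm_sub_rev z x, hpx]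
    refine mul_le_mul_of_nonneg_right ?_ (norm_nonneg _)
    have h1 : (1 / 3 : ℝ) ^ j ≤ (1 / 3) ^ i * (1 / 3) := by
      rw [← pow_succ]
      exact pow_le_pow_of_le_one (by norm_num) (by norm_num) hij
    have h2 : (0 : ℝ) < (1 / 3) ^ i := by positivity
    rw [norm_sub_rev, Real.norm_of_nonneg (by nlinarith)]
    linarith
  -- separation of the images
  have hsep : ∀ i < N + 1, ∀ j < N + 1, i < j → ‖H x - H y‖ / M ^ 2 ≤ ‖H (p j) - H (p i)‖ := by
    intro i _ j hj hij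
    have h1 : ‖H (p j) - H x‖ ≤ M * ‖H (p j) - H (p i)‖ := h _ _ _ (hpp i j hij)
    have h2 : ‖H x - H y‖ ≤ M * ‖H x - H (p j)‖ := by
      refine h _ _ _ (hxy.trans ?_)
      rw [norm_sub_rev x (p j), hpx]
      refine mul_le_mul_of_nonneg_right ?_ (norm_nonneg _)
      exact pow_le_pow_of_le_one (by norm_num) (by norm_num) (Nat.lt_succ_iff.1 hj)
    rw [norm_sub_rev (H x) (H (p j))] at h2
    rw [div_le_iff₀ (by positivity)]
    calc ‖H x - H y‖ ≤ M * ‖H (p j) - H x‖ := h2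
      _ ≤ M * (M * ‖H (p j) - H (p i)‖) := by gcongr
      _ = ‖H (p j) - H (p i)‖ * M ^ 2 := by ring
  have hin : ∀ i < N + 1, ‖H (p i) - H x‖ ≤ M * ‖H x - H z‖ := by
    intro i _
    rw [norm_sub_rev]
    refine h _ _ _ ?_
    rw [norm_sub_rev x (p i), hpx]
    exact mul_le_of_le_one_left (norm_nonneg _) (pow_le_one₀ (by norm_num) (by norm_num))
  have h3 := packing (N + 1) (fun i => H (p i)) (H x) (M * ‖H x - H z‖) (‖H x - H y‖ / M ^ 2)
    (by positivity) (by positivity) hin hsep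
  have h4 : ‖H x - H y‖ ≤ M * ‖H x - H z‖ := by
    refine h _ _ _ (hxy.trans ?_)
    exact mul_le_of_le_one_left (norm_nonneg _) (pow_le_one₀ (by norm_num) (by norm_num))
  have h5 : ‖H x - H y‖ / M ^ 2 ≤ M * ‖H x - H z‖ :=
    (div_le_self hpos.le (one_le_pow₀ hM)).trans h4
  have h6 : (M * ‖H x - H z‖ + ‖H x - H y‖ / M ^ 2 / 2) ^ 2 ≤ (3 / 2 * (M * ‖H x - H z‖)) ^ 2 := by
    refine pow_le_pow_left₀ (by positivity) ?_ 2
    linarith
  have h7 := h3.trans h6
  have h8 : ‖H x - H y‖ = M ^ 2 * (‖H x - H y‖ / M ^ 2) := by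
    field_simp
  rw [h8]
  set s := ‖H x - H y‖ / M ^ 2
  set r := ‖H x - H z‖
  push_cast at h7
  calc ((N : ℝ) + 1) * (M ^ 2 * s) ^ 2 = 4 * M ^ 4 * (((N : ℝ) + 1) * (s / 2) ^ 2) := by ring
    _ ≤ 4 * M ^ 4 * (3 / 2 * (M * r)) ^ 2 := by gcongr
    _ = (3 * M ^ 3 * r) ^ 2 := by ring

/-- the quantitative second part -/
theorem chain (h : WQS M H) (n : ℕ) (hn : 0 < n) {x y z : ℂ} (hxy : ‖x - y‖ ≤ n * ‖x - z‖) :
    ‖H x - H y‖ ≤ (∑ i ∈ Finset.range n, M ^ (i + 1)) * ‖H x - H z‖ := by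
  have hM := one_le h
  have hn' : (0 : ℝ) < n := by exact_mod_cast hn
  let p : ℕ → ℂ := fun j => x + ((j / n : ℝ)) • (y - x)
  have hp0 : p 0 = x := by simp [p]
  have hpn : p n = y := by
    show x + (n / n : ℝ) • (y - x) = y
    rw [div_self hn'.ne', one_smul]
    ring
  have hstep : ∀ i, ‖p i - p (i + 1)‖ = ‖x - y‖ / n := by
    intro i
    have : p i - p (i + 1) = (-(1 / n) : ℝ) • (y - x) := by
      have e : (-(1 / n) : ℝ) = (i / n : ℝ) - ((i + 1 : ℕ) / n : ℝ) := by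
        push_cast
        field_simp
        ring
      show x + _ - (x + _) = _
      rw [e, sub_smul]
      ring
    rw [this, norm_smul, norm_neg, Real.norm_of_nonneg (by positivity), norm_sub_rev y x]
    ring
  have hstep' : ∀ i, ‖p (i + 1) - p i‖ = ‖x - y‖ / n := fun i => by rw [norm_sub_rev, hstep]
  have hs : ∀ i, ‖H (p i) - H (p (i + 1))‖ ≤ M ^ (i + 1) * ‖H x - H z‖ := by
    intro i
    induction i with
    | zero =>
      rw [zero_add, pow_one, hp0]
      refine h _ _ _ ?_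
      have := hstep 0
      rw [hp0, zero_add] at this
      rw [this, div_le_iff₀ hn']
      linarith
    | succ i ih =>
      have h1 : ‖H (p (i + 1)) - H (p (i + 1 + 1))‖ ≤ M * ‖H (p (i + 1)) - H (p i)‖ := by
        refine h _ _ _ ?_
        rw [hstep, hstep']
      rw [norm_sub_rev (H (p (i + 1))) (H (p i))] at h1
      calc _ ≤ M * ‖H (p i) - H (p (i + 1))‖ := h1
        _ ≤ M * (M ^ (i + 1) * ‖H x - H z‖) := by gcongr
        _ = _ := by ring
  have hsum : ∀ m, ‖H x - H (p m)‖ ≤ (∑ i ∈ Finset.range m, M ^ (i + 1)) * ‖H x - H z‖ := by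
    intro m
    induction m with
    | zero => simp [hp0]
    | succ m ih =>
      rw [Finset.sum_range_succ, add_mul]
      calc ‖H x - H (p (m + 1))‖ = ‖(H x - H (p m)) + (H (p m) - H (p (m + 1)))‖ := by
            congr 1; ring
        _ ≤ ‖H x - H (p m)‖ + ‖H (p m) - H (p (m + 1))‖ := norm_add_le _ _
        _ ≤ _ := add_le_add ih (hs m)
  have := hsum n
  rwa [hpn] at this

end E1

open E1 in
theorem qs : Stmt_QS := by
  refine ⟨fun M ε hε => ?_, fun M t => ?_⟩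
  · obtain ⟨N, hN⟩ := exists_nat_ge ((3 * M ^ 3 / ε) ^ 2)
    refine ⟨(1 / 3) ^ N, by positivity, fun H h x y z hxy => ?_⟩
    have hM := one_le h
    have h1 := small h N hxy
    have h2 : (3 * M ^ 3) ^ 2 ≤ ((N : ℝ) + 1) * ε ^ 2 := by
      rw [div_pow, div_le_iff₀ (by positivity)] at hN
      nlinarith [sq_nonneg ε]
    have h3 : ((N : ℝ) + 1) * ‖H x - H y‖ ^ 2 ≤ ((N : ℝ) + 1) * (ε * ‖H x - H z‖) ^ 2 := by
      calc _ ≤ (3 * M ^ 3 * ‖H x - H z‖) ^ 2 := h1
        _ = (3 * M ^ 3) ^ 2 * ‖H x - H z‖ ^ 2 := by ring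
        _ ≤ (((N : ℝ) + 1) * ε ^ 2) * ‖H x - H z‖ ^ 2 := by gcongr
        _ = _ := by ring
    have h4 : ‖H x - H y‖ ^ 2 ≤ (ε * ‖H x - H z‖) ^ 2 := le_of_mul_le_mul_left h3 (by positivity)
    exact (sq_le_sq₀ (norm_nonneg _) (by positivity)).1 h4
  · refine ⟨∑ i ∈ Finset.range (⌈t⌉₊ + 1), M ^ (i + 1), fun H h x y z hxy => ?_⟩
    refine chain h (⌈t⌉₊ + 1) (Nat.succ_pos _) (hxy.trans ?_)
    refine mul_le_mul_of_nonneg_right ?_ (norm_nonneg _)
    push_cast
    linarith [Nat.le_ceil t]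

open E1 in
theorem qsGroup : Stmt_QSGroup := by
  refine ⟨fun M => ?_, fun M => ?_⟩
  · obtain ⟨δ, hδ, h1⟩ := qs.1 M (1 / 2) (by norm_num)
    refine ⟨1 / δ, fun H h x y z hxy => ?_⟩
    by_contra hc
    push Not at hc
    have h2 : ‖H.symm x - H.symm z‖ ≤ δ * ‖H.symm x - H.symm y‖ := by
      rw [one_div, inv_mul_eq_div, div_lt_iff₀ hδ] at hc
      linarith
    have h3 := h1 H h _ _ _ h2
    simp only [Homeomorph.apply_symm_apply] at h3
    have h4 : ‖x - y‖ = 0 := by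
      have := norm_nonneg (x - y)
      linarith
    have h5 : x = y := sub_eq_zero.1 (norm_eq_zero.1 h4)
    rw [h5, sub_self, norm_zero] at hc
    have h6 : 0 ≤ 1 / δ * ‖H.symm y - H.symm z‖ := by positivity
    linarith
  · obtain ⟨C, hC⟩ := qs.2 M M
    refine ⟨C, fun H G h g x y z hxy => ?_⟩
    exact hC G g _ _ _ (h x y z hxy)

end Pool.Agent.BlMat
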