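import Pool.Agent.BlMat.Basic

set_option autoImplicit false

/-! Quasicircles have zero area: porosity and the Lebesgue density theorem. -/

namespace Pool.Agent.BlMat

open Complex Metric Set Filter Topology MeasureTheory
open scoped ComplexConjugate ContDiff

namespace E2

theorem one_le_of_wqs {M : ℝ} {H : ℂ ≃ₜ ℂ} (h : WQS M H) : 1 ≤ M := by
  have h1 := h 0 1 1 le_rfl
  have h2 : 0 < ‖H 0 - H 1‖ := by
    rw [norm_pos_iff, sub_ne_zero]
    exact fun h => zero_ne_one (H.injective h)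
  by_contra hM
  push Not at hM
  nlinarith

/-- The image of the disc tangent to the circle at `x` contains a large disc. -/
theorem ball_subset {M : ℝ} {H : ℂ ≃ₜ ℂ} (h : WQS M H) {x : ℂ} (hx : ‖x‖ = 1) {s : ℝ}
    (hs : 0 < s) :
    Disjoint (ball (H (x * (1 + s))) (‖H (x * (1 + s)) - H x‖ / M)) (H '' sphere (0 : ℂ) 1) := by
  have hM : 0 < M := lt_of_lt_of_le one_pos (one_le_of_wqs h)
  rw [Set.disjoint_left]
  rintro u hu ⟨z, hz, rfl⟩
  rw [mem_sphere_zero_iff_norm] at hz
  rw [mem_ball, dist_eq_norm, lt_div_iff₀ hM] at hu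
  set p : ℂ := x * (1 + s) with hp
  have hpn : ‖p‖ = 1 + s := by
    rw [hp, norm_mul, hx, one_mul]
    have : (1 + (s : ℂ)) = ((1 + s : ℝ) : ℂ) := by push_cast; ring
    rw [this, Complex.norm_real, Real.norm_eq_abs, abs_of_pos (by linarith)]
  have h1 : ‖p - x‖ = s := by
    have : p - x = x * s := by rw [hp]; ring
    rw [this, norm_mul, hx, one_mul, Complex.norm_real, Real.norm_eq_abs, abs_of_pos hs]
  have h2 : s ≤ ‖p - z‖ := by
    have := norm_sub_norm_le p z
    rw [hpn, hz] at this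
    linarith
  have h3 := h p x z (by rw [h1]; exact h2)
  rw [norm_sub_rev] at hu
  linarith

theorem porous {M : ℝ} {H : ℂ ≃ₜ ℂ} (h : WQS M H) {x : ℂ} (hx : ‖x‖ = 1) {s : ℝ}
    (hs : 0 < s) :
    volume (H '' sphere (0 : ℂ) 1 ∩ closedBall (H x) (2 * ‖H (x * (1 + s)) - H x‖)) ≤
      ENNReal.ofReal (1 - 1 / (4 * M ^ 2)) *
        volume (closedBall (H x) (2 * ‖H (x * (1 + s)) - H x‖)) := by
  have hM : 1 ≤ M := one_le_of_wqs h
  set r := ‖H (x * (1 + s)) - H x‖ with hr
  have hr0 : 0 ≤ r := norm_nonneg _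
  have hdis := ball_subset h hx hs
  rw [← hr] at hdis
  have hsub : ball (H (x * (1 + s))) (r / M) ⊆ closedBall (H x) (2 * r) := by
    intro u hu
    rw [mem_ball] at hu
    rw [mem_closedBall]
    have h1 : r / M ≤ r := div_le_self hr0 hM
    have h2 := dist_triangle u (H (x * (1 + s))) (H x)
    rw [dist_eq_norm (H (x * (1 + s))) (H x), ← hr] at h2
    linarith
  have hle : H '' sphere (0 : ℂ) 1 ∩ closedBall (H x) (2 * r) ⊆
      closedBall (H x) (2 * r) \ ball (H (x * (1 + s))) (r / M) := by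
    rintro u ⟨hu1, hu2⟩
    exact ⟨hu2, fun hu => Set.disjoint_left.1 hdis hu hu1⟩
  refine (measure_mono hle).trans ?_
  rw [measure_sdiff hsub measurableSet_ball.nullMeasurableSet measure_ball_lt_top.ne]
  rw [Complex.volume_closedBall, Complex.volume_ball]
  have hpi : (NNReal.pi : ENNReal) = ENNReal.ofReal Real.pi := by
    rw [← NNReal.coe_real_pi, ENNReal.ofReal_coe_nnreal]
  have hM2 : (0 : ℝ) < 4 * M ^ 2 := by positivity
  have hc : 0 ≤ 1 - 1 / (4 * M ^ 2) := by
    rw [sub_nonneg, div_le_one hM2]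
    nlinarith
  rw [hpi, ← ENNReal.ofReal_pow (by positivity), ← ENNReal.ofReal_pow (by positivity),
    ← ENNReal.ofReal_mul (by positivity), ← ENNReal.ofReal_mul (by positivity),
    ← ENNReal.ofReal_mul hc, ← ENNReal.ofReal_sub _ (by positivity)]
  apply ENNReal.ofReal_le_ofReal
  apply le_of_eq
  have hM0 : M ≠ 0 := by linarith
  field_simp
  ring

end E2

theorem qCircleNull' : Stmt_QCircleNull := by
  intro M H h
  have hM : 1 ≤ M := E2.one_le_of_wqs h
  set J := H '' sphere (0 : ℂ) 1 with hJ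
  have hJm : MeasurableSet J :=
    ((isCompact_sphere (0 : ℂ) 1).image H.continuous).measurableSet
  have hae := Besicovitch.ae_tendsto_measure_inter_div (volume : Measure ℂ) J
  have hae2 : ∀ᵐ w ∂((volume : Measure ℂ).restrict J), w ∈ J := ae_restrict_mem hJm
  by_contra hne
  have hne' : (volume : Measure ℂ).restrict J ≠ 0 := by
    intro h0
    apply hne
    rw [← Measure.restrict_apply_self, h0]
    rfl
  obtain ⟨w, hw1, hw2⟩ : ∃ w, w ∈ J ∧ Tendsto (fun r => volume (J ∩ closedBall w r) /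
      volume (closedBall w r)) (𝓝[>] 0) (𝓝 1) := by
    have : NeBot (ae ((volume : Measure ℂ).restrict J)) := ae_neBot.2 hne'
    exact (hae2.and hae).exists
  obtain ⟨x, hx, rfl⟩ := hw1
  rw [mem_sphere_zero_iff_norm] at hx
  have hM2 : (0 : ℝ) < 4 * M ^ 2 := by positivity
  have hc : 0 ≤ 1 - 1 / (4 * M ^ 2) := by
    rw [sub_nonneg, div_le_one hM2]
    nlinarith
  have hlt : ENNReal.ofReal (1 - 1 / (4 * M ^ 2)) < 1 := by
    rw [← ENNReal.ofReal_one]
    apply (ENNReal.ofReal_lt_ofReal_iff one_pos).2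
    have : 0 < 1 / (4 * M ^ 2) := by positivity
    linarith
  have hev := hw2.eventually (lt_mem_nhds hlt)
  rw [eventually_nhdsWithin_iff, Metric.eventually_nhds_iff] at hev
  obtain ⟨δ, hδ, hev⟩ := hev
  -- the radius `2 * ‖H (x * (1 + s)) - H x‖` tends to `0` as `s` tends to `0`
  have hcont : Continuous fun s : ℝ => 2 * ‖H (x * (1 + (s : ℂ))) - H x‖ := by
    have := H.continuous
    fun_prop
  have h0 : 2 * ‖H (x * (1 + ((0 : ℝ) : ℂ))) - H x‖ = 0 := by simp
  have hev2 : ∀ᶠ s : ℝ in 𝓝 0, 2 * ‖H (x * (1 + (s : ℂ))) - H x‖ < δ := by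
    have := hcont.tendsto 0
    rw [h0] at this
    exact this.eventually (gt_mem_nhds hδ)
  obtain ⟨s, hs1, hs2⟩ : ∃ s : ℝ, 0 < s ∧ 2 * ‖H (x * (1 + (s : ℂ))) - H x‖ < δ := by
    rw [Metric.eventually_nhds_iff] at hev2
    obtain ⟨η, hη, hev2⟩ := hev2
    exact ⟨η / 2, by positivity, hev2 (by
      rw [Real.dist_eq, sub_zero, abs_of_pos (by positivity)]; linarith)⟩
  have hpos : 0 < 2 * ‖H (x * (1 + (s : ℂ))) - H x‖ := by
    have : H (x * (1 + (s : ℂ))) - H x ≠ 0 := by
      rw [sub_ne_zero]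
      intro h
      have h1 := H.injective h
      have h2 : x * s = 0 := by linear_combination h1
      rcases mul_eq_zero.1 h2 with h3 | h3
      · rw [h3, norm_zero] at hx
        exact zero_ne_one hx
      · exact hs1.ne' (by exact_mod_cast h3)
    positivity
  have h3 := hev (y := 2 * ‖H (x * (1 + (s : ℂ))) - H x‖) (by
    rw [Real.dist_eq, sub_zero, abs_of_pos hpos]; exact hs2) hpos
  have h4 := E2.porous h hx hs1
  rw [← hJ] at h4
  have hv0 : volume (closedBall (H x) (2 * ‖H (x * (1 + (s : ℂ))) - H x‖)) ≠ 0 :=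
    (measure_closedBall_pos _ _ hpos).ne'
  have hvt : volume (closedBall (H x) (2 * ‖H (x * (1 + (s : ℂ))) - H x‖)) ≠ ⊤ :=
    measure_closedBall_lt_top.ne
  rw [ENNReal.lt_div_iff_mul_lt (Or.inl hv0) (Or.inl hvt)] at h3
  exact absurd h3 (not_lt.2 h4)

theorem qCircleNull (_h : Stmt_QS) (_h' : Stmt_QSGroup) : Stmt_QCircleNull := qCircleNull'

end Pool.Agent.BlMat
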