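import Pool.Agent.BlMat.Defs

set_option autoImplicit false

/-! Compactness of normalised quasisymmetric maps. -/

namespace Pool.Agent.BlMat

open Complex Metric Set Filter Topology MeasureTheory
open scoped ComplexConjugate ContDiff

namespace E3

/-- the normalised univalent map attached to a normalised quasisymmetric map -/
noncomputable def phi (R : ℝ) (H : ℂ → ℂ) (z : ℂ) : ℂ := H (R / z) / R

theorem isUnif_phi {M R : ℝ} (hR : 0 < R) {H : ℂ ≃ₜ ℂ} (hH : NormQS M R H) :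
    IsUnif (phi R H) := by
  have hR' : (R : ℂ) ≠ 0 := by exact_mod_cast hR.ne'
  have hmaps : MapsTo (fun z : ℂ => (R : ℂ) / z) (ball 0 1 \ {0}) {w : ℂ | R < ‖w‖} := by
    rintro z ⟨hz1, hz2⟩
    rw [mem_ball_zero_iff] at hz1
    have hz2' : z ≠ 0 := hz2
    rw [mem_ofPred_eq, norm_div, norm_real, Real.norm_of_nonneg hR.le,
      lt_div_iff₀ (norm_pos_iff.mpr hz2')]
    nlinarith
  refine ⟨?_, ?_, ?_⟩
  · have h1 : DifferentiableOn ℂ (fun z : ℂ => (R : ℂ) / z) (ball 0 1 \ {0}) := by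
      intro z hz
      have hz2 : z ≠ 0 := hz.2
      exact ((differentiableAt_const (R : ℂ)).fun_div differentiableAt_fun_id
        hz2).differentiableWithinAt
    exact (hH.diff.comp h1 hmaps).div_const _
  · intro z hz w hw h
    simp only [phi] at h
    rw [div_left_inj' hR'] at h
    have h1 := H.injective h
    have hz2 : z ≠ 0 := hz.2
    have hw2 : w ≠ 0 := hw.2
    field_simp at h1
    exact h1.symm
  · have h1 : Tendsto (fun z : ℂ => (R : ℂ) / z) (𝓝[≠] 0) (cocompact ℂ) := by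
      have h2 := Filter.tendsto_inv₀_nhdsNE_zero (α := ℂ)
      rw [← Metric.cobounded_eq_cocompact]
      have h3 : Tendsto (fun z : ℂ => (R : ℂ) * z⁻¹) (𝓝[≠] 0) (Bornology.cobounded ℂ) :=
        (tendsto_mul_left_cobounded hR').comp h2
      simpa [div_eq_mul_inv] using h3
    have h2 := (hH.norm.comp h1).div_const (R : ℂ)
    rw [zero_div] at h2
    refine h2.congr' ?_
    filter_upwards [self_mem_nhdsWithin] with z hz
    have hz' : z ≠ 0 := hz
    simp only [Function.comp, phi]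
    field_simp

/-- the bound near infinity -/
theorem bound_far (h2 : Stmt_UnifBound) (M R : ℝ) (hR : 0 < R) :
    ∃ R' : ℝ, R ≤ R' ∧ ∀ H : ℂ ≃ₜ ℂ, NormQS M R H →
      ∀ w : ℂ, 2 * R ≤ ‖w‖ → ‖H w - w‖ ≤ R' * R / ‖w‖ := by
  obtain ⟨C, hC, hC2⟩ := h2.1 (1 / 2) (by norm_num)
  refine ⟨max R (C * R), le_max_left _ _, fun H hH w hw => ?_⟩
  have hw0 : 0 < ‖w‖ := by linarith
  have hw0' : w ≠ 0 := norm_pos_iff.mp hw0
  have hR' : (R : ℂ) ≠ 0 := by exact_mod_cast hR.ne'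
  have h1 := hC2 _ (isUnif_phi hR hH) (R / w) (div_ne_zero hR' hw0') (by
    rw [norm_div, norm_real, Real.norm_of_nonneg hR.le, div_le_iff₀ hw0]
    linarith)
  have h3 : phi R H (R / w) - 1 / (R / w) = (H w - w) / R := by
    have : (R : ℂ) / (R / w) = w := by field_simp
    rw [phi, this]
    field_simp
  rw [h3, norm_div, norm_div, norm_real, Real.norm_of_nonneg hR.le, div_le_iff₀ hR] at h1
  calc ‖H w - w‖ ≤ C * (R / ‖w‖) * R := h1
    _ = C * R * R / ‖w‖ := by ring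
    _ ≤ max R (C * R) * R / ‖w‖ := by
        gcongr
        exact le_max_right _ _

/-- the bound for the map and its inverse -/
theorem bound_all (h2 : Stmt_UnifBound) (M R : ℝ) (hR : 0 < R) :
    ∃ B : ℝ, 0 < B ∧ ∀ H : ℂ ≃ₜ ℂ, NormQS M R H →
      (∀ w : ℂ, ‖H w‖ ≤ ‖w‖ + B) ∧ (∀ w : ℂ, ‖H.symm w‖ ≤ ‖w‖ + B) := by
  obtain ⟨R', hRR', hb⟩ := bound_far h2 M R hR
  have hR0' : 0 < R' := hR.trans_le hRR'
  refine ⟨3 * R + R', by positivity, fun H hH => ?_⟩
  have hR' : (R : ℂ) ≠ 0 := by exact_mod_cast hR.ne'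
  have hfar : ∀ w : ℂ, 2 * R ≤ ‖w‖ → ‖H w - w‖ ≤ R' / 2 := by
    intro w hw
    refine (hb H hH w hw).trans ?_
    rw [div_le_iff₀ (by linarith)]
    nlinarith
  have hnear : ∀ w : ℂ, ‖w‖ ≤ 2 * R → ‖H w‖ ≤ 2 * R + R' := by
    intro w hw
    by_contra hcon
    push Not at hcon
    obtain ⟨z, hz0, hz1, hz2⟩ := h2.2 _ (isUnif_phi hR hH) (1 / 2) (by norm_num) (by norm_num)
      (H w / R) (by
        intro z hz
        have hz0 : 0 < ‖z‖ := by rw [hz]; norm_num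
        have hz3 : ‖(R : ℂ) / z‖ = 2 * R := by
          rw [norm_div, norm_real, Real.norm_of_nonneg hR.le, hz]
          ring
        rw [phi, norm_div, norm_div, norm_real, Real.norm_of_nonneg hR.le]
        apply div_lt_div_of_pos_right _ hR
        have h4 := hfar ((R : ℂ) / z) hz3.ge
        have h5 : ‖H ((R : ℂ) / z)‖ ≤ ‖H ((R : ℂ) / z) - (R : ℂ) / z‖ + ‖(R : ℂ) / z‖ := by
          simpa using norm_add_le (H ((R : ℂ) / z) - (R : ℂ) / z) ((R : ℂ) / z)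
        linarith)
    rw [phi, div_left_inj' hR'] at hz2
    have h6 : (R : ℂ) / z = w := H.injective hz2
    have h7 : ‖w‖ * ‖z‖ = R := by
      rw [← h6, norm_div, norm_real, Real.norm_of_nonneg hR.le, div_mul_cancel₀]
      exact norm_ne_zero_iff.mpr hz0
    have h8 : 0 < ‖z‖ := norm_pos_iff.mpr hz0
    nlinarith
  constructor
  · intro w
    rcases le_total ‖w‖ (2 * R) with h | h
    · have := hnear w h
      have := norm_nonneg w
      linarith
    · have h4 := hfar w h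
      have h5 : ‖H w‖ ≤ ‖H w - w‖ + ‖w‖ := by simpa using norm_add_le (H w - w) w
      linarith
  · intro v
    obtain ⟨w, rfl⟩ := H.surjective v
    rw [H.symm_apply_apply]
    rcases le_total ‖w‖ (2 * R) with h | h
    · have := norm_nonneg (H w)
      linarith
    · have h4 := hfar w h
      have h5 : ‖w‖ ≤ ‖H w - w‖ + ‖H w‖ := by
        have := norm_sub_le (H w) (H w - w)
        rw [sub_sub_cancel] at this
        linarith
      linarith

/-- A class of maps, closed for pointwise convergence. -/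
def cls (δ : ℝ → ℝ) (B : ℝ) : Set (ℂ → ℂ) :=
  {f | (∀ w, ‖f w‖ ≤ ‖w‖ + B) ∧ ∀ ε > 0, ∀ x y z : ℂ, ‖x - y‖ ≤ δ ε * ‖x - z‖ →
    ‖f x - f y‖ ≤ ε * ‖f x - f z‖}

theorem isClosed_cls (δ : ℝ → ℝ) (B : ℝ) : IsClosed (cls δ B) := by
  simp only [cls, Set.ofPred_and, Set.ofPred_forall]
  refine IsClosed.inter (isClosed_iInter fun w => ?_) (isClosed_iInter fun ε =>
    isClosed_iInter fun _ => isClosed_iInter fun x => isClosed_iInter fun y =>
    isClosed_iInter fun z => isClosed_iInter fun _ => ?_)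
  · exact isClosed_le (by fun_prop) continuous_const
  · exact isClosed_le (by fun_prop) (by fun_prop)

theorem isCompact_cls (δ : ℝ → ℝ) (B : ℝ) : IsCompact (cls δ B) := by
  refine IsCompact.of_isClosed_subset
    (isCompact_univ_pi fun w : ℂ => isCompact_closedBall (0 : ℂ) (‖w‖ + B)) (isClosed_cls δ B) ?_
  intro f hf w _
  rw [mem_closedBall_zero_iff]
  exact hf.1 w

theorem equi_aux {δ : ℝ → ℝ} (hδ : ∀ ε > 0, 0 < δ ε) {B : ℝ} (hB : 0 < B) (x : ℂ) (ε : ℝ)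
    (hε : 0 < ε) : ∃ η > 0, ∀ f ∈ cls δ B, ∀ y, ‖x - y‖ < η → ‖f x - f y‖ < ε := by
  have hL : 0 < 2 * ‖x‖ + 1 + 2 * B := by positivity
  refine ⟨δ (ε / 2 / (2 * ‖x‖ + 1 + 2 * B)), hδ _ (by positivity), fun f hf y hy => ?_⟩
  have h1 := hf.2 (ε / 2 / (2 * ‖x‖ + 1 + 2 * B)) (by positivity) x y (x + 1) (by
    simpa using hy.le)
  have h2 : ‖f x - f (x + 1)‖ ≤ 2 * ‖x‖ + 1 + 2 * B := by
    have h3 := hf.1 x
    have h4 := hf.1 (x + 1)
    have h5 : ‖x + 1‖ ≤ ‖x‖ + 1 := by simpa using norm_add_le x 1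
    have h6 := norm_sub_le (f x) (f (x + 1))
    linarith
  calc ‖f x - f y‖ ≤ ε / 2 / (2 * ‖x‖ + 1 + 2 * B) * ‖f x - f (x + 1)‖ := h1
    _ ≤ ε / 2 / (2 * ‖x‖ + 1 + 2 * B) * (2 * ‖x‖ + 1 + 2 * B) := by gcongr
    _ = ε / 2 := by field_simp
    _ < ε := by linarith

theorem continuous_of_cls {δ : ℝ → ℝ} (hδ : ∀ ε > 0, 0 < δ ε) {B : ℝ} (hB : 0 < B)
    {f : ℂ → ℂ} (hf : f ∈ cls δ B) : Continuous f := by
  rw [Metric.continuous_iff]
  intro x ε hε
  obtain ⟨η, hη, h⟩ := equi_aux hδ hB x ε hε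
  refine ⟨η, hη, fun y hy => ?_⟩
  rw [dist_comm, dist_eq_norm]
  exact h f hf y (by rwa [← dist_eq_norm, dist_comm])

theorem isCompact_cls' {δ : ℝ → ℝ} (hδ : ∀ ε > 0, 0 < δ ε) {B : ℝ} (hB : 0 < B) :
    IsCompact {f : C(ℂ, ℂ) | (f : ℂ → ℂ) ∈ cls δ B} := by
  refine ArzelaAscoli.isCompact_of_equicontinuous _ ?_ ?_
  · convert isCompact_cls δ B
    ext f
    constructor
    · rintro ⟨g, hg, rfl⟩
      exact hg
    · intro hf
      exact ⟨⟨f, continuous_of_cls hδ hB hf⟩, hf, rfl⟩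
  · intro x
    rw [Metric.equicontinuousAt_iff]
    intro ε hε
    obtain ⟨η, hη, h⟩ := equi_aux hδ hB x ε hε
    refine ⟨η, hη, fun y hy f => ?_⟩
    rw [dist_eq_norm]
    exact h f.1 f.2 y (by rwa [← dist_eq_norm, dist_comm])

theorem exists_subseq {δ : ℝ → ℝ} (hδ : ∀ ε > 0, 0 < δ ε) {B : ℝ} (hB : 0 < B)
    (F : ℕ → ℂ ≃ₜ ℂ) (hF : ∀ k, (F k : ℂ → ℂ) ∈ cls δ B) :
    ∃ (g : C(ℂ, ℂ)) (s : ℕ → ℕ), StrictMono s ∧
      TendstoLocallyUniformly (fun k => (F (s k) : ℂ → ℂ)) g atTop := by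
  obtain ⟨g, _, s, hs, hg⟩ := (isCompact_cls' hδ hB).tendsto_subseq
    (x := fun k => (⟨F k, (F k).continuous⟩ : C(ℂ, ℂ))) (fun k => hF k)
  exact ⟨g, s, hs, ContinuousMap.tendsto_iff_tendstoLocallyUniformly.mp hg⟩

theorem tendsto_pt {F : ℕ → ℂ → ℂ} {f : ℂ → ℂ} (h : TendstoLocallyUniformly F f atTop) (x : ℂ) :
    Tendsto (fun k => F k x) atTop (𝓝 (f x)) :=
  (tendstoLocallyUniformlyOn_univ.mpr h).tendsto_at (mem_univ x)

end E3

open E3 in
/-- Compactness of normalised quasisymmetric maps. -/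
theorem qsCompact (h1 : Stmt_QS) (h2 : Stmt_UnifBound) : Stmt_QSCompact := by
  intro M R hR
  obtain ⟨R', hRR', hb⟩ := bound_far h2 M R hR
  refine ⟨⟨R', hRR', hb⟩, fun H hH => ?_⟩
  obtain ⟨B, hB, hB2⟩ := bound_all h2 M R hR
  obtain ⟨δ, hδ⟩ : ∃ δ : ℝ → ℝ, ∀ ε > 0, 0 < δ ε ∧ ∀ H : ℂ ≃ₜ ℂ, WQS M H →
      ∀ x y z : ℂ, ‖x - y‖ ≤ δ ε * ‖x - z‖ → ‖H x - H y‖ ≤ ε * ‖H x - H z‖ := by
    choose! δ hδ using fun ε => h1.1 M ε
    exact ⟨δ, hδ⟩
  have hF : ∀ k, (H k : ℂ → ℂ) ∈ cls δ B := fun k =>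
    ⟨(hB2 _ (hH k)).1, fun ε hε => (hδ ε hε).2 _ (hH k).wqs⟩
  have hF' : ∀ k, ((H k).symm : ℂ → ℂ) ∈ cls δ B := fun k =>
    ⟨(hB2 _ (hH k)).2, fun ε hε => (hδ ε hε).2 _ (hH k).wqs'⟩
  obtain ⟨g, s, hs, hg⟩ := exists_subseq (fun ε hε => (hδ ε hε).1) hB H hF
  obtain ⟨g', s', hs', hg'⟩ := exists_subseq (fun ε hε => (hδ ε hε).1) hB
    (fun k => (H (s k)).symm) (fun k => hF' (s k))
  have hg2 : TendstoLocallyUniformly (fun k => (H (s (s' k)) : ℂ → ℂ)) g atTop := by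
    intro u hu x
    obtain ⟨t, ht, h⟩ := hg u hu x
    exact ⟨t, ht, hs'.tendsto_atTop.eventually h⟩
  have hc : ∀ w, g (g' w) = w := by
    intro w
    have h3 := hg2.tendsto_comp (x := g' w) g.continuous.continuousAt
      (tendsto_pt hg' w)
    have h4 : (fun k => (H (s (s' k)) : ℂ → ℂ) ((H (s (s' k))).symm w)) = fun _ => w := by
      funext k
      exact (H (s (s' k))).apply_symm_apply w
    exact tendsto_nhds_unique h3 (by rw [h4]; exact tendsto_const_nhds)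
  have hc' : ∀ w, g' (g w) = w := by
    intro w
    have h3 := hg'.tendsto_comp (x := g w) g'.continuous.continuousAt
      (tendsto_pt hg2 w)
    have h4 : (fun k => ((H (s (s' k))).symm : ℂ → ℂ) (H (s (s' k)) w)) = fun _ => w := by
      funext k
      exact (H (s (s' k))).symm_apply_apply w
    exact tendsto_nhds_unique h3 (by rw [h4]; exact tendsto_const_nhds)
  let G : ℂ ≃ₜ ℂ :=
    { toFun := g
      invFun := g'
      left_inv := hc'
      right_inv := hc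
      continuous_toFun := g.continuous
      continuous_invFun := g'.continuous }
  have hw : ∀ (f : ℕ → ℂ ≃ₜ ℂ) (p : ℂ → ℂ), (∀ k, WQS M (f k)) →
      TendstoLocallyUniformly (fun k => (f k : ℂ → ℂ)) p atTop → WQS M p := by
    intro f p hf hp x y z hxyz
    exact le_of_tendsto_of_tendsto
      ((tendsto_pt hp x).sub (tendsto_pt hp y)).norm
      (((tendsto_pt hp x).sub (tendsto_pt hp z)).norm.const_mul M)
      (Eventually.of_forall fun k => hf k x y z hxyz)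
  refine ⟨G, fun k => s (s' k), hs.comp hs', ⟨?_, ?_, ?_, ?_⟩, hg2, hg'⟩
  · exact hw _ _ (fun k => (hH _).wqs) hg2
  · exact hw _ _ (fun k => (hH _).wqs') hg'
  · have ho : IsOpen {w : ℂ | R < ‖w‖} := isOpen_lt continuous_const continuous_norm
    exact (hg2.tendstoLocallyUniformlyOn (s := {w : ℂ | R < ‖w‖})).differentiableOn
      (Eventually.of_forall fun k => (hH _).diff) ho
  · rw [Metric.tendsto_nhds]
    intro ε hε
    have h5 : ∀ᶠ w : ℂ in cocompact ℂ, max (2 * R) (R' * R / ε) < ‖w‖ :=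
      tendsto_norm_cocompact_atTop.eventually_gt_atTop _
    filter_upwards [h5] with w hw5
    rw [max_lt_iff] at hw5
    have hR0' : 0 < R' := hR.trans_le hRR'
    have hw0 : 0 < ‖w‖ := by linarith
    have h6 : ‖g w - w‖ ≤ R' * R / ‖w‖ :=
      le_of_tendsto ((tendsto_pt hg2 w).sub_const w).norm
        (Eventually.of_forall fun k => hb _ (hH _) w hw5.1.le)
    have h7 : R' * R / ‖w‖ < ε := by
      rw [div_lt_iff₀ hw0]
      have := hw5.2
      rw [div_lt_iff₀ hε] at this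
      linarith
    rw [dist_zero_right]
    exact h6.trans_lt h7

end Pool.Agent.BlMat
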