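import Pool.Agent.BlMat.GlueDefs

set_option autoImplicit false

/-! The identification of boundary points is an equivalence relation. -/

namespace Pool.Agent.BlMat

open Complex Metric Set Filter Topology MeasureTheory
open scoped ComplexConjugate ContDiff

namespace EQ

theorem ext_symm_ext (H : ℂ ≃ₜ ℂ) (x : OnePoint ℂ) : ext H.symm (ext H x) = x := by
  cases x with
  | infty => rfl
  | coe z => 
    show ext H.symm ((H z : ℂ) : OnePoint ℂ) = _
    show ((H.symm (H z) : ℂ) : OnePoint ℂ) = _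
    rw [H.symm_apply_apply]

theorem ext_ext_symm (H : ℂ ≃ₜ ℂ) (x : OnePoint ℂ) : ext H (ext H.symm x) = x := by
  cases x with
  | infty => rfl
  | coe z => 
    show ((H (H.symm z) : ℂ) : OnePoint ℂ) = _
    rw [H.apply_symm_apply]

theorem ext_trans (H G : ℂ ≃ₜ ℂ) (x : OnePoint ℂ) : ext (H.trans G) x = ext G (ext H x) := by
  cases x with
  | infty => rfl
  | coe z => rfl

theorem wqs_mono {M M' : ℝ} {H : ℂ → ℂ} (h : WQS M H) (hM : M ≤ M') : WQS M' H := by
  intro x y z hxyz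
  exact (h x y z hxyz).trans (mul_le_mul_of_nonneg_right hM (norm_nonneg _))

theorem hat_congr {φ ψ : ℂ → ℂ} (h : EqOn φ ψ (ball 0 1 \ {0})) {z : ℂ}
    (hz : z ∈ ball (0 : ℂ) 1) : hat φ z = hat ψ z := by
  unfold hat
  split_ifs with h0
  · rfl
  · rw [h ⟨hz, h0⟩]

theorem qc_symm (h2 : Stmt_QSGroup) {m : ℕ} (a : Fin m → ℂ) {f g : OnePoint ℂ → OnePoint ℂ}
    (h : QCConj a f g) : QCConj a g f := by
  obtain ⟨φ, γ, H, η, M, hf, hg, hM, hH, hη, hη1, hc⟩ := h
  obtain ⟨M', hM'⟩ := h2.1 M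
  refine ⟨γ, φ, H.symm, η.symm, M', hg, hf, hM' H hM, ?_, ?_, ?_, ?_⟩
  · intro x
    have := hH (ext H.symm x)
    rw [ext_ext_symm] at this
    rw [← this, ext_symm_ext]
  · intro z
    rw [← hη (η.symm z), η.apply_symm_apply]
  · intro z hz
    rw [Homeomorph.symm_apply_eq]
    exact (hη1 z hz).symm
  · intro z hz
    have hw : η.symm z ∈ ball (0 : ℂ) 1 := by
      rw [mem_ball_zero_iff] at hz ⊢
      rw [← hη, η.apply_symm_apply]
      exact hz
    have := hc _ hw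
    rw [η.apply_symm_apply] at this
    rw [← this, ext_symm_ext]

theorem qc_trans (h1 : Stmt_Cls) (h2 : Stmt_QSGroup) {m : ℕ} (hm : 1 ≤ m) {a : Fin m → ℂ}
    (ha : a ∈ Par m) {f g k : OnePoint ℂ → OnePoint ℂ}
    (h : QCConj a f g) (h' : QCConj a g k) : QCConj a f k := by
  obtain ⟨φ, γ, H, η, M, hf, hg, hM, hH, hη, hη1, hc⟩ := h
  obtain ⟨γ', κ, H', η', M', hg', hk, hM', hH', hη', hη1', hc'⟩ := h'
  obtain ⟨N, hN⟩ := h2.2 (max M M')
  have hγ : EqOn γ γ' (ball 0 1 \ {0}) := (h1 m hm a ha).2 g γ γ' hg hg'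
  refine ⟨φ, κ, H.trans H', η.trans η', N, hf, hk,
    hN H H' (wqs_mono hM (le_max_left _ _)) (wqs_mono hM' (le_max_right _ _)), ?_, ?_, ?_, ?_⟩
  · intro x
    rw [ext_trans, ext_trans, hH, hH']
  · intro z
    rw [Homeomorph.trans_apply, hη', hη]
  · intro z hz
    rw [Homeomorph.trans_apply, hη1 z hz, hη1' z hz]
  · intro z hz
    have hz' : η z ∈ ball (0 : ℂ) 1 := by
      rw [mem_ball_zero_iff] at hz ⊢
      rwa [hη]
    rw [ext_trans, hc z hz, hat_congr hγ hz', hc' _ hz', Homeomorph.trans_apply]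

end EQ

/-- The identification of boundary points is an equivalence relation. -/
theorem bdEquiv (h1 : Stmt_Cls) (h2 : Stmt_QSGroup) : Stmt_BdEquiv := by
  intro m hm a ha
  refine ⟨fun x => Or.inl rfl, ?_, ?_⟩
  · rintro x y (h | ⟨hx, hy, h⟩)
    · exact Or.inl h.symm
    · exact Or.inr ⟨hy, hx, EQ.qc_symm h2 a h⟩
  · rintro x y z (h | ⟨hx, hy, h⟩) (h' | ⟨hy', hz, h'⟩)
    · exact Or.inl (h.trans h')
    · subst h
      exact Or.inr ⟨hy', hz, h'⟩
    · subst h'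
      exact Or.inr ⟨hx, hy, h⟩
    · exact Or.inr ⟨hx, hz, EQ.qc_trans h1 h2 hm ha h h'⟩

end Pool.Agent.BlMat
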