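import Pool.Agent.BlMat.DynDefs
import Pool.Agent.BlMat.Basic
import Pool.Agent.Squeeze.OneDim

set_option autoImplicit false

/-! Existence and uniqueness of matings, by surgery and connectedness of the parameter space. -/

namespace Pool.Agent.BlMat.EU

open Complex Metric Set Filter Topology MeasureTheory
open scoped ComplexConjugate ContDiff

/-- Existence of a mating. -/
def Ex {m : ℕ} (a b : Fin m → ℂ) : Prop :=
  ∃ (f : OnePoint ℂ → OnePoint ℂ) (φ χ : ℂ → ℂ), IsRat (m + 1) f ∧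
    MateData (m := m) a b f φ χ

/-- Uniqueness of the mating. -/
def Un {m : ℕ} (a b : Fin m → ℂ) : Prop :=
  ∀ (f f' : OnePoint ℂ → OnePoint ℂ) (φ χ φ' χ' : ℂ → ℂ), IsRat (m + 1) f →
    IsRat (m + 1) f' → MateData (m := m) a b f φ χ → MateData (m := m) a b f' φ' χ' →
    f = f' ∧ EqOn φ φ' (closedBall 0 1 \ {0}) ∧ EqOn χ χ' (closedBall 0 1)

theorem model_mono {m : ℕ} {a a' : Fin m → ℂ} {k r k' r' : ℝ} {g : ℂ → ℂ} {ψ : ℂ ≃ₜ ℂ}
    {ψs : ℕ → ℂ ≃ₜ ℂ} (h : Model a a' k r g ψ ψs) (hk : k ≤ k') (hk' : k' < 1)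
    (hr : r' ≤ r) (hr' : 0 < r') : Model a a' k' r' g ψ ψs :=
  { h with
    k_nonneg := h.k_nonneg.trans hk
    k_lt := hk'
    r_pos := hr'
    r_lt := hr.trans_lt h.r_lt
    near_zero := fun z hz => h.near_zero z (hz.trans hr)
    near_zero' := fun j z hz => h.near_zero' j z (hz.trans hr)
    dil := fun j z hz =>
      (h.dil j z hz).trans (mul_le_mul_of_nonneg_right hk (norm_nonneg _)) }

theorem smoothQC_mono {k k' : ℝ} {F : ℂ ≃ₜ ℂ} (h : SmoothQC k F) (hk : k ≤ k') :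
    SmoothQC k' F :=
  ⟨h.smooth, h.ne, fun z => (h.dil z).trans (mul_le_mul_of_nonneg_right hk (norm_nonneg _))⟩

theorem tlu_iff {F : ℕ → ℂ → ℂ} {f : ℂ → ℂ} (hf : Continuous f) :
    TendstoLocallyUniformly F f atTop ↔
      ∀ x, Tendsto (fun y : ℕ × ℂ => F y.1 y.2) (atTop ×ˢ 𝓝 x) (𝓝 (f x)) := by
  rw [tendstoLocallyUniformly_iff_forall_tendsto]
  refine forall_congr' fun x => ?_
  have h1 : Tendsto (fun y : ℕ × ℂ => (f x, f y.2)) (atTop ×ˢ 𝓝 x) (uniformity ℂ) :=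
    Uniform.tendsto_nhds_right.1 ((hf.tendsto x).comp tendsto_snd)
  have h2 : Tendsto (fun y : ℕ × ℂ => (f y.2, f x)) (atTop ×ˢ 𝓝 x) (uniformity ℂ) :=
    Uniform.tendsto_nhds_left.1 ((hf.tendsto x).comp tendsto_snd)
  rw [Uniform.tendsto_nhds_right]
  exact ⟨fun h => h1.uniformity_trans h, fun h => h2.uniformity_trans h⟩

theorem tlu_comp {F G : ℕ → ℂ → ℂ} {f g : ℂ → ℂ} (hf : Continuous f) (hg : Continuous g)
    (hF : TendstoLocallyUniformly F f atTop) (hG : TendstoLocallyUniformly G g atTop) :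
    TendstoLocallyUniformly (fun j z => G j (F j z)) (fun z => g (f z)) atTop := by
  rw [tlu_iff (f := fun z => g (f z)) (hg.comp hf)]
  rw [tlu_iff hf] at hF
  rw [tlu_iff hg] at hG
  intro x
  have h1 : Tendsto (fun y : ℕ × ℂ => (y.1, F y.1 y.2)) (atTop ×ˢ 𝓝 x) (atTop ×ˢ 𝓝 (f x)) :=
    tendsto_fst.prodMk (hF x)
  exact (hG (f x)).comp h1

theorem qclim_comp (h5 : Stmt_QCGroup) {h₁ h₂ : ℂ ≃ₜ ℂ} (H1 : QCLim h₁) (H2 : QCLim h₂) :
    ∃ (k : ℝ) (Ts : ℕ → ℂ ≃ₜ ℂ), k < 1 ∧ (∀ j, SmoothQC k (Ts j)) ∧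
      TendstoLocallyUniformly (fun j => (Ts j : ℂ → ℂ)) (h₁.trans h₂.symm) atTop := by
  obtain ⟨k₁, F, hk₁, hF, hFl, -⟩ := H1
  obtain ⟨k₂, G, hk₂, hG, -, hGl⟩ := H2
  obtain ⟨k', hk', hc⟩ := h5.2 (max k₁ k₂) (max_lt hk₁ hk₂)
  refine ⟨k', fun j => (F j).trans (G j).symm, hk', fun j =>
    hc _ _ (smoothQC_mono (hF j) (le_max_left _ _))
      (smoothQC_mono (h5.1 _ _ hk₂ (hG j)) (le_max_right _ _)), ?_⟩
  exact tlu_comp (F := fun j => (F j : ℂ → ℂ)) (G := fun j => ((G j).symm : ℂ → ℂ))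
    (f := h₁) (g := h₂.symm) h₁.continuous h₂.symm.continuous hFl hGl

theorem diff_of_comp {U : Set ℂ} (hU : IsOpen U) {φ T : ℂ → ℂ} (hφ : DifferentiableOn ℂ φ U)
    (hi : InjOn φ U) (hT : DifferentiableOn ℂ (fun z => T (φ z)) U) {z : ℂ} (hz : z ∈ U) :
    DifferentiableAt ℂ T (φ z) := by
  have hne : deriv φ z ≠ 0 := Pool.Agent.Squeeze.deriv_ne_zero_of_injOn hU hφ hi hz
  have hs : HasStrictDerivAt φ (deriv φ z) z :=
    ((hφ.analyticOnNhd hU) z hz).hasStrictDerivAt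
  have hs' := hs.hasStrictFDerivAt_equiv hne
  have hg : DifferentiableAt ℂ (hs'.localInverse φ _ z) (φ z) :=
    (HasStrictFDerivAt.to_localInverse hs').hasFDerivAt.differentiableAt
  have hr := hs'.eventually_right_inverse
  have hz' : hs'.localInverse φ _ z (φ z) = z := hs'.localInverse_apply_image
  have hTd : DifferentiableAt ℂ (fun z => T (φ z)) (hs'.localInverse φ _ z (φ z)) := by
    rw [hz']
    exact (hT z hz).differentiableAt (hU.mem_nhds hz)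
  have := hTd.comp (φ z) hg
  refine this.congr_of_eventuallyEq ?_
  filter_upwards [hr] with w hw
  simp only [Function.comp_apply]
  rw [hw]

theorem un_transfer (h1 : Stmt_Surgery) (h4 : Stmt_Removable) (h5 : Stmt_QCGroup)
    (h6 : Stmt_QCircleNull) (h7 : Stmt_Cls) (h8 : Stmt_Bl) {m : ℕ} (hm : 1 ≤ m)
    {a a' b b' : Fin m → ℂ} (ha : a ∈ Par m) (ha' : a' ∈ Par m) (hb : b ∈ Par m)
    (hb' : b' ∈ Par m) {k r : ℝ} {g g₂ : ℂ → ℂ} {ψ ψ₂ : ℂ ≃ₜ ℂ} {ψs ψs₂ : ℕ → ℂ ≃ₜ ℂ}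
    (M1 : Model a a' k r g ψ ψs) (M2 : Model b b' k r g₂ ψ₂ ψs₂) (hU : Un a' b') :
    Un a b := by
  intro f f' φ χ φ' χ' hf hf' hd hd'
  obtain ⟨M, R, hR, hs⟩ := h1 k r M1.k_nonneg M1.k_lt M1.r_pos M1.r_lt
  obtain ⟨H₁, F₁, Φ₁, X₁, hN₁, hQ₁, hRat₁, hMD₁, hφ₁, hχ₁⟩ :=
    hs m hm a ha a' ha' b hb b' hb' g g₂ ψ ψ₂ ψs ψs₂ M1 M2 f φ χ hf hd
  obtain ⟨H₂, F₂, Φ₂, X₂, hN₂, hQ₂, hRat₂, hMD₂, hφ₂, hχ₂⟩ :=
    hs m hm a ha a' ha' b hb b' hb' g g₂ ψ ψ₂ ψs ψs₂ M1 M2 f' φ' χ' hf' hd'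
  obtain ⟨hFF, hΦ, hX⟩ := hU F₁ F₂ Φ₁ X₁ Φ₂ X₂ hRat₁ hRat₂ hMD₁ hMD₂
  have hψ : ∀ z : ℂ, ‖z‖ ≤ 1 → ‖ψ z‖ ≤ 1 := by
    intro z hz
    rcases lt_or_eq_of_le hz with h | h
    · exact ((M1.norm_lt z).2 h).le
    · exact ((M1.norm_eq z).2 h).le
  have hψ₂ : ∀ z : ℂ, ‖z‖ ≤ 1 → ‖ψ₂ z‖ ≤ 1 := by
    intro z hz
    rcases lt_or_eq_of_le hz with h | h
    · exact ((M2.norm_lt z).2 h).le
    · exact ((M2.norm_eq z).2 h).le
  have hψ0 : ψ 0 = 0 := M1.near_zero 0 (by simpa using M1.r_pos.le)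
  set T : ℂ ≃ₜ ℂ := H₁.trans H₂.symm with hTdef
  have hTapp : ∀ z, T z = H₂.symm (H₁ z) := fun z => rfl
  have hTφ : ∀ z : ℂ, z ≠ 0 → ‖z‖ ≤ 1 → T (φ z) = φ' z := by
    intro z hz hz1
    rw [hTapp, hφ₁ z hz hz1]
    have h3 : ψ z ≠ 0 := by
      intro h0
      exact hz (ψ.injective (h0.trans hψ0.symm))
    have h2 : Φ₁ (ψ z) = Φ₂ (ψ z) := hΦ ⟨by simpa using hψ z hz1, by simpa using h3⟩
    rw [h2, ← hφ₂ z hz hz1]
    simp
  have hTχ : ∀ z : ℂ, ‖z‖ ≤ 1 → T (χ z) = χ' z := by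
    intro z hz1
    rw [hTapp, hχ₁ z hz1]
    have h2 : X₁ (ψ₂ z) = X₂ (ψ₂ z) := hX (by simpa using hψ₂ z hz1)
    rw [h2, ← hχ₂ z hz1]
    simp
  have hopen : IsOpen (ball (0 : ℂ) 1 \ {0}) := isOpen_ball.sdiff isClosed_singleton
  have hTdiff : DifferentiableOn ℂ T (φ '' sphere 0 1)ᶜ := by
    intro w hw
    have hcov : w ∈ φ '' (ball 0 1 \ {0}) ∪ χ '' closedBall 0 1 := by
      rw [hd.cover]; trivial
    rcases hcov with ⟨z, hz, rfl⟩ | ⟨z, hz, rfl⟩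
    · refine (diff_of_comp hopen hd.unif.diff hd.unif.inj ?_ hz).differentiableWithinAt
      refine hd'.unif.diff.congr fun z hz => ?_
      exact hTφ z (by simpa using hz.2) (by simpa using (mem_ball_zero_iff.1 hz.1).le)
    · have hz1 : ‖z‖ ≤ 1 := by simpa using hz
      rcases lt_or_eq_of_le hz1 with h | h
      · refine (diff_of_comp isOpen_ball hd.χdiff
          (hd.χinj.mono ball_subset_closedBall) ?_ (by simpa using h)).differentiableWithinAt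
        refine hd'.χdiff.congr fun z hz => ?_
        exact hTχ z (by simpa using (mem_ball_zero_iff.1 hz).le)
      · exfalso
        apply hw
        rw [hd.bdry]
        exact ⟨z, by simpa using h, rfl⟩
  have hsub : sphere (0 : ℂ) 1 ⊆ closedBall 0 1 \ {0} := by
    intro z hz
    have hz1 : ‖z‖ = 1 := by simpa using hz
    refine ⟨by simp [hz1], ?_⟩
    rintro rfl
    simp at hz1
  have hJc : IsClosed (φ '' sphere 0 1) :=
    ((isCompact_sphere (0 : ℂ) 1).image_of_continuousOn (hd.φcont.mono hsub)).isClosed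
  have hJ0 : volume (φ '' sphere 0 1) = 0 := by
    obtain ⟨H, M', hW, hH⟩ := hd.qcircle
    rw [← hH]
    exact h6 M' H hW
  have hTnorm : Tendsto (fun z => T z - z) (cocompact ℂ) (𝓝 0) := by
    have e1 := hN₁.norm
    have e2 := hN₂.norm.comp T.isClosedEmbedding.tendsto_cocompact
    have e3 := e1.sub e2
    rw [sub_zero] at e3
    refine e3.congr fun z => ?_
    simp only [Function.comp_apply]
    have : H₂ (T z) = H₁ z := by rw [hTapp]; simp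
    rw [this]
    ring
  obtain ⟨k', Ts, hk', hTs, hTl⟩ := qclim_comp h5 hQ₁ hQ₂
  have hT : ∀ z, T z = z := h4 k' hk' T Ts _ hTs hTl hJc hJ0 hTdiff hTnorm
  have eφ : EqOn φ φ' (closedBall 0 1 \ {0}) := by
    intro z hz
    rw [← hTφ z (by simpa using hz.2) (by simpa using hz.1), hT]
  have eχ : EqOn χ χ' (closedBall 0 1) := by
    intro z hz
    rw [← hTχ z (by simpa using hz), hT]
  refine ⟨?_, eφ, eχ⟩
  have ehat : ∀ z : ℂ, ‖z‖ ≤ 1 → hat φ z = hat φ' z := by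
    intro z hz
    unfold hat
    split_ifs with h0
    · rfl
    · rw [eφ ⟨by simpa using hz, by simpa using h0⟩]
  have hclos : ∀ {c : Fin m → ℂ}, c ∈ Par m → ∀ z : ℂ, ‖z‖ ≤ 1 → ‖bl c z‖ ≤ 1 := by
    intro c hc z hz
    have hB := h8 m hm c hc
    rcases lt_or_eq_of_le hz with h | h
    · exact (hB.ball z h).le
    · exact (hB.sphere z h).le
  obtain ⟨-, -, hc1, hc2, -⟩ := (h7 m hm a ha).1 b hb f φ χ hf.1 hd
  obtain ⟨-, -, hc1', hc2', -⟩ := (h7 m hm a ha).1 b hb f' φ' χ' hf'.1 hd'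
  funext x
  have key : (∃ z : ℂ, ‖z‖ ≤ 1 ∧ x = hat φ z) ∨ (∃ z : ℂ, ‖z‖ ≤ 1 ∧ x = (χ z : OnePoint ℂ)) := by
    induction x using OnePoint.rec with
    | infty => exact Or.inl ⟨0, by simp, by simp [hat]⟩
    | coe w =>
      have hcov : w ∈ φ '' (ball 0 1 \ {0}) ∪ χ '' closedBall 0 1 := by
        rw [hd.cover]; trivial
      rcases hcov with ⟨z, hz, rfl⟩ | ⟨z, hz, rfl⟩
      · refine Or.inl ⟨z, by simpa using (mem_ball_zero_iff.1 hz.1).le, ?_⟩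
        have : z ≠ 0 := by simpa using hz.2
        simp [hat, this]
      · exact Or.inr ⟨z, by simpa using hz, rfl⟩
  rcases key with ⟨z, hz, rfl⟩ | ⟨z, hz, rfl⟩
  · rw [hc2 z hz, ehat z hz, hc2' z hz, ehat _ (hclos ha z hz)]
  · have e1 : χ z = χ' z := eχ (by simpa using hz)
    have e2 : χ (bl b z) = χ' (bl b z) := eχ (by simpa using hclos hb z hz)
    rw [hc1 z hz, e2, e1, hc1' z hz]

theorem ex_transfer (h1 : Stmt_Surgery) {m : ℕ} (hm : 1 ≤ m)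
    {a a' b b' : Fin m → ℂ} (ha : a ∈ Par m) (ha' : a' ∈ Par m) (hb : b ∈ Par m)
    (hb' : b' ∈ Par m) {k r : ℝ} {g g₂ : ℂ → ℂ} {ψ ψ₂ : ℂ ≃ₜ ℂ} {ψs ψs₂ : ℕ → ℂ ≃ₜ ℂ}
    (M1 : Model a a' k r g ψ ψs) (M2 : Model b b' k r g₂ ψ₂ ψs₂) (hE : Ex a b) :
    Ex a' b' := by
  obtain ⟨f, φ, χ, hf, hd⟩ := hE
  obtain ⟨M, R, hR, hs⟩ := h1 k r M1.k_nonneg M1.k_lt M1.r_pos M1.r_lt
  obtain ⟨H₁, F₁, Φ₁, X₁, hN₁, hQ₁, hRat₁, hMD₁, hφ₁, hχ₁⟩ :=
    hs m hm a ha a' ha' b hb b' hb' g g₂ ψ ψ₂ ψs ψs₂ M1 M2 f φ χ hf hd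
  exact ⟨F₁, Φ₁, X₁, hRat₁, hMD₁⟩

/-- Two models can be given common constants. -/
theorem common {m : ℕ} {a a' b b' : Fin m → ℂ}
    (h1 : ∃ k r g ψ ψs, Model a a' k r g ψ ψs) (h2 : ∃ k r g ψ ψs, Model b b' k r g ψ ψs) :
    ∃ k r g g₂ ψ ψ₂ ψs ψs₂, Model a a' k r g ψ ψs ∧ Model b b' k r g₂ ψ₂ ψs₂ := by
  obtain ⟨k, r, g, ψ, ψs, M1⟩ := h1
  obtain ⟨k₂, r₂, g₂, ψ₂, ψs₂, M2⟩ := h2
  exact ⟨max k k₂, min r r₂, g, g₂, ψ, ψ₂, ψs, ψs₂,
    model_mono M1 (le_max_left _ _) (max_lt M1.k_lt M2.k_lt) (min_le_left _ _)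
      (lt_min M1.r_pos M2.r_pos),
    model_mono M2 (le_max_right _ _) (max_lt M1.k_lt M2.k_lt) (min_le_right _ _)
      (lt_min M1.r_pos M2.r_pos)⟩

theorem transfer (h1 : Stmt_Surgery) (h4 : Stmt_Removable) (h5 : Stmt_QCGroup)
    (h6 : Stmt_QCircleNull) (h7 : Stmt_Cls) (h8 : Stmt_Bl) {m : ℕ} (hm : 1 ≤ m)
    {a a' b b' : Fin m → ℂ} (ha : a ∈ Par m) (ha' : a' ∈ Par m) (hb : b ∈ Par m)
    (hb' : b' ∈ Par m)
    (hMa : (∃ k r g ψ ψs, Model a a' k r g ψ ψs) ∧ (∃ k r g ψ ψs, Model a' a k r g ψ ψs))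
    (hMb : (∃ k r g ψ ψs, Model b b' k r g ψ ψs) ∧ (∃ k r g ψ ψs, Model b' b k r g ψ ψs)) :
    (Ex a b ∧ Un a b) ↔ (Ex a' b' ∧ Un a' b') := by
  obtain ⟨k, r, g, g₂, ψ, ψ₂, ψs, ψs₂, M1, M2⟩ := common hMa.1 hMb.1
  obtain ⟨k', r', g', g₂', ψ', ψ₂', ψs', ψs₂', M1', M2'⟩ := common hMa.2 hMb.2
  constructor
  · rintro ⟨hE, hU⟩
    exact ⟨ex_transfer h1 hm ha ha' hb hb' M1 M2 hE,
      un_transfer h1 h4 h5 h6 h7 h8 hm ha' ha hb' hb M1' M2' hU⟩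
  · rintro ⟨hE, hU⟩
    exact ⟨ex_transfer h1 hm ha' ha hb' hb M1' M2' hE,
      un_transfer h1 h4 h5 h6 h7 h8 hm ha ha' hb hb' M1 M2 hU⟩

theorem par_eq (m : ℕ) : Par m = Set.pi univ (fun _ : Fin m => ball (0 : ℂ) 1) := by
  ext a
  simp [Par]

theorem par_convex (m : ℕ) : Convex ℝ (Par m) := by
  rw [par_eq]
  exact convex_pi fun _ _ => convex_ball 0 1

end Pool.Agent.BlMat.EU

namespace Pool.Agent.BlMat

open Complex Metric Set Filter Topology MeasureTheory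

theorem mateEU (h1 : Stmt_Surgery) (h2 : Stmt_Base) (h3 : Stmt_Model) (h4 : Stmt_Removable)
    (h5 : Stmt_QCGroup) (h6 : Stmt_QCircleNull) (h7 : Stmt_Cls) (h8 : Stmt_Bl) :
    Stmt_MateEU := by
  classical
  intro m hm a ha b hb
  have hbase : EU.Ex (m := m) 0 0 ∧ EU.Un (m := m) 0 0 := h2 m hm
  have h0 : (0 : Fin m → ℂ) ∈ Par m := by
    intro j
    simp
  have hconn : IsPreconnected (Par m ×ˢ Par m) :=
    ((EU.par_convex m).prod (EU.par_convex m)).isPreconnected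
  let F : (Fin m → ℂ) × (Fin m → ℂ) → ℕ := fun p =>
    if EU.Ex p.1 p.2 ∧ EU.Un p.1 p.2 then 1 else 0
  have hF : ContinuousOn F (Par m ×ˢ Par m) := by
    intro p hp
    have e1 : ∀ᶠ q in 𝓝[Par m ×ˢ Par m] p, F q = F p := by
      have hA := h3 m hm p.1 hp.1
      have hB := h3 m hm p.2 hp.2
      have hA' := (continuous_fst.tendsto p).eventually hA
      have hB' := (continuous_snd.tendsto p).eventually hB
      filter_upwards [hA'.filter_mono nhdsWithin_le_nhds, hB'.filter_mono nhdsWithin_le_nhds,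
        self_mem_nhdsWithin] with q hq1 hq2 hq
      have := EU.transfer h1 h4 h5 h6 h7 h8 hm hp.1 hq.1 hp.2 hq.2 hq1 hq2
      simp only [F]
      by_cases hP : EU.Ex p.1 p.2 ∧ EU.Un p.1 p.2
      · rw [if_pos hP, if_pos (this.1 hP)]
      · rw [if_neg hP, if_neg (fun hQ => hP (this.2 hQ))]
    exact (continuousWithinAt_const (b := F p)).congr_of_eventuallyEq e1 rfl
  have hc := hconn.constant hF (x := (0, 0)) (y := (a, b)) ⟨h0, h0⟩ ⟨ha, hb⟩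
  have h00 : F (0, 0) = 1 := by
    simp only [F]
    rw [if_pos hbase]
  rw [h00] at hc
  have : EU.Ex a b ∧ EU.Un a b := by
    by_contra hn
    simp only [F] at hc
    rw [if_neg hn] at hc
    exact absurd hc (by norm_num)
  exact this

end Pool.Agent.BlMat
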