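import Mathlib
import Pool.Agent.BlMat.Defs

set_option autoImplicit false

/-!
# A priori bounds for normalised univalent maps (block F1)

The covering property is proved with the maximum modulus principle for `exp (w / (φ - w))`,
the bound `‖φ z - 1 / z‖ ≤ 8 ‖z‖` follows from it, injectivity and the Schwarz lemma.
-/

namespace Pool.Agent.BlMat

open Complex Metric Set Filter Topology MeasureTheory
open scoped ComplexConjugate ContDiff

namespace F1

/-- `φ z - 1 / z`, extended by `0`. -/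
noncomputable def om (φ : ℂ → ℂ) (z : ℂ) : ℂ := open Classical in if z = 0 then 0 else φ z - 1 / z

theorem om_zero (φ : ℂ → ℂ) : om φ 0 = 0 := if_pos rfl

theorem om_ne (φ : ℂ → ℂ) {z : ℂ} (hz : z ≠ 0) : om φ z = φ z - 1 / z := if_neg hz

theorem om_diff {φ : ℂ → ℂ} (h : IsUnif φ) : DifferentiableOn ℂ (om φ) (ball 0 1) := by
  rw [← Complex.differentiableOn_compl_singleton_and_continuousAt_iff
    (isOpen_ball.mem_nhds (mem_ball_self one_pos) : ball (0 : ℂ) 1 ∈ 𝓝 0)]
  constructor
  · refine (h.diff.sub ((differentiableOn_const 1).div differentiableOn_id ?_)).congr ?_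
    · intro z hz
      exact hz.2
    · intro z hz
      exact om_ne φ hz.2
  · rw [continuousAt_iff_punctured_nhds, om_zero]
    refine h.norm.congr' ?_
    filter_upwards [self_mem_nhdsWithin] with z hz
    exact (om_ne φ hz).symm

theorem re_div_le {w a : ℂ} (h : ‖a‖ < ‖w‖) : (w / (a - w)).re ≤ -(1 / 2) := by
  have hne : a - w ≠ 0 := by
    intro h0
    rw [sub_eq_zero.1 h0] at h
    exact lt_irrefl _ h
  have h1 : 0 < normSq (a - w) := normSq_pos.2 hne
  have h2 : normSq a < normSq w := by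
    rw [normSq_eq_norm_sq, normSq_eq_norm_sq]
    exact pow_lt_pow_left₀ h (norm_nonneg _) two_ne_zero
  rw [div_re, ← add_div, div_le_iff₀ h1]
  rw [normSq_apply] at h1 h2 ⊢
  rw [normSq_apply] at h2
  simp only [sub_re, sub_im] at h1 ⊢
  nlinarith

theorem covering {φ : ℂ → ℂ} (h : IsUnif φ) {ρ : ℝ} (h0 : 0 < ρ) (h1 : ρ < 1) {w : ℂ}
    (hw : ∀ z : ℂ, ‖z‖ = ρ → ‖φ z‖ < ‖w‖) : ∃ z : ℂ, z ≠ 0 ∧ ‖z‖ < ρ ∧ φ z = w := by
  by_contra hcon
  push Not at hcon
  -- the function `D`
  set D : ℂ → ℂ := fun z => 1 + z * (om φ z - w) with hD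
  have hDz : ∀ z, z ≠ 0 → D z = z * (φ z - w) := by
    intro z hz
    simp only [hD, om_ne φ hz]
    field_simp
    ring
  have hsub : closedBall (0 : ℂ) ρ ⊆ ball 0 1 := closedBall_subset_ball h1
  have hDd : DifferentiableOn ℂ D (closedBall 0 ρ) := by
    have h2 := (om_diff h).mono hsub
    exact (differentiableOn_const 1).add (differentiableOn_id.mul (h2.sub
      (differentiableOn_const w)))
  have hD0 : ∀ z ∈ closedBall (0 : ℂ) ρ, D z ≠ 0 := by
    intro z hz
    by_cases hz0 : z = 0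
    · rw [hz0]
      simp [hD]
    · rw [hDz z hz0]
      refine mul_ne_zero hz0 (sub_ne_zero.2 ?_)
      rw [mem_closedBall_zero_iff] at hz
      rcases hz.lt_or_eq with h2 | h2
      · exact hcon z hz0 h2
      · intro h3
        have h4 := hw z h2
        rw [h3] at h4
        exact lt_irrefl _ h4
  set E : ℂ → ℂ := fun z => Complex.exp (w * (z / D z)) with hE
  have hEd : DifferentiableOn ℂ E (closedBall 0 ρ) :=
    ((differentiableOn_const w).mul (differentiableOn_id.div hDd hD0)).cexp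
  have hcl : closure (ball (0 : ℂ) ρ) = closedBall 0 ρ := closure_ball 0 h0.ne'
  have hEc : DiffContOnCl ℂ E (ball 0 ρ) := by
    apply DifferentiableOn.diffContOnCl
    rw [hcl]
    exact hEd
  have hfr : ∀ z ∈ frontier (ball (0 : ℂ) ρ), ‖E z‖ ≤ Real.exp (-(1 / 2)) := by
    intro z hz
    rw [frontier_ball 0 h0.ne', mem_sphere_zero_iff_norm] at hz
    have hz0 : z ≠ 0 := by
      rintro rfl
      rw [norm_zero] at hz
      exact h0.ne hz
    simp only [hE, norm_exp]
    refine Real.exp_le_exp.2 ?_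
    have h2 : w * (z / D z) = w / (φ z - w) := by
      rw [hDz z hz0]
      have h3 : φ z - w ≠ 0 := by
        intro h4
        have h5 := hw z hz
        rw [sub_eq_zero.1 h4] at h5
        exact lt_irrefl _ h5
      field_simp
    rw [h2]
    exact re_div_le (hw z hz)
  have h2 := Complex.norm_le_of_forall_mem_frontier_norm_le isBounded_ball hEc hfr
    (z := 0) (by rw [hcl]; exact mem_closedBall_self h0.le)
  have h3 : E 0 = 1 := by simp [hE]
  rw [h3, norm_one] at h2
  have h4 : Real.exp (-(1 / 2)) < 1 := by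
    rw [← Real.exp_zero]
    exact Real.exp_lt_exp.2 (by norm_num)
  linarith

theorem om_bound {φ : ℂ → ℂ} (h : IsUnif φ) {z : ℂ} (hz : ‖z‖ < 1) : ‖om φ z‖ ≤ 8 * ‖z‖ := by
  have hd := om_diff h
  -- maximum on the circle of radius `1/2`
  obtain ⟨z0, hz0, hmax⟩ := (isCompact_sphere (0 : ℂ) (1 / 2)).exists_isMaxOn
    ⟨(1 / 2 : ℂ), by simp⟩ (f := fun z => ‖om φ z‖)
    ((hd.continuousOn.mono fun z hz => by
      rw [mem_sphere_zero_iff_norm] at hz
      rw [mem_ball_zero_iff, hz]
      norm_num).norm)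
  rw [mem_sphere_zero_iff_norm] at hz0
  set m := ‖om φ z0‖ with hm
  have hm1 : ∀ z : ℂ, ‖z‖ = 1 / 2 → ‖om φ z‖ ≤ m := fun z hz =>
    hmax (by rw [mem_sphere_zero_iff_norm]; exact hz)
  have hm0 : 0 ≤ m := norm_nonneg _
  have hφ : ∀ z : ℂ, 1 / 2 < ‖z‖ → ‖z‖ < 1 → ‖φ z‖ ≤ 2 + m := by
    intro z hz1 hz2
    by_contra hcon
    push Not at hcon
    obtain ⟨z', hz', hz'2, hz'3⟩ := covering h (ρ := 1 / 2) (by norm_num) (by norm_num)
      (w := φ z) (by
        intro z' hz'
        have hne : z' ≠ 0 := by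
          rintro rfl
          rw [norm_zero] at hz'
          norm_num at hz'
        have h1 := hm1 z' hz'
        rw [om_ne φ hne] at h1
        have h2 : ‖φ z'‖ ≤ ‖φ z' - 1 / z'‖ + ‖1 / z'‖ := by
          calc ‖φ z'‖ = ‖(φ z' - 1 / z') + 1 / z'‖ := by rw [sub_add_cancel]
            _ ≤ _ := norm_add_le _ _
        have h3 : ‖1 / z'‖ = 2 := by
          rw [norm_div, norm_one, hz']
          norm_num
        linarith)
    have hne : z ≠ 0 := by
      rintro rfl
      rw [norm_zero] at hz1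
      norm_num at hz1
    have h4 := h.inj (by
      refine ⟨?_, hz'⟩
      rw [mem_ball_zero_iff]
      linarith) (by
      refine ⟨?_, hne⟩
      rw [mem_ball_zero_iff]
      exact hz2) hz'3
    rw [h4] at hz'2
    linarith
  have hom : ∀ z : ℂ, 1 / 2 < ‖z‖ → ‖z‖ < 1 → ‖om φ z‖ ≤ m + 4 := by
    intro z hz1 hz2
    have hne : z ≠ 0 := by
      rintro rfl
      rw [norm_zero] at hz1
      norm_num at hz1
    rw [om_ne φ hne]
    have h1 := hφ z hz1 hz2
    have h2 := norm_sub_le (φ z) (1 / z)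
    have h3 : ‖1 / z‖ ≤ 2 := by
      rw [norm_div, norm_one, div_le_iff₀ (by linarith)]
      linarith
    linarith
  have hall : ∀ z : ℂ, ‖z‖ < 1 → ‖om φ z‖ ≤ m + 4 := by
    intro z hz1
    set r := max ((‖z‖ + 1) / 2) (3 / 4) with hr
    have hr1 : r < 1 := max_lt (by linarith) (by norm_num)
    have hr2 : 3 / 4 ≤ r := le_max_right _ _
    have hr3 : ‖z‖ ≤ r := le_trans (by linarith) (le_max_left _ _)
    have hcl : closure (ball (0 : ℂ) r) = closedBall 0 r := closure_ball 0 (by linarith)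
    refine Complex.norm_le_of_forall_mem_frontier_norm_le (U := ball (0 : ℂ) r) isBounded_ball
      ?_ ?_ ?_
    · apply DifferentiableOn.diffContOnCl
      rw [hcl]
      exact hd.mono (closedBall_subset_ball hr1)
    · intro z' hz'
      rw [frontier_ball 0 (by linarith), mem_sphere_zero_iff_norm] at hz'
      exact hom z' (by linarith) (by linarith)
    · rw [hcl, mem_closedBall_zero_iff]
      exact hr3
  have hsch : ∀ z : ℂ, ‖z‖ < 1 → ‖om φ z‖ ≤ (m + 4) * ‖z‖ := by
    intro z hz1
    have h1 := Complex.dist_le_div_mul_dist_of_mapsTo_ball hd (R₂ := m + 4) (c := 0) (z := z)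
      (by
        intro z' hz'
        rw [om_zero, mem_closedBall_zero_iff]
        exact hall z' (mem_ball_zero_iff.1 hz')) (mem_ball_zero_iff.2 hz1)
    rw [om_zero, dist_zero_right, dist_zero_right, div_one] at h1
    exact h1
  have h5 := hsch z0 (by rw [hz0]; norm_num)
  rw [hz0, ← hm] at h5
  have h6 := hsch z hz
  have h7 : (m + 4) * ‖z‖ ≤ 8 * ‖z‖ := mul_le_mul_of_nonneg_right (by linarith) (norm_nonneg _)
  linarith

end F1

theorem unifBound : Stmt_UnifBound := by
  refine ⟨fun ρ hρ => ⟨8, by norm_num, fun φ hφ z hz hzρ => ?_⟩,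
    fun φ hφ ρ h0 h1 w hw => F1.covering hφ h0 h1 hw⟩
  have h := F1.om_bound hφ (z := z) (by linarith)
  rwa [F1.om_ne φ hz] at h

end Pool.Agent.BlMat
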