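import Pool.Agent.BlMat.F1

set_option autoImplicit false

/-! Compactness of the class of normalised univalent maps. -/

namespace Pool.Agent.BlMat.F2

open Complex Metric Set Filter Topology


/-- Hurwitz: a value of a nonconstant limit is taken by the approximating univalent maps. -/
theorem hurwitz {fs : ℕ → ℂ → ℂ} {f : ℂ → ℂ} {z : ℂ} {R : ℝ} (hR : 0 < R)
    (hfs : ∀ k, DifferentiableOn ℂ (fs k) (ball z R)) (hinj : ∀ k, InjOn (fs k) (ball z R))
    (hf : DifferentiableOn ℂ f (ball z R)) (hne : ¬ ∀ᶠ y in 𝓝 z, f y = f z)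
    (hconv : ∀ ε : ℝ, 0 < ε → ∀ᶠ k in atTop, ∀ y ∈ ball z R, ‖fs k y - f y‖ ≤ ε) :
    ∀ᶠ k in atTop, f z ∈ fs k '' ball z R := by
  have han : AnalyticAt ℂ f z := hf.analyticAt (ball_mem_nhds z hR)
  have h1 : ∀ᶠ y in 𝓝[≠] z, f y ≠ f z :=
    (han.eventually_eq_or_eventually_ne analyticAt_const).resolve_left hne
  rw [eventually_nhdsWithin_iff] at h1
  obtain ⟨ε, hε, hball⟩ := Metric.eventually_nhds_iff_ball.1 h1
  set r := min (ε / 2) (R / 2) with hr
  have hr0 : 0 < r := lt_min (by linarith) (by linarith)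
  have hrε : r < ε := (min_le_left _ _).trans_lt (by linarith)
  have hrR : r < R := (min_le_right _ _).trans_lt (by linarith)
  have hsub : closedBall z r ⊆ ball z R := closedBall_subset_ball hrR
  have hzmem : z ∈ closedBall z r := mem_closedBall_self hr0.le
  obtain ⟨z1, hz1', hmin⟩ := (isCompact_sphere z r).exists_isMinOn
    (NormedSpace.sphere_nonempty.2 hr0.le) (f := fun z' => ‖f z' - f z‖)
    ((((hf.continuousOn.mono (sphere_subset_closedBall.trans hsub))).sub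
      continuousOn_const).norm)
  set m := ‖f z1 - f z‖ with hm
  have hm0 : 0 < m := by
    rw [hm, norm_pos_iff, sub_ne_zero]
    refine hball z1 (closedBall_subset_ball hrε (sphere_subset_closedBall hz1')) ?_
    rintro h2
    have h3 : z1 = z := h2
    rw [h3, mem_sphere, dist_self] at hz1'
    exact hr0.ne hz1'
  have hmin' : ∀ z' ∈ sphere z r, m ≤ ‖f z' - f z‖ := fun z' hz' => hmin hz'
  filter_upwards [hconv (m / 8) (by linarith)] with k hk
  have hk' : ∀ z' ∈ closedBall z r, ‖fs k z' - f z'‖ ≤ m / 8 := fun z' hz' => hk z' (hsub hz')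
  have hkz := hk' z hzmem
  have hd : DiffContOnCl ℂ (fs k) (ball z r) := by
    apply DifferentiableOn.diffContOnCl
    rw [closure_ball z hr0.ne']
    exact (hfs k).mono hsub
  have hfreq : ∃ᶠ z' in 𝓝 z, fs k z' ≠ fs k z := by
    have h1 : ∀ᶠ z' in 𝓝[≠] z, fs k z' ≠ fs k z := by
      filter_upwards [self_mem_nhdsWithin, mem_nhdsWithin_of_mem_nhds
        (closedBall_mem_nhds z hr0)] with z' h1 h2 h3
      exact h1 (hinj k (hsub h2) (hsub hzmem) h3)
    exact h1.frequently.filter_mono nhdsWithin_le_nhds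
  have hcov := hd.ball_subset_image_closedBall hr0 (ε := m / 2) (fun z' hz' => by
    have h1 := hmin' z' hz'
    have h2 := hk' z' (sphere_subset_closedBall hz')
    have h3 : ‖f z' - f z‖ ≤ ‖fs k z' - fs k z‖ + ‖fs k z' - f z'‖ + ‖fs k z - f z‖ := by
      calc ‖f z' - f z‖ = ‖(fs k z' - fs k z) - (fs k z' - f z') + (fs k z - f z)‖ := by
            congr 1
            ring
        _ ≤ ‖(fs k z' - fs k z) - (fs k z' - f z')‖ + ‖fs k z - f z‖ := norm_add_le _ _
        _ ≤ _ := by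
          gcongr
          exact norm_sub_le _ _
    linarith) hfreq
  have hw' : f z ∈ ball (fs k z) (m / 2 / 2) := by
    rw [mem_ball, dist_comm, dist_eq_norm]
    linarith
  obtain ⟨z', hz', hzz⟩ := hcov hw'
  exact ⟨z', hsub hz', hzz⟩

/-- Taylor coefficients of `om φ`. -/
noncomputable def co (φ : ℂ → ℂ) (n : ℕ) : ℂ := (n.factorial : ℂ)⁻¹ * iteratedDeriv n (F1.om φ) 0

theorem om_le {φ : ℂ → ℂ} (h : IsUnif φ) {z : ℂ} (hz : ‖z‖ < 1) : ‖F1.om φ z‖ ≤ 8 := by
  have := F1.om_bound h hz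
  linarith

theorem co_le {φ : ℂ → ℂ} (h : IsUnif φ) (n : ℕ) : ‖co φ n‖ ≤ 8 := by
  have h1 : ∀ r : ℝ, 0 < r → r < 1 → ‖co φ n‖ * r ^ n ≤ 8 := by
    intro r hr0 hr1
    have hsub : closedBall (0 : ℂ) r ⊆ ball 0 1 := closedBall_subset_ball hr1
    have hd : DiffContOnCl ℂ (F1.om φ) (ball 0 r) := by
      apply DifferentiableOn.diffContOnCl
      rw [closure_ball _ hr0.ne']
      exact (F1.om_diff h).mono hsub
    have h2 := Complex.norm_iteratedDeriv_le_of_forall_mem_sphere_norm_le n hr0 hd (C := 8)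
      (fun z hz => om_le h (by
        rw [mem_sphere, dist_zero_right] at hz
        linarith))
    have hn : (0 : ℝ) < n.factorial := by exact_mod_cast n.factorial_pos
    rw [le_div_iff₀ (by positivity)] at h2
    rw [co, norm_mul, norm_inv, Complex.norm_natCast]
    calc (n.factorial : ℝ)⁻¹ * ‖iteratedDeriv n (F1.om φ) 0‖ * r ^ n
        = (n.factorial : ℝ)⁻¹ * (‖iteratedDeriv n (F1.om φ) 0‖ * r ^ n) := by ring
      _ ≤ (n.factorial : ℝ)⁻¹ * (n.factorial * 8) := by gcongr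
      _ = 8 := by field_simp
  have h2 : Tendsto (fun r : ℝ => ‖co φ n‖ * r ^ n) (𝓝[<] 1) (𝓝 (‖co φ n‖ * 1 ^ n)) := by
    refine Tendsto.mono_left ?_ nhdsWithin_le_nhds
    exact (continuous_const.mul (continuous_id.pow n)).tendsto 1
  rw [one_pow, mul_one] at h2
  refine le_of_tendsto h2 ?_
  filter_upwards [Ioo_mem_nhdsLT (show (0 : ℝ) < 1 by norm_num)] with r hr
  exact h1 r hr.1 hr.2

theorem om_eq {φ : ℂ → ℂ} (h : IsUnif φ) {z : ℂ} (hz : ‖z‖ < 1) :
    ∑' n : ℕ, co φ n * z ^ n = F1.om φ z := by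
  have := Complex.taylorSeries_eq_on_ball' (c := 0) (r := 1) (z := z) (by simpa using hz)
    (F1.om_diff h)
  simpa [co] using this

theorem summable_of_le {b : ℕ → ℂ} {C ρ : ℝ} (hb : ∀ n, ‖b n‖ ≤ C) (h0 : 0 ≤ ρ) (h1 : ρ < 1) :
    Summable fun n => ‖b n‖ * ρ ^ n := by
  refine Summable.of_nonneg_of_le (fun n => by positivity) (fun n => ?_)
    ((summable_geometric_of_lt_one h0 h1).mul_left C)
  gcongr
  exact hb n

theorem summable_of_le' {b : ℕ → ℂ} {C : ℝ} (hb : ∀ n, ‖b n‖ ≤ C) {z : ℂ} (hz : ‖z‖ < 1) :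
    Summable fun n => b n * z ^ n := by
  refine Summable.of_norm ?_
  simpa using summable_of_le hb (norm_nonneg z) hz

/-- Uniform closeness of power series. -/
theorem sub_le {b c : ℕ → ℂ} {C ρ : ℝ} (hb : ∀ n, ‖b n‖ ≤ C) (hc : ∀ n, ‖c n‖ ≤ C)
    (h1 : ρ < 1) {z : ℂ} (hz : ‖z‖ ≤ ρ) :
    ‖∑' n, b n * z ^ n - ∑' n, c n * z ^ n‖ ≤ ∑' n, ‖b n - c n‖ * ρ ^ n := by
  have hz1 : ‖z‖ < 1 := by linarith
  have h0 : 0 ≤ ρ := (norm_nonneg z).trans hz
  rw [← (summable_of_le' hb hz1).tsum_sub (summable_of_le' hc hz1)]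
  have hbc : ∀ n, ‖b n - c n‖ ≤ C + C := fun n =>
    (norm_sub_le _ _).trans (add_le_add (hb n) (hc n))
  refine tsum_of_norm_bounded (summable_of_le hbc h0 h1).hasSum fun n => ?_
  rw [← sub_mul, norm_mul, norm_pow]
  gcongr

end Pool.Agent.BlMat.F2

namespace Pool.Agent.BlMat

open Complex Metric Set Filter Topology F2

theorem unifCompact (_h : Stmt_UnifBound) : Stmt_UnifCompact := by
  intro φs hφs
  have hK : IsCompact (Set.pi univ fun _ : ℕ => closedBall (0 : ℂ) 8) :=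
    isCompact_univ_pi fun _ => isCompact_closedBall 0 8
  obtain ⟨b, hbK, s, hs, hlim⟩ := hK.tendsto_subseq (x := fun k => co (φs k)) (fun k n _ => by
    rw [mem_closedBall, dist_zero_right]
    exact co_le (hφs k) n)
  have hb : ∀ n, ‖b n‖ ≤ 8 := fun n => by
    have := hbK n (mem_univ n)
    rwa [mem_closedBall, dist_zero_right] at this
  have hlim' : ∀ n, Tendsto (fun k => co (φs (s k)) n) atTop (𝓝 (b n)) :=
    fun n => (tendsto_pi_nhds.1 hlim) n
  set g : ℂ → ℂ := fun z => ∑' n, b n * z ^ n with hg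
  -- uniform convergence
  have hD : ∀ ρ : ℝ, 0 ≤ ρ → ρ < 1 →
      Tendsto (fun k => ∑' n, ‖co (φs (s k)) n - b n‖ * ρ ^ n) atTop (𝓝 0) := by
    intro ρ h0 h1
    have h2 := tendsto_tsum_of_dominated_convergence (𝓕 := atTop)
      (f := fun k n => ‖co (φs (s k)) n - b n‖ * ρ ^ n) (g := fun _ => (0 : ℝ))
      (bound := fun n => 16 * ρ ^ n)
      ((summable_geometric_of_lt_one h0 h1).mul_left 16) ?_ ?_
    · simpa using h2
    · intro n
      have h3 : Tendsto (fun k => ‖co (φs (s k)) n - b n‖) atTop (𝓝 0) := by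
        rw [← tendsto_iff_norm_sub_tendsto_zero]
        exact hlim' n
      simpa using h3.mul_const (ρ ^ n)
    · refine Eventually.of_forall fun k n => ?_
      rw [Real.norm_of_nonneg (by positivity)]
      gcongr
      calc ‖co (φs (s k)) n - b n‖ ≤ ‖co (φs (s k)) n‖ + ‖b n‖ := norm_sub_le _ _
        _ ≤ 16 := by linarith [co_le (hφs (s k)) n, hb n]
  have hunif : ∀ ρ : ℝ, ρ < 1 → ∀ ε : ℝ, 0 < ε → ∀ᶠ k in atTop, ∀ z : ℂ, ‖z‖ ≤ ρ →
      ‖F1.om (φs (s k)) z - g z‖ ≤ ε := by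
    intro ρ hρ ε hε
    have h0 : 0 ≤ max ρ 0 := le_max_right _ _
    have h1 : max ρ 0 < 1 := max_lt hρ one_pos
    filter_upwards [(hD (max ρ 0) h0 h1).eventually (gt_mem_nhds hε)] with k hk z hz
    have hz' : ‖z‖ ≤ max ρ 0 := hz.trans (le_max_left _ _)
    have h2 := sub_le (co_le (hφs (s k))) hb h1 hz'
    rw [om_eq (hφs (s k)) (by linarith)] at h2
    exact h2.trans hk.le
  -- the limit is holomorphic
  have hgd : DifferentiableOn ℂ g (ball 0 1) := by
    intro z hz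
    have hz1 : ‖z‖ < 1 := by simpa using hz
    have hρ0 : 0 ≤ (1 + ‖z‖) / 2 := by positivity
    have hρ1 : (1 + ‖z‖) / 2 < 1 := by linarith
    have h1 : DifferentiableOn ℂ g (ball 0 ((1 + ‖z‖) / 2)) := by
      refine Complex.differentiableOn_tsum_of_summable_norm
        (F := fun (n : ℕ) (z : ℂ) => b n * z ^ n) (u := fun n => 8 * ((1 + ‖z‖) / 2) ^ n)
        ((summable_geometric_of_lt_one hρ0 hρ1).mul_left 8) ?_ isOpen_ball ?_
      · intro n
        fun_prop
      · intro n w hw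
        rw [norm_mul, norm_pow]
        have hw' : ‖w‖ ≤ (1 + ‖z‖) / 2 := by
          rw [mem_ball_zero_iff] at hw
          exact hw.le
        have := hb n
        gcongr
    have h2 : z ∈ ball (0 : ℂ) ((1 + ‖z‖) / 2) := by
      rw [mem_ball_zero_iff]
      linarith
    exact (h1.differentiableAt (isOpen_ball.mem_nhds h2)).differentiableWithinAt
  have hg0 : g 0 = 0 := by
    have h1 : Tendsto (fun k => F1.om (φs (s k)) 0) atTop (𝓝 (g 0)) := by
      rw [Metric.tendsto_atTop]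
      intro ε hε
      obtain ⟨N, hN⟩ := eventually_atTop.1 (hunif 0 one_pos (ε / 2) (by linarith))
      refine ⟨N, fun k hk => ?_⟩
      rw [dist_eq_norm]
      have := hN k hk 0 (by simp)
      linarith
    simp only [F1.om_zero] at h1
    exact tendsto_nhds_unique h1 tendsto_const_nhds |>.symm ▸ rfl
  set φ : ℂ → ℂ := fun z => 1 / z + g z with hφ
  have hφd : DifferentiableOn ℂ φ (ball 0 1 \ {0}) := by
    refine DifferentiableOn.add ?_ (hgd.mono sdiff_subset)
    exact (differentiableOn_const 1).div differentiableOn_id fun z hz => hz.2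
  have hUC : UConv (fun k => φs (s k)) φ := by
    intro ρ hρ ε hε
    filter_upwards [hunif ρ hρ ε hε] with k hk z hz0 hz
    have h1 := hk z hz
    rw [F1.om_ne _ hz0] at h1
    have e : φs (s k) z - φ z = φs (s k) z - 1 / z - g z := by
      simp only [hφ]
      ring
    rw [e]
    exact h1
  -- not locally constant
  have hnc : ∀ z : ℂ, z ≠ 0 → ‖z‖ < 1 → ¬ ∀ᶠ y in 𝓝 z, φ y = φ z := by
    intro z hz0 hz1 hev
    have han : AnalyticOnNhd ℂ (fun y => 1 + y * g y - φ z * y) (ball 0 1) := by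
      apply DifferentiableOn.analyticOnNhd _ isOpen_ball
      exact ((differentiableOn_const 1).add (differentiableOn_id.mul hgd)).sub
        ((differentiableOn_const _).mul differentiableOn_id)
    have h1 : (fun y => 1 + y * g y - φ z * y) =ᶠ[𝓝 z] 0 := by
      filter_upwards [hev, isOpen_ne.mem_nhds hz0] with y hy hy0
      have hy0' : y ≠ 0 := hy0
      have h2 : 1 / y + g y = φ z := hy
      show 1 + y * g y - φ z * y = 0
      rw [← h2]
      field_simp
      ring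
    have h3 := han.eqOn_zero_of_preconnected_of_eventuallyEq_zero
      (convex_ball 0 1).isPreconnected (by simpa using hz1) h1
    have h4 : (1 : ℂ) + 0 * g 0 - φ z * 0 = 0 := h3 (mem_ball_self one_pos)
    simp at h4
  refine ⟨φ, s, ⟨hφd, ?_, ?_⟩, hs, hUC⟩
  · -- injectivity
    intro z₁ hz₁ z₂ hz₂ h12
    by_contra hne
    have hz₁0 : z₁ ≠ 0 := hz₁.2
    have hz₂0 : z₂ ≠ 0 := hz₂.2
    have hz₁1 : ‖z₁‖ < 1 := by simpa using hz₁.1
    have hz₂1 : ‖z₂‖ < 1 := by simpa using hz₂.1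
    have hcase : ∀ z : ℂ, z ≠ 0 → ‖z‖ < 1 → ∀ R : ℝ, 0 < R → R ≤ ‖z‖ / 2 → R ≤ (1 - ‖z‖) / 2 →
        (∀ᶠ k in atTop, φ z ∈ φs (s k) '' ball z R) ∧ ball z R ⊆ ball 0 1 \ {0} := by
      intro z hz0 hz1 R hR hR1 hR2
      have hmem : ∀ y ∈ ball z R, y ≠ 0 ∧ ‖y‖ ≤ (1 + ‖z‖) / 2 := by
        intro y hy
        rw [mem_ball, dist_eq_norm] at hy
        constructor
        · rintro rfl
          rw [zero_sub, norm_neg] at hy
          linarith [norm_nonneg z]
        · have h1 : ‖y‖ ≤ ‖y - z‖ + ‖z‖ := by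
            calc ‖y‖ = ‖(y - z) + z‖ := by rw [sub_add_cancel]
              _ ≤ _ := norm_add_le _ _
          linarith
      have hsub : ball z R ⊆ ball 0 1 \ {0} := by
        intro y hy
        obtain ⟨h1, h2⟩ := hmem y hy
        refine ⟨?_, h1⟩
        rw [mem_ball_zero_iff]
        linarith
      refine ⟨?_, hsub⟩
      refine hurwitz (fs := fun k => φs (s k)) hR (fun k => (hφs (s k)).diff.mono hsub)
        (fun k => (hφs (s k)).inj.mono hsub) (hφd.mono hsub) (hnc z hz0 hz1) ?_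
      intro ε hε
      filter_upwards [hUC ((1 + ‖z‖) / 2) (by linarith) ε hε] with k hk y hy
      exact hk y (hmem y hy).1 (hmem y hy).2
    have hd : 0 < ‖z₁ - z₂‖ := norm_pos_iff.2 (sub_ne_zero.2 hne)
    have hp1 : 0 < ‖z₁‖ := norm_pos_iff.2 hz₁0
    have hp2 : 0 < ‖z₂‖ := norm_pos_iff.2 hz₂0
    set R := min (‖z₁ - z₂‖ / 2) (min (min (‖z₁‖ / 2) ((1 - ‖z₁‖) / 2))
      (min (‖z₂‖ / 2) ((1 - ‖z₂‖) / 2))) with hRdef
    have hR : 0 < R := by
      refine lt_min (by linarith) (lt_min (lt_min (by linarith) (by linarith))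
        (lt_min (by linarith) (by linarith)))
    have hRa : R ≤ ‖z₁ - z₂‖ / 2 := min_le_left _ _
    have hRb : R ≤ ‖z₁‖ / 2 := (min_le_right _ _).trans ((min_le_left _ _).trans (min_le_left _ _))
    have hRc : R ≤ (1 - ‖z₁‖) / 2 :=
      (min_le_right _ _).trans ((min_le_left _ _).trans (min_le_right _ _))
    have hRd : R ≤ ‖z₂‖ / 2 := (min_le_right _ _).trans ((min_le_right _ _).trans (min_le_left _ _))
    have hRe : R ≤ (1 - ‖z₂‖) / 2 :=
      (min_le_right _ _).trans ((min_le_right _ _).trans (min_le_right _ _))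
    obtain ⟨ha1, ha2⟩ := hcase z₁ hz₁0 hz₁1 R hR hRb hRc
    obtain ⟨hb1, hb2⟩ := hcase z₂ hz₂0 hz₂1 R hR hRd hRe
    obtain ⟨k, ⟨y₁, hy₁, e₁⟩, ⟨y₂, hy₂, e₂⟩⟩ := (ha1.and hb1).exists
    have h1 : y₁ = y₂ := (hφs (s k)).inj (ha2 hy₁) (hb2 hy₂) (by rw [e₁, e₂, h12])
    rw [mem_ball, dist_eq_norm] at hy₁ hy₂
    rw [← h1] at hy₂
    have h2 : ‖z₁ - z₂‖ ≤ ‖y₁ - z₁‖ + ‖y₁ - z₂‖ := by
      calc ‖z₁ - z₂‖ = ‖(y₁ - z₂) - (y₁ - z₁)‖ := by
            congr 1
            ring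
        _ ≤ ‖y₁ - z₂‖ + ‖y₁ - z₁‖ := norm_sub_le _ _
        _ = _ := add_comm _ _
    linarith
  · -- normalisation
    have h1 : ContinuousAt g 0 :=
      (hgd.differentiableAt (ball_mem_nhds 0 one_pos)).continuousAt
    have h2 : Tendsto g (𝓝[≠] 0) (𝓝 0) := by
      have h3 := h1.tendsto
      rw [hg0] at h3
      exact h3.mono_left nhdsWithin_le_nhds
    refine h2.congr fun z => ?_
    simp only [hφ]
    ring

end Pool.Agent.BlMat
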