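import Mathlib
import Pool.Agent.BlMat.Defs
import Pool.Agent.BlMat.F1

set_option autoImplicit false

/-!
# Convergence of normalised univalent maps and of their inverses (block F3)
-/

namespace Pool.Agent.BlMat

open Complex Metric Set Filter Topology MeasureTheory
open scoped ComplexConjugate ContDiff

namespace F3

theorem tendsto_infty_iff {xs : ℕ → OnePoint ℂ} :
    Tendsto xs atTop (𝓝 OnePoint.infty) ↔
      ∀ R : ℝ, ∀ᶠ k in atTop, ∀ w : ℂ, xs k = (w : OnePoint ℂ) → R < ‖w‖ := by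
  constructor
  · intro h R
    have h1 : ((↑) '' (closedBall (0 : ℂ) R) : Set (OnePoint ℂ))ᶜ ∈ 𝓝 (OnePoint.infty) :=
      (OnePoint.isOpen_compl_image_coe.2 ⟨isClosed_closedBall,
        isCompact_closedBall 0 R⟩).mem_nhds (by
          exact OnePoint.infty_notMem_image_coe)
    filter_upwards [h h1] with k hk w hw
    by_contra hcon
    push Not at hcon
    exact hk ⟨w, mem_closedBall_zero_iff.2 hcon, hw.symm⟩
  · intro h
    rw [(OnePoint.hasBasis_nhds_infty (X := ℂ)).tendsto_right_iff]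
    rintro s ⟨-, hs⟩
    obtain ⟨R, hR⟩ := hs.isBounded.subset_closedBall (0 : ℂ)
    filter_upwards [h R] with k hk
    by_cases hx : xs k = OnePoint.infty
    · right
      exact hx
    · left
      obtain ⟨w, hw⟩ := OnePoint.ne_infty_iff_exists.1 hx
      refine ⟨w, fun hws => ?_, hw⟩
      have h1 := hk w hw.symm
      have h2 := mem_closedBall_zero_iff.1 (hR hws)
      linarith

theorem norm_ge {φ : ℂ → ℂ} (h : IsUnif φ) {z : ℂ} (h0 : z ≠ 0) (h1 : ‖z‖ < 1) :
    1 / ‖z‖ - 8 * ‖z‖ ≤ ‖φ z‖ := by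
  have h2 := F1.om_bound h h1
  rw [F1.om_ne φ h0] at h2
  have h3 : ‖1 / z‖ ≤ ‖φ z‖ + ‖φ z - 1 / z‖ := by
    calc ‖1 / z‖ = ‖φ z - (φ z - 1 / z)‖ := by rw [sub_sub_cancel]
      _ ≤ _ := norm_sub_le _ _
  rw [norm_div, norm_one] at h3
  linarith

theorem norm_le {φ : ℂ → ℂ} (h : IsUnif φ) {z : ℂ} (h0 : z ≠ 0) (h1 : ‖z‖ < 1) :
    ‖φ z‖ ≤ 1 / ‖z‖ + 8 * ‖z‖ := by
  have h2 := F1.om_bound h h1
  rw [F1.om_ne φ h0] at h2
  have h3 : ‖φ z‖ ≤ ‖1 / z‖ + ‖φ z - 1 / z‖ := by
    calc ‖φ z‖ = ‖1 / z + (φ z - 1 / z)‖ := by rw [add_sub_cancel]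
      _ ≤ _ := norm_add_le _ _
  rw [norm_div, norm_one] at h3
  linarith

theorem hat_zero (φ : ℂ → ℂ) : hat φ 0 = OnePoint.infty := if_pos rfl

theorem hat_ne (φ : ℂ → ℂ) {z : ℂ} (hz : z ≠ 0) : hat φ z = (φ z : OnePoint ℂ) := if_neg hz

/-- Covering near infinity. -/
theorem cover_infty {φ : ℂ → ℂ} (h : IsUnif φ) {ε : ℝ} (h0 : 0 < ε) (h1 : ε < 1) {w : ℂ}
    (hw : 1 / ε + 8 < ‖w‖) : ∃ z : ℂ, z ≠ 0 ∧ ‖z‖ < ε ∧ φ z = w := by
  refine F1.covering h h0 h1 fun z hz => ?_
  have hne : z ≠ 0 := by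
    rintro rfl
    rw [norm_zero] at hz
    exact h0.ne hz
  have h2 := norm_le h hne (by rw [hz]; exact h1)
  rw [hz] at h2
  linarith

/-- Local covering. -/
theorem local_cover {φs : ℕ → ℂ → ℂ} {φ : ℂ → ℂ} (hs : ∀ k, IsUnif (φs k)) (h : IsUnif φ)
    (hc : UConv φs φ) {z : ℂ} (hz0 : z ≠ 0) (hz1 : ‖z‖ < 1) {ε : ℝ} (hε : 0 < ε) :
    ∃ δ : ℝ, 0 < δ ∧ ∀ᶠ k in atTop, ∀ w ∈ ball (φ z) δ,
      ∃ z' : ℂ, z' ≠ 0 ∧ ‖z'‖ < 1 ∧ dist z' z < ε ∧ φs k z' = w := by
  have hzp : 0 < ‖z‖ := norm_pos_iff.2 hz0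
  set r := min (ε / 2) (min (‖z‖ / 2) ((1 - ‖z‖) / 2)) with hr
  have hr0 : 0 < r := lt_min (by linarith) (lt_min (by linarith) (by linarith))
  have hr1 : r ≤ ε / 2 := min_le_left _ _
  have hr2 : r ≤ ‖z‖ / 2 := (min_le_right _ _).trans (min_le_left _ _)
  have hr3 : r ≤ (1 - ‖z‖) / 2 := (min_le_right _ _).trans (min_le_right _ _)
  have hball : ∀ z' ∈ closedBall z r, z' ≠ 0 ∧ ‖z'‖ ≤ (1 + ‖z‖) / 2 := by
    intro z' hz'
    rw [mem_closedBall, dist_eq_norm] at hz'
    constructor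
    · rintro rfl
      rw [zero_sub, norm_neg] at hz'
      linarith
    · have h1 : ‖z'‖ ≤ ‖z' - z‖ + ‖z‖ := by
        calc ‖z'‖ = ‖(z' - z) + z‖ := by rw [sub_add_cancel]
          _ ≤ _ := norm_add_le _ _
      linarith
  have hsub : closedBall z r ⊆ ball (0 : ℂ) 1 \ {0} := by
    intro z' hz'
    obtain ⟨h1, h2⟩ := hball z' hz'
    refine ⟨?_, h1⟩
    rw [mem_ball_zero_iff]
    linarith
  have hzmem : z ∈ ball (0 : ℂ) 1 \ {0} := hsub (mem_closedBall_self hr0.le)
  obtain ⟨z1, hz1', hmin⟩ := (isCompact_sphere z r).exists_isMinOn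
    (NormedSpace.sphere_nonempty.2 hr0.le) (f := fun z' => ‖φ z' - φ z‖)
    ((((h.diff.continuousOn.mono (sphere_subset_closedBall.trans hsub))).sub
      continuousOn_const).norm)
  set m := ‖φ z1 - φ z‖ with hm
  have hm0 : 0 < m := by
    rw [hm, norm_pos_iff, sub_ne_zero]
    intro h1
    have h2 := h.inj (hsub (sphere_subset_closedBall hz1')) hzmem h1
    rw [h2, mem_sphere, dist_self] at hz1'
    exact hr0.ne hz1'
  have hmin' : ∀ z' ∈ sphere z r, m ≤ ‖φ z' - φ z‖ := fun z' hz' => hmin hz'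
  refine ⟨m / 8, by linarith, ?_⟩
  filter_upwards [hc ((1 + ‖z‖) / 2) (by linarith) (m / 8) (by linarith)] with k hk w hw
  have hk' : ∀ z' ∈ closedBall z r, ‖φs k z' - φ z'‖ ≤ m / 8 := fun z' hz' =>
    hk z' (hball z' hz').1 (hball z' hz').2
  have hkz := hk' z (mem_closedBall_self hr0.le)
  have hd : DiffContOnCl ℂ (φs k) (ball z r) := by
    apply DifferentiableOn.diffContOnCl
    rw [closure_ball z hr0.ne']
    exact (hs k).diff.mono hsub
  have hfreq : ∃ᶠ z' in 𝓝 z, φs k z' ≠ φs k z := by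
    have h1 : ∀ᶠ z' in 𝓝[≠] z, φs k z' ≠ φs k z := by
      filter_upwards [self_mem_nhdsWithin, mem_nhdsWithin_of_mem_nhds
        (closedBall_mem_nhds z hr0)] with z' h1 h2 h3
      exact h1 ((hs k).inj (hsub h2) hzmem h3)
    exact h1.frequently.filter_mono nhdsWithin_le_nhds
  have hcov := hd.ball_subset_image_closedBall hr0 (ε := m / 2) (fun z' hz' => by
    have h1 := hmin' z' hz'
    have h2 := hk' z' (sphere_subset_closedBall hz')
    have h3 : ‖φ z' - φ z‖ ≤ ‖φs k z' - φs k z‖ + ‖φs k z' - φ z'‖ + ‖φs k z - φ z‖ := by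
      calc ‖φ z' - φ z‖ = ‖(φs k z' - φs k z) - (φs k z' - φ z') + (φs k z - φ z)‖ := by
            congr 1
            ring
        _ ≤ ‖(φs k z' - φs k z) - (φs k z' - φ z')‖ + ‖φs k z - φ z‖ := norm_add_le _ _
        _ ≤ _ := by
          gcongr
          exact norm_sub_le _ _
    linarith) hfreq
  have hw' : w ∈ ball (φs k z) (m / 2 / 2) := by
    rw [mem_ball] at hw ⊢
    have h1 := dist_triangle w (φ z) (φs k z)
    rw [dist_comm (φ z), dist_eq_norm (φs k z)] at h1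
    linarith
  obtain ⟨z', hz', rfl⟩ := hcov hw'
  obtain ⟨h1, h2⟩ := hball z' hz'
  refine ⟨z', h1, by linarith, ?_, rfl⟩
  rw [mem_closedBall] at hz'
  linarith

end F3

open F3 in
theorem unifConv (_h : Stmt_UnifBound) : Stmt_UnifConv := by
  intro φs φ hs h hc
  refine ⟨?_, ?_, ?_⟩
  · intro z zs hz hzs
    by_cases hz0 : z = 0
    · subst hz0
      rw [hat_zero, tendsto_infty_iff]
      intro R
      -- choose `ε` with `1 / ε - 8 ε > R`
      set ε : ℝ := min (1 / 2) (1 / (|R| + 9)) with hε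
      have hRp : 0 < |R| + 9 := by positivity
      have hε0 : 0 < ε := lt_min (by norm_num) (by positivity)
      filter_upwards [hzs (ball_mem_nhds (0 : ℂ) hε0)] with k hk w hw
      rw [mem_preimage, mem_ball_zero_iff] at hk
      by_cases hk0 : zs k = 0
      · rw [hk0, hat_zero] at hw
        exact absurd hw.symm (OnePoint.coe_ne_infty w)
      · rw [hat_ne _ hk0, OnePoint.coe_eq_coe] at hw
        rw [← hw]
        have h1 : ‖zs k‖ < 1 / 2 := hk.trans_le (min_le_left _ _)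
        have h2 : ‖zs k‖ < 1 / (|R| + 9) := hk.trans_le (min_le_right _ _)
        have h3 := norm_ge (hs k) hk0 (by linarith)
        have hp : 0 < ‖zs k‖ := norm_pos_iff.2 hk0
        have h4 : |R| + 9 < 1 / ‖zs k‖ := by
          rw [lt_div_iff₀ hRp] at h2
          rw [lt_div_iff₀ hp]
          linarith
        have h5 := le_abs_self R
        linarith
    · rw [hat_ne φ hz0]
      have h1 : Tendsto (fun k => φs k (zs k)) atTop (𝓝 (φ z)) := by
        have h2 : Tendsto (fun k => φ (zs k)) atTop (𝓝 (φ z)) := by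
          have h3 : ContinuousAt φ z := by
            refine (h.diff.differentiableAt ?_).continuousAt
            refine (isOpen_ball.sdiff isClosed_singleton).mem_nhds ⟨?_, hz0⟩
            rw [mem_ball_zero_iff]
            exact hz
          exact h3.tendsto.comp hzs
        have h3 : Tendsto (fun k => φs k (zs k) - φ (zs k)) atTop (𝓝 0) := by
          rw [Metric.tendsto_nhds]
          intro ε hε
          have h4 : ∀ᶠ k in atTop, ‖zs k‖ < (1 + ‖z‖) / 2 :=
            (hzs.norm).eventually (gt_mem_nhds (by linarith))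
          have h5 : ∀ᶠ k in atTop, zs k ≠ 0 := hzs.eventually_ne hz0
          filter_upwards [hc ((1 + ‖z‖) / 2) (by linarith) (ε / 2) (by linarith), h4, h5]
            with k h6 h7 h8
          rw [dist_zero_right]
          have := h6 (zs k) h8 h7.le
          linarith
        have h4 := h3.add h2
        simpa using h4
      have h2 : Tendsto (fun k => ((φs k (zs k) : ℂ) : OnePoint ℂ)) atTop
          (𝓝 ((φ z : ℂ) : OnePoint ℂ)) := (OnePoint.continuous_coe.tendsto _).comp h1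
      refine h2.congr' ?_
      filter_upwards [hzs.eventually_ne hz0] with k hk
      exact (hat_ne _ hk).symm
  · intro z zs hz hzs1 hlim
    rw [Metric.tendsto_nhds]
    intro ε hε
    by_cases hz0 : z = 0
    · subst hz0
      rw [hat_zero, tendsto_infty_iff] at hlim
      set ε' := min ε (1 / 2) with hε'
      have hε0 : 0 < ε' := lt_min hε (by norm_num)
      have hε1 : ε' < 1 := (min_le_right _ _).trans_lt (by norm_num)
      filter_upwards [hlim (1 / ε' + 8)] with k hk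
      rw [dist_zero_right]
      by_cases hk0 : zs k = 0
      · rw [hk0, norm_zero]
        exact hε
      · obtain ⟨z', h1, h2, h3⟩ := cover_infty (hs k) hε0 hε1 (hk (φs k (zs k)) (hat_ne _ hk0))
        have h4 := (hs k).inj ⟨mem_ball_zero_iff.2 (by linarith), h1⟩
          ⟨mem_ball_zero_iff.2 (hzs1 k), hk0⟩ h3
        rw [← h4]
        exact h2.trans_le (min_le_left _ _)
    · rw [hat_ne φ hz0] at hlim
      obtain ⟨δ, hδ, hcov⟩ := local_cover hs h hc hz0 hz hε
      have h1 : ((↑) '' (ball (φ z) δ) : Set (OnePoint ℂ)) ∈ 𝓝 ((φ z : ℂ) : OnePoint ℂ) :=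
        OnePoint.isOpenEmbedding_coe.isOpenMap.image_mem_nhds (ball_mem_nhds _ hδ)
      filter_upwards [hcov, hlim h1] with k h2 h3
      obtain ⟨w, hw, hw'⟩ := h3
      beta_reduce at hw'
      have hk0 : zs k ≠ 0 := by
        intro hk0
        rw [hk0, hat_zero] at hw'
        exact OnePoint.coe_ne_infty w hw'
      rw [hat_ne _ hk0, OnePoint.coe_eq_coe] at hw'
      obtain ⟨z', h4, h5, h6, h7⟩ := h2 w hw
      have h8 := (hs k).inj ⟨mem_ball_zero_iff.2 h5, h4⟩
          ⟨mem_ball_zero_iff.2 (hzs1 k), hk0⟩ (h7.trans hw')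
      rw [← h8]
      exact h6
  · rintro x xs ⟨z, hz, rfl⟩ hlim
    rw [mem_ball_zero_iff] at hz
    by_cases hz0 : z = 0
    · subst hz0
      rw [hat_zero, tendsto_infty_iff] at hlim
      filter_upwards [hlim (1 / (1 / 2) + 8)] with k hk
      by_cases hx : xs k = OnePoint.infty
      · refine ⟨0, mem_ball_self one_pos, ?_⟩
        rw [hat_zero, hx]
      · obtain ⟨w, hw⟩ := OnePoint.ne_infty_iff_exists.1 hx
        obtain ⟨z', h1, h2, h3⟩ := cover_infty (hs k) (ε := 1 / 2) (by norm_num) (by norm_num)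
          (hk w hw.symm)
        refine ⟨z', mem_ball_zero_iff.2 (by linarith), ?_⟩
        rw [hat_ne _ h1, h3, hw]
    · rw [hat_ne φ hz0] at hlim
      obtain ⟨δ, hδ, hcov⟩ := local_cover hs h hc hz0 hz one_pos
      have h1 : ((↑) '' (ball (φ z) δ) : Set (OnePoint ℂ)) ∈ 𝓝 ((φ z : ℂ) : OnePoint ℂ) :=
        OnePoint.isOpenEmbedding_coe.isOpenMap.image_mem_nhds (ball_mem_nhds _ hδ)
      filter_upwards [hcov, hlim h1] with k h2 h3
      obtain ⟨w, hw, hw'⟩ := h3
      obtain ⟨z', h4, h5, -, h7⟩ := h2 w hw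
      refine ⟨z', mem_ball_zero_iff.2 h5, ?_⟩
      rw [hat_ne _ h4, h7, hw']

end Pool.Agent.BlMat
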