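import Pool.Agent.BlMat.Defs
import Pool.Agent.Squeeze.OneDim

set_option autoImplicit false

/-! Koebe distortion theorem with non-sharp constants. -/

namespace Pool.Agent.BlMat.F4

open Complex Metric Set Filter Topology

/-- A value omitted by a normalised univalent map is bounded. -/
theorem omitted_bound (h : Stmt_UnifBound) :
    ∃ C R : ℝ, 0 < C ∧ 1 ≤ R ∧
      (∀ φ : ℂ → ℂ, IsUnif φ → ∀ z : ℂ, z ≠ 0 → ‖z‖ ≤ 1 / 2 → ‖φ z - 1 / z‖ ≤ C * ‖z‖) ∧
      ∀ φ : ℂ → ℂ, IsUnif φ → ∀ w : ℂ, (∀ z : ℂ, z ≠ 0 → ‖z‖ < 1 → φ z ≠ w) → ‖w‖ < R := by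
  obtain ⟨C, hC, hb⟩ := h.1 (1 / 2) (by norm_num)
  refine ⟨C, C / 2 + 3, hC, by linarith, hb, fun φ hφ w hw => ?_⟩
  by_contra hcon
  rw [not_lt] at hcon
  have hside : ∀ z : ℂ, ‖z‖ = 1 / 2 → ‖φ z‖ < ‖w‖ := by
    intro z hz
    have hz0 : z ≠ 0 := by
      intro h0
      rw [h0, norm_zero] at hz
      norm_num at hz
    have h1 := hb φ hφ z hz0 hz.le
    have h2 : ‖(1 : ℂ) / z‖ = 2 := by
      rw [norm_div, hz, norm_one]
      norm_num
    have h3 : ‖φ z‖ ≤ ‖φ z - 1 / z‖ + ‖(1 : ℂ) / z‖ := by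
      calc ‖φ z‖ = ‖(φ z - 1 / z) + 1 / z‖ := by rw [sub_add_cancel]
        _ ≤ _ := norm_add_le _ _
    rw [hz] at h1
    linarith
  obtain ⟨z, hz0, hz1, hz2⟩ := h.2 φ hφ (1 / 2) (by norm_num) (by norm_num) w hside
  exact hw z hz0 (by linarith) hz2

/-- The normalised case. -/
theorem normalised (h : Stmt_UnifBound) :
    ∃ R r₀ : ℝ, 1 ≤ R ∧ 0 < r₀ ∧ r₀ ≤ 1 / 2 ∧
      ∀ f : ℂ → ℂ, DifferentiableOn ℂ f (ball 0 1) → InjOn f (ball 0 1) → f 0 = 0 →
        deriv f 0 = 1 →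
        ball 0 (1 / (2 * R)) ⊆ f '' ball 0 1 ∧ ∀ z : ℂ, ‖z‖ ≤ r₀ → ‖f z‖ ≤ 2 * ‖z‖ := by
  obtain ⟨C, R, hC, hR, hb, hom⟩ := omitted_bound h
  have hr₀ : 1 / (2 * (R + C)) ≤ 1 / 2 := by
    apply one_div_le_one_div_of_le (by norm_num)
    linarith
  refine ⟨R, 1 / (2 * (R + C)), hR, by positivity, hr₀, fun f hf hinj hf0 hf1 => ?_⟩
  have hball : ball (0 : ℂ) 1 ∈ 𝓝 (0 : ℂ) := ball_mem_nhds _ one_pos
  have h0mem : (0 : ℂ) ∈ ball (0 : ℂ) 1 := mem_ball_self one_pos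
  have hfne : ∀ z : ℂ, z ≠ 0 → ‖z‖ < 1 → f z ≠ 0 := by
    intro z hz0 hz1 hfz
    exact hz0 (hinj (by simpa using hz1) h0mem (hfz.trans hf0.symm))
  set k : ℂ → ℂ := fun z => (dslope f 0 z)⁻¹ with hk
  have hds : ∀ z : ℂ, z ≠ 0 → dslope f 0 z = f z / z := by
    intro z hz
    rw [dslope_of_ne _ hz, slope_def_field, hf0, sub_zero, sub_zero]
  have hds0 : dslope f 0 0 = 1 := by rw [dslope_same, hf1]
  have hdsne : ∀ z ∈ ball (0 : ℂ) 1, dslope f 0 z ≠ 0 := by
    intro z hz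
    rcases eq_or_ne z 0 with rfl | hz0
    · rw [hds0]; exact one_ne_zero
    · rw [hds z hz0]
      exact div_ne_zero (hfne z hz0 (by simpa using hz)) hz0
  have hkd : DifferentiableOn ℂ k (ball 0 1) :=
    ((Complex.differentiableOn_dslope hball).2 hf).inv hdsne
  have hk0 : k 0 = 1 := by simp [hk, hf1]
  have hkat : HasDerivAt k (deriv k 0) 0 := (hkd.differentiableAt hball).hasDerivAt
  set b : ℂ := deriv k 0 with hbdef
  have hkz : ∀ z : ℂ, z ≠ 0 → (f z)⁻¹ = k z / z := by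
    intro z hz
    simp only [hk]
    rw [hds z hz, inv_div]
    rcases eq_or_ne (f z) 0 with h0 | h0
    · simp [h0]
    · field_simp
  set φ : ℂ → ℂ := fun z => (f z)⁻¹ - b with hφdef
  have hφ : IsUnif φ := by
    refine ⟨?_, ?_, ?_⟩
    · refine DifferentiableOn.sub_const (DifferentiableOn.inv (hf.mono sdiff_subset) ?_) b
      intro z hz
      exact hfne z hz.2 (by simpa using hz.1)
    · intro x hx y hy hxy
      have h1 : (f x)⁻¹ = (f y)⁻¹ := sub_left_injective hxy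
      exact hinj hx.1 hy.1 (inv_injective h1)
    · have h1 := hasDerivAt_iff_tendsto_slope.1 hkat
      have h2 : Tendsto (fun z => slope k 0 z - b) (𝓝[≠] 0) (𝓝 (b - b)) := h1.sub_const b
      rw [sub_self] at h2
      refine h2.congr' ?_
      filter_upwards [self_mem_nhdsWithin] with z hz
      have hz0 : z ≠ 0 := hz
      simp only [hφdef]
      rw [hkz z hz0, slope_def_field, hk0, sub_zero]
      ring
  have hbR : ‖b‖ < R := by
    have := hom φ hφ (-b) ?_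
    · simpa using this
    · intro z hz0 hz1 hz
      have h1 : (f z)⁻¹ = 0 := by
        have h2 : (f z)⁻¹ - b = -b := hz
        linear_combination h2
      exact hfne z hz0 hz1 (inv_eq_zero.1 h1)
  constructor
  · intro w hw
    by_contra hcon
    have hw0 : w ≠ 0 := by
      rintro rfl
      exact hcon ⟨0, h0mem, hf0⟩
    have h1 := hom φ hφ (w⁻¹ - b) ?_
    · have h2 : ‖w⁻¹‖ < 2 * R := by
        calc ‖w⁻¹‖ = ‖(w⁻¹ - b) + b‖ := by rw [sub_add_cancel]
          _ ≤ ‖w⁻¹ - b‖ + ‖b‖ := norm_add_le _ _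
          _ < 2 * R := by linarith
      rw [norm_inv] at h2
      have h3 : ‖w‖ < 1 / (2 * R) := by simpa using hw
      have h4 : 0 < ‖w‖ := norm_pos_iff.2 hw0
      have h5 : ‖w‖ * (2 * R) < 1 := by
        rwa [lt_div_iff₀ (by positivity)] at h3
      rw [inv_lt_iff_one_lt_mul₀ h4] at h2
      linarith
    · intro z hz0 hz1 hz
      apply hcon
      refine ⟨z, by simpa using hz1, ?_⟩
      have h2 : (f z)⁻¹ - b = w⁻¹ - b := hz
      exact inv_injective (sub_left_injective h2)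
  · intro z hz
    rcases eq_or_ne z 0 with rfl | hz0
    · simp [hf0]
    have hzpos : 0 < ‖z‖ := norm_pos_iff.2 hz0
    have hz12 : ‖z‖ ≤ 1 / 2 := hz.trans hr₀
    have h1 := hb φ hφ z hz0 hz12
    have h2 : ‖(1 : ℂ) / z‖ ≤ ‖(f z)⁻¹‖ + ‖b‖ + C * ‖z‖ := by
      have e : (1 : ℂ) / z = (f z)⁻¹ - b - (φ z - 1 / z) := by
        simp only [hφdef]
        ring
      calc ‖(1 : ℂ) / z‖ = ‖(f z)⁻¹ - b - (φ z - 1 / z)‖ := by rw [← e]
        _ ≤ ‖(f z)⁻¹ - b‖ + ‖φ z - 1 / z‖ := norm_sub_le _ _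
        _ ≤ ‖(f z)⁻¹‖ + ‖b‖ + C * ‖z‖ := add_le_add (norm_sub_le _ _) h1
    rw [norm_div, norm_one, norm_inv] at h2
    have hfz : 0 < ‖f z‖ := norm_pos_iff.2 (hfne z hz0 (by linarith))
    have h3 : (R + C) * ‖z‖ ≤ 1 / 2 := by
      rw [le_div_iff₀ (by positivity)] at hz
      linarith
    have h4 : ‖z‖ * (‖f z‖⁻¹ + ‖b‖ + C * ‖z‖) ≥ 1 := by
      have := mul_le_mul_of_nonneg_left h2 hzpos.le
      rw [mul_one_div_cancel hzpos.ne'] at this
      exact this
    have h5 : ‖z‖ * ‖f z‖⁻¹ ≥ 1 / 2 := by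
      nlinarith [mul_le_mul_of_nonneg_left hz12 (mul_nonneg hC.le hzpos.le),
        mul_le_mul_of_nonneg_left hbR.le hzpos.le, mul_pos hC hzpos]
    rw [ge_iff_le, ← div_eq_mul_inv, le_div_iff₀ hfz] at h5
    linarith

/-- Scaled form. -/
theorem scaled (h : Stmt_UnifBound) :
    ∃ R r₀ : ℝ, 1 ≤ R ∧ 0 < r₀ ∧ r₀ ≤ 1 / 2 ∧
      ∀ (F : ℂ → ℂ) (c : ℂ) (r : ℝ), 0 < r → DifferentiableOn ℂ F (ball c r) →
        InjOn F (ball c r) →
        ball (F c) (‖deriv F c‖ * r / (2 * R)) ⊆ F '' ball c r ∧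
        ∀ z : ℂ, ‖z - c‖ ≤ r₀ * r → ‖F z - F c‖ ≤ 2 * ‖deriv F c‖ * ‖z - c‖ := by
  obtain ⟨R, r₀, hR, hr₀, hr₀', hn⟩ := normalised h
  refine ⟨R, r₀, hR, hr₀, hr₀', fun F c r hr hF hinj => ?_⟩
  have hd : deriv F c ≠ 0 :=
    Pool.Agent.Squeeze.deriv_ne_zero_of_injOn isOpen_ball hF hinj (mem_ball_self hr)
  have hrC : (r : ℂ) ≠ 0 := by exact_mod_cast hr.ne'
  have hmaps : ∀ z ∈ ball (0 : ℂ) 1, c + r * z ∈ ball c r := by
    intro z hz
    rw [mem_ball, dist_eq_norm, add_sub_cancel_left, norm_mul, Complex.norm_real,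
      Real.norm_of_nonneg hr.le]
    have : ‖z‖ < 1 := by simpa using hz
    nlinarith
  set f : ℂ → ℂ := fun z => (F (c + r * z) - F c) / (r * deriv F c) with hf
  have hrd : (r : ℂ) * deriv F c ≠ 0 := mul_ne_zero hrC hd
  have hlin : ∀ z : ℂ, HasDerivAt (fun z : ℂ => c + r * z) r z := by
    intro z
    simpa using ((hasDerivAt_id z).const_mul (r : ℂ)).const_add c
  have hfd : DifferentiableOn ℂ f (ball 0 1) := by
    refine DifferentiableOn.div_const (DifferentiableOn.sub_const ?_ _) _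
    exact hF.comp (fun z _ => (hlin z).differentiableAt.differentiableWithinAt) hmaps
  have hfi : InjOn f (ball 0 1) := by
    intro x hx y hy hxy
    have h1 : (F (c + r * x) - F c) / (r * deriv F c) = (F (c + r * y) - F c) / (r * deriv F c) :=
      hxy
    have h2 : F (c + r * x) = F (c + r * y) := by
      rw [div_left_inj' hrd] at h1
      exact sub_left_injective h1
    have h3 := hinj (hmaps x hx) (hmaps y hy) h2
    exact mul_left_cancel₀ hrC (add_left_cancel h3)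
  have hf0 : f 0 = 0 := by simp [hf]
  have hf1 : deriv f 0 = 1 := by
    have h1 : HasDerivAt F (deriv F c) (c + r * (0 : ℂ)) := by
      have := (hF.differentiableAt (ball_mem_nhds c hr)).hasDerivAt
      simpa using this
    have h2 : HasDerivAt (fun z : ℂ => F (c + r * z)) (deriv F c * r) 0 :=
      HasDerivAt.comp (0 : ℂ) h1 (hlin 0)
    have h3 := (h2.sub_const (F c)).div_const (r * deriv F c)
    have h4 : deriv f 0 = deriv F c * r / (r * deriv F c) := h3.deriv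
    rw [h4, mul_comm (deriv F c)]
    exact div_self hrd
  obtain ⟨h1, h2⟩ := hn f hfd hfi hf0 hf1
  have hnd : ‖(r : ℂ) * deriv F c‖ = r * ‖deriv F c‖ := by
    rw [norm_mul, Complex.norm_real, Real.norm_of_nonneg hr.le]
  have hdpos : 0 < ‖deriv F c‖ := norm_pos_iff.2 hd
  constructor
  · intro w hw
    have hw' : (w - F c) / (r * deriv F c) ∈ ball (0 : ℂ) (1 / (2 * R)) := by
      rw [mem_ball_zero_iff, norm_div, hnd, div_lt_iff₀ (by positivity)]
      rw [mem_ball, dist_eq_norm] at hw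
      calc ‖w - F c‖ < ‖deriv F c‖ * r / (2 * R) := hw
        _ = 1 / (2 * R) * (r * ‖deriv F c‖) := by ring
    obtain ⟨z, hz, hzw⟩ := h1 hw'
    refine ⟨c + r * z, hmaps z hz, ?_⟩
    have h3 : (F (c + r * z) - F c) / (r * deriv F c) = (w - F c) / (r * deriv F c) := hzw
    rw [div_left_inj' hrd] at h3
    exact sub_left_injective h3
  · intro z hz
    have h3 := h2 ((z - c) / r) (by
      rw [norm_div, Complex.norm_real, Real.norm_of_nonneg hr.le, div_le_iff₀ hr]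
      exact hz)
    have h4 : f ((z - c) / r) = (F z - F c) / (r * deriv F c) := by
      simp only [hf]
      rw [mul_div_cancel₀ _ hrC, add_sub_cancel]
    rw [h4, norm_div, hnd, norm_div, Complex.norm_real, Real.norm_of_nonneg hr.le,
      div_le_iff₀ (by positivity)] at h3
    calc ‖F z - F c‖ ≤ 2 * (‖z - c‖ / r) * (r * ‖deriv F c‖) := h3
      _ = 2 * ‖deriv F c‖ * ‖z - c‖ := by field_simp

/-- Derivative distortion on a small disc. -/
theorem deriv_small (h : Stmt_UnifBound) :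
    ∃ R r₀ : ℝ, 1 ≤ R ∧ 0 < r₀ ∧ r₀ ≤ 1 / 2 ∧
      ∀ (F : ℂ → ℂ) (c : ℂ) (r : ℝ), 0 < r → DifferentiableOn ℂ F (ball c r) →
        InjOn F (ball c r) →
        ball (F c) (‖deriv F c‖ * r / (2 * R)) ⊆ F '' ball c r ∧
        ∀ z : ℂ, ‖z - c‖ ≤ r₀ * r / 2 → ‖deriv F z‖ ≤ 4 * ‖deriv F c‖ := by
  obtain ⟨R, r₀, hR, hr₀, hr₀', hn⟩ := scaled h
  refine ⟨R, r₀, hR, hr₀, hr₀', fun F c r hr hF hinj => ?_⟩
  obtain ⟨h1, h2⟩ := hn F c r hr hF hinj
  refine ⟨h1, fun z hz => ?_⟩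
  have hρ : 0 < r₀ * r / 2 := by positivity
  have hsub : closedBall z (r₀ * r / 2) ⊆ ball c r := by
    intro y hy
    rw [mem_closedBall, dist_eq_norm] at hy
    rw [mem_ball, dist_eq_norm]
    have h3 : ‖y - c‖ ≤ ‖y - z‖ + ‖z - c‖ := by
      calc ‖y - c‖ = ‖(y - z) + (z - c)‖ := by rw [sub_add_sub_cancel]
        _ ≤ _ := norm_add_le _ _
    nlinarith
  have hd : DiffContOnCl ℂ (fun y => F y - F c) (ball z (r₀ * r / 2)) := by
    refine DifferentiableOn.diffContOnCl ?_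
    rw [closure_ball z hρ.ne']
    exact (hF.mono hsub).sub_const _
  have h3 := Complex.norm_deriv_le_of_forall_mem_sphere_norm_le (f := fun y => F y - F c)
    (c := z) (C := 2 * ‖deriv F c‖ * (r₀ * r)) hρ hd ?_
  · rw [deriv_sub_const] at h3
    calc ‖deriv F z‖ ≤ 2 * ‖deriv F c‖ * (r₀ * r) / (r₀ * r / 2) := h3
      _ = 4 * ‖deriv F c‖ := by
        field_simp
        ring
  · intro y hy
    rw [mem_sphere, dist_eq_norm] at hy
    have h4 : ‖y - c‖ ≤ r₀ * r := by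
      calc ‖y - c‖ = ‖(y - z) + (z - c)‖ := by rw [sub_add_sub_cancel]
        _ ≤ ‖y - z‖ + ‖z - c‖ := norm_add_le _ _
        _ ≤ r₀ * r := by linarith
    calc ‖F y - F c‖ ≤ 2 * ‖deriv F c‖ * ‖y - c‖ := h2 y h4
      _ ≤ 2 * ‖deriv F c‖ * (r₀ * r) := by gcongr

/-- Derivative distortion on the half disc. -/
theorem deriv_half (h : Stmt_UnifBound) :
    ∃ R K : ℝ, 1 ≤ R ∧ 1 ≤ K ∧
      ∀ (F : ℂ → ℂ) (c : ℂ) (r : ℝ), 0 < r → DifferentiableOn ℂ F (ball c r) →
        InjOn F (ball c r) →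
        ball (F c) (‖deriv F c‖ * r / (2 * R)) ⊆ F '' ball c r ∧
        ∀ z : ℂ, ‖z - c‖ ≤ r / 2 →
          ‖deriv F z‖ ≤ K * ‖deriv F c‖ ∧ ‖deriv F c‖ ≤ K * ‖deriv F z‖ := by
  obtain ⟨R, r₀, hR, hr₀, hr₀', hn⟩ := deriv_small h
  set N : ℕ := ⌈2 / r₀⌉₊ with hN
  have hNr : 2 / r₀ ≤ N := Nat.le_ceil _
  have hNpos : (0 : ℝ) < N := lt_of_lt_of_le (by positivity) hNr
  refine ⟨R, 4 ^ N, hR, one_le_pow₀ (by norm_num), fun F c r hr hF hinj => ?_⟩
  refine ⟨(hn F c r hr hF hinj).1, fun z hz => ?_⟩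
  -- the chain of points
  set p : ℕ → ℂ := fun i => c + ((i / N : ℝ) : ℂ) * (z - c) with hp
  have hp0 : p 0 = c := by simp [hp]
  have hpN : p N = z := by
    simp only [hp]
    rw [div_self hNpos.ne']
    simp
  have hball : ∀ i ≤ N, ball (p i) (r / 2) ⊆ ball c r := by
    intro i hi y hy
    rw [mem_ball, dist_eq_norm] at hy ⊢
    have h1 : ‖p i - c‖ ≤ r / 2 := by
      simp only [hp, add_sub_cancel_left]
      rw [norm_mul, Complex.norm_real, Real.norm_of_nonneg (by positivity)]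
      have h2 : (i : ℝ) / N ≤ 1 := by
        rw [div_le_one hNpos]
        exact_mod_cast hi
      have h3 : 0 ≤ (i : ℝ) / N := by positivity
      nlinarith [norm_nonneg (z - c)]
    calc ‖y - c‖ = ‖(y - p i) + (p i - c)‖ := by rw [sub_add_sub_cancel]
      _ ≤ ‖y - p i‖ + ‖p i - c‖ := norm_add_le _ _
      _ < r := by linarith
  have hstep : ∀ i : ℕ, ‖p (i + 1) - p i‖ ≤ r₀ * (r / 2) / 2 := by
    intro i
    have e : p (i + 1) - p i = ((1 / N : ℝ) : ℂ) * (z - c) := by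
      simp only [hp]
      push_cast
      ring
    rw [e, norm_mul, Complex.norm_real, Real.norm_of_nonneg (by positivity)]
    have h1 : 1 / (N : ℝ) ≤ r₀ / 2 := by
      rw [div_le_div_iff₀ hNpos (by norm_num)]
      rw [div_le_iff₀ hr₀] at hNr
      linarith
    calc 1 / (N : ℝ) * ‖z - c‖ ≤ r₀ / 2 * (r / 2) :=
          mul_le_mul h1 hz (norm_nonneg _) (by positivity)
      _ = r₀ * (r / 2) / 2 := by ring
  have hind : ∀ i ≤ N, ‖deriv F (p i)‖ ≤ 4 ^ i * ‖deriv F c‖ ∧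
      ‖deriv F c‖ ≤ 4 ^ i * ‖deriv F (p i)‖ := by
    intro i
    induction i with
    | zero =>
      intro _
      rw [hp0]
      simp
    | succ i ih =>
      intro hi
      obtain ⟨ih1, ih2⟩ := ih (by omega)
      have h1 := (hn F (p i) (r / 2) (by positivity) (hF.mono (hball i (by omega)))
        (hinj.mono (hball i (by omega)))).2 (p (i + 1)) (hstep i)
      have h2 := (hn F (p (i + 1)) (r / 2) (by positivity) (hF.mono (hball (i + 1) hi))
        (hinj.mono (hball (i + 1) hi))).2 (p i) (by rw [norm_sub_rev]; exact hstep i)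
      constructor
      · calc ‖deriv F (p (i + 1))‖ ≤ 4 * ‖deriv F (p i)‖ := h1
          _ ≤ 4 * (4 ^ i * ‖deriv F c‖) := by gcongr
          _ = 4 ^ (i + 1) * ‖deriv F c‖ := by ring
      · calc ‖deriv F c‖ ≤ 4 ^ i * ‖deriv F (p i)‖ := ih2
          _ ≤ 4 ^ i * (4 * ‖deriv F (p (i + 1))‖) := by gcongr
          _ = 4 ^ (i + 1) * ‖deriv F (p (i + 1))‖ := by ring
  have := hind N le_rfl
  rwa [hpN] at this

end Pool.Agent.BlMat.F4

namespace Pool.Agent.BlMat

open Complex Metric Set Filter Topology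

theorem koebe (h : Stmt_UnifBound) : Stmt_Koebe := by
  obtain ⟨R, K, hR, hK, hn⟩ := F4.deriv_half h
  refine ⟨max (2 * R) K, le_max_of_le_right hK, fun F c r hr hF hinj => ?_⟩
  obtain ⟨h1, h2⟩ := hn F c r hr hF hinj
  have hKm : K ≤ max (2 * R) K := le_max_right _ _
  have hRm : 2 * R ≤ max (2 * R) K := le_max_left _ _
  have hmpos : 0 < max (2 * R) K := by linarith
  refine ⟨?_, fun z hz => ?_⟩
  · refine Subset.trans (ball_subset_ball ?_) h1
    gcongr
  obtain ⟨h3, h4⟩ := h2 z hz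
  refine ⟨?_, ?_, ?_, ?_⟩
  · -- lower growth
    rcases eq_or_ne z c with rfl | hzc
    · simp
    have hs : 0 < ‖z - c‖ := norm_pos_iff.2 (sub_ne_zero.2 hzc)
    have hsub : ball c ‖z - c‖ ⊆ ball c r := ball_subset_ball (by linarith)
    have h5 := (hn F c ‖z - c‖ hs (hF.mono hsub) (hinj.mono hsub)).1
    have h6 : F z ∉ F '' ball c ‖z - c‖ := by
      rintro ⟨y, hy, hyz⟩
      have hzr : z ∈ ball c r := by
        rw [mem_ball, dist_eq_norm]
        linarith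
      have := hinj (hsub hy) hzr hyz
      rw [this, mem_ball, dist_eq_norm] at hy
      exact lt_irrefl _ hy
    have h7 : F z ∉ ball (F c) (‖deriv F c‖ * ‖z - c‖ / (2 * R)) := fun h8 => h6 (h5 h8)
    rw [mem_ball, dist_eq_norm, not_lt] at h7
    refine le_trans ?_ h7
    gcongr
  · -- upper growth
    have hsub : closedBall c (r / 2) ⊆ ball c r := closedBall_subset_ball (by linarith)
    have h5 := Convex.norm_image_sub_le_of_norm_deriv_le (f := F) (C := K * ‖deriv F c‖)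
      (s := closedBall c (r / 2)) (x := c) (y := z)
      (fun x hx => hF.differentiableAt (isOpen_ball.mem_nhds (hsub hx)))
      (fun x hx => (h2 x (by rwa [mem_closedBall, dist_eq_norm] at hx)).1)
      (convex_closedBall c (r / 2)) (mem_closedBall_self (by linarith))
      (by rwa [mem_closedBall, dist_eq_norm])
    refine h5.trans ?_
    gcongr
  · exact h3.trans (by gcongr)
  · exact h4.trans (by gcongr)

end Pool.Agent.BlMat
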