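import Pool.Agent.BlMat.DynDefs

set_option autoImplicit false

/-! Definitions used by the final statement: the boundary of a slice and the two quotients. -/

namespace Pool.Agent.BlMat

open Complex Metric Set Filter Topology

/-- Quasiconformal conjugacy of boundary points. -/
def BQC {m : ℕ} (a : Fin m → ℂ) (x y : Bdry a) : Prop := QCConj a x.1.fn y.1.fn

/-- `∂(bl a)`: the boundary modulo quasiconformal conjugacy, with the quotient topology. -/
abbrev BdSp {m : ℕ} (a : Fin m → ℂ) : Type := Quot (BQC a)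

/-- `B(bl a) ⊔ ∂(bl a)` with the quotient topology of the closure of the slice. -/
abbrev ClSp {m : ℕ} (a : Fin m → ℂ) : Type := Quot (BdRel a)

/-- The inclusion of the slice. -/
def slToCl {m : ℕ} (a : Fin m → ℂ) (x : Slice a) : ClSp a :=
  Quot.mk _ ⟨x.1, subset_closure x.2⟩

/-- The inclusion of the quotient boundary. -/
def bdToCl {m : ℕ} (a : Fin m → ℂ) : BdSp a → ClSp a :=
  Quot.map (fun x => ⟨x.1, x.2.1⟩) (fun x y h => Or.inr ⟨x.2.2, y.2.2, h⟩)

/-- The map `f(bl a, bl b) ↦ f(bl a', bl b)` extends to a homeomorphism of the boundaries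
modulo quasiconformal conjugacy. -/
def HomeoStmt {m : ℕ} (a a' : Fin m → ℂ) : Prop :=
  ∃ (F : Slice a ≃ₜ Slice a') (Φ : BdSp a ≃ₜ BdSp a') (Ψ : ClSp a ≃ₜ ClSp a'),
    (∀ b ∈ Par m, ∀ x : Slice a, Mate a b x.1.fn ↔ Mate a' b (F x).1.fn) ∧
    (∀ x, Ψ (slToCl a x) = slToCl a' (F x)) ∧ (∀ y, Ψ (bdToCl a y) = bdToCl a' (Φ y))

end Pool.Agent.BlMat
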