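import Pool.Agent.BlMat.DynDefs

set_option autoImplicit false

/-! Elementary facts on Blaschke products. -/

namespace Pool.Agent.BlMat

open Complex Metric Set Filter Topology MeasureTheory Polynomial
open scoped ComplexConjugate ContDiff

namespace G1

/-- One Blaschke factor. -/
noncomputable def fac (a z : ℂ) : ℂ := (z - a) / (1 - conj a * z) * ((1 - conj a) / (1 - a))

theorem bl_eq {m : ℕ} (a : Fin m → ℂ) (z : ℂ) : bl a z = z * ∏ j, fac (a j) z := rfl

theorem one_sub_ne {a : ℂ} (ha : ‖a‖ < 1) : (1 : ℂ) - a ≠ 0 := by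
  intro h
  have h1 : a = 1 := by linear_combination -h
  rw [h1] at ha
  simp at ha

theorem one_sub_conj_ne {a : ℂ} (ha : ‖a‖ < 1) : (1 : ℂ) - conj a ≠ 0 :=
  one_sub_ne (by simpa using ha)

theorem norm_const {a : ℂ} (ha : ‖a‖ < 1) : ‖(1 - conj a) / (1 - a)‖ = 1 := by
  rw [norm_div]
  have h1 : ‖(1 : ℂ) - conj a‖ = ‖(1 : ℂ) - a‖ := by
    rw [← RCLike.norm_conj (1 - a)]
    simp
  rw [h1]
  exact div_self (norm_ne_zero_iff.2 (one_sub_ne ha))

/-- The basic identity. -/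
theorem normSq_id (a z : ℂ) :
    ‖1 - conj a * z‖ ^ 2 - ‖z - a‖ ^ 2 = (1 - ‖z‖ ^ 2) * (1 - ‖a‖ ^ 2) := by
  simp only [← Complex.normSq_eq_norm_sq, normSq_apply, sub_re, sub_im, mul_re, mul_im, one_re,
    one_im, conj_re, conj_im]
  ring

theorem den_ne {a z : ℂ} (h : ‖a‖ * ‖z‖ < 1) : (1 : ℂ) - conj a * z ≠ 0 :=
  one_sub_ne (by simpa using h)

theorem norm_fac {a : ℂ} (ha : ‖a‖ < 1) (z : ℂ) : ‖fac a z‖ = ‖z - a‖ / ‖1 - conj a * z‖ := by
  rw [fac, norm_mul, norm_const ha, mul_one, norm_div]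

theorem norm_fac_lt {a z : ℂ} (ha : ‖a‖ < 1) (hz : ‖z‖ < 1) : ‖fac a z‖ < 1 := by
  rw [norm_fac ha]
  have h1 : (1 : ℂ) - conj a * z ≠ 0 := den_ne (by nlinarith [norm_nonneg a, norm_nonneg z])
  have h2 : 0 < ‖1 - conj a * z‖ := norm_pos_iff.2 h1
  rw [div_lt_one h2]
  have h3 := normSq_id a z
  have h4 : 0 < (1 - ‖z‖ ^ 2) * (1 - ‖a‖ ^ 2) := by
    have := norm_nonneg a
    have := norm_nonneg z
    apply mul_pos <;> nlinarith
  nlinarith [norm_nonneg (z - a)]

theorem norm_fac_eq {a z : ℂ} (ha : ‖a‖ < 1) (hz : ‖z‖ = 1) : ‖fac a z‖ = 1 := by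
  rw [norm_fac ha]
  have h1 : (1 : ℂ) - conj a * z ≠ 0 := den_ne (by rw [hz]; simpa using ha)
  have h2 : 0 < ‖1 - conj a * z‖ := norm_pos_iff.2 h1
  have h3 := normSq_id a z
  rw [hz] at h3
  have h4 : ‖1 - conj a * z‖ = ‖z - a‖ := by
    have h5 : ‖1 - conj a * z‖ ^ 2 = ‖z - a‖ ^ 2 := by linarith
    exact (pow_left_inj₀ (norm_nonneg _) (norm_nonneg _) (by norm_num)).1 h5
  rw [h4, div_self]
  rw [← h4]
  exact h2.ne'

theorem norm_fac_ge {a z : ℂ} (ha : ‖a‖ < 1) (hz : 1 ≤ ‖z‖) (h1 : (1 : ℂ) - conj a * z ≠ 0) :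
    1 ≤ ‖fac a z‖ := by
  rw [norm_fac ha]
  have h2 : 0 < ‖1 - conj a * z‖ := norm_pos_iff.2 h1
  rw [one_le_div h2]
  have h3 := normSq_id a z
  have h4 : (1 - ‖z‖ ^ 2) * (1 - ‖a‖ ^ 2) ≤ 0 := by
    have := norm_nonneg a
    apply mul_nonpos_of_nonpos_of_nonneg <;> nlinarith
  nlinarith [norm_nonneg (z - a)]

theorem exists_q {m : ℕ} {a : Fin m → ℂ} (ha : a ∈ Par m) :
    ∃ q : ℝ, 0 < q ∧ q < 1 ∧ ∀ j, ‖a j‖ ≤ q := by
  obtain ⟨q, hq⟩ : ∃ q : ℝ, q < 1 ∧ ∀ j, ‖a j‖ ≤ q := by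
    rcases isEmpty_or_nonempty (Fin m) with h | h
    · exact ⟨0, by norm_num, fun j => (h.false j).elim⟩
    · obtain ⟨j, hj⟩ := Finite.exists_max (fun j => ‖a j‖)
      exact ⟨‖a j‖, ha j, hj⟩
  exact ⟨max q (1 / 2), by positivity, max_lt hq.1 (by norm_num), fun j => (hq.2 j).trans (le_max_left _ _)⟩

theorem diff_fac {a z : ℂ} (h1 : (1 : ℂ) - conj a * z ≠ 0) : DifferentiableAt ℂ (fac a) z := by
  unfold fac
  fun_prop (disch := assumption)

theorem diff {m : ℕ} {a : Fin m → ℂ} (ha : a ∈ Par m) :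
    ∃ R : ℝ, 1 < R ∧ DifferentiableOn ℂ (bl a) (Metric.ball 0 R) := by
  obtain ⟨q, hq0, hq1, hq⟩ := exists_q ha
  refine ⟨1 / q, by rw [lt_div_iff₀ hq0]; linarith, ?_⟩
  intro z hz
  rw [mem_ball_zero_iff, lt_div_iff₀ hq0] at hz
  refine DifferentiableAt.differentiableWithinAt ?_
  have h1 : ∀ j, DifferentiableAt ℂ (fac (a j)) z := fun j =>
    diff_fac (den_ne (lt_of_le_of_lt (mul_le_mul_of_nonneg_right (hq j) (norm_nonneg z))
      (by linarith)))
  have h2 : DifferentiableAt ℂ (fun z => z * ∏ j, fac (a j) z) z := by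
    refine differentiableAt_id.mul ?_
    have := DifferentiableAt.fun_finsetProd (u := Finset.univ) (f := fun j => fac (a j)) (x := z)
      (fun j _ => h1 j)
    exact this
  exact h2

theorem bl_zero {m : ℕ} (a : Fin m → ℂ) : bl a 0 = 0 := by simp [bl]

theorem bl_one {m : ℕ} {a : Fin m → ℂ} (ha : a ∈ Par m) : bl a 1 = 1 := by
  rw [bl_eq, one_mul]
  refine Finset.prod_eq_one fun j _ => ?_
  rw [fac, mul_one]
  field_simp [one_sub_ne (ha j), one_sub_conj_ne (ha j)]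

theorem norm_prod_le {m : ℕ} {a : Fin m → ℂ} (ha : a ∈ Par m) {z : ℂ} (hz : ‖z‖ < 1) :
    ‖∏ j, fac (a j) z‖ ≤ 1 := by
  rw [norm_prod]
  exact Finset.prod_le_one (fun j _ => norm_nonneg _) fun j _ => (norm_fac_lt (ha j) hz).le

theorem norm_prod_lt {m : ℕ} (hm : 1 ≤ m) {a : Fin m → ℂ} (ha : a ∈ Par m) {z : ℂ}
    (hz : ‖z‖ < 1) : ‖∏ j, fac (a j) z‖ < 1 := by
  have j0 : Fin m := ⟨0, hm⟩
  rw [norm_prod, ← Finset.mul_prod_erase _ _ (Finset.mem_univ j0)]
  have h1 : ∏ x ∈ Finset.univ.erase j0, ‖fac (a x) z‖ ≤ 1 :=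
    Finset.prod_le_one (fun j _ => norm_nonneg _) fun j _ => (norm_fac_lt (ha j) hz).le
  have h2 : 0 ≤ ∏ x ∈ Finset.univ.erase j0, ‖fac (a x) z‖ :=
    Finset.prod_nonneg fun j _ => norm_nonneg _
  have h3 := norm_fac_lt (ha j0) hz
  nlinarith [norm_nonneg (fac (a j0) z)]

theorem bl_ball {m : ℕ} {a : Fin m → ℂ} (ha : a ∈ Par m) (z : ℂ) (hz : ‖z‖ < 1) :
    ‖bl a z‖ < 1 := by
  rw [bl_eq, norm_mul]
  nlinarith [norm_prod_le ha hz, norm_nonneg z, norm_nonneg (∏ j, fac (a j) z)]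

theorem bl_sphere {m : ℕ} {a : Fin m → ℂ} (ha : a ∈ Par m) (z : ℂ) (hz : ‖z‖ = 1) :
    ‖bl a z‖ = 1 := by
  rw [bl_eq, norm_mul, hz, one_mul, norm_prod]
  exact Finset.prod_eq_one fun j _ => norm_fac_eq (ha j) hz

theorem bl_schwarz {m : ℕ} (hm : 1 ≤ m) {a : Fin m → ℂ} (ha : a ∈ Par m) (z : ℂ) (h0 : z ≠ 0)
    (hz : ‖z‖ < 1) : ‖bl a z‖ < ‖z‖ := by
  rw [bl_eq, norm_mul]
  have := norm_pos_iff.2 h0
  nlinarith [norm_prod_lt hm ha hz]

theorem contOn {m : ℕ} {a : Fin m → ℂ} (ha : a ∈ Par m) : ContinuousOn (bl a) (closedBall 0 1) := by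
  obtain ⟨R, hR, h⟩ := diff ha
  exact h.continuousOn.mono (closedBall_subset_ball hR)

theorem proper {m : ℕ} {a : Fin m → ℂ} (ha : a ∈ Par m) (ρ : ℝ) (hρ : ρ < 1) :
    ∃ ρ' : ℝ, ρ' < 1 ∧ ∀ z : ℂ, ‖z‖ < 1 → ‖bl a z‖ ≤ ρ → ‖z‖ ≤ ρ' := by
  set S : Set ℂ := closedBall 0 1 ∩ bl a ⁻¹' closedBall 0 ρ with hS
  have hc : IsCompact S := by
    refine (isCompact_closedBall (0 : ℂ) 1).of_isClosed_subset ?_ inter_subset_left
    exact (contOn ha).preimage_isClosed_of_isClosed isClosed_closedBall isClosed_closedBall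
  rcases S.eq_empty_or_nonempty with h | h
  · refine ⟨0, by norm_num, fun z hz hz1 => ?_⟩
    have : z ∈ S := ⟨by simpa using hz.le, by simpa using hz1⟩
    rw [h] at this
    exact this.elim
  · obtain ⟨z0, hz0, hmax⟩ := hc.exists_isMaxOn h (continuous_norm.continuousOn)
    refine ⟨‖z0‖, ?_, fun z hz hz1 => hmax (show z ∈ S from ⟨by simpa using hz.le, by simpa using hz1⟩)⟩
    have h1 : ‖z0‖ ≤ 1 := by simpa using hz0.1
    refine lt_of_le_of_ne h1 fun h2 => ?_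
    have h3 := bl_sphere ha z0 h2
    have h4 : ‖bl a z0‖ ≤ ρ := by simpa using hz0.2
    linarith

theorem surj {m : ℕ} {a : Fin m → ℂ} (ha : a ∈ Par m) :
    SurjOn (bl a) (Metric.ball 0 1) (Metric.ball 0 1) := by
  intro w hw
  have hw' : ‖w‖ < 1 := by simpa using hw
  -- the polynomial equation
  set c : ℂ := ∏ j, ((1 - conj (a j)) / (1 - a j)) with hc
  have hc0 : c ≠ 0 := by
    rw [hc, Finset.prod_ne_zero_iff]
    intro j _
    exact div_ne_zero (one_sub_conj_ne (ha j)) (one_sub_ne (ha j))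
  set P : ℂ[X] := C c * (X * ∏ j, (X - C (a j))) with hP
  set Q : ℂ[X] := C w * ∏ j, (1 - C (conj (a j)) * X) with hQ
  have hPd : P.degree = (m + 1 : ℕ) := by
    rw [hP, degree_C_mul hc0, degree_mul, degree_X, degree_prod]
    simp [degree_X_sub_C]
    ring
  have hQd : Q.degree ≤ (m : ℕ) := by
    rw [hQ]
    refine (degree_mul_le _ _).trans ?_
    have h1 : (C w : ℂ[X]).degree ≤ 0 := degree_C_le
    have h2 : (∏ j, (1 - C (conj (a j)) * X : ℂ[X])).degree ≤ (m : ℕ) := by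
      refine (degree_prod_le _ _).trans ?_
      have h3 : ∀ j ∈ (Finset.univ : Finset (Fin m)),
          (1 - C (conj (a j)) * X : ℂ[X]).degree ≤ 1 := by
        intro j _
        refine (degree_sub_le _ _).trans (max_le ?_ ?_)
        · exact degree_one_le.trans (by norm_num)
        · exact degree_C_mul_X_le _
      refine (Finset.sum_le_sum h3).trans ?_
      simp
    calc (C w : ℂ[X]).degree + (∏ j, (1 - C (conj (a j)) * X : ℂ[X])).degree ≤ 0 + (m : ℕ) :=
          add_le_add h1 h2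
      _ = (m : ℕ) := zero_add _
  have hlt : Q.degree < P.degree := by
    rw [hPd]
    refine lt_of_le_of_lt hQd ?_
    exact_mod_cast Nat.lt_succ_self m
  have hd : (P - Q).degree ≠ 0 := by
    rw [degree_sub_eq_left_of_degree_lt hlt, hPd]
    exact_mod_cast Nat.succ_ne_zero m
  obtain ⟨z, hz⟩ := IsAlgClosed.exists_root (P - Q) hd
  have hz1 : c * (z * ∏ j, (z - a j)) = w * ∏ j, (1 - conj (a j) * z) := by
    have := hz
    rw [IsRoot.def, eval_sub, sub_eq_zero] at this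
    simpa [hP, hQ, eval_prod] using this
  have hden : ∀ j, (1 : ℂ) - conj (a j) * z ≠ 0 := by
    intro j hj
    have h0 : ∏ j, (1 - conj (a j) * z) = 0 := Finset.prod_eq_zero (Finset.mem_univ j) hj
    rw [h0, mul_zero] at hz1
    have h1 : z = 0 ∨ ∃ i, z = a i := by
      rcases mul_eq_zero.1 hz1 with h | h
      · exact (hc0 h).elim
      · rcases mul_eq_zero.1 h with h | h
        · exact Or.inl h
        · obtain ⟨i, _, hi⟩ := Finset.prod_eq_zero_iff.1 h
          exact Or.inr ⟨i, by linear_combination hi⟩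
    have h2 : ‖z‖ < 1 := by
      rcases h1 with h | ⟨i, h⟩
      · rw [h]; simp
      · rw [h]; exact ha i
    exact den_ne (by nlinarith [ha j, norm_nonneg (a j), norm_nonneg z]) hj
  have hbl : bl a z = w := by
    have h1 : (∏ j, (1 - conj (a j) * z)) ≠ 0 := Finset.prod_ne_zero_iff.2 fun j _ => hden j
    rw [bl, Finset.prod_mul_distrib, Finset.prod_div_distrib, ← hc]
    calc z * ((∏ j, (z - a j)) / (∏ j, (1 - conj (a j) * z)) * c)
        = c * (z * ∏ j, (z - a j)) / ∏ j, (1 - conj (a j) * z) := by ring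
      _ = w := by rw [hz1, mul_div_assoc, div_self h1, mul_one]
  refine ⟨z, ?_, hbl⟩
  rw [mem_ball_zero_iff]
  by_contra hcon
  push Not at hcon
  have h1 : 1 ≤ ‖bl a z‖ := by
    rw [bl_eq, norm_mul, norm_prod]
    have h2 : 1 ≤ ∏ j, ‖fac (a j) z‖ := by
      have := Finset.prod_le_prod (s := Finset.univ) (f := fun _ : Fin m => (1 : ℝ))
        (g := fun j => ‖fac (a j) z‖) (fun _ _ => zero_le_one)
        (fun j _ => norm_fac_ge (ha j) hcon (hden j))
      simpa using this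
    nlinarith
  rw [hbl] at h1
  linarith

theorem iter {m : ℕ} (hm : 1 ≤ m) {a : Fin m → ℂ} (ha : a ∈ Par m) (z : ℂ) (hz : ‖z‖ < 1) :
    Tendsto (fun k => (bl a)^[k] z) atTop (𝓝 0) := by
  obtain ⟨q, hq0, hq1, hq⟩ : ∃ q : ℝ, 0 ≤ q ∧ q < 1 ∧ ∀ w : ℂ, ‖w‖ ≤ ‖z‖ → ‖bl a w‖ ≤ q * ‖w‖ := by
    have hcont : ContinuousOn (fun w => ∏ j, fac (a j) w) (closedBall 0 ‖z‖) := by
      intro w hw
      have hw1 : ‖w‖ < 1 := lt_of_le_of_lt (by simpa using hw) hz
      have h1 : DifferentiableAt ℂ (fun w => ∏ j, fac (a j) w) w :=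
        DifferentiableAt.fun_finsetProd (u := Finset.univ) (f := fun j => fac (a j))
          (fun j _ => diff_fac (den_ne (by nlinarith [ha j, norm_nonneg (a j), norm_nonneg w])))
      exact h1.continuousAt.continuousWithinAt
    obtain ⟨w0, hw0, hmax⟩ := (isCompact_closedBall (0 : ℂ) ‖z‖).exists_isMaxOn
      ⟨0, by simp⟩ hcont.norm
    refine ⟨‖∏ j, fac (a j) w0‖, norm_nonneg _, norm_prod_lt hm ha
      (lt_of_le_of_lt (by simpa using hw0) hz), fun w hw => ?_⟩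
    rw [bl_eq, norm_mul, mul_comm]
    exact mul_le_mul_of_nonneg_right (hmax (show w ∈ closedBall 0 ‖z‖ by simpa using hw))
      (norm_nonneg _)
  have h1 : ∀ k, ‖(bl a)^[k] z‖ ≤ q ^ k * ‖z‖ := by
    intro k
    induction k with
    | zero => simp
    | succ k ih =>
      rw [Function.iterate_succ_apply']
      have h2 : ‖(bl a)^[k] z‖ ≤ ‖z‖ := by
        refine ih.trans ?_
        have : q ^ k ≤ 1 := pow_le_one₀ hq0 hq1.le
        nlinarith [norm_nonneg z]
      calc ‖bl a ((bl a)^[k] z)‖ ≤ q * ‖(bl a)^[k] z‖ := hq _ h2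
        _ ≤ q * (q ^ k * ‖z‖) := mul_le_mul_of_nonneg_left ih hq0
        _ = q ^ (k + 1) * ‖z‖ := by ring
  rw [tendsto_zero_iff_norm_tendsto_zero]
  refine squeeze_zero (fun k => norm_nonneg _) h1 ?_
  have := (tendsto_pow_atTop_nhds_zero_of_lt_one hq0 hq1).mul_const ‖z‖
  simpa using this

/-- Radial behaviour near the unit circle of a map which preserves the circle and expands it. -/
theorem expand_of {A : ℂ → ℂ} {R c0 : ℝ} (hR : 1 < R) (hA : DifferentiableOn ℂ A (Metric.ball 0 R))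
    (hc0 : 1 < c0)
    (h : ∀ u : ℂ, ‖u‖ = 1 → ‖A u‖ = 1 ∧ ∃ D : ℝ, c0 ≤ D ∧ u * deriv A u = D * A u) :
    ∃ (ρ c C : ℝ), ρ < 1 ∧ 1 < c ∧ ∀ z : ℂ, ρ ≤ ‖z‖ → ‖z‖ ≤ 1 →
      c ≤ ‖deriv A z‖ ∧ c * (1 - ‖z‖) ≤ 1 - ‖A z‖ ∧
      1 - ‖A z‖ ≤ ‖deriv A z‖ * (1 - ‖z‖) * (1 + C * (1 - ‖z‖)) ∧
      ∀ z' : ℂ, ‖z'‖ ≤ 1 →
        ‖A z' - A z - deriv A z * (z' - z)‖ ≤ C * ‖z' - z‖ ^ 2 := by
  have hsub : closedBall (0 : ℂ) 1 ⊆ Metric.ball 0 R := closedBall_subset_ball hR
  have hd : ∀ z ∈ closedBall (0 : ℂ) 1, DifferentiableAt ℂ A z := fun z hz =>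
    hA.differentiableAt (isOpen_ball.mem_nhds (hsub hz))
  have hA1 : DifferentiableOn ℂ (deriv A) (Metric.ball 0 R) := hA.deriv isOpen_ball
  have hd1 : ∀ z ∈ closedBall (0 : ℂ) 1, DifferentiableAt ℂ (deriv A) z := fun z hz =>
    hA1.differentiableAt (isOpen_ball.mem_nhds (hsub hz))
  have hA2 : DifferentiableOn ℂ (deriv (deriv A)) (Metric.ball 0 R) := hA1.deriv isOpen_ball
  obtain ⟨K1, hK1⟩ := (isCompact_closedBall (0 : ℂ) 1).exists_bound_of_continuousOn
    (hA1.continuousOn.mono hsub)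
  obtain ⟨K2, hK2⟩ := (isCompact_closedBall (0 : ℂ) 1).exists_bound_of_continuousOn
    (hA2.continuousOn.mono hsub)
  obtain ⟨K, hK, hK1', hK2'⟩ : ∃ K : ℝ, 1 ≤ K ∧ K1 ≤ K ∧ K2 ≤ K :=
    ⟨max 1 (max K1 K2), le_max_left _ _, (le_max_left _ _).trans (le_max_right _ _),
      (le_max_right _ _).trans (le_max_right _ _)⟩
  have hlip : ∀ z ∈ closedBall (0 : ℂ) 1, ∀ w ∈ closedBall (0 : ℂ) 1,
      ‖deriv A w - deriv A z‖ ≤ K * ‖w - z‖ := fun z hz w hw =>
    (convex_closedBall (0 : ℂ) 1).norm_image_sub_le_of_norm_deriv_le hd1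
      (fun x hx => (hK2 x hx).trans hK2') hz hw
  have htay : ∀ z ∈ closedBall (0 : ℂ) 1, ∀ w ∈ closedBall (0 : ℂ) 1,
      ‖A w - A z - deriv A z * (w - z)‖ ≤ K * ‖w - z‖ ^ 2 := by
    intro z hz w hw
    set S : Set ℂ := closedBall 0 1 ∩ closedBall z ‖w - z‖ with hS
    have hconv : Convex ℝ S := (convex_closedBall _ _).inter (convex_closedBall _ _)
    have hzS : z ∈ S := ⟨hz, by simp⟩
    have hwS : w ∈ S := ⟨hw, by simp [dist_eq_norm]⟩
    have hg : ∀ x ∈ S, HasDerivAt (fun y => A y - deriv A z * y) (deriv A x - deriv A z) x := by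
      intro x hx
      have h1 := (hd x hx.1).hasDerivAt
      have h2 : HasDerivAt (fun y => deriv A z * y) (deriv A z) x := by
        simpa using (hasDerivAt_id x).const_mul (deriv A z)
      exact h1.fun_sub h2
    have h3 := hconv.norm_image_sub_le_of_norm_hasDerivWithin_le (C := K * ‖w - z‖)
      (f := fun y => A y - deriv A z * y) (f' := fun x => deriv A x - deriv A z)
      (fun x hx => (hg x hx).hasDerivWithinAt)
      (fun x hx => (hlip z hz x hx.1).trans (mul_le_mul_of_nonneg_left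
        (by simpa [dist_eq_norm] using hx.2) (by linarith))) hzS hwS
    calc ‖A w - A z - deriv A z * (w - z)‖
        = ‖(A w - deriv A z * w) - (A z - deriv A z * z)‖ := by congr 1; ring
      _ ≤ K * ‖w - z‖ * ‖w - z‖ := h3
      _ = K * ‖w - z‖ ^ 2 := by ring
  set δ : ℝ := min (1 / 2) (min (1 / K) ((c0 - 1) / (2 * K))) with hδ
  have hδ0 : 0 < δ := by
    have : 0 < c0 - 1 := by linarith
    positivity
  have hδ1 : δ ≤ 1 / 2 := min_le_left _ _
  have hδ2 : K * δ ≤ 1 := by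
    have : δ ≤ 1 / K := (min_le_right _ _).trans (min_le_left _ _)
    rw [le_div_iff₀ (by linarith)] at this
    linarith
  have hδ3 : K * δ ≤ (c0 - 1) / 2 := by
    have : δ ≤ (c0 - 1) / (2 * K) := (min_le_right _ _).trans (min_le_right _ _)
    rw [le_div_iff₀ (by linarith)] at this
    linarith
  refine ⟨1 - δ, (c0 + 1) / 2, 2 * K, by linarith, by linarith, fun z hz1 hz2 => ?_⟩
  have hz0 : 0 < ‖z‖ := by linarith
  have hzne : (‖z‖ : ℂ) ≠ 0 := by exact_mod_cast hz0.ne'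
  set t : ℝ := 1 - ‖z‖ with ht
  have ht0 : 0 ≤ t := by linarith
  have htδ : t ≤ δ := by linarith
  set u : ℂ := z / ‖z‖ with hu
  have hu1 : ‖u‖ = 1 := by
    rw [hu, norm_div, norm_real, norm_norm, div_self hz0.ne']
  have hzu : z = u * (1 - t) := by
    rw [ht, hu]
    push_cast
    field_simp
    ring
  have hzmem : z ∈ closedBall (0 : ℂ) 1 := by simpa using hz2
  have humem : u ∈ closedBall (0 : ℂ) 1 := by simp [hu1]
  have hzu' : ‖z - u‖ = t := by
    rw [show z - u = -(u * t) by rw [hzu]; ring, norm_neg, norm_mul, hu1, one_mul, norm_real,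
      Real.norm_of_nonneg ht0]
  obtain ⟨hAu, D, hD, hDA⟩ := h u hu1
  have hDn : ‖deriv A u‖ = D := by
    have h1 : ‖u * deriv A u‖ = ‖(D : ℂ) * A u‖ := by rw [hDA]
    rw [norm_mul, norm_mul, hu1, hAu, one_mul, mul_one, norm_real, Real.norm_of_nonneg
      (by linarith)] at h1
    exact h1
  have hDK : D ≤ K := by rw [← hDn]; exact (hK1 u humem).trans hK1'
  have hDt : D * t ≤ 1 := by nlinarith
  have hKt : K * t ≤ (c0 - 1) / 2 := by nlinarith
  have hdz : |‖deriv A z‖ - D| ≤ K * t := by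
    rw [← hDn]
    refine (abs_norm_sub_norm_le _ _).trans ?_
    have := hlip u humem z hzmem
    rwa [hzu'] at this
  rw [abs_le] at hdz
  have hAz : |‖A z‖ - (1 - D * t)| ≤ K * t ^ 2 := by
    have h1 := htay u humem z hzmem
    rw [hzu'] at h1
    have h2 : A u + deriv A u * (z - u) = A u * (1 - D * t : ℝ) := by
      rw [show z - u = -(u * t) by rw [hzu]; ring]
      push_cast
      linear_combination (-(t : ℂ)) * hDA
    have h3 : ‖A u * ((1 - D * t : ℝ) : ℂ)‖ = 1 - D * t := by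
      rw [norm_mul, hAu, one_mul, norm_real, Real.norm_of_nonneg (by linarith)]
    rw [← h3]
    refine (abs_norm_sub_norm_le _ _).trans ?_
    rw [← h2]
    refine le_trans (le_of_eq ?_) h1
    congr 1
    ring
  rw [abs_le] at hAz
  refine ⟨by linarith, by nlinarith, ?_, fun z' hz' => ?_⟩
  · have h1 : 1 ≤ ‖deriv A z‖ := by linarith
    have h2 : 0 ≤ K * t ^ 2 := by positivity
    nlinarith [mul_nonneg h2 (sub_nonneg.2 h1)]
  · refine (htay z hzmem z' (by simpa using hz')).trans ?_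
    have : 0 ≤ K * ‖z' - z‖ ^ 2 := by positivity
    linarith

/-- The logarithmic derivative of a Blaschke factor on the circle. -/
theorem fac_deriv {a u : ℂ} (ha : ‖a‖ < 1) (hu : ‖u‖ = 1) :
    ∃ t : ℝ, (1 - ‖a‖) / (1 + ‖a‖) ≤ t ∧ HasDerivAt (fac a) (conj u * t * fac a u) u := by
  have h1 : (1 : ℂ) - conj a * u ≠ 0 := den_ne (by rw [hu]; simpa using ha)
  have huu : u * conj u = 1 := by
    rw [mul_conj, normSq_eq_norm_sq, hu]
    norm_num
  have hua : u - a ≠ 0 := by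
    intro h
    have : u = a := by linear_combination h
    rw [this] at hu
    linarith
  have hpos : 0 < ‖u - a‖ := norm_pos_iff.2 hua
  refine ⟨(1 - ‖a‖ ^ 2) / ‖u - a‖ ^ 2, ?_, ?_⟩
  · have h2 : ‖u - a‖ ≤ 1 + ‖a‖ := by
      have := norm_sub_le u a
      rwa [hu] at this
    have h3 := norm_nonneg a
    rw [div_le_div_iff₀ (by linarith) (by positivity)]
    have h4 : ‖u - a‖ ^ 2 ≤ (1 + ‖a‖) ^ 2 := pow_le_pow_left₀ hpos.le h2 2
    nlinarith [mul_le_mul_of_nonneg_left h4 (show (0 : ℝ) ≤ 1 - ‖a‖ by linarith)]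
  · have h2 : HasDerivAt (fun z => z - a) 1 u := (hasDerivAt_id u).sub_const a
    have h3 : HasDerivAt (fun z => 1 - conj a * z) (-conj a) u := by
      simpa using ((hasDerivAt_id u).const_mul (conj a)).const_sub 1
    have h4 := (h2.div h3 h1).mul_const ((1 - conj a) / (1 - a))
    refine HasDerivAt.congr_deriv h4 ?_
    have hden : (1 : ℂ) - conj a * u = u * conj (u - a) := by
      rw [map_sub]
      linear_combination -huu
    have hc : conj (u - a) ≠ 0 := (map_ne_zero_iff _ (RingHom.injective _)).2 hua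
    have hu0 : u ≠ 0 := by
      intro h
      rw [h] at hu
      simp at hu
    have hn : ((‖u - a‖ : ℝ) : ℂ) ^ 2 = (u - a) * conj (u - a) := by
      rw [mul_conj, normSq_eq_norm_sq]
      push_cast
      rfl
    have hn2 : ((‖a‖ : ℝ) : ℂ) ^ 2 = a * conj a := by
      rw [mul_conj, normSq_eq_norm_sq]
      push_cast
      rfl
    rw [fac]
    push_cast
    rw [hn, hn2]
    have e1 : conj u * ((1 - a * conj a) / ((u - a) * conj (u - a))) * ((u - a) / (1 - conj a * u))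
        = (1 - a * conj a) / (1 - conj a * u) ^ 2 := by
      have h5 : conj u * (1 - conj a * u) = conj (u - a) := by
        rw [hden]
        linear_combination conj (u - a) * huu
      rw [← h5] at hc ⊢
      have hcu : conj u ≠ 0 := left_ne_zero_of_mul hc
      field_simp
    calc (1 * (1 - conj a * u) - (u - a) * -conj a) / (1 - conj a * u) ^ 2 *
          ((1 - conj a) / (1 - a))
        = (1 - a * conj a) / (1 - conj a * u) ^ 2 * ((1 - conj a) / (1 - a)) := by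
          congr 2
          ring
      _ = conj u * ((1 - a * conj a) / ((u - a) * conj (u - a))) *
          ((u - a) / (1 - conj a * u) * ((1 - conj a) / (1 - a))) := by
          rw [← e1]
          ring

theorem bl_deriv {m : ℕ} (hm : 1 ≤ m) {a : Fin m → ℂ} (ha : a ∈ Par m) :
    ∃ c0 : ℝ, 1 < c0 ∧ ∀ u : ℂ, ‖u‖ = 1 →
      ‖bl a u‖ = 1 ∧ ∃ D : ℝ, c0 ≤ D ∧ u * deriv (bl a) u = D * bl a u := by
  have j0 : Fin m := ⟨0, hm⟩
  have hpos : ∀ j, 0 < (1 - ‖a j‖) / (1 + ‖a j‖) := fun j =>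
    div_pos (by linarith [ha j]) (by linarith [norm_nonneg (a j)])
  refine ⟨1 + (1 - ‖a j0‖) / (1 + ‖a j0‖), by linarith [hpos j0], fun u hu =>
    ⟨bl_sphere ha u hu, ?_⟩⟩
  choose t ht hd using fun j => fac_deriv (ha j) hu
  have huu : u * conj u = 1 := by
    rw [mul_conj, normSq_eq_norm_sq, hu]
    norm_num
  have key : ∀ s : Finset (Fin m), ∃ d : ℂ, HasDerivAt (fun z => z * ∏ j ∈ s, fac (a j) z) d u ∧
      u * d = ((1 + ∑ j ∈ s, t j : ℝ) : ℂ) * (u * ∏ j ∈ s, fac (a j) u) := by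
    intro s
    induction s using Finset.induction_on with
    | empty =>
      refine ⟨1, ?_, by simp⟩
      have : (fun z : ℂ => z * ∏ j ∈ (∅ : Finset (Fin m)), fac (a j) z) = id := by
        ext z
        simp
      rw [this]
      exact hasDerivAt_id u
    | insert j s hj ih =>
      obtain ⟨d, hd1, hd2⟩ := ih
      refine ⟨_, ((hd1.mul (hd j)).congr_of_eventuallyEq (Eventually.of_forall fun z => ?_)), ?_⟩
      · simp only [Pi.mul_apply, Finset.prod_insert hj]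
        ring
      · rw [Finset.sum_insert hj, Finset.prod_insert hj]
        push_cast at hd2 ⊢
        linear_combination fac (a j) u * hd2 +
          (u * ∏ j ∈ s, fac (a j) u) * (t j) * fac (a j) u * huu
  obtain ⟨d, hd1, hd2⟩ := key Finset.univ
  refine ⟨1 + ∑ j, t j, ?_, ?_⟩
  · have h1 : t j0 ≤ ∑ j, t j :=
      Finset.single_le_sum (f := t) (fun j _ => (hpos j).le.trans (ht j)) (Finset.mem_univ j0)
    linarith [ht j0]
  · have h2 : HasDerivAt (bl a) d u := hd1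
    rw [h2.deriv, hd2]
    rfl

end G1

/-- Elementary facts on Blaschke products. -/
theorem bl_facts : Stmt_Bl := by
  intro m hm a ha
  obtain ⟨c0, hc0, h⟩ := G1.bl_deriv hm ha
  obtain ⟨R, hR, hd⟩ := G1.diff ha
  exact
    { diff := G1.diff ha
      zero := G1.bl_zero a
      one := G1.bl_one ha
      ball := G1.bl_ball ha
      sphere := G1.bl_sphere ha
      schwarz := G1.bl_schwarz hm ha
      proper := G1.proper ha
      surj := G1.surj ha
      iter := G1.iter hm ha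
      expand := G1.expand_of hR hd hc0 h }

end Pool.Agent.BlMat
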