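import Pool.Agent.BlMat.GlueDefs
import Pool.Agent.BlMat.F3

set_option autoImplicit false

/-!
# Gluing a quasiconformal conjugacy with the conformal conjugacy of the basins (block GL)
-/

namespace Pool.Agent.BlMat

open Complex Metric Set Filter Topology MeasureTheory
open scoped ComplexConjugate ContDiff

namespace Glu

/-- The punctured unit disc. -/
abbrev D : Set ℂ := ball (0 : ℂ) 1 \ {0}

theorem isOpen_D : IsOpen D := isOpen_ball.sdiff isClosed_singleton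

theorem mem_D {z : ℂ} : z ∈ D ↔ ‖z‖ < 1 ∧ z ≠ 0 := by
  simp [D]

/-! ### Injective holomorphic maps on open sets -/

section univalent

variable {C : ℝ}

/-- The conclusion of Koebe's theorem with constant `C`. -/
def Koe (C : ℝ) : Prop :=
  1 ≤ C ∧ ∀ (F : ℂ → ℂ) (c : ℂ) (r : ℝ), 0 < r → DifferentiableOn ℂ F (ball c r) →
    InjOn F (ball c r) →
    ball (F c) (‖deriv F c‖ * r / C) ⊆ F '' ball c r ∧
    ∀ z : ℂ, ‖z - c‖ ≤ r / 2 → ‖deriv F c‖ * ‖z - c‖ / C ≤ ‖F z - F c‖ ∧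
      ‖F z - F c‖ ≤ C * ‖deriv F c‖ * ‖z - c‖ ∧ ‖deriv F z‖ ≤ C * ‖deriv F c‖ ∧
      ‖deriv F c‖ ≤ C * ‖deriv F z‖

theorem deriv_ne (hK : Koe C) {F : ℂ → ℂ} {U : Set ℂ} (hU : IsOpen U)
    (hd : DifferentiableOn ℂ F U) (hi : InjOn F U) {c : ℂ} (hc : c ∈ U) : deriv F c ≠ 0 := by
  obtain ⟨r, hr, hsub⟩ := Metric.isOpen_iff.1 hU c hc
  intro h0
  obtain ⟨-, h2⟩ := hK.2 F c r hr (hd.mono hsub) (hi.mono hsub)
  have hn : ‖(c + (r / 2 : ℝ)) - c‖ = r / 2 := by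
    rw [add_sub_cancel_left, Complex.norm_real, Real.norm_of_nonneg (by linarith)]
  have h3 := (h2 (c + (r / 2 : ℝ)) hn.le).2.1
  rw [h0, norm_zero, mul_zero, zero_mul] at h3
  have h4 : F (c + (r / 2 : ℝ)) = F c := sub_eq_zero.1 (norm_le_zero_iff.1 h3)
  have h5 : c + ((r / 2 : ℝ) : ℂ) ∈ U := hsub (by rw [mem_ball, dist_eq_norm, hn]; linarith)
  have h6 := hi h5 hc h4
  rw [h6, sub_self, norm_zero] at hn
  linarith

theorem image_nhds (hK : Koe C) {F : ℂ → ℂ} {U : Set ℂ} (hU : IsOpen U)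
    (hd : DifferentiableOn ℂ F U) (hi : InjOn F U) {c : ℂ} (hc : c ∈ U) {ε : ℝ} (hε : 0 < ε) :
    ∃ δ : ℝ, 0 < δ ∧ ball (F c) δ ⊆ F '' (U ∩ ball c ε) := by
  obtain ⟨r, hr, hsub⟩ := Metric.isOpen_iff.1 hU c hc
  have hC : 0 < C := lt_of_lt_of_le one_pos hK.1
  have hr' : 0 < min r ε := lt_min hr hε
  have hsub' : ball c (min r ε) ⊆ U := (ball_subset_ball (min_le_left _ _)).trans hsub
  obtain ⟨h1, -⟩ := hK.2 F c (min r ε) hr' (hd.mono hsub') (hi.mono hsub')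
  refine ⟨_, ?_, h1.trans (image_mono fun z hz => ⟨hsub' hz, ball_subset_ball (min_le_right _ _) hz⟩)⟩
  have := norm_pos_iff.2 (deriv_ne hK hU hd hi hc)
  positivity

theorem isOpen_image (hK : Koe C) {F : ℂ → ℂ} {U : Set ℂ} (hU : IsOpen U)
    (hd : DifferentiableOn ℂ F U) (hi : InjOn F U) : IsOpen (F '' U) := by
  rw [Metric.isOpen_iff]
  rintro _ ⟨c, hc, rfl⟩
  obtain ⟨δ, hδ, h⟩ := image_nhds hK hU hd hi hc one_pos
  exact ⟨δ, hδ, h.trans (image_mono inter_subset_left)⟩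

theorem continuousAt_inv (hK : Koe C) {F : ℂ → ℂ} {U : Set ℂ} (hU : IsOpen U)
    (hd : DifferentiableOn ℂ F U) (hi : InjOn F U) {G : ℂ → ℂ} (hG : ∀ z ∈ U, G (F z) = z)
    {c : ℂ} (hc : c ∈ U) : ContinuousAt G (F c) := by
  rw [Metric.continuousAt_iff]
  intro ε hε
  obtain ⟨δ, hδ, h⟩ := image_nhds hK hU hd hi hc hε
  refine ⟨δ, hδ, fun {w} hw => ?_⟩
  obtain ⟨z, ⟨hzU, hz⟩, rfl⟩ := h (mem_ball.2 hw)
  rw [hG z hzU, hG c hc]
  exact hz

theorem differentiableAt_inv (hK : Koe C) {F : ℂ → ℂ} {U : Set ℂ} (hU : IsOpen U)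
    (hd : DifferentiableOn ℂ F U) (hi : InjOn F U) {G : ℂ → ℂ} (hG : ∀ z ∈ U, G (F z) = z)
    {c : ℂ} (hc : c ∈ U) : DifferentiableAt ℂ G (F c) := by
  have h1 : HasDerivAt F (deriv F c) (G (F c)) := by
    rw [hG c hc]
    exact ((hd c hc).differentiableAt (hU.mem_nhds hc)).hasDerivAt
  refine (HasDerivAt.of_local_left_inverse (continuousAt_inv hK hU hd hi hG hc) h1
    (deriv_ne hK hU hd hi hc) ?_).differentiableAt
  filter_upwards [(isOpen_image hK hU hd hi).mem_nhds (mem_image_of_mem F hc)] with w hw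
  obtain ⟨z, hz, rfl⟩ := hw
  rw [hG z hz]

end univalent

/-! ### Normalised univalent maps -/

section unif

variable {C : ℝ} {φ γ : ℂ → ℂ}

/-- The complement of the image of a normalised univalent map. -/
def Kc (φ : ℂ → ℂ) : Set ℂ := (φ '' D)ᶜ

theorem isClosed_Kc (hK : Koe C) (h : IsUnif φ) : IsClosed (Kc φ) :=
  (isOpen_image hK isOpen_D h.diff h.inj).isClosed_compl

theorem norm_le_of_mem_Kc (h : IsUnif φ) {w : ℂ} (hw : w ∈ Kc φ) : ‖w‖ ≤ 10 := by
  by_contra hcon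
  push Not at hcon
  obtain ⟨z, h0, h1, h2⟩ := F3.cover_infty h (ε := 1 / 2) (by norm_num) (by norm_num)
    (w := w) (by norm_num; linarith)
  exact hw ⟨z, mem_D.2 ⟨by linarith, h0⟩, h2⟩

theorem Kc_nonempty (hK : Koe C) (h : IsUnif φ) : (Kc φ).Nonempty := by
  by_contra hcon
  have huniv : φ '' D = univ := by
    rw [← compl_empty_iff]
    exact not_nonempty_iff_eq_empty.1 hcon
  set g := Function.invFunOn φ D with hg
  have hgm : ∀ w, g w ∈ D ∧ φ (g w) = w := by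
    intro w
    have hw : w ∈ φ '' D := by rw [huniv]; exact mem_univ _
    exact ⟨Function.invFunOn_mem hw, Function.invFunOn_eq hw⟩
  have hgi : ∀ z ∈ D, g (φ z) = z := fun z hz => h.inj (hgm _).1 hz (hgm _).2
  have hdiff : Differentiable ℂ g := by
    intro w
    obtain ⟨z, hz, rfl⟩ : w ∈ φ '' D := by rw [huniv]; exact mem_univ _
    exact differentiableAt_inv hK isOpen_D h.diff h.inj hgi hz
  have hb : Bornology.IsBounded (range g) := by
    refine (isBounded_ball (x := (0 : ℂ)) (r := 1)).subset ?_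
    rintro _ ⟨w, rfl⟩
    exact (hgm w).1.1
  have h1 : (1 / 2 : ℂ) ∈ D := mem_D.2 ⟨by norm_num, by norm_num⟩
  have h2 : (1 / 3 : ℂ) ∈ D := mem_D.2 ⟨by norm_num, by norm_num⟩
  have h3 := hdiff.apply_eq_apply_of_bounded hb (φ (1 / 2)) (φ (1 / 3))
  rw [hgi _ h1, hgi _ h2] at h3
  norm_num at h3

theorem infDist_pos (hK : Koe C) (h : IsUnif φ) {z : ℂ} (hz : z ∈ D) :
    0 < infDist (φ z) (Kc φ) :=
  ((isClosed_Kc hK h).notMem_iff_infDist_pos (Kc_nonempty hK h)).1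
    fun h' => h' (mem_image_of_mem φ hz)

theorem ball_subset (w : ℂ) : ball w (infDist w (Kc φ)) ⊆ φ '' D := by
  have := ball_infDist_compl_subset (x := w) (s := φ '' D)
  exact this

/-- One Koebe step. -/
theorem step (hK : Koe C) (h : IsUnif γ) {c z : ℂ} (hc1 : ‖c‖ < 1) (hc2 : 1 / 2 ≤ ‖c‖)
    (hz : ‖z - c‖ ≤ (1 - ‖c‖) / 2) :
    ‖γ z - γ c‖ ≤ C ^ 2 * infDist (γ c) (Kc γ) := by
  have hC : 0 < C := lt_of_lt_of_le one_pos hK.1
  have hr : 0 < 1 - ‖c‖ := by linarith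
  have hsub : ball c (1 - ‖c‖) ⊆ D := by
    intro z' hz'
    rw [mem_ball, dist_eq_norm] at hz'
    refine mem_D.2 ⟨?_, ?_⟩
    · have : ‖z'‖ ≤ ‖z' - c‖ + ‖c‖ := by
        calc ‖z'‖ = ‖(z' - c) + c‖ := by rw [sub_add_cancel]
          _ ≤ _ := norm_add_le _ _
      linarith
    · rintro rfl
      rw [zero_sub, norm_neg] at hz'
      linarith
  obtain ⟨h1, h2⟩ := hK.2 γ c (1 - ‖c‖) hr (h.diff.mono hsub) (h.inj.mono hsub)
  have h3 : ‖deriv γ c‖ * (1 - ‖c‖) / C ≤ infDist (γ c) (Kc γ) := by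
    rw [le_infDist (Kc_nonempty hK h)]
    intro y hy
    by_contra hcon
    push Not at hcon
    have h4 : y ∈ ball (γ c) (‖deriv γ c‖ * (1 - ‖c‖) / C) := by
      rw [mem_ball, dist_comm]
      exact hcon
    exact hy (image_mono hsub (h1 h4))
  have h5 := (h2 z hz).2.1
  calc ‖γ z - γ c‖ ≤ C * ‖deriv γ c‖ * ‖z - c‖ := h5
    _ ≤ C * ‖deriv γ c‖ * (1 - ‖c‖) := by
        refine mul_le_mul_of_nonneg_left (by linarith) (by positivity)
    _ = C ^ 2 * (‖deriv γ c‖ * (1 - ‖c‖) / C) := by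
        field_simp
    _ ≤ _ := mul_le_mul_of_nonneg_left h3 (by positivity)

/-- A chain of Koebe steps. -/
theorem chain (hK : Koe C) (h : IsUnif γ) {Λ : ℝ} {z z' : ℂ}
    (hz : ‖z‖ < 1) (hz' : ‖z'‖ < 1)
    (hseg : ∀ t : ℝ, 0 ≤ t → t ≤ 1 → 1 / 2 ≤ ‖z + t * (z' - z)‖)
    (h1 : ‖z' - z‖ ≤ Λ * (1 - ‖z‖)) (h2 : ‖z' - z‖ ≤ Λ * (1 - ‖z'‖)) :
    ‖γ z' - γ z‖ ≤ (1 + C ^ 2) ^ (⌈2 * |Λ|⌉₊ + 1) * infDist (γ z) (Kc γ) := by
  set N := ⌈2 * |Λ|⌉₊ + 1 with hN
  have hC : 0 < C := lt_of_lt_of_le one_pos hK.1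
  have hN0 : (0 : ℝ) < N := by rw [hN]; positivity
  have hN1 : 2 * |Λ| ≤ N := by
    rw [hN]
    push_cast
    have := Nat.le_ceil (2 * |Λ|)
    linarith
  set d := infDist (γ z) (Kc γ) with hd
  have hd0 : 0 ≤ d := infDist_nonneg
  have key : ∀ k : ℕ, k ≤ N →
      ‖γ (z + ((k / N : ℝ) : ℂ) * (z' - z)) - γ z‖ ≤ ((1 + C ^ 2) ^ k - 1) * d := by
    intro k
    induction k with
    | zero =>
      intro _
      simp
    | succ k ih =>
      intro hk
      have ih' := ih (by omega)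
      set p := z + ((k / N : ℝ) : ℂ) * (z' - z) with hp
      set q := z + (((k + 1 : ℕ) / N : ℝ) : ℂ) * (z' - z) with hq
      have ht0 : (0 : ℝ) ≤ k / N := by positivity
      have ht1 : (k : ℝ) / N ≤ 1 := by
        rw [div_le_one hN0]
        exact_mod_cast (by omega : k ≤ N)
      have hp2 : 1 / 2 ≤ ‖p‖ := hseg _ ht0 ht1
      have hconv : ‖p‖ ≤ (1 - k / N) * ‖z‖ + (k / N) * ‖z'‖ := by
        have : p = ((1 - k / N : ℝ) : ℂ) * z + ((k / N : ℝ) : ℂ) * z' := by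
          rw [hp]
          push_cast
          ring
        rw [this]
        refine (norm_add_le _ _).trans ?_
        rw [norm_mul, norm_mul, Complex.norm_real, Complex.norm_real,
          Real.norm_of_nonneg (by linarith), Real.norm_of_nonneg ht0]
      have hp1 : ‖z' - z‖ ≤ |Λ| * (1 - ‖p‖) := by
        have e1 : ‖z' - z‖ ≤ |Λ| * (1 - ‖z‖) :=
          h1.trans (mul_le_mul_of_nonneg_right (le_abs_self _) (by linarith))
        have e2 : ‖z' - z‖ ≤ |Λ| * (1 - ‖z'‖) :=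
          h2.trans (mul_le_mul_of_nonneg_right (le_abs_self _) (by linarith))
        calc ‖z' - z‖ = (1 - k / N) * ‖z' - z‖ + (k / N) * ‖z' - z‖ := by ring
          _ ≤ (1 - k / N) * (|Λ| * (1 - ‖z‖)) + (k / N) * (|Λ| * (1 - ‖z'‖)) :=
              add_le_add (mul_le_mul_of_nonneg_left e1 (by linarith))
                (mul_le_mul_of_nonneg_left e2 ht0)
          _ = |Λ| * (1 - ((1 - k / N) * ‖z‖ + (k / N) * ‖z'‖)) := by ring
          _ ≤ _ := mul_le_mul_of_nonneg_left (by linarith) (abs_nonneg _)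
      have hp3 : ‖p‖ < 1 := by
        refine hconv.trans_lt ?_
        rcases eq_or_lt_of_le ht0 with h0 | h0
        · rw [← h0]; simpa using hz
        · nlinarith
      have hqp : q - p = ((1 / N : ℝ) : ℂ) * (z' - z) := by
        rw [hp, hq]
        push_cast
        ring
      have hqp' : ‖q - p‖ ≤ (1 - ‖p‖) / 2 := by
        rw [hqp, norm_mul, Complex.norm_real, Real.norm_of_nonneg (by positivity)]
        rw [div_mul_eq_mul_div, one_mul, div_le_iff₀ hN0]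
        have : |Λ| * (1 - ‖p‖) ≤ (N / 2) * (1 - ‖p‖) :=
          mul_le_mul_of_nonneg_right (by linarith) (by linarith)
        linarith
      have hs := step hK h hp3 hp2 hqp'
      have hdp : infDist (γ p) (Kc γ) ≤ (1 + C ^ 2) ^ k * d := by
        have := infDist_le_infDist_add_dist (s := Kc γ) (x := γ p) (y := γ z)
        rw [dist_eq_norm] at this
        calc infDist (γ p) (Kc γ) ≤ d + ‖γ p - γ z‖ := this
          _ ≤ d + ((1 + C ^ 2) ^ k - 1) * d := by linarith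
          _ = _ := by ring
      calc ‖γ q - γ z‖ = ‖(γ q - γ p) + (γ p - γ z)‖ := by rw [sub_add_sub_cancel]
        _ ≤ ‖γ q - γ p‖ + ‖γ p - γ z‖ := norm_add_le _ _
        _ ≤ C ^ 2 * ((1 + C ^ 2) ^ k * d) + ((1 + C ^ 2) ^ k - 1) * d := by
            refine add_le_add (hs.trans (mul_le_mul_of_nonneg_left hdp (by positivity))) ih'
        _ = _ := by ring
  have hk := key N le_rfl
  rw [div_self hN0.ne', ofReal_one, one_mul, add_sub_cancel] at hk
  refine hk.trans (mul_le_mul_of_nonneg_right ?_ hd0)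
  linarith

end unif

/-! ### The gluing situation -/

/-- The static gluing situation. -/
structure Sit (φ γ : ℂ → ℂ) (H η : ℂ ≃ₜ ℂ) (Λ : ℝ) : Prop where
  uφ : IsUnif φ
  uγ : IsUnif γ
  cj : ∀ z ∈ D, H (φ z) = γ (η z)
  bη : ∀ z, ‖η z‖ < 1 ↔ ‖z‖ < 1
  zη : η 0 = 0
  one_le : 1 ≤ Λ
  d1 : ∀ z : ℂ, ‖z‖ < 1 → ‖η z - z‖ ≤ Λ * (1 - ‖z‖)
  d2 : ∀ z : ℂ, ‖z‖ < 1 → ‖η z - z‖ ≤ Λ * (1 - ‖η z‖)

open Classical in
/-- The glued map. -/
noncomputable def glu (φ γ H : ℂ → ℂ) (w : ℂ) : ℂ :=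
  if w ∈ φ '' D then γ (Function.invFunOn φ D w) else H w

section sit

variable {C Λ : ℝ} {φ γ : ℂ → ℂ} {H η : ℂ ≃ₜ ℂ}

theorem Sit.memη (S : Sit φ γ H η Λ) (z : ℂ) : η z ∈ D ↔ z ∈ D := by
  rw [mem_D, mem_D, S.bη]
  refine and_congr_right fun _ => not_congr ?_
  constructor
  · intro h
    rw [← S.zη] at h
    exact η.injective h
  · rintro rfl
    exact S.zη

theorem Sit.symm (S : Sit φ γ H η Λ) : Sit γ φ H.symm η.symm Λ := by
  have hb : ∀ z, ‖η.symm z‖ < 1 ↔ ‖z‖ < 1 := by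
    intro z
    rw [← S.bη, Homeomorph.apply_symm_apply]
  refine ⟨S.uγ, S.uφ, ?_, hb, ?_, S.one_le, ?_, ?_⟩
  · intro z hz
    have hz' : η.symm z ∈ D := by
      rw [← S.memη, Homeomorph.apply_symm_apply]
      exact hz
    have := S.cj _ hz'
    rw [Homeomorph.apply_symm_apply] at this
    rw [← this, Homeomorph.symm_apply_apply]
  · rw [← S.zη, Homeomorph.symm_apply_apply, S.zη]
  · intro z hz
    have h2 := S.d2 _ ((hb z).2 hz)
    rw [Homeomorph.apply_symm_apply, norm_sub_rev] at h2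
    exact h2
  · intro z hz
    have h2 := S.d1 _ ((hb z).2 hz)
    rw [Homeomorph.apply_symm_apply, norm_sub_rev] at h2
    exact h2

theorem Sit.mem_image (S : Sit φ γ H η Λ) (w : ℂ) : H w ∈ γ '' D ↔ w ∈ φ '' D := by
  constructor
  · rintro ⟨z, hz, h⟩
    have h1 : η.symm z ∈ D := by
      rw [← S.memη, Homeomorph.apply_symm_apply]
      exact hz
    refine ⟨η.symm z, h1, H.injective ?_⟩
    rw [S.cj _ h1, Homeomorph.apply_symm_apply, h]
  · rintro ⟨z, hz, rfl⟩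
    exact ⟨η z, (S.memη z).2 hz, (S.cj z hz).symm⟩

theorem glu_apply (h : IsUnif φ) {z : ℂ} (hz : z ∈ D) (H : ℂ → ℂ) :
    glu φ γ H (φ z) = γ z := by
  rw [glu, if_pos (mem_image_of_mem φ hz), h.inj.leftInvOn_invFunOn hz]

theorem glu_of_notMem {w : ℂ} (hw : w ∉ φ '' D) (H : ℂ → ℂ) : glu φ γ H w = H w := by
  rw [glu, if_neg hw]

theorem Sit.leftInv (S : Sit φ γ H η Λ) (w : ℂ) : glu γ φ H.symm (glu φ γ H w) = w := by
  by_cases hw : w ∈ φ '' D
  · obtain ⟨z, hz, rfl⟩ := hw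
    rw [glu_apply S.uφ hz, glu_apply S.uγ hz]
  · rw [glu_of_notMem hw, glu_of_notMem (by rwa [S.mem_image]), Homeomorph.symm_apply_apply]

/-- Comparison of the two conjugacies. -/
theorem Sit.compare (hK : Koe C) (S : Sit φ γ H η Λ) (R : ℝ) :
    ∃ B : ℝ, 0 ≤ B ∧ ∀ w : ℂ, ‖w‖ ≤ R →
      ‖glu φ γ H w - H w‖ ≤ B * infDist (H w) (Kc γ) ∧
      ‖glu φ γ H w - H w‖ ≤ B * infDist (glu φ γ H w) (Kc γ) := by
  have hΛ := S.one_le
  have hΛ0 : 0 < Λ := by linarith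
  set ρ : ℝ := 1 - 1 / (8 * Λ) with hρ
  have hρ1 : ρ < 1 := by
    have : 0 < 1 / (8 * Λ) := by positivity
    linarith
  set ε : ℝ := 1 / (|R| + 9) with hε
  have hε0 : 0 < ε := by positivity
  -- the compact part
  set T : Set ℂ := closedBall 0 ρ \ ball 0 ε with hT
  have hTc : IsCompact T := (isCompact_closedBall 0 ρ).diff isOpen_ball
  have hTD : T ⊆ D := by
    rintro z ⟨h1, h2⟩
    rw [mem_closedBall_zero_iff] at h1
    refine mem_D.2 ⟨by linarith, ?_⟩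
    rintro rfl
    exact h2 (mem_ball_self hε0)
  have hγc : ContinuousOn γ D := S.uγ.diff.continuousOn
  have hc1 : ContinuousOn (fun z => γ z) T := hγc.mono hTD
  have hc2 : ContinuousOn (fun z => γ (η z)) T :=
    hγc.comp η.continuous.continuousOn fun z hz => (S.memη z).2 (hTD hz)
  have hc3 : ContinuousOn (fun z => infDist (γ z) (Kc γ)) T :=
    (continuous_infDist_pt _).comp_continuousOn hc1
  have hc4 : ContinuousOn (fun z => infDist (γ (η z)) (Kc γ)) T :=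
    (continuous_infDist_pt _).comp_continuousOn hc2
  obtain ⟨B1, hB1⟩ := hTc.exists_bound_of_continuousOn
    ((hc1.sub hc2).norm.div hc3 fun z hz => (infDist_pos hK S.uγ (hTD hz)).ne')
  obtain ⟨B2, hB2⟩ := hTc.exists_bound_of_continuousOn
    ((hc1.sub hc2).norm.div hc4 fun z hz =>
      (infDist_pos hK S.uγ ((S.memη z).2 (hTD hz))).ne')
  set B3 := (1 + C ^ 2) ^ (⌈2 * |Λ|⌉₊ + 1) with hB3
  refine ⟨max B3 (max B1 B2), le_trans (by positivity) (le_max_left _ _), fun w hw => ?_⟩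
  by_cases hwD : w ∈ φ '' D
  swap
  · rw [glu_of_notMem hwD, sub_self, norm_zero]
    have : 0 ≤ max B3 (max B1 B2) := le_trans (by positivity) (le_max_left _ _)
    exact ⟨mul_nonneg this infDist_nonneg, mul_nonneg this infDist_nonneg⟩
  obtain ⟨z, hz, rfl⟩ := hwD
  rw [glu_apply S.uφ hz, S.cj z hz]
  obtain ⟨hz1, hz0⟩ := mem_D.1 hz
  have hzε : ε ≤ ‖z‖ := by
    have h1 := F3.norm_ge S.uφ hz0 hz1
    have hzp : 0 < ‖z‖ := norm_pos_iff.2 hz0
    have h2 : 1 / ‖z‖ ≤ |R| + 9 := by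
      have := le_abs_self R
      linarith
    rw [hε, div_le_iff₀ (by positivity)]
    rw [div_le_iff₀ hzp] at h2
    linarith
  have hηD := (S.memη z).2 hz
  have hd1 : 0 < infDist (γ z) (Kc γ) := infDist_pos hK S.uγ hz
  have hd2 : 0 < infDist (γ (η z)) (Kc γ) := infDist_pos hK S.uγ hηD
  rcases le_or_gt ‖z‖ ρ with hzρ | hzρ
  · have hzT : z ∈ T := ⟨mem_closedBall_zero_iff.2 hzρ, by
      rw [mem_ball_zero_iff]; push Not; exact hzε⟩
    have e1 : ‖γ z - γ (η z)‖ / infDist (γ z) (Kc γ) ≤ B1 := (le_abs_self _).trans (hB1 z hzT)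
    have e2 : ‖γ z - γ (η z)‖ / infDist (γ (η z)) (Kc γ) ≤ B2 :=
      (le_abs_self _).trans (hB2 z hzT)
    rw [div_le_iff₀ hd1] at e1
    rw [div_le_iff₀ hd2] at e2
    exact ⟨e2.trans (mul_le_mul_of_nonneg_right ((le_max_right _ _).trans (le_max_right _ _))
      hd2.le), e1.trans (mul_le_mul_of_nonneg_right ((le_max_left _ _).trans (le_max_right _ _))
      hd1.le)⟩
  · have hη1 : ‖η z‖ < 1 := (S.bη z).2 hz1
    have hsmall : Λ * (1 - ‖z‖) ≤ 1 / 8 := by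
      have : 1 - ‖z‖ ≤ 1 / (8 * Λ) := by linarith
      calc Λ * (1 - ‖z‖) ≤ Λ * (1 / (8 * Λ)) := mul_le_mul_of_nonneg_left this hΛ0.le
        _ = 1 / 8 := by field_simp
    have hz78 : 7 / 8 ≤ ‖z‖ := by nlinarith
    have hdz := S.d1 z hz1
    have hdz' := S.d2 z hz1
    have hdist : ‖η z - z‖ ≤ 1 / 8 := hdz.trans hsmall
    have hseg : ∀ t : ℝ, 0 ≤ t → t ≤ 1 → 1 / 2 ≤ ‖z + t * (η z - z)‖ := by
      intro t ht0 ht1
      have h1 : ‖(t : ℂ) * (η z - z)‖ ≤ 1 / 8 := by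
        rw [norm_mul, Complex.norm_real, Real.norm_of_nonneg ht0]
        nlinarith [norm_nonneg (η z - z)]
      have h2 : ‖z‖ ≤ ‖z + t * (η z - z)‖ + ‖(t : ℂ) * (η z - z)‖ := by
        calc ‖z‖ = ‖(z + t * (η z - z)) - t * (η z - z)‖ := by rw [add_sub_cancel_right]
          _ ≤ _ := norm_sub_le _ _
      linarith
    have hseg' : ∀ t : ℝ, 0 ≤ t → t ≤ 1 → 1 / 2 ≤ ‖η z + t * (z - η z)‖ := by
      intro t ht0 ht1
      have := hseg (1 - t) (by linarith) (by linarith)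
      have e : z + ((1 - t : ℝ) : ℂ) * (η z - z) = η z + t * (z - η z) := by
        push_cast
        ring
      rwa [e] at this
    have k1 := chain hK S.uγ hz1 hη1 hseg hdz hdz'
    have k2 := chain hK S.uγ hη1 hz1 hseg' (by rw [norm_sub_rev]; exact hdz')
      (by rw [norm_sub_rev]; exact hdz)
    rw [norm_sub_rev] at k1
    exact ⟨k2.trans (mul_le_mul_of_nonneg_right (le_max_left _ _) hd2.le),
      k1.trans (mul_le_mul_of_nonneg_right (le_max_left _ _) hd1.le)⟩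

/-- The glued map is continuous. -/
theorem Sit.continuous (hK : Koe C) (S : Sit φ γ H η Λ) : Continuous (glu φ γ H) := by
  rw [continuous_iff_continuousAt]
  intro w
  by_cases hw : w ∈ φ '' D
  · obtain ⟨z, hz, rfl⟩ := hw
    have h1 : ContinuousAt (Function.invFunOn φ D) (φ z) :=
      continuousAt_inv hK isOpen_D S.uφ.diff S.uφ.inj
        (fun z hz => S.uφ.inj.leftInvOn_invFunOn hz) hz
    have h2 : ContinuousAt γ (Function.invFunOn φ D (φ z)) := by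
      rw [S.uφ.inj.leftInvOn_invFunOn hz]
      exact (S.uγ.diff z hz).continuousWithinAt.continuousAt (isOpen_D.mem_nhds hz)
    have h3 : ContinuousAt (fun w => γ (Function.invFunOn φ D w)) (φ z) :=
      ContinuousAt.comp h2 h1
    refine h3.congr ?_
    filter_upwards [(isOpen_image hK isOpen_D S.uφ.diff S.uφ.inj).mem_nhds
      (mem_image_of_mem φ hz)] with w hw
    rw [glu, if_pos hw]
  · obtain ⟨B, hB0, hB⟩ := S.compare hK (‖w‖ + 1)
    have hHw : infDist (H w) (Kc γ) = 0 := by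
      have : H w ∈ Kc γ := fun h => hw ((S.mem_image w).1 h)
      exact infDist_zero_of_mem this
    have h1 : Tendsto (fun v => B * infDist (H v) (Kc γ)) (𝓝 w) (𝓝 0) := by
      have h2 : Continuous fun v => B * infDist (H v) (Kc γ) :=
        continuous_const.mul ((continuous_infDist_pt _).comp H.continuous)
      have h3 := h2.tendsto w
      rwa [hHw, mul_zero] at h3
    have h2 : Tendsto (fun v => glu φ γ H v - H v) (𝓝 w) (𝓝 0) := by
      refine squeeze_zero_norm' ?_ h1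
      filter_upwards [closedBall_mem_nhds w one_pos] with v hv
      rw [mem_closedBall, dist_eq_norm] at hv
      have : ‖v‖ ≤ ‖w‖ + 1 := by
        calc ‖v‖ = ‖(v - w) + w‖ := by rw [sub_add_cancel]
          _ ≤ ‖v - w‖ + ‖w‖ := norm_add_le _ _
          _ ≤ _ := by linarith
      exact (hB v this).1
    have h3 := h2.add H.continuous.continuousAt.tendsto
    simp only [sub_add_cancel, zero_add] at h3
    rw [ContinuousAt, glu_of_notMem hw]
    exact h3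

/-- The glued homeomorphism. -/
noncomputable def Sit.homeo (hK : Koe C) (S : Sit φ γ H η Λ) : ℂ ≃ₜ ℂ where
  toFun := glu φ γ H
  invFun := glu γ φ H.symm
  left_inv := S.leftInv
  right_inv := S.symm.leftInv
  continuous_toFun := S.continuous hK
  continuous_invFun := S.symm.continuous hK

theorem Sit.bounded (hK : Koe C) (S : Sit φ γ H η Λ) :
    ∃ B : ℝ, 1 ≤ B ∧ ∀ w : ℂ, ‖glu φ γ H w - w‖ ≤ B := by
  obtain ⟨B, hB⟩ := (isCompact_closedBall (0 : ℂ) 10).exists_bound_of_continuousOn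
    ((S.continuous hK).sub continuous_id).continuousOn
  refine ⟨max B 16, le_trans (by norm_num) (le_max_right _ _), fun w => ?_⟩
  rcases le_or_gt ‖w‖ 10 with hw | hw
  · exact (hB w (mem_closedBall_zero_iff.2 hw)).trans (le_max_left _ _)
  · obtain ⟨z, h0, h1, rfl⟩ := F3.cover_infty S.uφ (ε := 1 / 2) (by norm_num) (by norm_num)
      (w := w) (by norm_num; linarith)
    rw [glu_apply S.uφ (mem_D.2 ⟨by linarith, h0⟩)]
    have e1 := F1.om_bound S.uφ (z := z) (by linarith)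
    have e2 := F1.om_bound S.uγ (z := z) (by linarith)
    rw [F1.om_ne φ h0] at e1
    rw [F1.om_ne γ h0] at e2
    refine le_trans ?_ (le_max_right _ _)
    calc ‖γ z - φ z‖ = ‖(γ z - 1 / z) - (φ z - 1 / z)‖ := by congr 1; ring
      _ ≤ ‖γ z - 1 / z‖ + ‖φ z - 1 / z‖ := norm_sub_le _ _
      _ ≤ 16 := by linarith

theorem Sit.diffAt (hK : Koe C) (S : Sit φ γ H η Λ) :
    DifferentiableOn ℂ (glu φ γ H) (φ '' D) := by
  rintro _ ⟨z, hz, rfl⟩
  refine DifferentiableAt.differentiableWithinAt ?_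
  have h1 : DifferentiableAt ℂ (Function.invFunOn φ D) (φ z) :=
    differentiableAt_inv hK isOpen_D S.uφ.diff S.uφ.inj
      (fun z hz => S.uφ.inj.leftInvOn_invFunOn hz) hz
  have h2 : DifferentiableAt ℂ γ (Function.invFunOn φ D (φ z)) := by
    rw [S.uφ.inj.leftInvOn_invFunOn hz]
    exact (S.uγ.diff z hz).differentiableAt (isOpen_D.mem_nhds hz)
  have h3 : DifferentiableAt ℂ (fun w => γ (Function.invFunOn φ D w)) (φ z) :=
    DifferentiableAt.comp _ h2 h1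
  refine h3.congr_of_eventuallyEq ?_
  filter_upwards [(isOpen_image hK isOpen_D S.uφ.diff S.uφ.inj).mem_nhds
    (mem_image_of_mem φ hz)] with w hw
  rw [glu, if_pos hw]

theorem Sit.inj (S : Sit φ γ H η Λ) : Function.Injective (glu φ γ H) :=
  Function.LeftInverse.injective S.leftInv

/-- Koebe distortion for the glued map inside the basin. -/
theorem Sit.koebe (hK : Koe C) (S : Sit φ γ H η Λ) {x : ℂ} (hx : 0 < infDist x (Kc φ)) :
    ‖deriv (glu φ γ H) x‖ * infDist x (Kc φ) / C ≤ infDist (glu φ γ H x) (Kc γ) ∧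
    ∀ z : ℂ, ‖z - x‖ ≤ infDist x (Kc φ) / 2 →
      ‖deriv (glu φ γ H) x‖ * ‖z - x‖ / C ≤ ‖glu φ γ H z - glu φ γ H x‖ ∧
      ‖glu φ γ H z - glu φ γ H x‖ ≤ C * ‖deriv (glu φ γ H) x‖ * ‖z - x‖ := by
  have hsub := ball_subset (φ := φ) x
  obtain ⟨h1, h2⟩ := hK.2 (glu φ γ H) x _ hx ((S.diffAt hK).mono hsub) S.inj.injOn
  refine ⟨?_, fun z hz => ⟨(h2 z hz).1, (h2 z hz).2.1⟩⟩
  rw [le_infDist (Kc_nonempty hK S.uγ)]
  intro y hy
  by_contra hcon
  push Not at hcon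
  rw [dist_comm] at hcon
  obtain ⟨v, hv, rfl⟩ := h1 (mem_ball.2 hcon)
  obtain ⟨z, hz, rfl⟩ := hsub hv
  rw [glu_apply S.uφ hz] at hy
  exact hy (mem_image_of_mem γ hz)

/-- The glued map is weakly quasisymmetric. -/
theorem Sit.wqs (hK : Koe C) (S : Sit φ γ H η Λ) {M : ℝ} (hM : WQS M H) {C2 : ℝ}
    (hC2 : ∀ x y z : ℂ, ‖x - y‖ ≤ 2 * ‖x - z‖ → ‖H x - H y‖ ≤ C2 * ‖H x - H z‖) :
    ∃ M' : ℝ, WQS M' (glu φ γ H) := by
  have hC1 := hK.1
  have hC0 : 0 < C := by linarith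
  obtain ⟨B, hB1, hB⟩ := S.bounded hK
  obtain ⟨E, hE0, hE⟩ := S.compare hK (10 + 12 * B)
  set G := glu φ γ H with hG
  set C5 : ℝ := 16 * (E + 1) * C ^ 2 with hC5
  have hC50 : 0 < C5 := by positivity
  refine ⟨max (max 4 (C ^ 2)) (((1 + E) * |M| + 2 * E * |C2|) * C5), fun x y z hxyz => ?_⟩
  have hn : 0 ≤ ‖G x - G z‖ := norm_nonneg _
  -- the trivial case
  rcases eq_or_ne x z with rfl | hxz
  · rw [sub_self, norm_zero] at hxyz
    have : x = y := sub_eq_zero.1 (norm_le_zero_iff.1 hxyz)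
    subst this
    rw [sub_self, norm_zero, mul_zero]
  have hxz0 : 0 < ‖x - z‖ := norm_pos_iff.2 (sub_ne_zero.2 hxz)
  have gap : ∀ u v : ℂ, ‖u - v‖ - 2 * B ≤ ‖G u - G v‖ ∧ ‖G u - G v‖ ≤ ‖u - v‖ + 2 * B := by
    intro u v
    have e1 := hB u
    have e2 := hB v
    constructor
    · have : ‖u - v‖ ≤ ‖G u - G v‖ + ‖G u - u‖ + ‖G v - v‖ := by
        calc ‖u - v‖ = ‖(G u - G v) - (G u - u) + (G v - v)‖ := by congr 1; ring
          _ ≤ ‖(G u - G v) - (G u - u)‖ + ‖G v - v‖ := norm_add_le _ _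
          _ ≤ _ := by
            gcongr
            exact norm_sub_le _ _
      linarith
    · have : ‖G u - G v‖ ≤ ‖u - v‖ + ‖G u - u‖ + ‖G v - v‖ := by
        calc ‖G u - G v‖ = ‖(u - v) + (G u - u) - (G v - v)‖ := by congr 1; ring
          _ ≤ ‖(u - v) + (G u - u)‖ + ‖G v - v‖ := norm_sub_le _ _
          _ ≤ _ := by
            gcongr
            exact norm_add_le _ _
      linarith
  -- the far case
  rcases le_or_gt (4 * B) ‖x - z‖ with hfar | hnear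
  · have e1 := (gap x z).1
    have e2 := (gap x y).2
    calc ‖G x - G y‖ ≤ 4 * ‖G x - G z‖ := by linarith
      _ ≤ _ := mul_le_mul_of_nonneg_right ((le_max_left _ _).trans (le_max_left _ _)) hn
  -- the Koebe case
  rcases le_or_gt (2 * ‖x - z‖) (infDist x (Kc φ)) with hin | hout
  · have hpos : 0 < infDist x (Kc φ) := by linarith
    obtain ⟨-, hk⟩ := S.koebe hK hpos
    have e1 := (hk z (by rw [norm_sub_rev]; linarith)).1
    have e2 := (hk y (by rw [norm_sub_rev]; linarith)).2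
    rw [norm_sub_rev z x, norm_sub_rev (glu φ γ H z), div_le_iff₀ hC0] at e1
    rw [norm_sub_rev y x, norm_sub_rev (glu φ γ H y)] at e2
    calc ‖G x - G y‖ ≤ C * ‖deriv G x‖ * ‖x - y‖ := e2
      _ ≤ C * ‖deriv G x‖ * ‖x - z‖ := mul_le_mul_of_nonneg_left hxyz (by positivity)
      _ = C * (‖deriv G x‖ * ‖x - z‖) := by ring
      _ ≤ C * (‖G x - G z‖ * C) := mul_le_mul_of_nonneg_left e1 hC0.le
      _ = C ^ 2 * ‖G x - G z‖ := by ring
      _ ≤ _ := mul_le_mul_of_nonneg_right ((le_max_right _ _).trans (le_max_left _ _)) hn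
  -- the remaining case
  obtain ⟨p, hpK, hp⟩ := (isClosed_Kc hK S.uφ).exists_infDist_eq_dist (Kc_nonempty hK S.uφ) x
  rw [dist_eq_norm] at hp
  have hp10 := norm_le_of_mem_Kc S.uφ hpK
  have hxn : ‖x‖ ≤ 10 + 8 * B := by
    calc ‖x‖ = ‖(x - p) + p‖ := by rw [sub_add_cancel]
      _ ≤ ‖x - p‖ + ‖p‖ := norm_add_le _ _
      _ ≤ _ := by linarith
  have hbd : ∀ u : ℂ, ‖x - u‖ ≤ ‖x - z‖ → ‖u‖ ≤ 10 + 12 * B := by
    intro u hu
    calc ‖u‖ = ‖x - (x - u)‖ := by rw [sub_sub_cancel]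
      _ ≤ ‖x‖ + ‖x - u‖ := norm_sub_le _ _
      _ ≤ _ := by linarith
  obtain ⟨hx1, hx2⟩ := hE x (by linarith)
  obtain ⟨hy1, -⟩ := hE y (hbd y hxyz)
  obtain ⟨-, hz2⟩ := hE z (hbd z le_rfl)
  -- upper bound
  have hup : ‖G x - G y‖ ≤ ((1 + E) * |M| + 2 * E * |C2|) * ‖H x - H z‖ := by
    have a1 : ‖H x - H y‖ ≤ |M| * ‖H x - H z‖ :=
      (hM x y z hxyz).trans (mul_le_mul_of_nonneg_right (le_abs_self _) (norm_nonneg _))
    have a2 : infDist (H x) (Kc γ) ≤ |C2| * ‖H x - H z‖ := by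
      have hHp : H p ∈ Kc γ := fun h => hpK ((S.mem_image p).1 h)
      calc infDist (H x) (Kc γ) ≤ dist (H x) (H p) := infDist_le_dist_of_mem hHp
        _ = ‖H x - H p‖ := dist_eq_norm _ _
        _ ≤ C2 * ‖H x - H z‖ := hC2 x p z (by linarith)
        _ ≤ _ := mul_le_mul_of_nonneg_right (le_abs_self _) (norm_nonneg _)
    have a3 : infDist (H y) (Kc γ) ≤ infDist (H x) (Kc γ) + ‖H x - H y‖ := by
      have := infDist_le_infDist_add_dist (s := Kc γ) (x := H y) (y := H x)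
      rwa [dist_comm, dist_eq_norm] at this
    have a4 : ‖G x - G y‖ ≤ ‖H x - H y‖ + ‖G x - H x‖ + ‖G y - H y‖ := by
      calc ‖G x - G y‖ = ‖(H x - H y) + (G x - H x) - (G y - H y)‖ := by congr 1; ring
        _ ≤ ‖(H x - H y) + (G x - H x)‖ + ‖G y - H y‖ := norm_sub_le _ _
        _ ≤ _ := by
          gcongr
          exact norm_add_le _ _
    have a5 : E * infDist (H y) (Kc γ) ≤ E * (infDist (H x) (Kc γ) + ‖H x - H y‖) :=
      mul_le_mul_of_nonneg_left a3 hE0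
    calc ‖G x - G y‖ ≤ (1 + E) * ‖H x - H y‖ + 2 * E * infDist (H x) (Kc γ) := by linarith
      _ ≤ (1 + E) * (|M| * ‖H x - H z‖) + 2 * E * (|C2| * ‖H x - H z‖) := by
          refine add_le_add (mul_le_mul_of_nonneg_left a1 (by linarith))
            (mul_le_mul_of_nonneg_left a2 (by linarith))
      _ = _ := by ring
  -- lower bound
  have hlow : ‖H x - H z‖ ≤ C5 * ‖G x - G z‖ := by
    by_contra hcon
    push Not at hcon
    have b1 : infDist (G z) (Kc γ) ≤ infDist (G x) (Kc γ) + ‖G x - G z‖ := by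
      have := infDist_le_infDist_add_dist (s := Kc γ) (x := G z) (y := G x)
      rwa [dist_comm, dist_eq_norm] at this
    have b2 : ‖H x - H z‖ ≤ ‖G x - G z‖ + ‖G x - H x‖ + ‖G z - H z‖ := by
      calc ‖H x - H z‖ = ‖(G x - G z) - (G x - H x) + (G z - H z)‖ := by congr 1; ring
        _ ≤ ‖(G x - G z) - (G x - H x)‖ + ‖G z - H z‖ := norm_add_le _ _
        _ ≤ _ := by
          gcongr
          exact norm_sub_le _ _
    have b3 : E * infDist (G z) (Kc γ) ≤ E * (infDist (G x) (Kc γ) + ‖G x - G z‖) :=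
      mul_le_mul_of_nonneg_left b1 hE0
    set r := infDist (G x) (Kc γ) with hr
    have hr0 : 0 ≤ r := infDist_nonneg
    have hEC : 16 * (E + 1) ≤ C5 := by
      rw [hC5]
      have : 1 ≤ C ^ 2 := one_le_pow₀ hC1
      nlinarith
    have b4 : C5 * ‖G x - G z‖ < (1 + E) * ‖G x - G z‖ + 2 * E * r := by linarith
    -- `8 C^2 ‖G x - G z‖ ≤ r`
    have b5 : C5 * ‖G x - G z‖ ≤ 2 * C5 * ‖G x - G z‖ - 2 * (1 + E) * ‖G x - G z‖ := by
      nlinarith
    have b6 : 16 * (E + 1) * C ^ 2 * ‖G x - G z‖ < 4 * (E + 1) * r := by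
      have : C5 * ‖G x - G z‖ < 4 * E * r := by linarith
      rw [hC5] at this
      nlinarith
    have b7 : 4 * C ^ 2 * ‖G x - G z‖ < r := by
      have h4 : 0 < 4 * (E + 1) := by positivity
      have : 4 * (E + 1) * (4 * C ^ 2 * ‖G x - G z‖) < 4 * (E + 1) * r := by linarith
      exact lt_of_mul_lt_mul_left this h4.le
    have hrpos : 0 < r := lt_of_le_of_lt (by positivity) b7
    have hC2' : 1 ≤ C ^ 2 := one_le_pow₀ hC1
    obtain ⟨k1, k2⟩ := S.symm.koebe hK (x := G x) hrpos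
    have b8 : ‖G z - G x‖ ≤ r / 2 := by
      rw [norm_sub_rev]
      nlinarith
    have k3 := (k2 (G z) b8).2
    have hinv : ∀ v, glu γ φ H.symm (G v) = v := S.leftInv
    rw [hinv, hinv, norm_sub_rev z x, norm_sub_rev (G z)] at k3
    rw [hinv, div_le_iff₀ hC0] at k1
    set q := ‖deriv (glu γ φ H.symm) (G x)‖ with hq
    have hq0 : 0 ≤ q := norm_nonneg _
    -- `‖x - z‖ ≤ C q s`, `q r ≤ C dist`, `4 C^2 s < r`
    have k4 : q * (4 * C ^ 2 * ‖G x - G z‖) ≤ q * r := mul_le_mul_of_nonneg_left b7.le hq0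
    have k5 : 4 * C * ‖x - z‖ ≤ infDist x (Kc φ) * C := by
      calc 4 * C * ‖x - z‖ ≤ 4 * C * (C * q * ‖G x - G z‖) :=
            mul_le_mul_of_nonneg_left k3 (by positivity)
        _ = q * (4 * C ^ 2 * ‖G x - G z‖) := by ring
        _ ≤ q * r := k4
        _ ≤ _ := k1
    have k6 : 4 * ‖x - z‖ ≤ infDist x (Kc φ) := by
      have : C * (4 * ‖x - z‖) ≤ C * infDist x (Kc φ) := by linarith
      exact le_of_mul_le_mul_left this hC0
    linarith
  calc ‖G x - G y‖ ≤ ((1 + E) * |M| + 2 * E * |C2|) * ‖H x - H z‖ := hup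
    _ ≤ ((1 + E) * |M| + 2 * E * |C2|) * (C5 * ‖G x - G z‖) :=
        mul_le_mul_of_nonneg_left hlow (by positivity)
    _ = ((1 + E) * |M| + 2 * E * |C2|) * C5 * ‖G x - G z‖ := by ring
    _ ≤ _ := mul_le_mul_of_nonneg_right (le_max_right _ _) hn

end sit

end Glu

theorem glue (h1 : Stmt_Koebe) (h2 : Stmt_QS) (_h3 : Stmt_QSGroup) (h4 : Stmt_Disp)
    (h5 : Stmt_Bl) (_h6 : Stmt_UnifBound) : Stmt_Glue := by
  obtain ⟨C, hC⟩ := h1
  intro m hm a ha f g φ γ hf hg hfφ hgγ H η M hM hconj hη1 hη2 hη3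
  -- `η 0 = 0`
  have hext : ∀ w : ℂ, ext H (w : OnePoint ℂ) = (H w : OnePoint ℂ) := fun w => rfl
  have hhat : ∀ {u : ℂ → ℂ}, IsUnif u → InjOn (hat u) (ball 0 1) := by
    intro u hu x hx y hy hxy
    by_cases hx0 : x = 0
    · by_cases hy0 : y = 0
      · rw [hx0, hy0]
      · rw [hx0, F3.hat_zero, F3.hat_ne u hy0] at hxy
        exact absurd hxy.symm (OnePoint.coe_ne_infty _)
    · by_cases hy0 : y = 0
      · rw [hy0, F3.hat_zero, F3.hat_ne u hx0] at hxy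
        exact absurd hxy (OnePoint.coe_ne_infty _)
      · rw [F3.hat_ne u hx0, F3.hat_ne u hy0] at hxy
        exact hu.inj ⟨hx, hx0⟩ ⟨hy, hy0⟩ (OnePoint.coe_injective hxy)
  have hη0 : η 0 = 0 := by
    by_contra hcon
    have := hη3 0 (mem_ball_self one_pos)
    rw [F3.hat_zero, F3.hat_ne γ hcon] at this
    exact (OnePoint.coe_ne_infty _) this.symm
  have hcomm : ∀ z : ℂ, ‖z‖ < 1 → η (bl (m := m) a z) = bl a (η z) := by
    intro z hz
    have hzb : z ∈ ball (0 : ℂ) 1 := mem_ball_zero_iff.2 hz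
    have hb := h5 m hm a ha
    have h1 : bl a z ∈ ball (0 : ℂ) 1 := mem_ball_zero_iff.2 (hb.ball z hz)
    have h2 : η z ∈ ball (0 : ℂ) 1 := mem_ball_zero_iff.2 ((hη1 z).2 hz)
    refine hhat hgγ.unif (mem_ball_zero_iff.2 ((hη1 _).2 (hb.ball z hz)))
      (mem_ball_zero_iff.2 (hb.ball _ ((hη1 z).2 hz))) ?_
    rw [← hη3 _ h1, ← hfφ.semi z hzb, hconj, hη3 z hzb, hgγ.semi _ h2]
  obtain ⟨Λ, hΛ⟩ := h4 m hm a ha η hη1 hη2 hcomm
  have S : Glu.Sit φ γ H η (max Λ 1) := by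
    refine ⟨hfφ.unif, hgγ.unif, ?_, hη1, hη0, le_max_right _ _, ?_, ?_⟩
    · intro z hz
      obtain ⟨hz1, hz0⟩ := Glu.mem_D.1 hz
      have e1 := hη3 z (mem_ball_zero_iff.2 hz1)
      have hηz : η z ≠ 0 := fun h => hz0 (η.injective (h.trans hη0.symm))
      rw [F3.hat_ne φ hz0, F3.hat_ne γ hηz, hext] at e1
      exact OnePoint.coe_injective e1
    · intro z hz
      exact (hΛ z hz).1.trans (mul_le_mul_of_nonneg_right (le_max_left _ _) (by linarith))
    · intro z hz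
      have := (hη1 z).2 hz
      exact (hΛ z hz).2.trans (mul_le_mul_of_nonneg_right (le_max_left _ _) (by linarith))
  obtain ⟨C2, hC2⟩ := h2.2 M 2
  obtain ⟨M', hM'⟩ := S.wqs hC hM (hC2 H hM)
  refine ⟨S.homeo hC, M', hM', ?_, ?_⟩
  · intro z hz hz0
    exact Glu.glu_apply S.uφ ⟨hz, hz0⟩ H
  · intro x hx
    refine Glu.glu_of_notMem ?_ H
    rintro ⟨z, hz, rfl⟩
    exact hx ⟨z, hz.1, F3.hat_ne φ hz.2⟩

end Pool.Agent.BlMat
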