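import Pool.Agent.BlMat.LMa

set_option autoImplicit false

/-! Block LM: limits of pairs of matings related by surgery. -/

namespace Pool.Agent.BlMat

open Complex Metric Set Filter Topology MeasureTheory
open scoped ComplexConjugate ContDiff

namespace LM

theorem mem_hat {φ : ℂ → ℂ} {x : ℂ} :
    (x : OnePoint ℂ) ∈ hat φ '' ball 0 1 ↔ ∃ z ∈ ball (0 : ℂ) 1, z ≠ 0 ∧ φ z = x := by
  constructor
  · rintro ⟨z, hz, hzx⟩
    by_cases h0 : z = 0
    · subst h0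
      rw [F3.hat_zero] at hzx
      exact absurd hzx (OnePoint.infty_ne_coe x)
    · rw [F3.hat_ne _ h0] at hzx
      exact ⟨z, hz, h0, OnePoint.coe_injective hzx⟩
  · rintro ⟨z, hz, h0, rfl⟩
    exact ⟨z, hz, F3.hat_ne _ h0⟩

theorem ext_hat {φ φ' : ℂ → ℂ} {h ψ : ℂ ≃ₜ ℂ} (hψ0 : ψ 0 = 0)
    (hc : ∀ z ∈ ball (0 : ℂ) 1, z ≠ 0 → h (φ z) = φ' (ψ z)) {z : ℂ} (hz : z ∈ ball (0 : ℂ) 1) :
    ext h (hat φ z) = hat φ' (ψ z) := by
  by_cases h0 : z = 0
  · subst h0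
    rw [hψ0, F3.hat_zero, F3.hat_zero, ext_infty]
  · have h1 : ψ z ≠ 0 := fun h => h0 (ψ.injective (h.trans hψ0.symm))
    rw [F3.hat_ne _ h0, F3.hat_ne _ h1, ext_coe, hc z hz h0]

end LM

open LM in
theorem limit (h1 : Stmt_Surgery) (h2 : Stmt_MateEU) (h3 : Stmt_ClsCompact) (h4 : Stmt_UnifConv)
    (h5 : Stmt_QSCompact) (h6 : Stmt_Cls) (h7 : Stmt_Stab) (h8 : Stmt_Bl) (h9 : Stmt_SphereTop)
    (h10 : Stmt_QSGroup) : Stmt_Limit := by
  intro m hm a ha a' ha' k r g ψ ψs hMod fs fs' bs f f' hbs hmate hmate' hf hf'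
  have hmate1 : ∀ i, ∃ φ χ, MateData a (bs i) (fs i).fn φ χ := fun i => (hmate i).2
  choose φs χs hD using hmate1
  obtain ⟨M, R, hR, hS⟩ := h1 k r hMod.k_nonneg hMod.k_lt hMod.r_pos hMod.r_lt
  have hS' : ∀ i, ∃ (h : ℂ ≃ₜ ℂ) (φ' χ' : ℂ → ℂ), NormQS M R h ∧
      MateData a' (bs i) (fs' i).fn φ' χ' ∧
      (∀ z : ℂ, z ≠ 0 → ‖z‖ ≤ 1 → h (φs i z) = φ' (ψ z)) ∧
      (∀ z : ℂ, ‖z‖ ≤ 1 → h (χs i z) = χ' z) := by
    intro i
    obtain ⟨h, F, φ', χ', q1, q2, q3, q4, q5, q6⟩ := hS m hm a ha a' ha' (bs i) (hbs i) (bs i)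
      (hbs i) g (bl (bs i)) ψ (Homeomorph.refl ℂ) ψs (fun _ => Homeomorph.refl ℂ) hMod
      (idModel h8 hm (hbs i) hMod.k_nonneg hMod.k_lt hMod.r_pos hMod.r_lt) (fs i).fn (φs i) (χs i)
      (fs i).2 (hD i)
    obtain ⟨r1, φ'', χ'', r2⟩ := hmate' i
    obtain ⟨e, -, -⟩ := (h2 m hm a' ha' (bs i) (hbs i)).2 F (fs' i).fn φ' χ' φ'' χ'' q3 r1 q4 r2
    rw [e] at q4
    exact ⟨h, φ', χ', q1, q4, q5, q6⟩
  choose hs φs' χs' hN hD' hφ hχ using hS'
  have hC : ∀ i, Cls a (fs i).fn (φs i) := fun i =>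
    ((h6 m hm a ha).1 (bs i) (hbs i) (fs i).fn (φs i) (χs i) (fs i).1.continuous (hD i)).1
  have hC' : ∀ i, Cls a' (fs' i).fn (φs' i) := fun i =>
    ((h6 m hm a' ha').1 (bs i) (hbs i) (fs' i).fn (φs' i) (χs' i) (fs' i).1.continuous (hD' i)).1
  -- subsequences
  obtain ⟨f₁, φ, s, hs1, hCl, hU, hT⟩ := h3 m hm a ha fs φs hC
  have ef : f₁ = f := tendsto_nhds_unique hT (hf.comp hs1.tendsto_atTop)
  subst ef
  obtain ⟨f₁', φ', t, ht, hCl', hU', hT'⟩ := h3 m hm a' ha' (fun i => fs' (s i))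
    (fun i => φs' (s i)) (fun i => hC' (s i))
  have ef' : f₁' = f' :=
    tendsto_nhds_unique hT' ((hf'.comp hs1.tendsto_atTop).comp ht.tendsto_atTop)
  subst ef'
  obtain ⟨⟨R', hRR', hb⟩, hqs⟩ := h5 M R hR
  obtain ⟨h, u, hu, hNh, hL, hL'⟩ := hqs (fun i => hs (s (t i))) (fun i => hN _)
  set σ : ℕ → ℕ := fun i => s (t (u i)) with hσdef
  have hσ : StrictMono σ := hs1.comp (ht.comp hu)
  have U : UConv (fun i => φs (σ i)) φ := uconv_sub (uconv_sub hU ht) hu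
  have U' : UConv (fun i => φs' (σ i)) φ' := uconv_sub hU' hu
  have L : TendstoLocallyUniformly (fun i => (hs (σ i) : ℂ → ℂ)) h atTop := hL
  have L' : TendstoLocallyUniformly (fun i => ((hs (σ i)).symm : ℂ → ℂ)) h.symm atTop := hL'
  have F : Tendsto (fun i => fs (σ i)) atTop (𝓝 f₁) := hf.comp hσ.tendsto_atTop
  have F' : Tendsto (fun i => fs' (σ i)) atTop (𝓝 f₁') := hf'.comp hσ.tendsto_atTop
  clear_value σ
  -- the model
  have hψ0 : ψ 0 = 0 := hMod.near_zero 0 (by rw [norm_zero]; exact hMod.r_pos.le)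
  have hψne : ∀ z, z ≠ 0 → ψ z ≠ 0 := fun z hz h => hz (ψ.injective (h.trans hψ0.symm))
  have Ba := h8 m hm a ha
  have Ba' := h8 m hm a' ha'
  have hcoup : ∀ z ∈ ball (0 : ℂ) 1, z ≠ 0 → h (φ z) = φ' (ψ z) := by
    intro z hz hz0
    have hz1 := mem_ball_zero_iff.1 hz
    have e1 : Tendsto (fun i => hs (σ i) (φs (σ i) z)) atTop (𝓝 (h (φ z))) :=
      L.tendsto_comp h.continuous.continuousAt (uconv_pt U hz0 hz1)
    have e2 : Tendsto (fun i => hs (σ i) (φs (σ i) z)) atTop (𝓝 (φ' (ψ z))) := by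
      refine (uconv_pt U' (hψne z hz0) ((hMod.norm_lt z).2 hz1)).congr fun i => ?_
      exact (hφ (σ i) z hz0 hz1.le).symm
    exact tendsto_nhds_unique e1 e2
  obtain ⟨ρ, hρ, hg⟩ := hMod.g_eq
  have hψbl : ∀ z : ℂ, ρ < ‖z‖ → ‖z‖ < 1 → ψ (bl a z) = bl a' (ψ z) := by
    intro z hz hz1
    rw [← hg z hz hz1, model_conj hMod hz1]
  have hcoupi : ∀ i, ∀ z ∈ ball (0 : ℂ) 1, z ≠ 0 → hs i (φs i z) = φs' i (ψ z) :=
    fun i z hz hz0 => hφ i z hz0 (mem_ball_zero_iff.1 hz).le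
  have hble : ∀ i z, ‖z‖ ≤ 1 → ‖bl (bs i) z‖ ≤ 1 := by
    intro i z hz
    have B := h8 m hm (bs i) (hbs i)
    rcases hz.lt_or_eq with h | h
    · exact (B.ball z h).le
    · exact (B.sphere z h).le
  have caseA : ∀ i z, ‖z‖ ≤ 1 → (fs' i).fn (hs i (χs i z) : OnePoint ℂ) =
      ext (hs i) ((fs i).fn (χs i z : OnePoint ℂ)) := by
    intro i z hz
    have e1 := ((h6 m hm a ha).1 (bs i) (hbs i) (fs i).fn (φs i) (χs i) (fs i).1.continuous
      (hD i)).2.2.1 z hz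
    have e2 := ((h6 m hm a' ha').1 (bs i) (hbs i) (fs' i).fn (φs' i) (χs' i)
      (fs' i).1.continuous (hD' i)).2.2.1 z hz
    rw [e1, ext_coe, hχ i z hz, e2, hχ i _ (hble i z hz)]
  have caseB : ∀ i z, ρ < ‖z‖ → ‖z‖ < 1 → z ≠ 0 → (fs' i).fn (hs i (φs i z) : OnePoint ℂ) =
      ext (hs i) ((fs i).fn (φs i z : OnePoint ℂ)) := by
    intro i z hz hz1 hz0
    have hzb : z ∈ ball (0 : ℂ) 1 := mem_ball_zero_iff.2 hz1
    have hψb : ψ z ∈ ball (0 : ℂ) 1 := mem_ball_zero_iff.2 ((hMod.norm_lt z).2 hz1)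
    have hblb : bl a z ∈ ball (0 : ℂ) 1 := mem_ball_zero_iff.2 (Ba.ball z hz1)
    have e1 := (hC i).semi z hzb
    have e2 := (hC' i).semi (ψ z) hψb
    rw [F3.hat_ne _ hz0] at e1
    rw [F3.hat_ne _ (hψne z hz0)] at e2
    rw [e1, ext_hat hψ0 (hcoupi i) hblb, hcoupi i z hzb hz0, e2, hψbl z hz hz1]
  have hconj : ∀ x : ℂ, (x : OnePoint ℂ) ∉ hat φ '' ball 0 1 →
      f₁'.fn (h x) = ext h (f₁.fn x) := by
    intro x hx
    have ev : ∀ᶠ i in atTop, (fs' (σ i)).fn (hs (σ i) x : OnePoint ℂ) =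
        ext (hs (σ i)) ((fs (σ i)).fn (x : OnePoint ℂ)) := by
      by_contra hcon
      rw [not_eventually] at hcon
      obtain ⟨v, hv, hv'⟩ := extraction_of_frequently_atTop hcon
      have hz : ∀ n, ∃ z : ℂ, z ∈ closedBall (0 : ℂ) ρ ∧ hat (φs (σ (v n))) z = (x : OnePoint ℂ) ∧
          ‖z‖ < 1 := by
        intro n
        have hcov : x ∈ φs (σ (v n)) '' (ball 0 1 \ {0}) ∪ χs (σ (v n)) '' closedBall 0 1 := by
          rw [(hD (σ (v n))).cover]; trivial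
        rcases hcov with ⟨z, ⟨hz, hz0⟩, hzx⟩ | ⟨z, hz, hzx⟩
        · refine ⟨z, ?_, ?_, mem_ball_zero_iff.1 hz⟩
          · rw [mem_closedBall_zero_iff]
            by_contra hlt
            push Not at hlt
            apply hv' n
            have := caseB (σ (v n)) z hlt (mem_ball_zero_iff.1 hz) hz0
            rwa [hzx] at this
          · rw [F3.hat_ne _ hz0, hzx]
        · exfalso
          apply hv' n
          have := caseA (σ (v n)) z (mem_closedBall_zero_iff.1 hz)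
          rwa [hzx] at this
      choose zs hzs hzs' hzs'' using hz
      obtain ⟨z, hz, w, hw, hlim⟩ := (isCompact_closedBall (0 : ℂ) ρ).tendsto_subseq hzs
      have hz1 : ‖z‖ < 1 := (mem_closedBall_zero_iff.1 hz).trans_lt hρ
      have U2 : UConv (fun n => φs (σ (v (w n)))) φ := uconv_sub (uconv_sub U hv) hw
      have e1 := (h4 (fun n => φs (σ (v (w n)))) φ (fun n => (hC _).unif) hCl.unif U2).1 z
        (fun n => zs (w n)) hz1 hlim
      have e2 : (fun n => hat (φs (σ (v (w n)))) (zs (w n))) = fun _ => (x : OnePoint ℂ) := by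
        ext1 n
        exact hzs' (w n)
      rw [e2] at e1
      have e3 := tendsto_nhds_unique e1 tendsto_const_nhds
      exact hx ⟨z, mem_ball_zero_iff.2 hz1, e3⟩
    have x1 : Tendsto (fun i => hs (σ i) x) atTop (𝓝 (h x)) :=
      L.tendsto_comp h.continuous.continuousAt tendsto_const_nhds
    have x2 : Tendsto (fun i => ((hs (σ i) x : ℂ) : OnePoint ℂ)) atTop (𝓝 (h x : OnePoint ℂ)) :=
      (OnePoint.continuous_coe.tendsto _).comp x1
    have x3 := conv_fn h9 F' x2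
    have x4 := conv_fn h9 F (tendsto_const_nhds (x := (x : OnePoint ℂ)))
    have x5 := ext_conv hR L (fun i => hb (hs (σ i)) (hN _)) x4
    exact tendsto_nhds_unique x3 (x5.congr' (ev.mono fun i hi => hi.symm))
  refine ⟨φ, φ', h, M, R, hCl, hCl', hNh, hcoup, hconj, fun b hb' => ⟨?_, ?_⟩⟩
  · rintro ⟨-, φ₀, χ, hM⟩
    have H6 := (h6 m hm a ha).1 b hb' f₁.fn φ₀ χ f₁.1.continuous hM
    have hEq : EqOn φ₀ φ (ball 0 1 \ {0}) := (h6 m hm a ha).2 f₁.fn φ₀ φ H6.1 hCl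
    have hnot : ∀ z ∈ ball (0 : ℂ) 1, ((χ z : ℂ) : OnePoint ℂ) ∉ hat φ '' ball 0 1 := by
      intro z hz hmem
      obtain ⟨w, hw, hw0, hwz⟩ := mem_hat.1 hmem
      have : ((χ z : ℂ) : OnePoint ℂ) ∉ hat φ₀ '' ball 0 1 :=
        (H6.2.1 (χ z)).2 ⟨z, ball_subset_closedBall hz, rfl⟩
      apply this
      rw [mem_hat]
      exact ⟨w, hw, hw0, by rw [hEq ⟨hw, hw0⟩, hwz]⟩
    refine ⟨f₁'.2, _, _, transport hM h ψ hMod.norm_lt hMod.norm_eq hψ0 hMod.one hCl'.unif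
      (fun z hz hz0 => by rw [hEq ⟨hz, hz0⟩, hcoup z hz hz0]) hCl'.semi
      (fun z hz => mem_ball_zero_iff.2 (Ba'.ball z (mem_ball_zero_iff.1 hz))) ?_ ?_ ?_⟩
    · refine hol_limit L (χs := fun i => χs (σ i)) (χs' := fun i => χs' (σ i))
        (fun i => (hD (σ i)).χdiff) (fun i => (hD (σ i)).χinj.mono ball_subset_closedBall)
        (fun i => (hD' (σ i)).χdiff)
        (fun i z hz => hχ (σ i) z (mem_ball_zero_iff.1 hz).le) hM.χdiff ?_
      exact h7 m hm a ha b hb' (fun i => fs (σ i)) f₁ (fun i => bs (σ i)) (fun i => φs (σ i))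
        (fun i => χs (σ i)) φ₀ χ (fun i => hbs _) (fun i => hD (σ i)) hM F
    · intro z hz
      rw [hconj _ (hnot z hz), hM.semiχ z hz, ext_coe]
    · intro H M₁ hH
      obtain ⟨M', hM'⟩ := h10.2 (max M₁ M)
      refine ⟨M', hM' H h ?_ ?_⟩
      · exact fun x y z hxy => (hH x y z hxy).trans
          (mul_le_mul_of_nonneg_right (le_max_left _ _) (norm_nonneg _))
      · exact fun x y z hxy => (hNh.wqs x y z hxy).trans
          (mul_le_mul_of_nonneg_right (le_max_right _ _) (norm_nonneg _))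
  · rintro ⟨-, φ₀, χ, hM⟩
    have H6 := (h6 m hm a' ha').1 b hb' f₁'.fn φ₀ χ f₁'.1.continuous hM
    have hEq : EqOn φ₀ φ' (ball 0 1 \ {0}) := (h6 m hm a' ha').2 f₁'.fn φ₀ φ' H6.1 hCl'
    have hnot : ∀ z ∈ ball (0 : ℂ) 1, ((h.symm (χ z) : ℂ) : OnePoint ℂ) ∉ hat φ '' ball 0 1 := by
      intro z hz hmem
      obtain ⟨w, hw, hw0, hwz⟩ := mem_hat.1 hmem
      have : ((χ z : ℂ) : OnePoint ℂ) ∉ hat φ₀ '' ball 0 1 :=
        (H6.2.1 (χ z)).2 ⟨z, ball_subset_closedBall hz, rfl⟩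
      apply this
      rw [mem_hat]
      have hψw : ψ w ∈ ball (0 : ℂ) 1 :=
        mem_ball_zero_iff.2 ((hMod.norm_lt w).2 (mem_ball_zero_iff.1 hw))
      refine ⟨ψ w, hψw, hψne w hw0, ?_⟩
      rw [hEq ⟨hψw, hψne w hw0⟩, ← hcoup w hw hw0, hwz, h.apply_symm_apply]
    have slt : ∀ z, ‖ψ.symm z‖ < 1 ↔ ‖z‖ < 1 := fun z => by
      rw [← hMod.norm_lt (ψ.symm z), ψ.apply_symm_apply]
    have seq : ∀ z, ‖ψ.symm z‖ = 1 ↔ ‖z‖ = 1 := fun z => by
      rw [← hMod.norm_eq (ψ.symm z), ψ.apply_symm_apply]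
    have s0 : ψ.symm 0 = 0 := by rw [← hψ0, ψ.symm_apply_apply, hψ0]
    have s1 : ψ.symm 1 = 1 := by
      conv_lhs => rw [← hMod.one]
      exact ψ.symm_apply_apply 1
    refine ⟨f₁.2, _, _, transport hM h.symm ψ.symm slt seq s0 s1 hCl.unif
      (fun z hz hz0 => ?_) hCl.semi
      (fun z hz => mem_ball_zero_iff.2 (Ba.ball z (mem_ball_zero_iff.1 hz))) ?_ ?_ ?_⟩
    · have hzb : ψ.symm z ∈ ball (0 : ℂ) 1 :=
        mem_ball_zero_iff.2 ((slt z).2 (mem_ball_zero_iff.1 hz))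
      have hz0' : ψ.symm z ≠ 0 := fun h0 => hz0 (by
        rw [← ψ.apply_symm_apply z, h0, hψ0])
      have := hcoup _ hzb hz0'
      rw [ψ.apply_symm_apply] at this
      rw [hEq ⟨hz, hz0⟩, ← this, h.symm_apply_apply]
    · refine hol_limit L' (χs := fun i => χs' (σ i)) (χs' := fun i => χs (σ i))
        (fun i => (hD' (σ i)).χdiff) (fun i => (hD' (σ i)).χinj.mono ball_subset_closedBall)
        (fun i => (hD (σ i)).χdiff)
        (fun i z hz => by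
          rw [← hχ (σ i) z (mem_ball_zero_iff.1 hz).le, Homeomorph.symm_apply_apply]) hM.χdiff ?_
      exact h7 m hm a' ha' b hb' (fun i => fs' (σ i)) f₁' (fun i => bs (σ i))
        (fun i => φs' (σ i)) (fun i => χs' (σ i)) φ₀ χ (fun i => hbs _) (fun i => hD' (σ i)) hM F'
    · intro z hz
      have e1 := hconj _ (hnot z hz)
      rw [h.apply_symm_apply, hM.semiχ z hz] at e1
      have e2 : ext h ((h.symm (χ (bl b z)) : ℂ) : OnePoint ℂ) = (χ (bl b z) : OnePoint ℂ) := by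
        rw [ext_coe, h.apply_symm_apply]
      rw [← e2] at e1
      exact (ext_injective h e1).symm
    · intro H M₁ hH
      obtain ⟨M', hM'⟩ := h10.2 (max M₁ M)
      refine ⟨M', hM' H h.symm ?_ ?_⟩
      · exact fun x y z hxy => (hH x y z hxy).trans
          (mul_le_mul_of_nonneg_right (le_max_left _ _) (norm_nonneg _))
      · exact fun x y z hxy => (hNh.wqs' x y z hxy).trans
          (mul_le_mul_of_nonneg_right (le_max_right _ _) (norm_nonneg _))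

end Pool.Agent.BlMat
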