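import Pool.Agent.BlMat.DynDefs
import Pool.Agent.BlMat.GlueDefs
import Pool.Agent.BlMat.Basic
import Pool.Agent.BlMat.F3
import Pool.Agent.Squeeze.Inverse
import Pool.Agent.Squeeze.OneDim

set_option autoImplicit false

/-! Block LM: limits of pairs of matings related by surgery. -/

namespace Pool.Agent.BlMat

open Complex Metric Set Filter Topology MeasureTheory
open scoped ComplexConjugate ContDiff

namespace LM

theorem uconv_sub {φs : ℕ → ℂ → ℂ} {φ : ℂ → ℂ} (h : UConv φs φ) {s : ℕ → ℕ} (hs : StrictMono s) :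
    UConv (fun k => φs (s k)) φ := fun ρ hρ ε hε =>
  hs.tendsto_atTop.eventually (h ρ hρ ε hε)

theorem uconv_pt {φs : ℕ → ℂ → ℂ} {φ : ℂ → ℂ} (h : UConv φs φ) {z : ℂ} (hz : z ≠ 0)
    (h1 : ‖z‖ < 1) : Tendsto (fun k => φs k z) atTop (𝓝 (φ z)) := by
  rw [Metric.tendsto_nhds]
  intro ε hε
  filter_upwards [h ‖z‖ h1 (ε / 2) (by positivity)] with k hk
  rw [dist_eq_norm]
  linarith [hk z hz le_rfl]

theorem ext_coe (H : ℂ ≃ₜ ℂ) (w : ℂ) : ext H (w : OnePoint ℂ) = (H w : OnePoint ℂ) := rfl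

theorem ext_infty (H : ℂ ≃ₜ ℂ) : ext H OnePoint.infty = OnePoint.infty := rfl

theorem ext_injective (H : ℂ ≃ₜ ℂ) : Function.Injective (ext H) :=
  H.onePointCongr.injective

/-- Continuous convergence of the extensions. -/
theorem ext_conv {Hs : ℕ → ℂ ≃ₜ ℂ} {H : ℂ ≃ₜ ℂ} {R R' : ℝ} (hR : 0 < R)
    (hH : TendstoLocallyUniformly (fun i => (Hs i : ℂ → ℂ)) H atTop)
    (hb : ∀ i, ∀ w : ℂ, 2 * R ≤ ‖w‖ → ‖Hs i w - w‖ ≤ R' * R / ‖w‖)
    {y : OnePoint ℂ} {ys : ℕ → OnePoint ℂ} (hy : Tendsto ys atTop (𝓝 y)) :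
    Tendsto (fun i => ext (Hs i) (ys i)) atTop (𝓝 (ext H y)) := by
  induction y using OnePoint.rec with
  | infty =>
    rw [ext_infty, F3.tendsto_infty_iff]
    intro A
    filter_upwards [F3.tendsto_infty_iff.1 hy (max (2 * R) (A + |R'| + 1))] with i hi w hw
    rcases OnePoint.ne_infty_iff_exists.1 (show ys i ≠ OnePoint.infty by
      intro h
      rw [h, ext_infty] at hw
      exact OnePoint.infty_ne_coe w hw) with ⟨v, hv⟩
    have h1 := hi v hv.symm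
    rw [← hv, ext_coe] at hw
    have hw' : Hs i v = w := OnePoint.coe_injective hw
    have h2 : 2 * R < ‖v‖ := (le_max_left _ _).trans_lt h1
    have h3 : A + |R'| + 1 < ‖v‖ := (le_max_right _ _).trans_lt h1
    have h4 := hb i v h2.le
    have hv0 : 0 < ‖v‖ := by linarith
    have h5 : R' * R / ‖v‖ ≤ |R'| := by
      rw [div_le_iff₀ hv0]
      have := le_abs_self R'
      have := abs_nonneg R'
      nlinarith
    have h6 : ‖v‖ ≤ ‖w‖ + ‖Hs i v - v‖ := by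
      have : v = Hs i v - (Hs i v - v) := by ring
      calc ‖v‖ = ‖Hs i v - (Hs i v - v)‖ := by rw [← this]
        _ ≤ ‖Hs i v‖ + ‖Hs i v - v‖ := norm_sub_le _ _
        _ = _ := by rw [hw']
    linarith
  | coe w =>
    have h1 : ∀ᶠ i in atTop, ys i ∈ range ((↑) : ℂ → OnePoint ℂ) :=
      hy.eventually (OnePoint.isOpenEmbedding_coe.isOpen_range.mem_nhds (mem_range_self w))
    classical
    let ws : ℕ → ℂ := fun i => if h : ys i ∈ range ((↑) : ℂ → OnePoint ℂ) then h.choose else 0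
    have h2 : ∀ᶠ i in atTop, ((ws i : ℂ) : OnePoint ℂ) = ys i := by
      filter_upwards [h1] with i hi
      simp only [ws, dif_pos hi]
      exact hi.choose_spec
    have h3 : Tendsto ws atTop (𝓝 w) := by
      rw [OnePoint.isOpenEmbedding_coe.tendsto_nhds_iff]
      exact hy.congr' (h2.mono fun i hi => hi.symm)
    have h4 : Tendsto (fun i => Hs i (ws i)) atTop (𝓝 (H w)) :=
      hH.tendsto_comp H.continuous.continuousAt h3
    have h5 : Tendsto (fun i => ((Hs i (ws i) : ℂ) : OnePoint ℂ)) atTop (𝓝 (H w : OnePoint ℂ)) :=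
      (OnePoint.continuous_coe.tendsto _).comp h4
    refine h5.congr' (h2.mono fun i hi => ?_)
    show _ = ext (Hs i) (ys i)
    rw [← hi, ext_coe]

theorem conv_fn (h9 : Stmt_SphereTop) {n : ℕ} {fs : ℕ → RatMap n} {f : RatMap n}
    (h : Tendsto fs atTop (𝓝 f)) {x : OnePoint ℂ} {xs : ℕ → OnePoint ℂ}
    (hx : Tendsto xs atTop (𝓝 x)) :
    Tendsto (fun k => (fs k).fn (xs k)) atTop (𝓝 (f.fn x)) :=
  (h9.2.2 _ _).1 ((continuous_subtype_val.tendsto f).comp h) x xs hx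

theorem model_conj {m : ℕ} {a a' : Fin m → ℂ} {k r : ℝ} {g : ℂ → ℂ} {ψ : ℂ ≃ₜ ℂ}
    {ψs : ℕ → ℂ ≃ₜ ℂ} (hM : Model a a' k r g ψ ψs) {z : ℂ} (hz : ‖z‖ < 1) :
    ψ (g z) = bl a' (ψ z) := by
  have hz' : z ∈ ball (0 : ℂ) 1 := mem_ball_zero_iff.2 hz
  have hg : ‖g z‖ < 1 := mem_ball_zero_iff.1 (hM.g_maps hz')
  have h1 := hM.stab ‖g z‖ hg
  have h2 := (tendsto_add_atTop_nat 1).eventually (hM.stab ‖z‖ hz)
  obtain ⟨j, h3, h4⟩ := (h1.and h2).exists
  rw [← h3 (g z) le_rfl, hM.conj_j j z hz', h4 z le_rfl]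

theorem idModel (h8 : Stmt_Bl) {m : ℕ} (hm : 1 ≤ m) {b : Fin m → ℂ} (hb : b ∈ Par m) {k r : ℝ}
    (hk0 : 0 ≤ k) (hk : k < 1) (hr0 : 0 < r) (hr : r < 1) :
    Model b b k r (bl b) (Homeomorph.refl ℂ) (fun _ => Homeomorph.refl ℂ) := by
  have hB := h8 m hm b hb
  refine
  { k_nonneg := hk0
    k_lt := hk
    r_pos := hr0
    r_lt := hr
    norm_lt := fun z => Iff.rfl
    norm_eq := fun z => Iff.rfl
    norm_lt' := fun j z => Iff.rfl
    norm_eq' := fun j z => Iff.rfl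
    one := rfl
    near_zero := fun z _ => rfl
    near_zero' := fun j z _ => rfl
    smooth := fun j => contDiff_id.contDiffOn
    ne := fun j z hz => ?_
    dil := fun j z hz => ?_
    hol := fun j => ⟨0, one_pos, fun z hz hz' => ?_⟩
    stab := fun ρ hρ => Eventually.of_forall fun j z hz => rfl
    g_cont := ?_
    g_maps := fun z hz => ?_
    g_zero := hB.zero
    g_eq := ⟨0, one_pos, fun z _ _ => rfl⟩
    conj_j := fun j z hz => rfl }
  · have h1 := (dz_id z).1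
    have h2 : dz (Homeomorph.refl ℂ) z = 1 := h1
    rw [h2]
    exact one_ne_zero
  · have h2 : dzb (Homeomorph.refl ℂ) z = 0 := (dz_id z).2
    rw [h2, norm_zero]
    positivity
  · have h2 : dzb (Homeomorph.refl ℂ) z = 0 := (dz_id z).2
    exact h2
  · obtain ⟨R, hR, hd⟩ := hB.diff
    exact (hd.mono (ball_subset_ball hR.le)).continuousOn
  · rw [mem_ball_zero_iff] at hz ⊢
    exact hB.ball z hz

/-- A homeomorphism read through two univalent maps is holomorphic on the image. -/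
theorem diff_of_univ {H : ℂ → ℂ} {χ χ' : ℂ → ℂ} (hd : DifferentiableOn ℂ χ (ball 0 1))
    (hi : InjOn χ (ball 0 1)) (hd' : DifferentiableOn ℂ χ' (ball 0 1))
    (he : ∀ z ∈ ball (0 : ℂ) 1, H (χ z) = χ' z) {z : ℂ} (hz : z ∈ ball (0 : ℂ) 1) :
    DifferentiableAt ℂ H (χ z) := by
  obtain ⟨G, hG1, hG2⟩ := Pool.Agent.Squeeze.exists_inverse isOpen_ball hd hi
  have hne := Pool.Agent.Squeeze.deriv_ne_zero_of_injOn isOpen_ball hd hi hz
  have hs : HasStrictDerivAt χ (deriv χ z) z := by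
    have := (hd.analyticOnNhd isOpen_ball) z hz
    exact this.hasStrictDerivAt
  have hmap := hs.map_nhds_eq hne
  have h1 : χ '' ball 0 1 ∈ 𝓝 (χ z) := by
    rw [← hmap]
    exact image_mem_map (isOpen_ball.mem_nhds hz)
  have h2 : H =ᶠ[𝓝 (χ z)] fun y => χ' (G y) := by
    filter_upwards [h1] with y hy
    obtain ⟨w, hw, rfl⟩ := hy
    rw [he w hw, hG1 w hw]
  have h3 : DifferentiableAt ℂ (fun y => χ' (G y)) (χ z) := by
    have h4 : DifferentiableAt ℂ χ' (G (χ z)) := by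
      rw [hG1 z hz]
      exact hd'.differentiableAt (isOpen_ball.mem_nhds hz)
    exact h4.comp _ (hG2 z hz)
  exact h3.congr_of_eventuallyEq h2

theorem hol_limit {Hs : ℕ → ℂ ≃ₜ ℂ} {H : ℂ ≃ₜ ℂ}
    (hH : TendstoLocallyUniformly (fun i => (Hs i : ℂ → ℂ)) H atTop)
    {χs χs' : ℕ → ℂ → ℂ} {χ : ℂ → ℂ} (hd : ∀ i, DifferentiableOn ℂ (χs i) (ball 0 1))
    (hi : ∀ i, InjOn (χs i) (ball 0 1)) (hd' : ∀ i, DifferentiableOn ℂ (χs' i) (ball 0 1))
    (he : ∀ i, ∀ z ∈ ball (0 : ℂ) 1, Hs i (χs i z) = χs' i z)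
    (hχ : DifferentiableOn ℂ χ (ball 0 1))
    (hst : ∀ ρ : ℝ, ρ < 1 → ∀ᶠ i in atTop, χ '' closedBall 0 ρ ⊆ χs i '' ball 0 1) :
    DifferentiableOn ℂ (fun z => H (χ z)) (ball 0 1) := by
  intro z₀ hz₀
  rw [mem_ball_zero_iff] at hz₀
  obtain ⟨ρ, hρ, hρ1⟩ := exists_between hz₀
  have hsub : ball (0 : ℂ) ρ ⊆ ball 0 1 := ball_subset_ball hρ1.le
  have h1 : TendstoLocallyUniformlyOn (fun i z => Hs i (χ z)) (fun z => H (χ z)) atTop
      (ball 0 ρ) := by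
    have h2 : TendstoLocallyUniformlyOn (fun i => (Hs i : ℂ → ℂ)) H atTop univ :=
      tendstoLocallyUniformlyOn_univ.2 hH
    exact h2.comp χ (fun z _ => mem_univ _) (hχ.continuousOn.mono hsub)
  have h3 : ∀ᶠ i in atTop, DifferentiableOn ℂ (fun z => Hs i (χ z)) (ball 0 ρ) := by
    filter_upwards [hst ρ hρ1] with i hi' z hz
    obtain ⟨w, hw, hwz⟩ := hi' (mem_image_of_mem χ (ball_subset_closedBall hz))
    have h4 := diff_of_univ (hd i) (hi i) (hd' i) (he i) hw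
    rw [hwz] at h4
    exact (h4.comp z (hχ.differentiableAt (isOpen_ball.mem_nhds (hsub hz)))).differentiableWithinAt
  have h5 := h1.differentiableOn h3 isOpen_ball
  exact (h5.differentiableAt (isOpen_ball.mem_nhds (mem_ball_zero_iff.2 hρ))).differentiableWithinAt

/-- Transport of the data of a mating by a homeomorphism. -/
theorem transport {m : ℕ} {a a' b : Fin m → ℂ} {F F' : OnePoint ℂ → OnePoint ℂ} {φ₀ χ φ' : ℂ → ℂ}
    (hM : MateData a b F φ₀ χ) (h ψ : ℂ ≃ₜ ℂ) (hψlt : ∀ z, ‖ψ z‖ < 1 ↔ ‖z‖ < 1)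
    (hψeq : ∀ z, ‖ψ z‖ = 1 ↔ ‖z‖ = 1) (hψ0 : ψ 0 = 0) (hψ1 : ψ 1 = 1) (hU : IsUnif φ')
    (hφ' : ∀ z ∈ ball (0 : ℂ) 1, z ≠ 0 → h (φ₀ z) = φ' (ψ z))
    (hsemi : ∀ z ∈ ball (0 : ℂ) 1, F' (hat φ' z) = hat φ' (bl a' z))
    (hbl : ∀ z ∈ ball (0 : ℂ) 1, bl a' z ∈ ball (0 : ℂ) 1)
    (hχd : DifferentiableOn ℂ (fun z => h (χ z)) (ball 0 1))
    (hχs : ∀ z ∈ ball (0 : ℂ) 1, F' (h (χ z) : OnePoint ℂ) = (h (χ (bl b z)) : OnePoint ℂ))
    (hW : ∀ (H : ℂ ≃ₜ ℂ) (M : ℝ), WQS M H → ∃ M' : ℝ, WQS M' (H.trans h)) :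
    MateData a' b F' (fun z => h (φ₀ (ψ.symm z))) (fun z => h (χ z)) := by
  have e0 : ψ.symm 0 = 0 := by rw [← hψ0, ψ.symm_apply_apply, hψ0]
  have e1 : ψ.symm 1 = 1 := by
    conv_lhs => rw [← hψ1]
    exact ψ.symm_apply_apply 1
  have elt : ∀ z, ‖ψ.symm z‖ < 1 ↔ ‖z‖ < 1 := fun z => by
    rw [← hψlt (ψ.symm z), ψ.apply_symm_apply]
  have eeq : ∀ z, ‖ψ.symm z‖ = 1 ↔ ‖z‖ = 1 := fun z => by
    rw [← hψeq (ψ.symm z), ψ.apply_symm_apply]
  have ene : ∀ z, ψ.symm z = 0 ↔ z = 0 := fun z => by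
    constructor
    · intro hz
      rw [← ψ.apply_symm_apply z, hz, hψ0]
    · rintro rfl; exact e0
  have ele : ∀ z, ‖ψ.symm z‖ ≤ 1 ↔ ‖z‖ ≤ 1 := fun z => by
    rw [le_iff_lt_or_eq, le_iff_lt_or_eq, elt, eeq]
  have hS : ψ.symm '' sphere 0 1 = sphere (0 : ℂ) 1 := by
    ext z
    constructor
    · rintro ⟨w, hw, rfl⟩
      rw [mem_sphere_zero_iff_norm] at hw ⊢
      exact (eeq w).2 hw
    · intro hz
      refine ⟨ψ z, ?_, ψ.symm_apply_apply z⟩
      rw [mem_sphere_zero_iff_norm] at hz ⊢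
      exact (hψeq z).2 hz
  have hBl : ψ.symm '' (ball 0 1 \ {0}) = ball (0 : ℂ) 1 \ {0} := by
    ext z
    constructor
    · rintro ⟨w, ⟨hw, hw0⟩, rfl⟩
      rw [mem_ball_zero_iff] at hw
      refine ⟨mem_ball_zero_iff.2 ((elt w).2 hw), fun h0 => hw0 ?_⟩
      exact (ene w).1 h0
    · rintro ⟨hz, hz0⟩
      rw [mem_ball_zero_iff] at hz
      refine ⟨ψ z, ⟨mem_ball_zero_iff.2 ((hψlt z).2 hz), fun h0 => hz0 ?_⟩, ψ.symm_apply_apply z⟩
      have h0' : ψ z = 0 := h0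
      have := (ene (ψ z)).2 h0'
      rwa [ψ.symm_apply_apply] at this
  have key : EqOn (fun z => h (φ₀ (ψ.symm z))) φ' (ball 0 1 \ {0}) := by
    rintro z ⟨hz, hz0⟩
    have hz1 := mem_ball_zero_iff.1 hz
    show h (φ₀ (ψ.symm z)) = φ' z
    rw [hφ' (ψ.symm z) (mem_ball_zero_iff.2 ((elt z).2 hz1)) (fun h0 => hz0 ((ene z).1 h0)),
      ψ.apply_symm_apply]
  have maps : MapsTo ψ.symm (closedBall 0 1 \ {0}) (closedBall 0 1 \ {0}) := by
    rintro z ⟨hz, hz0⟩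
    rw [mem_closedBall_zero_iff] at hz
    exact ⟨mem_closedBall_zero_iff.2 ((ele z).2 hz), fun h0 => hz0 ((ene z).1 h0)⟩
  have keyhat : ∀ z ∈ ball (0 : ℂ) 1, hat (fun z => h (φ₀ (ψ.symm z))) z = hat φ' z := by
    intro z hz
    by_cases hz0 : z = 0
    · subst hz0; rw [F3.hat_zero, F3.hat_zero]
    · rw [F3.hat_ne _ hz0, F3.hat_ne _ hz0]
      exact congrArg _ (key ⟨hz, hz0⟩)
  have im1 : ∀ s : Set ℂ, (fun z => h (φ₀ (ψ.symm z))) '' s = h '' (φ₀ '' (ψ.symm '' s)) := by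
    intro s
    rw [image_image, image_image]
  have im2 : ∀ s : Set ℂ, (fun z => h (χ z)) '' s = h '' (χ '' s) := by
    intro s
    rw [image_image]
  refine
  { unif := ⟨hU.diff.congr key, ?_, ?_⟩
    φcont := ?_
    φinj := ?_
    χdiff := hχd
    χcont := h.continuous.comp_continuousOn hM.χcont
    χinj := fun x hx y hy hxy => hM.χinj hx hy (h.injective hxy)
    bdry := ?_
    disj := ?_
    cover := ?_
    one := ?_
    semiφ := fun z hz => ?_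
    semiχ := hχs
    qcircle := ?_ }
  · exact hU.inj.congr key.symm
  · refine hU.norm.congr' ?_
    have h1 : ball (0 : ℂ) 1 \ {0} ∈ 𝓝[≠] (0 : ℂ) :=
      sdiff_mem_nhdsWithin_compl (ball_mem_nhds 0 one_pos) {0}
    filter_upwards [h1] with z hz
    rw [← key hz]
  · exact h.continuous.comp_continuousOn (hM.φcont.comp ψ.symm.continuous.continuousOn maps)
  · intro x hx y hy hxy
    exact ψ.symm.injective (hM.φinj (maps hx) (maps hy) (h.injective hxy))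
  · rw [im1, im2, hS, hM.bdry]
  · rw [im1, im2, hBl]
    exact (disjoint_image_iff h.injective).2 hM.disj
  · rw [im1, im2, hBl, ← image_union, hM.cover, image_univ, h.surjective.range_eq]
  · show h (φ₀ (ψ.symm 1)) = h (χ 1)
    rw [e1, hM.one]
  · rw [keyhat z hz, keyhat _ (hbl z hz)]
    exact hsemi z hz
  · obtain ⟨H, M, h1, h2⟩ := hM.qcircle
    obtain ⟨M', h3⟩ := hW H M h1
    refine ⟨H.trans h, M', h3, ?_⟩
    rw [im1, hS, ← h2]
    show (fun z => h (H z)) '' sphere 0 1 = _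
    rw [image_image]

end LM

end Pool.Agent.BlMat
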