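import Mathlib

set_option autoImplicit false

/-! A closed relation between compact spaces induces homeomorphisms of quotients of
compatible subspaces. -/

namespace Pool.Agent.BlMat

open Set Filter Topology

section
variable {X Y P Q : Type*} [TopologicalSpace X] [TopologicalSpace Y] [TopologicalSpace P]
  [TopologicalSpace Q]

/-- One direction: a continuous map of quotients. -/
theorem quotMap_aux [CompactSpace Y] (S : Set (X × Y)) (hS : IsClosed S) (i : P → X) (j : Q → Y)
    (hi : Continuous i) (hj : IsInducing j)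
    (hPQ : ∀ x y, (i x, y) ∈ S → ∃ q, j q = y)
    (full : ∀ x : P, ∃ y, (i x, y) ∈ S)
    (rP : P → P → Prop) (rQ : Q → Q → Prop)
    (compat : ∀ (x x' : P) (y y' : Q), (i x, j y) ∈ S → (i x', j y') ∈ S →
      rP x x' → rQ y y') (eP : ∀ x, rP x x) :
    ∃ f : Quot rP → Quot rQ, Continuous f ∧
      ∀ (x : P) (y : Q), (i x, j y) ∈ S → f (Quot.mk _ x) = Quot.mk _ y := by
  classical
  have h1 : ∀ x : P, ∃ y : Q, (i x, j y) ∈ S := by
    intro x
    obtain ⟨y, hy⟩ := full x
    obtain ⟨q, rfl⟩ := hPQ x y hy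
    exact ⟨q, hy⟩
  choose g hg using h1
  let f : Quot rP → Quot rQ := Quot.lift (fun x => Quot.mk _ (g x)) (by
    intro x x' hxx
    exact Quot.sound (compat x x' _ _ (hg x) (hg x') hxx))
  have hf : ∀ (x : P) (y : Q), (i x, j y) ∈ S → f (Quot.mk _ x) = Quot.mk _ y := by
    intro x y hxy
    exact Quot.sound (compat x x _ _ (hg x) hxy (eP x))
  refine ⟨f, ?_, hf⟩
  rw [continuous_iff_isClosed]
  intro C hC
  have hC1 : IsClosed (Quot.mk rQ ⁻¹' C) := hC.preimage continuous_quot_mk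
  obtain ⟨C', hC', hCe⟩ := hj.isClosed_iff.mp hC1
  have hproj : IsClosed (Prod.fst '' (S ∩ Prod.snd ⁻¹' C')) :=
    isClosedMap_fst_of_compactSpace _ (hS.inter (hC'.preimage continuous_snd))
  have hq : IsQuotientMap (Quot.mk rP) := isQuotientMap_quot_mk
  rw [← hq.isClosed_preimage]
  have : Quot.mk rP ⁻¹' (f ⁻¹' C) = i ⁻¹' (Prod.fst '' (S ∩ Prod.snd ⁻¹' C')) := by
    ext x
    simp only [mem_preimage, mem_image, mem_inter_iff, Prod.exists, exists_and_right,
      exists_eq_right]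
    constructor
    · intro hx
      refine ⟨j (g x), hg x, ?_⟩
      have : g x ∈ Quot.mk rQ ⁻¹' C := by
        rw [mem_preimage, ← hf x (g x) (hg x)]; exact hx
      rw [← hCe] at this
      exact this
    · rintro ⟨y, hxy, hy⟩
      obtain ⟨q, rfl⟩ := hPQ _ _ hxy
      have : q ∈ Quot.mk rQ ⁻¹' C := by
        rw [← hCe]; exact hy
      rw [mem_preimage] at this
      rw [hf x q hxy]
      exact this
  rw [this]
  exact hproj.preimage hi

theorem quotRel2 [CompactSpace X] [CompactSpace Y] (S : Set (X × Y)) (hS : IsClosed S)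
    (i : P → X) (j : Q → Y) (hi : IsInducing i) (hj : IsInducing j)
    (hPQ : ∀ x y, (i x, y) ∈ S → ∃ q, j q = y) (hQP : ∀ x y, (x, j y) ∈ S → ∃ p, i p = x)
    (full1 : ∀ x : P, ∃ y, (i x, y) ∈ S) (full2 : ∀ y : Q, ∃ x, (x, j y) ∈ S)
    (rP : P → P → Prop) (rQ : Q → Q → Prop) (eP : ∀ x, rP x x) (eQ : ∀ y, rQ y y)
    (compat : ∀ (x x' : P) (y y' : Q), (i x, j y) ∈ S → (i x', j y') ∈ S →
      (rP x x' ↔ rQ y y')) :
    ∃ Φ : Quot rP ≃ₜ Quot rQ, ∀ (x : P) (y : Q), (i x, j y) ∈ S →
      Φ (Quot.mk _ x) = Quot.mk _ y := by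
  obtain ⟨f, hfc, hf⟩ := quotMap_aux S hS i j hi.continuous hj hPQ full1 rP rQ
    (fun x x' y y' h h' => (compat x x' y y' h h').1) eP
  have hS' : IsClosed (Prod.swap ⁻¹' S : Set (Y × X)) := hS.preimage continuous_swap
  obtain ⟨g, hgc, hg⟩ := quotMap_aux (Prod.swap ⁻¹' S : Set (Y × X)) hS' j i hj.continuous hi
    (fun y x h => hQP x y h) full2 rQ rP
    (fun y y' x x' h h' => (compat x x' y y' h h').2) eQ
  refine ⟨⟨⟨f, g, ?_, ?_⟩, hfc, hgc⟩, hf⟩
  · intro q
    induction q using Quot.ind with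
    | mk x =>
      obtain ⟨y, hy⟩ := full1 x
      obtain ⟨q, rfl⟩ := hPQ _ _ hy
      rw [hf x q hy]
      exact hg q x hy
  · intro q
    induction q using Quot.ind with
    | mk y =>
      obtain ⟨x, hx⟩ := full2 y
      obtain ⟨p, rfl⟩ := hQP _ _ hx
      rw [hg y p hx]
      exact hf p y hx

/-- The quotient by equality. -/
def quotEq (P : Type*) [TopologicalSpace P] : P ≃ₜ Quot (Eq : P → P → Prop) where
  toFun := Quot.mk _
  invFun := Quot.lift id (fun _ _ h => h)
  left_inv := fun _ => rfl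
  right_inv := fun q => by induction q using Quot.ind with | mk x => rfl
  continuous_toFun := continuous_quot_mk
  continuous_invFun := continuous_quot_lift _ continuous_id

end

end Pool.Agent.BlMat
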