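import Pool.Agent.BlMat.FinalDefs
import Pool.Agent.BlMat.GlueDefs
import Pool.Agent.BlMat.Quot2

set_option autoImplicit false

/-! The local homeomorphism statement from the limit theorem, the gluing lemma and compactness. -/

namespace Pool.Agent.BlMat

open Complex Metric Set Filter Topology

namespace Loc

variable {m : ℕ}

theorem ext_coe (H : ℂ ≃ₜ ℂ) (x : ℂ) : ext H (x : OnePoint ℂ) = (H x : OnePoint ℂ) := rfl

theorem ext_infty (H : ℂ ≃ₜ ℂ) : ext H OnePoint.infty = OnePoint.infty := rfl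

theorem ext_trans (H K : ℂ ≃ₜ ℂ) (x : OnePoint ℂ) : ext (H.trans K) x = ext K (ext H x) := by
  induction x using OnePoint.rec <;> rfl

theorem ext_symm_ext (H : ℂ ≃ₜ ℂ) (x : OnePoint ℂ) : ext H.symm (ext H x) = x := by
  induction x using OnePoint.rec with
  | infty => rfl
  | coe x => simp [ext_coe]

theorem ext_ext_symm (H : ℂ ≃ₜ ℂ) (x : OnePoint ℂ) : ext H (ext H.symm x) = x := by
  induction x using OnePoint.rec with
  | infty => rfl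
  | coe x => simp [ext_coe]

theorem ext_injective (H : ℂ ≃ₜ ℂ) : Function.Injective (ext H) :=
  Function.LeftInverse.injective (ext_symm_ext H)

theorem hat_ne {φ : ℂ → ℂ} {z : ℂ} (hz : z ≠ 0) : hat φ z = (φ z : OnePoint ℂ) := by
  simp [hat, hz]

theorem hat_zero {φ : ℂ → ℂ} : hat φ 0 = OnePoint.infty := by
  simp [hat]

/-- points off the basin are finite -/
theorem exists_coe {φ : ℂ → ℂ} {x : OnePoint ℂ} (hx : x ∉ hat φ '' ball 0 1) :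
    ∃ u : ℂ, x = (u : OnePoint ℂ) := by
  induction x using OnePoint.rec with
  | infty => exact absurd ⟨0, by simp, hat_zero⟩ hx
  | coe x => exact ⟨x, rfl⟩

theorem hat_congr {φ φ' : ℂ → ℂ} (h : EqOn φ φ' (ball 0 1 \ {0})) {z : ℂ}
    (hz : z ∈ ball (0 : ℂ) 1) : hat φ z = hat φ' z := by
  by_cases h0 : z = 0
  · subst h0; rw [hat_zero, hat_zero]
  · rw [hat_ne h0, hat_ne h0, h ⟨hz, h0⟩]

/-- The output of `Stmt_Limit` for one pair. -/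
structure Pair (a a' : Fin m → ℂ) (f f' : OnePoint ℂ → OnePoint ℂ) (ψ : ℂ ≃ₜ ℂ)
    (φ φ' : ℂ → ℂ) (h : ℂ ≃ₜ ℂ) : Prop where
  c : Cls a f φ
  c' : Cls a' f' φ'
  w : ∃ M, WQS M h
  w' : ∃ M, WQS M h.symm
  e : ∀ z ∈ ball (0 : ℂ) 1, z ≠ 0 → h (φ z) = φ' (ψ z)
  k : ∀ x : ℂ, (x : OnePoint ℂ) ∉ hat φ '' ball 0 1 → f' (h x) = ext h (f x)

/-- A conjugacy of basins extended to a conjugacy everywhere. -/
theorem conj_all {a : Fin m → ℂ} (hb : BlFacts a) {f g : OnePoint ℂ → OnePoint ℂ} {φ γ : ℂ → ℂ}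
    (cf : Cls a f φ) (cg : Cls a g γ) {H : ℂ ≃ₜ ℂ}
    (hH : ∀ z ∈ ball (0 : ℂ) 1, ext H (hat φ z) = hat γ z)
    (hk : ∀ x : ℂ, (x : OnePoint ℂ) ∉ hat φ '' ball 0 1 → g (H x) = ext H (f x)) :
    ∀ x, ext H (f x) = g (ext H x) := by
  intro x
  by_cases hx : x ∈ hat φ '' ball 0 1
  · obtain ⟨z, hz, rfl⟩ := hx
    have hz1 : bl a z ∈ ball (0 : ℂ) 1 := by
      rw [mem_ball_zero_iff] at hz ⊢
      exact hb.ball z hz
    rw [cf.semi z hz, hH _ hz1, hH z hz, cg.semi z hz]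
  · obtain ⟨u, rfl⟩ := exists_coe hx
    rw [ext_coe, hk u hx]

variable {a a' : Fin m → ℂ} {ψ : ℂ ≃ₜ ℂ}

theorem psi_zero_ne (h0 : ψ 0 = 0) {z : ℂ} (hz : z ≠ 0) : ψ z ≠ 0 := by
  intro h
  exact hz (ψ.injective (h.trans h0.symm))

theorem Pair.ext_hat {f f' : OnePoint ℂ → OnePoint ℂ} {φ φ' : ℂ → ℂ} {h : ℂ ≃ₜ ℂ}
    (p : Pair a a' f f' ψ φ φ' h) (h0 : ψ 0 = 0) {z : ℂ} (hz : z ∈ ball (0 : ℂ) 1) :
    ext h (hat φ z) = hat φ' (ψ z) := by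
  by_cases hz0 : z = 0
  · subst hz0; rw [h0, hat_zero, hat_zero, ext_infty]
  · rw [hat_ne hz0, hat_ne (psi_zero_ne h0 hz0), ext_coe, p.e z hz hz0]

theorem Pair.mem_iff {f f' : OnePoint ℂ → OnePoint ℂ} {φ φ' : ℂ → ℂ} {h : ℂ ≃ₜ ℂ}
    (p : Pair a a' f f' ψ φ φ' h) (h0 : ψ 0 = 0) (h1 : ∀ z, ‖ψ z‖ < 1 ↔ ‖z‖ < 1)
    (x : OnePoint ℂ) : ext h x ∈ hat φ' '' ball 0 1 ↔ x ∈ hat φ '' ball 0 1 := by
  constructor
  · rintro ⟨ζ, hζ, he⟩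
    have hz : ψ.symm ζ ∈ ball (0 : ℂ) 1 := by
      rw [mem_ball_zero_iff] at hζ ⊢
      rw [← h1]; simpa using hζ
    refine ⟨ψ.symm ζ, hz, ?_⟩
    apply ext_injective h
    rw [p.ext_hat h0 hz, ← he]
    simp
  · rintro ⟨z, hz, rfl⟩
    refine ⟨ψ z, ?_, (p.ext_hat h0 hz).symm⟩
    rw [mem_ball_zero_iff] at hz ⊢
    exact (h1 z).mpr hz

theorem Cls.not_mem {f : OnePoint ℂ → OnePoint ℂ} {φ : ℂ → ℂ} (c : Cls a f φ) {x : OnePoint ℂ}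
    (hx : x ∉ hat φ '' ball 0 1) : f x ∉ hat φ '' ball 0 1 := fun h => hx (c.back x h)

theorem ext_refl (y : OnePoint ℂ) : ext (Homeomorph.refl ℂ) y = y := by
  induction y using OnePoint.rec <;> rfl

theorem qcConj_refl {f : OnePoint ℂ → OnePoint ℂ} {φ : ℂ → ℂ} (c : Cls a f φ) :
    QCConj a f f := by
  refine ⟨φ, φ, Homeomorph.refl ℂ, Homeomorph.refl ℂ, 1, c, c, ?_, ?_, ?_, ?_, ?_⟩
  · intro x y z h; simpa using h
  · intro x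
    rw [ext_refl, ext_refl]
  · intro z; rfl
  · intro z _; rfl
  · intro z _
    rw [ext_refl]; rfl

/-- What the gluing lemma gives for a marked conjugacy. -/
theorem glue_out (hG : Stmt_Glue) (hC : Stmt_Cls) (hm : 1 ≤ m) (ha : a ∈ Par m)
    {f g : OnePoint ℂ → OnePoint ℂ} {φ γ : ℂ → ℂ} (hf : Continuous f) (hg : Continuous g)
    (cf : Cls a f φ) (cg : Cls a g γ) (hq : QCConj a f g) :
    ∃ (H H' : ℂ ≃ₜ ℂ) (M' : ℝ), WQS M' H' ∧ (∀ x, ext H (f x) = g (ext H x)) ∧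
      (∀ z ∈ ball (0 : ℂ) 1, ext H' (hat φ z) = hat γ z) ∧
      (∀ x : ℂ, (x : OnePoint ℂ) ∉ hat φ '' ball 0 1 → H' x = H x) ∧
      ∀ x : ℂ, (x : OnePoint ℂ) ∉ hat φ '' ball 0 1 →
        (H x : OnePoint ℂ) ∉ hat γ '' ball 0 1 := by
  obtain ⟨φ₁, γ₁, H, η, M, c1, c2, hM, hconj, h1, h2, h3⟩ := hq
  obtain ⟨H', M', hM', h4, h5⟩ := hG m hm a ha f g φ₁ γ₁ hf hg c1 c2 H η M hM hconj h1 h2 h3
  have e1 : EqOn φ φ₁ (ball 0 1 \ {0}) := (hC m hm a ha).2 f φ φ₁ cf c1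
  have e2 : EqOn γ γ₁ (ball 0 1 \ {0}) := (hC m hm a ha).2 g γ γ₁ cg c2
  have im : hat φ '' ball 0 1 = hat φ₁ '' ball 0 1 :=
    image_congr (fun z hz => hat_congr e1 hz)
  have h6 : ∀ z ∈ ball (0 : ℂ) 1, ext H' (hat φ z) = hat γ z := by
    intro z hz
    by_cases h0 : z = 0
    · subst h0; rw [hat_zero, hat_zero, ext_infty]
    · rw [hat_congr e1 hz, hat_congr e2 hz, hat_ne h0, hat_ne h0, ext_coe, h4 z hz h0]
  have h7 : ∀ x : ℂ, (x : OnePoint ℂ) ∉ hat φ '' ball 0 1 → H' x = H x := by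
    intro x hx; rw [im] at hx; exact h5 x hx
  refine ⟨H, H', M', hM', hconj, h6, h7, ?_⟩
  intro x hx hmem
  obtain ⟨z, hz, he⟩ := hmem
  apply hx
  refine ⟨z, hz, ?_⟩
  apply ext_injective H'
  rw [h6 z hz, he, ext_coe, h7 x hx]

theorem forward (hG : Stmt_Glue) (hC : Stmt_Cls) (hQ : Stmt_QSGroup) (hB : Stmt_Bl) (hm : 1 ≤ m)
    (ha : a ∈ Par m) (ha' : a' ∈ Par m) (h0 : ψ 0 = 0) (h1 : ∀ z, ‖ψ z‖ < 1 ↔ ‖z‖ < 1)
    {f f' g g' : OnePoint ℂ → OnePoint ℂ} {φ φ' γ γ' : ℂ → ℂ} {h h₂ : ℂ ≃ₜ ℂ}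
    (p : Pair a a' f f' ψ φ φ' h) (q : Pair a a' g g' ψ γ γ' h₂)
    (hf : Continuous f) (hg : Continuous g) (hq : QCConj a f g) : QCConj a' f' g' := by
  obtain ⟨H, H', M', hM', hconj, h6, h7, h8⟩ := glue_out hG hC hm ha hf hg p.c q.c hq
  obtain ⟨M1, hM1⟩ := p.w'
  obtain ⟨M2, hM2⟩ := q.w
  let K : ℂ ≃ₜ ℂ := h.symm.trans (H'.trans h₂)
  have hK : ∃ M, WQS M K := by
    obtain ⟨N1, hN1⟩ := hQ.2 (max M' M2)
    have mono : ∀ {A B : ℝ} {u : ℂ ≃ₜ ℂ}, A ≤ B → WQS A u → WQS B u := by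
      intro A B u hAB hu x y z hxy
      exact (hu x y z hxy).trans (mul_le_mul_of_nonneg_right hAB (norm_nonneg _))
    have hN := hN1 H' h₂ (mono (le_max_left _ _) hM') (mono (le_max_right _ _) hM2)
    obtain ⟨N2, hN2⟩ := hQ.2 (max M1 N1)
    exact ⟨N2, hN2 h.symm (H'.trans h₂) (mono (le_max_left _ _) hM1)
      (mono (le_max_right _ _) hN)⟩
  obtain ⟨N, hN⟩ := hK
  have hKx : ∀ x, ext K x = ext h₂ (ext H' (ext h.symm x)) := by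
    intro x
    rw [ext_trans, ext_trans]
  have hbasin : ∀ z ∈ ball (0 : ℂ) 1, ext K (hat φ' z) = hat γ' z := by
    intro z hz
    have hz' : ψ.symm z ∈ ball (0 : ℂ) 1 := by
      rw [mem_ball_zero_iff] at hz ⊢
      rw [← h1]; simpa using hz
    have e1 : hat φ' z = ext h (hat φ (ψ.symm z)) := by
      rw [p.ext_hat h0 hz']; simp
    rw [hKx, e1, ext_symm_ext, h6 _ hz', q.ext_hat h0 hz']; simp
  refine ⟨φ', γ', K, Homeomorph.refl ℂ, N, p.c', q.c', hN, ?_, fun z => Iff.rfl,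
    fun z _ => rfl, hbasin⟩
  apply conj_all (hB m hm a' ha') p.c' q.c' hbasin
  intro x hx
  set x₀ : ℂ := h.symm x with hx₀
  have hxx : h x₀ = x := by simp [hx₀]
  have hx₀n : (x₀ : OnePoint ℂ) ∉ hat φ '' ball 0 1 := by
    rw [← p.mem_iff h0 h1, ext_coe, hxx]; exact hx
  obtain ⟨u, hu⟩ := exists_coe (Cls.not_mem p.c hx₀n)
  have hun : (u : OnePoint ℂ) ∉ hat φ '' ball 0 1 := by
    rw [← hu]; exact Cls.not_mem p.c hx₀n
  have hKxx : K x = h₂ (H x₀) := by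
    show h₂ (H' (h.symm x)) = _
    rw [← hx₀, h7 x₀ hx₀n]
  rw [hKxx, q.k (H x₀) (h8 x₀ hx₀n)]
  have e2 : f' x = ext h (f x₀) := by rw [← p.k x₀ hx₀n, hxx]
  rw [e2, hKx, ext_symm_ext, hu, ext_coe, h7 u hun]
  have e3 : ((H u : ℂ) : OnePoint ℂ) = g (H x₀ : OnePoint ℂ) := by
    rw [← ext_coe, ← hu, hconj, ext_coe]
  rw [e3]

theorem backward (hG : Stmt_Glue) (hC : Stmt_Cls) (hQ : Stmt_QSGroup) (hB : Stmt_Bl) (hm : 1 ≤ m)
    (ha : a ∈ Par m) (ha' : a' ∈ Par m) (h0 : ψ 0 = 0) (h1 : ∀ z, ‖ψ z‖ < 1 ↔ ‖z‖ < 1)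
    {f f' g g' : OnePoint ℂ → OnePoint ℂ} {φ φ' γ γ' : ℂ → ℂ} {h h₂ : ℂ ≃ₜ ℂ}
    (p : Pair a a' f f' ψ φ φ' h) (q : Pair a a' g g' ψ γ γ' h₂)
    (hf : Continuous f') (hg : Continuous g') (hq : QCConj a' f' g') : QCConj a f g := by
  obtain ⟨H, H', M', hM', hconj, h6, h7, h8⟩ := glue_out hG hC hm ha' hf hg p.c' q.c' hq
  obtain ⟨M1, hM1⟩ := p.w
  obtain ⟨M2, hM2⟩ := q.w'
  let K : ℂ ≃ₜ ℂ := h.trans (H'.trans h₂.symm)
  have hK : ∃ M, WQS M K := by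
    obtain ⟨N1, hN1⟩ := hQ.2 (max M' M2)
    have mono : ∀ {A B : ℝ} {u : ℂ ≃ₜ ℂ}, A ≤ B → WQS A u → WQS B u := by
      intro A B u hAB hu x y z hxy
      exact (hu x y z hxy).trans (mul_le_mul_of_nonneg_right hAB (norm_nonneg _))
    have hN := hN1 H' h₂.symm (mono (le_max_left _ _) hM') (mono (le_max_right _ _) hM2)
    obtain ⟨N2, hN2⟩ := hQ.2 (max M1 N1)
    exact ⟨N2, hN2 h (H'.trans h₂.symm) (mono (le_max_left _ _) hM1)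
      (mono (le_max_right _ _) hN)⟩
  obtain ⟨N, hN⟩ := hK
  have hKx : ∀ x, ext K x = ext h₂.symm (ext H' (ext h x)) := by
    intro x
    rw [ext_trans, ext_trans]
  have hbasin : ∀ z ∈ ball (0 : ℂ) 1, ext K (hat φ z) = hat γ z := by
    intro z hz
    have hz' : ψ z ∈ ball (0 : ℂ) 1 := by
      rw [mem_ball_zero_iff] at hz ⊢
      exact (h1 z).mpr hz
    rw [hKx, p.ext_hat h0 hz, h6 _ hz', ← q.ext_hat h0 hz, ext_symm_ext]
  refine ⟨φ, γ, K, Homeomorph.refl ℂ, N, p.c, q.c, hN, ?_, fun z => Iff.rfl,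
    fun z _ => rfl, hbasin⟩
  apply conj_all (hB m hm a ha) p.c q.c hbasin
  intro x hx
  have hhx : (h x : OnePoint ℂ) ∉ hat φ' '' ball 0 1 := by
    rw [← ext_coe, p.mem_iff h0 h1]; exact hx
  set u : ℂ := K x with hu
  have hu1 : h₂ u = H (h x) := by
    show h₂ (h₂.symm (H' (h x))) = _
    rw [Homeomorph.apply_symm_apply, h7 _ hhx]
  have hun : (u : OnePoint ℂ) ∉ hat γ '' ball 0 1 := by
    rw [← q.mem_iff h0 h1, ext_coe, hu1]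
    exact h8 _ hhx
  apply ext_injective h₂
  rw [← q.k u hun, hu1, ← ext_coe, ← hconj, p.k x hx, hKx, ext_ext_symm]
  have hfx : f x ∉ hat φ '' ball 0 1 := Cls.not_mem p.c hx
  have hfx' : ext h (f x) ∉ hat φ' '' ball 0 1 := by
    rw [p.mem_iff h0 h1]; exact hfx
  obtain ⟨v, hv⟩ := exists_coe hfx'
  rw [hv] at hfx' ⊢
  rw [ext_coe, ext_coe, h7 v hfx']

end Loc

end Pool.Agent.BlMat
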