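import Pool.Agent.BlMat.Local

set_option autoImplicit false

/-! From a model conjugacy to the homeomorphism of the quotients. -/

namespace Pool.Agent.BlMat

open Complex Metric Set Filter Topology

namespace Loc

variable {m : ℕ}

/-- Pairs of matings with the same inner Blaschke product. -/
def graphSet (a a' : Fin m → ℂ) : Set (RatMap (m + 1) × RatMap (m + 1)) :=
  {q | ∃ b ∈ Par m, Mate a b q.1.fn ∧ Mate a' b q.2.fn}

/-- The relation between the closures of two slices. -/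
def SRel (a a' : Fin m → ℂ) : Set (SliceCl a × SliceCl a') :=
  {p | (p.1.1, p.2.1) ∈ closure (graphSet a a')}

theorem isClosed_SRel (a a' : Fin m → ℂ) : IsClosed (SRel a a') := by
  have : Continuous (fun p : SliceCl a × SliceCl a' => (p.1.1, p.2.1)) := by fun_prop
  exact isClosed_closure.preimage this

theorem metr (hT : Stmt_SphereTop) (n : ℕ) : TopologicalSpace.MetrizableSpace (RatMap n) := by
  have := hT.2.1
  exact (Topology.IsEmbedding.subtypeVal :
    Topology.IsEmbedding (Subtype.val : RatMap n → C(OnePoint ℂ, OnePoint ℂ))).metrizableSpace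

/-- an element of `RatMap` from a rational function -/
theorem exists_ratMap {n : ℕ} {f : OnePoint ℂ → OnePoint ℂ} (hf : IsRat n f) :
    ∃ g : RatMap n, g.fn = f := ⟨⟨⟨f, hf.1⟩, hf⟩, rfl⟩

theorem fn_continuous {n : ℕ} (f : RatMap n) : Continuous f.fn := f.1.continuous

theorem fn_injective {n : ℕ} {f g : RatMap n} (h : f.fn = g.fn) : f = g := by
  apply Subtype.ext
  apply ContinuousMap.ext
  intro x
  exact congrFun h x

theorem SRel_full (hT : Stmt_SphereTop) (hE : Stmt_MateEU) (hS : Stmt_SliceCl) (hm : 1 ≤ m)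
    {a a' : Fin m → ℂ} (ha' : a' ∈ Par m) (x : SliceCl a) :
    ∃ y : SliceCl a', (x, y) ∈ SRel a a' := by
  have := metr hT (m + 1)
  obtain ⟨xs, hxs, hlim⟩ := mem_closure_iff_seq_limit.mp x.2
  choose bs hbs hM using hxs
  have h1 : ∀ i, ∃ g : RatMap (m + 1), Mate a' (bs i) g.fn := by
    intro i
    obtain ⟨⟨f, φ, χ, hf, hd⟩, -⟩ := hE m hm a' ha' (bs i) (hbs i)
    obtain ⟨g, rfl⟩ := exists_ratMap hf
    exact ⟨g, hf, φ, χ, hd⟩
  choose ys hys using h1
  have h2 : ∀ i, ys i ∈ SliceCl a' := fun i => subset_closure ⟨bs i, hbs i, hys i⟩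
  obtain ⟨y, hy, s, hs, hys'⟩ := ((hS m hm a' ha').1).isSeqCompact h2
  refine ⟨⟨y, hy⟩, ?_⟩
  show (x.1, y) ∈ closure (graphSet a a')
  refine mem_closure_of_tendsto ((hlim.comp hs.tendsto_atTop).prodMk_nhds hys') ?_
  exact Eventually.of_forall (fun i => ⟨bs (s i), hbs _, hM _, hys _⟩)

theorem SRel_swap {a a' : Fin m → ℂ} {x : SliceCl a} {y : SliceCl a'}
    (h : (y, x) ∈ SRel a' a) : (x, y) ∈ SRel a a' := by
  have h' : (y.1, x.1) ∈ closure (graphSet a' a) := h
  have : Prod.swap (y.1, x.1) ∈ closure (Prod.swap '' graphSet a' a) :=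
    mem_closure_image continuous_swap.continuousAt h'
  have e : Prod.swap '' graphSet a' a ⊆ graphSet a a' := by
    rintro _ ⟨q, ⟨b, hb, h1, h2⟩, rfl⟩
    exact ⟨b, hb, h2, h1⟩
  exact closure_mono e this

theorem SRel_pair (hT : Stmt_SphereTop) (hL : Stmt_Limit) (hm : 1 ≤ m) {a a' : Fin m → ℂ}
    (ha : a ∈ Par m) (ha' : a' ∈ Par m) {k r : ℝ} {g : ℂ → ℂ} {ψ : ℂ ≃ₜ ℂ} {ψs : ℕ → ℂ ≃ₜ ℂ}
    (hmod : Model a a' k r g ψ ψs) {x : SliceCl a} {y : SliceCl a'} (h : (x, y) ∈ SRel a a') :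
    (∃ φ φ' h, Pair a a' x.1.fn y.1.fn ψ φ φ' h) ∧
      ∀ b ∈ Par m, Mate a b x.1.fn ↔ Mate a' b y.1.fn := by
  have := metr hT (m + 1)
  have h' : (x.1, y.1) ∈ closure (graphSet a a') := h
  obtain ⟨qs, hqs, hlim⟩ := mem_closure_iff_seq_limit.mp h'
  choose bs hbs hM1 hM2 using hqs
  have l1 : Tendsto (fun i => (qs i).1) atTop (𝓝 x.1) := (Continuous.tendsto continuous_fst _).comp hlim
  have l2 : Tendsto (fun i => (qs i).2) atTop (𝓝 y.1) := (Continuous.tendsto continuous_snd _).comp hlim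
  obtain ⟨φ, φ', h, M, R, c, c', hN, e, kk, tr⟩ := hL m hm a ha a' ha' k r g ψ ψs hmod
    (fun i => (qs i).1) (fun i => (qs i).2) bs x.1 y.1 hbs hM1 hM2 l1 l2
  exact ⟨⟨φ, φ', h, c, c', ⟨M, hN.wqs⟩, ⟨M, hN.wqs'⟩, e, kk⟩, tr⟩

theorem mate_unique (hE : Stmt_MateEU) (hm : 1 ≤ m) {a b : Fin m → ℂ} (ha : a ∈ Par m)
    (hb : b ∈ Par m) {f g : RatMap (m + 1)} (hf : Mate a b f.fn) (hg : Mate a b g.fn) : f = g := by
  obtain ⟨h1, φ, χ, h2⟩ := hf
  obtain ⟨h3, φ', χ', h4⟩ := hg
  exact fn_injective ((hE m hm a ha b hb).2 _ _ φ χ φ' χ' h1 h3 h2 h4).1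

/-- Everything at once for a pair of parameters related by a model conjugacy. -/
theorem homeoStmt_of_model (hT : Stmt_SphereTop) (hL : Stmt_Limit) (hG : Stmt_Glue)
    (hC : Stmt_Cls) (hQ : Stmt_QSGroup) (hB : Stmt_Bl) (hE : Stmt_MateEU) (hS : Stmt_SliceCl)
    (hm : 1 ≤ m) {a a' : Fin m → ℂ}
    (ha : a ∈ Par m) (ha' : a' ∈ Par m) {k r : ℝ} {g : ℂ → ℂ} {ψ : ℂ ≃ₜ ℂ} {ψs : ℕ → ℂ ≃ₜ ℂ}
    (hmod : Model a a' k r g ψ ψs) : HomeoStmt a a' := by
  have h0 : ψ 0 = 0 := hmod.near_zero 0 (by simpa using hmod.r_pos.le)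
  have h1 := hmod.norm_lt
  have : CompactSpace (SliceCl a) := isCompact_iff_compactSpace.mp (hS m hm a ha).1
  have : CompactSpace (SliceCl a') := isCompact_iff_compactSpace.mp (hS m hm a' ha').1
  have hcl := isClosed_SRel a a'
  have full1 : ∀ x : SliceCl a, ∃ y, (x, y) ∈ SRel a a' := fun x =>
    SRel_full hT hE hS hm ha' x
  have full2 : ∀ y : SliceCl a', ∃ x, (x, y) ∈ SRel a a' := fun y => by
    obtain ⟨x, hx⟩ := SRel_full hT hE hS hm ha y
    exact ⟨x, SRel_swap hx⟩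
  have pr := fun (x : SliceCl a) (y : SliceCl a') (h : (x, y) ∈ SRel a a') =>
    SRel_pair hT hL hm ha ha' hmod h
  have tr : ∀ (x : SliceCl a) (y : SliceCl a'), (x, y) ∈ SRel a a' →
      (x.1 ∈ Slice a ↔ y.1 ∈ Slice a') := by
    intro x y h
    constructor
    · rintro ⟨b, hb, hM⟩
      exact ⟨b, hb, ((pr x y h).2 b hb).1 hM⟩
    · rintro ⟨b, hb, hM⟩
      exact ⟨b, hb, ((pr x y h).2 b hb).2 hM⟩
  -- conjugacies on both sides
  have cq : ∀ (x x' : SliceCl a) (y y' : SliceCl a'), (x, y) ∈ SRel a a' → (x', y') ∈ SRel a a' →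
      (QCConj a x.1.fn x'.1.fn ↔ QCConj a' y.1.fn y'.1.fn) := by
    intro x x' y y' h h'
    obtain ⟨φ, φ', u, p⟩ := (pr x y h).1
    obtain ⟨γ, γ', v, q⟩ := (pr x' y' h').1
    exact ⟨fun hh => forward hG hC hQ hB hm ha ha' h0 h1 p q (fn_continuous _) (fn_continuous _) hh,
      fun hh => backward hG hC hQ hB hm ha ha' h0 h1 p q (fn_continuous _) (fn_continuous _) hh⟩
  have rq : ∀ x : SliceCl a, QCConj a x.1.fn x.1.fn := by
    intro x
    obtain ⟨φ, hφ⟩ := (hS m hm a ha).2 x.1 x.2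
    exact qcConj_refl hφ
  have rq' : ∀ x : SliceCl a', QCConj a' x.1.fn x.1.fn := by
    intro x
    obtain ⟨φ, hφ⟩ := (hS m hm a' ha').2 x.1 x.2
    exact qcConj_refl hφ
  -- equality on the slices
  have eqS : ∀ (x x' : SliceCl a) (y y' : SliceCl a'), (x, y) ∈ SRel a a' →
      (x', y') ∈ SRel a a' → x.1 ∈ Slice a → (x = x' → y = y') := by
    intro x x' y y' h h' hx hxx
    subst hxx
    obtain ⟨b, hb, hM⟩ := hx
    have e1 := ((pr x y h).2 b hb).1 hM
    have e2 := ((pr x y' h').2 b hb).1 hM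
    exact Subtype.ext (mate_unique hE hm ha' hb e1 e2)
  have eqS' : ∀ (x x' : SliceCl a) (y y' : SliceCl a'), (x, y) ∈ SRel a a' →
      (x', y') ∈ SRel a a' → y.1 ∈ Slice a' → (y = y' → x = x') := by
    intro x x' y y' h h' hy hyy
    subst hyy
    obtain ⟨b, hb, hM⟩ := hy
    have e1 := ((pr x y h).2 b hb).2 hM
    have e2 := ((pr x' y h').2 b hb).2 hM
    exact Subtype.ext (mate_unique hE hm ha hb e1 e2)
  -- the homeomorphism of the quotients of the closures
  obtain ⟨Ψ, hΨ⟩ := quotRel2 (P := SliceCl a) (Q := SliceCl a') (SRel a a') hcl id id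
    IsInducing.id IsInducing.id (fun x y _ => ⟨y, rfl⟩) (fun x y _ => ⟨x, rfl⟩)
    full1 full2 (BdRel a) (BdRel a') (fun x => Or.inl rfl) (fun x => Or.inl rfl) (by
      intro x x' y y' h h'
      simp only [id] at h h'
      constructor
      · rintro (e | ⟨n1, n2, q⟩)
        · by_cases hx : x.1 ∈ Slice a
          · exact Or.inl (eqS x x' y y' h h' hx e)
          · refine Or.inr ⟨?_, ?_, ?_⟩
            · rw [← tr x y h]; exact hx
            · rw [← tr x' y' h', ← e]; exact hx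
            · apply (cq x x' y y' h h').1
              subst e; exact rq x
        · refine Or.inr ⟨?_, ?_, (cq x x' y y' h h').1 q⟩
          · rw [← tr x y h]; exact n1
          · rw [← tr x' y' h']; exact n2
      · rintro (e | ⟨n1, n2, q⟩)
        · by_cases hy : y.1 ∈ Slice a'
          · exact Or.inl (eqS' x x' y y' h h' hy e)
          · refine Or.inr ⟨?_, ?_, ?_⟩
            · rw [tr x y h]; exact hy
            · rw [tr x' y' h', ← e]; exact hy
            · apply (cq x x' y y' h h').2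
              subst e; exact rq' y
        · refine Or.inr ⟨?_, ?_, (cq x x' y y' h h').2 q⟩
          · rw [tr x y h]; exact n1
          · rw [tr x' y' h']; exact n2)
  -- the homeomorphism of the quotient boundaries
  let i : Bdry a → SliceCl a := fun x => ⟨x.1, x.2.1⟩
  let i' : Bdry a' → SliceCl a' := fun x => ⟨x.1, x.2.1⟩
  have hi : IsInducing i := by
    have : IsInducing ((Subtype.val : SliceCl a → RatMap (m + 1)) ∘ i) :=
      (IsInducing.subtypeVal : IsInducing (Subtype.val : Bdry a → RatMap (m + 1)))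
    exact (IsInducing.subtypeVal.of_comp_iff).mp this
  have hi' : IsInducing i' := by
    have : IsInducing ((Subtype.val : SliceCl a' → RatMap (m + 1)) ∘ i') :=
      (IsInducing.subtypeVal : IsInducing (Subtype.val : Bdry a' → RatMap (m + 1)))
    exact (IsInducing.subtypeVal.of_comp_iff).mp this
  obtain ⟨Φ, hΦ⟩ := quotRel2 (P := Bdry a) (Q := Bdry a') (SRel a a') hcl i i' hi hi'
    (fun x y h => ⟨⟨y.1, y.2, by rw [← tr _ y h]; exact x.2.2⟩, rfl⟩)
    (fun x y h => ⟨⟨x.1, x.2, by rw [tr x _ h]; exact y.2.2⟩, rfl⟩)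
    (fun x => full1 _) (fun y => full2 _) (BQC a) (BQC a') (fun x => rq (i x))
    (fun y => rq' (i' y)) (fun x x' y y' h h' => cq _ _ _ _ h h')
  -- the homeomorphism of the slices
  let j : Slice a → SliceCl a := fun x => ⟨x.1, subset_closure x.2⟩
  let j' : Slice a' → SliceCl a' := fun x => ⟨x.1, subset_closure x.2⟩
  have hj : IsInducing j := by
    have : IsInducing ((Subtype.val : SliceCl a → RatMap (m + 1)) ∘ j) :=
      (IsInducing.subtypeVal : IsInducing (Subtype.val : Slice a → RatMap (m + 1)))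
    exact (IsInducing.subtypeVal.of_comp_iff).mp this
  have hj' : IsInducing j' := by
    have : IsInducing ((Subtype.val : SliceCl a' → RatMap (m + 1)) ∘ j') :=
      (IsInducing.subtypeVal : IsInducing (Subtype.val : Slice a' → RatMap (m + 1)))
    exact (IsInducing.subtypeVal.of_comp_iff).mp this
  obtain ⟨F, hF⟩ := quotRel2 (P := Slice a) (Q := Slice a') (SRel a a') hcl j j' hj hj'
    (fun x y h => ⟨⟨y.1, by rw [← tr _ y h]; exact x.2⟩, rfl⟩)
    (fun x y h => ⟨⟨x.1, by rw [tr x _ h]; exact y.2⟩, rfl⟩)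
    (fun x => full1 _) (fun y => full2 _) (Eq) (Eq) (fun x => rfl) (fun y => rfl) (by
      intro x x' y y' h h'
      constructor
      · intro e
        subst e
        have := eqS (j x) (j x) (j' y) (j' y') h h' x.2 rfl
        exact Subtype.ext (congrArg (fun t : SliceCl a' => t.1) this)
      · intro e
        subst e
        have := eqS' (j x) (j x') (j' y) (j' y) h h' y.2 rfl
        exact Subtype.ext (congrArg (fun t : SliceCl a => t.1) this))
  let F' : Slice a ≃ₜ Slice a' := ((quotEq (Slice a)).trans F).trans (quotEq (Slice a')).symm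
  have hF' : ∀ (x : Slice a) (y : Slice a'), (j x, j' y) ∈ SRel a a' → F' x = y := by
    intro x y h
    show (quotEq (Slice a')).symm (F (Quot.mk _ x)) = y
    rw [hF x y h]
    rfl
  have exS : ∀ x : Slice a, ∃ y : Slice a', (j x, j' y) ∈ SRel a a' := by
    intro x
    obtain ⟨y, hy⟩ := full1 (j x)
    exact ⟨⟨y.1, (tr _ _ hy).1 x.2⟩, hy⟩
  refine ⟨F', Φ, Ψ, ?_, ?_, ?_⟩
  · intro b hb x
    obtain ⟨y, hy⟩ := exS x
    rw [hF' x y hy]
    exact (pr _ _ hy).2 b hb
  · intro x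
    obtain ⟨y, hy⟩ := exS x
    rw [hF' x y hy]
    exact hΨ (j x) (j' y) hy
  · intro q
    induction q using Quot.ind with
    | mk x =>
      obtain ⟨y, hy⟩ := full1 (i x)
      have hy' : y.1 ∉ Slice a' := by rw [← tr _ _ hy]; exact x.2.2
      have e1 := hΦ x ⟨y.1, y.2, hy'⟩ hy
      have e2 := hΨ (i x) y hy
      show Ψ (Quot.mk _ (i x)) = bdToCl a' (Φ (Quot.mk _ x))
      rw [e1]
      exact e2

end Loc

end Pool.Agent.BlMat
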