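import Pool.Agent.BlMat.ModelDefs

set_option autoImplicit false

/-!
# Block M1: the logarithmic lift of a Blaschke product is expanding near the imaginary axis

`theorem strip : Stmt_Strip`.
-/

namespace Pool.Agent.BlMat

open Complex Metric Set Filter Topology
open scoped ComplexConjugate

namespace M1

/-! ### Small facts -/

lemma one_sub_mem {u : ℂ} (hu : ‖u‖ < 1) : 1 - u ∈ slitPlane := by
  have h := Complex.mem_slitPlane_of_norm_lt_one (z := -u) (by simpa using hu)
  simpa [sub_eq_add_neg] using h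

lemma log_one_sub_conj {u : ℂ} (hu : ‖u‖ < 1) : log (1 - conj u) = conj (log (1 - u)) := by
  rw [← Complex.log_conj _ (slitPlane_arg_ne_pi (one_sub_mem hu))]
  simp

lemma one_sub_ne {u : ℂ} (hu : ‖u‖ < 1) : 1 - u ≠ 0 := slitPlane_ne_zero (one_sub_mem hu)

lemma re_inv {u : ℂ} (hu : ‖u‖ < 1) : 1 / (1 + ‖u‖) ≤ (1 / (1 - u)).re := by
  have h0 : 1 - u ≠ 0 := one_sub_ne hu
  have hr : (1 / (1 - u)).re = (1 - u.re) / normSq (1 - u) := by
    rw [one_div, Complex.inv_re]; simp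
  have hN : 0 < normSq (1 - u) := normSq_pos.2 h0
  have hN2 : normSq (1 - u) = 1 - 2 * u.re + ‖u‖ ^ 2 := by
    rw [← Complex.normSq_eq_norm_sq]
    simp only [normSq_apply, sub_re, one_re, sub_im, one_im]
    ring
  rw [hr, div_le_div_iff₀ (by positivity) hN, hN2]
  have h1 : -‖u‖ ≤ u.re := by
    have := Complex.abs_re_le_norm u
    exact (abs_le.1 this).1
  nlinarith [norm_nonneg u]

/-- The Poisson-type lower bound. -/
lemma re_pair {u v : ℂ} {ρ : ℝ} (hu : ‖u‖ < 1) (hv : ‖v‖ < 1) (huv : ‖u‖ * ‖v‖ ≤ ρ ^ 2) :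
    (1 - ρ ^ 2) / 4 - 1 ≤ (u / (1 - u) + v / (1 - v)).re := by
  have h1 := re_inv hu
  have h2 := re_inv hv
  have e1 : u / (1 - u) = 1 / (1 - u) - 1 := by
    field_simp [one_sub_ne hu]; ring
  have e2 : v / (1 - v) = 1 / (1 - v) - 1 := by
    field_simp [one_sub_ne hv]; ring
  rw [e1, e2]
  simp only [add_re, sub_re, one_re]
  have h3 : (1 - ρ ^ 2) / 4 + 1 ≤ 1 / (1 + ‖u‖) + 1 / (1 + ‖v‖) := by
    have hr := norm_nonneg u
    have ht := norm_nonneg v
    have e3 : 1 / (1 + ‖u‖) + 1 / (1 + ‖v‖) =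
        (1 - ‖u‖ * ‖v‖) / ((1 + ‖u‖) * (1 + ‖v‖)) + 1 := by
      field_simp; ring
    have h4 : (1 - ‖u‖ * ‖v‖) / 4 ≤ (1 - ‖u‖ * ‖v‖) / ((1 + ‖u‖) * (1 + ‖v‖)) := by
      apply div_le_div_of_nonneg_left
      · nlinarith
      · positivity
      · nlinarith
    rw [e3]; linarith
  linarith

/-- Standing assumptions. -/
structure Hyp {m : ℕ} (a : Fin m → ℂ) (ρ s : ℝ) : Prop where
  nonneg : 0 ≤ ρ
  lt_one : ρ < 1
  pos : 0 < s
  le : ∀ j, ‖a j‖ ≤ ρ
  q : ρ * Real.exp (2 * s) < 1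

/-- The open strip. -/
def St (s : ℝ) : Set ℂ := {w : ℂ | |w.re| < s}

lemma mem_St {s : ℝ} {w : ℂ} : w ∈ St s ↔ |w.re| < s := Iff.rfl

lemma isOpen_St (s : ℝ) : IsOpen (St s) :=
  isOpen_lt (continuous_abs.comp continuous_re) continuous_const

lemma convex_St (s : ℝ) : Convex ℝ (St s) := by
  have h : St s = (fun z : ℂ => z.re) ⁻¹' (Ioo (-s) s) := by
    ext w; simp [St, abs_lt]
  rw [h]
  exact (convex_Ioo _ _).linear_preimage Complex.reLm

section
variable {m : ℕ} {a : Fin m → ℂ} {ρ s : ℝ}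

lemma norm_u (h : Hyp a ρ s) (j : Fin m) {w : ℂ} (hw : |w.re| < 2 * s) :
    ‖a j * exp (-w)‖ ≤ ρ * Real.exp (2 * s) := by
  rw [norm_mul, Complex.norm_exp]
  apply mul_le_mul (h.le j) _ (Real.exp_nonneg _) h.nonneg
  apply Real.exp_le_exp.2
  rw [neg_re]; exact (neg_le_abs _).trans hw.le

lemma norm_v (h : Hyp a ρ s) (j : Fin m) {w : ℂ} (hw : |w.re| < 2 * s) :
    ‖conj (a j) * exp w‖ ≤ ρ * Real.exp (2 * s) := by
  rw [norm_mul, Complex.norm_exp, RCLike.norm_conj]
  apply mul_le_mul (h.le j) _ (Real.exp_nonneg _) h.nonneg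
  apply Real.exp_le_exp.2
  exact (le_abs_self _).trans hw.le

lemma norm_uv (h : Hyp a ρ s) (j : Fin m) (w : ℂ) :
    ‖a j * exp (-w)‖ * ‖conj (a j) * exp w‖ ≤ ρ ^ 2 := by
  rw [norm_mul, norm_mul, Complex.norm_exp, Complex.norm_exp, RCLike.norm_conj]
  have e : Real.exp (-w).re * Real.exp w.re = 1 := by
    rw [← Real.exp_add]; simp
  calc ‖a j‖ * Real.exp (-w).re * (‖a j‖ * Real.exp w.re)
      = ‖a j‖ * ‖a j‖ * (Real.exp (-w).re * Real.exp w.re) := by ring
    _ = ‖a j‖ * ‖a j‖ := by rw [e, mul_one]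
    _ ≤ ρ * ρ := mul_le_mul (h.le j) (h.le j) (norm_nonneg _) h.nonneg
    _ = ρ ^ 2 := by ring

lemma El_eq (a : Fin m → ℂ) (w : ℂ) :
    El a w = (m + 1 : ℂ) * w + ∑ j, (log (1 - a j * exp (-w)) - log (1 - conj (a j) * exp w) +
      log (1 - conj (a j)) - log (1 - a j)) := by
  simp only [El, gl, div_eq_mul_inv, Complex.exp_neg]

/-- The derivative of `El a`. -/
noncomputable def dEl (a : Fin m → ℂ) (w : ℂ) : ℂ :=
  (m + 1 : ℂ) + ∑ j, (a j * exp (-w) / (1 - a j * exp (-w)) +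
    conj (a j) * exp w / (1 - conj (a j) * exp w))

lemma hasDerivAt_El (h : Hyp a ρ s) {w : ℂ} (hw : |w.re| < 2 * s) :
    HasDerivAt (El a) (dEl a w) w := by
  have e : El a = fun w => (m + 1 : ℂ) * w + ∑ j, (log (1 - a j * exp (-w)) -
      log (1 - conj (a j) * exp w) + log (1 - conj (a j)) - log (1 - a j)) := by
    funext w; exact El_eq a w
  rw [e]
  unfold dEl
  apply HasDerivAt.add
  · simpa using (hasDerivAt_id w).const_mul (m + 1 : ℂ)
  · apply HasDerivAt.fun_sum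
    intro j _
    have hu := (norm_u h j hw).trans_lt h.q
    have hv := (norm_v h j hw).trans_lt h.q
    have d1 : HasDerivAt (fun w => 1 - a j * exp (-w)) (a j * exp (-w)) w := by
      have := ((Complex.hasDerivAt_exp (-w)).comp w (hasDerivAt_neg w)).const_mul (a j)
      exact (this.const_sub 1).congr_deriv (by ring)
    have d2 : HasDerivAt (fun w => 1 - conj (a j) * exp w) (-(conj (a j) * exp w)) w :=
      ((Complex.hasDerivAt_exp w).const_mul (conj (a j))).const_sub 1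
    have d3 := (d1.clog (one_sub_mem hu)).sub (d2.clog (one_sub_mem hv))
    have d4 := (d3.add_const (log (1 - conj (a j)))).sub_const (log (1 - a j))
    exact d4.congr_deriv (by rw [neg_div, sub_neg_eq_add])

/-- The expansion constant. -/
lemma dEl_re (hm : 1 ≤ m) (h : Hyp a ρ s) {w : ℂ} (hw : |w.re| < 2 * s) :
    1 + (1 - ρ ^ 2) / 4 ≤ (dEl a w).re := by
  unfold dEl
  rw [add_re, re_sum]
  have h1 : ∀ j ∈ (Finset.univ : Finset (Fin m)), (1 - ρ ^ 2) / 4 - 1 ≤
      (a j * exp (-w) / (1 - a j * exp (-w)) +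
        conj (a j) * exp w / (1 - conj (a j) * exp w)).re := fun j _ =>
    re_pair ((norm_u h j hw).trans_lt h.q) ((norm_v h j hw).trans_lt h.q) (norm_uv h j w)
  have h2 := Finset.card_nsmul_le_sum _ _ _ h1
  simp only [Finset.card_univ, Fintype.card_fin, nsmul_eq_mul] at h2
  have h3 : ((m : ℂ) + 1).re = m + 1 := by simp
  rw [h3]
  have hm' : (1 : ℝ) ≤ m := by exact_mod_cast hm
  have hρ : 0 ≤ (1 - ρ ^ 2) / 4 := by
    have := h.nonneg
    have := h.lt_one
    nlinarith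
  nlinarith

lemma El_diff (h : Hyp a ρ s) : DifferentiableOn ℂ (El a) (St (2 * s)) := fun _ hw =>
  (hasDerivAt_El h hw).differentiableAt.differentiableWithinAt

lemma norm_le_one (h : Hyp a ρ s) (j : Fin m) : ‖a j‖ < 1 := (h.le j).trans_lt h.lt_one

lemma El_exp (h : Hyp a ρ s) {w : ℂ} (hw : |w.re| < 2 * s) : exp (El a w) = bl a (exp w) := by
  rw [El_eq, Complex.exp_add, Complex.exp_sum]
  have h1 : exp ((m + 1 : ℂ) * w) = exp w * ∏ _j : Fin m, exp w := by
    rw [add_mul, one_mul, Complex.exp_add, Complex.exp_nat_mul, Finset.prod_const,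
      Finset.card_univ, Fintype.card_fin, mul_comm]
  rw [h1, mul_assoc, ← Finset.prod_mul_distrib]
  unfold bl
  congr 1
  apply Finset.prod_congr rfl
  intro j _
  have hu := (norm_u h j hw).trans_lt h.q
  have hv := (norm_v h j hw).trans_lt h.q
  have ha : ‖conj (a j)‖ < 1 := by rw [RCLike.norm_conj]; exact norm_le_one h j
  have n1 := one_sub_ne hu
  have n2 := one_sub_ne hv
  have n3 := one_sub_ne ha
  have n4 := one_sub_ne (norm_le_one h j)
  rw [Complex.exp_sub, Complex.exp_add, Complex.exp_sub, Complex.exp_log n1, Complex.exp_log n2,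
    Complex.exp_log n3, Complex.exp_log n4]
  have h5 : exp w - a j = exp w * (1 - a j * exp (-w)) := by
    rw [mul_sub, mul_one, mul_comm (a j), ← mul_assoc, ← Complex.exp_add]
    simp
  rw [h5]
  field_simp

lemma El_per (a : Fin m → ℂ) (w : ℂ) :
    El a (w + 2 * Real.pi * I) = El a w + (m + 1 : ℂ) * (2 * Real.pi * I) := by
  unfold El
  rw [Complex.exp_periodic w]
  ring

lemma El_zero (a : Fin m → ℂ) : El a 0 = 0 := by
  unfold El gl
  simp

lemma El_refl (h : Hyp a ρ s) {w : ℂ} (hw : |w.re| < 2 * s) :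
    El a (-conj w) = -conj (El a w) := by
  rw [El_eq, El_eq]
  rw [map_add, map_mul, map_sum, neg_add, ← Finset.sum_neg_distrib]
  congr 1
  · simp
  · apply Finset.sum_congr rfl
    intro j _
    have hu := (norm_u h j hw).trans_lt h.q
    have hv := (norm_v h j hw).trans_lt h.q
    have ha := norm_le_one h j
    have e1 : a j * exp (- -conj w) = conj (conj (a j) * exp w) := by
      rw [neg_neg, map_mul, Complex.conj_conj, ← Complex.exp_conj]
    have e2 : conj (a j) * exp (-conj w) = conj (a j * exp (-w)) := by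
      rw [map_mul, ← Complex.exp_conj, map_neg]
    rw [e1, e2, log_one_sub_conj hu, log_one_sub_conj hv, log_one_sub_conj ha]
    simp only [map_sub, map_add, Complex.conj_conj]
    ring

lemma El_axis (h : Hyp a ρ s) {w : ℂ} (hw : w.re = 0) : (El a w).re = 0 := by
  have h1 := El_refl h (w := w) (by rw [hw, abs_zero]; linarith [h.pos])
  have h2 : -conj w = w := by
    apply Complex.ext <;> simp [hw]
  rw [h2] at h1
  have h3 := congrArg Complex.re h1
  simp at h3
  linarith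

/-- Strong monotonicity of `El a`. -/
lemma El_mono (hm : 1 ≤ m) (h : Hyp a ρ s) {w w' : ℂ} (hw : |w.re| < 2 * s)
    (hw' : |w'.re| < 2 * s) :
    (1 + (1 - ρ ^ 2) / 4) * ‖w - w'‖ ^ 2 ≤ ((El a w - El a w') * conj (w - w')).re := by
  have hseg : ∀ t ∈ Icc (0 : ℝ) 1, |(w' + t * (w - w')).re| < 2 * s := by
    intro t ht
    have := (convex_St (2 * s)).add_smul_sub_mem (x := w') (y := w) hw' hw ht
    simpa [St] using this
  set c := 1 + (1 - ρ ^ 2) / 4 with hc
  have hder : ∀ t ∈ Icc (0 : ℝ) 1, HasDerivAt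
      (fun t : ℝ => ((El a (w' + t * (w - w')) - El a w') * conj (w - w')).re)
      ((dEl a (w' + t * (w - w')) * (w - w') * conj (w - w')).re) t := by
    intro t ht
    have h1 : HasDerivAt (fun t : ℂ => El a (w' + t * (w - w')))
        (dEl a (w' + t * (w - w')) * (w - w')) (t : ℂ) := by
      have h2 : HasDerivAt (fun t : ℂ => w' + t * (w - w')) (w - w') (t : ℂ) := by
        simpa using ((hasDerivAt_id (t : ℂ)).mul_const (w - w')).const_add w'
      exact (hasDerivAt_El h (hseg t ht)).comp (t : ℂ) h2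
    have h3 := (h1.sub_const (El a w')).mul_const (conj (w - w'))
    exact h3.real_of_complex
  have hbd : ∀ t ∈ Icc (0 : ℝ) 1,
      c * ‖w - w'‖ ^ 2 ≤ (dEl a (w' + t * (w - w')) * (w - w') * conj (w - w')).re := by
    intro t ht
    rw [mul_assoc, Complex.mul_conj, Complex.re_mul_ofReal, Complex.normSq_eq_norm_sq]
    exact mul_le_mul_of_nonneg_right (dEl_re hm h (hseg t ht)) (by positivity)
  set g : ℝ → ℝ := fun t : ℝ => ((El a (w' + t * (w - w')) - El a w') * conj (w - w')).re with hg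
  have hfin := (convex_Icc (0 : ℝ) 1).mul_sub_le_image_sub_of_le_deriv (f := g)
    (C := c * ‖w - w'‖ ^ 2)
    (fun t ht => (hder t ht).continuousAt.continuousWithinAt)
    (fun t ht => (hder t (interior_subset ht)).differentiableAt.differentiableWithinAt)
    (fun t ht => by rw [(hder t (interior_subset ht)).deriv]; exact hbd t (interior_subset ht))
    0 (by simp) 1 (by simp) zero_le_one
  simpa [hg] using hfin

lemma El_expand (hm : 1 ≤ m) (h : Hyp a ρ s) {w w' : ℂ} (hw : |w.re| < 2 * s)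
    (hw' : |w'.re| < 2 * s) :
    (1 + (1 - ρ ^ 2) / 4) * ‖w - w'‖ ≤ ‖El a w - El a w'‖ := by
  rcases eq_or_ne w w' with rfl | hne
  · simp
  have h0 : 0 < ‖w - w'‖ := norm_pos_iff.2 (sub_ne_zero.2 hne)
  have h1 := El_mono hm h hw hw'
  have h2 : ((El a w - El a w') * conj (w - w')).re ≤ ‖El a w - El a w'‖ * ‖w - w'‖ := by
    refine (Complex.re_le_norm _).trans ?_
    rw [norm_mul, RCLike.norm_conj]
  by_contra hcon
  push Not at hcon
  nlinarith

lemma re_mul_re (hm : 1 ≤ m) (h : Hyp a ρ s) {w : ℂ} (hw : |w.re| < 2 * s) :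
    (1 + (1 - ρ ^ 2) / 4) * w.re ^ 2 ≤ (El a w).re * w.re := by
  have h0 : |((w.im : ℂ) * I).re| < 2 * s := by simp [h.pos]
  have h1 := El_mono hm h hw h0
  have h2 : w - w.im * I = (w.re : ℂ) := by
    apply Complex.ext <;> simp
  rw [h2] at h1
  have h3 : (El a ((w.im : ℂ) * I)).re = 0 := El_axis h (by simp)
  rw [Complex.conj_ofReal, Complex.re_mul_ofReal, sub_re, h3, sub_zero, Complex.norm_real,
    Real.norm_eq_abs, sq_abs] at h1
  exact h1

lemma El_re_le (hm : 1 ≤ m) (h : Hyp a ρ s) {w : ℂ} (hw : |w.re| < 2 * s) (hw0 : w.re ≤ 0) :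
    (El a w).re ≤ (1 + (1 - ρ ^ 2) / 4) * w.re := by
  rcases hw0.eq_or_lt with h1 | h1
  · rw [El_axis h h1, h1, mul_zero]
  · have h2 := re_mul_re hm h hw
    nlinarith

lemma abs_re_le (hm : 1 ≤ m) (h : Hyp a ρ s) {w : ℂ} (hw : |w.re| < 2 * s) :
    (1 + (1 - ρ ^ 2) / 4) * |w.re| ≤ |(El a w).re| := by
  rcases eq_or_ne w.re 0 with h1 | h1
  · simp [h1]
  · have h2 := re_mul_re hm h hw
    have h3 : 0 < |w.re| := abs_pos.2 h1
    have h4 : (El a w).re * w.re ≤ |(El a w).re| * |w.re| := by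
      rw [← abs_mul]; exact le_abs_self _
    rw [← sq_abs w.re] at h2
    by_contra hcon
    push Not at hcon
    nlinarith

lemma one_lt_c (h : Hyp a ρ s) : 1 < 1 + (1 - ρ ^ 2) / 4 := by
  have := h.nonneg
  have := h.lt_one
  nlinarith

lemma El_injOn (hm : 1 ≤ m) (h : Hyp a ρ s) : InjOn (El a) (St (2 * s)) := by
  intro w hw w' hw' he
  have h1 := El_expand hm h hw hw'
  rw [he, sub_self, norm_zero] at h1
  have h2 := one_lt_c h
  have h3 : ‖w - w'‖ ≤ 0 := by
    by_contra hcon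
    push Not at hcon
    nlinarith
  exact sub_eq_zero.1 (norm_le_zero_iff.1 h3)

lemma isOpen_image (hm : 1 ≤ m) (h : Hyp a ρ s) : IsOpen (El a '' St (2 * s)) := by
  rw [isOpen_iff_mem_nhds]
  rintro _ ⟨w, hw, rfl⟩
  have hn : St (2 * s) ∈ 𝓝 w := (isOpen_St _).mem_nhds hw
  have h1 : HasStrictDerivAt (El a) (deriv (El a) w) w :=
    ((El_diff h).analyticAt hn).hasStrictDerivAt
  have h2 : deriv (El a) w ≠ 0 := by
    rw [(hasDerivAt_El h hw).deriv]
    intro h0
    have h3 := dEl_re hm h hw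
    have h4 := one_lt_c h
    rw [h0, zero_re] at h3
    linarith
  rw [← h1.map_nhds_eq h2]
  exact image_mem_map hn

lemma closure_image (hm : 1 ≤ m) (h : Hyp a ρ s) :
    closure (El a '' St (2 * s)) ∩ St (2 * s * (1 + (1 - ρ ^ 2) / 4)) ⊆ El a '' St (2 * s) := by
  rintro ζ ⟨hζ, hζ2⟩
  have hc := one_lt_c h
  set c := 1 + (1 - ρ ^ 2) / 4 with hcdef
  have hc0 : 0 < c := by linarith
  obtain ⟨x, hx, hxlim⟩ := mem_closure_iff_seq_limit.1 hζ
  choose w hw hwx using hx
  have hcau : CauchySeq w := by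
    have h1 : CauchySeq x := hxlim.cauchySeq
    rw [Metric.cauchySeq_iff] at h1 ⊢
    intro ε hε
    obtain ⟨N, hN⟩ := h1 ε hε
    refine ⟨N, fun p hp q hq => ?_⟩
    have h2 := hN p hp q hq
    rw [dist_eq_norm] at h2 ⊢
    have h3 := El_expand hm h (hw p) (hw q)
    rw [hwx, hwx, ← hcdef] at h3
    nlinarith [norm_nonneg (w p - w q)]
  obtain ⟨v, hv⟩ := cauchySeq_tendsto_of_complete hcau
  have hvre : c * |v.re| ≤ |ζ.re| := by
    have h1 : Tendsto (fun n => c * |(w n).re|) atTop (𝓝 (c * |v.re|)) :=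
      (((continuous_abs.comp continuous_re).tendsto v).comp hv).const_mul c
    have h2 : Tendsto (fun n => |(x n).re|) atTop (𝓝 |ζ.re|) :=
      ((continuous_abs.comp continuous_re).tendsto ζ).comp hxlim
    refine le_of_tendsto_of_tendsto' h1 h2 (fun n => ?_)
    rw [← hwx n]
    exact abs_re_le hm h (hw n)
  have hvS : v ∈ St (2 * s) := by
    have h1 : |ζ.re| < 2 * s * c := hζ2
    have h2 : c * |v.re| < c * (2 * s) := by linarith
    exact lt_of_mul_lt_mul_left h2 hc0.le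
  refine ⟨v, hvS, ?_⟩
  have h1 : Tendsto (fun n => El a (w n)) atTop (𝓝 (El a v)) :=
    ((hasDerivAt_El h hvS).continuousAt.tendsto).comp hv
  have h2 : (fun n => El a (w n)) = x := funext hwx
  rw [h2] at h1
  exact tendsto_nhds_unique h1 hxlim

lemma subset_image (hm : 1 ≤ m) (h : Hyp a ρ s) :
    St (2 * s * (1 + (1 - ρ ^ 2) / 4)) ⊆ El a '' St (2 * s) := by
  apply (convex_St _).isPreconnected.subset_of_closure_inter_subset (isOpen_image hm h)
  · refine ⟨0, ?_, 0, ?_, El_zero a⟩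
    · have := h.pos
      have := one_lt_c h
      simp only [St, mem_ofPred_eq, zero_re, abs_zero]
      positivity
    · have := h.pos
      simp only [St, mem_ofPred_eq, zero_re, abs_zero]
      positivity
  · exact closure_image hm h

lemma exists_strip (hm : 1 ≤ m) (h : Hyp a ρ s) :
    ∃ L : ℂ → ℂ, StripFacts a s (1 + (1 - ρ ^ 2) / 4) L := by
  have hc := one_lt_c h
  set c := 1 + (1 - ρ ^ 2) / 4 with hcdef
  have hc0 : 0 < c := by linarith
  have hs := h.pos
  have hsub : ∀ ζ : ℂ, |ζ.re| ≤ s → ∃ w ∈ St (2 * s), El a w = ζ := by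
    intro ζ hζ
    apply subset_image hm h
    rw [mem_St, ← hcdef]
    nlinarith
  have hL : ∀ ζ : ℂ, |ζ.re| ≤ s → Function.invFunOn (El a) (St (2 * s)) ζ ∈ St (2 * s) ∧
      El a (Function.invFunOn (El a) (St (2 * s)) ζ) = ζ := fun ζ hζ =>
    ⟨Function.invFunOn_mem (hsub ζ hζ), Function.invFunOn_eq (hsub ζ hζ)⟩
  set L : ℂ → ℂ := Function.invFunOn (El a) (St (2 * s)) with hLdef
  have hlip : ∀ ζ ζ' : ℂ, |ζ.re| ≤ s → |ζ'.re| ≤ s → ‖L ζ - L ζ'‖ ≤ ‖ζ - ζ'‖ / c := by
    intro ζ ζ' h1 h2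
    rw [le_div_iff₀ hc0, mul_comm]
    have h3 := El_expand hm h (hL ζ h1).1 (hL ζ' h2).1
    rwa [(hL ζ h1).2, (hL ζ' h2).2] at h3
  refine ⟨L, ?_⟩
  refine ⟨?_, El_diff h, fun w hw => El_exp h hw, El_per a, El_zero a, fun w hw => El_refl h hw,
    ?_, fun w hw hw0 => El_re_le hm h hw hw0, fun w w' hw hw' => El_expand hm h hw hw', ?_, ?_,
    hlip, ?_, ?_⟩
  · intro j
    refine (h.le j).trans_lt ?_
    rw [Real.exp_neg, ← one_div, lt_div_iff₀ (Real.exp_pos _)]
    exact h.q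
  · intro w hw
    rw [(hasDerivAt_El h hw).deriv]
    exact dEl_re hm h hw
  · intro ζ hζ
    refine ⟨?_, (hL ζ hζ).2⟩
    rw [le_div_iff₀ hc0, mul_comm]
    have h3 := abs_re_le hm h (hL ζ hζ).1
    rwa [(hL ζ hζ).2] at h3
  · intro w hw hw2
    exact El_injOn hm h (hL _ hw2).1 hw (hL _ hw2).2
  · intro ζ hζ
    have h1 : |(ζ + (m + 1 : ℂ) * (2 * Real.pi * I)).re| ≤ s := by simpa using hζ
    apply El_injOn hm h (hL _ h1).1
    · have := (hL ζ hζ).1
      simpa [St] using this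
    · rw [(hL _ h1).2, El_per, (hL ζ hζ).2]
  · intro ζ hζ
    have hζ' : |ζ.re| < s := hζ
    have hn : St s ∈ 𝓝 ζ := (isOpen_St _).mem_nhds hζ'
    have hcont : ContinuousAt L ζ := by
      have h1 : ∀ᶠ y in 𝓝 ζ, ‖L y - L ζ‖ ≤ ‖y - ζ‖ / c := by
        filter_upwards [hn] with y hy
        exact hlip y ζ (le_of_lt hy) hζ'.le
      rw [ContinuousAt, tendsto_iff_norm_sub_tendsto_zero]
      refine squeeze_zero' (Eventually.of_forall fun _ => norm_nonneg _) h1 ?_
      have h2 : Tendsto (fun y => ‖y - ζ‖ / c) (𝓝 ζ) (𝓝 (‖ζ - ζ‖ / c)) :=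
        ((continuous_id.sub continuous_const).norm.div_const c).tendsto ζ
      simpa using h2
    have hne : dEl a (L ζ) ≠ 0 := by
      intro h0
      have h3 := dEl_re hm h (hL ζ hζ'.le).1
      rw [h0, zero_re] at h3
      linarith
    exact (HasDerivAt.of_local_left_inverse hcont (hasDerivAt_El h (hL ζ hζ'.le).1) hne
      (by filter_upwards [hn] with y hy; exact (hL y (le_of_lt hy)).2)).differentiableAt.differentiableWithinAt

/-! ### Dependence on the parameter -/

lemma log_lip {u v : ℂ} {q : ℝ} (hq : q < 1) (hu : ‖u‖ ≤ q) (hv : ‖v‖ ≤ q) :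
    ‖log (1 - u) - log (1 - v)‖ ≤ 1 / (1 - q) * ‖u - v‖ := by
  have h1q : 0 < 1 - q := by linarith
  refine (convex_closedBall (0 : ℂ) q).norm_image_sub_le_of_norm_hasDerivWithin_le
    (f := fun u => log (1 - u)) (f' := fun u => -1 / (1 - u)) ?_ ?_
    (by simpa using hv) (by simpa using hu)
  · intro x hx
    have hx' : ‖x‖ < 1 := lt_of_le_of_lt (by simpa using hx) hq
    have h1 : HasDerivAt (fun u : ℂ => 1 - u) (-1) x := (hasDerivAt_id x).const_sub 1
    exact (h1.clog (one_sub_mem hx')).hasDerivWithinAt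
  · intro x hx
    have hx' : ‖x‖ ≤ q := by simpa using hx
    rw [norm_div, norm_neg, norm_one]
    apply one_div_le_one_div_of_le h1q
    have := norm_sub_norm_le (1 : ℂ) x
    rw [norm_one] at this
    linarith

lemma El_close {b : Fin m → ℂ} (h : Hyp a ρ s) (h' : Hyp b ρ s) {w : ℂ} (hw : |w.re| < 2 * s) :
    ‖El a w - El b w‖ ≤
      (m * (1 / (1 - ρ * Real.exp (2 * s)) * (4 * Real.exp (2 * s)))) * ‖a - b‖ := by
  have hq := h.q
  set q := ρ * Real.exp (2 * s) with hqdef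
  have h1q : 0 < 1 - q := by linarith
  have hE1 : 1 ≤ Real.exp (2 * s) := Real.one_le_exp (by linarith [h.pos])
  have hρq : ρ ≤ q := by
    rw [hqdef]; nlinarith [h.nonneg]
  rw [El_eq, El_eq, add_sub_add_left_eq_sub, ← Finset.sum_sub_distrib]
  refine (norm_sum_le _ _).trans ?_
  have hbd : ∀ j ∈ (Finset.univ : Finset (Fin m)),
      ‖log (1 - a j * exp (-w)) - log (1 - conj (a j) * exp w) +
      log (1 - conj (a j)) - log (1 - a j) - (log (1 - b j * exp (-w)) -
      log (1 - conj (b j) * exp w) + log (1 - conj (b j)) - log (1 - b j))‖ ≤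
      1 / (1 - q) * (4 * Real.exp (2 * s)) * ‖a - b‖ := by
    intro j _
    have hj : ‖a j - b j‖ ≤ ‖a - b‖ := norm_le_pi_norm (a - b) j
    have e1 : Real.exp (-w).re ≤ Real.exp (2 * s) := by
      apply Real.exp_le_exp.2
      rw [neg_re]; exact (neg_le_abs _).trans hw.le
    have e2 : Real.exp w.re ≤ Real.exp (2 * s) := by
      apply Real.exp_le_exp.2
      exact (le_abs_self _).trans hw.le
    have t1 : ‖log (1 - a j * exp (-w)) - log (1 - b j * exp (-w))‖ ≤
        1 / (1 - q) * (Real.exp (2 * s) * ‖a - b‖) := by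
      refine (log_lip hq (norm_u h j hw) (norm_u h' j hw)).trans ?_
      rw [← sub_mul, norm_mul, Complex.norm_exp, mul_comm ‖a j - b j‖]
      gcongr
    have t2 : ‖log (1 - conj (a j) * exp w) - log (1 - conj (b j) * exp w)‖ ≤
        1 / (1 - q) * (Real.exp (2 * s) * ‖a - b‖) := by
      refine (log_lip hq (norm_v h j hw) (norm_v h' j hw)).trans ?_
      rw [← sub_mul, norm_mul, Complex.norm_exp, ← map_sub, RCLike.norm_conj,
        mul_comm ‖a j - b j‖]
      gcongr
    have t3 : ‖log (1 - a j) - log (1 - b j)‖ ≤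
        1 / (1 - q) * (Real.exp (2 * s) * ‖a - b‖) := by
      refine (log_lip hq ((h.le j).trans hρq) ((h'.le j).trans hρq)).trans ?_
      gcongr
      nlinarith [norm_nonneg (a - b)]
    have t4 : ‖log (1 - conj (a j)) - log (1 - conj (b j))‖ ≤
        1 / (1 - q) * (Real.exp (2 * s) * ‖a - b‖) := by
      rw [log_one_sub_conj (norm_le_one h j), log_one_sub_conj (norm_le_one h' j), ← map_sub,
        RCLike.norm_conj]
      exact t3
    have e : log (1 - a j * exp (-w)) - log (1 - conj (a j) * exp w) +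
        log (1 - conj (a j)) - log (1 - a j) - (log (1 - b j * exp (-w)) -
        log (1 - conj (b j) * exp w) + log (1 - conj (b j)) - log (1 - b j)) =
        (log (1 - a j * exp (-w)) - log (1 - b j * exp (-w))) -
        (log (1 - conj (a j) * exp w) - log (1 - conj (b j) * exp w)) +
        ((log (1 - conj (a j)) - log (1 - conj (b j))) -
        (log (1 - a j) - log (1 - b j))) := by ring
    rw [e]
    refine (norm_add_le _ _).trans ?_
    have n1 := norm_sub_le (log (1 - a j * exp (-w)) - log (1 - b j * exp (-w)))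
      (log (1 - conj (a j) * exp w) - log (1 - conj (b j) * exp w))
    have n2 := norm_sub_le (log (1 - conj (a j)) - log (1 - conj (b j)))
      (log (1 - a j) - log (1 - b j))
    linarith
  have h2 := Finset.sum_le_card_nsmul _ _ _ hbd
  simp only [Finset.card_univ, Fintype.card_fin, nsmul_eq_mul] at h2
  rw [mul_assoc (m : ℝ)]
  exact h2

end

end M1

/-- Uniform strip facts near every parameter. -/
theorem strip : Stmt_Strip := by
  intro m hm a₀ ha₀
  have hn : ‖a₀‖ < 1 := (pi_norm_lt_iff one_pos).2 ha₀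
  set ρ : ℝ := (‖a₀‖ + 1) / 2 with hρ
  have hρ1 : ρ < 1 := by rw [hρ]; linarith
  have hρ0 : 0 < ρ := by rw [hρ]; positivity
  have hρa : ‖a₀‖ < ρ := by rw [hρ]; linarith
  set s : ℝ := -Real.log ρ / 4 with hs
  have hs0 : 0 < s := by
    have := Real.log_neg hρ0 hρ1
    rw [hs]; linarith
  have hq : ρ * Real.exp (2 * s) < 1 := by
    have h1 : ρ * Real.exp (2 * s) = Real.exp (Real.log ρ / 2) := by
      nth_rewrite 1 [← Real.exp_log hρ0]
      rw [← Real.exp_add, hs]
      congr 1; ring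
    rw [h1]
    have := Real.log_neg hρ0 hρ1
    rw [← Real.exp_zero]
    exact Real.exp_lt_exp.2 (by linarith)
  have hyp : ∀ a : Fin m → ℂ, ‖a‖ < ρ → M1.Hyp a ρ s := fun a ha =>
    ⟨hρ0.le, hρ1, hs0, fun j => (norm_le_pi_norm a j).trans ha.le, hq⟩
  refine ⟨s, 1 + (1 - ρ ^ 2) / 4, m * (1 / (1 - ρ * Real.exp (2 * s)) * (4 * Real.exp (2 * s))),
    hs0, M1.one_lt_c (hyp a₀ hρa), ?_⟩
  have hev : ∀ᶠ a in 𝓝 (a₀ : Fin m → ℂ), ‖a‖ < ρ :=
    continuous_norm.continuousAt.eventually_lt_const hρa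
  filter_upwards [hev] with a ha
  exact ⟨M1.exists_strip hm (hyp a ha), fun w hw => M1.El_close (hyp a ha) (hyp a₀ hρa) hw⟩

end Pool.Agent.BlMat
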