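import Pool.Agent.BlMat.ModelDefs
import Pool.Agent.BlMat.Basic

set_option autoImplicit false

/-!
# Block M2: half-plane model conjugacies

`theorem halfModel (h1 : Stmt_Strip) (h2 : Stmt_Bl) : Stmt_HalfModel`.
-/

namespace Pool.Agent.BlMat.M2

open Complex Metric Set Filter Topology MeasureTheory
open scoped ComplexConjugate ContDiff

/-! ### Strip lemmas -/

section strip

variable {m : ℕ} {a : Fin m → ℂ} {s c : ℝ} {L : ℂ → ℂ}

theorem isOpen_strip (s : ℝ) : IsOpen {w : ℂ | |w.re| < s} :=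
  isOpen_lt (by fun_prop) continuous_const

theorem re_ge (h : StripFacts a s c L) {w : ℂ} (hw : |w.re| < 2 * s) (h0 : 0 ≤ w.re) :
    c * w.re ≤ (El a w).re := by
  have h1 := h.re_le (-conj w) (by simpa using hw) (by simpa using h0)
  rw [h.refl w hw] at h1
  simp only [neg_re, conj_re] at h1
  linarith

theorem abs_re_ge (h : StripFacts a s c L) (hc : 0 < c) {w : ℂ} (hw : |w.re| < 2 * s) :
    c * |w.re| ≤ |(El a w).re| := by
  rcases le_total 0 w.re with h0 | h0
  · have := re_ge h hw h0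
    rw [abs_of_nonneg h0, abs_of_nonneg (by nlinarith)]
    exact this
  · have := h.re_le w hw h0
    rw [abs_of_nonpos h0, abs_of_nonpos (by nlinarith)]
    linarith

theorem re_neg_iff (h : StripFacts a s c L) (hc : 0 < c) {w : ℂ} (hw : |w.re| < 2 * s) :
    (El a w).re < 0 ↔ w.re < 0 := by
  constructor
  · intro h1
    by_contra h2
    push Not at h2
    have := re_ge h hw h2
    nlinarith
  · intro h1
    have := h.re_le w hw h1.le
    nlinarith

theorem re_axis (h : StripFacts a s c L) {w : ℂ} (hw : |w.re| < 2 * s) (h0 : w.re = 0) :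
    (El a w).re = 0 := by
  have h1 := re_ge h hw h0.ge
  have h2 := h.re_le w hw h0.le
  rw [h0] at h1 h2
  linarith

theorem L_lt (h : StripFacts a s c L) (hs : 0 < s) (hc : 1 < c) {ζ : ℂ} (hζ : |ζ.re| ≤ s) :
    |(L ζ).re| < 2 * s := by
  have h1 := (h.L_eq ζ hζ).1
  have h2 : |ζ.re| / c ≤ |ζ.re| := div_le_self (abs_nonneg _) hc.le
  linarith

theorem L_refl (h : StripFacts a s c L) (hs : 0 < s) (hc : 1 < c) {ζ : ℂ} (hζ : |ζ.re| ≤ s) :
    L (-conj ζ) = -conj (L ζ) := by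
  have h1 := L_lt h hs hc hζ
  have h2 := h.refl (L ζ) h1
  rw [(h.L_eq ζ hζ).2] at h2
  rw [← h2]
  apply h.L_inv
  · simpa using h1
  · rw [h2]; simpa using hζ

theorem L_neg_iff (h : StripFacts a s c L) (hs : 0 < s) (hc : 1 < c) {ζ : ℂ} (hζ : |ζ.re| ≤ s) :
    (L ζ).re < 0 ↔ ζ.re < 0 := by
  have h1 := re_neg_iff h (by linarith) (L_lt h hs hc hζ)
  rw [(h.L_eq ζ hζ).2] at h1
  exact h1.symm

theorem El_diffAt (h : StripFacts a s c L) {w : ℂ} (hw : |w.re| < 2 * s) :
    DifferentiableAt ℂ (El a) w :=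
  h.diff.differentiableAt ((isOpen_strip _).mem_nhds hw)

theorem L_diffAt (h : StripFacts a s c L) {w : ℂ} (hw : |w.re| < s) :
    DifferentiableAt ℂ L w :=
  h.L_diff.differentiableAt ((isOpen_strip _).mem_nhds hw)

theorem El_deriv_ne (h : StripFacts a s c L) (hc : 1 < c) {w : ℂ} (hw : |w.re| < 2 * s) :
    deriv (El a) w ≠ 0 := by
  intro h0
  have := h.deriv_re w hw
  rw [h0, zero_re] at this
  linarith

theorem L_deriv_ne (h : StripFacts a s c L) (hs : 0 < s) (hc : 1 < c) {ζ : ℂ}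
    (hζ : |ζ.re| < s) : deriv L ζ ≠ 0 := by
  have h1 : HasDerivAt (El a ∘ L) (deriv (El a) (L ζ) * deriv L ζ) ζ :=
    (El_diffAt h (L_lt h hs hc hζ.le)).hasDerivAt.comp ζ (L_diffAt h hζ).hasDerivAt
  have h2 : El a ∘ L =ᶠ[𝓝 ζ] id := by
    filter_upwards [(isOpen_strip s).mem_nhds hζ] with x hx
    exact (h.L_eq x (le_of_lt hx)).2
  have h3 : HasDerivAt (El a ∘ L) 1 ζ := (hasDerivAt_id ζ).congr_of_eventuallyEq h2
  have h4 := h1.unique h3
  intro h0
  rw [h0, mul_zero] at h4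
  exact zero_ne_one h4

theorem convex_strip (s : ℝ) : Convex ℝ {w : ℂ | |w.re| ≤ s} := by
  have : {w : ℂ | |w.re| ≤ s} = reLm ⁻¹' (closedBall (0 : ℝ) s) := by
    ext w
    simp
  rw [this]
  exact (convex_closedBall 0 s).linear_preimage reLm

theorem exists_lip (h : StripFacts a s c L) (hs : 0 < s) :
    ∃ K : ℝ, 1 ≤ K ∧ ∀ w : ℂ, |w.re| ≤ s → |(El a w).re| ≤ K * |w.re| := by
  have hcont : ContinuousOn (deriv (El a)) {w : ℂ | |w.re| < 2 * s} :=
    (h.diff.deriv (isOpen_strip _)).continuousOn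
  have hcomp : IsCompact (Icc (-s) s ×ℂ Icc 0 (2 * Real.pi)) :=
    isCompact_Icc.reProdIm isCompact_Icc
  have hsub : Icc (-s) s ×ℂ Icc 0 (2 * Real.pi) ⊆ {w : ℂ | |w.re| < 2 * s} := by
    intro w hw
    have h1 := hw.1
    have h2 : |w.re| ≤ s := abs_le.mpr h1
    show |w.re| < 2 * s
    linarith
  obtain ⟨K, hK⟩ := hcomp.exists_bound_of_continuousOn (hcont.mono hsub)
  have hper : Function.Periodic (deriv (El a)) (2 * Real.pi * I) := by
    intro w
    have h1 : (fun w => El a (w + 2 * Real.pi * I)) =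
        fun w => El a w + (m + 1 : ℂ) * (2 * Real.pi * I) := by
      funext w
      exact h.per w
    have h2 : deriv (fun w => El a (w + 2 * Real.pi * I)) w = deriv (El a) w := by
      rw [h1, deriv_add_const]
    rw [← h2, deriv_comp_add_const]
  have hbd : ∀ w : ℂ, |w.re| ≤ s → ‖deriv (El a) w‖ ≤ K := by
    intro w hw
    have hpi : 0 < 2 * Real.pi := by positivity
    obtain ⟨n, hn, -⟩ := existsUnique_sub_zsmul_mem_Ico hpi w.im 0
    have h1 : deriv (El a) w = deriv (El a) (w - n * (2 * Real.pi * I)) := by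
      have := hper.sub_int_mul_eq n (x := w)
      rw [this]
    rw [h1]
    apply hK
    have h2 : (w - n * (2 * Real.pi * I)).re = w.re := by simp
    have h3 : (w - n * (2 * Real.pi * I)).im = w.im - n • (2 * Real.pi) := by simp
    rw [mem_reProdIm, h2, h3]
    exact ⟨abs_le.mp hw, hn.1, by simpa using hn.2.le⟩
  refine ⟨max K 1, le_max_right _ _, fun w hw => ?_⟩
  have h0 : |(w.im * I : ℂ).re| ≤ s := by simpa using hs.le
  have h1 := (convex_strip s).norm_image_sub_le_of_norm_deriv_le (f := El a) (C := K)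
    (fun x hx => El_diffAt h (lt_of_le_of_lt hx (by linarith))) (fun x hx => hbd x hx)
    (x := w.im * I) (y := w) h0 hw
  have h2 : w - w.im * I = (w.re : ℂ) := by
    apply Complex.ext <;> simp
  rw [h2, norm_real, Real.norm_eq_abs] at h1
  have h3 : (El a (w.im * I)).re = 0 := by
    apply re_axis h
    · simpa using hs
    · simp
  have h4 := abs_re_le_norm (El a w - El a (w.im * I))
  rw [sub_re, h3, sub_zero] at h4
  calc |(El a w).re| ≤ K * |w.re| := h4.trans h1
    _ ≤ max K 1 * |w.re| := by gcongr; exact le_max_left _ _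

end strip


/-! ### The data of a pair of parameters -/

/-- Data for the construction of a model conjugacy from `El a` to `El a'`. -/
structure PD {m : ℕ} (a a' : Fin m → ℂ) (s0 c : ℝ) (L L' : ℂ → ℂ) (s t δ : ℝ) (Θ : ℝ → ℝ) :
    Prop where
  h : StripFacts a s0 c L
  h' : StripFacts a' s0 c L'
  hs0 : 0 < s0
  hc : 1 < c
  hs : 0 < s
  hs2 : 2 * s ≤ s0
  ht : s / c < t
  hts : t < s
  bE : ∀ w : ℂ, |w.re| < 2 * s → |(El a w).re| < s0
  bE' : ∀ w : ℂ, |w.re| < 2 * s → |(El a' w).re| < s0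
  cl : ∀ w : ℂ, |w.re| < 2 * s → ‖El a w - El a' w‖ ≤ δ
  hδ0 : 0 ≤ δ
  hδ : δ < c * t - s
  Θsm : ContDiff ℝ ∞ Θ
  Θev : ∀ x, Θ (-x) = Θ x
  Θ0 : ∀ x, 0 ≤ Θ x
  Θ1 : ∀ x, Θ x ≤ 1
  Θin : ∀ x, |x| ≤ t → Θ x = 1
  Θout : ∀ x, s ≤ |x| → Θ x = 0
  Θd : ∀ x, |deriv Θ x| * δ + 2 * δ / s ≤ 1 / 4

/-- The perturbation part of the stage `0` map. -/
noncomputable def H0 (E L' : ℂ → ℂ) (Θ : ℝ → ℝ) (w : ℂ) : ℂ := (Θ w.re : ℂ) * (L' (E w) - w)

/-- The stage `0` map. -/
noncomputable def P0 (E L' : ℂ → ℂ) (Θ : ℝ → ℝ) (w : ℂ) : ℂ := w + H0 E L' Θ w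

open Classical in
/-- One step of the lifting. -/
noncomputable def stp (E L' : ℂ → ℂ) (Θ : ℝ → ℝ) (t : ℝ) (F : ℂ → ℂ) (w : ℂ) : ℂ :=
  if |w.re| ≤ t then L' (F (E w)) else P0 E L' Θ w

section pair

variable {m : ℕ} {a a' : Fin m → ℂ} {s0 c : ℝ} {L L' : ℂ → ℂ} {s t δ : ℝ} {Θ : ℝ → ℝ}

theorem PD.ht0 (p : PD a a' s0 c L L' s t δ Θ) : 0 < t :=
  lt_trans (div_pos p.hs (by linarith [p.hc])) p.ht

theorem PD.lt2 (p : PD a a' s0 c L L' s t δ Θ) {w : ℂ} (hw : |w.re| < 2 * s) :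
    |w.re| < 2 * s0 := by linarith [p.hs2, p.hs0]

theorem PD.lt2' (p : PD a a' s0 c L L' s t δ Θ) {w : ℂ} (hw : |w.re| ≤ t) :
    |w.re| < 2 * s := by linarith [p.hts, p.hs]

theorem PD.lam_eq (p : PD a a' s0 c L L' s t δ Θ) {w : ℂ} (hw : |w.re| < 2 * s) :
    El a' (L' (El a w)) = El a w := (p.h'.L_eq _ (p.bE w hw).le).2

theorem PD.lam_sub (p : PD a a' s0 c L L' s t δ Θ) {w : ℂ} (hw : |w.re| < 2 * s) :
    ‖L' (El a w) - w‖ ≤ δ / c := by
  have h1 : L' (El a' w) = w := p.h'.L_inv w (p.lt2 hw) (p.bE' w hw).le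
  have h2 := p.h'.L_lip (El a w) (El a' w) (p.bE w hw).le (p.bE' w hw).le
  rw [h1] at h2
  refine h2.trans ?_
  have := p.cl w hw
  have hc := p.hc
  gcongr

theorem PD.lam_diffAt (p : PD a a' s0 c L L' s t δ Θ) {w : ℂ} (hw : |w.re| < 2 * s) :
    DifferentiableAt ℂ (fun w => L' (El a w)) w :=
  (L_diffAt p.h' (p.bE w hw)).comp w (El_diffAt p.h (p.lt2 hw))

theorem PD.lam_deriv (p : PD a a' s0 c L L' s t δ Θ) {w : ℂ} (hw : |w.re| ≤ s) :
    ‖deriv (fun w => L' (El a w) - w) w‖ ≤ 2 * δ / s := by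
  have hs := p.hs
  have h1 : DiffContOnCl ℂ (fun w => L' (El a w) - w) (ball w (s / 2)) := by
    apply DifferentiableOn.diffContOnCl
    rw [closure_ball w (by positivity)]
    intro z hz
    have h2 : |z.re| < 2 * s := by
      have h3 : |z.re - w.re| ≤ s / 2 := by
        rw [← sub_re]
        refine (abs_re_le_norm _).trans ?_
        simpa [dist_eq_norm] using hz
      have h4 := abs_sub_abs_le_abs_sub z.re w.re
      linarith
    exact ((p.lam_diffAt h2).sub differentiableAt_id).differentiableWithinAt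
  have h2 := norm_deriv_le_of_forall_mem_sphere_norm_le (C := δ / c) (half_pos hs) h1 (by
    intro z hz
    apply p.lam_sub
    have h3 : |z.re - w.re| ≤ s / 2 := by
      rw [← sub_re]
      refine (abs_re_le_norm _).trans ?_
      have : dist z w = s / 2 := hz
      rw [dist_eq_norm] at this
      exact this.le
    have h4 := abs_sub_abs_le_abs_sub z.re w.re
    linarith)
  refine h2.trans ?_
  have h3 : δ / c ≤ δ := div_le_self p.hδ0 p.hc.le
  calc δ / c / (s / 2) ≤ δ / (s / 2) := by gcongr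
    _ = 2 * δ / s := by field_simp

/-! #### Stage zero -/

theorem PD.H0_out (p : PD a a' s0 c L L' s t δ Θ) {w : ℂ} (hw : s ≤ |w.re|) :
    H0 (El a) L' Θ w = 0 := by
  rw [H0, p.Θout _ hw]; simp

theorem PD.P0_out (p : PD a a' s0 c L L' s t δ Θ) {w : ℂ} (hw : s ≤ |w.re|) :
    P0 (El a) L' Θ w = w := by
  rw [P0, p.H0_out hw, add_zero]

theorem PD.P0_in (p : PD a a' s0 c L L' s t δ Θ) {w : ℂ} (hw : |w.re| ≤ t) :
    P0 (El a) L' Θ w = L' (El a w) := by
  rw [P0, H0, p.Θin _ hw]; simp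

theorem PD.H0_le (p : PD a a' s0 c L L' s t δ Θ) (w : ℂ) :
    ‖H0 (El a) L' Θ w‖ ≤ δ / c := by
  have hc := p.hc
  have hd := p.hδ0
  rcases lt_or_ge (|w.re|) s with hw | hw
  · rw [H0, norm_mul, norm_real, Real.norm_eq_abs, abs_of_nonneg (p.Θ0 _)]
    have h1 := p.lam_sub (w := w) (by linarith [p.hs])
    have h2 := p.Θ1 w.re
    have h3 := p.Θ0 w.re
    have h4 : 0 ≤ ‖L' (El a w) - w‖ := norm_nonneg _
    nlinarith
  · rw [p.H0_out hw, norm_zero]
    positivity

theorem hasFDerivAt_H0 {E L' : ℂ → ℂ} {Θ : ℝ → ℝ} (hΘ : ContDiff ℝ ∞ Θ) {w : ℂ}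
    (hd : DifferentiableAt ℂ (fun w => L' (E w) - w) w) :
    HasFDerivAt (H0 E L' Θ)
      ((Θ w.re : ℂ) • (((ContinuousLinearMap.toSpanSingleton ℂ
          (deriv (fun w => L' (E w) - w) w))).restrictScalars ℝ) +
        (L' (E w) - w) • (ofRealCLM.comp ((deriv Θ w.re) • reCLM))) w := by
  have h1 : HasFDerivAt (fun w : ℂ => (Θ w.re : ℂ)) (ofRealCLM.comp ((deriv Θ w.re) • reCLM)) w := by
    have h2 : HasFDerivAt (fun w : ℂ => Θ w.re) ((deriv Θ w.re) • reCLM) w := by
      have h3 : HasDerivAt Θ (deriv Θ w.re) w.re :=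
        ((hΘ.differentiable (by simp)) w.re).hasDerivAt
      exact h3.comp_hasFDerivAt w reCLM.hasFDerivAt
    exact ofRealCLM.hasFDerivAt.comp w h2
  have h2 : HasFDerivAt (fun w => L' (E w) - w)
      ((ContinuousLinearMap.toSpanSingleton ℂ
          (deriv (fun w => L' (E w) - w) w)).restrictScalars ℝ) w :=
    hd.hasDerivAt.hasFDerivAt.restrictScalars ℝ
  exact h1.mul h2

theorem PD.H0_fderiv (p : PD a a' s0 c L L' s t δ Θ) (w : ℂ) :
    DifferentiableAt ℝ (H0 (El a) L' Θ) w ∧ ‖fderiv ℝ (H0 (El a) L' Θ) w‖ ≤ 1 / 4 := by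
  have hc := p.hc
  have hd := p.hδ0
  have hs := p.hs
  rcases le_or_gt (|w.re|) s with hw | hw
  · have hw2 : |w.re| < 2 * s := by linarith
    have h1 := hasFDerivAt_H0 (E := El a) (L' := L') p.Θsm
      ((p.lam_diffAt hw2).sub differentiableAt_id)
    refine ⟨h1.differentiableAt, ?_⟩
    rw [h1.fderiv]
    refine ContinuousLinearMap.opNorm_le_bound _ (by norm_num) ?_
    intro x
    have e1 : ‖deriv (fun w => L' (El a w) - w) w‖ ≤ 2 * δ / s := p.lam_deriv hw
    have e2 : ‖L' (El a w) - w‖ ≤ δ := (p.lam_sub hw2).trans (div_le_self hd hc.le)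
    have e3 := p.Θd w.re
    have e4 := p.Θ1 w.re
    have e5 := p.Θ0 w.re
    simp only [_root_.add_apply, _root_.smul_apply, ContinuousLinearMap.coe_restrictScalars',
      ContinuousLinearMap.toSpanSingleton_apply, ContinuousLinearMap.comp_apply, smul_eq_mul,
      ofRealCLM_apply, reCLM_apply]
    calc _ ≤ ‖(Θ w.re : ℂ) * (x * deriv (fun w => L' (El a w) - w) w)‖ +
          ‖(L' (El a w) - w) * ((deriv Θ w.re * x.re : ℝ) : ℂ)‖ := norm_add_le _ _
      _ = Θ w.re * (‖x‖ * ‖deriv (fun w => L' (El a w) - w) w‖) +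
          ‖L' (El a w) - w‖ * (|deriv Θ w.re| * |x.re|) := by
        rw [norm_mul, norm_mul, norm_mul, norm_real, norm_real, Real.norm_eq_abs,
          Real.norm_eq_abs, abs_mul, abs_of_nonneg e5]
      _ ≤ 1 * (‖x‖ * (2 * δ / s)) + δ * (|deriv Θ w.re| * ‖x‖) := by
        have := abs_re_le_norm x
        gcongr
      _ = (|deriv Θ w.re| * δ + 2 * δ / s) * ‖x‖ := by ring
      _ ≤ 1 / 4 * ‖x‖ := by gcongr
  · have h1 : H0 (El a) L' Θ =ᶠ[𝓝 w] fun _ => 0 := by
      have h2 : IsOpen {w : ℂ | s < |w.re|} := isOpen_lt continuous_const (by fun_prop)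
      filter_upwards [h2.mem_nhds hw] with x hx
      exact p.H0_out (le_of_lt hx)
    refine ⟨(differentiableAt_const _).congr_of_eventuallyEq h1, ?_⟩
    rw [h1.fderiv_eq]
    simp

theorem PD.H0_lip (p : PD a a' s0 c L L' s t δ Θ) : LipschitzWith (1 / 4) (H0 (El a) L' Θ) := by
  apply lipschitzWith_of_nnnorm_fderiv_le (𝕜 := ℝ)
  · intro w; exact (p.H0_fderiv w).1
  · intro w
    have := (p.H0_fderiv w).2
    rw [← NNReal.coe_le_coe]
    simpa using this

theorem PD.P0_contDiff (p : PD a a' s0 c L L' s t δ Θ) : ContDiff ℝ ∞ (P0 (El a) L' Θ) := by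
  rw [contDiff_iff_contDiffAt]
  intro w
  have hs := p.hs
  apply contDiffAt_id.add
  rcases le_or_gt (|w.re|) s with hw | hw
  · have hw2 : |w.re| < 2 * s := by linarith
    have h1 : ContDiffAt ℂ ∞ (fun w => L' (El a w)) w := by
      have h2 : DifferentiableOn ℂ (fun w => L' (El a w)) {w : ℂ | |w.re| < 2 * s} :=
        fun z hz => (p.lam_diffAt hz).differentiableWithinAt
      exact (h2.contDiffOn (isOpen_strip _)).contDiffAt ((isOpen_strip _).mem_nhds hw2)
    have h3 : ContDiffAt ℝ ∞ (fun w => L' (El a w)) w := h1.restrict_scalars ℝ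
    have h4 : ContDiffAt ℝ ∞ (fun w : ℂ => (Θ w.re : ℂ)) w := by
      have h5 : ContDiffAt ℝ ∞ (fun w : ℂ => Θ w.re) w :=
        p.Θsm.contDiffAt.comp w reCLM.contDiff.contDiffAt
      exact ofRealCLM.contDiff.contDiffAt.comp w h5
    exact h4.mul (h3.sub contDiffAt_id)
  · have h1 : H0 (El a) L' Θ =ᶠ[𝓝 w] fun _ => 0 := by
      have h2 : IsOpen {w : ℂ | s < |w.re|} := isOpen_lt continuous_const (by fun_prop)
      filter_upwards [h2.mem_nhds hw] with x hx
      exact p.H0_out (le_of_lt hx)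
    exact contDiffAt_const.congr_of_eventuallyEq h1

theorem PD.P0_bij (p : PD a a' s0 c L L' s t δ Θ) : Function.Bijective (P0 (El a) L' Θ) := by
  have h1 : ApproximatesLinearOn (P0 (El a) L' Θ) (ContinuousLinearEquiv.refl ℝ ℂ : ℂ →L[ℝ] ℂ)
      univ (1 / 4) := by
    intro x _ y _
    have := p.H0_lip.dist_le_mul x y
    rw [dist_eq_norm, dist_eq_norm] at this
    simp only [P0]
    have h2 : x + H0 (El a) L' Θ x - (y + H0 (El a) L' Θ y) -
        ((ContinuousLinearEquiv.refl ℝ ℂ : ℂ →L[ℝ] ℂ)) (x - y) =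
        H0 (El a) L' Θ x - H0 (El a) L' Θ y := by
      simp
      ring
    rw [h2]
    exact this
  have h2 : (ContinuousLinearEquiv.refl ℝ ℂ).symm = ContinuousLinearEquiv.refl ℝ ℂ := rfl
  have h3 : Subsingleton ℂ ∨ (1 / 4 : NNReal) <
      ‖((ContinuousLinearEquiv.refl ℝ ℂ).symm : ℂ →L[ℝ] ℂ)‖₊⁻¹ := by
    right
    rw [h2, ContinuousLinearEquiv.coe_refl, ContinuousLinearMap.nnnorm_id]
    norm_num
  have h4 := (h1.toHomeomorph (P0 (El a) L' Θ) h3).bijective
  exact h4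



/-! ### Properties of the stages -/

/-- Properties kept by the lifting step. -/
structure Good (s B : ℝ) (F : ℂ → ℂ) : Prop where
  bij : Function.Bijective F
  out : ∀ w : ℂ, s ≤ |w.re| → F w = w
  refl : ∀ w : ℂ, F (-conj w) = -conj (F w)
  per : ∀ w : ℂ, F (w + 2 * Real.pi * I) = F w + 2 * Real.pi * I
  neg : ∀ w : ℂ, (F w).re < 0 ↔ w.re < 0
  zero : F 0 = 0
  smooth : ContDiff ℝ ∞ F
  ne : ∀ w : ℂ, dz F w ≠ 0
  dil : ∀ w : ℂ, ‖dzb F w‖ ≤ 1 / 3 * ‖dz F w‖
  hol : ∃ ε : ℝ, 0 < ε ∧ ∀ w : ℂ, |w.re| < ε → dzb F w = 0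
  bd : ∀ w : ℂ, ‖F w - w‖ ≤ B

theorem Good.lt {s B : ℝ} {F : ℂ → ℂ} (g : Good s B F) {w : ℂ} (hw : |w.re| < s) :
    |(F w).re| < s := by
  by_contra h
  push Not at h
  have h1 := g.bij.1 (g.out (F w) h)
  rw [h1] at h
  linarith

theorem Good.perN {s B : ℝ} {F : ℂ → ℂ} (g : Good s B F) (n : ℕ) (w : ℂ) :
    F (w + n * (2 * Real.pi * I)) = F w + n * (2 * Real.pi * I) := by
  induction n with
  | zero => simp
  | succ n ih =>
    have : w + (n + 1 : ℕ) * (2 * Real.pi * I) =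
      (w + n * (2 * Real.pi * I)) + 2 * Real.pi * I := by push_cast; ring
    rw [this, g.per, ih]
    push_cast
    ring

theorem PD.E_refl (p : PD a a' s0 c L L' s t δ Θ) {w : ℂ} (hw : |w.re| < 2 * s) :
    El a (-conj w) = -conj (El a w) := p.h.refl w (p.lt2 hw)

theorem PD.lam_sub' (p : PD a a' s0 c L L' s t δ Θ) {w : ℂ} (hw : |w.re| < 2 * s) :
    ‖L' (El a w) - w‖ ≤ δ := (p.lam_sub hw).trans (div_le_self p.hδ0 p.hc.le)

theorem PD.c_mul_t (p : PD a a' s0 c L L' s t δ Θ) : s < c * t := by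
  linarith [p.hδ, p.hδ0]

theorem PD.good0 (p : PD a a' s0 c L L' s t δ Θ) :
    Good s (δ / (c - 1)) (P0 (El a) L' Θ) := by
  have hc := p.hc
  have hs := p.hs
  have hd := p.hδ0
  have ht := p.ht0
  have hts := p.hts
  have hrefl : ∀ w : ℂ, P0 (El a) L' Θ (-conj w) = -conj (P0 (El a) L' Θ w) := by
    intro w
    rcases le_or_gt s (|w.re|) with hw | hw
    · rw [p.P0_out hw, p.P0_out (by simpa using hw)]
    · have hw2 : |w.re| < 2 * s := by linarith
      rw [P0, P0, H0, H0, p.E_refl hw2, L_refl p.h' p.hs0 hc (p.bE w hw2).le]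
      simp only [neg_re, conj_re, p.Θev, map_add, map_mul, map_sub, conj_ofReal]
      ring
  have hlneg : ∀ w : ℂ, |w.re| < 2 * s → ((L' (El a w)).re < 0 ↔ w.re < 0) := by
    intro w hw
    rw [L_neg_iff p.h' p.hs0 hc (p.bE w hw).le, re_neg_iff p.h (by linarith) (p.lt2 hw)]
  have hmix : ∀ w : ℂ, (P0 (El a) L' Θ w).re =
      (1 - Θ w.re) * w.re + Θ w.re * (L' (El a w)).re := by
    intro w
    rw [P0, H0]
    simp
    ring
  have hn1 : ∀ w : ℂ, w.re < 0 → (P0 (El a) L' Θ w).re < 0 := by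
    intro w hw
    rcases le_or_gt s (|w.re|) with hw1 | hw1
    · rw [p.P0_out hw1]; exact hw
    · have h1 := (hlneg w (by linarith)).mpr hw
      rw [hmix]
      have h2 := p.Θ0 w.re
      have h3 := p.Θ1 w.re
      rcases eq_or_lt_of_le h2 with h4 | h4
      · rw [← h4]; simpa using hw
      · nlinarith
  have hn2 : ∀ w : ℂ, 0 ≤ w.re → 0 ≤ (P0 (El a) L' Θ w).re := by
    intro w hw
    rcases le_or_gt s (|w.re|) with hw1 | hw1
    · rw [p.P0_out hw1]; exact hw
    · have h1 : 0 ≤ (L' (El a w)).re := by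
        by_contra h
        push Not at h
        have := (hlneg w (by linarith)).mp h
        linarith
      rw [hmix]
      have h2 := p.Θ0 w.re
      have h3 := p.Θ1 w.re
      have h4 : 0 ≤ 1 - Θ w.re := by linarith
      positivity
  have hDz : ∀ w : ℂ, dz (P0 (El a) L' Θ) w = 1 + dz (H0 (El a) L' Θ) w ∧
      dzb (P0 (El a) L' Θ) w = dzb (H0 (El a) L' Θ) w := by
    intro w
    have h1 := dz_add (F := fun w => w) (G := H0 (El a) L' Θ) (z := w)
      differentiableAt_id (p.H0_fderiv w).1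
    rw [(dz_id w).1, (dz_id w).2, zero_add] at h1
    exact h1
  have hDb : ∀ w : ℂ, 3 / 4 ≤ ‖dz (P0 (El a) L' Θ) w‖ ∧ ‖dzb (P0 (El a) L' Θ) w‖ ≤ 1 / 4 := by
    intro w
    have h1 := norm_dz_le (H0 (El a) L' Θ) w
    have h2 := (p.H0_fderiv w).2
    rw [(hDz w).1, (hDz w).2]
    constructor
    · have h3 := norm_sub_norm_le (1 : ℂ) (-dz (H0 (El a) L' Θ) w)
      rw [norm_one, norm_neg, sub_neg_eq_add] at h3
      linarith [h1.1]
    · linarith [h1.2]
  refine ⟨p.P0_bij, fun w hw => p.P0_out hw, hrefl, ?_, ?_, ?_, p.P0_contDiff, ?_, ?_, ?_, ?_⟩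
  · intro w
    have hre : (w + 2 * Real.pi * I).re = w.re := by simp
    rcases le_or_gt s (|w.re|) with hw | hw
    · rw [p.P0_out hw, p.P0_out (by rw [hre]; exact hw)]
    · have hw2 : |w.re| < 2 * s := by linarith
      rw [P0, P0, H0, H0, p.h.per, p.h'.L_per _ (p.bE w hw2).le, hre]
      ring
  · intro w
    constructor
    · intro h1
      by_contra h2
      push Not at h2
      linarith [hn2 w h2]
    · exact hn1 w
  · have h0 : |(0 : ℂ).re| ≤ t := by simpa using ht.le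
    have h1 : |(0 : ℂ).re| < 2 * s0 := by simpa using p.hs0
    have h2 : |(El a' 0).re| ≤ s0 := by rw [p.h'.zero]; simpa using p.hs0.le
    rw [p.P0_in h0, p.h.zero]
    have h3 := p.h'.L_inv 0 h1 h2
    rwa [p.h'.zero] at h3
  · intro w h0
    have := (hDb w).1
    rw [h0, norm_zero] at this
    linarith
  · intro w
    have := hDb w
    linarith [this.1, this.2]
  · refine ⟨t, ht, fun w hw => ?_⟩
    have h1 : P0 (El a) L' Θ =ᶠ[𝓝 w] fun w => L' (El a w) := by
      filter_upwards [(isOpen_strip t).mem_nhds hw] with x hx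
      exact p.P0_in (le_of_lt hx)
    rw [(dz_congr h1).2]
    exact (dzb_eq_zero_of_differentiableAt (p.lam_diffAt (by
      have : |w.re| < t := hw
      linarith))).1
  · intro w
    have h1 := p.H0_le w
    rw [P0, add_sub_cancel_left]
    refine h1.trans ?_
    apply div_le_div_of_nonneg_left hd (by linarith) (by linarith)

/-! #### The lifting step -/

theorem PD.stp_out (_p : PD a a' s0 c L L' s t δ Θ) {F : ℂ → ℂ} {w : ℂ} (hw : t < |w.re|) :
    stp (El a) L' Θ t F w = P0 (El a) L' Θ w := by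
  rw [stp, if_neg (not_le.mpr hw)]

theorem PD.stp_in (_p : PD a a' s0 c L L' s t δ Θ) {F : ℂ → ℂ} {w : ℂ} (hw : |w.re| ≤ t) :
    stp (El a) L' Θ t F w = L' (F (El a w)) := by
  rw [stp, if_pos hw]

/-- The two definitions agree when `El a w` is outside of the small strip. -/
theorem PD.stp_eq (p : PD a a' s0 c L L' s t δ Θ) {F : ℂ → ℂ} {B : ℝ} (g : Good s B F) {w : ℂ}
    (_hw : |w.re| < 2 * s) (hE : s ≤ |(El a w).re|) :
    stp (El a) L' Θ t F w = P0 (El a) L' Θ w := by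
  rcases le_or_gt (|w.re|) t with h | h
  · rw [stp_in p h, p.P0_in h, g.out _ hE]
  · exact stp_out p h

theorem PD.s_le (p : PD a a' s0 c L L' s t δ Θ) {w : ℂ} (hw : |w.re| < 2 * s)
    (h : s / c ≤ |w.re|) : s ≤ |(El a w).re| := by
  have hc := p.hc
  have h1 := abs_re_ge p.h (by linarith) (p.lt2 hw)
  have h2 : s ≤ c * |w.re| := by
    rw [div_le_iff₀ (by linarith)] at h
    linarith
  linarith

theorem PD.stp_eq' (p : PD a a' s0 c L L' s t δ Θ) {F : ℂ → ℂ} {B : ℝ} (g : Good s B F) {w : ℂ}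
    (h : s / c ≤ |w.re|) :
    stp (El a) L' Θ t F w = P0 (El a) L' Θ w := by
  rcases le_or_gt (|w.re|) t with h1 | h1
  · exact p.stp_eq g (p.lt2' h1) (p.s_le (p.lt2' h1) h)
  · exact stp_out p h1

theorem PD.F_lt (p : PD a a' s0 c L L' s t δ Θ) {F : ℂ → ℂ} {B : ℝ} (g : Good s B F) {w : ℂ}
    (hw : |w.re| ≤ t) : |(F (El a w)).re| < s0 := by
  rcases lt_or_ge (|(El a w).re|) s with h | h
  · have := g.lt h
    linarith [p.hs2, p.hs]
  · rw [g.out _ h]
    exact p.bE w (p.lt2' hw)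

theorem PD.E'_stp (p : PD a a' s0 c L L' s t δ Θ) {F : ℂ → ℂ} {B : ℝ} (g : Good s B F) {w : ℂ}
    (hw : |w.re| ≤ t) : El a' (stp (El a) L' Θ t F w) = F (El a w) := by
  rw [stp_in p hw]
  exact (p.h'.L_eq _ (p.F_lt g hw).le).2

/-- Far from the axis, `P0` is far from the axis. -/
theorem PD.P0_far (p : PD a a' s0 c L L' s t δ Θ) {w : ℂ} (hw : t < |w.re|) :
    s / c < |(P0 (El a) L' Θ w).re| := by
  have hc := p.hc
  have h1 := p.H0_le w
  have h2 : |(H0 (El a) L' Θ w).re| ≤ δ / c := (abs_re_le_norm _).trans h1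
  have h3 : (P0 (El a) L' Θ w).re = w.re + (H0 (El a) L' Θ w).re := by simp [P0]
  have h4 : |w.re| - |(H0 (El a) L' Θ w).re| ≤ |w.re + (H0 (El a) L' Θ w).re| := by
    have := abs_sub_abs_le_abs_sub w.re (-(H0 (El a) L' Θ w).re)
    rwa [abs_neg, sub_neg_eq_add] at this
  have h5 : δ / c < t - s / c := by
    rw [lt_sub_iff_add_lt, ← add_div, div_lt_iff₀ (by linarith)]
    linarith [p.hδ]
  rw [h3]
  linarith

theorem PD.stp_inj (p : PD a a' s0 c L L' s t δ Θ) {F : ℂ → ℂ} {B : ℝ} (g : Good s B F) :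
    Function.Injective (stp (El a) L' Θ t F) := by
  have hc := p.hc
  -- the mixed case
  have mixed : ∀ w₁ w₂ : ℂ, |w₁.re| ≤ t → t < |w₂.re| →
      stp (El a) L' Θ t F w₁ = stp (El a) L' Θ t F w₂ → w₁ = w₂ := by
    intro w₁ w₂ h1 h2 he
    rcases lt_or_ge (|(El a w₁).re|) s with h3 | h3
    · exfalso
      have h4 := g.lt h3
      rw [← p.E'_stp g h1] at h4
      have h5 : |(stp (El a) L' Θ t F w₁).re| < 2 * s0 := by
        rw [stp_in p h1]
        exact L_lt p.h' p.hs0 hc (p.F_lt g h1).le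
      have h6 := abs_re_ge p.h' (by linarith) h5
      rw [he, stp_out p h2] at h6 h4
      have h7 := p.P0_far h2
      rw [div_lt_iff₀ (by linarith)] at h7
      linarith
    · rw [p.stp_eq g (p.lt2' h1) h3, stp_out p h2] at he
      exact p.P0_bij.1 he
  intro w₁ w₂ he
  rcases le_or_gt (|w₁.re|) t with h1 | h1 <;> rcases le_or_gt (|w₂.re|) t with h2 | h2
  · have h3 : F (El a w₁) = F (El a w₂) := by
      rw [← p.E'_stp g h1, ← p.E'_stp g h2, he]
    have h4 := g.bij.1 h3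
    have h5 := p.h.L_inv w₁ (p.lt2 (p.lt2' h1)) (p.bE w₁ (p.lt2' h1)).le
    have h6 := p.h.L_inv w₂ (p.lt2 (p.lt2' h2)) (p.bE w₂ (p.lt2' h2)).le
    rw [← h5, ← h6, h4]
  · exact mixed w₁ w₂ h1 h2 he
  · exact (mixed w₂ w₁ h2 h1 he.symm).symm
  · rw [stp_out p h1, stp_out p h2] at he
    exact p.P0_bij.1 he

theorem PD.stp_surj (p : PD a a' s0 c L L' s t δ Θ) {F : ℂ → ℂ} {B : ℝ} (g : Good s B F) :
    Function.Surjective (stp (El a) L' Θ t F) := by
  have hc := p.hc
  have hs := p.hs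
  intro v
  obtain ⟨w₀, hw₀⟩ := p.P0_bij.2 v
  rcases le_or_gt (|w₀.re|) t with h1 | h1
  · have h2 : |w₀.re| < 2 * s := p.lt2' h1
    rcases lt_or_ge (|(El a w₀).re|) s with h3 | h3
    · rw [p.P0_in h1] at hw₀
      have h4 : El a' v = El a w₀ := by rw [← hw₀, p.lam_eq h2]
      obtain ⟨u, hu⟩ := g.bij.2 (El a w₀)
      have h5 : |u.re| < s := by
        by_contra h
        push Not at h
        rw [g.out u h] at hu
        rw [hu] at h
        linarith
      have h6 : |u.re| ≤ s0 := by linarith [p.hs2]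
      have h7 := p.h.L_eq u h6
      have h8 : |(L u).re| ≤ t := by
        have : |u.re| / c ≤ s / c := by gcongr
        linarith [p.ht]
      refine ⟨L u, ?_⟩
      rw [stp_in p h8, h7.2, hu, hw₀]
    · exact ⟨w₀, by rw [p.stp_eq g h2 h3, hw₀]⟩
  · exact ⟨w₀, by rw [stp_out p h1, hw₀]⟩

theorem PD.stp_lt (p : PD a a' s0 c L L' s t δ Θ) {F : ℂ → ℂ} {B : ℝ} (g : Good s B F) {w : ℂ}
    (hw : |w.re| ≤ t) : |(L' (F (El a w))).re| < 2 * s0 :=
  L_lt p.h' p.hs0 p.hc (p.F_lt g hw).le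

theorem PD.good_step (p : PD a a' s0 c L L' s t δ Θ) {F : ℂ → ℂ}
    (g : Good s (δ / (c - 1)) F) : Good s (δ / (c - 1)) (stp (El a) L' Θ t F) := by
  have hc := p.hc
  have hs := p.hs
  have hd := p.hδ0
  have ht := p.ht0
  have hts := p.hts
  have g0 := p.good0
  have hnear1 : ∀ w : ℂ, |w.re| < t →
      stp (El a) L' Θ t F =ᶠ[𝓝 w] (L' ∘ (F ∘ El a)) := by
    intro w hw
    filter_upwards [(isOpen_strip t).mem_nhds hw] with x hx
    exact stp_in p (le_of_lt hx)
  have hnear2 : ∀ w : ℂ, t ≤ |w.re| →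
      stp (El a) L' Θ t F =ᶠ[𝓝 w] P0 (El a) L' Θ := by
    intro w hw
    have h2 : IsOpen {w : ℂ | s / c < |w.re|} := isOpen_lt continuous_const (by fun_prop)
    filter_upwards [h2.mem_nhds (lt_of_lt_of_le p.ht hw)] with x hx
    exact p.stp_eq' g (le_of_lt hx)
  have hDz : ∀ w : ℂ, |w.re| < t →
      dz (stp (El a) L' Θ t F) w = deriv L' (F (El a w)) * (dz F (El a w) * deriv (El a) w) ∧
      dzb (stp (El a) L' Θ t F) w =
        deriv L' (F (El a w)) * (dzb F (El a w) * conj (deriv (El a) w)) := by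
    intro w hw
    have hE := El_diffAt p.h (p.lt2 (p.lt2' hw.le))
    have hL := L_diffAt p.h' (p.F_lt g hw.le)
    have hF : DifferentiableAt ℝ F (El a w) := (g.smooth.differentiable (by simp)) _
    have h1 := dz_comp (F := F) (G := El a) (z := w) hF (hE.restrictScalars ℝ)
    have h2 := dz_comp (F := L') (G := F ∘ El a) (z := w) (hL.restrictScalars ℝ)
      (hF.comp w (hE.restrictScalars ℝ))
    have h3 := dzb_eq_zero_of_differentiableAt hE
    have h4 := dzb_eq_zero_of_differentiableAt hL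
    rw [h1.1, h1.2, h3.1, h3.2] at h2
    have h5 : (F ∘ El a) w = F (El a w) := rfl
    rw [h5, h4.1, h4.2] at h2
    have h6 := dz_congr (hnear1 w hw)
    rw [h6.1, h6.2, h2.1, h2.2]
    constructor <;> simp
  refine ⟨⟨p.stp_inj g, p.stp_surj g⟩, ?_, ?_, ?_, ?_, ?_, ?_, ?_, ?_, ?_, ?_⟩
  · intro w hw
    rw [stp_out p (by linarith), p.P0_out hw]
  · intro w
    rcases le_or_gt (|w.re|) t with hw | hw
    · rw [stp_in p hw, stp_in p (w := -conj w) (by simpa using hw), p.E_refl (p.lt2' hw), g.refl,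
        L_refl p.h' p.hs0 hc (p.F_lt g hw).le]
    · rw [stp_out p hw, stp_out p (by simpa using hw)]
      exact g0.refl w
  · intro w
    have hre : (w + 2 * Real.pi * I).re = w.re := by simp
    rcases le_or_gt (|w.re|) t with hw | hw
    · rw [stp_in p hw, stp_in p (w := w + 2 * Real.pi * I) (by rw [hre]; exact hw), p.h.per]
      have h1 := g.perN (m + 1) (El a w)
      push_cast at h1
      rw [h1]
      exact p.h'.L_per _ (p.F_lt g hw).le
    · rw [stp_out p hw, stp_out p (by rw [hre]; exact hw)]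
      exact g0.per w
  · intro w
    rcases le_or_gt (|w.re|) t with hw | hw
    · rw [stp_in p hw, L_neg_iff p.h' p.hs0 hc (p.F_lt g hw).le, g.neg,
        re_neg_iff p.h (by linarith) (p.lt2 (p.lt2' hw))]
    · rw [stp_out p hw]
      exact g0.neg w
  · have h0 : |(0 : ℂ).re| ≤ t := by simpa using ht.le
    have h1 := g0.zero
    rw [p.P0_in h0, p.h.zero] at h1
    rw [stp_in p h0, p.h.zero, g.zero, h1]
  · rw [contDiff_iff_contDiffAt]
    intro w
    rcases lt_or_ge (|w.re|) t with hw | hw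
    · refine ContDiffAt.congr_of_eventuallyEq ?_ (hnear1 w hw)
      have e1 : ContDiffAt ℝ ∞ L' (F (El a w)) := by
        have h1 : ContDiffAt ℂ ∞ L' (F (El a w)) :=
          (p.h'.L_diff.contDiffOn (isOpen_strip _)).contDiffAt
            ((isOpen_strip _).mem_nhds (p.F_lt g hw.le))
        exact h1.restrict_scalars ℝ
      have e2 : ContDiffAt ℝ ∞ (El a) w := by
        have h1 : ContDiffAt ℂ ∞ (El a) w :=
          (p.h.diff.contDiffOn (isOpen_strip _)).contDiffAt
            ((isOpen_strip _).mem_nhds (p.lt2 (p.lt2' hw.le)))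
        exact h1.restrict_scalars ℝ
      exact ContDiffAt.comp w e1 (g.smooth.contDiffAt.comp w e2)
    · exact g0.smooth.contDiffAt.congr_of_eventuallyEq (hnear2 w hw)
  · intro w
    rcases lt_or_ge (|w.re|) t with hw | hw
    · rw [(hDz w hw).1]
      exact mul_ne_zero (L_deriv_ne p.h' p.hs0 hc (p.F_lt g hw.le))
        (mul_ne_zero (g.ne _) (El_deriv_ne p.h hc (p.lt2 (p.lt2' hw.le))))
    · rw [(dz_congr (hnear2 w hw)).1]
      exact g0.ne w
  · intro w
    rcases lt_or_ge (|w.re|) t with hw | hw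
    · rw [(hDz w hw).1, (hDz w hw).2, norm_mul, norm_mul, norm_mul, norm_mul, RCLike.norm_conj]
      have h1 := g.dil (El a w)
      have h2 : ‖dzb F (El a w)‖ * ‖deriv (El a) w‖ ≤
          1 / 3 * ‖dz F (El a w)‖ * ‖deriv (El a) w‖ := by gcongr
      calc _ ≤ ‖deriv L' (F (El a w))‖ * (1 / 3 * ‖dz F (El a w)‖ * ‖deriv (El a) w‖) := by
            gcongr
        _ = _ := by ring
    · rw [(dz_congr (hnear2 w hw)).1, (dz_congr (hnear2 w hw)).2]
      exact g0.dil w
  · obtain ⟨ε, hε, h1⟩ := g.hol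
    obtain ⟨K, hK, h2⟩ := exists_lip p.h p.hs0
    have hK0 : 0 < K := by linarith
    refine ⟨min t (ε / K), lt_min ht (by positivity), fun w hw => ?_⟩
    have hw1 : |w.re| < t := lt_of_lt_of_le hw (min_le_left _ _)
    have hw2 : |w.re| < ε / K := lt_of_lt_of_le hw (min_le_right _ _)
    rw [(hDz w hw1).2, h1 (El a w), zero_mul, mul_zero]
    have h3 := h2 w (by linarith [p.hs2])
    rw [lt_div_iff₀ hK0] at hw2
    linarith
  · intro w
    rcases le_or_gt (|w.re|) t with hw | hw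
    · have hw2 := p.lt2' hw
      rw [stp_in p hw]
      have h1 : L' (El a' w) = w := p.h'.L_inv w (p.lt2 hw2) (p.bE' w hw2).le
      have h2 := p.h'.L_lip (F (El a w)) (El a' w) (p.F_lt g hw).le (p.bE' w hw2).le
      rw [h1] at h2
      have h3 : ‖F (El a w) - El a' w‖ ≤ δ / (c - 1) + δ := by
        calc ‖F (El a w) - El a' w‖ = ‖(F (El a w) - El a w) + (El a w - El a' w)‖ := by
              congr 1; ring
          _ ≤ ‖F (El a w) - El a w‖ + ‖El a w - El a' w‖ := norm_add_le _ _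
          _ ≤ _ := add_le_add (g.bd _) (p.cl w hw2)
      have h4 : (δ / (c - 1) + δ) / c = δ / (c - 1) := by
        have : c - 1 ≠ 0 := by linarith
        field_simp
        ring
      calc _ ≤ ‖F (El a w) - El a' w‖ / c := h2
        _ ≤ (δ / (c - 1) + δ) / c := by gcongr
        _ = _ := h4
    · rw [stp_out p hw]
      exact g0.bd w

/-! ### The sequence of stages and its limit -/

/-- The stages. -/
noncomputable def Ps (E L' : ℂ → ℂ) (Θ : ℝ → ℝ) (t : ℝ) : ℕ → ℂ → ℂ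
  | 0 => P0 E L' Θ
  | j + 1 => stp E L' Θ t (Ps E L' Θ t j)

/-- The limit. -/
noncomputable def Pl (E L' : ℂ → ℂ) (Θ : ℝ → ℝ) (t : ℝ) (w : ℂ) : ℂ :=
  limUnder atTop (fun j => Ps E L' Θ t j w)

theorem PD.good (p : PD a a' s0 c L L' s t δ Θ) (j : ℕ) :
    Good s (δ / (c - 1)) (Ps (El a) L' Θ t j) := by
  induction j with
  | zero => exact p.good0
  | succ j ih => exact p.good_step ih

theorem proper_of_bd {F : ℂ → ℂ} {B : ℝ} (hc : Continuous F) (h : ∀ w, ‖F w - w‖ ≤ B) :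
    IsProperMap F := by
  rw [isProperMap_iff_tendsto_cocompact]
  refine ⟨hc, ?_⟩
  rw [← Metric.cobounded_eq_cocompact, ← tendsto_norm_atTop_iff_cobounded]
  have h1 : Tendsto (fun w : ℂ => ‖w‖ - B) (Bornology.cobounded ℂ) atTop :=
    tendsto_atTop_add_const_right _ (-B) tendsto_norm_cobounded_atTop
  refine tendsto_atTop_mono ?_ h1
  intro w
  have h2 := norm_sub_norm_le w (F w)
  rw [norm_sub_rev] at h2
  linarith [h w]

theorem exists_homeo {F : ℂ → ℂ} {B : ℝ} (hc : Continuous F) (hb : Function.Bijective F)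
    (h : ∀ w, ‖F w - w‖ ≤ B) : ∃ H : ℂ ≃ₜ ℂ, ∀ w, H w = F w := by
  have h1 : IsHomeomorph F := isHomeomorph_iff_continuous_isClosedMap_bijective.mpr
    ⟨hc, (proper_of_bd hc h).isClosedMap, hb⟩
  exact ⟨h1.homeomorph, fun w => rfl⟩

theorem PD.stab1 (p : PD a a' s0 c L L' s t δ Θ) (j : ℕ) :
    ∀ w : ℂ, s / c ^ j ≤ |w.re| → Ps (El a) L' Θ t (j + 1) w = Ps (El a) L' Θ t j w := by
  have hc := p.hc
  induction j with
  | zero =>
    intro w hw
    rw [pow_zero, div_one] at hw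
    exact p.stp_out (by linarith [p.hts])
  | succ j ih =>
    intro w hw
    rcases le_or_gt (|w.re|) t with h | h
    · show stp (El a) L' Θ t _ w = stp (El a) L' Θ t _ w
      rw [p.stp_in h, p.stp_in h, ih (El a w)]
      have h1 := abs_re_ge p.h (by linarith) (p.lt2 (p.lt2' h))
      refine le_trans ?_ h1
      have h2 : s / c ^ j = c * (s / c ^ (j + 1)) := by
        have : c ≠ 0 := by linarith
        field_simp
        ring
      rw [h2]
      gcongr
    · show stp (El a) L' Θ t _ w = stp (El a) L' Θ t _ w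
      rw [p.stp_out h, p.stp_out h]

theorem PD.stab2 (p : PD a a' s0 c L L' s t δ Θ) (j k : ℕ) {w : ℂ} (hw : s / c ^ j ≤ |w.re|) :
    Ps (El a) L' Θ t (j + k) w = Ps (El a) L' Θ t j w := by
  have hc := p.hc
  have hs := p.hs
  induction k with
  | zero => rfl
  | succ k ih =>
    rw [← ih, ← add_assoc]
    apply p.stab1
    refine le_trans ?_ hw
    apply div_le_div_of_nonneg_left hs.le (by positivity)
    exact pow_le_pow_right₀ hc.le (by omega)

theorem PD.cauchy1 (p : PD a a' s0 c L L' s t δ Θ) (j : ℕ) :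
    ∀ w : ℂ, ‖Ps (El a) L' Θ t (j + 1) w - Ps (El a) L' Θ t j w‖ ≤
      2 * (δ / (c - 1)) * (1 / c) ^ j := by
  have hc := p.hc
  have hd := p.hδ0
  induction j with
  | zero =>
    intro w
    rw [pow_zero, mul_one]
    have h1 := (p.good 1).bd w
    have h2 := (p.good 0).bd w
    have h3 := norm_sub_le_norm_sub_add_norm_sub (Ps (El a) L' Θ t (0 + 1) w) w
      (Ps (El a) L' Θ t 0 w)
    rw [norm_sub_rev w] at h3
    have h4 : Ps (El a) L' Θ t (0 + 1) w = Ps (El a) L' Θ t 1 w := rfl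
    rw [h4] at h3 ⊢
    linarith
  | succ j ih =>
    intro w
    have hc1 : 0 < c - 1 := by linarith
    rcases le_or_gt (|w.re|) t with h | h
    · have e1 : Ps (El a) L' Θ t (j + 1 + 1) w = L' (Ps (El a) L' Θ t (j + 1) (El a w)) :=
        p.stp_in h
      have e2 : Ps (El a) L' Θ t (j + 1) w = L' (Ps (El a) L' Θ t j (El a w)) := p.stp_in h
      rw [e1, e2]
      refine (p.h'.L_lip _ _ (p.F_lt (p.good (j + 1)) h).le (p.F_lt (p.good j) h).le).trans ?_
      have h1 := ih (El a w)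
      calc _ ≤ 2 * (δ / (c - 1)) * (1 / c) ^ j / c := by gcongr
        _ = _ := by rw [pow_succ]; ring
    · have e1 : Ps (El a) L' Θ t (j + 1 + 1) w = P0 (El a) L' Θ w := p.stp_out h
      have e2 : Ps (El a) L' Θ t (j + 1) w = P0 (El a) L' Θ w := p.stp_out h
      rw [e1, e2, sub_self, norm_zero]
      positivity

theorem PD.lim_tendsto (p : PD a a' s0 c L L' s t δ Θ) (w : ℂ) :
    Tendsto (fun j => Ps (El a) L' Θ t j w) atTop (𝓝 (Pl (El a) L' Θ t w)) := by
  have hc := p.hc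
  have h1 : CauchySeq (fun j => Ps (El a) L' Θ t j w) := by
    apply cauchySeq_of_le_geometric (1 / c) (2 * (δ / (c - 1)))
    · rw [div_lt_one (by linarith)]; exact hc
    · intro j
      rw [dist_eq_norm, norm_sub_rev]
      exact p.cauchy1 j w
  exact tendsto_nhds_limUnder (cauchySeq_tendsto_of_complete h1)

theorem PD.lim_dist (p : PD a a' s0 c L L' s t δ Θ) (j : ℕ) (w : ℂ) :
    dist (Ps (El a) L' Θ t j w) (Pl (El a) L' Θ t w) ≤
      2 * (δ / (c - 1)) * (1 / c) ^ j / (1 - 1 / c) := by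
  have hc := p.hc
  apply dist_le_of_le_geometric_of_tendsto (1 / c) (2 * (δ / (c - 1))) _ _ (p.lim_tendsto w)
  · rw [div_lt_one (by linarith)]; exact hc
  · intro j
    rw [dist_eq_norm, norm_sub_rev]
    exact p.cauchy1 j w

theorem PD.rate (p : PD a a' s0 c L L' s t δ Θ) :
    Tendsto (fun j : ℕ => 2 * (δ / (c - 1)) * (1 / c) ^ j / (1 - 1 / c)) atTop (𝓝 0) := by
  have hc := p.hc
  have h1 : Tendsto (fun j : ℕ => (1 / c) ^ j) atTop (𝓝 0) := by
    apply tendsto_pow_atTop_nhds_zero_of_lt_one (by positivity)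
    rw [div_lt_one (by linarith)]; exact hc
  have h2 := (h1.const_mul (2 * (δ / (c - 1)))).div_const (1 - 1 / c)
  simpa using h2

theorem PD.lim_unif (p : PD a a' s0 c L L' s t δ Θ) :
    TendstoUniformly (Ps (El a) L' Θ t) (Pl (El a) L' Θ t) atTop := by
  rw [Metric.tendstoUniformly_iff]
  intro ε hε
  filter_upwards [p.rate.eventually_lt_const hε] with j hj w
  rw [dist_comm]
  exact (p.lim_dist j w).trans_lt hj

theorem PD.lim_cont (p : PD a a' s0 c L L' s t δ Θ) : Continuous (Pl (El a) L' Θ t) :=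
  p.lim_unif.continuous (Frequently.of_forall fun j => (p.good j).smooth.continuous)

theorem PD.lim_bd (p : PD a a' s0 c L L' s t δ Θ) (w : ℂ) :
    ‖Pl (El a) L' Θ t w - w‖ ≤ δ / (c - 1) := by
  have h1 := ((p.lim_tendsto w).sub_const w).norm
  exact le_of_tendsto h1 (Eventually.of_forall fun j => (p.good j).bd w)

theorem PD.lim_stab (p : PD a a' s0 c L L' s t δ Θ) (j : ℕ) {w : ℂ} (hw : s / c ^ j ≤ |w.re|) :
    Pl (El a) L' Θ t w = Ps (El a) L' Θ t j w := by
  have h1 := p.lim_tendsto w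
  have h2 : Tendsto (fun k => Ps (El a) L' Θ t k w) atTop (𝓝 (Ps (El a) L' Θ t j w)) := by
    apply tendsto_const_nhds.congr'
    filter_upwards [eventually_ge_atTop j] with k hk
    obtain ⟨i, rfl⟩ := Nat.exists_eq_add_of_le hk
    exact (p.stab2 j i hw).symm
  exact tendsto_nhds_unique h1 h2

theorem PD.exists_j (p : PD a a' s0 c L L' s t δ Θ) {ε : ℝ} (hε : 0 < ε) :
    ∃ j : ℕ, s / c ^ j ≤ ε := by
  have hc := p.hc
  obtain ⟨j, hj⟩ := pow_unbounded_of_one_lt (s / ε) hc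
  refine ⟨j, ?_⟩
  rw [div_le_iff₀ (by positivity)]
  rw [div_lt_iff₀ hε] at hj
  linarith

theorem PD.lim_refl (p : PD a a' s0 c L L' s t δ Θ) (w : ℂ) :
    Pl (El a) L' Θ t (-conj w) = -conj (Pl (El a) L' Θ t w) := by
  have h1 := p.lim_tendsto (-conj w)
  have h2 : Tendsto (fun j => -conj (Ps (El a) L' Θ t j w)) atTop
      (𝓝 (-conj (Pl (El a) L' Θ t w))) :=
    ((continuous_conj.tendsto _).comp (p.lim_tendsto w)).neg
  refine tendsto_nhds_unique h1 (h2.congr fun j => ?_)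
  exact ((p.good j).refl w).symm

theorem PD.lim_per (p : PD a a' s0 c L L' s t δ Θ) (w : ℂ) :
    Pl (El a) L' Θ t (w + 2 * Real.pi * I) = Pl (El a) L' Θ t w + 2 * Real.pi * I := by
  have h1 := p.lim_tendsto (w + 2 * Real.pi * I)
  have h2 := (p.lim_tendsto w).add_const (2 * Real.pi * I)
  refine tendsto_nhds_unique h1 (h2.congr fun j => ?_)
  exact ((p.good j).per w).symm

theorem PD.lim_zero (p : PD a a' s0 c L L' s t δ Θ) : Pl (El a) L' Θ t 0 = 0 := by
  have h1 := p.lim_tendsto 0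
  refine tendsto_nhds_unique h1 (tendsto_const_nhds.congr fun j => ?_)
  exact (p.good j).zero.symm

theorem Good.axis {s B : ℝ} {F : ℂ → ℂ} (g : Good s B F) {w : ℂ} (hw : w.re = 0) :
    (F w).re = 0 := by
  have h1 := g.neg w
  have h2 := g.neg (-conj w)
  rw [g.refl w] at h2
  simp only [neg_re, conj_re, hw] at h1 h2
  simp only [neg_zero, lt_irrefl, iff_false, not_lt] at h1 h2
  linarith

theorem PD.lim_axis (p : PD a a' s0 c L L' s t δ Θ) {w : ℂ} (hw : w.re = 0) :
    (Pl (El a) L' Θ t w).re = 0 := by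
  have h1 := (continuous_re.tendsto _).comp (p.lim_tendsto w)
  refine tendsto_nhds_unique h1 (tendsto_const_nhds.congr fun j => ?_)
  exact ((p.good j).axis hw).symm

theorem PD.lim_neg (p : PD a a' s0 c L L' s t δ Θ) (w : ℂ) :
    (Pl (El a) L' Θ t w).re < 0 ↔ w.re < 0 := by
  rcases eq_or_ne w.re 0 with hw | hw
  · rw [p.lim_axis hw, hw]
  · obtain ⟨j, hj⟩ := p.exists_j (abs_pos.mpr hw)
    rw [p.lim_stab j hj]
    exact (p.good j).neg w

theorem PD.lim_axis' (p : PD a a' s0 c L L' s t δ Θ) {w : ℂ}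
    (hw : (Pl (El a) L' Θ t w).re = 0) : w.re = 0 := by
  have h1 := p.lim_neg w
  have h2 := p.lim_neg (-conj w)
  rw [p.lim_refl w] at h2
  simp only [neg_re, conj_re, hw] at h1 h2
  simp only [neg_zero, lt_irrefl, false_iff, not_lt] at h1 h2
  linarith

theorem PD.lim_conj (p : PD a a' s0 c L L' s t δ Θ) {w : ℂ} (hw : w.re = 0) :
    El a' (Pl (El a) L' Θ t w) = Pl (El a) L' Θ t (El a w) := by
  have h1 := p.lim_tendsto (El a w)
  have h0 : |(Pl (El a) L' Θ t w).re| < 2 * s0 := by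
    rw [p.lim_axis hw]; simpa using p.hs0
  have h2 : Tendsto (fun j => El a' (Ps (El a) L' Θ t (j + 1) w)) atTop
      (𝓝 (El a' (Pl (El a) L' Θ t w))) :=
    (El_diffAt p.h' h0).continuousAt.tendsto.comp ((tendsto_add_atTop_iff_nat 1).mpr (p.lim_tendsto w))
  refine tendsto_nhds_unique h2 (h1.congr fun j => ?_)
  have h3 : |w.re| ≤ t := by rw [hw]; simpa using p.ht0.le
  exact (p.E'_stp (p.good j) h3).symm

theorem PD.lim_exp (p : PD a a' s0 c L L' s t δ Θ) (n : ℕ) :
    ∀ w w' : ℂ, w.re = 0 → w'.re = 0 → Pl (El a) L' Θ t w = Pl (El a) L' Θ t w' →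
      c ^ n * ‖w - w'‖ ≤ 2 * (δ / (c - 1)) := by
  have hc := p.hc
  induction n with
  | zero =>
    intro w w' _ _ he
    have h1 := p.lim_bd w
    have h2 := p.lim_bd w'
    rw [← he] at h2
    have h3 := norm_sub_le_norm_sub_add_norm_sub w (Pl (El a) L' Θ t w) w'
    rw [norm_sub_rev w (Pl (El a) L' Θ t w)] at h3
    rw [pow_zero, one_mul]
    linarith
  | succ n ih =>
    intro w w' hw hw' he
    have e1 : |w.re| < 2 * s0 := by rw [hw]; simpa using p.hs0
    have e2 : |w'.re| < 2 * s0 := by rw [hw']; simpa using p.hs0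
    have h1 := ih (El a w) (El a w') (re_axis p.h e1 hw) (re_axis p.h e2 hw')
      (by rw [← p.lim_conj hw, ← p.lim_conj hw', he])
    have h2 := p.h.expand w w' e1 e2
    calc c ^ (n + 1) * ‖w - w'‖ = c ^ n * (c * ‖w - w'‖) := by ring
      _ ≤ c ^ n * ‖El a w - El a w'‖ := by gcongr
      _ ≤ _ := h1

theorem PD.lim_inj (p : PD a a' s0 c L L' s t δ Θ) : Function.Injective (Pl (El a) L' Θ t) := by
  have hc := p.hc
  have hs := p.hs
  intro w w' he
  rcases eq_or_ne w.re 0 with hw | hw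
  · have hw' : w'.re = 0 := by
      apply p.lim_axis'
      rw [← he]
      exact p.lim_axis hw
    by_contra hne
    have h1 : 0 < ‖w - w'‖ := norm_pos_iff.mpr (sub_ne_zero.mpr hne)
    obtain ⟨n, hn⟩ := pow_unbounded_of_one_lt (2 * (δ / (c - 1)) / ‖w - w'‖) hc
    rw [div_lt_iff₀ h1] at hn
    linarith [p.lim_exp n w w' hw hw' he]
  · have hw' : w'.re ≠ 0 := by
      intro h
      apply hw
      apply p.lim_axis'
      rw [he]
      exact p.lim_axis h
    obtain ⟨j, hj⟩ := p.exists_j (lt_min (abs_pos.mpr hw) (abs_pos.mpr hw'))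
    rw [p.lim_stab j (hj.trans (min_le_left _ _)), p.lim_stab j (hj.trans (min_le_right _ _))] at he
    exact (p.good j).bij.1 he

theorem PD.lim_surj (p : PD a a' s0 c L L' s t δ Θ) :
    Function.Surjective (Pl (El a) L' Θ t) := by
  intro v
  have h1 : IsClosed (range (Pl (El a) L' Θ t)) := by
    have := (proper_of_bd p.lim_cont p.lim_bd).isClosedMap
    exact this.isClosed_range
  have h2 : v ∈ closure (range (Pl (El a) L' Θ t)) := by
    rw [Metric.mem_closure_iff]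
    intro ε hε
    obtain ⟨j, hj⟩ := (p.rate.eventually_lt_const hε).exists
    obtain ⟨w, hw⟩ := (p.good j).bij.2 v
    refine ⟨Pl (El a) L' Θ t w, mem_range_self w, ?_⟩
    rw [← hw]
    exact (p.lim_dist j w).trans_lt hj
  rw [h1.closure_eq] at h2
  exact h2

theorem PD.halfModel (p : PD a a' s0 c L L' s t δ Θ)
    (hS : ∀ z : ℂ, z ≠ 0 → ‖z‖ < 1 → ‖bl a' z‖ < ‖z‖) :
    ∃ k s Ψ Ψs, HalfModel a a' k s Ψ Ψs := by
  have hc := p.hc
  have hs := p.hs
  have hts := p.hts
  have g0 := p.good0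
  obtain ⟨Ψ, hΨ⟩ := exists_homeo p.lim_cont ⟨p.lim_inj, p.lim_surj⟩ p.lim_bd
  have hex : ∀ j, ∃ H : ℂ ≃ₜ ℂ, ∀ w, H w = Ps (El a) L' Θ t j w := fun j =>
    exists_homeo (p.good j).smooth.continuous (p.good j).bij (p.good j).bd
  choose Ψs hΨs using hex
  have hfs : ∀ j, (Ψs j : ℂ → ℂ) = Ps (El a) L' Θ t j := fun j => funext (hΨs j)
  have hexp : Real.exp (-(2 * s0)) ≤ Real.exp (-(2 * s)) := by
    apply Real.exp_le_exp.mpr
    linarith [p.hs2]
  refine ⟨1 / 3, s, Ψ, Ψs, ?_⟩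
  constructor
  · norm_num
  · norm_num
  · exact hs
  · intro j; exact (p.h.small j).trans_le hexp
  · intro j; exact (p.h'.small j).trans_le hexp
  · intro w; rw [hΨ, hΨ]; exact p.lim_refl w
  · intro j w; rw [hΨs, hΨs]; exact (p.good j).refl w
  · intro w; rw [hΨ, hΨ]; exact p.lim_per w
  · intro j w; rw [hΨs, hΨs]; exact (p.good j).per w
  · intro w; rw [hΨ]; exact p.lim_neg w
  · intro j w; rw [hΨs]; exact (p.good j).neg w
  · rw [hΨ]; exact p.lim_zero
  · intro w hw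
    have h1 : s ≤ |w.re| := by rw [abs_of_nonpos (by linarith)]; linarith
    rw [hΨ, p.lim_stab 0 (by simpa using h1)]
    exact (p.good 0).out w h1
  · intro j w hw
    have h1 : s ≤ |w.re| := by rw [abs_of_nonpos (by linarith)]; linarith
    rw [hΨs]
    exact (p.good j).out w h1
  · intro j
    rw [hfs j]
    exact (p.good j).smooth.contDiffOn
  · intro j w _
    rw [hfs j]
    exact (p.good j).ne w
  · intro j w _
    rw [hfs j]
    exact (p.good j).dil w
  · intro j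
    obtain ⟨ε, hε, h1⟩ := (p.good j).hol
    refine ⟨ε, hε, fun w h2 h3 => ?_⟩
    rw [hfs j]
    exact h1 w (by rw [abs_of_neg h3]; linarith)
  · intro ε hε
    obtain ⟨j, hj⟩ := p.exists_j hε
    filter_upwards [eventually_ge_atTop j] with k hk w hw
    have h1 : s / c ^ j ≤ |w.re| := by
      rw [abs_of_nonpos (by linarith)]; linarith
    obtain ⟨i, rfl⟩ := Nat.exists_eq_add_of_le hk
    rw [hΨs, hΨ, p.lim_stab j h1, p.stab2 j i h1]
  · intro j w h1 h2 h3
    have h4 : |w.re| < 2 * s := by rw [abs_of_neg h2]; linarith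
    have h5 := p.h.re_le w (p.lt2 h4) h2.le
    have h6 : |w.re| ≤ t := by
      rw [abs_of_neg h2]
      have h7 := p.ht
      rw [div_lt_iff₀ (by linarith)] at h7
      by_contra h8
      push Not at h8
      nlinarith
    rw [hΨs, hΨs]
    exact (p.E'_stp (p.good j) h6).symm
  · intro j w h1 h2
    rw [hΨs, hΨs]
    show stp (El a) L' Θ t _ w = P0 (El a) L' Θ w ∧ ‖bl a' (exp (P0 (El a) L' Θ w))‖ ≤ _
    rcases le_or_gt w.re (-s) with h3 | h3
    · have h4 : s ≤ |w.re| := by rw [abs_of_neg h1]; linarith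
      refine ⟨p.stp_out (by linarith), ?_⟩
      rw [p.P0_out h4]
      have h5 : ‖exp w‖ ≤ Real.exp (-s) := by
        rw [norm_exp]; exact Real.exp_le_exp.mpr h3
      have h6 : Real.exp (-s) < 1 := by
        rw [Real.exp_lt_one_iff]; linarith
      exact (hS _ (exp_ne_zero w) (h5.trans_lt h6)).le.trans h5
    · have h4 : (El a w).re ≤ -s := by
        by_contra h5
        push Not at h5
        exact h2 ⟨h3, h5⟩
      have h5 : |w.re| < s := by rw [abs_of_neg h1]; linarith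
      have h6 : |w.re| < 2 * s := by linarith
      have h7 : s ≤ |(El a w).re| := by
        rw [abs_of_nonpos (by linarith)]; linarith
      refine ⟨p.stp_eq (p.good j) h6 h7, ?_⟩
      have h8 : |(P0 (El a) L' Θ w).re| < s := g0.lt h5
      have h9 : |(P0 (El a) L' Θ w).re| < 2 * s0 := by linarith [p.hs2]
      rw [← p.h'.exp_eq _ h9, norm_exp]
      apply Real.exp_le_exp.mpr
      rcases le_or_gt (|w.re|) t with h10 | h10
      · rw [p.P0_in h10, p.lam_eq h6]
        exact h4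
      · have h11 := p.P0_far h10
        have h12 := (g0.neg w).mpr h1
        rw [abs_of_neg h12, div_lt_iff₀ (by linarith)] at h11
        have h13 := p.h'.re_le _ h9 h12.le
        linarith

end pair

/-- A smooth even cutoff. -/
theorem exists_cutoff {t s : ℝ} (ht : 0 < t) (hts : t < s) :
    ∃ (Θ : ℝ → ℝ) (B : ℝ), ContDiff ℝ ∞ Θ ∧ (∀ x, Θ (-x) = Θ x) ∧ (∀ x, 0 ≤ Θ x) ∧
      (∀ x, Θ x ≤ 1) ∧ (∀ x, |x| ≤ t → Θ x = 1) ∧ (∀ x, s ≤ |x| → Θ x = 0) ∧
      0 ≤ B ∧ ∀ x, |deriv Θ x| ≤ B := by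
  let f : ContDiffBump (0 : ℝ) := ⟨t, s, ht, hts⟩
  have h1 : Continuous (deriv f) := by
    have : ContDiff ℝ 1 f := f.contDiff
    exact this.continuous_deriv le_rfl
  obtain ⟨B, hB⟩ := h1.bounded_above_of_compact_support f.hasCompactSupport.deriv
  refine ⟨f, B, f.contDiff, f.neg, fun x => f.nonneg, fun x => f.le_one, ?_, ?_,
    (norm_nonneg _).trans (hB 0), hB⟩
  · intro x hx
    apply f.one_of_mem_closedBall
    simpa using hx
  · intro x hx
    apply f.zero_of_le_dist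
    simpa using hx

end Pool.Agent.BlMat.M2

namespace Pool.Agent.BlMat

open Complex Metric Set Filter Topology MeasureTheory M2
open scoped ComplexConjugate ContDiff

theorem halfModel (h1 : Stmt_Strip) (h2 : Stmt_Bl) : Stmt_HalfModel := by
  intro m hm a₀ ha₀
  obtain ⟨s0, c, C, hs0, hc, hev⟩ := h1 m hm a₀ ha₀
  obtain ⟨⟨L₀, hL₀⟩, -⟩ := hev.self_of_nhds
  obtain ⟨K, hK, hlip⟩ := exists_lip hL₀ hs0
  set s : ℝ := s0 / (4 * K) with hs_def
  have hs : 0 < s := by positivity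
  have hs2 : K * (2 * s) = s0 / 2 := by rw [hs_def]; field_simp; ring
  have hs3 : 2 * s ≤ s0 := by nlinarith
  have hsc : s / c < s := div_lt_self hs hc
  set t : ℝ := (s / c + s) / 2 with ht_def
  have hst : s / c < t := by rw [ht_def]; linarith
  have hts : t < s := by rw [ht_def]; linarith
  have ht0 : 0 < t := lt_trans (by positivity) hst
  obtain ⟨Θ, B, c1, c2, c3, c4, c5, c6, hB, c7⟩ := exists_cutoff ht0 hts
  set δ : ℝ := min (s0 / 4) (min (s * (c - 1) / 4) (1 / (4 * (B + 2 / s)))) with hδ_def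
  have hc1 : 0 < c - 1 := by linarith
  have hδ0 : 0 < δ := by
    rw [hδ_def]
    refine lt_min (by positivity) (lt_min (by positivity) (by positivity))
  have hδ1 : δ ≤ s0 / 4 := min_le_left _ _
  have hδ2 : δ ≤ s * (c - 1) / 4 := (min_le_right _ _).trans (min_le_left _ _)
  have hδ3 : δ ≤ 1 / (4 * (B + 2 / s)) := (min_le_right _ _).trans (min_le_right _ _)
  have hct : c * t - s = s * (c - 1) / 2 := by
    rw [ht_def]
    have : c ≠ 0 := by linarith
    field_simp
    ring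
  have hδ4 : δ < c * t - s := by
    rw [hct]
    have : 0 < s * (c - 1) := by positivity
    linarith
  have hδ5 : ∀ x, |deriv Θ x| * δ + 2 * δ / s ≤ 1 / 4 := by
    intro x
    have e1 : 0 < 4 * (B + 2 / s) := by positivity
    rw [le_div_iff₀ e1] at hδ3
    have e2 : |deriv Θ x| * δ ≤ B * δ := by
      have := c7 x
      gcongr
    have e3 : 2 * δ / s = δ * (2 / s) := by ring
    rw [e3]
    nlinarith
  have hE₀ : ∀ w : ℂ, |w.re| < 2 * s → |(El a₀ w).re| ≤ s0 / 2 := by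
    intro w hw
    refine (hlip w (by linarith)).trans ?_
    rw [← hs2]
    have : 0 < K := by linarith
    gcongr
  have hC : ∀ᶠ a' in 𝓝 (a₀ : Fin m → ℂ), C * ‖a' - a₀‖ < δ := by
    have h3 : Tendsto (fun a' : Fin m → ℂ => C * ‖a' - a₀‖) (𝓝 a₀) (𝓝 (C * ‖a₀ - a₀‖)) := by
      apply Continuous.tendsto
      fun_prop
    rw [sub_self, norm_zero, mul_zero] at h3
    exact h3.eventually_lt_const hδ0
  filter_upwards [hev, hC] with a' h3 h4
  obtain ⟨⟨L', hL'⟩, h5⟩ := h3
  have hpar : a' ∈ Par m := by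
    intro j
    refine (hL'.small j).trans ?_
    rw [Real.exp_lt_one_iff]
    linarith
  have hcl : ∀ w : ℂ, |w.re| < 2 * s → ‖El a' w - El a₀ w‖ ≤ δ := by
    intro w hw
    exact (h5 w (by linarith)).trans h4.le
  have hE' : ∀ w : ℂ, |w.re| < 2 * s → |(El a' w).re| < s0 := by
    intro w hw
    have e1 : (El a' w).re = (El a₀ w).re + (El a' w - El a₀ w).re := by
      rw [sub_re]; ring
    have e2 := abs_add_le (El a₀ w).re (El a' w - El a₀ w).re
    have e3 := abs_re_le_norm (El a' w - El a₀ w)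
    rw [e1]
    linarith [hE₀ w hw, hcl w hw]
  have hE₀' : ∀ w : ℂ, |w.re| < 2 * s → |(El a₀ w).re| < s0 := by
    intro w hw
    linarith [hE₀ w hw]
  constructor
  · have p : PD a₀ a' s0 c L₀ L' s t δ Θ :=
      ⟨hL₀, hL', hs0, hc, hs, hs3, hst, hts, hE₀', hE', fun w hw => by
        rw [norm_sub_rev]; exact hcl w hw, hδ0.le, hδ4, c1, c2, c3, c4, c5, c6, hδ5⟩
    exact p.halfModel (h2 m hm a' hpar).schwarz
  · have p : PD a' a₀ s0 c L' L₀ s t δ Θ :=
      ⟨hL', hL₀, hs0, hc, hs, hs3, hst, hts, hE', hE₀', hcl, hδ0.le, hδ4, c1, c2, c3, c4, c5, c6,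
        hδ5⟩
    exact p.halfModel (h2 m hm a₀ ha₀).schwarz

end Pool.Agent.BlMat
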