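import Pool.Agent.BlMat.ModelDefs
import Pool.Agent.BlMat.Basic

set_option autoImplicit false

/-! From half-plane models to models in the disc. -/

namespace Pool.Agent.BlMat

open Complex Metric Set Filter Topology MeasureTheory
open scoped ComplexConjugate ContDiff

namespace M3

/-- the map of the plane with the given logarithmic lift -/
noncomputable def desc (Ψ : ℂ → ℂ) (z : ℂ) : ℂ :=
  open Classical in if z = 0 then 0 else exp (Ψ (log z))

theorem desc_zero (Ψ : ℂ → ℂ) : desc Ψ 0 = 0 := by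
  simp [desc]

theorem desc_of_ne (Ψ : ℂ → ℂ) {z : ℂ} (hz : z ≠ 0) : desc Ψ z = exp (Ψ (log z)) := by
  simp [desc, hz]

theorem per_int {Ψ : ℂ → ℂ} (hper : ∀ w : ℂ, Ψ (w + 2 * Real.pi * I) = Ψ w + 2 * Real.pi * I)
    (n : ℤ) (w : ℂ) : Ψ (w + n * (2 * Real.pi * I)) = Ψ w + n * (2 * Real.pi * I) := by
  induction n using Int.induction_on with
  | zero => simp
  | succ i ih =>
    have h := hper (w + (i : ℤ) * (2 * Real.pi * I))
    rw [ih] at h
    have e1 : w + ((i + 1 : ℤ) : ℂ) * (2 * Real.pi * I) =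
        w + ((i : ℤ) : ℂ) * (2 * Real.pi * I) + 2 * Real.pi * I := by
      push_cast; ring
    rw [e1, h]
    push_cast; ring
  | pred i ih =>
    have h := hper (w + ((-i - 1 : ℤ) : ℂ) * (2 * Real.pi * I))
    have e1 : w + ((-i - 1 : ℤ) : ℂ) * (2 * Real.pi * I) + 2 * Real.pi * I =
        w + ((-i : ℤ) : ℂ) * (2 * Real.pi * I) := by
      push_cast; ring
    rw [e1, ih] at h
    have h2 : Ψ (w + ((-i - 1 : ℤ) : ℂ) * (2 * Real.pi * I)) =
        Ψ w + ((-i : ℤ) : ℂ) * (2 * Real.pi * I) - 2 * Real.pi * I := by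
      rw [h]; ring
    rw [h2]
    push_cast; ring

theorem desc_exp {Ψ : ℂ → ℂ} (hper : ∀ w : ℂ, Ψ (w + 2 * Real.pi * I) = Ψ w + 2 * Real.pi * I)
    (w : ℂ) : desc Ψ (exp w) = exp (Ψ w) := by
  rw [desc_of_ne Ψ (exp_ne_zero w)]
  have h1 : exp (log (exp w)) = exp w := exp_log (exp_ne_zero w)
  obtain ⟨n, hn⟩ := exp_eq_exp_iff_exists_int.mp h1
  rw [hn, per_int hper, exp_eq_exp_iff_exists_int]
  exact ⟨n, rfl⟩

theorem exp_near {z₀ z : ℂ} (h₀ : z₀ ≠ 0) (hz : z ≠ 0) : exp (log z₀ + log (z / z₀)) = z := by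
  rw [exp_add, exp_log h₀, exp_log (div_ne_zero hz h₀), mul_div_cancel₀ _ h₀]

theorem desc_near {Ψ : ℂ → ℂ} (hper : ∀ w : ℂ, Ψ (w + 2 * Real.pi * I) = Ψ w + 2 * Real.pi * I)
    {z₀ : ℂ} (h₀ : z₀ ≠ 0) :
    desc Ψ =ᶠ[𝓝 z₀] fun z => exp (Ψ (log z₀ + log (z / z₀))) := by
  filter_upwards [isOpen_ne.mem_nhds h₀] with z hz
  conv_lhs => rw [← exp_near h₀ hz]
  exact desc_exp hper _

theorem contDiffAt_near {z₀ : ℂ} (h₀ : z₀ ≠ 0) :
    ContDiffAt ℝ ∞ (fun z => log z₀ + log (z / z₀)) z₀ := by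
  have h1 : ContDiffAt ℂ ∞ (fun z => log z₀ + log (z / z₀)) z₀ := by
    have h2 : ContDiffAt ℂ ∞ (fun z : ℂ => z / z₀) z₀ := contDiffAt_id.div_const _
    have h3 : ContDiffAt ℂ ∞ log (z₀ / z₀) := by
      rw [div_self h₀]
      exact contDiffAt_log one_mem_slitPlane
    exact contDiffAt_const.add (ContDiffAt.comp (g := log) (f := fun z : ℂ => z / z₀) z₀ h3 h2)
  exact h1.restrict_scalars ℝ

theorem near_self {z₀ : ℂ} (h₀ : z₀ ≠ 0) : log z₀ + log (z₀ / z₀) = log z₀ := by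
  rw [div_self h₀, log_one, add_zero]

theorem desc_deep {Ψ : ℂ → ℂ} {s : ℝ} (hdeep : ∀ w : ℂ, w.re ≤ -s → Ψ w = w) {z : ℂ}
    (hz : ‖z‖ ≤ Real.exp (-s)) : desc Ψ z = z := by
  by_cases h0 : z = 0
  · rw [h0, desc_zero]
  · rw [desc_of_ne Ψ h0, hdeep _ ?_, exp_log h0]
    rw [log_re]
    exact (Real.log_le_iff_le_exp (norm_pos_iff.mpr h0)).mpr hz

theorem desc_eventually {Ψ : ℂ → ℂ} {s : ℝ} (hdeep : ∀ w : ℂ, w.re ≤ -s → Ψ w = w) {z : ℂ}
    (hz : ‖z‖ < Real.exp (-s)) : desc Ψ =ᶠ[𝓝 z] fun w => w := by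
  have h1 : {w : ℂ | ‖w‖ < Real.exp (-s)} ∈ 𝓝 z :=
    (isOpen_lt continuous_norm continuous_const).mem_nhds hz
  filter_upwards [h1] with w hw
  exact desc_deep hdeep (le_of_lt hw)

theorem desc_continuous {Ψ : ℂ → ℂ} {s : ℝ} (hc : Continuous Ψ)
    (hper : ∀ w : ℂ, Ψ (w + 2 * Real.pi * I) = Ψ w + 2 * Real.pi * I)
    (hdeep : ∀ w : ℂ, w.re ≤ -s → Ψ w = w) : Continuous (desc Ψ) := by
  rw [continuous_iff_continuousAt]
  intro z
  by_cases h0 : z = 0
  · have h1 : ‖z‖ < Real.exp (-s) := by rw [h0, norm_zero]; exact Real.exp_pos _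
    exact (continuousAt_id (x := z)).congr (desc_eventually hdeep h1).symm
  · refine ContinuousAt.congr ?_ (desc_near hper h0).symm
    have h1 := (contDiffAt_near h0).continuousAt
    exact continuous_exp.continuousAt.comp (hc.continuousAt.comp h1)

theorem desc_comp {Ψ Ψ' : ℂ → ℂ}
    (hper : ∀ w : ℂ, Ψ (w + 2 * Real.pi * I) = Ψ w + 2 * Real.pi * I)
    (hinv : ∀ w, Ψ (Ψ' w) = w) (z : ℂ) : desc Ψ (desc Ψ' z) = z := by
  by_cases h0 : z = 0
  · rw [h0, desc_zero, desc_zero]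
  · rw [desc_of_ne Ψ' h0, desc_exp hper, hinv, exp_log h0]

theorem per_symm {Ψ : ℂ ≃ₜ ℂ} (hper : ∀ w : ℂ, Ψ (w + 2 * Real.pi * I) = Ψ w + 2 * Real.pi * I)
    (w : ℂ) : Ψ.symm (w + 2 * Real.pi * I) = Ψ.symm w + 2 * Real.pi * I := by
  rw [Homeomorph.symm_apply_eq, hper, Homeomorph.apply_symm_apply]

theorem deep_symm {Ψ : ℂ ≃ₜ ℂ} {s : ℝ} (hdeep : ∀ w : ℂ, w.re ≤ -s → Ψ w = w) (w : ℂ)
    (hw : w.re ≤ -s) : Ψ.symm w = w := by
  rw [Homeomorph.symm_apply_eq, hdeep w hw]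

/-- the homeomorphism of the plane with the given logarithmic lift -/
noncomputable def descH (Ψ : ℂ ≃ₜ ℂ) (s : ℝ)
    (hper : ∀ w : ℂ, Ψ (w + 2 * Real.pi * I) = Ψ w + 2 * Real.pi * I)
    (hdeep : ∀ w : ℂ, w.re ≤ -s → Ψ w = w) : ℂ ≃ₜ ℂ where
  toFun := desc Ψ
  invFun := desc Ψ.symm
  left_inv := desc_comp (per_symm hper) Ψ.symm_apply_apply
  right_inv := desc_comp hper Ψ.apply_symm_apply
  continuous_toFun := desc_continuous Ψ.continuous hper hdeep
  continuous_invFun := desc_continuous Ψ.symm.continuous (per_symm hper) (deep_symm hdeep)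

theorem descH_apply (Ψ : ℂ ≃ₜ ℂ) (s : ℝ)
    (hper : ∀ w : ℂ, Ψ (w + 2 * Real.pi * I) = Ψ w + 2 * Real.pi * I)
    (hdeep : ∀ w : ℂ, w.re ≤ -s → Ψ w = w) (z : ℂ) : descH Ψ s hper hdeep z = desc Ψ z := rfl

theorem log_re_neg {z : ℂ} (h0 : z ≠ 0) (hz : ‖z‖ < 1) : (log z).re < 0 := by
  rw [log_re]
  exact Real.log_neg (norm_pos_iff.mpr h0) hz

theorem norm_desc {Ψ : ℂ → ℂ} {z : ℂ} (h0 : z ≠ 0) :
    ‖desc Ψ z‖ = Real.exp (Ψ (log z)).re := by
  rw [desc_of_ne Ψ h0, norm_exp]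

theorem desc_norm_lt {Ψ : ℂ → ℂ} (hre : ∀ w : ℂ, (Ψ w).re < 0 ↔ w.re < 0) (z : ℂ) :
    ‖desc Ψ z‖ < 1 ↔ ‖z‖ < 1 := by
  by_cases h0 : z = 0
  · rw [h0, desc_zero]
  · rw [norm_desc h0, Real.exp_lt_one_iff, hre, log_re]
    exact Real.log_neg_iff (norm_pos_iff.mpr h0)

theorem desc_norm_eq {Ψ : ℂ → ℂ} (hre : ∀ w : ℂ, (Ψ w).re < 0 ↔ w.re < 0)
    (hrefl : ∀ w, Ψ (-conj w) = -conj (Ψ w)) (z : ℂ) : ‖desc Ψ z‖ = 1 ↔ ‖z‖ = 1 := by
  by_cases h0 : z = 0
  · rw [h0, desc_zero]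
  · have hpos : ∀ w : ℂ, 0 < (Ψ w).re ↔ 0 < w.re := by
      intro w
      have h1 := hre (-conj w)
      rw [hrefl] at h1
      simpa using h1
    have hz : ∀ w : ℂ, (Ψ w).re = 0 ↔ w.re = 0 := by
      intro w
      constructor
      · intro h
        rcases lt_trichotomy w.re 0 with h2 | h2 | h2
        · exact absurd ((hre w).mpr h2) (by rw [h]; exact lt_irrefl _)
        · exact h2
        · exact absurd ((hpos w).mpr h2) (by rw [h]; exact lt_irrefl _)
      · intro h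
        rcases lt_trichotomy (Ψ w).re 0 with h2 | h2 | h2
        · exact absurd ((hre w).mp h2) (by rw [h]; exact lt_irrefl _)
        · exact h2
        · exact absurd ((hpos w).mp h2) (by rw [h]; exact lt_irrefl _)
    rw [norm_desc h0, Real.exp_eq_one_iff, hz, log_re]
    constructor
    · intro h
      have := Real.exp_log (norm_pos_iff.mpr h0)
      rw [h, Real.exp_zero] at this
      exact this.symm
    · intro h
      rw [h, Real.log_one]

/-- the Wirtinger derivatives under `exp` -/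
theorem dz_desc {Ψ : ℂ → ℂ} (hper : ∀ w : ℂ, Ψ (w + 2 * Real.pi * I) = Ψ w + 2 * Real.pi * I)
    {w : ℂ} (hd : DifferentiableAt ℝ Ψ w) (hd' : DifferentiableAt ℝ (desc Ψ) (exp w)) :
    dz (desc Ψ) (exp w) * exp w = exp (Ψ w) * dz Ψ w ∧
    dzb (desc Ψ) (exp w) * conj (exp w) = exp (Ψ w) * dzb Ψ w := by
  have he : ∀ u : ℂ, DifferentiableAt ℂ exp u := fun u => differentiable_exp u
  have heR : ∀ u : ℂ, DifferentiableAt ℝ exp u := fun u => (he u).restrictScalars ℝ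
  have hdz : ∀ u : ℂ, dz exp u = exp u ∧ dzb exp u = 0 := by
    intro u
    obtain ⟨h1, h2⟩ := dzb_eq_zero_of_differentiableAt (he u)
    rw [Complex.deriv_exp] at h2
    exact ⟨h2, h1⟩
  have hcomp : desc Ψ ∘ exp = exp ∘ Ψ := by
    funext u
    exact desc_exp hper u
  obtain ⟨h1, h2⟩ := dz_comp (F := desc Ψ) (G := exp) hd' (heR w)
  obtain ⟨h3, h4⟩ := dz_comp (F := exp) (G := Ψ) (heR (Ψ w)) hd
  rw [hcomp] at h1 h2
  rw [(hdz w).1, (hdz w).2] at h1 h2
  rw [(hdz (Ψ w)).1, (hdz (Ψ w)).2] at h3 h4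
  simp only [map_zero, mul_zero, add_zero, zero_mul, zero_add] at h1 h2 h3 h4
  exact ⟨by rw [← h1, h3], by rw [← h2, h4]⟩

theorem desc_contDiffAt {Ψ : ℂ → ℂ} {s : ℝ}
    (hper : ∀ w : ℂ, Ψ (w + 2 * Real.pi * I) = Ψ w + 2 * Real.pi * I)
    (hdeep : ∀ w : ℂ, w.re ≤ -s → Ψ w = w) (hs : ContDiffOn ℝ ∞ Ψ {w : ℂ | w.re < 0}) {z : ℂ}
    (hz : ‖z‖ < 1) : ContDiffAt ℝ ∞ (desc Ψ) z := by
  by_cases h0 : z = 0
  · have h1 : ‖z‖ < Real.exp (-s) := by rw [h0, norm_zero]; exact Real.exp_pos _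
    exact contDiffAt_id.congr_of_eventuallyEq (desc_eventually hdeep h1)
  · refine ContDiffAt.congr_of_eventuallyEq ?_ (desc_near hper h0)
    have h1 := contDiffAt_near h0
    have h2 : ContDiffAt ℝ ∞ Ψ (log z + log (z / z)) := by
      rw [near_self h0]
      exact hs.contDiffAt ((isOpen_lt continuous_re continuous_const).mem_nhds
        (log_re_neg h0 hz))
    have h3 : ContDiffAt ℝ ∞ exp (Ψ (log z + log (z / z))) :=
      (contDiff_exp (𝕜 := ℂ) (n := ∞)).contDiffAt.restrict_scalars ℝ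
    exact h3.comp z (h2.comp z h1)

theorem par_lt {m : ℕ} {a : Fin m → ℂ} {s : ℝ} (hs : 0 < s)
    (ha : ∀ j, ‖a j‖ < Real.exp (-(2 * s))) (j : Fin m) : ‖a j‖ < 1 :=
  (ha j).trans (by rw [Real.exp_lt_one_iff]; linarith)

/-- the lift of `bl a` -/
theorem exp_El {m : ℕ} {a : Fin m → ℂ} {s : ℝ} (hs : 0 < s)
    (ha : ∀ j, ‖a j‖ < Real.exp (-(2 * s))) {w : ℂ} (hw : |w.re| < 2 * s) :
    exp (El a w) = bl a (exp w) := by
  obtain ⟨hw1, hw2⟩ := abs_lt.mp hw
  have hz0 : exp w ≠ 0 := exp_ne_zero w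
  have hnz : ‖exp w‖ = Real.exp w.re := norm_exp w
  have h1 : ∀ j, 1 - a j / exp w ≠ 0 := by
    intro j h
    have h2 : a j / exp w = 1 := (sub_eq_zero.mp h).symm
    have h3 : a j = exp w := by
      rw [div_eq_iff hz0, one_mul] at h2
      exact h2
    have h4 := ha j
    rw [h3, hnz, Real.exp_lt_exp] at h4
    linarith
  have h2 : ∀ j, 1 - conj (a j) * exp w ≠ 0 := by
    intro j h
    have h3 : conj (a j) * exp w = 1 := (sub_eq_zero.mp h).symm
    have h4 := congrArg norm h3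
    rw [norm_mul, norm_one, RCLike.norm_conj, hnz] at h4
    have h5 : ‖a j‖ * Real.exp w.re < 1 := by
      calc ‖a j‖ * Real.exp w.re < Real.exp (-(2 * s)) * Real.exp w.re :=
            mul_lt_mul_of_pos_right (ha j) (Real.exp_pos _)
        _ = Real.exp (-(2 * s) + w.re) := (Real.exp_add _ _).symm
        _ < 1 := by rw [Real.exp_lt_one_iff]; linarith
    linarith
  have h3 : ∀ j, 1 - a j ≠ 0 := by
    intro j h
    have h4 : a j = 1 := (sub_eq_zero.mp h).symm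
    have h5 := par_lt hs ha j
    rw [h4, norm_one] at h5
    exact lt_irrefl _ h5
  have h4 : ∀ j, 1 - conj (a j) ≠ 0 := by
    intro j h
    have h5 : conj (a j) = 1 := (sub_eq_zero.mp h).symm
    have h6 := par_lt hs ha j
    rw [← RCLike.norm_conj, h5, norm_one] at h6
    exact lt_irrefl _ h6
  have hg : exp (gl a (exp w)) = ∏ j, ((1 - a j / exp w) / (1 - conj (a j) * exp w) *
      ((1 - conj (a j)) / (1 - a j))) := by
    rw [gl, exp_sum]
    refine Finset.prod_congr rfl fun j _ => ?_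
    rw [exp_sub, exp_add, exp_sub, exp_log (h1 j), exp_log (h2 j), exp_log (h3 j), exp_log (h4 j)]
    ring
  have hp : exp ((m + 1 : ℂ) * w) = exp w * ∏ _j : Fin m, exp w := by
    rw [Finset.prod_const, Finset.card_univ, Fintype.card_fin, ← pow_succ', ← exp_nat_mul]
    push_cast
    rfl
  rw [El, exp_add, hg, hp, bl, mul_assoc, ← Finset.prod_mul_distrib]
  congr 1
  refine Finset.prod_congr rfl fun j _ => ?_
  have h5 : exp w * (1 - a j / exp w) = exp w - a j := by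
    field_simp
  rw [← h5]
  ring

theorem re_gt {Ψ : ℂ ≃ₜ ℂ} {s : ℝ} (hdeep : ∀ w : ℂ, w.re ≤ -s → Ψ w = w) {w : ℂ}
    (hw : -s < w.re) : -s < (Ψ w).re := by
  by_contra h
  push Not at h
  have h1 := hdeep _ h
  have h2 := Ψ.injective h1
  rw [h2] at h
  linarith

/-- the smooth map `ψ⁻¹ ∘ bl a' ∘ ψ` -/
noncomputable def gm {m : ℕ} (a a' : Fin m → ℂ) (s : ℝ) (Ψ : ℂ → ℂ) (z : ℂ) : ℂ :=
  open Classical in if ‖bl a z‖ ≤ Real.exp (-s) then bl a' (desc Ψ z) else bl a z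

section main

variable {m : ℕ} {a a' : Fin m → ℂ} {k s : ℝ} {Ψ : ℂ ≃ₜ ℂ} {Ψs : ℕ → ℂ ≃ₜ ℂ}

theorem strip_of {z : ℂ} (h : HalfModel a a' k s Ψ Ψs) (hb : BlFacts a) (h0 : z ≠ 0)
    (hz : ‖z‖ < 1) (hr : Real.exp (-s) ≤ ‖bl a z‖) :
    -s < (log z).re ∧ (log z).re < 0 ∧ exp (El a (log z)) = bl a z ∧
      (El a (log z)).re = Real.log ‖bl a z‖ ∧ ∀ j, |(Ψs j (log z)).re| < 2 * s := by
  have h1 : (log z).re < 0 := log_re_neg h0 hz
  have h2 : -s < (log z).re := by
    rw [log_re, Real.lt_log_iff_exp_lt (norm_pos_iff.mpr h0)]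
    exact lt_of_le_of_lt hr (hb.schwarz z h0 hz)
  have hs := h.s_pos
  have h3 : exp (El a (log z)) = bl a z := by
    rw [exp_El hs h.small (abs_lt.mpr ⟨by linarith, by linarith⟩), exp_log h0]
  refine ⟨h2, h1, h3, ?_, fun j => ?_⟩
  · rw [← h3, norm_exp, Real.log_exp]
  · have h4 := re_gt (h.deep' j) h2
    have h5 := (h.re_neg' j _).mpr h1
    exact abs_lt.mpr ⟨by linarith, by linarith⟩

theorem not_strip {z : ℂ} (h : HalfModel a a' k s Ψ Ψs) (h0 : z ≠ 0)
    (hz : ‖z‖ < 1) (hr : ‖bl a z‖ ≤ Real.exp (-s)) :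
    ¬ (-s < (log z).re ∧ -s < (El a (log z)).re) := by
  rintro ⟨h1, h2⟩
  have hs := h.s_pos
  have h3 := log_re_neg h0 hz
  have h4 : exp (El a (log z)) = bl a z := by
    rw [exp_El hs h.small (abs_lt.mpr ⟨by linarith, by linarith⟩), exp_log h0]
  rw [← h4, norm_exp, Real.exp_le_exp] at hr
  linarith

theorem agree (h : HalfModel a a' k s Ψ Ψs) (hb : BlFacts a) {z : ℂ}
    (hz : ‖z‖ < 1) (hr : ‖bl a z‖ = Real.exp (-s)) : bl a' (desc (Ψs 0) z) = bl a z := by
  have h0 : z ≠ 0 := by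
    rintro rfl
    rw [hb.zero, norm_zero] at hr
    exact absurd hr.symm (Real.exp_pos _).ne'
  obtain ⟨h1, h2, h3, h4, h5⟩ := strip_of h hb h0 hz hr.ge
  rw [hr, Real.log_exp] at h4
  have h6 := h.conj_j 0 (log z) h1.le h2 h4.ge
  rw [h.deep' 0 _ h4.le, (h.inner 0 (log z) h2 (not_strip h h0 hz hr.le)).1] at h6
  rw [desc_of_ne _ h0, ← exp_El h.s_pos h.small' (h5 0), ← h6, h3]

/-- from a half-plane model to a model in the disc -/
theorem model_of_half (h : HalfModel a a' k s Ψ Ψs) (hb : BlFacts a) (hb' : BlFacts a') :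
    Model a a' k (Real.exp (-s)) (gm a a' s (Ψs 0)) (descH Ψ s h.per h.deep)
      (fun j => descH (Ψs j) s (h.per' j) (h.deep' j)) := by
  have hs := h.s_pos
  have hda : ∀ (j : ℕ) (z : ℂ), ‖z‖ < 1 → DifferentiableAt ℝ (desc (Ψs j)) z := fun j z hz =>
    (desc_contDiffAt (h.per' j) (h.deep' j) (h.smooth j) hz).differentiableAt (by simp)
  have hdΨ : ∀ (j : ℕ) (w : ℂ), w.re < 0 → DifferentiableAt ℝ (Ψs j) w := fun j w hw =>
    ((h.smooth j).contDiffAt
      ((isOpen_lt continuous_re continuous_const).mem_nhds hw)).differentiableAt (by simp)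
  have hkey : ∀ (j : ℕ) (z : ℂ), z ≠ 0 → ‖z‖ < 1 →
      dz (desc (Ψs j)) z * z = exp (Ψs j (log z)) * dz (Ψs j) (log z) ∧
      dzb (desc (Ψs j)) z * conj z = exp (Ψs j (log z)) * dzb (Ψs j) (log z) := by
    intro j z h0 hz
    have h1 := dz_desc (h.per' j) (w := log z) (hdΨ j _ (log_re_neg h0 hz))
      (by rw [exp_log h0]; exact hda j z hz)
    rwa [exp_log h0] at h1
  have hz0 : ∀ j : ℕ, dz (desc (Ψs j)) 0 = 1 ∧ dzb (desc (Ψs j)) 0 = 0 := by
    intro j
    have h1 : ‖(0 : ℂ)‖ < Real.exp (-s) := by rw [norm_zero]; exact Real.exp_pos _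
    obtain ⟨h2, h3⟩ := dz_congr (desc_eventually (h.deep' j) h1)
    rw [h2, h3]
    exact dz_id 0
  refine
    { k_nonneg := h.k_nonneg
      k_lt := h.k_lt
      r_pos := Real.exp_pos _
      r_lt := by rw [Real.exp_lt_one_iff]; linarith
      norm_lt := desc_norm_lt h.re_neg
      norm_eq := desc_norm_eq h.re_neg h.refl
      norm_lt' := fun j => desc_norm_lt (h.re_neg' j)
      norm_eq' := fun j => desc_norm_eq (h.re_neg' j) (h.refl' j)
      one := ?_
      near_zero := fun z hz => desc_deep h.deep hz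
      near_zero' := fun j z hz => desc_deep (h.deep' j) hz
      smooth := fun j z hz =>
        (desc_contDiffAt (h.per' j) (h.deep' j) (h.smooth j) (by simpa using hz)).contDiffWithinAt
      ne := ?_
      dil := ?_
      hol := ?_
      stab := ?_
      g_cont := ?_
      g_maps := ?_
      g_zero := ?_
      g_eq := ?_
      conj_j := ?_ }
  · change desc Ψ 1 = 1
    rw [desc_of_ne _ one_ne_zero, log_one, h.zero, exp_zero]
  · intro j z hz
    change dz (desc (Ψs j)) z ≠ 0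
    rw [mem_ball_zero_iff] at hz
    by_cases h0 : z = 0
    · rw [h0, (hz0 j).1]
      exact one_ne_zero
    · intro h1
      have h2 := (hkey j z h0 hz).1
      rw [h1, zero_mul] at h2
      exact mul_ne_zero (exp_ne_zero _) (h.ne j _ (log_re_neg h0 hz)) h2.symm
  · intro j z hz
    change ‖dzb (desc (Ψs j)) z‖ ≤ k * ‖dz (desc (Ψs j)) z‖
    rw [mem_ball_zero_iff] at hz
    by_cases h0 : z = 0
    · rw [h0, (hz0 j).1, (hz0 j).2, norm_zero, norm_one, mul_one]
      exact h.k_nonneg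
    · obtain ⟨h1, h2⟩ := hkey j z h0 hz
      have h3 := h.dil j _ (log_re_neg h0 hz)
      have h4 := congrArg norm h1
      have h5 := congrArg norm h2
      rw [norm_mul, norm_mul] at h4 h5
      rw [RCLike.norm_conj] at h5
      have hzp : 0 < ‖z‖ := norm_pos_iff.mpr h0
      have h6 : ‖dzb (desc (Ψs j)) z‖ * ‖z‖ ≤ k * ‖dz (desc (Ψs j)) z‖ * ‖z‖ := by
        rw [h5, mul_assoc, h4]
        calc ‖exp (Ψs j (log z))‖ * ‖dzb (Ψs j) (log z)‖
            ≤ ‖exp (Ψs j (log z))‖ * (k * ‖dz (Ψs j) (log z)‖) :=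
              mul_le_mul_of_nonneg_left h3 (norm_nonneg _)
          _ = k * (‖exp (Ψs j (log z))‖ * ‖dz (Ψs j) (log z)‖) := by ring
      exact le_of_mul_le_mul_right h6 hzp
  · intro j
    obtain ⟨ε, hε, h1⟩ := h.hol j
    refine ⟨Real.exp (-ε), by rw [Real.exp_lt_one_iff]; linarith, fun z hz hz1 => ?_⟩
    change dzb (desc (Ψs j)) z = 0
    have h0 : z ≠ 0 := by
      rintro rfl
      rw [norm_zero] at hz
      exact absurd hz (Real.exp_pos _).le.not_gt
    have h2 := (hkey j z h0 hz1).2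
    have h3 : -ε < (log z).re := by
      rw [log_re, Real.lt_log_iff_exp_lt (norm_pos_iff.mpr h0)]
      exact hz
    rw [h1 _ h3 (log_re_neg h0 hz1), mul_zero] at h2
    exact (mul_eq_zero.mp h2).resolve_right ((map_ne_zero _).mpr h0)
  · intro ρ hρ
    by_cases hρ0 : ρ ≤ 0
    · refine Eventually.of_forall fun j z hz => ?_
      have h0 : z = 0 := norm_le_zero_iff.mp (hz.trans hρ0)
      change desc (Ψs j) z = desc Ψ z
      rw [h0, desc_zero, desc_zero]
    · push Not at hρ0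
      have hl : 0 < -Real.log ρ := by
        have := Real.log_neg hρ0 hρ
        linarith
      filter_upwards [h.stab (-Real.log ρ) hl] with j hj z hz
      change desc (Ψs j) z = desc Ψ z
      by_cases h0 : z = 0
      · rw [h0, desc_zero, desc_zero]
      · rw [desc_of_ne _ h0, desc_of_ne _ h0, hj]
        rw [log_re, neg_neg]
        exact Real.log_le_log (norm_pos_iff.mpr h0) hz
  · -- continuity
    have hdiff : ∀ {b : Fin m → ℂ}, BlFacts b → ContinuousOn (bl b) (ball 0 1) := by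
      intro b hb
      obtain ⟨R, hR, hd⟩ := hb.diff
      exact hd.continuousOn.mono (ball_subset_ball hR.le)
    rw [continuousOn_iff_continuous_domRestrict]
    have h1 : Continuous fun z : ball (0 : ℂ) 1 => bl a (z : ℂ) :=
      continuousOn_iff_continuous_domRestrict.mp (hdiff hb)
    have h2 : Continuous fun z : ball (0 : ℂ) 1 => bl a' (desc (Ψs 0) (z : ℂ)) := by
      have h3 : ContinuousOn (fun z => bl a' (desc (Ψs 0) z)) (ball 0 1) :=
        (hdiff hb').comp (desc_continuous (Ψs 0).continuous (h.per' 0) (h.deep' 0)).continuousOn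
          (fun z hz => by
            rw [mem_ball_zero_iff] at hz ⊢
            exact (desc_norm_lt (h.re_neg' 0) z).mpr hz)
      exact continuousOn_iff_continuous_domRestrict.mp h3
    change Continuous fun z : ball (0 : ℂ) 1 => gm a a' s (Ψs 0) (z : ℂ)
    unfold gm
    refine Continuous.if_le h2 h1 h1.norm continuous_const fun z hz => ?_
    exact agree h hb (mem_ball_zero_iff.mp z.2) hz
  · intro z hz
    rw [mem_ball_zero_iff] at hz ⊢
    unfold gm
    split_ifs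
    · exact hb'.ball _ ((desc_norm_lt (h.re_neg' 0) z).mpr hz)
    · exact hb.ball _ hz
  · unfold gm
    rw [if_pos (by rw [hb.zero, norm_zero]; exact (Real.exp_pos _).le), desc_zero, hb'.zero]
  · obtain ⟨ρ, hρ, h1⟩ := hb.proper (Real.exp (-s)) (by rw [Real.exp_lt_one_iff]; linarith)
    refine ⟨ρ, hρ, fun z hz hz1 => ?_⟩
    unfold gm
    rw [if_neg]
    intro h2
    exact absurd (h1 z hz1 h2) (not_le.mpr hz)
  · intro j z hz
    rw [mem_ball_zero_iff] at hz
    change desc (Ψs j) (gm a a' s (Ψs 0) z) = bl a' (desc (Ψs (j + 1)) z)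
    by_cases h0 : z = 0
    · unfold gm
      rw [h0, if_pos (by rw [hb.zero, norm_zero]; exact (Real.exp_pos _).le), desc_zero, desc_zero,
        hb'.zero, desc_zero]
    · by_cases hr : ‖bl a z‖ ≤ Real.exp (-s)
      · unfold gm
        rw [if_pos hr]
        obtain ⟨h1, h2⟩ := h.inner j (log z) (log_re_neg h0 hz) (not_strip h h0 hz hr)
        rw [desc_of_ne _ h0, desc_of_ne _ h0, h1, desc_deep (h.deep' j) h2]
      · unfold gm
        rw [if_neg hr]
        push Not at hr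
        obtain ⟨h1, h2, h3, h4, h5⟩ := strip_of h hb h0 hz hr.le
        have h6 : -s ≤ (El a (log z)).re := by
          rw [h4]
          exact ((Real.lt_log_iff_exp_lt (lt_trans (Real.exp_pos _) hr)).mpr hr).le
        have h7 := h.conj_j j (log z) h1.le h2 h6
        rw [← h3, desc_exp (h.per' j), h7, exp_El hs h.small' (h5 (j + 1)), desc_of_ne _ h0]

end main

end M3

/-- Existence of model conjugacies between nearby Blaschke products. -/
theorem model (h1 : Stmt_HalfModel) (h2 : Stmt_Bl) : Stmt_Model := by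
  intro m hm a ha
  filter_upwards [h1 m hm a ha] with a' ha'
  obtain ⟨⟨k, s, Ψ, Ψs, h⟩, ⟨k', s', Ψ', Ψs', h'⟩⟩ := ha'
  have ha'm : a' ∈ Par m := fun j => M3.par_lt h.s_pos h.small' j
  have hb := h2 m hm a ha
  have hb' := h2 m hm a' ha'm
  exact ⟨⟨k, _, _, _, _, M3.model_of_half h hb hb'⟩, ⟨k', _, _, _, _, M3.model_of_half h' hb' hb⟩⟩

end Pool.Agent.BlMat
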