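import Pool.Agent.BlMat.MarkDefs
import Pool.Agent.BlMat.M1

set_option autoImplicit false

/-! Block MK: marked conjugacies. -/

namespace Pool.Agent.BlMat

open Complex Metric Set Filter Topology
open scoped ComplexConjugate ContDiff

namespace MKK

/-- an integer valued continuous function on the line is constant -/
lemma int_const {f : ℝ → ℝ} (hf : Continuous f)
    (h : ∀ t, ∃ k : ℤ, f t = 2 * Real.pi * k) (s t : ℝ) : f s = f t := by
  have hpi := Real.pi_pos
  choose k hk using h
  have hk' : ∀ t, (k t : ℝ) = f t / (2 * Real.pi) := by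
    intro t
    rw [hk t]
    field_simp
  have hc : Continuous fun t => (k t : ℝ) := by
    have : (fun t => (k t : ℝ)) = fun t => f t / (2 * Real.pi) := funext hk'
    rw [this]
    exact hf.div_const _
  have hc' : Continuous k := by
    have := Int.isClosedEmbedding_coe_real.isEmbedding.continuous_iff (f := k)
    exact this.mpr hc
  have h1 := IsPreconnected.constant (isPreconnected_univ (α := ℝ)) hc'.continuousOn
    (mem_univ s) (mem_univ t)
  rw [hk s, hk t, h1]

lemma exp_eq_real {x y : ℝ} (h : exp (x * I) = exp (y * I)) :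
    ∃ k : ℤ, x - y = 2 * Real.pi * k := by
  rw [Complex.exp_eq_exp_iff_exists_int] at h
  obtain ⟨k, hk⟩ := h
  refine ⟨k, ?_⟩
  have h1 : (x : ℂ) = y + k * (2 * Real.pi) := by
    have h2 : (x : ℂ) * I = (y + k * (2 * Real.pi)) * I := by rw [hk]; ring
    exact mul_right_cancel₀ I_ne_zero h2
  have h2 : x = y + k * (2 * Real.pi) := by exact_mod_cast h1
  rw [h2]; ring

section circle

variable {m : ℕ} {a : Fin m → ℂ} {s c : ℝ} {L : ℂ → ℂ}

/-- the lift to the line -/
noncomputable def EE (a : Fin m → ℂ) (t : ℝ) : ℝ := (El a (t * I)).im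

lemma El_axis (hs : 0 < s) (h : StripFacts a s c L) (t : ℝ) :
    El a (t * I) = (EE a t : ℂ) * I := by
  have h1 := h.refl (t * I) (by simp; linarith)
  have h2 : -conj ((t : ℂ) * I) = t * I := by simp
  rw [h2] at h1
  have h3 := congrArg Complex.re h1
  simp only [neg_re, conj_re] at h3
  have h4 : (El a (t * I)).re = 0 := by linarith
  apply Complex.ext
  · simp [h4]
  · simp [EE]

lemma EE_exp (hs : 0 < s) (h : StripFacts a s c L) (t : ℝ) :
    bl a (exp (t * I)) = exp (EE a t * I) := by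
  rw [← El_axis hs h, h.exp_eq (t * I) (by simp; linarith)]

lemma EE_expand (hs : 0 < s) (h : StripFacts a s c L) (x y : ℝ) :
    c * |x - y| ≤ |EE a x - EE a y| := by
  have h1 := h.expand (x * I) (y * I) (by simp; linarith) (by simp; linarith)
  rw [El_axis hs h, El_axis hs h, ← sub_mul, ← sub_mul, norm_mul, norm_mul, norm_I, mul_one,
    mul_one, ← ofReal_sub, ← ofReal_sub, norm_real, norm_real, Real.norm_eq_abs,
    Real.norm_eq_abs] at h1
  exact h1

lemma EE_zero (h : StripFacts a s c L) : EE a 0 = 0 := by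
  rw [EE, ofReal_zero, zero_mul, h.zero, zero_im]

lemma EE_per (h : StripFacts a s c L) (t : ℝ) :
    EE a (t + 2 * Real.pi) = EE a t + (m + 1) * (2 * Real.pi) := by
  have h1 := h.per (t * I)
  have h2 : (t : ℂ) * I + 2 * Real.pi * I = ((t + 2 * Real.pi : ℝ) : ℂ) * I := by
    push_cast; ring
  rw [h2] at h1
  have h3 := congrArg Complex.im h1
  rw [EE, EE, h3]
  simp

lemma EE_perInt (h : StripFacts a s c L) (t : ℝ) (k : ℤ) :
    EE a (t + 2 * Real.pi * k) = EE a t + (m + 1) * (2 * Real.pi * k) := by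
  induction k using Int.induction_on with
  | zero => simp
  | succ i ih =>
    have h1 : t + 2 * Real.pi * (((i : ℤ) + 1 : ℤ) : ℝ) =
        (t + 2 * Real.pi * ((i : ℤ) : ℝ)) + 2 * Real.pi := by
      push_cast; ring
    rw [h1, EE_per h, ih]
    push_cast; ring
  | pred i ih =>
    have h1 : (t + 2 * Real.pi * ((-(i : ℤ) - 1 : ℤ) : ℝ)) + 2 * Real.pi =
        t + 2 * Real.pi * ((-(i : ℤ) : ℤ) : ℝ) := by
      push_cast; ring
    have h2 := EE_per h (t + 2 * Real.pi * ((-(i : ℤ) - 1 : ℤ) : ℝ))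
    rw [h1, ih] at h2
    push_cast at h2 ⊢
    linarith

lemma EE_cont (hs : 0 < s) (h : StripFacts a s c L) : Continuous (EE a) := by
  unfold EE
  refine continuous_im.comp ?_
  rw [continuous_iff_continuousAt]
  intro t
  have hopen : IsOpen {w : ℂ | |w.re| < 2 * s} :=
    isOpen_lt (continuous_abs.comp continuous_re) continuous_const
  have h1 : ContinuousAt (El a) ((t : ℂ) * I) :=
    (h.diff.continuousOn).continuousAt (hopen.mem_nhds (by
      show |((t : ℂ) * I).re| < 2 * s
      simp; linarith))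
  exact ContinuousAt.comp (f := fun t : ℝ => (t : ℂ) * I) h1 (by fun_prop)

end circle

/-- commutation on the circle -/
lemma comm_circle {m : ℕ} {a : Fin m → ℂ} (hB : BlFacts a) (η : ℂ ≃ₜ ℂ)
    (hc : ∀ z : ℂ, ‖z‖ < 1 → η (bl (m := m) a z) = bl a (η z))
    (hη1 : ∀ z : ℂ, ‖z‖ = 1 → ‖η z‖ = 1) (z : ℂ) (hz : ‖z‖ = 1) :
    η (bl a z) = bl a (η z) := by
  obtain ⟨R, hR, hd⟩ := hB.diff
  have hcont : ∀ w : ℂ, ‖w‖ = 1 → ContinuousAt (bl a) w := by
    intro w hw
    exact hd.continuousOn.continuousAt (isOpen_ball.mem_nhds (by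
      rw [mem_ball_zero_iff, hw]; exact hR))
  have h1 : Tendsto (fun r : ℝ => (r : ℂ) * z) (𝓝[<] 1) (𝓝 z) := by
    have h2 : Tendsto (fun r : ℝ => (r : ℂ) * z) (𝓝 1) (𝓝 (((1 : ℝ) : ℂ) * z)) :=
      (Continuous.tendsto (by fun_prop) 1)
    rw [ofReal_one, one_mul] at h2
    exact h2.mono_left nhdsWithin_le_nhds
  have h2 : Tendsto (fun r : ℝ => η (bl a ((r : ℂ) * z))) (𝓝[<] 1) (𝓝 (η (bl a z))) :=
    (η.continuous.tendsto _).comp ((hcont z hz).tendsto.comp h1)
  have h3 : Tendsto (fun r : ℝ => bl a (η ((r : ℂ) * z))) (𝓝[<] 1) (𝓝 (bl a (η z))) :=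
    (hcont (η z) (hη1 z hz)).tendsto.comp ((η.continuous.tendsto _).comp h1)
  refine tendsto_nhds_unique h2 (h3.congr' ?_)
  have h4 : Ioo (0 : ℝ) 1 ∈ 𝓝[<] (1 : ℝ) := Ioo_mem_nhdsLT (by norm_num)
  filter_upwards [h4] with r hr
  rw [hc]
  rw [norm_mul, hz, mul_one, norm_real, Real.norm_eq_abs, abs_of_pos hr.1]
  exact hr.2

end MKK

open MKK in
theorem mark (h : Stmt_Bl) : Stmt_Mark := by
  intro m hm a ha η u hη hcomm hu hmono hlift h1
  obtain ⟨s, c, C, hs, hc, hev⟩ := strip m hm a ha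
  obtain ⟨⟨L, hL⟩, -⟩ := hev.self_of_nhds
  have hpi := Real.pi_pos
  have hη1 : ∀ z : ℂ, ‖z‖ = 1 → ‖η z‖ = 1 := by
    intro z hz
    have h2 : z = exp ((arg z : ℝ) * I) := by
      have := norm_mul_exp_arg_mul_I z
      rw [hz, ofReal_one, one_mul] at this
      exact this.symm
    rw [h2, hlift, norm_exp_ofReal_mul_I]
  have hcirc := comm_circle (h m hm a ha) η hcomm hη1
  -- the constant
  have hE := EE_cont hs hL
  have hint : ∀ t : ℝ, ∃ k : ℤ, u (EE a t) - EE a (u t) = 2 * Real.pi * k := by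
    intro t
    apply exp_eq_real
    rw [← hlift, ← EE_exp hs hL, hcirc _ (norm_exp_ofReal_mul_I t), hlift, EE_exp hs hL]
  obtain ⟨k, hk⟩ : ∃ k : ℤ, u 0 = 2 * Real.pi * k := by
    have h2 : exp ((u 0 : ℝ) * I) = exp ((0 : ℝ) * I) := by
      rw [← hlift]
      simp [h1]
    obtain ⟨k, hk⟩ := exp_eq_real h2
    exact ⟨k, by rw [sub_zero] at hk; exact hk⟩
  have hconst : ∀ t, u (EE a t) - EE a (u t) = u 0 - EE a (u 0) := by
    intro t
    have h2 := int_const (f := fun t => u (EE a t) - EE a (u t))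
      ((hu.comp hE).sub (hE.comp hu)) hint t 0
    simp only [EE_zero hL] at h2
    exact h2
  set U : ℝ → ℝ := fun t => u t - u 0 with hU
  have hUE : ∀ t, U (EE a t) = EE a (U t) := by
    intro t
    have h2 := hconst t
    have h3 : EE a (u t) = EE a (U t) + (m + 1) * (2 * Real.pi * k) := by
      rw [← EE_perInt hL, hU]
      congr 1
      simp only
      rw [hk]; ring
    have h4 : EE a (u 0) = (m + 1) * (2 * Real.pi * k) := by
      have h5 := EE_perInt hL 0 k
      rw [zero_add, EE_zero hL, zero_add] at h5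
      rw [hk, h5]
    simp only [hU]
    simp only [hU] at h3
    rw [h3, h4] at h2
    linarith
  -- periodicity
  have hper0 : ∀ t, ∃ k : ℤ, u (t + 2 * Real.pi) - u t = 2 * Real.pi * k := by
    intro t
    apply exp_eq_real
    rw [← hlift, ← hlift]
    congr 1
    have h2 : ((t + 2 * Real.pi : ℝ) : ℂ) * I = t * I + 2 * Real.pi * I := by push_cast; ring
    rw [h2, exp_periodic]
  obtain ⟨k', hk'⟩ := hper0 0
  have hper1 : ∀ t, u (t + 2 * Real.pi) - u t = 2 * Real.pi * k' := by
    intro t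
    rw [← hk']
    exact int_const (f := fun t => u (t + 2 * Real.pi) - u t)
      ((hu.comp (by fun_prop)).sub hu) hper0 t 0
  have hk'1 : k' = 1 := by
    have hpos : 0 < k' := by
      have h2 := hmono (show (0 : ℝ) < 0 + 2 * Real.pi by linarith)
      have h3 : 0 < 2 * Real.pi * (k' : ℝ) := by rw [← hk']; linarith
      have h4 : 0 < (k' : ℝ) := by
        by_contra hcon
        push Not at hcon
        nlinarith
      exact_mod_cast h4
    by_contra hne
    have h2 : 2 ≤ k' := by omega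
    have h2' : (2 : ℝ) ≤ (k' : ℝ) := by exact_mod_cast h2
    have h3 : u 0 + 2 * Real.pi ∈ Icc (u 0) (u (0 + 2 * Real.pi)) := by
      constructor
      · linarith
      · have : u (0 + 2 * Real.pi) = u 0 + 2 * Real.pi * k' := by linarith
        rw [this]
        nlinarith
    obtain ⟨t', ht', hut'⟩ := intermediate_value_Icc (show (0 : ℝ) ≤ 0 + 2 * Real.pi by linarith)
      hu.continuousOn h3
    have h4 : η (exp (t' * I)) = η (exp ((0 : ℝ) * I)) := by
      rw [hlift, hlift, hut']
      have h5 : ((u 0 + 2 * Real.pi : ℝ) : ℂ) * I = (u 0 : ℂ) * I + 2 * Real.pi * I := by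
        push_cast; ring
      rw [h5, exp_periodic]
    obtain ⟨j, hj⟩ := exp_eq_real (η.injective h4)
    rw [sub_zero] at hj
    have h6 : u t' ≠ u 0 := by rw [hut']; linarith
    have h7 : t' ≠ 0 := fun h => h6 (by rw [h])
    have h8 : t' ≠ 0 + 2 * Real.pi := by
      intro h
      rw [h] at hut'
      have h9 : u (0 + 2 * Real.pi) = u 0 + 2 * Real.pi * k' := by linarith
      rw [h9] at hut'
      nlinarith
    have h9 : 0 < t' := lt_of_le_of_ne ht'.1 (Ne.symm h7)
    have h10 : t' < 0 + 2 * Real.pi := lt_of_le_of_ne ht'.2 h8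
    rw [hj] at h9 h10
    have h11 : (0 : ℝ) < (j : ℝ) := by
      by_contra hcon
      push Not at hcon
      nlinarith
    have h12 : (j : ℝ) < 1 := by
      by_contra hcon
      push Not at hcon
      nlinarith
    have h13 : (0 : ℤ) < j := by exact_mod_cast h11
    have h14 : j < (1 : ℤ) := by exact_mod_cast h12
    omega
  have hv : ∀ t, U (t + 2 * Real.pi) - (t + 2 * Real.pi) = U t - t := by
    intro t
    have h2 := hper1 t
    rw [hk'1, Int.cast_one, mul_one] at h2
    simp only [hU]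
    linarith
  -- boundedness
  have hvper : Function.Periodic (fun t => U t - t) (2 * Real.pi) := hv
  have hvc : Continuous (fun t => U t - t) := by
    have : Continuous U := hu.sub continuous_const
    exact this.sub continuous_id
  obtain ⟨B, hB⟩ : ∃ B : ℝ, ∀ t, |U t - t| ≤ B := by
    obtain ⟨B, hB⟩ := (isCompact_Icc (a := (0 : ℝ)) (b := 2 * Real.pi)).exists_bound_of_continuousOn
      hvc.continuousOn
    refine ⟨B, fun t => ?_⟩
    obtain ⟨y, hy, hyt⟩ := hvper.exists_mem_Ico₀ (by linarith : 0 < 2 * Real.pi) t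
    have h2 := hB y ⟨hy.1, hy.2.le⟩
    rw [Real.norm_eq_abs] at h2
    have hyt' : U t - t = U y - y := hyt
    rw [hyt']
    exact h2
  have hv0 : ∀ t, U t - t = 0 := by
    have hstep : ∀ t, c * |U t - t| ≤ |U (EE a t) - EE a t| := by
      intro t
      rw [hUE]
      exact EE_expand hs hL (U t) t
    have hiter : ∀ (n : ℕ) (t : ℝ), c ^ n * |U t - t| ≤ B := by
      intro n
      induction n with
      | zero => intro t; rw [pow_zero, one_mul]; exact hB t
      | succ n ih =>
        intro t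
        calc c ^ (n + 1) * |U t - t| = c ^ n * (c * |U t - t|) := by ring
          _ ≤ c ^ n * |U (EE a t) - EE a t| :=
              mul_le_mul_of_nonneg_left (hstep t) (pow_nonneg (by linarith) n)
          _ ≤ B := ih _
    intro t
    by_contra hne
    have h2 : 0 < |U t - t| := abs_pos.mpr hne
    obtain ⟨n, hn⟩ := pow_unbounded_of_one_lt (B / |U t - t|) hc
    rw [div_lt_iff₀ h2] at hn
    linarith [hiter n t]
  intro z hz
  have h2 : z = exp ((arg z : ℝ) * I) := by
    have := norm_mul_exp_arg_mul_I z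
    rw [hz, ofReal_one, one_mul] at this
    exact this.symm
  rw [h2, hlift]
  have h3 : u (arg z) = arg z + 2 * Real.pi * k := by
    have := hv0 (arg z)
    simp only [hU] at this
    linarith
  rw [h3]
  have h4 : ((arg z + 2 * Real.pi * k : ℝ) : ℂ) * I = (arg z : ℂ) * I + k * (2 * Real.pi * I) := by
    push_cast; ring
  rw [h4, exp_add, exp_int_mul_two_pi_mul_I, mul_one]

open MKK in
theorem qcc (h1 : Stmt_Bl) (_h2 : Stmt_Cls) : Stmt_QCC := by
  intro m hm a ha f g
  constructor
  · rintro ⟨φ, γ, H, η, u, M, hφ, hγ, hM, hconj, hη, hH, hu, hmono, hlift, hone⟩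
    refine ⟨φ, γ, H, η, M, hφ, hγ, hM, hconj, hη, ?_, hH⟩
    refine mark h1 m hm a ha η u hη ?_ hu hmono hlift hone
    intro z hz
    have hB := h1 m hm a ha
    have hz' : z ∈ ball (0 : ℂ) 1 := by rwa [mem_ball_zero_iff]
    have hbz : bl a z ∈ ball (0 : ℂ) 1 := by
      rw [mem_ball_zero_iff]; exact hB.ball z hz
    have hηz : η z ∈ ball (0 : ℂ) 1 := by
      rw [mem_ball_zero_iff]; exact (hη z).mpr hz
    have hbηz : bl a (η z) ∈ ball (0 : ℂ) 1 := by
      rw [mem_ball_zero_iff]; exact hB.ball _ ((hη z).mpr hz)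
    have hηbz : η (bl a z) ∈ ball (0 : ℂ) 1 := by
      rw [mem_ball_zero_iff]; exact (hη _).mpr (hB.ball z hz)
    have h3 : hat γ (η (bl a z)) = hat γ (bl a (η z)) := by
      rw [← hH _ hbz, ← hφ.semi z hz', hconj, hH z hz', hγ.semi _ hηz]
    have hinj : InjOn (hat γ) (ball (0 : ℂ) 1) := by
      intro x hx y hy hxy
      unfold hat at hxy
      by_cases hx0 : x = 0
      · by_cases hy0 : y = 0
        · rw [hx0, hy0]
        · rw [if_pos hx0, if_neg hy0] at hxy
          exact absurd hxy (OnePoint.infty_ne_coe _)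
      · by_cases hy0 : y = 0
        · rw [if_neg hx0, if_pos hy0] at hxy
          exact absurd hxy (OnePoint.coe_ne_infty _)
        · rw [if_neg hx0, if_neg hy0, OnePoint.coe_eq_coe] at hxy
          exact hγ.unif.inj ⟨hx, hx0⟩ ⟨hy, hy0⟩ hxy
    exact hinj hηbz hbηz h3
  · rintro ⟨φ, γ, H, η, M, hφ, hγ, hM, hconj, hη, hid, hH⟩
    refine ⟨φ, γ, H, η, id, M, hφ, hγ, hM, hconj, hη, hH, continuous_id, strictMono_id, ?_, ?_⟩
    · intro t
      rw [hid _ (norm_exp_ofReal_mul_I t)]
      rfl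
    · exact hid 1 (by simp)

end Pool.Agent.BlMat
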