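import Pool.Agent.BlMat.DynDefs

set_option autoImplicit false

/-! Marked conjugacies: orientation and marked point instead of the identity on the circle. -/

namespace Pool.Agent.BlMat

open Complex Metric Set Filter Topology
open scoped ComplexConjugate ContDiff

/-- An orientation preserving homeomorphism of the closed disk commuting with `bl a` and fixing
`1` is the identity on the circle. `u` is a lift of the boundary homeomorphism. -/
def Stmt_Mark : Prop :=
  ∀ m : ℕ, 1 ≤ m → ∀ a ∈ Par m, ∀ (η : ℂ ≃ₜ ℂ) (u : ℝ → ℝ), (∀ z, ‖η z‖ < 1 ↔ ‖z‖ < 1) →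
    (∀ z : ℂ, ‖z‖ < 1 → η (bl (m := m) a z) = bl a (η z)) →
    Continuous u → StrictMono u → (∀ t : ℝ, η (exp (t * I)) = exp (u t * I)) → η 1 = 1 →
    ∀ z : ℂ, ‖z‖ = 1 → η z = z

/-- Both notions of marked conjugacy agree. -/
def Stmt_QCC : Prop :=
  ∀ m : ℕ, 1 ≤ m → ∀ a ∈ Par m, ∀ f g : OnePoint ℂ → OnePoint ℂ,
    QCC (m := m) a f g ↔ QCConj a f g

end Pool.Agent.BlMat
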