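import Pool.Agent.BlMat.DynDefs

set_option autoImplicit false

/-! Logarithmic lifts of Blaschke products and half-plane model conjugacies: definitions and
frozen statements. -/

namespace Pool.Agent.BlMat

open Complex Metric Set Filter Topology MeasureTheory
open scoped ComplexConjugate ContDiff

/-- `log (bl a z / z^(m+1))` near the unit circle. -/
noncomputable def gl {m : ℕ} (a : Fin m → ℂ) (z : ℂ) : ℂ :=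
  ∑ j, (log (1 - a j / z) - log (1 - conj (a j) * z) + log (1 - conj (a j)) - log (1 - a j))

/-- The logarithmic lift of `bl a` to a strip around the imaginary axis. -/
noncomputable def El {m : ℕ} (a : Fin m → ℂ) (w : ℂ) : ℂ := (m + 1 : ℂ) * w + gl a (exp w)

/-- The lift `El a` is an expanding map near the imaginary axis, with inverse branch `L`. -/
structure StripFacts {m : ℕ} (a : Fin m → ℂ) (s c : ℝ) (L : ℂ → ℂ) : Prop where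
  small : ∀ j, ‖a j‖ < Real.exp (-(2 * s))
  diff : DifferentiableOn ℂ (El a) {w : ℂ | |w.re| < 2 * s}
  exp_eq : ∀ w : ℂ, |w.re| < 2 * s → exp (El a w) = bl a (exp w)
  per : ∀ w : ℂ, El a (w + 2 * Real.pi * I) = El a w + (m + 1 : ℂ) * (2 * Real.pi * I)
  zero : El a 0 = 0
  refl : ∀ w : ℂ, |w.re| < 2 * s → El a (-conj w) = -conj (El a w)
  deriv_re : ∀ w : ℂ, |w.re| < 2 * s → c ≤ (deriv (El a) w).re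
  re_le : ∀ w : ℂ, |w.re| < 2 * s → w.re ≤ 0 → (El a w).re ≤ c * w.re
  expand : ∀ w w' : ℂ, |w.re| < 2 * s → |w'.re| < 2 * s → c * ‖w - w'‖ ≤ ‖El a w - El a w'‖
  L_eq : ∀ ζ : ℂ, |ζ.re| ≤ s → |(L ζ).re| ≤ |ζ.re| / c ∧ El a (L ζ) = ζ
  L_inv : ∀ w : ℂ, |w.re| < 2 * s → |(El a w).re| ≤ s → L (El a w) = w
  L_lip : ∀ ζ ζ' : ℂ, |ζ.re| ≤ s → |ζ'.re| ≤ s → ‖L ζ - L ζ'‖ ≤ ‖ζ - ζ'‖ / c
  L_per : ∀ ζ : ℂ, |ζ.re| ≤ s → L (ζ + (m + 1 : ℂ) * (2 * Real.pi * I)) = L ζ + 2 * Real.pi * I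
  L_diff : DifferentiableOn ℂ L {ζ : ℂ | |ζ.re| < s}

/-- Uniform strip facts near every parameter. -/
def Stmt_Strip : Prop :=
  ∀ m : ℕ, 1 ≤ m → ∀ a₀ ∈ Par m, ∃ s c C : ℝ, 0 < s ∧ 1 < c ∧
    ∀ᶠ a in 𝓝 (a₀ : Fin m → ℂ), (∃ L : ℂ → ℂ, StripFacts a s c L) ∧
      ∀ w : ℂ, |w.re| < 2 * s → ‖El a w - El a₀ w‖ ≤ C * ‖a - a₀‖

/-- A model conjugacy in the logarithmic coordinate: periodic homeomorphisms `Ψ`, `Ψs j` of the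
plane, symmetric under reflection in the imaginary axis. -/
structure HalfModel {m : ℕ} (a a' : Fin m → ℂ) (k s : ℝ) (Ψ : ℂ ≃ₜ ℂ) (Ψs : ℕ → ℂ ≃ₜ ℂ) :
    Prop where
  k_nonneg : 0 ≤ k
  k_lt : k < 1
  s_pos : 0 < s
  small : ∀ j, ‖a j‖ < Real.exp (-(2 * s))
  small' : ∀ j, ‖a' j‖ < Real.exp (-(2 * s))
  refl : ∀ w, Ψ (-conj w) = -conj (Ψ w)
  refl' : ∀ j w, Ψs j (-conj w) = -conj (Ψs j w)
  per : ∀ w : ℂ, Ψ (w + 2 * Real.pi * I) = Ψ w + 2 * Real.pi * I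
  per' : ∀ (j : ℕ) (w : ℂ), Ψs j (w + 2 * Real.pi * I) = Ψs j w + 2 * Real.pi * I
  re_neg : ∀ w : ℂ, (Ψ w).re < 0 ↔ w.re < 0
  re_neg' : ∀ (j : ℕ) (w : ℂ), (Ψs j w).re < 0 ↔ w.re < 0
  zero : Ψ 0 = 0
  deep : ∀ w : ℂ, w.re ≤ -s → Ψ w = w
  deep' : ∀ (j : ℕ) (w : ℂ), w.re ≤ -s → Ψs j w = w
  smooth : ∀ j, ContDiffOn ℝ ∞ (Ψs j) {w : ℂ | w.re < 0}
  ne : ∀ (j : ℕ) (w : ℂ), w.re < 0 → dz (Ψs j) w ≠ 0
  dil : ∀ (j : ℕ) (w : ℂ), w.re < 0 → ‖dzb (Ψs j) w‖ ≤ k * ‖dz (Ψs j) w‖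
  hol : ∀ j : ℕ, ∃ ε : ℝ, 0 < ε ∧ ∀ w : ℂ, -ε < w.re → w.re < 0 → dzb (Ψs j) w = 0
  stab : ∀ ε : ℝ, 0 < ε → ∀ᶠ j in atTop, ∀ w : ℂ, w.re ≤ -ε → Ψs j w = Ψ w
  conj_j : ∀ (j : ℕ) (w : ℂ), -s ≤ w.re → w.re < 0 → -s ≤ (El a w).re →
    Ψs j (El a w) = El a' (Ψs (j + 1) w)
  inner : ∀ (j : ℕ) (w : ℂ), w.re < 0 → ¬ (-s < w.re ∧ -s < (El a w).re) →
    Ψs (j + 1) w = Ψs 0 w ∧ ‖bl a' (exp (Ψs 0 w))‖ ≤ Real.exp (-s)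

/-- Existence of half-plane models. -/
def Stmt_HalfModel : Prop :=
  ∀ m : ℕ, 1 ≤ m → ∀ a ∈ Par m, ∀ᶠ a' in 𝓝 (a : Fin m → ℂ),
    (∃ k s Ψ Ψs, HalfModel a a' k s Ψ Ψs) ∧ (∃ k s Ψ Ψs, HalfModel a' a k s Ψ Ψs)

end Pool.Agent.BlMat
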