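import Pool.Agent.BlMat.Basic

set_option autoImplicit false

/-! Module R1: null sets are removable for limits of smooth quasiconformal maps. -/

namespace Pool.Agent.BlMat.R1

open Complex Metric Set Filter Topology MeasureTheory
open scoped ComplexConjugate ContDiff

theorem integrable_of_compact {f : ℂ → ℂ} {K : Set ℂ} (hK : IsCompact K)
    (hf : ContinuousOn f K) (h0 : ∀ x, x ∉ K → f x = 0) : Integrable f := by
  rw [← integrableOn_iff_integrable_of_support_subset (s := K)]
  · exact hf.integrableOn_compact hK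
  · intro x hx
    by_contra h
    exact hx (h0 x h)

/-- Integration by parts for `dzb`. -/
theorem ibp {F g : ℂ → ℂ} (hF : Continuous F) (hg : ContDiff ℝ 1 g) (hgc : HasCompactSupport g)
    (hd : ∀ x ∈ tsupport g, DifferentiableAt ℝ F x)
    (hc : ContinuousOn (fderiv ℝ F) (tsupport g)) :
    ∫ x, F x * dzb g x = - ∫ x, dzb F x * g x := by
  have hfg : Continuous (fderiv ℝ g) := hg.continuous_fderiv (by norm_num)
  have z1 : ∀ x, x ∉ tsupport g → g x = 0 := fun x hx => image_eq_zero_of_notMem_tsupport hx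
  have z2 : ∀ x, x ∉ tsupport g → fderiv ℝ g x = 0 := by
    intro x hx
    by_contra h
    exact hx (support_fderiv_subset ℝ h)
  have key : ∀ v : ℂ, Integrable (fun x => fderiv ℝ F x v * g x) ∧
      Integrable (fun x => F x * fderiv ℝ g x v) ∧
      ∫ x, F x * fderiv ℝ g x v = - ∫ x, fderiv ℝ F x v * g x := by
    intro v
    have i1 : Integrable (fun x => fderiv ℝ F x v * g x) := by
      refine integrable_of_compact hgc ?_ (fun x hx => by rw [z1 x hx, mul_zero])
      exact (hc.clm_apply continuousOn_const).mul hg.continuous.continuousOn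
    have i2 : Integrable (fun x => F x * fderiv ℝ g x v) := by
      refine integrable_of_compact hgc ?_ (fun x hx => by rw [z2 x hx]; simp)
      fun_prop
    have i3 : Integrable (fun x => F x * g x) := by
      refine integrable_of_compact hgc ?_ (fun x hx => by rw [z1 x hx, mul_zero])
      have := hg.continuous
      fun_prop
    exact ⟨i1, i2, integral_mul_fderiv_eq_neg_fderiv_mul_of_integrable i1 i2 i3 hd
      (fun x _ => hg.differentiable (by norm_num) x)⟩
  obtain ⟨a1, b1, c1⟩ := key 1
  obtain ⟨a2, b2, c2⟩ := key I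
  have e1 : (fun x => F x * dzb g x) =
      fun x => (1 / 2) * (F x * fderiv ℝ g x 1) + (I / 2) * (F x * fderiv ℝ g x I) := by
    funext x
    rw [dzb]; ring
  have e2 : (fun x => dzb F x * g x) =
      fun x => (1 / 2) * (fderiv ℝ F x 1 * g x) + (I / 2) * (fderiv ℝ F x I * g x) := by
    funext x
    rw [dzb]; ring
  rw [e1, e2, integral_add (b1.const_mul _) (b2.const_mul _),
    integral_add (a1.const_mul _) (a2.const_mul _), integral_const_mul, integral_const_mul,
    integral_const_mul, integral_const_mul, c1, c2]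
  ring

/-- Weyl's lemma, for continuous functions vanishing at infinity. -/
theorem weyl {S : ℂ → ℂ} (hS : Continuous S) (h0 : Tendsto S (cocompact ℂ) (𝓝 0))
    (hz : ∀ g : ℂ → ℂ, ContDiff ℝ 1 g → HasCompactSupport g → ∫ x, S x * dzb g x = 0) (x : ℂ) :
    S x = 0 := by
  have main : ∀ φ : ContDiffBump (0 : ℂ), ∀ x : ℂ,
      (MeasureTheory.convolution (φ.normed volume) S (ContinuousLinearMap.lsmul ℝ ℝ) volume) x
        = 0 := by
    intro φ
    set U : ℂ → ℂ := MeasureTheory.convolution (φ.normed volume) S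
      (ContinuousLinearMap.lsmul ℝ ℝ) volume with hU
    set ρ : ℂ → ℝ := φ.normed volume with hρ
    have hρs : ContDiff ℝ 1 ρ := φ.contDiff_normed (n := 1)
    have hρc : HasCompactSupport ρ := φ.hasCompactSupport_normed
    have hUflip : U = MeasureTheory.convolution S ρ (ContinuousLinearMap.lsmul ℝ ℝ).flip
        volume := by
      rw [hU, convolution_flip]
    have hder : ∀ z, HasFDerivAt U ((MeasureTheory.convolution S (fderiv ℝ ρ)
        (ContinuousLinearMap.precompR ℂ (ContinuousLinearMap.lsmul ℝ ℝ).flip) volume) z) z := by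
      intro z
      rw [hUflip]
      exact hρc.hasFDerivAt_convolution_right _ (hS.locallyIntegrable) hρs z
    have hint : ∀ z v : ℂ, fderiv ℝ U z v = ∫ t, S t * ((fderiv ℝ ρ (z - t) v : ℝ) : ℂ) := by
      intro z v
      rw [(hder z).fderiv, convolution_precompR_apply _ hS.locallyIntegrable
        (hρc.fderiv ℝ) (hρs.continuous_fderiv (by norm_num)), convolution_def]
      congr 1
      funext t
      simp [mul_comm]
    have hzero : ∀ z, dzb U z = 0 := by
      intro z
      set g : ℂ → ℂ := fun t => ((ρ (z - t) : ℝ) : ℂ) with hg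
      have hgs : ContDiff ℝ 1 g := by
        have : ContDiff ℝ 1 (fun t : ℂ => ρ (z - t)) := hρs.comp (contDiff_const.sub contDiff_id)
        exact ofRealCLM.contDiff.comp this
      have hgc : HasCompactSupport g := by
        have h1 : HasCompactSupport (fun t : ℂ => ρ (z - t)) :=
          hρc.comp_homeomorph (Homeomorph.subLeft z)
        exact h1.comp_left (g := fun x : ℝ => (x : ℂ)) (by simp)
      have hgd : ∀ t v, fderiv ℝ g t v = - ((fderiv ℝ ρ (z - t) v : ℝ) : ℂ) := by
        intro t v
        have h1 : HasFDerivAt (fun t : ℂ => ρ (z - t)) (-(fderiv ℝ ρ (z - t))) t := by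
          have h2 := ((hρs.differentiable (by norm_num)) (z - t)).hasFDerivAt
          have h3 : HasFDerivAt (fun t : ℂ => z - t) (-(ContinuousLinearMap.id ℝ ℂ)) t :=
            (hasFDerivAt_id t).const_sub z
          have h4 : HasFDerivAt (fun t : ℂ => ρ (z - t))
              ((fderiv ℝ ρ (z - t)).comp (-(ContinuousLinearMap.id ℝ ℂ))) t := h2.comp t h3
          have h5 : -(fderiv ℝ ρ (z - t)) =
              (fderiv ℝ ρ (z - t)).comp (-(ContinuousLinearMap.id ℝ ℂ)) := by
            ext v
            simp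
          rw [h5]
          exact h4
        have h5 : HasFDerivAt g (ofRealCLM.comp (-(fderiv ℝ ρ (z - t)))) t :=
          ofRealCLM.hasFDerivAt.comp t h1
        rw [h5.fderiv]
        simp
      have h6 := hz g hgs hgc
      have i1 : ∀ v : ℂ, Integrable (fun t => S t * ((fderiv ℝ ρ (z - t) v : ℝ) : ℂ)) := by
        intro v
        have hfg : Continuous (fderiv ℝ g) := hgs.continuous_fderiv (by norm_num)
        have : (fun t => S t * ((fderiv ℝ ρ (z - t) v : ℝ) : ℂ)) =
            fun t => S t * (- fderiv ℝ g t v) := by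
          funext t; rw [hgd]; simp
        rw [this]
        refine integrable_of_compact hgc (by fun_prop) ?_
        intro t ht
        have : fderiv ℝ g t = 0 := by
          by_contra h
          exact ht (support_fderiv_subset ℝ h)
        rw [this]; simp
      have e1 : (fun t => S t * dzb g t) = fun t => (-1 / 2) *
          (S t * ((fderiv ℝ ρ (z - t) 1 : ℝ) : ℂ)) + (-I / 2) *
          (S t * ((fderiv ℝ ρ (z - t) I : ℝ) : ℂ)) := by
        funext t
        rw [dzb, hgd, hgd]; ring
      rw [e1, integral_add ((i1 1).const_mul _) ((i1 I).const_mul _), integral_const_mul,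
        integral_const_mul] at h6
      rw [dzb, hint, hint]
      linear_combination -h6
    have hUd : Differentiable ℂ U := fun z =>
      (differentiableAt_of_dzb (hder z).differentiableAt (hzero z)).1
    have hUt : Tendsto U (cocompact ℂ) (𝓝 0) := by
      rw [Metric.tendsto_nhds]
      intro ε hε
      have h1 : ∀ᶠ z in cocompact ℂ, dist (S z) 0 < ε / 4 :=
        (Metric.tendsto_nhds.mp h0) (ε / 4) (by positivity)
      rw [← cobounded_eq_cocompact, (hasBasis_cobounded_norm).eventually_iff] at h1 ⊢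
      obtain ⟨r, -, hr⟩ := h1
      refine ⟨r + φ.rOut, trivial, ?_⟩
      intro z hz'
      have hz1 : r + φ.rOut ≤ ‖z‖ := hz'
      have hpos := φ.rOut_pos
      have h2 : ∀ y ∈ ball z φ.rOut, dist (S y) (S z) ≤ ε / 2 := by
        intro y hy
        have h3 : r ≤ ‖y‖ := by
          have := mem_ball.mp hy
          rw [dist_eq_norm] at this
          have h4 : ‖z‖ ≤ ‖y‖ + ‖y - z‖ := by
            have := norm_sub_le y (y - z)
            simpa using this
          linarith
        have h5 : dist (S y) 0 < ε / 4 := hr (show y ∈ _ from h3)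
        have h6 : dist (S z) 0 < ε / 4 := hr (show z ∈ _ from (by linarith : r ≤ ‖z‖))
        have h7 := dist_triangle_right (S y) (S z) 0
        linarith
      have h8 := φ.dist_normed_convolution_le (μ := volume) hS.aestronglyMeasurable h2
      have h9 : dist (S z) 0 < ε / 4 := hr (show z ∈ _ from (by linarith : r ≤ ‖z‖))
      have h10 := dist_triangle (U z) (S z) 0
      have h11 : dist (U z) (S z) ≤ ε / 2 := h8
      linarith
    intro x
    exact hUd.apply_eq_of_tendsto_cocompact x hUt
  let φ : ℕ → ContDiffBump (0 : ℂ) := fun n =>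
    ⟨1 / (2 * ((n : ℝ) + 1)), 1 / ((n : ℝ) + 1), by positivity, by
      have : (0 : ℝ) < (n : ℝ) + 1 := by positivity
      rw [div_lt_div_iff₀ (by positivity) this]
      linarith⟩
  have hφ : Tendsto (fun n => (φ n).rOut) atTop (𝓝 0) := tendsto_one_div_add_atTop_nhds_zero_nat
  have h1 := ContDiffBump.convolution_tendsto_right_of_continuous (μ := volume) hφ hS x
  have h2 : (fun n => (MeasureTheory.convolution ((φ n).normed volume) S
      (ContinuousLinearMap.lsmul ℝ ℝ) volume) x) = fun _ => 0 := by
    funext n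
    exact main (φ n) x
  have h3 : Tendsto (fun _ : ℕ => (0 : ℂ)) atTop (𝓝 (S x)) := by
    rw [← h2]; exact h1
  exact tendsto_nhds_unique h3 tendsto_const_nhds

/-- Area bound: the `L²` norms of `∂̄ Ts_j` on a ball are bounded. -/
theorem l2_bound {k : ℝ} (hk : k < 1) (T : ℂ ≃ₜ ℂ) (Ts : ℕ → ℂ ≃ₜ ℂ)
    (hq : ∀ j, SmoothQC k (Ts j)) (hT : TendstoLocallyUniformly (fun j => (Ts j : ℂ → ℂ)) T atTop)
    (R : ℝ) : ∃ C : ℝ, 0 ≤ C ∧ ∀ᶠ j in atTop, ∫ x in closedBall (0 : ℂ) R, ‖dzb (Ts j) x‖ ^ 2 ≤ C := by
  have hk0 : 0 ≤ k := by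
    by_contra h
    have h1 := (hq 0).dil 0
    have h2 := norm_pos_iff.mpr ((hq 0).ne 0)
    have h3 := norm_nonneg (dzb (Ts 0) 0)
    nlinarith
  set B := closedBall (0 : ℂ) R with hB
  have hBc : IsCompact B := isCompact_closedBall _ _
  have hu : TendstoUniformlyOn (fun j => (Ts j : ℂ → ℂ)) T atTop B :=
    (tendstoLocallyUniformly_iff_forall_isCompact.mp hT) B hBc
  obtain ⟨R1, hR1⟩ := (hBc.image T.continuous).isBounded.subset_closedBall (0 : ℂ)
  set V := volume (closedBall (0 : ℂ) (R1 + 1)) with hV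
  have hVt : V ≠ ⊤ := measure_closedBall_lt_top.ne
  refine ⟨k ^ 2 / (1 - k ^ 2) * V.toReal, ?_, ?_⟩
  · have : 0 < 1 - k ^ 2 := by nlinarith
    positivity
  · have h1 := (Metric.tendstoUniformlyOn_iff.mp hu) 1 one_pos
    filter_upwards [h1] with j hj
    have hsub : (Ts j) '' B ⊆ closedBall (0 : ℂ) (R1 + 1) := by
      rintro _ ⟨x, hx, rfl⟩
      have h2 : T x ∈ closedBall (0 : ℂ) R1 := hR1 ⟨x, hx, rfl⟩
      rw [mem_closedBall] at h2 ⊢
      have h3 := hj x hx
      have h4 := dist_triangle_left (Ts j x) 0 (T x)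
      linarith
    have hd := (hq j).differentiable
    have hdet : ∀ x, 0 < (fderiv ℝ (Ts j) x).det := fun x => (hq j).det_pos hk x
    have h5 : ∫⁻ x in B, ENNReal.ofReal |(fderiv ℝ (Ts j) x).det| = volume ((Ts j) '' B) :=
      lintegral_abs_det_fderiv_eq_addHaar_image volume hBc.measurableSet
        (fun x _ => (hd x).hasFDerivAt.hasFDerivWithinAt) ((Ts j).injective.injOn)
    have hcont : Continuous (fun x => (fderiv ℝ (Ts j) x).det) := by
      have e : (fun x => (fderiv ℝ (Ts j) x).det) =
          fun x => ‖dz (Ts j) x‖ ^ 2 - ‖dzb (Ts j) x‖ ^ 2 := by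
        funext x; exact det_fderiv _ _
      rw [e]
      have c1 := continuous_dz (hq j).smooth
      have c2 := continuous_dzb (hq j).smooth
      fun_prop
    have h6 : ∫ x in B, (fderiv ℝ (Ts j) x).det ≤ V.toReal := by
      rw [integral_eq_lintegral_of_nonneg_ae (Eventually.of_forall fun x => (hdet x).le)
        hcont.aestronglyMeasurable]
      refine ENNReal.toReal_mono hVt ?_
      have h7 : ∫⁻ x in B, ENNReal.ofReal (fderiv ℝ (Ts j) x).det =
          ∫⁻ x in B, ENNReal.ofReal |(fderiv ℝ (Ts j) x).det| := by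
        congr 1
        funext x
        rw [abs_of_pos (hdet x)]
      rw [h7, h5]
      exact measure_mono hsub
    have h8 : ∫ x in B, ‖dzb (Ts j) x‖ ^ 2 ≤
        ∫ x in B, k ^ 2 / (1 - k ^ 2) * (fderiv ℝ (Ts j) x).det := by
      refine setIntegral_mono ?_ ?_ ?_
      · have c2 := continuous_dzb (hq j).smooth
        exact (by fun_prop : Continuous fun x => ‖dzb (Ts j) x‖ ^ 2).continuousOn.integrableOn_compact
          hBc
      · exact (continuous_const.mul hcont).continuousOn.integrableOn_compact hBc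
      · intro x
        have h9 : 0 < 1 - k ^ 2 := by nlinarith
        have h10 := (hq j).dil x
        have h11 := norm_nonneg (dzb (Ts j) x)
        have h12 := norm_nonneg (dz (Ts j) x)
        have h13 : ‖dzb (Ts j) x‖ ^ 2 ≤ k ^ 2 * ‖dz (Ts j) x‖ ^ 2 := by
          calc ‖dzb (Ts j) x‖ ^ 2 ≤ (k * ‖dz (Ts j) x‖) ^ 2 := by
                exact pow_le_pow_left₀ h11 h10 2
            _ = _ := by ring
        show ‖dzb (Ts j) x‖ ^ 2 ≤ k ^ 2 / (1 - k ^ 2) * (fderiv ℝ (Ts j) x).det
        rw [det_fderiv, div_mul_eq_mul_div, le_div_iff₀ h9]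
        nlinarith
    rw [integral_const_mul] at h8
    have h14 : 0 ≤ k ^ 2 / (1 - k ^ 2) := by
      have : 0 < 1 - k ^ 2 := by nlinarith
      positivity
    calc _ ≤ _ := h8
      _ ≤ _ := mul_le_mul_of_nonneg_left h6 h14

/-- Limit of the pairings. -/
theorem pairing_tendsto {T : ℂ → ℂ} {Ts : ℕ → ℂ → ℂ} (hTc : Continuous T)
    (hTsc : ∀ j, Continuous (Ts j))
    (hT : TendstoLocallyUniformly Ts T atTop) {h : ℂ → ℂ} (hh : Continuous h)
    (hc : HasCompactSupport h) (ε : ℝ) (hε : 0 < ε) :
    ∀ᶠ j in atTop, ‖(∫ x, T x * h x) - ∫ x, Ts j x * h x‖ ≤ ε := by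
  have hu : TendstoUniformlyOn Ts T atTop (tsupport h) :=
    (tendstoLocallyUniformly_iff_forall_isCompact.mp hT) _ hc
  set A := ∫ x, ‖h x‖ with hA
  have hA0 : 0 ≤ A := integral_nonneg fun x => norm_nonneg _
  have h1 := (Metric.tendstoUniformlyOn_iff.mp hu) (ε / (A + 1)) (by positivity)
  filter_upwards [h1] with j hj
  have z1 : ∀ x, x ∉ tsupport h → h x = 0 := fun x hx => image_eq_zero_of_notMem_tsupport hx
  have i1 : Integrable (fun x => T x * h x) :=
    integrable_of_compact hc (by fun_prop) (fun x hx => by rw [z1 x hx, mul_zero])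
  have i2 : Integrable (fun x => Ts j x * h x) := by
    have := hTsc j
    exact integrable_of_compact hc (by fun_prop) (fun x hx => by rw [z1 x hx, mul_zero])
  have i3 : Integrable h := hh.integrable_of_hasCompactSupport hc
  rw [← integral_sub i1 i2]
  calc ‖∫ x, (T x * h x - Ts j x * h x)‖ ≤ ∫ x, ε / (A + 1) * ‖h x‖ := by
        refine norm_integral_le_of_norm_le (i3.norm.const_mul _) (Eventually.of_forall ?_)
        intro x
        by_cases hx : x ∈ tsupport h
        · rw [← sub_mul, norm_mul]
          refine mul_le_mul_of_nonneg_right ?_ (norm_nonneg _)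
          have := hj x hx
          rw [dist_eq_norm] at this
          exact this.le
        · rw [z1 x hx]; simp
    _ = ε / (A + 1) * A := by rw [integral_const_mul]
    _ ≤ ε := by
        rw [div_mul_eq_mul_div, div_le_iff₀ (by positivity)]
        nlinarith

theorem pairing_zero {k : ℝ} (hk : k < 1) (T : ℂ ≃ₜ ℂ) (Ts : ℕ → ℂ ≃ₜ ℂ) (J : Set ℂ)
    (hq : ∀ j, SmoothQC k (Ts j)) (hT : TendstoLocallyUniformly (fun j => (Ts j : ℂ → ℂ)) T atTop)
    (hJ : IsClosed J) (hJ0 : volume J = 0) (hd : DifferentiableOn ℂ T Jᶜ)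
    (g : ℂ → ℂ) (hg : ContDiff ℝ 1 g) (hgc : HasCompactSupport g) :
    ∫ x, T x * dzb g x = 0 := by
  obtain ⟨R, hR⟩ := IsCompact.isBounded (s := tsupport g) hgc |>.subset_closedBall (0 : ℂ)
  obtain ⟨C, hC0, hC⟩ := l2_bound hk T Ts hq hT R
  obtain ⟨M, hM⟩ := hgc.exists_bound_of_continuous hg.continuous
  have hM0 : 0 ≤ M := (norm_nonneg _).trans (hM 0)
  by_contra hne
  set a := ‖∫ x, T x * dzb g x‖ with ha
  have hapos : 0 < a := norm_pos_iff.mpr hne
  obtain ⟨δ, hδdef⟩ : ∃ δ : ℝ, δ = a / (4 * (C + 1)) := ⟨_, rfl⟩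
  have hδ : 0 < δ := by rw [hδdef]; positivity
  obtain ⟨η, hηdef⟩ : ∃ η : ℝ, η = a * δ / (4 * (M ^ 2 + 1)) := ⟨_, rfl⟩
  have hη : 0 < η := by rw [hηdef]; positivity
  obtain ⟨E, hEJ, hEo, hE⟩ : ∃ E, E ⊇ J ∧ IsOpen E ∧ volume E < ENNReal.ofReal η :=
    J.exists_isOpen_lt_of_lt _ (by rw [hJ0]; exact ENNReal.ofReal_pos.mpr hη)
  have hEt : volume E ≠ ⊤ := (hE.trans ENNReal.ofReal_lt_top).ne
  have hEreal : volume.real E ≤ η := by
    have := ENNReal.toReal_mono ENNReal.ofReal_ne_top hE.le
    rwa [ENNReal.toReal_ofReal hη.le] at this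
  obtain ⟨χ, hχ1, hχ0, hχ⟩ := exists_contMDiffMap_one_nhds_of_subset_interior (n := 1)
    (modelWithCornersSelf ℝ ℂ) hJ (hEo.interior_eq.symm ▸ hEJ)
  have hχs : ContDiff ℝ 1 (χ : ℂ → ℝ) := χ.contMDiff.contDiff
  have hχc : ContDiff ℝ 1 (fun x : ℂ => ((χ x : ℝ) : ℂ)) := ofRealCLM.contDiff.comp hχs
  set g1 : ℂ → ℂ := fun x => ((χ x : ℝ) : ℂ) * g x with hg1
  set g2 : ℂ → ℂ := fun x => (1 - ((χ x : ℝ) : ℂ)) * g x with hg2
  have hg1s : ContDiff ℝ 1 g1 := hχc.mul hg
  have hg2s : ContDiff ℝ 1 g2 := (contDiff_const.sub hχc).mul hg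
  have hg1c : HasCompactSupport g1 := hgc.mul_left
  have hg2c : HasCompactSupport g2 := hgc.mul_left
  have hts1 : tsupport g1 ⊆ closedBall (0 : ℂ) R := (tsupport_mul_subset_right).trans hR
  have hgsum : ∀ x, dzb g x = dzb g1 x + dzb g2 x := by
    intro x
    have h1 := (dz_add (hg1s.differentiable (by norm_num) x) (hg2s.differentiable (by norm_num) x)).2
    rw [← h1]
    congr 1
    funext w
    simp only [hg1, hg2]; ring
  have hTc : Continuous T := T.continuous
  have z1 : ∀ x, x ∉ tsupport g1 → dzb g1 x = 0 := by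
    intro x hx
    have : fderiv ℝ g1 x = 0 := by
      by_contra h
      exact hx (support_fderiv_subset ℝ h)
    simp [dzb, this]
  have z2 : ∀ x, x ∉ tsupport g2 → dzb g2 x = 0 := by
    intro x hx
    have : fderiv ℝ g2 x = 0 := by
      by_contra h
      exact hx (support_fderiv_subset ℝ h)
    simp [dzb, this]
  have cd1 : Continuous (dzb g1) := continuous_dzb hg1s
  have cd2 : Continuous (dzb g2) := continuous_dzb hg2s
  have hcd1 : HasCompactSupport (dzb g1) := HasCompactSupport.intro hg1c z1
  have i1 : Integrable (fun x => T x * dzb g1 x) :=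
    integrable_of_compact hg1c (by fun_prop) (fun x hx => by rw [z1 x hx, mul_zero])
  have i2 : Integrable (fun x => T x * dzb g2 x) :=
    integrable_of_compact hg2c (by fun_prop) (fun x hx => by rw [z2 x hx, mul_zero])
  have hsplit : ∫ x, T x * dzb g x = (∫ x, T x * dzb g1 x) + ∫ x, T x * dzb g2 x := by
    rw [← integral_add i1 i2]
    congr 1
    funext x
    rw [hgsum]; ring
  have hoff : ∀ x ∈ tsupport g2, x ∉ J := by
    intro x hx hxJ
    have h1 : ∀ᶠ y in 𝓝 x, χ y = 1 := hχ1.filter_mono (nhds_le_nhdsSet hxJ)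
    have h2 : g2 =ᶠ[𝓝 x] 0 := by
      filter_upwards [h1] with y hy
      simp [hg2, hy]
    exact (notMem_tsupport_iff_eventuallyEq.mpr h2) hx
  have hdiff : ∀ x ∈ tsupport g2, DifferentiableAt ℂ T x := fun x hx =>
    hd.differentiableAt (hJ.isOpen_compl.mem_nhds (hoff x hx))
  have hzero2 : ∫ x, T x * dzb g2 x = 0 := by
    rw [ibp hTc hg2s hg2c (fun x hx => (hdiff x hx).restrictScalars ℝ) ?_]
    · have : (fun x => dzb T x * g2 x) = fun _ => 0 := by
        funext x
        by_cases hx : x ∈ tsupport g2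
        · rw [(dzb_eq_zero_of_differentiableAt (hdiff x hx)).1, zero_mul]
        · rw [image_eq_zero_of_notMem_tsupport hx, mul_zero]
      rw [this]; simp
    · have h1 : ContDiffOn ℝ 1 T Jᶜ := (hd.contDiffOn hJ.isOpen_compl).restrict_scalars ℝ
      have h2 := h1.continuousOn_fderiv_of_isOpen hJ.isOpen_compl (le_refl _)
      exact h2.mono fun x hx => hoff x hx
  have hlim := pairing_tendsto (T := T) (Ts := fun j => (Ts j : ℂ → ℂ)) hTc
    (fun j => (Ts j).continuous) hT cd1 hcd1 (a / 4) (by positivity)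
  obtain ⟨j, hj1, hj2⟩ := (hlim.and hC).exists
  have hibp : ∫ x, Ts j x * dzb g1 x = - ∫ x, dzb (Ts j) x * g1 x :=
    ibp (Ts j).continuous hg1s hg1c (fun x _ => (hq j).differentiable x)
      ((hq j).smooth.continuous_fderiv (by norm_num)).continuousOn
  have cdj : Continuous (dzb (Ts j)) := continuous_dzb (hq j).smooth
  have hbd : ‖∫ x, dzb (Ts j) x * g1 x‖ ≤ δ / 2 * C + M ^ 2 / (2 * δ) * η := by
    have hI1 : Integrable ((closedBall (0 : ℂ) R).indicator
        (fun x => δ / 2 * ‖dzb (Ts j) x‖ ^ 2)) := by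
      rw [integrable_indicator_iff measurableSet_closedBall]
      exact (by fun_prop : Continuous fun x => δ / 2 * ‖dzb (Ts j) x‖ ^ 2).continuousOn
        |>.integrableOn_compact (isCompact_closedBall _ _)
    have hI2 : Integrable (E.indicator (fun _ : ℂ => M ^ 2 / (2 * δ))) := by
      rw [integrable_indicator_iff hEo.measurableSet]
      exact integrableOn_const hEt
    calc ‖∫ x, dzb (Ts j) x * g1 x‖ ≤ ∫ x, ((closedBall (0 : ℂ) R).indicator
        (fun x => δ / 2 * ‖dzb (Ts j) x‖ ^ 2) x + E.indicator (fun _ => M ^ 2 / (2 * δ)) x) := by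
          refine norm_integral_le_of_norm_le (hI1.add hI2) (Eventually.of_forall ?_)
          intro x
          have hn1 : 0 ≤ (closedBall (0 : ℂ) R).indicator
              (fun x => δ / 2 * ‖dzb (Ts j) x‖ ^ 2) x :=
            indicator_nonneg (fun _ _ => by positivity) _
          have hn2 : 0 ≤ E.indicator (fun _ : ℂ => M ^ 2 / (2 * δ)) x :=
            indicator_nonneg (fun _ _ => by positivity) _
          by_cases hx1 : x ∈ tsupport g1
          · by_cases hx2 : x ∈ E
            · rw [indicator_of_mem (hts1 hx1), indicator_of_mem hx2, norm_mul]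
              have h1 : ‖g1 x‖ ≤ M := by
                have h2 := hχ x
                calc ‖g1 x‖ = |χ x| * ‖g x‖ := by
                      simp [hg1]
                  _ ≤ 1 * M := by
                      refine mul_le_mul ?_ (hM x) (norm_nonneg _) zero_le_one
                      rw [abs_of_nonneg h2.1]; exact h2.2
                  _ = M := one_mul M
              have h3 := norm_nonneg (g1 x)
              have h4 := norm_nonneg (dzb (Ts j) x)
              have h5 : ‖dzb (Ts j) x‖ * ‖g1 x‖ ≤ ‖dzb (Ts j) x‖ * M :=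
                mul_le_mul_of_nonneg_left h1 h4
              refine h5.trans ?_
              have h6 : δ / 2 * ‖dzb (Ts j) x‖ ^ 2 + M ^ 2 / (2 * δ) - ‖dzb (Ts j) x‖ * M =
                  (δ * ‖dzb (Ts j) x‖ - M) ^ 2 / (2 * δ) := by
                field_simp
                ring
              have h7 : 0 ≤ (δ * ‖dzb (Ts j) x‖ - M) ^ 2 / (2 * δ) := by positivity
              linarith
            · have : g1 x = 0 := by simp [hg1, hχ0 x hx2]
              rw [this]; simp only [mul_zero, norm_zero]; linarith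
          · rw [image_eq_zero_of_notMem_tsupport hx1]
            simp only [mul_zero, norm_zero]; linarith
      _ = δ / 2 * (∫ x in closedBall (0 : ℂ) R, ‖dzb (Ts j) x‖ ^ 2) +
          M ^ 2 / (2 * δ) * volume.real E := by
          rw [integral_add hI1 hI2, integral_indicator measurableSet_closedBall,
            integral_indicator hEo.measurableSet, integral_const_mul, setIntegral_const]
          simp [mul_comm]
      _ ≤ δ / 2 * C + M ^ 2 / (2 * δ) * η := by
          refine add_le_add (mul_le_mul_of_nonneg_left hj2 (by positivity))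
            (mul_le_mul_of_nonneg_left hEreal (by positivity))
  have hδC : δ / 2 * C ≤ a / 8 := by
    rw [hδdef, div_div, div_mul_eq_mul_div, div_le_div_iff₀ (by positivity) (by positivity)]
    nlinarith
  have hMη : M ^ 2 / (2 * δ) * η ≤ a / 8 := by
    have h1 : M ^ 2 / (2 * δ) * η = M ^ 2 * a / (8 * (M ^ 2 + 1)) := by
      rw [hηdef]
      field_simp
      ring
    rw [h1, div_le_div_iff₀ (by positivity) (by positivity)]
    nlinarith
  have hfin : a ≤ a / 4 + (a / 8 + a / 8) := by
    calc a = ‖∫ x, T x * dzb g1 x‖ := by rw [ha, hsplit, hzero2, add_zero]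
      _ ≤ ‖(∫ x, T x * dzb g1 x) - ∫ x, Ts j x * dzb g1 x‖ + ‖∫ x, Ts j x * dzb g1 x‖ := by
          have := norm_add_le ((∫ x, T x * dzb g1 x) - ∫ x, Ts j x * dzb g1 x)
            (∫ x, Ts j x * dzb g1 x)
          simpa using this
      _ ≤ a / 4 + (a / 8 + a / 8) := by
          refine add_le_add hj1 ?_
          rw [hibp, norm_neg]
          linarith
  linarith

end Pool.Agent.BlMat.R1

namespace Pool.Agent.BlMat

open Complex Metric Set Filter Topology MeasureTheory

theorem removable : Stmt_Removable := by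
  intro k hk T Ts J hq hT hJ hJ0 hd hn z
  have hS : Continuous (fun z => T z - z) := T.continuous.sub continuous_id
  have h := R1.weyl hS hn (fun g hg hgc => ?_) z
  · exact sub_eq_zero.mp h
  · have h1 := R1.pairing_zero hk T Ts J hq hT hJ hJ0 hd g hg hgc
    have h2 : ∫ x, (fun w : ℂ => w) x * dzb g x = 0 := by
      rw [R1.ibp (F := fun w : ℂ => w) continuous_id hg hgc (fun x _ => differentiableAt_id) ?_]
      · have : (fun x => dzb (fun w : ℂ => w) x * g x) = fun _ => 0 := by
          funext x
          rw [(dz_id x).2, zero_mul]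
        rw [this]; simp
      · have : fderiv ℝ (fun w : ℂ => w) = fun _ => ContinuousLinearMap.id ℝ ℂ := by
          funext x; exact fderiv_fun_id
        rw [this]
        exact continuousOn_const
    have z1 : ∀ x, x ∉ tsupport g → dzb g x = 0 := by
      intro x hx
      have : fderiv ℝ g x = 0 := by
        by_contra h
        exact hx (support_fderiv_subset ℝ h)
      simp [dzb, this]
    have cd : Continuous (dzb g) := continuous_dzb hg
    have hTc : Continuous T := T.continuous
    have i1 : Integrable (fun x => T x * dzb g x) :=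
      R1.integrable_of_compact hgc (by fun_prop) (fun x hx => by rw [z1 x hx, mul_zero])
    have i2 : Integrable (fun x : ℂ => x * dzb g x) :=
      R1.integrable_of_compact hgc (by fun_prop) (fun x hx => by rw [z1 x hx, mul_zero])
    have h3 : (fun x => (T x - x) * dzb g x) = fun x => T x * dzb g x - x * dzb g x := by
      funext x; ring
    rw [h3, integral_sub i1 i2, h1, zero_sub, neg_eq_zero]
    exact h2

end Pool.Agent.BlMat
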