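import Mathlib
import Pool.Agent.BlMat.DynDefs
import Pool.Agent.BlMat.F1
import Pool.Agent.BlMat.F3
import Pool.Agent.Squeeze.OneDim

set_option autoImplicit false

/-!
# Rationality (block RT)

A map of the class which is holomorphic near the complement of the basin is rational.
-/

namespace Pool.Agent.BlMat

open Complex Metric Set Filter Topology MeasureTheory Polynomial
open scoped ComplexConjugate ContDiff

namespace RT

/-! ### Entire functions of polynomial growth -/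

theorem poly_of_growth : ∀ (n : ℕ) (c : ℂ) (F : ℂ → ℂ), Differentiable ℂ F →
    Tendsto (fun w => F w / w ^ n) (cocompact ℂ) (𝓝 c) →
    ∃ p : ℂ[X], (∀ w, F w = p.eval w) ∧ p.natDegree ≤ n ∧ p.coeff n = c := by
  intro n
  induction n with
  | zero =>
    intro c F hF hc
    have h1 : Tendsto F (cocompact ℂ) (𝓝 c) := by simpa using hc
    have h2 : ∀ w, F w = c := by
      intro w
      exact hF.apply_eq_of_tendsto_cocompact w h1
    exact ⟨C c, by simpa using h2, by simp, by simp⟩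
  | succ n ih =>
    intro c F hF hc
    have hd : Differentiable ℂ (dslope F 0) := by
      rw [← differentiableOn_univ] at hF ⊢
      exact (Complex.differentiableOn_dslope univ_mem).2 hF
    have hlim : Tendsto (fun w => dslope F 0 w / w ^ n) (cocompact ℂ) (𝓝 c) := by
      rw [← Metric.cobounded_eq_cocompact] at hc ⊢
      have h3 : Tendsto (fun w : ℂ => F 0 / w ^ (n + 1)) (Bornology.cobounded ℂ) (𝓝 0) := by
        have h4 : Tendsto (fun w : ℂ => w ^ (n + 1)) (Bornology.cobounded ℂ)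
            (Bornology.cobounded ℂ) := tendsto_pow_cobounded_cobounded (Nat.succ_ne_zero n)
        have h5 : Tendsto (fun w : ℂ => (w ^ (n + 1))⁻¹) (Bornology.cobounded ℂ) (𝓝 0) :=
          tendsto_inv₀_cobounded.comp h4
        simpa [div_eq_mul_inv] using h5.const_mul (F 0)
      have h6 := hc.sub h3
      rw [sub_zero] at h6
      refine h6.congr' ?_
      filter_upwards [Bornology.eventually_ne_cobounded (0 : ℂ)] with w hw
      rw [dslope_of_ne _ hw, slope_def_field, sub_zero, ← sub_div, pow_succ', ← div_div]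
    obtain ⟨p, hp, hdeg, hcoef⟩ := ih c _ hd hlim
    refine ⟨X * p + C (F 0), ?_, ?_, ?_⟩
    · intro w
      have h8 : (w - 0) • dslope F 0 w = F w - F 0 := sub_smul_dslope F 0 w
      rw [hp w, sub_zero, smul_eq_mul] at h8
      simp only [eval_add, eval_mul, eval_X, eval_C]
      rw [h8]
      ring
    · refine (natDegree_add_le _ _).trans ?_
      rw [natDegree_C]
      refine max_le ?_ (Nat.zero_le _)
      refine (natDegree_mul_le).trans ?_
      rw [natDegree_X]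
      omega
    · rw [coeff_add, coeff_X_mul, hcoef, coeff_C_succ, add_zero]

/-! ### Blaschke products -/

/-- Indices of the nonzero zeros. -/
noncomputable def NN {m : ℕ} (a : Fin m → ℂ) : Finset (Fin m) :=
  open Classical in Finset.univ.filter (fun j => a j ≠ 0)

/-- Indices of the vanishing zeros. -/
noncomputable def ZZ {m : ℕ} (a : Fin m → ℂ) : Finset (Fin m) :=
  open Classical in Finset.univ.filter (fun j => ¬ a j ≠ 0)

theorem mem_NN {m : ℕ} {a : Fin m → ℂ} {j : Fin m} : j ∈ NN a ↔ a j ≠ 0 := by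
  simp [NN]

theorem card_NN_ZZ {m : ℕ} (a : Fin m → ℂ) : (NN a).card + (ZZ a).card = m := by
  classical
  have := Finset.card_filter_add_card_filter_not (s := (Finset.univ : Finset (Fin m)))
    (fun j => a j ≠ 0)
  rw [Finset.card_fin] at this
  unfold NN ZZ
  convert this

/-- The nonvanishing factor of `bl a`. -/
noncomputable def uu {m : ℕ} (a : Fin m → ℂ) (z : ℂ) : ℂ :=
  ∏ j, ((1 - conj (a j) * z)⁻¹ * ((1 - conj (a j)) / (1 - a j)))

/-- The product over the nonzero zeros. -/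
noncomputable def pp {m : ℕ} (a : Fin m → ℂ) (z : ℂ) : ℂ := ∏ j ∈ NN a, (z - a j)

theorem bl_eq {m : ℕ} (a : Fin m → ℂ) (z : ℂ) :
    bl a z = z ^ (1 + (ZZ a).card) * pp a z * uu a z := by
  classical
  have h1 : ∏ j, ((z - a j) / (1 - conj (a j) * z) * ((1 - conj (a j)) / (1 - a j)))
      = (∏ j, (z - a j)) * uu a z := by
    rw [uu, ← Finset.prod_mul_distrib]
    refine Finset.prod_congr rfl fun j _ => ?_
    rw [div_eq_mul_inv (z - a j), mul_assoc]
  have h2 : ∏ j, (z - a j) = pp a z * z ^ (ZZ a).card := by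
    have h3 := Finset.prod_filter_mul_prod_filter_not (Finset.univ : Finset (Fin m))
      (fun j => a j ≠ 0) (fun j => z - a j)
    rw [← h3]
    have h4 : ∏ j ∈ Finset.univ.filter (fun j => ¬ a j ≠ 0), (z - a j) = z ^ (ZZ a).card := by
      rw [Finset.prod_congr rfl (g := fun _ => z), Finset.prod_const]
      · unfold ZZ
        congr!
      · intro j hj
        have h5 := (Finset.mem_filter.1 hj).2
        push Not at h5
        rw [h5, sub_zero]
    rw [h4]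
    congr 1
  rw [bl, h1, h2]
  ring

theorem one_sub_ne {m : ℕ} {a : Fin m → ℂ} (ha : a ∈ Par m) (j : Fin m) {z : ℂ} (hz : ‖z‖ ≤ 1) :
    1 - conj (a j) * z ≠ 0 := by
  intro h0
  have h1 : ‖conj (a j) * z‖ = 1 := by
    rw [← sub_eq_zero.1 h0, norm_one]
  rw [norm_mul, RCLike.norm_conj] at h1
  have h2 : ‖a j‖ < 1 := ha j
  nlinarith [norm_nonneg (a j), norm_nonneg z]

theorem uu_ne {m : ℕ} {a : Fin m → ℂ} (ha : a ∈ Par m) {z : ℂ} (hz : ‖z‖ ≤ 1) : uu a z ≠ 0 := by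
  refine Finset.prod_ne_zero_iff.2 fun j _ => ?_
  refine mul_ne_zero (inv_ne_zero (one_sub_ne ha j hz)) (div_ne_zero ?_ ?_)
  · simpa using one_sub_ne ha j (z := 1) (by simp)
  · intro h0
    have h1 : ‖a j‖ < 1 := ha j
    rw [← sub_eq_zero.1 h0, norm_one] at h1
    exact lt_irrefl _ h1

theorem uu_diff {m : ℕ} {a : Fin m → ℂ} (ha : a ∈ Par m) {z : ℂ} (hz : ‖z‖ ≤ 1) :
    DifferentiableAt ℂ (uu a) z := by
  unfold uu
  refine DifferentiableAt.fun_finsetProd fun j _ => ?_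
  refine DifferentiableAt.mul (DifferentiableAt.inv ?_ (one_sub_ne ha j hz)) ?_
  · fun_prop
  · fun_prop

theorem pp_diff {m : ℕ} (a : Fin m → ℂ) : Differentiable ℂ (pp a) := by
  unfold pp
  refine Differentiable.fun_finsetProd fun j _ => ?_
  fun_prop

theorem pp_zero {m : ℕ} (a : Fin m → ℂ) : pp a 0 ≠ 0 := by
  refine Finset.prod_ne_zero_iff.2 fun j hj => ?_
  rw [zero_sub]
  exact neg_ne_zero.2 (mem_NN.1 hj)

theorem bl_diff {m : ℕ} {a : Fin m → ℂ} (ha : a ∈ Par m) {z : ℂ} (hz : ‖z‖ ≤ 1) :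
    DifferentiableAt ℂ (bl a) z := by
  have h1 : bl a = fun z => z ^ (1 + (ZZ a).card) * pp a z * uu a z := by
    funext z
    exact bl_eq a z
  rw [h1]
  exact ((differentiableAt_id.pow _).mul (pp_diff a z)).mul (uu_diff ha hz)

/-! ### The denominator -/

theorem den_eval {m : ℕ} (a : Fin m → ℂ) (φ : ℂ → ℂ) (w : ℂ) :
    (den a φ).eval w = ∏ j ∈ NN a, (w - φ (a j)) := by
  unfold den NN
  rw [eval_prod]
  simp

/-- The product of the divided differences of `φ`. -/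
noncomputable def ss {m : ℕ} (a : Fin m → ℂ) (φ : ℂ → ℂ) (z : ℂ) : ℂ :=
  ∏ j ∈ NN a, dslope φ (a j) z

theorem den_phi {m : ℕ} (a : Fin m → ℂ) (φ : ℂ → ℂ) (z : ℂ) :
    (den a φ).eval (φ z) = pp a z * ss a φ z := by
  rw [den_eval, pp, ss, ← Finset.prod_mul_distrib]
  refine Finset.prod_congr rfl fun j _ => ?_
  rw [← smul_eq_mul, sub_smul_dslope]

theorem isOpen_dom : IsOpen (ball (0 : ℂ) 1 \ {0}) := isOpen_ball.sdiff isClosed_singleton

theorem mem_dom {z : ℂ} (h0 : z ≠ 0) (h1 : ‖z‖ < 1) : z ∈ ball (0 : ℂ) 1 \ {0} :=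
  ⟨mem_ball_zero_iff.2 h1, h0⟩

theorem ss_diff {m : ℕ} {a : Fin m → ℂ} (ha : a ∈ Par m) {φ : ℂ → ℂ} (h : IsUnif φ) {z : ℂ}
    (h0 : z ≠ 0) (h1 : ‖z‖ < 1) : DifferentiableAt ℂ (ss a φ) z := by
  unfold ss
  refine DifferentiableAt.fun_finsetProd fun j hj => ?_
  have h2 : ball (0 : ℂ) 1 \ {0} ∈ 𝓝 (a j) :=
    isOpen_dom.mem_nhds (mem_dom (mem_NN.1 hj) (ha j))
  exact ((Complex.differentiableOn_dslope h2).2 h.diff).differentiableAt
    (isOpen_dom.mem_nhds (mem_dom h0 h1))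

theorem ss_ne {m : ℕ} {a : Fin m → ℂ} (ha : a ∈ Par m) {φ : ℂ → ℂ} (h : IsUnif φ) {z : ℂ}
    (h0 : z ≠ 0) (h1 : ‖z‖ < 1) : ss a φ z ≠ 0 := by
  refine Finset.prod_ne_zero_iff.2 fun j hj => ?_
  have hj' := mem_dom (mem_NN.1 hj) (ha j)
  by_cases hz : z = a j
  · rw [hz, dslope_same]
    exact Pool.Agent.Squeeze.deriv_ne_zero_of_injOn isOpen_dom h.diff h.inj hj'
  · rw [dslope_of_ne _ hz, slope_def_field]
    refine div_ne_zero (sub_ne_zero.2 fun h2 => hz ?_) (sub_ne_zero.2 hz)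
    exact h.inj (mem_dom h0 h1) hj' h2

/-! ### The function `f q` in the coordinate of the basin -/

/-- `z φ(z)`, completed at `0`. -/
noncomputable def ee (φ : ℂ → ℂ) (z : ℂ) : ℂ := 1 + z * F1.om φ z

theorem ee_eq (φ : ℂ → ℂ) {z : ℂ} (hz : z ≠ 0) : ee φ z = z * φ z := by
  rw [ee, F1.om_ne φ hz]
  field_simp
  ring

theorem ee_zero (φ : ℂ → ℂ) : ee φ 0 = 1 := by simp [ee]

theorem ee_cont {φ : ℂ → ℂ} (h : IsUnif φ) : ContinuousAt (ee φ) 0 := by
  have h1 : ContinuousAt (F1.om φ) 0 :=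
    ((F1.om_diff h).differentiableAt (isOpen_ball.mem_nhds (mem_ball_self one_pos))).continuousAt
  exact continuousAt_const.add (continuousAt_id.mul h1)

/-- The function `f q` in the coordinate of the basin. -/
noncomputable def GG {m : ℕ} (a : Fin m → ℂ) (φ : ℂ → ℂ) (z : ℂ) : ℂ :=
  ss a φ z / (z ^ (1 + (ZZ a).card) * uu a z) + F1.om φ (bl a z) * (den a φ).eval (φ z)

theorem GG_eq {m : ℕ} {a : Fin m → ℂ} {φ : ℂ → ℂ} {z : ℂ}
    (hb : bl a z ≠ 0) : GG a φ z = φ (bl a z) * (den a φ).eval (φ z) := by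
  rw [GG, F1.om_ne φ hb, sub_mul, den_phi]
  have h1 := bl_eq a z
  have h2 : z ^ (1 + (ZZ a).card) * pp a z * uu a z ≠ 0 := by rwa [← h1]
  have h3 : z ^ (1 + (ZZ a).card) ≠ 0 := left_ne_zero_of_mul (left_ne_zero_of_mul h2)
  have h4 : pp a z ≠ 0 := right_ne_zero_of_mul (left_ne_zero_of_mul h2)
  have h5 : uu a z ≠ 0 := right_ne_zero_of_mul h2
  have h6 : ss a φ z / (z ^ (1 + (ZZ a).card) * uu a z) = 1 / bl a z * (pp a z * ss a φ z) := by
    rw [h1]
    field_simp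
  rw [h6]
  ring

theorem GG_diff {m : ℕ} {a : Fin m → ℂ} (ha : a ∈ Par m) (hB : BlFacts a) {φ : ℂ → ℂ}
    (h : IsUnif φ) {z : ℂ} (h0 : z ≠ 0) (h1 : ‖z‖ < 1) : DifferentiableAt ℂ (GG a φ) z := by
  unfold GG
  have h2 : DifferentiableAt ℂ (fun z => F1.om φ (bl a z)) z := by
    have h3 : DifferentiableAt ℂ (F1.om φ) (bl a z) :=
      (F1.om_diff h).differentiableAt (isOpen_ball.mem_nhds
        (mem_ball_zero_iff.2 (hB.ball z h1)))
    exact h3.comp z (bl_diff ha h1.le)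
  have h4 : DifferentiableAt ℂ (fun z => (den a φ).eval (φ z)) z := by
    have h5 : DifferentiableAt ℂ φ z :=
      h.diff.differentiableAt (isOpen_dom.mem_nhds (mem_dom h0 h1))
    exact ((den a φ).differentiable (φ z)).comp z h5
  refine DifferentiableAt.add (DifferentiableAt.div (ss_diff ha h h0 h1) ?_ ?_) (h2.mul h4)
  · exact (differentiableAt_id.pow _).mul (uu_diff ha h1.le)
  · exact mul_ne_zero (pow_ne_zero _ h0) (uu_ne ha h1.le)

theorem GG_ne {m : ℕ} {a : Fin m → ℂ} (ha : a ∈ Par m) {φ : ℂ → ℂ}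
    (h : IsUnif φ) {j : Fin m} (hj : j ∈ NN a) : GG a φ (a j) ≠ 0 := by
  have h1 : pp a (a j) = 0 := Finset.prod_eq_zero hj (sub_self _)
  have h2 : bl a (a j) = 0 := by rw [bl_eq, h1]; ring
  have h3 := mem_NN.1 hj
  have h4 : ‖a j‖ < 1 := ha j
  rw [GG, h2, F1.om_zero, zero_mul, add_zero]
  exact div_ne_zero (ss_ne ha h h3 h4) (mul_ne_zero (pow_ne_zero _ h3) (uu_ne ha h4.le))

theorem GG_lim {m : ℕ} {a : Fin m → ℂ} (ha : a ∈ Par m) {φ : ℂ → ℂ} (h : IsUnif φ) :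
    ∃ c : ℂ, c ≠ 0 ∧ Tendsto (fun z => GG a φ z / φ z ^ (m + 1)) (𝓝[≠] 0) (𝓝 c) := by
  refine ⟨1 / (pp a 0 * uu a 0), one_div_ne_zero (mul_ne_zero (pp_zero a)
    (uu_ne ha (by simp))), ?_⟩
  have hbl0 : bl a 0 = 0 := by rw [bl_eq]; simp
  have hblc : ContinuousAt (bl a) 0 := (bl_diff ha (by simp)).continuousAt
  have hec := ee_cont h
  have hppc : ContinuousAt (pp a) 0 := (pp_diff a 0).continuousAt
  have huuc : ContinuousAt (uu a) 0 := (uu_diff ha (by simp)).continuousAt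
  have hu0 := uu_ne ha (z := 0) (by simp)
  have hp0 := pp_zero a
  have h1 : ContinuousAt (fun z => (∏ j ∈ NN a, (ee φ z - z * φ (a j))) *
      (1 / (pp a z * uu a z)) * ee φ (bl a z) / ee φ z ^ (m + 1)) 0 := by
    have h2 : ContinuousAt (fun z => ee φ (bl a z)) 0 := by
      refine ContinuousAt.comp (g := ee φ) (f := bl a) ?_ hblc
      rw [hbl0]
      exact hec
    have h3 : ContinuousAt (fun z => ∏ j ∈ NN a, (ee φ z - z * φ (a j))) 0 := by
      refine tendsto_finsetProd _ fun j _ => ?_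
      exact hec.sub (continuousAt_id.mul continuousAt_const)
    refine ((h3.mul (continuousAt_const.div (hppc.mul huuc) (mul_ne_zero hp0 hu0))).mul h2).div
      (hec.pow _) ?_
    rw [ee_zero]
    simp
  have h4 : Tendsto (fun z => (∏ j ∈ NN a, (ee φ z - z * φ (a j))) *
      (1 / (pp a z * uu a z)) * ee φ (bl a z) / ee φ z ^ (m + 1)) (𝓝[≠] 0)
      (𝓝 (1 / (pp a 0 * uu a 0))) := by
    have h5 := h1.tendsto
    simp only [hbl0, ee_zero, zero_mul, sub_zero, Finset.prod_const_one, one_mul, mul_one,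
      one_pow, div_one] at h5
    exact h5.mono_left nhdsWithin_le_nhds
  refine h4.congr' ?_
  have h6 : ∀ᶠ z in 𝓝[≠] (0 : ℂ), pp a z ≠ 0 :=
    (hppc.eventually_ne hp0).filter_mono nhdsWithin_le_nhds
  have h7 : ∀ᶠ z in 𝓝[≠] (0 : ℂ), uu a z ≠ 0 :=
    (huuc.eventually_ne hu0).filter_mono nhdsWithin_le_nhds
  have h8 : ∀ᶠ z in 𝓝[≠] (0 : ℂ), ee φ z ≠ 0 :=
    (hec.eventually_ne (by rw [ee_zero]; exact one_ne_zero)).filter_mono nhdsWithin_le_nhds
  filter_upwards [h6, h7, h8, self_mem_nhdsWithin] with z hp hu he hz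
  have hz0 : z ≠ 0 := hz
  have hb : bl a z ≠ 0 := by
    rw [bl_eq]
    exact mul_ne_zero (mul_ne_zero (pow_ne_zero _ hz0) hp) hu
  rw [GG_eq hb, den_eval]
  have h9 : ∏ j ∈ NN a, (ee φ z - z * φ (a j)) = z ^ (NN a).card * ∏ j ∈ NN a, (φ z - φ (a j)) := by
    rw [← Finset.prod_const, ← Finset.prod_mul_distrib]
    refine Finset.prod_congr rfl fun j _ => ?_
    rw [ee_eq φ hz0]
    ring
  have hφ : φ z ≠ 0 := by
    rw [ee_eq φ hz0] at he
    exact right_ne_zero_of_mul he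
  have h10 : z ^ (m + 1) = z ^ (NN a).card * z ^ (1 + (ZZ a).card) := by
    rw [← pow_add]
    congr 1
    have := card_NN_ZZ a
    omega
  rw [h9, ee_eq φ hb, ee_eq φ hz0, mul_pow, h10, bl_eq]
  have h11 : z ^ (NN a).card ≠ 0 := pow_ne_zero _ hz0
  have h12 : z ^ (1 + (ZZ a).card) ≠ 0 := pow_ne_zero _ hz0
  have h13 : φ z ^ (m + 1) ≠ 0 := pow_ne_zero _ hφ
  rw [div_eq_div_iff (mul_ne_zero (mul_ne_zero h11 h12) h13) h13]
  field_simp

/-! ### The entire function `f q` -/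

/-- The complex value of a point of the sphere. -/
noncomputable def vv (x : OnePoint ℂ) : ℂ :=
  open Classical in if h : ∃ w : ℂ, (w : OnePoint ℂ) = x then h.choose else 0

theorem vv_coe (w : ℂ) : vv (w : OnePoint ℂ) = w := by
  have h : ∃ w' : ℂ, (w' : OnePoint ℂ) = (w : OnePoint ℂ) := ⟨w, rfl⟩
  rw [vv, dif_pos h]
  exact OnePoint.coe_injective h.choose_spec

/-- The function `f q`. -/
noncomputable def FF {m : ℕ} (a : Fin m → ℂ) (f : OnePoint ℂ → OnePoint ℂ) (φ : ℂ → ℂ)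
    (w : ℂ) : ℂ :=
  open Classical in
  if h : ∃ z, z ≠ 0 ∧ ‖z‖ < 1 ∧ φ z = w then GG a φ h.choose
  else vv (f (w : OnePoint ℂ)) * (den a φ).eval w

theorem FF_phi {m : ℕ} {a : Fin m → ℂ} {f : OnePoint ℂ → OnePoint ℂ} {φ : ℂ → ℂ}
    (hu : IsUnif φ) {z : ℂ} (h0 : z ≠ 0) (h1 : ‖z‖ < 1) : FF a f φ (φ z) = GG a φ z := by
  have h : ∃ z', z' ≠ 0 ∧ ‖z'‖ < 1 ∧ φ z' = φ z := ⟨z, h0, h1, rfl⟩
  rw [FF, dif_pos h]
  congr 1
  obtain ⟨h2, h3, h4⟩ := h.choose_spec
  exact hu.inj (mem_dom h2 h3) (mem_dom h0 h1) h4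

theorem FF_out {m : ℕ} {a : Fin m → ℂ} {f : OnePoint ℂ → OnePoint ℂ} {φ : ℂ → ℂ}
    {w : ℂ} (hw : ¬ ∃ z, z ≠ 0 ∧ ‖z‖ < 1 ∧ φ z = w) :
    FF a f φ w = vv (f (w : OnePoint ℂ)) * (den a φ).eval w := by
  rw [FF, dif_neg hw]

/-- Where `f` is finite, `FF` is `f q`. -/
theorem FF_eq {m : ℕ} {a : Fin m → ℂ} {f : OnePoint ℂ → OnePoint ℂ} {φ : ℂ → ℂ}
    (hf : Cls a f φ) {w v : ℂ} (hv : f (w : OnePoint ℂ) = (v : OnePoint ℂ)) :
    FF a f φ w = v * (den a φ).eval w := by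
  by_cases hw : ∃ z, z ≠ 0 ∧ ‖z‖ < 1 ∧ φ z = w
  · obtain ⟨z, h0, h1, rfl⟩ := hw
    rw [FF_phi hf.unif h0 h1]
    have h2 := hf.semi z (mem_ball_zero_iff.2 h1)
    rw [F3.hat_ne φ h0, hv] at h2
    by_cases hb : bl a z = 0
    · rw [hb, F3.hat_zero] at h2
      exact absurd h2 (OnePoint.coe_ne_infty v)
    · rw [F3.hat_ne φ hb] at h2
      rw [GG_eq hb, ← OnePoint.coe_injective h2]
  · rw [FF_out hw, hv, vv_coe]

theorem mem_image_iff {φ : ℂ → ℂ} {w : ℂ} :
    (w : OnePoint ℂ) ∈ hat φ '' ball 0 1 ↔ ∃ z, z ≠ 0 ∧ ‖z‖ < 1 ∧ φ z = w := by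
  constructor
  · rintro ⟨z, hz, hw⟩
    by_cases h0 : z = 0
    · rw [h0, F3.hat_zero] at hw
      exact absurd hw.symm (OnePoint.coe_ne_infty w)
    · rw [F3.hat_ne φ h0] at hw
      exact ⟨z, h0, mem_ball_zero_iff.1 hz, OnePoint.coe_injective hw⟩
  · rintro ⟨z, h0, h1, rfl⟩
    exact ⟨z, mem_ball_zero_iff.2 h1, F3.hat_ne φ h0⟩

theorem FF_diff {m : ℕ} {a : Fin m → ℂ} (ha : a ∈ Par m) (hB : BlFacts a)
    {f : OnePoint ℂ → OnePoint ℂ} {φ : ℂ → ℂ} (hf : Cls a f φ)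
    (hhol : ∀ x : ℂ, (x : OnePoint ℂ) ∉ hat φ '' ball 0 1 →
      ∃ F : ℂ → ℂ, DifferentiableAt ℂ F x ∧ ∀ᶠ w in 𝓝 x, DifferentiableAt ℂ F w ∧
        f (w : OnePoint ℂ) = (F w : OnePoint ℂ)) :
    Differentiable ℂ (FF a f φ) := by
  intro w
  by_cases hw : (w : OnePoint ℂ) ∈ hat φ '' ball 0 1
  · obtain ⟨z, h0, h1, rfl⟩ := mem_image_iff.1 hw
    have hd := mem_dom h0 h1
    have hU : ball (0 : ℂ) 1 \ {0} ∈ 𝓝 z := isOpen_dom.mem_nhds hd
    have h2 : deriv φ z ≠ 0 :=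
      Pool.Agent.Squeeze.deriv_ne_zero_of_injOn isOpen_dom hf.unif.diff hf.unif.inj hd
    have h3 : HasStrictDerivAt φ (deriv φ z) z :=
      ((hf.unif.diff.analyticAt hU).hasStrictDerivAt)
    have h4 := h3.to_localInverse h2
    have h5 := h3.eventually_right_inverse h2
    set ψ := h3.localInverse φ (deriv φ z) z h2 with hψ
    have h6 : ψ (φ z) = z := by
      exact (h3.eventually_left_inverse h2).self_of_nhds
    have h7 : DifferentiableAt ℂ (fun w => GG a φ (ψ w)) (φ z) := by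
      refine DifferentiableAt.comp (φ z) (g := GG a φ) ?_ h4.hasDerivAt.differentiableAt
      rw [h6]
      exact GG_diff ha hB hf.unif h0 h1
    refine h7.congr_of_eventuallyEq ?_
    have h8 : Tendsto ψ (𝓝 (φ z)) (𝓝 z) := by
      have := h4.hasDerivAt.continuousAt.tendsto
      rwa [h6] at this
    filter_upwards [h5, h8 hU] with w hw1 hw2
    have h9 : FF a f φ (φ (ψ w)) = GG a φ (ψ w) :=
      FF_phi hf.unif hw2.2 (mem_ball_zero_iff.1 hw2.1)
    rwa [hw1] at h9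
  · obtain ⟨F, hF1, hF2⟩ := hhol w hw
    have h2 : DifferentiableAt ℂ (fun w => F w * (den a φ).eval w) w :=
      hF1.mul ((den a φ).differentiable w)
    refine h2.congr_of_eventuallyEq ?_
    filter_upwards [hF2] with w hw
    exact FF_eq hf hw.2

theorem cocompact_le {φ : ℂ → ℂ} (h : IsUnif φ) : cocompact ℂ ≤ map φ (𝓝[≠] 0) := by
  intro s hs
  rw [mem_map, Metric.mem_nhdsWithin_iff] at hs
  obtain ⟨ε, hε, hs⟩ := hs
  set ε' := min ε (1 / 2) with hε'
  have h1 : 0 < ε' := lt_min hε (by norm_num)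
  have h2 : ε' < 1 := (min_le_right _ _).trans_lt (by norm_num)
  rw [← Metric.cobounded_eq_cocompact, ← comap_norm_atTop]
  refine ⟨Ioi (1 / ε' + 8), Ioi_mem_atTop _, ?_⟩
  intro w hw
  obtain ⟨z, h3, h4, rfl⟩ := F3.cover_infty h h1 h2 (w := w) hw
  exact hs ⟨mem_ball_zero_iff.2 (h4.trans_le (min_le_left _ _)), h3⟩

end RT

/-- A map of the class which is holomorphic near the complement of the basin is rational. -/
theorem rat (h : Stmt_Bl) : Stmt_Rat := by
  intro m hm a ha f φ _hcont hf hhol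
  have hB := h m hm a ha
  obtain ⟨c, hc, hlim⟩ := RT.GG_lim ha hf.unif
  have hlim2 : Tendsto (fun w => RT.FF a f φ w / w ^ (m + 1)) (cocompact ℂ) (𝓝 c) := by
    refine Tendsto.mono_left ?_ (RT.cocompact_le hf.unif)
    rw [tendsto_map'_iff]
    refine hlim.congr' ?_
    have h1 : ball (0 : ℂ) 1 ∈ 𝓝[≠] (0 : ℂ) :=
      mem_nhdsWithin_of_mem_nhds (isOpen_ball.mem_nhds (mem_ball_self one_pos))
    filter_upwards [h1, self_mem_nhdsWithin] with z hz hz0
    rw [Function.comp_apply, RT.FF_phi hf.unif hz0 (mem_ball_zero_iff.1 hz)]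
  obtain ⟨p, hp, hdeg, hcoef⟩ := RT.poly_of_growth (m + 1) c _
    (RT.FF_diff ha hB hf hhol) hlim2
  refine ⟨p, ?_, ?_, ?_⟩
  · refine le_antisymm hdeg (le_natDegree_of_ne_zero ?_)
    rw [hcoef]
    exact hc
  · classical
    unfold den
    refine IsCoprime.prod_right fun j hj => ?_
    have hj' : j ∈ RT.NN a := RT.mem_NN.2 (Finset.mem_filter.1 hj).2
    have hj0 := RT.mem_NN.1 hj'
    have h1 : p.eval (φ (a j)) ≠ 0 := by
      rw [← hp, RT.FF_phi hf.unif hj0 (ha j)]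
      exact RT.GG_ne ha hf.unif hj'
    have h2 : ¬ (X - C (φ (a j))) ∣ p := by
      rw [dvd_iff_isRoot]
      exact h1
    exact ((irreducible_X_sub_C (φ (a j))).coprime_iff_not_dvd.2 h2).symm
  · intro z hz
    have h1 : ∃ v : ℂ, f (z : OnePoint ℂ) = (v : OnePoint ℂ) := by
      by_cases hw : (z : OnePoint ℂ) ∈ hat φ '' ball 0 1
      · obtain ⟨z', h0, h1, rfl⟩ := RT.mem_image_iff.1 hw
        have h2 := hf.semi z' (mem_ball_zero_iff.2 h1)
        rw [F3.hat_ne φ h0] at h2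
        have hb : bl a z' ≠ 0 := by
          rw [RT.bl_eq]
          rw [RT.den_phi] at hz
          exact mul_ne_zero (mul_ne_zero (pow_ne_zero _ h0) (left_ne_zero_of_mul hz))
            (RT.uu_ne ha h1.le)
        rw [F3.hat_ne φ hb] at h2
        exact ⟨_, h2⟩
      · obtain ⟨F, -, hF⟩ := hhol z hw
        exact ⟨_, hF.self_of_nhds.2⟩
    obtain ⟨v, hv⟩ := h1
    rw [hv, ← hp, RT.FF_eq hf hv, mul_div_assoc, div_self hz, mul_one]

end Pool.Agent.BlMat
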