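import Pool.Agent.BlMat.Chain
import Pool.Agent.BlMat.MarkDefs

set_option autoImplicit false

/-! From `HomeoStmt` to the spaces of the final statement. -/

namespace Pool.Agent.BlMat

open Complex Metric Set Filter Topology

theorem BQ_eq (h : Stmt_QCC) {m : ℕ} (hm : 1 ≤ m) {a : Fin m → ℂ} (ha : a ∈ Par m) :
    BQ a = BQC a := by
  funext x y
  exact propext (h m hm a ha _ _)

theorem ClRel_eq (h : Stmt_QCC) {m : ℕ} (hm : 1 ≤ m) {a : Fin m → ℂ} (ha : a ∈ Par m) :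
    ClRel a = BdRel a := by
  funext x y
  apply propext
  unfold ClRel BdRel
  rw [BQ_eq h hm ha]
  constructor
  · rintro (e | ⟨x', y', rfl, rfl, hq⟩)
    · exact Or.inl e
    · exact Or.inr ⟨x'.2.2, y'.2.2, hq⟩
  · rintro (e | ⟨hx, hy, hq⟩)
    · exact Or.inl e
    · exact Or.inr ⟨⟨x.1, x.2, hx⟩, ⟨y.1, y.2, hy⟩, rfl, rfl, hq⟩

/-- Transport of the homeomorphism statement to equal relations. -/
theorem transport {m : ℕ} {a a' : Fin m → ℂ} (hH : HomeoStmt a a')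
    (r : Bdry a → Bdry a → Prop) (r' : Bdry a' → Bdry a' → Prop)
    (R : SliceCl a → SliceCl a → Prop) (R' : SliceCl a' → SliceCl a' → Prop)
    (e1 : r = BQC a) (e2 : r' = BQC a') (e3 : R = BdRel a) (e4 : R' = BdRel a') :
    ∃ (F : Slice a ≃ₜ Slice a') (Φ : Quot r ≃ₜ Quot r') (Ψ : Quot R ≃ₜ Quot R'),
      (∀ b ∈ Par m, ∀ x, Mate a b x.1.fn ↔ Mate a' b (F x).1.fn) ∧
      (∀ x : Slice a, Ψ (Quot.mk R (slIn a x)) = Quot.mk R' (slIn a' (F x))) ∧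
      (∀ (y : Bdry a) (z : Bdry a'), Φ (Quot.mk r y) = Quot.mk r' z →
        Ψ (Quot.mk R (bdIn a y)) = Quot.mk R' (bdIn a' z)) := by
  subst e1 e2 e3 e4
  obtain ⟨F, Φ, Ψ, h1, h2, h3⟩ := hH
  refine ⟨F, Φ, Ψ, h1, h2, ?_⟩
  intro y z hyz
  have := h3 (Quot.mk _ y)
  rw [hyz] at this
  exact this

/-- The same in terms of the spaces of the final statement. -/
theorem transport' (h : Stmt_QCC) {m : ℕ} (hm : 1 ≤ m) {a a' : Fin m → ℂ} (ha : a ∈ Par m)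
    (ha' : a' ∈ Par m) (hH : HomeoStmt a a') :
    ∃ (F : SpB a ≃ₜ SpB a') (Φ : SpD a ≃ₜ SpD a') (Ψ : SpC a ≃ₜ SpC a'),
      (∀ b ∈ Par m, ∀ x, IsMate a b x ↔ IsMate a' b (F x)) ∧
      (∀ x, Ψ (inB a x) = inB a' (F x)) ∧ (∀ y, Ψ (inD a y) = inD a' (Φ y)) := by
  obtain ⟨F, Φ, Ψ, h1, h2, h3⟩ := transport hH _ _ _ _ (BQ_eq h hm ha) (BQ_eq h hm ha')
    (ClRel_eq h hm ha) (ClRel_eq h hm ha')
  refine ⟨F, Φ, Ψ, h1, h2, ?_⟩
  intro q
  induction q using Quot.ind with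
  | mk y =>
    obtain ⟨z, hz⟩ := Quot.exists_rep (Φ (Quot.mk _ y))
    have h4 := h3 y z hz.symm
    have h5 : inD a' (Φ (Quot.mk _ y)) = inD a' (Quot.mk (BQ a') z) :=
      congrArg (inD a') hz.symm
    exact Eq.trans h4 h5.symm

end Pool.Agent.BlMat
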