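import Pool.Agent.BlMat.DynDefs
import Pool.Agent.BlMat.Basic
import Pool.Agent.Squeeze.OneDim

set_option autoImplicit false

/-! Block SA: surgery, step A. -/

namespace Pool.Agent.BlMat

open Complex Metric Set Filter Topology MeasureTheory Polynomial
open scoped ComplexConjugate ContDiff

namespace SA

/-- push-forward of a Beltrami coefficient under an injective holomorphic map -/
noncomputable def push (V : Set ℂ) (Φ ν : ℂ → ℂ) (w : ℂ) : ℂ :=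
  open Classical in
  if h : ∃ z, z ∈ V ∧ Φ z = w then
    ν h.choose * deriv Φ h.choose * (conj (deriv Φ h.choose))⁻¹ else 0

theorem push_apply {V : Set ℂ} {Φ : ℂ → ℂ} (ν : ℂ → ℂ) (hinj : InjOn Φ V) {z : ℂ} (hz : z ∈ V) :
    push V Φ ν (Φ z) = ν z * deriv Φ z * (conj (deriv Φ z))⁻¹ := by
  have h : ∃ x, x ∈ V ∧ Φ x = Φ z := ⟨z, hz, rfl⟩
  have h2 : h.choose = z := hinj h.choose_spec.1 hz h.choose_spec.2
  rw [push, dif_pos h, h2]

theorem push_of_notMem {V : Set ℂ} {Φ ν : ℂ → ℂ} {w : ℂ} (hw : w ∉ Φ '' V) :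
    push V Φ ν w = 0 := by
  rw [push, dif_neg]
  rintro ⟨z, hz, h⟩
  exact hw ⟨z, hz, h⟩

theorem push_norm_le {V : Set ℂ} {Φ ν : ℂ → ℂ} (hinj : InjOn Φ V) {k : ℝ} (hk : 0 ≤ k)
    (hν : ∀ z ∈ V, ‖ν z‖ ≤ k) (w : ℂ) : ‖push V Φ ν w‖ ≤ k := by
  by_cases hw : w ∈ Φ '' V
  · obtain ⟨z, hz, rfl⟩ := hw
    rw [push_apply ν hinj hz, norm_mul, norm_mul, norm_inv, RCLike.norm_conj]
    rcases eq_or_ne (deriv Φ z) 0 with h | h
    · simp [h, hk]
    · rw [mul_assoc, mul_inv_cancel₀ (norm_ne_zero_iff.mpr h), mul_one]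
      exact hν z hz
  · rw [push_of_notMem hw, norm_zero]; exact hk

theorem push_eq_zero {V K : Set ℂ} {Φ ν : ℂ → ℂ} (hinj : InjOn Φ V)
    (hν : ∀ z ∈ V, z ∉ K → ν z = 0) {w : ℂ} (hw : w ∉ Φ '' K) : push V Φ ν w = 0 := by
  by_cases h : w ∈ Φ '' V
  · obtain ⟨z, hz, rfl⟩ := h
    rw [push_apply ν hinj hz, hν z hz (fun h => hw ⟨z, h, rfl⟩)]
    simp
  · exact push_of_notMem h

theorem contDiffAt_push {V : Set ℂ} (hV : IsOpen V) {Φ ν : ℂ → ℂ} (hd : DifferentiableOn ℂ Φ V)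
    (hinj : InjOn Φ V) (hν : ContDiffOn ℝ ∞ ν V) {z : ℂ} (hz : z ∈ V) :
    ContDiffAt ℝ ∞ (push V Φ ν) (Φ z) := by
  have hA : AnalyticAt ℂ Φ z := hd.analyticAt (hV.mem_nhds hz)
  have hne : deriv Φ z ≠ 0 := Pool.Agent.Squeeze.deriv_ne_zero_of_injOn hV hd hinj hz
  set s := hA.hasStrictDerivAt.localInverse _ _ _ hne with hs
  have hsA : AnalyticAt ℂ s (Φ z) := hA.analyticAt_localInverse hne
  have hsz : s (Φ z) = z := HasStrictFDerivAt.localInverse_apply_image ..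
  have hright : ∀ᶠ w in 𝓝 (Φ z), Φ (s w) = w := HasStrictDerivAt.eventually_right_inverse ..
  have hmem : ∀ᶠ w in 𝓝 (Φ z), s w ∈ V := by
    have := hsA.continuousAt
    refine this.eventually_mem ?_
    rw [hsz]
    exact hV.mem_nhds hz
  have hsR : ContDiffAt ℝ ∞ s (Φ z) := (hsA.contDiffAt (n := ∞)).restrict_scalars ℝ
  have h1 : ContDiffAt ℝ ∞ (fun w => ν (s w)) (Φ z) := by
    have h : ContDiffAt ℝ ∞ ν (s (Φ z)) := by
      rw [hsz]
      exact hν.contDiffAt (hV.mem_nhds hz)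
    exact h.comp (Φ z) hsR
  have h2 : ContDiffAt ℝ ∞ (fun w => deriv Φ (s w)) (Φ z) := by
    have h : ContDiffAt ℝ ∞ (deriv Φ) (s (Φ z)) := by
      rw [hsz]
      exact (hA.deriv.contDiffAt (n := ∞)).restrict_scalars ℝ
    exact h.comp (Φ z) hsR
  have h3 : ContDiffAt ℝ ∞ (fun w => conj (deriv Φ (s w))) (Φ z) :=
    Complex.conjCLE.contDiff.contDiffAt.comp (Φ z) h2
  have h4 : ContDiffAt ℝ ∞ (fun w => (conj (deriv Φ (s w)))⁻¹) (Φ z) := by
    refine h3.inv ?_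
    rw [hsz]
    simpa using hne
  refine ((h1.mul h2).mul h4).congr_of_eventuallyEq ?_
  filter_upwards [hright, hmem] with w hw1 hw2
  conv_lhs => rw [← hw1]
  exact push_apply ν hinj hw2

theorem contDiff_push {V K : Set ℂ} (hV : IsOpen V) (hK : IsCompact K) (hKV : K ⊆ V)
    {Φ ν : ℂ → ℂ} (hd : DifferentiableOn ℂ Φ V) (hinj : InjOn Φ V) (hν : ContDiffOn ℝ ∞ ν V)
    (hν0 : ∀ z ∈ V, z ∉ K → ν z = 0) :
    ContDiff ℝ ∞ (push V Φ ν) ∧ HasCompactSupport (push V Φ ν) := by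
  have hKc : IsCompact (Φ '' K) := hK.image_of_continuousOn (hd.continuousOn.mono hKV)
  constructor
  · rw [contDiff_iff_contDiffAt]
    intro w
    by_cases h : w ∈ Φ '' V
    · obtain ⟨z, hz, rfl⟩ := h
      exact contDiffAt_push hV hd hinj hν hz
    · have hw : w ∉ Φ '' K := fun h' => h (image_mono hKV h')
      have h0 : push V Φ ν =ᶠ[𝓝 w] fun _ => 0 := by
        filter_upwards [hKc.isClosed.isOpen_compl.mem_nhds hw] with x hx
        exact push_eq_zero hinj hν0 hx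
      exact contDiffAt_const.congr_of_eventuallyEq h0
  · exact HasCompactSupport.intro hKc (fun x hx => push_eq_zero hinj hν0 hx)

theorem contDiffOn_dz {ψ : ℂ → ℂ} {V : Set ℂ} (hV : IsOpen V) (h : ContDiffOn ℝ ∞ ψ V) :
    ContDiffOn ℝ ∞ (dz ψ) V ∧ ContDiffOn ℝ ∞ (dzb ψ) V := by
  have h1 : ContDiffOn ℝ ∞ (fderiv ℝ ψ) V := h.fderiv_of_isOpen hV (by norm_num)
  have h2 : ContDiffOn ℝ ∞ (fun z => fderiv ℝ ψ z 1) V := h1.clm_apply contDiffOn_const
  have h3 : ContDiffOn ℝ ∞ (fun z => fderiv ℝ ψ z I) V := h1.clm_apply contDiffOn_const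
  constructor
  · have := ((h2.sub (contDiffOn_const (c := I) |>.mul h3)).mul (contDiffOn_const (c := (2 : ℂ)⁻¹)))
    refine this.congr ?_
    intro z _
    simp [dz, div_eq_mul_inv]
  · have := ((h2.add (contDiffOn_const (c := I) |>.mul h3)).mul (contDiffOn_const (c := (2 : ℂ)⁻¹)))
    refine this.congr ?_
    intro z _
    simp [dzb, div_eq_mul_inv]

theorem dzb_eq_zero_of_rel {T ψ : ℂ → ℂ} {z : ℂ} (hT : DifferentiableAt ℝ T (ψ z))
    (hψ : DifferentiableAt ℝ ψ z) (hdil : ‖dzb ψ z‖ < ‖dz ψ z‖)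
    (hrel : dzb (T ∘ ψ) z * dz ψ z = dzb ψ z * dz (T ∘ ψ) z) : dzb T (ψ z) = 0 := by
  obtain ⟨h1, h2⟩ := dz_comp hT hψ
  rw [h1, h2] at hrel
  have h3 : dzb T (ψ z) * (dz ψ z * conj (dz ψ z) - dzb ψ z * conj (dzb ψ z)) = 0 := by
    linear_combination hrel
  rcases mul_eq_zero.mp h3 with h | h
  · exact h
  · exfalso
    rw [mul_conj, mul_conj, normSq_eq_norm_sq, normSq_eq_norm_sq, sub_eq_zero] at h
    have h4 : ‖dz ψ z‖ ^ 2 = ‖dzb ψ z‖ ^ 2 := by exact_mod_cast h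
    have h5 := norm_nonneg (dzb ψ z)
    nlinarith

theorem pull {V : Set ℂ} (hV : IsOpen V) {Φ μ : ℂ → ℂ} (hd : DifferentiableOn ℂ Φ V)
    (hinj : InjOn Φ V) {H : ℂ → ℂ} (hH : ContDiff ℝ 1 H) (hHμ : ∀ w, dzb H w = μ w * dz H w)
    {ψ : ℂ ≃ₜ ℂ} {z₀ z : ℂ} (hz₀ : ψ z = z₀) (hz : z ∈ V) (hψ : DifferentiableAt ℝ ψ z)
    (hdil : ‖dzb ψ z‖ < ‖dz ψ z‖)
    (hμ : μ (Φ z) = (dzb ψ z * (dz ψ z)⁻¹) * deriv Φ z * (conj (deriv Φ z))⁻¹) :
    DifferentiableAt ℂ (fun z => H (Φ (ψ.symm z))) z₀ := by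
  have hne : deriv Φ z ≠ 0 := Pool.Agent.Squeeze.deriv_ne_zero_of_injOn hV hd hinj hz
  have hΦ : DifferentiableAt ℂ Φ z := hd.differentiableAt (hV.mem_nhds hz)
  have hsymm : ψ.symm z₀ = z := by rw [← hz₀]; exact ψ.symm_apply_apply z
  have hdet : (fderiv ℝ ψ z).det ≠ 0 := by
    rw [det_fderiv]
    have h5 := norm_nonneg (dzb ψ z)
    have : 0 < ‖dz ψ z‖ ^ 2 - ‖dzb ψ z‖ ^ 2 := by nlinarith
    exact this.ne'
  have hinv : DifferentiableAt ℝ ψ.symm z₀ := by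
    have h1 : HasFDerivAt ψ
        ((fderiv ℝ ψ z).toContinuousLinearEquivOfDetNeZero hdet : ℂ →L[ℝ] ℂ) (ψ.symm z₀) := by
      rw [hsymm, ContinuousLinearMap.coe_toContinuousLinearEquivOfDetNeZero]
      exact hψ.hasFDerivAt
    exact (HasFDerivAt.of_local_left_inverse ψ.symm.continuous.continuousAt h1
      (Eventually.of_forall fun y => ψ.apply_symm_apply y)).differentiableAt
  have hHd : DifferentiableAt ℝ H (Φ z) := (hH.differentiable (by norm_num)) _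
  have hG : DifferentiableAt ℝ (fun x => H (Φ x)) z :=
    DifferentiableAt.comp z hHd (hΦ.restrictScalars ℝ)
  have hT : DifferentiableAt ℝ (fun x => H (Φ (ψ.symm x))) z₀ := by
    have : DifferentiableAt ℝ (fun x => H (Φ x)) (ψ.symm z₀) := by rw [hsymm]; exact hG
    exact this.comp z₀ hinv
  refine (differentiableAt_of_dzb hT ?_).1
  have hG2 : (fun x => H (Φ (ψ.symm x))) ∘ ψ = H ∘ Φ := by
    funext x
    simp
  rw [← hz₀] at hT ⊢
  refine dzb_eq_zero_of_rel hT hψ hdil ?_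
  rw [hG2]
  obtain ⟨h1, h2⟩ := dz_comp hHd (hΦ.restrictScalars ℝ)
  obtain ⟨h3, h4⟩ := dzb_eq_zero_of_differentiableAt hΦ
  rw [h1, h2, h3, h4, hHμ, hμ]
  have hp : dz ψ z ≠ 0 := by
    intro h
    rw [h, norm_zero] at hdil
    exact absurd (norm_nonneg _) (not_le.mpr hdil)
  have hc : conj (deriv Φ z) ≠ 0 := by simpa using hne
  simp only [mul_zero, map_zero, add_zero, zero_add]
  field_simp

end SA

/-- Surgery, step A. -/
theorem surgA (h1 : Stmt_MRT) (h2 : Stmt_UnifBound) (_h3 : Stmt_Bl) : Stmt_SurgA := by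
  intro k r hk0 hk1 hr0 hr1
  obtain ⟨C, hC0, hC⟩ := h2.1 r hr1
  refine ⟨1 / r + C + 1, by positivity, ?_⟩
  intro m _ a _ a' _ b _ b' _ g g₂ ψ ψ₂ ψs ψs₂ hM hM₂ f φ χ _ hD j
  -- the two model maps
  have key : ∀ (ψ : ℂ ≃ₜ ℂ), (∀ z, ‖ψ z‖ < 1 ↔ ‖z‖ < 1) → (∀ z, ‖z‖ ≤ r → ψ z = z) →
      ContDiffOn ℝ ∞ ψ (ball 0 1) → (∀ z ∈ ball (0 : ℂ) 1, dz ψ z ≠ 0) →
      (∀ z ∈ ball (0 : ℂ) 1, ‖dzb ψ z‖ ≤ k * ‖dz ψ z‖) →
      ContDiffOn ℝ ∞ (fun z => dzb ψ z * (dz ψ z)⁻¹) (ball 0 1) ∧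
      (∀ z ∈ ball (0 : ℂ) 1, ‖dzb ψ z * (dz ψ z)⁻¹‖ ≤ k) ∧
      (∀ z : ℂ, ‖z‖ < r → dzb ψ z = 0) ∧
      (∀ z ∈ ball (0 : ℂ) 1, ‖dzb ψ z‖ < ‖dz ψ z‖) ∧
      (∀ z ∈ ball (0 : ℂ) 1, DifferentiableAt ℝ ψ z) := by
    intro ψ hψ1 hψ2 hψ3 hψ4 hψ5
    refine ⟨?_, ?_, ?_, ?_, ?_⟩
    · obtain ⟨e1, e2⟩ := SA.contDiffOn_dz isOpen_ball hψ3
      exact e2.mul (e1.inv hψ4)
    · intro z hz
      have := norm_pos_iff.mpr (hψ4 z hz)
      rw [norm_mul, norm_inv, ← div_eq_mul_inv, div_le_iff₀ this]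
      exact hψ5 z hz
    · intro z hz
      have : (ψ : ℂ → ℂ) =ᶠ[𝓝 z] fun w => w := by
        have hmem : z ∈ ball (0 : ℂ) r := by simpa using hz
        filter_upwards [isOpen_ball.mem_nhds hmem] with w hw
        exact hψ2 w (by simpa using (mem_ball_zero_iff.mp hw).le)
      rw [(dz_congr this).2]
      exact (dz_id z).2
    · intro z hz
      have h6 := norm_pos_iff.mpr (hψ4 z hz)
      have h7 := hψ5 z hz
      nlinarith
    · intro z hz
      exact (hψ3.contDiffAt (isOpen_ball.mem_nhds hz)).differentiableAt (by norm_num)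
  obtain ⟨a1, a2, a3, a4, a5⟩ := key (ψs j) (hM.norm_lt' j) (hM.near_zero' j) (hM.smooth j)
    (hM.ne j) (hM.dil j)
  obtain ⟨b1, b2, b3, b4, b5⟩ := key (ψs₂ j) (hM₂.norm_lt' j) (hM₂.near_zero' j) (hM₂.smooth j)
    (hM₂.ne j) (hM₂.dil j)
  obtain ⟨ρ₁, hρ₁, hol₁⟩ := hM.hol j
  obtain ⟨ρ₂, hρ₂, hol₂⟩ := hM₂.hol j
  set V : Set ℂ := ball 0 1 \ {0} with hVdef
  have hVo : IsOpen V := isOpen_ball.sdiff isClosed_singleton
  set K₁ : Set ℂ := {z : ℂ | r ≤ ‖z‖ ∧ ‖z‖ ≤ ρ₁} with hK₁def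
  have hK₁c : IsCompact K₁ := by
    refine (isCompact_closedBall (0 : ℂ) ρ₁).of_isClosed_subset ?_ ?_
    · exact (isClosed_le continuous_const continuous_norm).inter
        (isClosed_le continuous_norm continuous_const)
    · intro z hz
      simpa using hz.2
  have hK₁V : K₁ ⊆ V := by
    intro z hz
    refine ⟨by simpa using hz.2.trans_lt hρ₁, ?_⟩
    intro h0
    rw [mem_singleton_iff] at h0
    have := hz.1
    rw [h0, norm_zero] at this
    linarith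
  set K₂ : Set ℂ := closedBall 0 ρ₂ with hK₂def
  have hK₂c : IsCompact K₂ := isCompact_closedBall _ _
  have hK₂V : K₂ ⊆ ball (0 : ℂ) 1 := closedBall_subset_ball hρ₂
  set ν₁ : ℂ → ℂ := fun z => dzb (ψs j) z * (dz (ψs j) z)⁻¹ with hν₁
  set ν₂ : ℂ → ℂ := fun z => dzb (ψs₂ j) z * (dz (ψs₂ j) z)⁻¹ with hν₂
  have hν₁0 : ∀ z ∈ V, z ∉ K₁ → ν₁ z = 0 := by
    intro z hz hzK
    have hz1 : ‖z‖ < 1 := by simpa using hz.1
    have : dzb (ψs j) z = 0 := by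
      by_cases h : ‖z‖ < r
      · exact a3 z h
      · refine hol₁ z ?_ hz1
        by_contra h'
        exact hzK ⟨not_lt.mp h, not_lt.mp h'⟩
    simp [hν₁, this]
  have hν₂0 : ∀ z ∈ ball (0 : ℂ) 1, z ∉ K₂ → ν₂ z = 0 := by
    intro z hz hzK
    have hz1 : ‖z‖ < 1 := by simpa using hz
    have : dzb (ψs₂ j) z = 0 := by
      refine hol₂ z ?_ hz1
      by_contra h'
      exact hzK (by simpa [hK₂def] using not_lt.mp h')
    simp [hν₂, this]
  have hφd : DifferentiableOn ℂ φ V := hD.unif.diff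
  have hφi : InjOn φ V := hD.unif.inj
  have hχi : InjOn χ (ball 0 1) := hD.χinj.mono ball_subset_closedBall
  have hdisj : ∀ w, w ∈ φ '' V → w ∉ χ '' ball 0 1 := by
    intro w hw hw'
    exact Set.disjoint_left.mp hD.disj hw (image_mono ball_subset_closedBall hw')
  obtain ⟨s1, s2⟩ := SA.contDiff_push hVo hK₁c hK₁V hφd hφi (a1.mono sdiff_subset) hν₁0
  obtain ⟨t1, t2⟩ := SA.contDiff_push isOpen_ball hK₂c hK₂V hD.χdiff hχi b1 hν₂0
  set μ : ℂ → ℂ := fun w => SA.push V φ ν₁ w + SA.push (ball 0 1) χ ν₂ w with hμdef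
  have hμ1 : ContDiff ℝ ∞ μ := s1.add t1
  have hμ2 : HasCompactSupport μ := s2.add t2
  have hμ3 : ∀ w, ‖μ w‖ ≤ k := by
    intro w
    by_cases hw : w ∈ φ '' V
    · have : SA.push (ball 0 1) χ ν₂ w = 0 := SA.push_of_notMem (hdisj w hw)
      simp only [hμdef, this, add_zero]
      exact SA.push_norm_le hφi hk0 (fun z hz => a2 z hz.1) w
    · have : SA.push V φ ν₁ w = 0 := SA.push_of_notMem hw
      simp only [hμdef, this, zero_add]
      exact SA.push_norm_le hχi hk0 b2 w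
  obtain ⟨H, hH1, hH2, hH3, hH4⟩ := h1 μ k hk1 hμ1 hμ2 hμ3
  have hHd : ∀ w, DifferentiableAt ℝ H w := fun w => (hH1.differentiable (by norm_num)) w
  have hhol : ∀ w, μ w = 0 → DifferentiableAt ℂ H w := by
    intro w hw
    refine (differentiableAt_of_dzb (hHd w) ?_).1
    rw [hH3, hw, zero_mul]
  have hμφ : ∀ z ∈ V, μ (φ z) = ν₁ z * deriv φ z * (conj (deriv φ z))⁻¹ := by
    intro z hz
    have : SA.push (ball 0 1) χ ν₂ (φ z) = 0 := SA.push_of_notMem (hdisj _ ⟨z, hz, rfl⟩)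
    simp only [hμdef, this, add_zero]
    exact SA.push_apply ν₁ hφi hz
  have hμχ : ∀ z ∈ ball (0 : ℂ) 1, μ (χ z) = ν₂ z * deriv χ z * (conj (deriv χ z))⁻¹ := by
    intro z hz
    have : SA.push V φ ν₁ (χ z) = 0 :=
      SA.push_of_notMem (fun h => hdisj _ h ⟨z, hz, rfl⟩)
    simp only [hμdef, this, zero_add]
    exact SA.push_apply ν₂ hχi hz
  refine ⟨H, ⟨hH1, hH2, ?_⟩, hH4, ?_, ?_, ?_, ?_⟩
  · intro z
    rw [hH3, norm_mul]
    exact mul_le_mul_of_nonneg_right (hμ3 z) (norm_nonneg _)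
  · intro w hw
    have hw' : 1 / r + C + 1 < ‖w‖ := hw
    refine (hhol w ?_).differentiableWithinAt
    obtain ⟨z, hz0, hz1, hz2⟩ := h2.2 φ hD.unif r hr0 hr1 w (by
      intro z hz
      have hz0 : z ≠ 0 := by
        rintro rfl
        rw [norm_zero] at hz
        linarith
      have e1 := hC φ hD.unif z hz0 hz.le
      have e2 : ‖φ z‖ ≤ ‖φ z - 1 / z‖ + ‖1 / z‖ := by
        have := norm_add_le (φ z - 1 / z) (1 / z)
        simpa using this
      have e3 : ‖1 / z‖ = 1 / r := by rw [norm_div, norm_one, hz]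
      rw [hz] at e1
      have e4 : C * r ≤ C := by nlinarith
      rw [e3] at e2
      linarith)
    have hzV : z ∈ V := ⟨by simpa using hz1.trans hr1, hz0⟩
    rw [← hz2, hμφ z hzV]
    have : ν₁ z = 0 := by simp [hν₁, a3 z hz1]
    rw [this]
    simp
  · intro z₀ hz₀
    have hz₀1 : ‖z₀‖ < 1 := by simpa using hz₀.1
    set z := (ψs j).symm z₀ with hz
    have hψz : ψs j z = z₀ := (ψs j).apply_symm_apply z₀
    have hz1 : ‖z‖ < 1 := by rw [← hM.norm_lt' j, hψz]; exact hz₀1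
    have hz0 : z ≠ 0 := by
      intro h0
      have : ψs j 0 = 0 := hM.near_zero' j 0 (by simpa using hr0.le)
      rw [h0, this] at hψz
      exact hz₀.2 (by simpa using hψz.symm)
    have hzV : z ∈ V := ⟨by simpa using hz1, hz0⟩
    exact (SA.pull hVo hφd hφi hH1 hH3 hψz hzV (a5 z hzV.1) (a4 z hzV.1)
      (hμφ z hzV)).differentiableWithinAt
  · intro z₀ hz₀
    have hz₀1 : ‖z₀‖ < 1 := by simpa using hz₀
    set z := (ψs₂ j).symm z₀ with hz
    have hψz : ψs₂ j z = z₀ := (ψs₂ j).apply_symm_apply z₀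
    have hz1 : ‖z‖ < 1 := by rw [← hM₂.norm_lt' j, hψz]; exact hz₀1
    have hzV : z ∈ ball (0 : ℂ) 1 := by simpa using hz1
    exact (SA.pull isOpen_ball hD.χdiff hχi hH1 hH3 hψz hzV (b5 z hzV) (b4 z hzV)
      (hμχ z hzV)).differentiableWithinAt
  · have hK₁i : IsCompact (φ '' K₁) := hK₁c.image_of_continuousOn (hφd.continuousOn.mono hK₁V)
    have hK₂i : IsCompact (χ '' K₂) :=
      hK₂c.image_of_continuousOn (hD.χdiff.continuousOn.mono hK₂V)
    refine ⟨(φ '' K₁ ∪ χ '' K₂)ᶜ, (hK₁i.isClosed.union hK₂i.isClosed).isOpen_compl, ?_, ?_⟩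
    · rintro w ⟨z, hz, rfl⟩
      have hz1 : ‖z‖ = 1 := by simpa using hz
      rintro (⟨z', hz', he⟩ | ⟨z', hz', he⟩)
      · have hzV' := hK₁V hz'
        have e1 : z' ∈ closedBall (0 : ℂ) 1 \ {0} := ⟨ball_subset_closedBall hzV'.1, hzV'.2⟩
        have e2 : z ∈ closedBall (0 : ℂ) 1 \ {0} := by
          refine ⟨by simp [hz1], ?_⟩
          intro h0
          rw [mem_singleton_iff] at h0
          rw [h0, norm_zero] at hz1
          norm_num at hz1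
        have e3 := hD.φinj e1 e2 he
        have e4 := hz'.2
        rw [e3, hz1] at e4
        linarith
      · have e0 : φ z ∈ χ '' sphere 0 1 := by
          rw [← hD.bdry]
          exact ⟨z, hz, rfl⟩
        obtain ⟨z'', hz'', he'⟩ := e0
        have e1 : z' ∈ closedBall (0 : ℂ) 1 := ball_subset_closedBall (hK₂V hz')
        have e2 : z'' ∈ closedBall (0 : ℂ) 1 := sphere_subset_closedBall hz''
        have e3 := hD.χinj e1 e2 (he.trans he'.symm)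
        have e4 : ‖z'‖ ≤ ρ₂ := by simpa [hK₂def] using hz'
        have e5 : ‖z''‖ = 1 := by simpa using hz''
        rw [e3, e5] at e4
        linarith
    · intro w hw
      refine (hhol w ?_).differentiableWithinAt
      have hw1 : w ∉ φ '' K₁ := fun h => hw (Or.inl h)
      have hw2 : w ∉ χ '' K₂ := fun h => hw (Or.inr h)
      simp only [hμdef]
      rw [SA.push_eq_zero hφi hν₁0 hw1, SA.push_eq_zero hχi hν₂0 hw2, add_zero]

end Pool.Agent.BlMat
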