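import Pool.Agent.BlMat.DynDefs
import Pool.Agent.BlMat.Basic

set_option autoImplicit false

/-! Surgery, step B: passage to the limit in the approximate conjugacies. -/

namespace Pool.Agent.BlMat

open Complex Metric Set Filter Topology MeasureTheory
open scoped ComplexConjugate ContDiff

namespace SB

/-! ### Continuous convergence -/

/-- Continuous convergence. -/
def CC (Fs : ℕ → ℂ → ℂ) (F : ℂ → ℂ) : Prop :=
  ∀ x : ℂ, Tendsto (fun p : ℕ × ℂ => Fs p.1 p.2) (atTop ×ˢ 𝓝 x) (𝓝 (F x))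

theorem cc_iff {Fs : ℕ → ℂ → ℂ} {F : ℂ → ℂ} (hF : Continuous F) :
    TendstoLocallyUniformly Fs F atTop ↔ CC Fs F := by
  rw [tendstoLocallyUniformly_iff_forall_tendsto]
  refine forall_congr' fun x => ?_
  have h2 : Tendsto (fun p : ℕ × ℂ => F p.2) (atTop ×ˢ 𝓝 x) (𝓝 (F x)) :=
    (hF.tendsto x).comp tendsto_snd
  constructor
  · intro h
    rw [Metric.uniformity_eq_comap_nhds_zero, tendsto_comap_iff] at h
    rw [tendsto_iff_dist_tendsto_zero] at h2 ⊢
    have h3 := h.add h2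
    simp only [add_zero] at h3
    refine squeeze_zero (fun _ => dist_nonneg) (fun p => ?_) h3
    simp only [Function.comp_apply]
    rw [dist_comm (F p.2) (Fs p.1 p.2)]
    exact dist_triangle _ _ _
  · intro h
    rw [Metric.uniformity_eq_comap_nhds_zero, tendsto_comap_iff]
    have h3 := h2.dist h
    rw [dist_self] at h3
    exact h3

theorem CC.comp {Fs Gs : ℕ → ℂ → ℂ} {F G : ℂ → ℂ} (hF : CC Fs F) (hG : CC Gs G) :
    CC (fun j z => Fs j (Gs j z)) (fun z => F (G z)) := by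
  intro x
  have h1 : Tendsto (fun p : ℕ × ℂ => (p.1, Gs p.1 p.2)) (atTop ×ˢ 𝓝 x)
      (atTop ×ˢ 𝓝 (G x)) := tendsto_fst.prodMk (hG x)
  exact (hF (G x)).comp h1

theorem CC.subseq {Fs : ℕ → ℂ → ℂ} {F : ℂ → ℂ} (hF : CC Fs F) {s : ℕ → ℕ}
    (hs : Tendsto s atTop atTop) : CC (fun j => Fs (s j)) F := by
  intro x
  have h1 : Tendsto (fun p : ℕ × ℂ => (s p.1, p.2)) (atTop ×ˢ 𝓝 x)
      (atTop ×ˢ 𝓝 x) := (hs.comp tendsto_fst).prodMk tendsto_snd
  exact (hF x).comp h1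

theorem subseq {Fs : ℕ → ℂ → ℂ} {F : ℂ → ℂ} (hc : Continuous F)
    (hF : TendstoLocallyUniformly Fs F atTop) {s : ℕ → ℕ}
    (hs : Tendsto s atTop atTop) : TendstoLocallyUniformly (fun j => Fs (s j)) F atTop :=
  (cc_iff hc).2 (((cc_iff hc).1 hF).subseq hs)

/-! ### Inverse of an injective holomorphic function -/

/-- If `T ∘ P = Q` near `z₀` with `P`, `Q` holomorphic, `P` injective, then the continuous
function `T` is holomorphic at `P z₀`. -/
theorem diff_aux {T P Q : ℂ → ℂ} {V : Set ℂ} (hT : Continuous T) (hV : IsOpen V)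
    (hP : DifferentiableOn ℂ P V) (hQ : DifferentiableOn ℂ Q V) (hi : InjOn P V)
    (he : ∀ z ∈ V, T (P z) = Q z) {z₀ : ℂ} (hz : z₀ ∈ V) : DifferentiableAt ℂ T (P z₀) := by
  -- points with nonzero derivative
  have key : ∀ z ∈ V, deriv P z ≠ 0 → DifferentiableAt ℂ T (P z) := by
    intro z hzV hd
    have hPa : AnalyticAt ℂ P z := hP.analyticAt (hV.mem_nhds hzV)
    have hs : HasStrictDerivAt P (deriv P z) z := hPa.hasStrictDerivAt
    have hinv := hs.to_localInverse hd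
    have hr := hs.eventually_right_inverse hd
    have hQa : DifferentiableAt ℂ Q z := hQ.differentiableAt (hV.mem_nhds hzV)
    have hl : hs.localInverse P (deriv P z) z hd (P z) = z :=
      (hs.hasStrictFDerivAt_equiv hd).localInverse_apply_image
    have hcont : ContinuousAt (hs.localInverse P (deriv P z) z hd) (P z) :=
      hinv.hasDerivAt.continuousAt
    have hev : ∀ᶠ w in 𝓝 (P z), hs.localInverse P (deriv P z) z hd w ∈ V := by
      have : V ∈ 𝓝 (hs.localInverse P (deriv P z) z hd (P z)) := by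
        rw [hl]; exact hV.mem_nhds hzV
      exact hcont this
    have hcomp : DifferentiableAt ℂ (fun w => Q (hs.localInverse P (deriv P z) z hd w)) (P z) := by
      refine DifferentiableAt.comp (P z) ?_ hinv.hasDerivAt.differentiableAt
      rw [hl]; exact hQa
    refine hcomp.congr_of_eventuallyEq ?_
    filter_upwards [hev, hr] with w h1 h2
    rw [← he _ h1, h2]
  by_cases hd : deriv P z₀ = 0
  · -- isolated critical point
    have hPa : AnalyticOnNhd ℂ P V := hP.analyticOnNhd hV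
    obtain ⟨ε, hε, hball⟩ := Metric.isOpen_iff.1 hV z₀ hz
    have hPb : AnalyticOnNhd ℂ P (ball z₀ ε) := hPa.mono hball
    have hnc : ∀ᶠ z in 𝓝[≠] z₀, deriv P z ≠ 0 := by
      have hda : AnalyticOnNhd ℂ (deriv P) (ball z₀ ε) := hPb.deriv
      rcases (hda z₀ (mem_ball_self hε)).eventually_eq_zero_or_eventually_ne_zero with h | h
      · exfalso
        have h0 : EqOn (deriv P) 0 (ball z₀ ε) :=
          hda.eqOn_zero_of_preconnected_of_eventuallyEq_zero
            (convex_ball z₀ ε).isPreconnected (mem_ball_self hε) h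
        have hz1 : z₀ + (ε / 2 : ℝ) ∈ ball z₀ ε := by
          rw [mem_ball, dist_eq_norm]
          simp only [add_sub_cancel_left, norm_real, Real.norm_eq_abs]
          rw [abs_of_pos (by linarith)]
          linarith
        have hc : P (z₀ + (ε / 2 : ℝ)) = P z₀ :=
          (convex_ball z₀ ε).is_const_of_fderivWithin_eq_zero (𝕜 := ℂ)
            (hP.mono hball) (by
              intro x hx
              rw [fderivWithin_of_isOpen isOpen_ball hx]
              ext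
              simpa using h0 hx) hz1 (mem_ball_self hε)
        have := hi (hball hz1) hz hc
        have h3 : ((ε / 2 : ℝ) : ℂ) = 0 := by simpa using this
        have h4 : ε / 2 = 0 := by exact_mod_cast h3
        linarith
      · exact h
    -- a small ball
    obtain ⟨δ, hδ, hδb⟩ : ∃ δ > 0, ∀ z ∈ ball z₀ δ, z ≠ z₀ → deriv P z ≠ 0 ∧ z ∈ V := by
      rw [eventually_nhdsWithin_iff, Metric.eventually_nhds_iff] at hnc
      obtain ⟨δ, hδ, h⟩ := hnc
      refine ⟨min δ ε, lt_min hδ hε, fun z hz' hne => ⟨h ?_ hne, hball ?_⟩⟩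
      · exact lt_of_lt_of_le hz' (min_le_left _ _)
      · exact ball_subset_ball (min_le_right _ _) hz'
    -- the image of the ball is a neighbourhood of P z₀
    have hnb : P '' ball z₀ δ ∈ 𝓝 (P z₀) := by
      rcases (hPa z₀ hz).eventually_constant_or_nhds_le_map_nhds with h | h
      · exfalso
        obtain ⟨z, hzs⟩ := ((h.filter_mono nhdsWithin_le_nhds).and
          ((hV.mem_nhds hz |> fun h => (eventually_mem_set.2 h).filter_mono
            nhdsWithin_le_nhds).and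
          (self_mem_nhdsWithin : ∀ᶠ z in 𝓝[≠] z₀, z ∈ ({z₀}ᶜ : Set ℂ)))).exists
        exact hzs.2.2 (hi hzs.2.1 hz hzs.1)
      · exact h (image_mem_map (ball_mem_nhds z₀ hδ))
    obtain ⟨U, hUs, hUo, hUm⟩ := _root_.mem_nhds_iff.1 hnb
    have hdiff : DifferentiableOn ℂ T (U \ {P z₀}) := by
      intro w hw
      obtain ⟨z, hz1, hz2⟩ := hUs hw.1
      have hne : z ≠ z₀ := by
        rintro rfl
        exact hw.2 hz2.symm
      have := hδb z hz1 hne
      rw [← hz2]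
      exact (key z this.2 this.1).differentiableWithinAt
    have := (differentiableOn_compl_singleton_and_continuousAt_iff (hUo.mem_nhds hUm)).1
      ⟨hdiff, hT.continuousAt⟩
    exact this.differentiableAt (hUo.mem_nhds hUm)
  · exact key z₀ hz hd


/-! ### Model conjugacies -/

theorem model_zero {m : ℕ} {a a' : Fin m → ℂ} {k r : ℝ} {g : ℂ → ℂ} {ψ : ℂ ≃ₜ ℂ}
    {ψs : ℕ → ℂ ≃ₜ ℂ} (h : Model a a' k r g ψ ψs) : ψ 0 = 0 :=
  h.near_zero 0 (by simpa using h.r_pos.le)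

theorem model_zero' {m : ℕ} {a a' : Fin m → ℂ} {k r : ℝ} {g : ℂ → ℂ} {ψ : ℂ ≃ₜ ℂ}
    {ψs : ℕ → ℂ ≃ₜ ℂ} (h : Model a a' k r g ψ ψs) : ψ.symm 0 = 0 := by
  rw [Homeomorph.symm_apply_eq, model_zero h]

theorem model_norm' {m : ℕ} {a a' : Fin m → ℂ} {k r : ℝ} {g : ℂ → ℂ} {ψ : ℂ ≃ₜ ℂ}
    {ψs : ℕ → ℂ ≃ₜ ℂ} (h : Model a a' k r g ψ ψs) (z : ℂ) : ‖ψ.symm z‖ < 1 ↔ ‖z‖ < 1 := by
  rw [← h.norm_lt, Homeomorph.apply_symm_apply]

theorem model_stab' {m : ℕ} {a a' : Fin m → ℂ} {k r : ℝ} {g : ℂ → ℂ} {ψ : ℂ ≃ₜ ℂ}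
    {ψs : ℕ → ℂ ≃ₜ ℂ} (h : Model a a' k r g ψ ψs) {ρ : ℝ} (hρ : ρ < 1) :
    ∀ᶠ j in atTop, ∀ z : ℂ, ‖z‖ ≤ ρ → (ψs j).symm z = ψ.symm z := by
  rcases lt_or_ge ρ 0 with h0 | h0
  · exact Eventually.of_forall fun j z hz => absurd hz (by
      have := norm_nonneg z
      linarith)
  have hK : IsCompact (ψ.symm '' closedBall 0 ρ) :=
    (isCompact_closedBall 0 ρ).image ψ.symm.continuous
  obtain ⟨x, hx, hmax⟩ := hK.exists_isMaxOn
    ⟨ψ.symm 0, mem_image_of_mem _ (mem_closedBall_self h0)⟩ continuous_norm.continuousOn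
  obtain ⟨y, hy, rfl⟩ := hx
  have hlt : ‖ψ.symm y‖ < 1 := by
    rw [model_norm' h]
    rw [mem_closedBall_zero_iff] at hy
    linarith
  filter_upwards [h.stab _ hlt] with j hj z hz
  rw [Homeomorph.symm_apply_eq]
  have := hj (ψ.symm z) (hmax (mem_image_of_mem _ (mem_closedBall_zero_iff.2 hz)))
  rw [this, Homeomorph.apply_symm_apply]


theorem hol_lim {m : ℕ} {a a' : Fin m → ℂ} {k r : ℝ} {g : ℂ → ℂ} {ψ : ℂ ≃ₜ ℂ}
    {ψs : ℕ → ℂ ≃ₜ ℂ} (hm : Model a a' k r g ψ ψs) {Hs : ℕ → ℂ → ℂ} {h : ℂ → ℂ}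
    (hH : TendstoLocallyUniformly Hs h atTop) {t : ℕ → ℕ} (ht : Tendsto t atTop atTop)
    {φ : ℂ → ℂ} {S : Set ℂ} (hSo : IsOpen S) (hS : S ⊆ ball 0 1)
    (hd : ∀ i, DifferentiableOn ℂ (fun z => Hs i (φ ((ψs (t i)).symm z))) S)
    (hc : ContinuousOn (fun z => φ (ψ.symm z)) S) :
    DifferentiableOn ℂ (fun z => h (φ (ψ.symm z))) S := by
  intro z₀ hz₀
  have hn : ‖z₀‖ < 1 := by simpa using hS hz₀
  obtain ⟨ρ, hρ1, hρ2⟩ := exists_between hn
  have hVo : IsOpen (ball (0 : ℂ) ρ ∩ S) := isOpen_ball.inter hSo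
  have hV : z₀ ∈ ball (0 : ℂ) ρ ∩ S := ⟨by simpa using hρ1, hz₀⟩
  have h1 : TendstoLocallyUniformlyOn (fun i => Hs i ∘ fun z => φ (ψ.symm z))
      (h ∘ fun z => φ (ψ.symm z)) atTop (ball (0 : ℂ) ρ ∩ S) :=
    (tendstoLocallyUniformlyOn_univ.2 hH).comp _ (mapsTo_univ _ _) (hc.mono inter_subset_right)
  have h2 : ∀ᶠ i in atTop, DifferentiableOn ℂ (Hs i ∘ fun z => φ (ψ.symm z))
      (ball (0 : ℂ) ρ ∩ S) := by
    filter_upwards [ht.eventually (model_stab' hm hρ2)] with i hi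
    refine ((hd i).mono inter_subset_right).congr fun z hz => ?_
    have hz1 : ‖z‖ ≤ ρ := by
      have := hz.1
      rw [mem_ball_zero_iff] at this
      exact this.le
    simp only [Function.comp_apply]
    rw [hi z hz1]
  have h3 := h1.differentiableOn h2 hVo
  exact (h3.differentiableAt (hVo.mem_nhds hV)).differentiableWithinAt

/-! ### Infinity -/

theorem tendsto_symm {h : ℂ ≃ₜ ℂ} (hh : Tendsto (fun w => h w - w) (cocompact ℂ) (𝓝 0)) :
    Tendsto (fun w => h.symm w - w) (cocompact ℂ) (𝓝 0) := by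
  have h1 : Tendsto h.symm (cocompact ℂ) (cocompact ℂ) := h.symm.isClosedEmbedding.tendsto_cocompact
  have h2 := (hh.comp h1).neg
  simpa [Function.comp_def] using h2

theorem tendsto_comp {h g : ℂ ≃ₜ ℂ} (hh : Tendsto (fun w => h w - w) (cocompact ℂ) (𝓝 0))
    (hg : Tendsto (fun w => g w - w) (cocompact ℂ) (𝓝 0)) :
    Tendsto (fun w => (h.symm.trans g) w - w) (cocompact ℂ) (𝓝 0) := by
  have h1 : Tendsto h.symm (cocompact ℂ) (cocompact ℂ) := h.symm.isClosedEmbedding.tendsto_cocompact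
  have h2 := (hg.comp h1).add (tendsto_symm hh)
  simpa [Function.comp_def] using h2

theorem wqs_mono {M M' : ℝ} {H : ℂ → ℂ} (h : WQS M H) (hM : M ≤ M') : WQS M' H := by
  intro x y z hxy
  exact (h x y z hxy).trans (mul_le_mul_of_nonneg_right hM (norm_nonneg _))

/-! ### The two limits agree -/

theorem limits_eq (h3 : Stmt_QCGroup) (h5 : Stmt_Removable) (h6 : Stmt_QCircleNull)
    (h7 : Stmt_QSGroup) {m : ℕ} {a a' b b' : Fin m → ℂ} {k r : ℝ} {g g₂ : ℂ → ℂ}
    {ψ ψ₂ : ℂ ≃ₜ ℂ} {ψs ψs₂ : ℕ → ℂ ≃ₜ ℂ} (hm : Model a a' k r g ψ ψs)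
    (hm₂ : Model b b' k r g₂ ψ₂ ψs₂) {f : OnePoint ℂ → OnePoint ℂ} {φ χ : ℂ → ℂ}
    (hmd : MateData a b f φ χ) {Hs : ℕ → ℂ ≃ₜ ℂ} {h h' : ℂ ≃ₜ ℂ} {M R : ℝ}
    (hn : NormQS M R h) (hn' : NormQS M R h')
    (hq : ∀ j, SmoothQC k (Hs j))
    (hd1 : ∀ j, DifferentiableOn ℂ (fun z => Hs j (φ ((ψs j).symm z))) (ball 0 1 \ {0}))
    (hd2 : ∀ j, DifferentiableOn ℂ (fun z => Hs j (χ ((ψs₂ j).symm z))) (ball 0 1))
    {s : ℕ → ℕ} (hs : StrictMono s)
    (hc1 : TendstoLocallyUniformly (fun i => (Hs (s i) : ℂ → ℂ)) h atTop)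
    (hc1' : TendstoLocallyUniformly (fun i => ((Hs (s i)).symm : ℂ → ℂ)) h.symm atTop)
    (hc2 : TendstoLocallyUniformly (fun i => (Hs (s i + 1) : ℂ → ℂ)) h' atTop) :
    h' = h := by
  obtain ⟨k', hk', hcomp⟩ := h3.2 k hm.k_lt
  have hs' : Tendsto s atTop atTop := hs.tendsto_atTop
  have hs1 : Tendsto (fun i => s i + 1) atTop atTop := (tendsto_add_atTop_nat 1).comp hs'
  -- the transition map
  have hTs : ∀ i, SmoothQC k' ((Hs (s i)).symm.trans (Hs (s i + 1))) := fun i =>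
    hcomp _ _ (h3.1 k _ hm.k_lt (hq _)) (hq _)
  have hT : TendstoLocallyUniformly
      (fun i => ((Hs (s i)).symm.trans (Hs (s i + 1)) : ℂ → ℂ)) (h.symm.trans h') atTop := by
    rw [cc_iff (h.symm.trans h').continuous]
    exact ((cc_iff h'.continuous).1 hc2).comp ((cc_iff h.symm.continuous).1 hc1')
  -- the boundary
  obtain ⟨H0, M0, hH0, hH0'⟩ := hmd.qcircle
  obtain ⟨M', hM'⟩ := h7.2 (max M0 M)
  have hJ1 := hM' H0 h (wqs_mono hH0 (le_max_left _ _)) (wqs_mono hn.wqs (le_max_right _ _))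
  have hJe : h '' (φ '' sphere 0 1) = (H0.trans h) '' sphere (0 : ℂ) 1 := by
    rw [← hH0', image_image]
    rfl
  have hJn : volume (h '' (φ '' sphere 0 1)) = 0 := by
    rw [hJe]
    exact h6 _ _ hJ1
  have hJc : IsClosed (h '' (φ '' sphere 0 1)) := by
    rw [hJe]
    exact ((isCompact_sphere (0 : ℂ) 1).image (H0.trans h).continuous).isClosed
  -- the open sets
  have hO1 : IsOpen (ball (0 : ℂ) 1 \ {0}) := isOpen_ball.sdiff isClosed_singleton
  have hφc : ContinuousOn (fun z => φ (ψ.symm z)) (ball (0 : ℂ) 1 \ {0}) := by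
    refine hmd.unif.diff.continuousOn.comp ψ.symm.continuous.continuousOn ?_
    intro z hz
    refine ⟨?_, ?_⟩
    · rw [mem_ball_zero_iff, model_norm' hm]
      simpa using hz.1
    · intro h0
      rw [mem_singleton_iff, Homeomorph.symm_apply_eq, model_zero hm] at h0
      exact hz.2 h0
  have hχc : ContinuousOn (fun z => χ (ψ₂.symm z)) (ball (0 : ℂ) 1) := by
    refine hmd.χdiff.continuousOn.comp ψ₂.symm.continuous.continuousOn ?_
    intro z hz
    rw [mem_ball_zero_iff, model_norm' hm₂]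
    simpa using hz
  have P1 := hol_lim hm hc1 hs' hO1 sdiff_subset (fun i => hd1 (s i)) hφc
  have P2 := hol_lim hm₂ hc1 hs' isOpen_ball subset_rfl (fun i => hd2 (s i)) hχc
  have Q1 := hol_lim hm hc2 hs1 hO1 sdiff_subset (fun i => hd1 (s i + 1)) hφc
  have Q2 := hol_lim hm₂ hc2 hs1 isOpen_ball subset_rfl (fun i => hd2 (s i + 1)) hχc
  have I1 : InjOn (fun z => h (φ (ψ.symm z))) (ball (0 : ℂ) 1 \ {0}) := by
    intro x hx y hy hxy
    have h1 := h.injective hxy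
    have hmem : ∀ z ∈ ball (0 : ℂ) 1 \ {0}, ψ.symm z ∈ ball (0 : ℂ) 1 \ {0} := by
      intro z hz
      refine ⟨?_, ?_⟩
      · rw [mem_ball_zero_iff, model_norm' hm]
        simpa using hz.1
      · intro h0
        rw [mem_singleton_iff, Homeomorph.symm_apply_eq, model_zero hm] at h0
        exact hz.2 h0
    exact ψ.symm.injective (hmd.unif.inj (hmem x hx) (hmem y hy) h1)
  have I2 : InjOn (fun z => h (χ (ψ₂.symm z))) (ball (0 : ℂ) 1) := by
    intro x hx y hy hxy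
    have h1 := h.injective hxy
    have hmem : ∀ z ∈ ball (0 : ℂ) 1, ψ₂.symm z ∈ closedBall (0 : ℂ) 1 := by
      intro z hz
      apply ball_subset_closedBall
      rw [mem_ball_zero_iff, model_norm' hm₂]
      simpa using hz
    exact ψ₂.symm.injective (hmd.χinj (hmem x hx) (hmem y hy) h1)
  have hTd : DifferentiableOn ℂ (h.symm.trans h') (h '' (φ '' sphere 0 1))ᶜ := by
    intro w hw
    refine DifferentiableAt.differentiableWithinAt ?_
    have hx : h.symm w ∈ φ '' (ball 0 1 \ {0}) ∪ χ '' closedBall 0 1 := by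
      rw [hmd.cover]; trivial
    rcases hx with ⟨z, hz, hzw⟩ | ⟨z, hz, hzw⟩
    · have hz' : ψ z ∈ ball (0 : ℂ) 1 \ {0} := by
        refine ⟨?_, ?_⟩
        · rw [mem_ball_zero_iff, hm.norm_lt]
          simpa using hz.1
        · intro h0
          rw [mem_singleton_iff, ← model_zero hm] at h0
          exact hz.2 (ψ.injective h0)
      have hw' : w = (fun z => h (φ (ψ.symm z))) (ψ z) := by
        simp [hzw]
      rw [hw']
      refine diff_aux (h.symm.trans h').continuous hO1 P1 Q1 I1 ?_ hz'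
      intro z _
      simp
    · have hz0 : ‖z‖ < 1 := by
        rcases lt_or_eq_of_le (mem_closedBall_zero_iff.1 hz) with h1 | h1
        · exact h1
        · exfalso
          apply hw
          refine ⟨h.symm w, ?_, by simp⟩
          rw [hmd.bdry, ← hzw]
          exact mem_image_of_mem _ (by simpa using h1)
      have hz' : ψ₂ z ∈ ball (0 : ℂ) 1 := by
        rw [mem_ball_zero_iff, hm₂.norm_lt]
        exact hz0
      have hw' : w = (fun z => h (χ (ψ₂.symm z))) (ψ₂ z) := by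
        simp [hzw]
      rw [hw']
      refine diff_aux (h.symm.trans h').continuous isOpen_ball P2 Q2 I2 ?_ hz'
      intro z _
      simp
  have hfin := h5 k' hk' (h.symm.trans h') _ _ hTs hT hJc hJn hTd (tendsto_comp hn.norm hn'.norm)
  ext z
  have := hfin (h z)
  simpa using this

end SB

open SB in
/-- Surgery, step B. -/
theorem surgB (h1 : Stmt_SurgA) (h2 : Stmt_LengthArea) (h3 : Stmt_QCGroup)
    (h4 : Stmt_QSCompact) (h5 : Stmt_Removable) (h6 : Stmt_QCircleNull) (h7 : Stmt_QSGroup)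
    (_h8 : Stmt_Bl) : Stmt_SurgB := by
  intro k r hk0 hk1 hr0 hr1
  obtain ⟨R, hR, hA⟩ := h1 k r hk0 hk1 hr0 hr1
  obtain ⟨M, hM⟩ := h2 k hk1
  refine ⟨M, R, hR, ?_⟩
  intro m hm a ha a' ha' b hb b' hb' g g₂ ψ ψ₂ ψs ψs₂ hmod hmod₂ f φ χ hf hmd
  choose Hs hq hnorm hdiff hd1 hd2 hU using
    hA m hm a ha a' ha' b hb b' hb' g g₂ ψ ψ₂ ψs ψs₂ hmod hmod₂ f φ χ hf hmd
  have hN : ∀ j, NormQS M R (Hs j) := fun j =>
    ⟨hM _ (hq j), hM _ (h3.1 k _ hk1 (hq j)), hdiff j, hnorm j⟩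
  obtain ⟨h, s1, hs1, hn, hc1, hc1'⟩ := (h4 M R hR).2 Hs hN
  obtain ⟨h', s2, hs2, hn', hc2, hc2'⟩ := (h4 M R hR).2 (fun i => Hs (s1 i + 1)) (fun i => hN _)
  have e1 : TendstoLocallyUniformly (fun i => (Hs (s1 (s2 i)) : ℂ → ℂ)) h atTop :=
    subseq h.continuous hc1 hs2.tendsto_atTop
  have e1' : TendstoLocallyUniformly (fun i => ((Hs (s1 (s2 i))).symm : ℂ → ℂ)) h.symm atTop :=
    subseq h.symm.continuous hc1' hs2.tendsto_atTop
  have heq : h' = h := limits_eq h3 h5 h6 h7 hmod hmod₂ hmd hn hn' hq hd1 hd2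
    (s := fun i => s1 (s2 i)) (hs1.comp hs2) e1 e1' hc2
  subst heq
  exact ⟨h', Hs, fun i => s1 (s2 i), hn, hs1.comp hs2,
    fun j => ⟨hq j, hN j, hd1 j, hd2 j, hU j⟩, e1, e1', hc2, hc2'⟩

end Pool.Agent.BlMat
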