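import Pool.Agent.BlMat.DynDefs
import Pool.Agent.BlMat.F1
import Pool.Agent.BlMat.F3
import Pool.Agent.BlMat.T1
import Pool.Agent.Squeeze.OneDim

set_option autoImplicit false

/-!
# Surgery (block SC)

The limit of the stagewise surgeries conjugates the model map to a rational map which is a
mating of the new pair of Blaschke products.
-/

namespace Pool.Agent.BlMat

open Complex Metric Set Filter Topology MeasureTheory Polynomial
open scoped ComplexConjugate ContDiff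

namespace SC

/-! ### Extension to the sphere -/

theorem ext_coe (H : ℂ ≃ₜ ℂ) (z : ℂ) : ext H (z : OnePoint ℂ) = (H z : OnePoint ℂ) := rfl

theorem ext_infty (H : ℂ ≃ₜ ℂ) : ext H OnePoint.infty = OnePoint.infty := rfl

theorem ext_symm_ext (H : ℂ ≃ₜ ℂ) (x : OnePoint ℂ) : ext H.symm (ext H x) = x := by
  induction x using OnePoint.rec with
  | infty => rfl
  | coe z => rw [ext_coe, ext_coe, H.symm_apply_apply]

theorem ext_ext_symm (H : ℂ ≃ₜ ℂ) (x : OnePoint ℂ) : ext H (ext H.symm x) = x := by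
  induction x using OnePoint.rec with
  | infty => rfl
  | coe z => rw [ext_coe, ext_coe, H.apply_symm_apply]

theorem continuous_ext (H : ℂ ≃ₜ ℂ) : Continuous (ext H) := H.onePointCongr.continuous

theorem ext_hat (H : ℂ ≃ₜ ℂ) (φ : ℂ → ℂ) (z : ℂ) :
    ext H (hat φ z) = hat (fun w => H (φ w)) z := by
  by_cases hz : z = 0
  · subst hz
    rw [F3.hat_zero, F3.hat_zero, ext_infty]
  · rw [F3.hat_ne _ hz, F3.hat_ne _ hz, ext_coe]

/-- The finite part. -/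
noncomputable def toC (x : OnePoint ℂ) : ℂ := x.elim 0 id

theorem toC_coe (z : ℂ) : toC (z : OnePoint ℂ) = z := rfl

theorem coe_toC {x : OnePoint ℂ} (hx : x ≠ OnePoint.infty) : ((toC x : ℂ) : OnePoint ℂ) = x := by
  induction x using OnePoint.rec with
  | infty => exact absurd rfl hx
  | coe z => rfl

theorem continuousAt_toC {x : OnePoint ℂ} (hx : x ≠ OnePoint.infty) : ContinuousAt toC x := by
  induction x using OnePoint.rec with
  | infty => exact absurd rfl hx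
  | coe z =>
    rw [OnePoint.continuousAt_coe]
    exact continuousAt_id

/-! ### Continuous convergence -/

/-- Continuous convergence at a point. -/
def CC {X Y : Type*} [TopologicalSpace X] [TopologicalSpace Y] (F : ℕ → X → Y) (f : X → Y)
    (x : X) : Prop := Tendsto (fun q : ℕ × X => F q.1 q.2) (atTop ×ˢ 𝓝 x) (𝓝 (f x))

theorem CC.comp {X Y Z : Type*} [TopologicalSpace X] [TopologicalSpace Y] [TopologicalSpace Z]
    {F : ℕ → X → Y} {f : X → Y} {K : ℕ → Y → Z} {k : Y → Z} {x : X} (hK : CC K k (f x))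
    (hF : CC F f x) : CC (fun i y => K i (F i y)) (fun y => k (f y)) x := by
  have h1 : Tendsto (fun q : ℕ × X => (q.1, F q.1 q.2)) (atTop ×ˢ 𝓝 x) (atTop ×ˢ 𝓝 (f x)) :=
    tendsto_fst.prodMk hF
  exact Tendsto.comp hK h1

theorem CC.of_const {X Y : Type*} [TopologicalSpace X] [TopologicalSpace Y] {f : X → Y} {x : X}
    (hf : ContinuousAt f x) : CC (fun _ => f) f x :=
  Tendsto.comp (f := fun q : ℕ × X => q.2) hf tendsto_snd

theorem CC.of_unif {F : ℕ → ℂ → ℂ} {f : ℂ → ℂ} (h : TendstoLocallyUniformly F f atTop)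
    {x : ℂ} (hf : ContinuousAt f x) : CC F f x := by
  refine tendsto_comp_of_locally_uniform_limit (F := fun q : ℕ × ℂ => F q.1)
    (g := fun q : ℕ × ℂ => q.2) hf tendsto_snd ?_
  intro u hu
  obtain ⟨t, ht, h1⟩ := h u hu x
  exact ⟨t, ht, h1.prod_inl _⟩

theorem CC.unif {F : ℕ → ℂ → ℂ} {f : ℂ → ℂ} {s : Set ℂ} (h : ∀ x ∈ s, CC F f x)
    (hf : ∀ x ∈ s, ContinuousAt f x) : TendstoLocallyUniformlyOn F f atTop s := by
  rw [tendstoLocallyUniformlyOn_iff_forall_tendsto]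
  intro x hx
  have h1 : Tendsto (fun y : ℕ × ℂ => (f y.2, F y.1 y.2)) (atTop ×ˢ 𝓝 x) (𝓝 (f x, f x)) := by
    rw [nhds_prod_eq]
    exact (Tendsto.comp (f := fun q : ℕ × ℂ => q.2) (hf x hx) tendsto_snd).prodMk (h x hx)
  refine (h1.mono_left (prod_mono_right _ nhdsWithin_le_nhds)).mono_right ?_
  exact nhds_le_uniformity _

theorem CC.congr {X Y : Type*} [TopologicalSpace X] [TopologicalSpace Y]
    {F F' : ℕ → X → Y} {f : X → Y} {x : X}
    (h : CC F f x) (h' : ∀ᶠ q : ℕ × X in atTop ×ˢ 𝓝 x, F q.1 q.2 = F' q.1 q.2) : CC F' f x :=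
  Tendsto.congr' h' h

/-! ### Inverses of injective holomorphic maps -/

theorem exists_inv {U : Set ℂ} (hU : IsOpen U) {f : ℂ → ℂ} (hf : DifferentiableOn ℂ f U)
    (hi : InjOn f U) {a : ℂ} (ha : a ∈ U) :
    ∃ g : ℂ → ℂ, DifferentiableAt ℂ g (f a) ∧ g (f a) = a ∧ ∀ᶠ w in 𝓝 (f a), f (g w) = w := by
  have hd : deriv f a ≠ 0 := Pool.Agent.Squeeze.deriv_ne_zero_of_injOn hU hf hi ha
  have han : AnalyticAt ℂ f a := hf.analyticAt (hU.mem_nhds ha)
  have hs : HasStrictDerivAt f (deriv f a) a := han.hasStrictDerivAt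
  refine ⟨hs.localInverse f (deriv f a) a hd, (hs.to_localInverse hd).hasDerivAt.differentiableAt, ?_, ?_⟩
  · exact (hs.hasStrictFDerivAt_equiv hd).localInverse_apply_image
  · exact (hs.hasStrictFDerivAt_equiv hd).eventually_right_inverse

theorem diff_of_param {U : Set ℂ} (hU : IsOpen U) {Φ L K : ℂ → ℂ} (hΦ : DifferentiableOn ℂ Φ U)
    (hi : InjOn Φ U) {a : ℂ} (ha : a ∈ U) (hL : DifferentiableAt ℂ L a)
    (hK : ∀ᶠ z in 𝓝 a, K (Φ z) = L z) : DifferentiableAt ℂ K (Φ a) := by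
  obtain ⟨g, hg, hga, hgi⟩ := exists_inv hU hΦ hi ha
  have h1 : Tendsto g (𝓝 (Φ a)) (𝓝 a) := by
    have := hg.continuousAt.tendsto
    rwa [hga] at this
  have h2 : DifferentiableAt ℂ (fun w => L (g w)) (Φ a) := by
    refine DifferentiableAt.comp (Φ a) (g := L) ?_ hg
    rw [hga]; exact hL
  refine h2.congr_of_eventuallyEq ?_
  filter_upwards [hgi, h1.eventually hK] with w hw1 hw2
  rw [← hw2, hw1]

theorem image_nhds {U : Set ℂ} (hU : IsOpen U) {f : ℂ → ℂ} (hf : DifferentiableOn ℂ f U)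
    (hi : InjOn f U) {a : ℂ} (ha : a ∈ U) : f '' U ∈ 𝓝 (f a) := by
  obtain ⟨g, hg, hga, hgi⟩ := exists_inv hU hf hi ha
  have h1 : Tendsto g (𝓝 (f a)) (𝓝 a) := by
    have := hg.continuousAt.tendsto
    rwa [hga] at this
  filter_upwards [hgi, h1.eventually (hU.mem_nhds ha)] with w hw1 hw2
  exact ⟨g w, hw2, hw1⟩

/-! ### The model map -/

section ModelMap

variable {m : ℕ} {a a' : Fin m → ℂ} {k r : ℝ} {g : ℂ → ℂ} {ψ : ℂ ≃ₜ ℂ} {ψs : ℕ → ℂ ≃ₜ ℂ}

theorem Model.psi_zero (hM : Model a a' k r g ψ ψs) : ψ 0 = 0 :=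
  hM.near_zero 0 (by rw [norm_zero]; exact hM.r_pos.le)

theorem Model.psis_zero (hM : Model a a' k r g ψ ψs) (j : ℕ) : ψs j 0 = 0 :=
  hM.near_zero' j 0 (by rw [norm_zero]; exact hM.r_pos.le)

theorem Model.symm_lt (hM : Model a a' k r g ψ ψs) (z : ℂ) : ‖ψ.symm z‖ < 1 ↔ ‖z‖ < 1 := by
  rw [← hM.norm_lt (ψ.symm z), ψ.apply_symm_apply]

theorem Model.symm_eq (hM : Model a a' k r g ψ ψs) (z : ℂ) : ‖ψ.symm z‖ = 1 ↔ ‖z‖ = 1 := by
  rw [← hM.norm_eq (ψ.symm z), ψ.apply_symm_apply]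

theorem Model.symm_le (hM : Model a a' k r g ψ ψs) (z : ℂ) : ‖ψ.symm z‖ ≤ 1 ↔ ‖z‖ ≤ 1 := by
  rw [le_iff_lt_or_eq, le_iff_lt_or_eq, Model.symm_lt hM, Model.symm_eq hM]

theorem Model.symm_lt' (hM : Model a a' k r g ψ ψs) (j : ℕ) (z : ℂ) :
    ‖(ψs j).symm z‖ < 1 ↔ ‖z‖ < 1 := by
  rw [← hM.norm_lt' j ((ψs j).symm z), (ψs j).apply_symm_apply]

theorem Model.symm_zero (hM : Model a a' k r g ψ ψs) : ψ.symm 0 = 0 := by
  rw [ψ.symm_apply_eq]; exact (Model.psi_zero hM).symm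

theorem Model.symm_zero' (hM : Model a a' k r g ψ ψs) (j : ℕ) : (ψs j).symm 0 = 0 := by
  rw [(ψs j).symm_apply_eq]; exact (Model.psis_zero hM j).symm

theorem Model.symm_ne (hM : Model a a' k r g ψ ψs) {z : ℂ} (hz : z ≠ 0) : ψ.symm z ≠ 0 := by
  intro h
  rw [ψ.symm_apply_eq, Model.psi_zero hM] at h
  exact hz h

theorem Model.symm_ne' (hM : Model a a' k r g ψ ψs) (j : ℕ) {z : ℂ} (hz : z ≠ 0) :
    (ψs j).symm z ≠ 0 := by
  intro h
  rw [(ψs j).symm_apply_eq, Model.psis_zero hM] at h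
  exact hz h

/-- The inverses stabilise. -/
theorem Model.symm_stab (hM : Model a a' k r g ψ ψs) {z₀ : ℂ} (hz : ‖z₀‖ < 1) :
    ∀ᶠ q : ℕ × ℂ in atTop ×ˢ 𝓝 z₀, (ψs q.1).symm q.2 = ψ.symm q.2 := by
  have h0 : ‖ψ.symm z₀‖ < 1 := (Model.symm_lt hM z₀).2 hz
  obtain ⟨ρ, h1, h2⟩ := exists_between h0
  have h3 : ∀ᶠ z in 𝓝 z₀, ‖ψ.symm z‖ < ρ :=
    (ψ.symm.continuous.norm.continuousAt (x := z₀)).eventually (gt_mem_nhds h1)
  have h4 := hM.stab ρ h2
  filter_upwards [h4.prod_mk h3] with q hq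
  rw [(ψs q.1).symm_apply_eq, hq.1 _ hq.2.le, ψ.apply_symm_apply]

/-- The limit of the conjugacy relations. -/
theorem Model.conj (hM : Model a a' k r g ψ ψs) {z : ℂ} (hz : z ∈ ball (0 : ℂ) 1) :
    ψ (g z) = bl a' (ψ z) := by
  have hgz : ‖g z‖ < 1 := mem_ball_zero_iff.1 (hM.g_maps hz)
  have hz' : ‖z‖ < 1 := mem_ball_zero_iff.1 hz
  obtain ⟨j, h1, h2⟩ := ((hM.stab _ hgz).and
    ((tendsto_add_atTop_nat 1).eventually (hM.stab _ hz'))).exists
  rw [← h1 _ le_rfl, ← h2 _ le_rfl]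
  exact hM.conj_j j z hz

end ModelMap

/-! ### Matings -/

section Matings

variable {m : ℕ} {a b : Fin m → ℂ} {f : OnePoint ℂ → OnePoint ℂ} {φ χ : ℂ → ℂ}

theorem coe_mem_hat {φ : ℂ → ℂ} {x : ℂ} :
    (x : OnePoint ℂ) ∈ hat φ '' ball 0 1 ↔ x ∈ φ '' (ball 0 1 \ {0}) := by
  constructor
  · rintro ⟨z, hz, h⟩
    have hz0 : z ≠ 0 := by
      rintro rfl
      rw [F3.hat_zero] at h
      exact OnePoint.infty_ne_coe x h
    rw [F3.hat_ne _ hz0] at h
    exact ⟨z, ⟨hz, hz0⟩, OnePoint.coe_injective h⟩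
  · rintro ⟨z, ⟨hz, hz0⟩, h⟩
    exact ⟨z, hz, by rw [F3.hat_ne _ hz0, h]⟩

theorem hat_injOn {φ : ℂ → ℂ} (h : InjOn φ (ball 0 1 \ {0})) : InjOn (hat φ) (ball 0 1) := by
  intro z hz w hw hzw
  by_cases hz0 : z = 0
  · by_cases hw0 : w = 0
    · rw [hz0, hw0]
    · rw [hz0, F3.hat_zero, F3.hat_ne _ hw0] at hzw
      exact absurd hzw (OnePoint.infty_ne_coe _)
  · by_cases hw0 : w = 0
    · rw [hw0, F3.hat_zero, F3.hat_ne _ hz0] at hzw
      exact absurd hzw (OnePoint.coe_ne_infty _)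
    · rw [F3.hat_ne _ hz0, F3.hat_ne _ hw0] at hzw
      exact h ⟨hz, hz0⟩ ⟨hw, hw0⟩ (OnePoint.coe_injective hzw)

theorem hat_infty_mem (φ : ℂ → ℂ) : OnePoint.infty ∈ hat φ '' ball 0 1 :=
  ⟨0, mem_ball_self one_pos, F3.hat_zero φ⟩

theorem chi_not_mem (hD : MateData a b f φ χ) {z : ℂ} (hz : ‖z‖ ≤ 1) :
    (χ z : OnePoint ℂ) ∉ hat φ '' ball 0 1 := by
  rw [coe_mem_hat]
  intro h
  exact Set.disjoint_left.1 hD.disj h ⟨z, mem_closedBall_zero_iff.2 hz, rfl⟩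

theorem exists_chi (hD : MateData a b f φ χ) {x : OnePoint ℂ} (hx : x ∉ hat φ '' ball 0 1) :
    ∃ z : ℂ, ‖z‖ ≤ 1 ∧ x = (χ z : OnePoint ℂ) := by
  induction x using OnePoint.rec with
  | infty => exact absurd (hat_infty_mem φ) hx
  | coe x =>
    rw [coe_mem_hat] at hx
    have h1 : x ∈ φ '' (ball 0 1 \ {0}) ∪ χ '' closedBall 0 1 := by
      rw [hD.cover]; exact mem_univ _
    rcases h1 with h1 | ⟨z, hz, h1⟩
    · exact absurd h1 hx
    · exact ⟨z, mem_closedBall_zero_iff.1 hz, by rw [h1]⟩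

/-- The model map. -/
noncomputable def mapG (φ χ g g₂ : ℂ → ℂ) (f : OnePoint ℂ → OnePoint ℂ) (x : OnePoint ℂ) :
    OnePoint ℂ :=
  open Classical in
  if x ∈ hat φ '' ball 0 1 then hat φ (g (Function.invFunOn (hat φ) (ball 0 1) x))
  else if x ∈ (fun z => (χ z : OnePoint ℂ)) '' ball 0 1 then
    (χ (g₂ (Function.invFunOn (fun z => (χ z : OnePoint ℂ)) (ball 0 1) x)) : OnePoint ℂ)
  else f x

variable {g g₂ : ℂ → ℂ}

theorem mapG_hat (hφ : InjOn φ (ball 0 1 \ {0})) {z : ℂ} (hz : z ∈ ball (0 : ℂ) 1) :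
    mapG φ χ g g₂ f (hat φ z) = hat φ (g z) := by
  rw [mapG, if_pos ⟨z, hz, rfl⟩, (hat_injOn hφ).leftInvOn_invFunOn hz]

theorem mapG_chi (hD : MateData a b f φ χ) {z : ℂ} (hz : z ∈ ball (0 : ℂ) 1) :
    mapG φ χ g g₂ f (χ z : OnePoint ℂ) = (χ (g₂ z) : OnePoint ℂ) := by
  have hz' : ‖z‖ < 1 := mem_ball_zero_iff.1 hz
  have hinj : InjOn (fun z => (χ z : OnePoint ℂ)) (ball 0 1) := fun u hu v hv huv =>
    hD.χinj (ball_subset_closedBall hu) (ball_subset_closedBall hv)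
      (OnePoint.coe_injective huv)
  rw [mapG, if_neg (chi_not_mem hD hz'.le), if_pos ⟨z, hz, rfl⟩]
  have := hinj.leftInvOn_invFunOn hz
  rw [this]

theorem mapG_of_not {x : OnePoint ℂ} (h1 : x ∉ hat φ '' ball 0 1)
    (h2 : x ∉ (fun z => (χ z : OnePoint ℂ)) '' ball 0 1) : mapG φ χ g g₂ f x = f x := by
  rw [mapG, if_neg h1, if_neg h2]

theorem uconv_self (φ : ℂ → ℂ) : UConv (fun _ => φ) φ := by
  intro ρ hρ ε hε
  refine Eventually.of_forall fun k z hz hz' => ?_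
  rw [sub_self, norm_zero]
  exact hε.le

theorem continuousOn_hat {φ : ℂ → ℂ} (h : IsUnif φ) : ContinuousOn (hat φ) (ball 0 1) := by
  have h1 := unifConv unifBound (fun _ => φ) φ (fun _ => h) h (uconv_self φ)
  intro z hz
  refine ContinuousAt.continuousWithinAt ?_
  refine tendsto_of_seq_tendsto fun u hu => ?_
  exact h1.1 z u (mem_ball_zero_iff.1 hz) hu

/-- Outside a compact subset of the two basins the model map is `f`. -/
theorem mapG_eq (hD : MateData a b f φ χ)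
    (hg : ∃ ρ : ℝ, ρ < 1 ∧ ∀ z : ℂ, ρ < ‖z‖ → ‖z‖ < 1 → g z = bl a z)
    (hg₂ : ∃ ρ : ℝ, ρ < 1 ∧ ∀ z : ℂ, ρ < ‖z‖ → ‖z‖ < 1 → g₂ z = bl b z) :
    ∃ K : Set (OnePoint ℂ), IsClosed K ∧
      K ⊆ hat φ '' ball 0 1 ∪ (fun z => (χ z : OnePoint ℂ)) '' ball 0 1 ∧
      ∀ x ∉ K, mapG φ χ g g₂ f x = f x := by
  obtain ⟨ρ, h1, h2⟩ := hg
  obtain ⟨ρ₂, h3, h4⟩ := hg₂
  have hs : closedBall (0 : ℂ) ρ ⊆ ball 0 1 := closedBall_subset_ball h1
  have hs₂ : closedBall (0 : ℂ) ρ₂ ⊆ ball 0 1 := closedBall_subset_ball h3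
  refine ⟨hat φ '' closedBall 0 ρ ∪ (fun z => (χ z : OnePoint ℂ)) '' closedBall 0 ρ₂, ?_, ?_, ?_⟩
  · refine IsClosed.union ?_ ?_
    · exact ((isCompact_closedBall 0 ρ).image_of_continuousOn
        ((continuousOn_hat hD.unif).mono hs)).isClosed
    · refine ((isCompact_closedBall 0 ρ₂).image_of_continuousOn ?_).isClosed
      exact OnePoint.continuous_coe.comp_continuousOn
        (hD.χcont.mono (hs₂.trans ball_subset_closedBall))
  · exact union_subset_union (image_mono hs) (image_mono hs₂)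
  · intro x hx
    by_cases hx1 : x ∈ hat φ '' ball 0 1
    · obtain ⟨z, hz, rfl⟩ := hx1
      rw [mapG_hat hD.unif.inj hz, hD.semiφ z hz]
      have hρz : ρ < ‖z‖ := by
        by_contra hcon
        exact hx (Or.inl ⟨z, mem_closedBall_zero_iff.2 (not_lt.1 hcon), rfl⟩)
      rw [h2 z hρz (mem_ball_zero_iff.1 hz)]
    · by_cases hx2 : x ∈ (fun z => (χ z : OnePoint ℂ)) '' ball 0 1
      · obtain ⟨z, hz, rfl⟩ := hx2
        simp only
        rw [mapG_chi hD hz, hD.semiχ z hz]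
        have hρz : ρ₂ < ‖z‖ := by
          by_contra hcon
          exact hx (Or.inr ⟨z, mem_closedBall_zero_iff.2 (not_lt.1 hcon), rfl⟩)
        rw [h4 z hρz (mem_ball_zero_iff.1 hz)]
      · exact mapG_of_not hx1 hx2

theorem continuous_mapG (hD : MateData a b f φ χ) (hf : Continuous f)
    (hgc : ContinuousOn g (ball 0 1)) (hgm : MapsTo g (ball 0 1) (ball 0 1))
    (hgc₂ : ContinuousOn g₂ (ball 0 1)) (hgm₂ : MapsTo g₂ (ball 0 1) (ball 0 1))
    (hg : ∃ ρ : ℝ, ρ < 1 ∧ ∀ z : ℂ, ρ < ‖z‖ → ‖z‖ < 1 → g z = bl a z)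
    (hg₂ : ∃ ρ : ℝ, ρ < 1 ∧ ∀ z : ℂ, ρ < ‖z‖ → ‖z‖ < 1 → g₂ z = bl b z) :
    Continuous (mapG φ χ g g₂ f) := by
  have hmet : TopologicalSpace.MetrizableSpace (OnePoint ℂ) := T1.metrizable_sphere
  rw [continuous_iff_continuousAt]
  intro x
  by_cases hx1 : x ∈ hat φ '' ball 0 1
  · obtain ⟨z, hz, rfl⟩ := hx1
    have h1 := unifConv unifBound (fun _ => φ) φ (fun _ => hD.unif) hD.unif (uconv_self φ)
    refine tendsto_of_seq_tendsto fun u hu => ?_
    have h2 := h1.2.2 (hat φ z) u ⟨z, hz, rfl⟩ hu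
    have h3 : ∀ k, ∃ w : ℂ, ‖w‖ < 1 ∧ (u k ∈ hat φ '' ball 0 1 → hat φ w = u k) := by
      intro k
      by_cases hk : u k ∈ hat φ '' ball 0 1
      · obtain ⟨w, hw, hwu⟩ := hk
        exact ⟨w, mem_ball_zero_iff.1 hw, fun _ => hwu⟩
      · exact ⟨0, by rw [norm_zero]; exact one_pos, fun h => absurd h hk⟩
    choose w hw1 hw2 using h3
    have hz' : ‖z‖ < 1 := mem_ball_zero_iff.1 hz
    have h4 : Tendsto w atTop (𝓝 z) := by
      refine h1.2.1 z w hz' hw1 (hu.congr' ?_)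
      filter_upwards [h2] with k hk
      exact (hw2 k hk).symm
    have h5 : Tendsto (fun k => g (w k)) atTop (𝓝 (g z)) :=
      ((hgc z hz).continuousAt (isOpen_ball.mem_nhds hz)).tendsto.comp h4
    have h6 := h1.1 (g z) (fun k => g (w k)) (mem_ball_zero_iff.1 (hgm hz)) h5
    rw [mapG_hat hD.unif.inj hz]
    refine h6.congr' ?_
    filter_upwards [h2] with k hk
    rw [Function.comp_apply, ← hw2 k hk, mapG_hat hD.unif.inj (mem_ball_zero_iff.2 (hw1 k))]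
  · by_cases hx2 : x ∈ (fun z => (χ z : OnePoint ℂ)) '' ball 0 1
    · obtain ⟨z, hz, rfl⟩ := hx2
      simp only
      rw [OnePoint.continuousAt_coe]
      have hinj : InjOn χ (ball 0 1) := hD.χinj.mono ball_subset_closedBall
      obtain ⟨i, hi, hiz, hi2⟩ := exists_inv isOpen_ball hD.χdiff hinj hz
      have h1 : Tendsto i (𝓝 (χ z)) (𝓝 z) := by
        have := hi.continuousAt.tendsto
        rwa [hiz] at this
      have h2 : Tendsto (fun w => (χ (g₂ (i w)) : OnePoint ℂ)) (𝓝 (χ z))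
          (𝓝 (χ (g₂ z) : OnePoint ℂ)) := by
        have e1 : Tendsto g₂ (𝓝 z) (𝓝 (g₂ z)) :=
          (hgc₂ z hz).continuousAt (isOpen_ball.mem_nhds hz)
        have e2 : Tendsto χ (𝓝 (g₂ z)) (𝓝 (χ (g₂ z))) :=
          (hD.χdiff.continuousOn _ (hgm₂ hz)).continuousAt (isOpen_ball.mem_nhds (hgm₂ hz))
        exact (OnePoint.continuous_coe.tendsto _).comp (e2.comp (e1.comp h1))
      rw [ContinuousAt, Function.comp_apply, mapG_chi hD hz]
      refine h2.congr' ?_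
      filter_upwards [hi2, h1.eventually (isOpen_ball.mem_nhds hz)] with w hw1 hw2
      rw [Function.comp_apply, ← mapG_chi hD hw2, hw1]
    · obtain ⟨K, hK1, hK2, hK3⟩ := mapG_eq hD hg hg₂
      have hxK : x ∉ K := fun h => (hK2 h).elim hx1 hx2
      refine hf.continuousAt.congr_of_eventuallyEq ?_
      filter_upwards [hK1.isOpen_compl.mem_nhds hxK] with y hy
      exact hK3 y hy

end Matings

/-! ### The limit maps -/

section Limit

variable {m : ℕ} {a a' b b' : Fin m → ℂ} {k r : ℝ} {g g₂ : ℂ → ℂ} {ψ ψ₂ : ℂ ≃ₜ ℂ}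
  {ψs ψs₂ : ℕ → ℂ ≃ₜ ℂ} {f : OnePoint ℂ → OnePoint ℂ} {φ χ : ℂ → ℂ}

theorem diff_limit (hM : Model a a' k r g ψ ψs) {S : Set ℂ} (hS : IsOpen S)
    (hS1 : S ⊆ ball 0 1) (hS2 : ∀ z ∈ S, ψ.symm z ∈ S) (hφ : ContinuousOn φ S)
    {h : ℂ ≃ₜ ℂ} {Hs : ℕ → ℂ ≃ₜ ℂ} {s : ℕ → ℕ} (hs : StrictMono s)
    (hlim : TendstoLocallyUniformly (fun i => (Hs (s i) : ℂ → ℂ)) h atTop)
    (hd : ∀ j, DifferentiableOn ℂ (fun z => Hs j (φ ((ψs j).symm z))) S) :
    DifferentiableOn ℂ (fun z => h (φ (ψ.symm z))) S := by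
  have hc : ∀ x ∈ S, ContinuousAt (fun z => φ (ψ.symm z)) x := by
    intro x hx
    have h1 : ContinuousAt φ (ψ.symm x) := (hφ _ (hS2 x hx)).continuousAt (hS.mem_nhds (hS2 x hx))
    exact ContinuousAt.comp (f := ψ.symm) (g := φ) h1 ψ.symm.continuous.continuousAt
  have hc' : ∀ x ∈ S, ContinuousAt (fun z => h (φ (ψ.symm z))) x := by
    intro x hx
    exact ContinuousAt.comp (f := fun z => φ (ψ.symm z)) (g := h) h.continuous.continuousAt (hc x hx)
  have h1 : TendstoLocallyUniformlyOn (fun i z => Hs (s i) (φ ((ψs (s i)).symm z)))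
      (fun z => h (φ (ψ.symm z))) atTop S := by
    refine CC.unif (fun x hx => ?_) hc'
    have h2 : CC (fun i z => Hs (s i) (φ (ψ.symm z))) (fun z => h (φ (ψ.symm z))) x :=
      CC.comp (F := fun _ z => φ (ψ.symm z)) (K := fun i => (Hs (s i) : ℂ → ℂ)) (k := h)
        (f := fun z => φ (ψ.symm z))
        (CC.of_unif hlim h.continuous.continuousAt) (CC.of_const (hc x hx))
    refine h2.congr ?_
    have h3 : Tendsto (fun q : ℕ × ℂ => (s q.1, q.2)) (atTop ×ˢ 𝓝 x) (atTop ×ˢ 𝓝 x) :=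
      (hs.tendsto_atTop.comp tendsto_fst).prodMk tendsto_snd
    have h4 := h3.eventually (Model.symm_stab hM (mem_ball_zero_iff.1 (hS1 hx)))
    filter_upwards [h4] with q hq
    rw [hq]
  exact h1.differentiableOn (Eventually.of_forall fun i => hd (s i)) hS

/-- The new map. -/
noncomputable def newF (h : ℂ ≃ₜ ℂ) (φ χ g g₂ : ℂ → ℂ) (f : OnePoint ℂ → OnePoint ℂ)
    (x : OnePoint ℂ) : OnePoint ℂ := ext h (mapG φ χ g g₂ f (ext h.symm x))

theorem continuous_newF (hM : Model a a' k r g ψ ψs) (hM₂ : Model b b' k r g₂ ψ₂ ψs₂)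
    (hD : MateData a b f φ χ) (hf : Continuous f) (h : ℂ ≃ₜ ℂ) :
    Continuous (newF h φ χ g g₂ f) :=
  (continuous_ext h).comp ((continuous_mapG hD hf hM.g_cont hM.g_maps hM₂.g_cont hM₂.g_maps
    hM.g_eq hM₂.g_eq).comp (continuous_ext h.symm))

theorem newF_ext (h : ℂ ≃ₜ ℂ) (φ χ g g₂ : ℂ → ℂ) (f : OnePoint ℂ → OnePoint ℂ)
    (x : OnePoint ℂ) : newF h φ χ g g₂ f (ext h x) = ext h (mapG φ χ g g₂ f x) := by
  rw [newF, ext_symm_ext]

theorem semi_phi (hM : Model a a' k r g ψ ψs) (hφ : InjOn φ (ball 0 1 \ {0})) (h : ℂ ≃ₜ ℂ)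
    {z : ℂ} (hz : z ∈ ball (0 : ℂ) 1) :
    newF h φ χ g g₂ f (hat (fun z => h (φ (ψ.symm z))) z)
      = hat (fun z => h (φ (ψ.symm z))) (bl a' z) := by
  have key : ∀ w : ℂ, hat (fun z => h (φ (ψ.symm z))) w = ext h (hat φ (ψ.symm w)) := by
    intro w
    by_cases hw : w = 0
    · rw [hw, Model.symm_zero hM, F3.hat_zero, F3.hat_zero, ext_infty]
    · rw [F3.hat_ne _ hw, F3.hat_ne _ (Model.symm_ne hM hw), ext_coe]
  have hz1 : ψ.symm z ∈ ball (0 : ℂ) 1 :=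
    mem_ball_zero_iff.2 ((Model.symm_lt hM z).2 (mem_ball_zero_iff.1 hz))
  rw [key, key, newF_ext, mapG_hat hφ hz1]
  congr 2
  rw [eq_comm, ψ.symm_apply_eq, Model.conj hM hz1, ψ.apply_symm_apply]

theorem semi_chi (hM₂ : Model b b' k r g₂ ψ₂ ψs₂) (hD : MateData a b f φ χ) (h : ℂ ≃ₜ ℂ)
    {z : ℂ} (hz : z ∈ ball (0 : ℂ) 1) :
    newF h φ χ g g₂ f (h (χ (ψ₂.symm z)) : OnePoint ℂ)
      = (h (χ (ψ₂.symm (bl b' z))) : OnePoint ℂ) := by
  have hz1 : ψ₂.symm z ∈ ball (0 : ℂ) 1 :=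
    mem_ball_zero_iff.2 ((Model.symm_lt hM₂ z).2 (mem_ball_zero_iff.1 hz))
  rw [← ext_coe, newF_ext, mapG_chi hD hz1, ext_coe]
  congr 3
  rw [eq_comm, ψ₂.symm_apply_eq, Model.conj hM₂ hz1, ψ₂.apply_symm_apply]

theorem isUnif_new (hM : Model a a' k r g ψ ψs) (hφ : IsUnif φ) (h : ℂ ≃ₜ ℂ)
    (hd : DifferentiableOn ℂ (fun z => h (φ (ψ.symm z))) (ball 0 1 \ {0}))
    (hn : Tendsto (fun w => h w - w) (cocompact ℂ) (𝓝 0)) :
    IsUnif (fun z => h (φ (ψ.symm z))) := by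
  refine ⟨hd, ?_, ?_⟩
  · intro z hz w hw hzw
    have h1 := h.injective hzw
    have h2 : ∀ u ∈ ball (0 : ℂ) 1 \ {0}, ψ.symm u ∈ ball (0 : ℂ) 1 \ {0} := fun u hu =>
      ⟨mem_ball_zero_iff.2 ((Model.symm_lt hM u).2 (mem_ball_zero_iff.1 hu.1)),
        Model.symm_ne hM hu.2⟩
    exact ψ.symm.injective (hφ.inj (h2 z hz) (h2 w hw) h1)
  · have h1 : Tendsto φ (𝓝[≠] 0) (cocompact ℂ) := by
      have e1 : Tendsto (fun z : ℂ => φ z - 1 / z) (𝓝[≠] 0) (𝓝 0) := hφ.norm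
      have e2 : Tendsto (fun z : ℂ => 1 / z) (𝓝[≠] 0) (cocompact ℂ) := by
        rw [← cobounded_eq_cocompact]
        simpa using tendsto_inv₀_nhdsNE_zero (α := ℂ)
      rw [← cobounded_eq_cocompact, ← tendsto_norm_atTop_iff_cobounded]
      rw [← cobounded_eq_cocompact, ← tendsto_norm_atTop_iff_cobounded] at e2
      have e3 : Tendsto (fun z : ℂ => ‖φ z - 1 / z‖) (𝓝[≠] 0) (𝓝 0) := by
        simpa using e1.norm
      have e4 : Tendsto (fun z : ℂ => ‖1 / z‖ + (- ‖φ z - 1 / z‖)) (𝓝[≠] 0) atTop :=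
        e2.atTop_add e3.neg
      refine tendsto_atTop_mono (fun z => ?_) e4
      have e5 : ‖1 / z‖ ≤ ‖φ z‖ + ‖φ z - 1 / z‖ := by
        calc ‖1 / z‖ = ‖φ z - (φ z - 1 / z)‖ := by rw [sub_sub_cancel]
          _ ≤ _ := norm_sub_le _ _
      linarith
    have h2 : Tendsto (fun z => (h (φ z) - φ z) + (φ z - 1 / z)) (𝓝[≠] 0) (𝓝 0) := by
      simpa using (hn.comp h1).add hφ.norm
    refine h2.congr' ?_
    have h3 : ∀ᶠ z in 𝓝[≠] (0 : ℂ), ‖z‖ ≤ r := by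
      refine Eventually.filter_mono nhdsWithin_le_nhds ?_
      filter_upwards [closedBall_mem_nhds (0 : ℂ) hM.r_pos] with z hz
      exact mem_closedBall_zero_iff.1 hz
    filter_upwards [h3] with z hz
    have h4 : ψ.symm z = z := by
      rw [ψ.symm_apply_eq, hM.near_zero z hz]
    rw [h4]
    ring

theorem image_symm (hM : Model a a' k r g ψ ψs) :
    ψ.symm '' (ball (0 : ℂ) 1 \ {0}) = ball 0 1 \ {0} ∧
    ψ.symm '' sphere (0 : ℂ) 1 = sphere 0 1 ∧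
    ψ.symm '' closedBall (0 : ℂ) 1 = closedBall 0 1 := by
  have hlt : ∀ z : ℂ, ‖ψ.symm z‖ < 1 ↔ ‖z‖ < 1 := Model.symm_lt hM
  have h0 : ∀ z : ℂ, ψ z = 0 → z = 0 := by
    intro z hz
    have := congrArg ψ.symm hz
    rwa [ψ.symm_apply_apply, Model.symm_zero hM] at this
  refine ⟨?_, ?_, ?_⟩
  · ext z
    constructor
    · rintro ⟨w, ⟨hw, hw0⟩, rfl⟩
      exact ⟨mem_ball_zero_iff.2 ((hlt w).2 (mem_ball_zero_iff.1 hw)), Model.symm_ne hM hw0⟩
    · rintro ⟨hz, hz0⟩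
      exact ⟨ψ z, ⟨mem_ball_zero_iff.2 ((hM.norm_lt z).2 (mem_ball_zero_iff.1 hz)),
        fun h => hz0 (h0 z h)⟩, ψ.symm_apply_apply z⟩
  · ext z
    constructor
    · rintro ⟨w, hw, rfl⟩
      exact mem_sphere_zero_iff_norm.2 ((Model.symm_eq hM w).2 (mem_sphere_zero_iff_norm.1 hw))
    · intro hz
      exact ⟨ψ z, mem_sphere_zero_iff_norm.2 ((hM.norm_eq z).2 (mem_sphere_zero_iff_norm.1 hz)),
        ψ.symm_apply_apply z⟩
  · ext z
    constructor
    · rintro ⟨w, hw, rfl⟩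
      exact mem_closedBall_zero_iff.2 ((Model.symm_le hM w).2 (mem_closedBall_zero_iff.1 hw))
    · intro hz
      refine ⟨ψ z, mem_closedBall_zero_iff.2 ?_, ψ.symm_apply_apply z⟩
      rw [← Model.symm_le hM, ψ.symm_apply_apply]
      exact mem_closedBall_zero_iff.1 hz

theorem image_comp3 (h ψ : ℂ ≃ₜ ℂ) (φ : ℂ → ℂ) (S : Set ℂ) :
    (fun z => h (φ (ψ.symm z))) '' S = h '' (φ '' (ψ.symm '' S)) := by
  rw [image_image, image_image]

theorem mateData_new (h5 : Stmt_QSGroup) (hM : Model a a' k r g ψ ψs)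
    (hM₂ : Model b b' k r g₂ ψ₂ ψs₂)
    (hD : MateData a b f φ χ) {h : ℂ ≃ₜ ℂ} {M : ℝ} (hh : WQS M h)
    (hd : DifferentiableOn ℂ (fun z => h (φ (ψ.symm z))) (ball 0 1 \ {0}))
    (hd₂ : DifferentiableOn ℂ (fun z => h (χ (ψ₂.symm z))) (ball 0 1))
    (hn : Tendsto (fun w => h w - w) (cocompact ℂ) (𝓝 0)) :
    MateData a' b' (newF h φ χ g g₂ f) (fun z => h (φ (ψ.symm z)))
      (fun z => h (χ (ψ₂.symm z))) := by
  obtain ⟨i1, i2, i3⟩ := image_symm hM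
  obtain ⟨j1, j2, j3⟩ := image_symm hM₂
  refine ⟨isUnif_new hM hD.unif h hd hn, ?_, ?_, hd₂, ?_, ?_, ?_, ?_, ?_, ?_, ?_, ?_, ?_⟩
  · refine h.continuous.comp_continuousOn (hD.φcont.comp ψ.symm.continuous.continuousOn ?_)
    rintro z ⟨hz, hz0⟩
    exact ⟨mem_closedBall_zero_iff.2 ((Model.symm_le hM z).2 (mem_closedBall_zero_iff.1 hz)),
      Model.symm_ne hM hz0⟩
  · intro z hz w hw hzw
    have h2 : ∀ u ∈ closedBall (0 : ℂ) 1 \ {0}, ψ.symm u ∈ closedBall (0 : ℂ) 1 \ {0} :=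
      fun u hu =>
      ⟨mem_closedBall_zero_iff.2 ((Model.symm_le hM u).2 (mem_closedBall_zero_iff.1 hu.1)),
        Model.symm_ne hM hu.2⟩
    exact ψ.symm.injective (hD.φinj (h2 z hz) (h2 w hw) (h.injective hzw))
  · refine h.continuous.comp_continuousOn (hD.χcont.comp ψ₂.symm.continuous.continuousOn ?_)
    intro z hz
    exact mem_closedBall_zero_iff.2 ((Model.symm_le hM₂ z).2 (mem_closedBall_zero_iff.1 hz))
  · intro z hz w hw hzw
    have h2 : ∀ u ∈ closedBall (0 : ℂ) 1, ψ₂.symm u ∈ closedBall (0 : ℂ) 1 := fun u hu =>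
      mem_closedBall_zero_iff.2 ((Model.symm_le hM₂ u).2 (mem_closedBall_zero_iff.1 hu))
    exact ψ₂.symm.injective (hD.χinj (h2 z hz) (h2 w hw) (h.injective hzw))
  · rw [image_comp3, image_comp3, i2, j2, hD.bdry]
  · rw [image_comp3, image_comp3, i1, j3]
    exact (disjoint_image_iff h.injective).2 hD.disj
  · rw [image_comp3, image_comp3, i1, j3, ← image_union, hD.cover, image_univ,
      h.surjective.range_eq]
  · have e1 : ψ.symm 1 = 1 := by rw [ψ.symm_apply_eq, hM.one]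
    have e2 : ψ₂.symm 1 = 1 := by rw [ψ₂.symm_apply_eq, hM₂.one]
    simp only [e1, e2, hD.one]
  · intro z hz
    exact semi_phi hM hD.unif.inj h hz
  · intro z hz
    exact semi_chi hM₂ hD h hz
  · obtain ⟨H₀, M₀, h1, h2⟩ := hD.qcircle
    obtain ⟨M', h3⟩ := h5.2 (max M₀ M)
    refine ⟨H₀.trans h, M', h3 H₀ h ?_ ?_, ?_⟩
    · intro x y z hxyz
      exact (h1 x y z hxyz).trans (mul_le_mul_of_nonneg_right (le_max_left _ _) (norm_nonneg _))
    · intro x y z hxyz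
      exact (hh x y z hxyz).trans (mul_le_mul_of_nonneg_right (le_max_right _ _) (norm_nonneg _))
    · rw [image_comp3, i2, ← h2, image_image]
      rfl

/-- A rational map is holomorphic at points where it is finite. -/
theorem rat_finite {n : ℕ} (hn : 1 ≤ n) {f : OnePoint ℂ → OnePoint ℂ} (hf : IsRat n f) {y : ℂ}
    (hy : f (y : OnePoint ℂ) ≠ OnePoint.infty) :
    ∃ F : ℂ → ℂ, DifferentiableAt ℂ F y ∧ ∀ᶠ w : ℂ in 𝓝 y,
      f (w : OnePoint ℂ) = (F w : OnePoint ℂ) := by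
  obtain ⟨hc, p, q, hpq, hdeg, hf⟩ := hf
  have hq0 : q ≠ 0 := by
    rintro rfl
    have h1 : IsUnit p := isCoprime_zero_right.1 hpq
    have h2 := natDegree_eq_zero_of_isUnit h1
    rw [h2, natDegree_zero, max_self] at hdeg
    omega
  have hqy : q.eval y ≠ 0 := by
    intro hqy
    have hpy : p.eval y ≠ 0 := by
      intro hpy
      obtain ⟨u, v, huv⟩ := hpq
      have := congrArg (Polynomial.eval y) huv
      rw [eval_add, eval_mul, eval_mul, hpy, hqy, mul_zero, mul_zero, add_zero, eval_one] at this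
      exact zero_ne_one this
    obtain ⟨c, hcy⟩ := OnePoint.ne_infty_iff_exists.1 hy
    have h1 : ∀ᶠ z in 𝓝[≠] y, q.eval z ≠ 0 := by
      have h2 : {z | q.IsRoot z}.Finite := Polynomial.finite_setOfPred_isRoot hq0
      have h3 : ({z | q.IsRoot z} \ {y})ᶜ ∈ 𝓝 y :=
        (h2.subset sdiff_subset).isClosed.isOpen_compl.mem_nhds (fun h => h.2 rfl)
      filter_upwards [nhdsWithin_le_nhds h3, self_mem_nhdsWithin] with z hz1 hz2 hz3
      exact hz1 ⟨hz3, hz2⟩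
    have h4 : Tendsto (fun z : ℂ => ((p.eval z / q.eval z : ℂ) : OnePoint ℂ)) (𝓝[≠] y)
        (𝓝 (c : OnePoint ℂ)) := by
      have h5 : Tendsto (fun z : ℂ => f (z : OnePoint ℂ)) (𝓝[≠] y) (𝓝 (c : OnePoint ℂ)) := by
        rw [hcy]
        exact ((hc.comp OnePoint.continuous_coe).tendsto y).mono_left nhdsWithin_le_nhds
      refine h5.congr' ?_
      filter_upwards [h1] with z hz
      exact hf z hz
    have h6 : Tendsto (fun z : ℂ => p.eval z / q.eval z) (𝓝[≠] y) (𝓝 c) :=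
      (OnePoint.isOpenEmbedding_coe.isInducing.tendsto_nhds_iff).2 h4
    have h7 : Tendsto (fun z : ℂ => p.eval z / q.eval z * q.eval z) (𝓝[≠] y)
        (𝓝 (c * q.eval y)) :=
      h6.mul ((q.continuous.tendsto y).mono_left nhdsWithin_le_nhds)
    have h8 : Tendsto (fun z : ℂ => p.eval z) (𝓝[≠] y) (𝓝 (c * q.eval y)) := by
      refine h7.congr' ?_
      filter_upwards [h1] with z hz
      field_simp
    have h9 : Tendsto (fun z : ℂ => p.eval z) (𝓝[≠] y) (𝓝 (p.eval y)) :=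
      (p.continuous.tendsto y).mono_left nhdsWithin_le_nhds
    have h10 := tendsto_nhds_unique h8 h9
    rw [hqy, mul_zero] at h10
    exact hpy h10.symm
  refine ⟨fun z => p.eval z / q.eval z, ?_, ?_⟩
  · exact p.differentiable.differentiableAt.div q.differentiable.differentiableAt hqy
  · filter_upwards [(q.continuous.continuousAt).eventually_ne hqy] with z hz
    exact hf z hz

/-- The stage maps are holomorphic where finite. -/
theorem diff_stage (hm : 1 ≤ m) (hBa : BlFacts a') (hBb : BlFacts b) (hBb' : BlFacts b')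
    (hM : Model a a' k r g ψ ψs) (hM₂ : Model b b' k r g₂ ψ₂ ψs₂)
    (hf : IsRat (m + 1) f) (hD : MateData a b f φ χ)
    (hfχ : ∀ z : ℂ, ‖z‖ ≤ 1 → f (χ z : OnePoint ℂ) = (χ (bl b z) : OnePoint ℂ))
    {Hs : ℕ → ℂ ≃ₜ ℂ}
    (hd : ∀ j, DifferentiableOn ℂ (fun z => Hs j (φ ((ψs j).symm z))) (ball 0 1 \ {0}))
    (hd₂ : ∀ j, DifferentiableOn ℂ (fun z => Hs j (χ ((ψs₂ j).symm z))) (ball 0 1))
    (hU : ∀ j, ∃ U : Set ℂ, IsOpen U ∧ φ '' sphere 0 1 ⊆ U ∧ DifferentiableOn ℂ (Hs j) U)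
    (j : ℕ) {w : ℂ}
    (hw : mapG φ χ g g₂ f ((Hs (j + 1)).symm w : OnePoint ℂ) ≠ OnePoint.infty) :
    DifferentiableAt ℂ
      (fun w : ℂ => Hs j (toC (mapG φ χ g g₂ f ((Hs (j + 1)).symm w : OnePoint ℂ)))) w := by
  set y : ℂ := (Hs (j + 1)).symm w with hy
  have hwy : w = Hs (j + 1) y := by rw [hy, (Hs (j + 1)).apply_symm_apply]
  have hPo : IsOpen (ball (0 : ℂ) 1 \ {0}) := isOpen_ball.sdiff isClosed_singleton
  have hcov : y ∈ φ '' (ball 0 1 \ {0}) ∪ χ '' closedBall 0 1 := by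
    rw [hD.cover]; exact mem_univ _
  rcases hcov with ⟨z, ⟨hz, hz0⟩, hzy⟩ | ⟨z, hz, hzy⟩
  · -- the outer basin
    set z' : ℂ := ψs (j + 1) z with hz'
    have hzz : (ψs (j + 1)).symm z' = z := by rw [hz', (ψs (j + 1)).symm_apply_apply]
    have hz'1 : ‖z'‖ < 1 := (hM.norm_lt' (j + 1) z).2 (mem_ball_zero_iff.1 hz)
    have hz'0 : z' ≠ 0 := by
      intro h0
      rw [h0, Model.symm_zero' hM] at hzz
      exact hz0 hzz.symm
    have hGy : mapG φ χ g g₂ f (y : OnePoint ℂ) = hat φ (g z) := by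
      rw [← hzy, ← F3.hat_ne φ hz0, mapG_hat hD.unif.inj hz]
    have hgz0 : g z ≠ 0 := by
      intro h0
      rw [hGy, h0, F3.hat_zero] at hw
      exact hw rfl
    have hbl0 : bl a' z' ≠ 0 := by
      intro h0
      have h1 := hM.conj_j j z hz
      rw [← hz', h0] at h1
      have h2 := congrArg (ψs j).symm h1
      rw [(ψs j).symm_apply_apply, Model.symm_zero' hM] at h2
      exact hgz0 h2
    have hbld : DifferentiableAt ℂ (bl a') z' := by
      obtain ⟨R, hR, hdR⟩ := hBa.diff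
      exact hdR.differentiableAt (isOpen_ball.mem_nhds (mem_ball_zero_iff.2 (hz'1.trans hR)))
    have hblm : bl a' z' ∈ ball (0 : ℂ) 1 \ {0} :=
      ⟨mem_ball_zero_iff.2 (hBa.ball z' hz'1), hbl0⟩
    have h3 : DifferentiableAt ℂ (fun ζ => Hs j (φ ((ψs j).symm (bl a' ζ)))) z' :=
      DifferentiableAt.comp z' (g := fun z => Hs j (φ ((ψs j).symm z)))
        ((hd j).differentiableAt (hPo.mem_nhds hblm)) hbld
    have hinj : InjOn (fun z => Hs (j + 1) (φ ((ψs (j + 1)).symm z))) (ball 0 1 \ {0}) := by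
      intro u hu v hv huv
      have h2 : ∀ t ∈ ball (0 : ℂ) 1 \ {0}, (ψs (j + 1)).symm t ∈ ball (0 : ℂ) 1 \ {0} :=
        fun t ht => ⟨mem_ball_zero_iff.2 ((Model.symm_lt' hM (j + 1) t).2
          (mem_ball_zero_iff.1 ht.1)), Model.symm_ne' hM (j + 1) ht.2⟩
      exact (ψs (j + 1)).symm.injective
        (hD.unif.inj (h2 u hu) (h2 v hv) ((Hs (j + 1)).injective huv))
    have hΦz : Hs (j + 1) (φ ((ψs (j + 1)).symm z')) = w := by rw [hzz, hzy, hwy]
    have h4 := diff_of_param (K := fun w : ℂ =>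
      Hs j (toC (mapG φ χ g g₂ f ((Hs (j + 1)).symm w : OnePoint ℂ)))) hPo (hd (j + 1)) hinj
      (a := z') ⟨mem_ball_zero_iff.2 hz'1, hz'0⟩ h3 ?_
    · simp only [hΦz] at h4
      exact h4
    · have h5 : ∀ᶠ ζ in 𝓝 z', bl a' ζ ≠ 0 := hbld.continuousAt.eventually_ne hbl0
      filter_upwards [h5, hPo.mem_nhds (⟨mem_ball_zero_iff.2 hz'1, hz'0⟩ :
        z' ∈ ball (0 : ℂ) 1 \ {0})] with ζ hζ1 hζ2
      simp only [(Hs (j + 1)).symm_apply_apply]
      set u : ℂ := (ψs (j + 1)).symm ζ with hu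
      have hu0 : u ≠ 0 := Model.symm_ne' hM (j + 1) hζ2.2
      have hu1 : u ∈ ball (0 : ℂ) 1 := mem_ball_zero_iff.2
        ((Model.symm_lt' hM (j + 1) ζ).2 (mem_ball_zero_iff.1 hζ2.1))
      have hψu : ψs (j + 1) u = ζ := by rw [hu, (ψs (j + 1)).apply_symm_apply]
      have hgu : g u = (ψs j).symm (bl a' ζ) := by
        rw [eq_comm, (ψs j).symm_apply_eq, hM.conj_j j u hu1, hψu]
      have hgu0 : g u ≠ 0 := by
        rw [hgu]; exact Model.symm_ne' hM j hζ1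
      rw [← F3.hat_ne φ hu0, mapG_hat hD.unif.inj hu1, F3.hat_ne φ hgu0, toC_coe, hgu]
  · rcases (mem_closedBall_zero_iff.1 hz).lt_or_eq with hz1 | hz1
    · -- the inner basin
      have hzb : z ∈ ball (0 : ℂ) 1 := mem_ball_zero_iff.2 hz1
      set z' : ℂ := ψs₂ (j + 1) z with hz'
      have hzz : (ψs₂ (j + 1)).symm z' = z := by rw [hz', (ψs₂ (j + 1)).symm_apply_apply]
      have hz'1 : ‖z'‖ < 1 := (hM₂.norm_lt' (j + 1) z).2 hz1
      have hbld : DifferentiableAt ℂ (bl b') z' := by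
        obtain ⟨R, hR, hdR⟩ := hBb'.diff
        exact hdR.differentiableAt (isOpen_ball.mem_nhds (mem_ball_zero_iff.2 (hz'1.trans hR)))
      have hblm : bl b' z' ∈ ball (0 : ℂ) 1 := mem_ball_zero_iff.2 (hBb'.ball z' hz'1)
      have h3 : DifferentiableAt ℂ (fun ζ => Hs j (χ ((ψs₂ j).symm (bl b' ζ)))) z' :=
        DifferentiableAt.comp z' (g := fun z => Hs j (χ ((ψs₂ j).symm z)))
          ((hd₂ j).differentiableAt (isOpen_ball.mem_nhds hblm)) hbld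
      have hinj : InjOn (fun z => Hs (j + 1) (χ ((ψs₂ (j + 1)).symm z))) (ball 0 1) := by
        intro u hu v hv huv
        have h2 : ∀ t ∈ ball (0 : ℂ) 1, (ψs₂ (j + 1)).symm t ∈ closedBall (0 : ℂ) 1 :=
          fun t ht => mem_closedBall_zero_iff.2 ((Model.symm_lt' hM₂ (j + 1) t).2
            (mem_ball_zero_iff.1 ht)).le
        exact (ψs₂ (j + 1)).symm.injective
          (hD.χinj (h2 u hu) (h2 v hv) ((Hs (j + 1)).injective huv))
      have hΦz : Hs (j + 1) (χ ((ψs₂ (j + 1)).symm z')) = w := by rw [hzz, hzy, hwy]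
      have h4 := diff_of_param (K := fun w : ℂ =>
        Hs j (toC (mapG φ χ g g₂ f ((Hs (j + 1)).symm w : OnePoint ℂ)))) isOpen_ball
        (hd₂ (j + 1)) hinj (a := z') (mem_ball_zero_iff.2 hz'1) h3 ?_
      · simp only [hΦz] at h4
        exact h4
      · filter_upwards [isOpen_ball.mem_nhds (mem_ball_zero_iff.2 hz'1)] with ζ hζ2
        simp only [(Hs (j + 1)).symm_apply_apply]
        set u : ℂ := (ψs₂ (j + 1)).symm ζ with hu
        have hu1 : u ∈ ball (0 : ℂ) 1 := mem_ball_zero_iff.2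
          ((Model.symm_lt' hM₂ (j + 1) ζ).2 (mem_ball_zero_iff.1 hζ2))
        have hψu : ψs₂ (j + 1) u = ζ := by rw [hu, (ψs₂ (j + 1)).apply_symm_apply]
        have hgu : g₂ u = (ψs₂ j).symm (bl b' ζ) := by
          rw [eq_comm, (ψs₂ j).symm_apply_eq, hM₂.conj_j j u hu1, hψu]
        rw [mapG_chi hD hu1, toC_coe, hgu]
    · -- the Julia set
      obtain ⟨K, hK1, hK2, hK3⟩ := mapG_eq hD hM.g_eq hM₂.g_eq
      have hyK : (y : OnePoint ℂ) ∉ K := by
        intro h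
        rcases hK2 h with h | ⟨u, hu, h⟩
        · rw [← hzy] at h
          exact chi_not_mem hD hz1.le h
        · have h1 : χ u = χ z := by rw [hzy]; exact OnePoint.coe_injective h
          have h2 := hD.χinj (ball_subset_closedBall hu) hz h1
          rw [h2] at hu
          rw [mem_ball_zero_iff, hz1] at hu
          exact lt_irrefl _ hu
      have hGf : ∀ᶠ v : ℂ in 𝓝 y, mapG φ χ g g₂ f (v : OnePoint ℂ) = f (v : OnePoint ℂ) := by
        have h1 : ∀ᶠ x : OnePoint ℂ in 𝓝 (y : OnePoint ℂ), x ∉ K :=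
          hK1.isOpen_compl.mem_nhds hyK
        filter_upwards [(OnePoint.continuous_coe.tendsto y).eventually h1] with v hv
        exact hK3 _ hv
      have hfy : f (y : OnePoint ℂ) ≠ OnePoint.infty := by
        rw [← hGf.self_of_nhds]; exact hw
      obtain ⟨F, hF1, hF2⟩ := rat_finite (by omega) hf hfy
      obtain ⟨U, hU1, hU2, hU3⟩ := hU j
      obtain ⟨V, hV1, hV2, hV3⟩ := hU (j + 1)
      have hyJ : y ∈ φ '' sphere 0 1 := by
        rw [hD.bdry]; exact ⟨z, mem_sphere_zero_iff_norm.2 hz1, hzy⟩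
      have hFyJ : F y ∈ φ '' sphere 0 1 := by
        rw [hD.bdry]
        have h1 := hF2.self_of_nhds
        rw [← hzy, hfχ z hz1.le] at h1
        refine ⟨bl b z, mem_sphere_zero_iff_norm.2 (hBb.sphere z hz1), ?_⟩
        rw [← hzy]
        exact OnePoint.coe_injective h1
      have h3 : DifferentiableAt ℂ (fun v => Hs j (F v)) y :=
        DifferentiableAt.comp y (g := Hs j) (hU3.differentiableAt (hU1.mem_nhds (hU2 hFyJ))) hF1
      have h4 := diff_of_param (K := fun w : ℂ =>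
        Hs j (toC (mapG φ χ g g₂ f ((Hs (j + 1)).symm w : OnePoint ℂ)))) hV1 hV3
        ((Hs (j + 1)).injective.injOn) (hV2 hyJ) h3 ?_
      · rw [← hwy] at h4
        exact h4
      · filter_upwards [hGf, hF2] with v hv1 hv2
        simp only [(Hs (j + 1)).symm_apply_apply]
        rw [hv1, hv2, toC_coe]

/-- The new map is holomorphic near the Julia set. -/
theorem hol_J (hm : 1 ≤ m) (hBa : BlFacts a') (hBb : BlFacts b) (hBb' : BlFacts b')
    (hM : Model a a' k r g ψ ψs) (hM₂ : Model b b' k r g₂ ψ₂ ψs₂)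
    (hf : IsRat (m + 1) f) (hD : MateData a b f φ χ)
    (hfχ : ∀ z : ℂ, ‖z‖ ≤ 1 → f (χ z : OnePoint ℂ) = (χ (bl b z) : OnePoint ℂ))
    {Hs : ℕ → ℂ ≃ₜ ℂ}
    (hd : ∀ j, DifferentiableOn ℂ (fun z => Hs j (φ ((ψs j).symm z))) (ball 0 1 \ {0}))
    (hd₂ : ∀ j, DifferentiableOn ℂ (fun z => Hs j (χ ((ψs₂ j).symm z))) (ball 0 1))
    (hU : ∀ j, ∃ U : Set ℂ, IsOpen U ∧ φ '' sphere 0 1 ⊆ U ∧ DifferentiableOn ℂ (Hs j) U)
    {h : ℂ ≃ₜ ℂ} {s : ℕ → ℕ}
    (hl1 : TendstoLocallyUniformly (fun i => (Hs (s i) : ℂ → ℂ)) h atTop)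
    (hl2 : TendstoLocallyUniformly (fun i => ((Hs (s i + 1)).symm : ℂ → ℂ)) h.symm atTop)
    {ζ : ℂ} (hζ : ‖ζ‖ = 1) :
    ∃ N : Set ℂ, IsOpen N ∧ h (χ ζ) ∈ N ∧ ∀ w ∈ N,
      newF h φ χ g g₂ f (w : OnePoint ℂ) ≠ OnePoint.infty ∧
      DifferentiableAt ℂ (fun w : ℂ => toC (newF h φ χ g g₂ f (w : OnePoint ℂ))) w := by
  set G := mapG φ χ g g₂ f with hG
  have hGc : Continuous G := continuous_mapG hD hf.1 hM.g_cont hM.g_maps hM₂.g_cont hM₂.g_maps
    hM.g_eq hM₂.g_eq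
  set O : Set ℂ := {y : ℂ | G (y : OnePoint ℂ) ≠ OnePoint.infty} with hO
  have hOo : IsOpen O := by
    have h1 : IsOpen ({OnePoint.infty}ᶜ : Set (OnePoint ℂ)) := OnePoint.isClosed_infty.isOpen_compl
    exact h1.preimage (hGc.comp OnePoint.continuous_coe)
  set y₀ : ℂ := χ ζ with hy₀
  have hG0 : G (y₀ : OnePoint ℂ) = (χ (bl b ζ) : OnePoint ℂ) := by
    have h1 : G (y₀ : OnePoint ℂ) = f (y₀ : OnePoint ℂ) := by
      refine mapG_of_not (chi_not_mem hD hζ.le) ?_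
      rintro ⟨u, hu, h⟩
      have h2 := hD.χinj (ball_subset_closedBall hu) (mem_closedBall_zero_iff.2 hζ.le)
        (OnePoint.coe_injective h)
      rw [h2, mem_ball_zero_iff, hζ] at hu
      exact lt_irrefl _ hu
    rw [h1, hfχ ζ hζ.le]
  have hy₀O : y₀ ∈ O := by
    rw [hO, mem_ofPred_eq, hG0]
    exact OnePoint.coe_ne_infty _
  have hsy : h.symm (h y₀) = y₀ := h.symm_apply_apply y₀
  have hc2 : CC (fun i => ((Hs (s i + 1)).symm : ℂ → ℂ)) h.symm (h y₀) :=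
    CC.of_unif hl2 h.symm.continuous.continuousAt
  have h1 : ∀ᶠ q : ℕ × ℂ in atTop ×ˢ 𝓝 (h y₀), (Hs (s q.1 + 1)).symm q.2 ∈ O := by
    refine hc2.eventually (hOo.mem_nhds ?_)
    rw [hsy]; exact hy₀O
  obtain ⟨pa, hpa, pb, hpb, hpp⟩ := eventually_prod_iff.1 h1
  obtain ⟨N₁, hN₁, hN₁o, hN₁m⟩ := _root_.mem_nhds_iff.1 hpb
  set N : Set ℂ := N₁ ∩ h.symm ⁻¹' O with hN
  have hNo : IsOpen N := hN₁o.inter (hOo.preimage h.symm.continuous)
  have hnew : ∀ w : ℂ, h.symm w ∈ O → newF h φ χ g g₂ f (w : OnePoint ℂ)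
      = ((h (toC (G (h.symm w : OnePoint ℂ))) : ℂ) : OnePoint ℂ) := by
    intro w hw
    rw [newF, ext_coe, ← ext_coe h, coe_toC hw]
  have hgc : ∀ y ∈ O, ContinuousAt (fun y : ℂ => toC (G (y : OnePoint ℂ))) y := by
    intro y hy
    exact ContinuousAt.comp (f := fun y : ℂ => G (y : OnePoint ℂ)) (g := toC)
      (continuousAt_toC hy) (hGc.comp OnePoint.continuous_coe).continuousAt
  have hlimc : ∀ x : ℂ, h.symm x ∈ O →
      ContinuousAt (fun w : ℂ => h (toC (G (h.symm w : OnePoint ℂ)))) x := by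
    intro x hx
    have e1 : ContinuousAt (fun w : ℂ => toC (G (h.symm w : OnePoint ℂ))) x :=
      ContinuousAt.comp (f := h.symm) (g := fun y : ℂ => toC (G (y : OnePoint ℂ)))
        (hgc _ hx) h.symm.continuous.continuousAt
    exact ContinuousAt.comp (f := fun w : ℂ => toC (G (h.symm w : OnePoint ℂ))) (g := h)
      h.continuous.continuousAt e1
  have hunif : TendstoLocallyUniformlyOn
      (fun (i : ℕ) (w : ℂ) => Hs (s i) (toC (G ((Hs (s i + 1)).symm w : OnePoint ℂ))))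
      (fun w : ℂ => h (toC (G (h.symm w : OnePoint ℂ)))) atTop N := by
    refine CC.unif (fun x hx => ?_) (fun x hx => hlimc x hx.2)
    have e1 : CC (fun i => ((Hs (s i + 1)).symm : ℂ → ℂ)) h.symm x :=
      CC.of_unif hl2 h.symm.continuous.continuousAt
    have e2 : CC (fun (i : ℕ) (w : ℂ) => toC (G ((Hs (s i + 1)).symm w : OnePoint ℂ)))
        (fun w : ℂ => toC (G (h.symm w : OnePoint ℂ))) x :=
      CC.comp (K := fun (_ : ℕ) (y : ℂ) => toC (G (y : OnePoint ℂ)))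
        (k := fun y : ℂ => toC (G (y : OnePoint ℂ))) (CC.of_const (hgc _ hx.2)) e1
    exact CC.comp (K := fun i => (Hs (s i) : ℂ → ℂ)) (k := h)
      (CC.of_unif hl1 h.continuous.continuousAt) e2
  have hdN : DifferentiableOn ℂ (fun w : ℂ => h (toC (G (h.symm w : OnePoint ℂ)))) N := by
    refine hunif.differentiableOn ?_ hNo
    filter_upwards [hpa] with i hi w hw
    exact (diff_stage hm hBa hBb hBb' hM hM₂ hf hD hfχ hd hd₂ hU (s i)
      (hpp hi (hN₁ hw.1))).differentiableWithinAt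
  refine ⟨N, hNo, ⟨hN₁m, ?_⟩, ?_⟩
  · rw [mem_preimage, hsy]; exact hy₀O
  · intro w hw
    refine ⟨?_, ?_⟩
    · rw [hnew w hw.2]
      exact OnePoint.coe_ne_infty _
    · refine (hdN.differentiableAt (hNo.mem_nhds hw)).congr_of_eventuallyEq ?_
      filter_upwards [hNo.mem_nhds hw] with v hv
      rw [hnew v hv.2, toC_coe]

/-- The new map is holomorphic in the inner basin. -/
theorem hol_inner (hBb' : BlFacts b') (hM₂ : Model b b' k r g₂ ψ₂ ψs₂)
    (hD : MateData a b f φ χ) {h : ℂ ≃ₜ ℂ}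
    (hd₂ : DifferentiableOn ℂ (fun z => h (χ (ψ₂.symm z))) (ball 0 1))
    (hi₂ : InjOn (fun z => h (χ (ψ₂.symm z))) (ball 0 1)) {z : ℂ} (hz : z ∈ ball (0 : ℂ) 1) :
    newF h φ χ g g₂ f (h (χ (ψ₂.symm z)) : OnePoint ℂ) ≠ OnePoint.infty ∧
      DifferentiableAt ℂ (fun w : ℂ => toC (newF h φ χ g g₂ f (w : OnePoint ℂ)))
        (h (χ (ψ₂.symm z))) := by
  have hz1 : ‖z‖ < 1 := mem_ball_zero_iff.1 hz
  refine ⟨?_, ?_⟩
  · rw [semi_chi hM₂ hD h hz]
    exact OnePoint.coe_ne_infty _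
  · have hbld : DifferentiableAt ℂ (bl b') z := by
      obtain ⟨R, hR, hdR⟩ := hBb'.diff
      exact hdR.differentiableAt (isOpen_ball.mem_nhds (mem_ball_zero_iff.2 (hz1.trans hR)))
    have hblm : bl b' z ∈ ball (0 : ℂ) 1 := mem_ball_zero_iff.2 (hBb'.ball z hz1)
    have h3 : DifferentiableAt ℂ (fun ζ => h (χ (ψ₂.symm (bl b' ζ)))) z :=
      DifferentiableAt.comp z (g := fun z => h (χ (ψ₂.symm z)))
        (hd₂.differentiableAt (isOpen_ball.mem_nhds hblm)) hbld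
    refine diff_of_param (K := fun w : ℂ => toC (newF h φ χ g g₂ f (w : OnePoint ℂ)))
      isOpen_ball hd₂ hi₂ hz h3 ?_
    filter_upwards [isOpen_ball.mem_nhds hz] with ζ hζ
    rw [semi_chi hM₂ hD h hζ, toC_coe]

end Limit

end SC

open SC in
/-- Surgery. -/
theorem surgery (h1 : Stmt_SurgB) (h2 : Stmt_Rat) (h3 : Stmt_Cls) (h4 : Stmt_Bl)
    (h5 : Stmt_QSGroup) (_h6 : Stmt_ContConv) : Stmt_Surgery := by
  intro k r hk0 hk1 hr0 hr1
  obtain ⟨M, R, hR, h1⟩ := h1 k r hk0 hk1 hr0 hr1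
  refine ⟨M, R, hR, ?_⟩
  intro m hm a ha a' ha' b hb b' hb' g g₂ ψ ψ₂ ψs ψs₂ hM hM₂ f φ χ hf hD
  obtain ⟨h, Hs, s, hN, hs, hHs, l1, l2, l3, l4⟩ :=
    h1 m hm a ha a' ha' b hb b' hb' g g₂ ψ ψ₂ ψs ψs₂ hM hM₂ f φ χ hf hD
  have hPo : IsOpen (ball (0 : ℂ) 1 \ {0}) := isOpen_ball.sdiff isClosed_singleton
  have hd := fun j => (hHs j).2.2.1
  have hd₂ := fun j => (hHs j).2.2.2.1
  have hU := fun j => (hHs j).2.2.2.2
  have hfχ := ((h3 m hm a ha).1 b hb f φ χ hf.1 hD).2.2.1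
  have hφd : DifferentiableOn ℂ (fun z => h (φ (ψ.symm z))) (ball 0 1 \ {0}) := by
    refine diff_limit hM hPo sdiff_subset ?_ hD.unif.diff.continuousOn hs l1 hd
    rintro z ⟨hz, hz0⟩
    exact ⟨mem_ball_zero_iff.2 ((Model.symm_lt hM z).2 (mem_ball_zero_iff.1 hz)),
      Model.symm_ne hM hz0⟩
  have hχd : DifferentiableOn ℂ (fun z => h (χ (ψ₂.symm z))) (ball 0 1) := by
    refine diff_limit hM₂ isOpen_ball subset_rfl ?_ hD.χdiff.continuousOn hs l1 hd₂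
    intro z hz
    exact mem_ball_zero_iff.2 ((Model.symm_lt hM₂ z).2 (mem_ball_zero_iff.1 hz))
  have hD' : MateData a' b' (newF h φ χ g g₂ f) (fun z => h (φ (ψ.symm z)))
      (fun z => h (χ (ψ₂.symm z))) := mateData_new h5 hM hM₂ hD hN.wqs hφd hχd hN.norm
  have hcont : Continuous (newF h φ χ g g₂ f) := continuous_newF hM hM₂ hD hf.1 h
  obtain ⟨hCls, hcompl, -, -, -⟩ := (h3 m hm a' ha').1 b' hb' _ _ _ hcont hD'
  have hBa := h4 m hm a' ha'
  have hBb := h4 m hm b hb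
  have hBb' := h4 m hm b' hb'
  have hloc : ∀ x : ℂ, (x : OnePoint ℂ) ∉ hat (fun z => h (φ (ψ.symm z))) '' ball 0 1 →
      ∃ F : ℂ → ℂ, DifferentiableAt ℂ F x ∧ ∀ᶠ w in 𝓝 x, DifferentiableAt ℂ F w ∧
        newF h φ χ g g₂ f (w : OnePoint ℂ) = (F w : OnePoint ℂ) := by
    intro x hx
    have hx' : ∃ N : Set ℂ, IsOpen N ∧ x ∈ N ∧ ∀ w ∈ N,
        newF h φ χ g g₂ f (w : OnePoint ℂ) ≠ OnePoint.infty ∧
        DifferentiableAt ℂ (fun w : ℂ => toC (newF h φ χ g g₂ f (w : OnePoint ℂ))) w := by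
      obtain ⟨z, hz, rfl⟩ := (hcompl x).1 hx
      rcases (mem_closedBall_zero_iff.1 hz).lt_or_eq with hz1 | hz1
      · have hinj : InjOn (fun z => h (χ (ψ₂.symm z))) (ball 0 1) :=
          hD'.χinj.mono ball_subset_closedBall
        have hn := image_nhds isOpen_ball hχd hinj (mem_ball_zero_iff.2 hz1)
        obtain ⟨N, hN1, hN2, hN3⟩ := _root_.mem_nhds_iff.1 hn
        refine ⟨N, hN2, hN3, fun w hw => ?_⟩
        obtain ⟨ζ, hζ, hζw⟩ := hN1 hw
        have := hol_inner (g := g) hBb' hM₂ hD hχd hinj hζ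
        simp only at hζw
        rwa [hζw] at this
      · exact hol_J hm hBa hBb hBb' hM hM₂ hf hD hfχ hd hd₂ hU l1 l4
          ((Model.symm_eq hM₂ z).2 hz1)
    obtain ⟨N, hN1, hN2, hN3⟩ := hx'
    refine ⟨fun w : ℂ => toC (newF h φ χ g g₂ f (w : OnePoint ℂ)), (hN3 x hN2).2, ?_⟩
    filter_upwards [hN1.mem_nhds hN2] with w hw
    exact ⟨(hN3 w hw).2, (coe_toC (hN3 w hw).1).symm⟩
  obtain ⟨p, hp1, hp2, hp3⟩ := h2 m hm a' ha' _ _ hcont hCls hloc
  have hrat : IsRat (m + 1) (newF h φ χ g g₂ f) := by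
    refine ⟨hcont, p, den a' (fun z => h (φ (ψ.symm z))), hp2, ?_, hp3⟩
    have hdeg : (den a' (fun z => h (φ (ψ.symm z)))).natDegree ≤ m := by
      classical
      rw [den]
      refine (natDegree_prod_le _ _).trans ?_
      refine (Finset.sum_le_card_nsmul _ _ 1 (fun j _ => natDegree_X_sub_C_le _)).trans ?_
      rw [smul_eq_mul, mul_one]
      exact (Finset.card_filter_le _ _).trans (by simp)
    rw [hp1]
    omega
  refine ⟨h, newF h φ χ g g₂ f, fun z => h (φ (ψ.symm z)), fun z => h (χ (ψ₂.symm z)), hN,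
    ⟨k, fun i => Hs (s i), hk1, fun i => (hHs (s i)).1, l1, l2⟩, hrat, hD', ?_, ?_⟩
  · intro z _ _
    simp only [ψ.symm_apply_apply]
  · intro z _
    simp only [ψ₂.symm_apply_apply]

end Pool.Agent.BlMat
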