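import Pool.Agent.BlMat.CL
import Pool.Agent.BlMat.GlueDefs

set_option autoImplicit false

/-! Stability of the inner basin. -/

namespace Pool.Agent.BlMat

open Complex Metric Set Filter Topology MeasureTheory
open scoped ComplexConjugate ContDiff

namespace ST

/-- A compact disc is mapped into a smaller one. -/
theorem contract {m : ℕ} {b : Fin m → ℂ} (hb : BlFacts b) {ρ : ℝ} (h0 : 0 < ρ) (h1 : ρ < 1) :
    ∀ z : ℂ, ‖z‖ ≤ ρ → ‖bl b z‖ < ρ := by
  intro z hz
  by_cases hz0 : z = 0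
  · rw [hz0, hb.zero, norm_zero]
    exact h0
  · exact (hb.schwarz z hz0 (by linarith)).trans_le hz

/-- A point of the basin cannot have all its iterates in a compact subset of the plane. -/
theorem escape {m : ℕ} {a : Fin m → ℂ} (ha : BlFacts a) {f : OnePoint ℂ → OnePoint ℂ}
    {φ : ℂ → ℂ} (h : Cls a f φ) {K : Set ℂ} (hK : IsCompact K) {x : OnePoint ℂ}
    (hx : ∀ k, f^[k] x ∈ (fun z : ℂ => (z : OnePoint ℂ)) '' K) : x ∉ hat φ '' ball 0 1 := by
  rintro ⟨z, hz, rfl⟩
  have h1 := ha.iter z (by rwa [mem_ball_zero_iff] at hz)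
  have h2 : Tendsto (fun k => hat φ ((bl a)^[k] z)) atTop (𝓝 (hat φ 0)) :=
    (CL.continuousAt_hat_zero h.unif).tendsto.comp h1
  have h3 : IsClosed ((fun z : ℂ => (z : OnePoint ℂ)) '' K) :=
    (hK.image OnePoint.continuous_coe).isClosed
  have h4 : hat φ 0 ∈ (fun z : ℂ => (z : OnePoint ℂ)) '' K := by
    refine h3.mem_of_tendsto h2 (Eventually.of_forall fun k => ?_)
    rw [← (CL.iterate_semi ha h k z hz).1]
    exact hx k
  obtain ⟨w, -, hw⟩ := h4
  rw [F3.hat_zero] at hw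
  exact OnePoint.coe_ne_infty _ hw

end ST

/-- Stability of the inner basin. -/
theorem stab (h1 : Stmt_Cls) (h2 : Stmt_Bl) (_h3 : Stmt_SphereTop) : Stmt_Stab := by
  intro m hm a ha b hb fs f bs φs χs φ χ hbs hD D hlim ρ hρ
  obtain ⟨ρ1, hρ1, hρ0, hρ1'⟩ : ∃ ρ1 : ℝ, ρ < ρ1 ∧ 0 < ρ1 ∧ ρ1 < 1 :=
    ⟨max ρ 0 / 2 + 1 / 2, by rcases max_cases ρ 0 with h | h <;> linarith,
      by have := le_max_right ρ 0; linarith,
      by rcases max_cases ρ 0 with h | h <;> linarith⟩
  have hfb := h2 m hm b hb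
  have hfa := h2 m hm a ha
  set K : Set ℂ := χ '' closedBall 0 ρ1 with hKdef
  set U : Set ℂ := χ '' ball 0 ρ1 with hUdef
  have hK : IsCompact K := (isCompact_closedBall 0 ρ1).image_of_continuousOn
    (D.χcont.mono (closedBall_subset_closedBall hρ1'.le))
  have hU : IsOpen U := CL.isOpen_image isOpen_ball (D.χdiff.mono (ball_subset_ball hρ1'.le))
    (D.χinj.mono (ball_subset_closedBall.trans (closedBall_subset_closedBall hρ1'.le)))
  have hUK : U ⊆ K := image_mono ball_subset_closedBall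
  have hfcont : Continuous f.fn := f.1.continuous
  have hmaps : MapsTo f.fn ((fun z : ℂ => (z : OnePoint ℂ)) '' K)
      ((fun z : ℂ => (z : OnePoint ℂ)) '' U) := by
    rintro _ ⟨_, ⟨z, hz, rfl⟩, rfl⟩
    rw [mem_closedBall_zero_iff] at hz
    refine ⟨χ (bl b z), ⟨bl b z, ?_, rfl⟩, ?_⟩
    · rw [mem_ball_zero_iff]
      exact ST.contract hfb hρ0 hρ1' z hz
    · exact (CL.semiχ' hfb hfcont D (by linarith)).symm
  have hopen : IsOpen {g : C(OnePoint ℂ, OnePoint ℂ) | MapsTo g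
      ((fun z : ℂ => (z : OnePoint ℂ)) '' K) ((fun z : ℂ => (z : OnePoint ℂ)) '' U)} :=
    ContinuousMap.isOpen_setOfPred_mapsTo (hK.image OnePoint.continuous_coe)
      (OnePoint.isOpenEmbedding_coe.isOpenMap U hU)
  have hlim' : Tendsto (fun i => (fs i).1) atTop (𝓝 f.1) :=
    (continuous_subtype_val.tendsto f).comp hlim
  filter_upwards [hlim'.eventually (hopen.mem_nhds hmaps)] with i hi
  have hi' : MapsTo (fs i).fn ((fun z : ℂ => (z : OnePoint ℂ)) '' K)
      ((fun z : ℂ => (z : OnePoint ℂ)) '' U) := hi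
  obtain ⟨hcls, hnot, -, -, hint⟩ := (h1 m hm a ha).1 (bs i) (hbs i) (fs i).fn (φs i) (χs i)
    (fs i).1.continuous (hD i)
  have hsub : K ⊆ χs i '' closedBall 0 1 := by
    intro x hx
    rw [← hnot]
    refine ST.escape hfa hcls hK fun k => ?_
    induction k with
    | zero => exact ⟨x, hx, rfl⟩
    | succ k ih =>
      rw [Function.iterate_succ_apply']
      exact image_mono hUK (hi' ih)
  have h5 : U ⊆ χs i '' ball 0 1 := by
    rw [← hint]
    exact interior_maximal (hUK.trans hsub) hU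
  refine (image_mono ?_).trans h5
  intro z hz
  rw [mem_closedBall_zero_iff] at hz
  rw [mem_ball_zero_iff]
  linarith

end Pool.Agent.BlMat
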